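import Pool.Agent.Lib.MP_2a816b_nt.TA.Defs

open Complex Set Filter Topology MeasureTheory

namespace Pool.Agent.Lib.MP_2a816b_nt.TA

open Pool.Agent.Lib.MP_00e05b_nt Pool.Agent.Lib.MP_00e05b_nt.Mont Pool.Agent.Lib.MP_2a816b_nt.PV

private theorem EXB_cterm {δ : ℝ} (hδ1 : δ ≤ 1) (x : ℝ) (b : ℂ) :
    (if |b.im - x| ≤ δ then (mx b : ℝ) else 0) ≤ 4 * ((mx b : ℝ) * (1 / (1 + |x - b.im|) ^ 2)) := by
  have h0 : (0 : ℝ) ≤ mx b := Nat.cast_nonneg _
  split_ifs with h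
  · rw [abs_sub_comm] at h
    have h1 : 1 + |x - b.im| ≤ 2 := by linarith
    have h2 : (0 : ℝ) < 1 + |x - b.im| := by positivity
    have h3 : (1 + |x - b.im|) ^ 2 ≤ 4 := by nlinarith
    have h4 : 1 ≤ 4 * (1 / (1 + |x - b.im|) ^ 2) := by
      rw [mul_one_div, le_div_iff₀ (by positivity)]
      linarith
    nlinarith
  · positivity

private theorem EXB_cnn (δ x : ℝ) (b : ℂ) : 0 ≤ (if |b.im - x| ≤ δ then (mx b : ℝ) else 0) := by
  split_ifs
  · exact Nat.cast_nonneg _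
  · exact le_rfl

/-- Summability and bound for `cl`. -/
private theorem EXB_cl (hRH : RiemannHypothesis) : ∃ C : ℝ, 0 ≤ C ∧ ∀ δ : ℝ, δ ≤ 1 → ∀ a : ℂ,
    Summable (fun b : ℂ => if |b.im - a.im| ≤ δ then (mx b : ℝ) else 0) ∧
    cl δ a ≤ C * Real.log (2 + |a.im|) := by
  obtain ⟨C, hC, h⟩ := local_count hRH
  refine ⟨4 * C, by positivity, fun δ hδ1 a => ?_⟩
  have hs : Summable (fun b : ℂ => if |b.im - a.im| ≤ δ then (mx b : ℝ) else 0) :=
    Summable.of_nonneg_of_le (fun b => EXB_cnn δ a.im b) (fun b => EXB_cterm hδ1 a.im b) ((h a.im).1.mul_left 4)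
  refine ⟨hs, ?_⟩
  unfold cl
  refine (hs.tsum_le_tsum (fun b => EXB_cterm hδ1 a.im b) ((h a.im).1.mul_left 4)).trans ?_
  rw [tsum_mul_left]
  have := (h a.im).2
  linarith

private theorem EXB_cl_ge (hRH : RiemannHypothesis) {δ : ℝ} (hδ : 0 < δ) (hδ1 : δ ≤ 1) {a : ℂ} (ha : mx a ≠ 0) :
    1 ≤ cl δ a := by
  obtain ⟨C, -, h⟩ := EXB_cl hRH
  have h1 := (h δ hδ1 a).1.le_tsum a fun b _ => EXB_cnn δ a.im b
  rw [sub_self, abs_zero, if_pos hδ.le] at h1
  have h2 : (1 : ℝ) ≤ mx a := by exact_mod_cast Nat.one_le_iff_ne_zero.2 ha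
  exact h2.trans h1

private theorem EXB_tnn (hRH : RiemannHypothesis) {W : ℝ → ℝ} {δ : ℝ} (hδ : 0 < δ) (hδ1 : δ ≤ 1) (t : ℝ) (a : ℂ) :
    0 ≤ (mx a : ℝ) * ck W (t - a.im) ^ 2 * (cl δ a - 1) := by
  by_cases ha : mx a = 0
  · rw [ha, Nat.cast_zero, zero_mul, zero_mul]
  · have h1 := EXB_cl_ge hRH hδ hδ1 ha
    have h2 : 0 ≤ cl δ a - 1 := by linarith
    positivity

/-- LEAF EXB (basic facts on the excess). `cl δ a ≥ 1` if `mx a ≠ 0`; `cl δ a ≤ C log (2 + |a.im|)` for `δ ≤ 1` by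
`local_count`; so `EX` is nonnegative, `≤ C log (2 + |t|)²`, and continuous (or measurable) in `t`. -/
theorem EX_nonneg (hRH : RiemannHypothesis) {W : ℝ → ℝ} (hW : EB W (1 / 8)) {δ : ℝ} (hδ : 0 < δ) (hδ1 : δ ≤ 1) (t : ℝ) :
    0 ≤ EX W δ t := tsum_nonneg fun a => EXB_tnn hRH hδ hδ1 t a

/-- The terms are bounded by `C (mx a) / (1 + |t - a.im|)^6 * log (2 + |a.im|)`. -/
private theorem EXB_tle (hRH : RiemannHypothesis) {W : ℝ → ℝ} (hW : EB W (1 / 8)) : ∃ C : ℝ, 0 ≤ C ∧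
    ∀ δ : ℝ, 0 < δ → δ ≤ 1 → ∀ (t : ℝ) (a : ℂ), (mx a : ℝ) * ck W (t - a.im) ^ 2 * (cl δ a - 1) ≤
      C * ((mx a : ℝ) / (1 + |t - a.im|) ^ 6 * Real.log (2 + |a.im|)) := by
  obtain ⟨C1, hC1, h1⟩ := ck_bound hW.es (by norm_num)
  obtain ⟨C2, hC2, h2⟩ := EXB_cl hRH
  refine ⟨C1 ^ 2 * C2, by positivity, fun δ hδ hδ1 t a => ?_⟩
  have h3 := h1 (t - a.im)
  have h4 := (h2 δ hδ1 a).2
  have hx : (0 : ℝ) < 1 + |t - a.im| := by positivity
  have h5 : ck W (t - a.im) ^ 2 ≤ C1 ^ 2 / (1 + |t - a.im|) ^ 6 := by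
    rw [← sq_abs (ck W (t - a.im))]
    refine (pow_le_pow_left₀ (abs_nonneg _) h3 2).trans (le_of_eq ?_)
    rw [div_pow]
    congr 1
    ring
  have hm : (0 : ℝ) ≤ mx a := Nat.cast_nonneg _
  have hl : 0 ≤ Real.log (2 + |a.im|) := Real.log_nonneg (by linarith [abs_nonneg a.im])
  calc (mx a : ℝ) * ck W (t - a.im) ^ 2 * (cl δ a - 1)
      ≤ (mx a : ℝ) * ck W (t - a.im) ^ 2 * (C2 * Real.log (2 + |a.im|)) :=
        mul_le_mul_of_nonneg_left (by linarith) (by positivity)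
    _ ≤ (mx a : ℝ) * (C1 ^ 2 / (1 + |t - a.im|) ^ 6) * (C2 * Real.log (2 + |a.im|)) :=
        mul_le_mul_of_nonneg_right (mul_le_mul_of_nonneg_left h5 hm) (by positivity)
    _ = C1 ^ 2 * C2 * ((mx a : ℝ) / (1 + |t - a.im|) ^ 6 * Real.log (2 + |a.im|)) := by ring

private theorem EXB_log (t x : ℝ) : Real.log (2 + |x|) ≤ 2 * Real.log (2 + |t|) * (1 + |t - x|) := by
  have hl : 1 / 2 ≤ Real.log (2 + |t|) := by
    have h1 : Real.log 2 ≤ Real.log (2 + |t|) := Real.log_le_log (by norm_num) (by linarith [abs_nonneg t])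
    linarith [Real.log_two_gt_d9]
  have h1 : 2 + |x| ≤ (2 + |t|) * (1 + |t - x|) := by
    have h2 : |x| ≤ |t| + |t - x| := by
      have h6 := abs_sub_abs_le_abs_sub x t
      rw [abs_sub_comm x t] at h6
      linarith
    have h3 : 0 ≤ |t - x| := abs_nonneg _
    have h4 : 0 ≤ |t| := abs_nonneg _
    nlinarith
  have h5 : Real.log (2 + |x|) ≤ Real.log (2 + |t|) + Real.log (1 + |t - x|) := by
    rw [← Real.log_mul (by positivity) (by positivity)]
    exact Real.log_le_log (by positivity) h1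
  have h6 : Real.log (1 + |t - x|) ≤ |t - x| := by
    have := Real.log_le_sub_one_of_pos (show (0 : ℝ) < 1 + |t - x| by positivity)
    linarith
  nlinarith [abs_nonneg (t - x)]

/-- Summability and the bound `EX ≤ C log² (2 + |t|)`. -/
private theorem EXB_le (hRH : RiemannHypothesis) {W : ℝ → ℝ} (hW : EB W (1 / 8)) : ∃ C : ℝ, 0 ≤ C ∧
    ∀ δ : ℝ, 0 < δ → δ ≤ 1 → ∀ t : ℝ,
      Summable (fun a : ℂ => (mx a : ℝ) * ck W (t - a.im) ^ 2 * (cl δ a - 1)) ∧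
      EX W δ t ≤ C * Real.log (2 + |t|) ^ 2 := by
  obtain ⟨C1, hC1, h1⟩ := EXB_tle hRH hW
  obtain ⟨C2, hC2, h2⟩ := local_count hRH
  refine ⟨2 * C1 * C2, by positivity, fun δ hδ hδ1 t => ?_⟩
  have hl : 0 ≤ Real.log (2 + |t|) := Real.log_nonneg (by linarith [abs_nonneg t])
  have hle : ∀ a : ℂ, (mx a : ℝ) * ck W (t - a.im) ^ 2 * (cl δ a - 1) ≤
      2 * C1 * Real.log (2 + |t|) * ((mx a : ℝ) * (1 / (1 + |t - a.im|) ^ 2)) := by
    intro a
    refine (h1 δ hδ hδ1 t a).trans ?_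
    have hx : (1 : ℝ) ≤ 1 + |t - a.im| := by linarith [abs_nonneg (t - a.im)]
    have hm : (0 : ℝ) ≤ mx a := Nat.cast_nonneg _
    have h3 : (mx a : ℝ) / (1 + |t - a.im|) ^ 6 * Real.log (2 + |a.im|) ≤
        (mx a : ℝ) / (1 + |t - a.im|) ^ 6 * (2 * Real.log (2 + |t|) * (1 + |t - a.im|)) :=
      mul_le_mul_of_nonneg_left (EXB_log t a.im) (by positivity)
    have h4 : (mx a : ℝ) / (1 + |t - a.im|) ^ 6 * (2 * Real.log (2 + |t|) * (1 + |t - a.im|)) =
        2 * Real.log (2 + |t|) * ((mx a : ℝ) * (1 / (1 + |t - a.im|) ^ 5)) := by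
      field_simp
    have h5 : 1 / (1 + |t - a.im|) ^ 5 ≤ 1 / (1 + |t - a.im|) ^ 2 :=
      one_div_le_one_div_of_le (by positivity) (pow_le_pow_right₀ hx (by norm_num))
    have h6 : (mx a : ℝ) / (1 + |t - a.im|) ^ 6 * Real.log (2 + |a.im|) ≤
        2 * Real.log (2 + |t|) * ((mx a : ℝ) * (1 / (1 + |t - a.im|) ^ 2)) := by
      refine h3.trans ?_
      rw [h4]
      exact mul_le_mul_of_nonneg_left (mul_le_mul_of_nonneg_left h5 hm) (by positivity)
    calc C1 * ((mx a : ℝ) / (1 + |t - a.im|) ^ 6 * Real.log (2 + |a.im|))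
        ≤ C1 * (2 * Real.log (2 + |t|) * ((mx a : ℝ) * (1 / (1 + |t - a.im|) ^ 2))) :=
          mul_le_mul_of_nonneg_left h6 hC1
      _ = _ := by ring
  have hsum := (h2 t).1.mul_left (2 * C1 * Real.log (2 + |t|))
  have hs : Summable (fun a : ℂ => (mx a : ℝ) * ck W (t - a.im) ^ 2 * (cl δ a - 1)) :=
    Summable.of_nonneg_of_le (fun a => EXB_tnn hRH hδ hδ1 t a) hle hsum
  refine ⟨hs, ?_⟩
  unfold EX
  refine (hs.tsum_le_tsum hle hsum).trans ?_
  rw [tsum_mul_left]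
  have h3 := mul_le_mul_of_nonneg_left (h2 t).2 (show 0 ≤ 2 * C1 * Real.log (2 + |t|) by positivity)
  refine h3.trans (le_of_eq ?_)
  ring

private theorem EXB_cont (hRH : RiemannHypothesis) {W : ℝ → ℝ} (hW : EB W (1 / 8)) {δ : ℝ} (hδ : 0 < δ) (hδ1 : δ ≤ 1) :
    Continuous (EX W δ) := by
  obtain ⟨C, hC, h⟩ := EXB_tle hRH hW
  have hcont : ∀ M : ℝ, 0 ≤ M → ContinuousOn (EX W δ) (Icc (-M) M) := by
    intro M hM
    unfold EX
    refine continuousOn_tsum (u := fun a : ℂ => (C * (1 + M) ^ 6) * ((mx a : ℝ) / (1 + |a.im - 0|) ^ 3)) (fun a => ?_)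
      ((summable_cube 0).mul_left _) (fun a t ht => ?_)
    · refine Continuous.continuousOn ?_
      have h1 : Continuous (fun t : ℝ => ck W (t - a.im)) :=
        (ck_continuous hW.es).comp (continuous_id.sub continuous_const)
      exact (continuous_const.mul (h1.pow 2)).mul continuous_const
    · rw [Real.norm_eq_abs, abs_of_nonneg (EXB_tnn hRH hδ hδ1 t a)]
      refine (h δ hδ hδ1 t a).trans ?_
      have h2 : (0 : ℝ) ≤ mx a := Nat.cast_nonneg _
      have h3 : |t| ≤ M := abs_le.2 ht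
      have h4 : 1 + |a.im| ≤ (1 + M) * (1 + |t - a.im|) := by
        have h5 : |a.im| ≤ |t| + |t - a.im| := by
          have h6 := abs_sub_abs_le_abs_sub a.im t
          rw [abs_sub_comm a.im t] at h6
          linarith
        have h7 : 0 ≤ |t - a.im| := abs_nonneg _
        nlinarith
      have h8 : Real.log (2 + |a.im|) ≤ 1 + |a.im| := by
        have := Real.log_le_sub_one_of_pos (show (0 : ℝ) < 2 + |a.im| by positivity)
        linarith
      have h9 : (1 + |a.im|) ^ 6 ≤ (1 + M) ^ 6 * (1 + |t - a.im|) ^ 6 := by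
        rw [← mul_pow]
        exact pow_le_pow_left₀ (by positivity) h4 6
      have ha1 : (1 : ℝ) ≤ 1 + |a.im| := by linarith [abs_nonneg a.im]
      have h10 : 1 / (1 + |t - a.im|) ^ 6 ≤ (1 + M) ^ 6 / (1 + |a.im|) ^ 6 := by
        rw [div_le_div_iff₀ (by positivity) (by positivity), one_mul]
        exact h9
      have h11 : (mx a : ℝ) / (1 + |t - a.im|) ^ 6 * Real.log (2 + |a.im|) ≤
          (1 + M) ^ 6 * ((mx a : ℝ) / (1 + |a.im|) ^ 3) := by
        have e1 : (mx a : ℝ) / (1 + |t - a.im|) ^ 6 * Real.log (2 + |a.im|) ≤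
            (mx a : ℝ) * ((1 + M) ^ 6 / (1 + |a.im|) ^ 6) * (1 + |a.im|) := by
          refine mul_le_mul ?_ h8 (Real.log_nonneg (by linarith)) (by positivity)
          rw [div_eq_mul_one_div]
          exact mul_le_mul_of_nonneg_left h10 h2
        have e2 : (mx a : ℝ) * ((1 + M) ^ 6 / (1 + |a.im|) ^ 6) * (1 + |a.im|) =
            (1 + M) ^ 6 * ((mx a : ℝ) / (1 + |a.im|) ^ 5) := by
          field_simp
        have e3 : (mx a : ℝ) / (1 + |a.im|) ^ 5 ≤ (mx a : ℝ) / (1 + |a.im|) ^ 3 :=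
          div_le_div_of_nonneg_left h2 (by positivity) (pow_le_pow_right₀ ha1 (by norm_num))
        rw [e2] at e1
        exact e1.trans (mul_le_mul_of_nonneg_left e3 (by positivity))
      rw [sub_zero, mul_assoc]
      exact mul_le_mul_of_nonneg_left h11 hC
  rw [continuous_iff_continuousAt]
  intro t
  exact (hcont (|t| + 1) (by positivity)).continuousAt
    (Icc_mem_nhds (by linarith [neg_abs_le t]) (by linarith [le_abs_self t]))

private theorem EXB_slc (l : ℝ) : Continuous (fun t => sl l t) :=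
  sl_cont.comp (continuous_const.prodMk continuous_id)

private theorem EXB_sl2 (l : ℝ) {t : ℝ} (ht : 1 < t) : sl l t ^ 2 ≤ 4 / t ^ 2 := by
  have h1 := sl_mul_le l t
  have ht0 : 0 < t := by linarith
  rw [le_div_iff₀ (by positivity), ← sq_abs (sl l t), ← sq_abs t, ← mul_pow, mul_comm]
  calc (|t| * |sl l t|) ^ 2 ≤ 2 ^ 2 := pow_le_pow_left₀ (by positivity) h1 2
    _ = 4 := by norm_num

/-- Integrability of `sl² f` on `(1, ∞)` for continuous `f` with `0 ≤ f ≤ C log²`. -/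
private theorem EXB_int {f : ℝ → ℝ} (hf : Continuous f) {C : ℝ} (hC : 0 ≤ C) (h0 : ∀ t, 0 ≤ f t)
    (h : ∀ t, f t ≤ C * Real.log (2 + |t|) ^ 2) (l : ℝ) :
    IntegrableOn (fun t : ℝ => sl l t ^ 2 * f t) (Ioi 1) := by
  have hi : IntegrableOn (fun t : ℝ => (4 * C * 32) * t ^ (-(3 / 2) : ℝ)) (Ioi 1) :=
    (integrableOn_Ioi_rpow_of_lt (by norm_num) one_pos).const_mul _
  refine Integrable.mono' hi (((EXB_slc l).pow 2).mul hf).aestronglyMeasurable.restrict ?_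
  refine (ae_restrict_iff' measurableSet_Ioi).2 (Eventually.of_forall fun t ht => ?_)
  have ht1 : (1 : ℝ) < t := ht
  have ht0 : 0 < t := by linarith
  rw [Real.norm_eq_abs, abs_of_nonneg (mul_nonneg (sq_nonneg _) (h0 t))]
  have hq : Real.log (2 + |t|) ^ 2 ≤ 32 * t ^ (1 / 2 : ℝ) := by
    rw [abs_of_pos ht0]
    have h1 : Real.log (2 + t) ≤ (2 + t) ^ (1 / 4 : ℝ) / (1 / 4) :=
      Real.log_le_rpow_div (by linarith) (by norm_num)
    have h2 : 0 ≤ Real.log (2 + t) := Real.log_nonneg (by linarith)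
    have h3 : Real.log (2 + t) ^ 2 ≤ ((2 + t) ^ (1 / 4 : ℝ) / (1 / 4)) ^ 2 := pow_le_pow_left₀ h2 h1 2
    have h4 : ((2 + t) ^ (1 / 4 : ℝ) / (1 / 4)) ^ 2 = 16 * (2 + t) ^ (1 / 2 : ℝ) := by
      rw [div_pow, ← Real.rpow_natCast ((2 + t) ^ (1 / 4 : ℝ)) 2, ← Real.rpow_mul (by linarith)]
      norm_num
      ring
    have h5 : (2 + t) ^ (1 / 2 : ℝ) ≤ (4 * t) ^ (1 / 2 : ℝ) :=
      Real.rpow_le_rpow (by linarith) (by linarith) (by norm_num)
    have h6 : (4 * t) ^ (1 / 2 : ℝ) = 2 * t ^ (1 / 2 : ℝ) := by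
      rw [Real.mul_rpow (by norm_num) ht0.le]
      congr 1
      rw [← Real.sqrt_eq_rpow]
      have : (4 : ℝ) = 2 ^ 2 := by norm_num
      rw [this, Real.sqrt_sq (by norm_num)]
    rw [h4] at h3
    rw [h6] at h5
    linarith
  have h1 : sl l t ^ 2 * f t ≤ 4 / t ^ 2 * (C * (32 * t ^ (1 / 2 : ℝ))) := by
    refine mul_le_mul (EXB_sl2 l ht1) ((h t).trans (mul_le_mul_of_nonneg_left hq hC)) (h0 t) (by positivity)
  refine h1.trans (le_of_eq ?_)
  have h2 : t ^ (-(3 / 2) : ℝ) = t ^ (1 / 2 : ℝ) / t ^ 2 := by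
    rw [← Real.rpow_natCast t 2, ← Real.rpow_sub ht0]
    norm_num
  rw [h2]
  ring

theorem EX_int (hRH : RiemannHypothesis) {W : ℝ → ℝ} (hW : EB W (1 / 8)) {δ : ℝ} (hδ : 0 < δ) (hδ1 : δ ≤ 1)
    {l : ℝ} (hl : 0 < l) : IntegrableOn (fun t : ℝ => sl l t ^ 2 * EX W δ t) (Ioi 1) := by
  obtain ⟨C, hC, h⟩ := EXB_le hRH hW
  exact EXB_int (EXB_cont hRH hW hδ hδ1) hC (fun t => EX_nonneg hRH hW hδ hδ1 t) (fun t => (h δ hδ hδ1 t).2) l

theorem NC_mono {T δ δ' : ℝ} (h : δ ≤ δ') : NC T δ ≤ NC T δ' := by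
  unfold NC
  refine sub_le_sub_right (Finset.sum_le_sum fun x _ => Finset.sum_le_sum fun y _ => ?_) _
  by_cases h1 : |x - y| ≤ δ
  · rw [if_pos h1, if_pos (h1.trans h)]
  · rw [if_neg h1]
    split_ifs
    · positivity
    · exact le_rfl

theorem NC_nonneg {T δ : ℝ} (h : 0 < δ) : 0 ≤ NC T δ := by
  unfold NC
  rw [sub_nonneg]
  refine Finset.sum_le_sum fun x hx => ?_
  have h1 : (if |x - x| ≤ δ then (mult x : ℝ) * (mult x : ℝ) else 0) ≤
      ∑ y ∈ ordinates T, if |x - y| ≤ δ then (mult x : ℝ) * (mult y : ℝ) else 0 := by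
    refine Finset.single_le_sum (f := fun y => if |x - y| ≤ δ then (mult x : ℝ) * (mult y : ℝ) else 0)
      (fun y _ => ?_) hx
    split_ifs
    · positivity
    · exact le_rfl
  rw [sub_self, abs_zero, if_pos h.le] at h1
  refine le_trans ?_ h1
  have h2 : mult x ≤ mult x * mult x := Nat.le_mul_self _
  exact_mod_cast h2

private theorem EXB_ck {W : ℝ → ℝ} (hW : EB W (1 / 8)) {x : ℝ} (hx1 : 1 ≤ x) (hx2 : x ≤ 2) :
    1 / 2 * ∫ u, W u ≤ ck W x := by
  have hc : Continuous fun u : ℝ => W u * Real.cos (x * u) := hW.smooth.continuous.mul (by fun_prop)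
  have hi2 : Integrable fun u : ℝ => W u * Real.cos (x * u) := by
    refine hc.integrable_of_hasCompactSupport ?_
    refine HasCompactSupport.intro (K := Set.Icc (-(1 / 8)) (1 / 8)) isCompact_Icc fun u hu => ?_
    have : 1 / 8 ≤ |u| := by
      by_contra hcon
      exact hu (abs_le.1 (not_le.1 hcon).le)
    rw [hW.supp u this, zero_mul]
  unfold ck
  rw [← integral_const_mul]
  refine integral_mono (hW.es.integrable.const_mul _) hi2 fun u => ?_
  show 1 / 2 * W u ≤ W u * Real.cos (x * u)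
  rcases le_or_gt (1 / 8) |u| with h | h
  · rw [hW.supp u h, mul_zero, zero_mul]
  · have h1 : |x * u| ≤ Real.pi / 3 := by
      rw [abs_mul, abs_of_nonneg (by linarith)]
      have h2 : x * |u| ≤ 2 * (1 / 8) := mul_le_mul hx2 h.le (abs_nonneg _) (by norm_num)
      linarith [Real.pi_gt_three]
    have h3 : (1 / 2 : ℝ) ≤ Real.cos (x * u) := by
      rw [← Real.cos_abs (x * u), ← Real.cos_pi_div_three]
      exact Real.cos_le_cos_of_nonneg_of_le_pi (abs_nonneg _) (by linarith [Real.pi_pos]) h1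
    rw [mul_comm]
    exact mul_le_mul_of_nonneg_left h3 (hW.nonneg u)

private theorem EXB_pos {W : ℝ → ℝ} (hW : EB W (1 / 8)) : 0 < ∫ u, W u := by
  refine hW.smooth.continuous.integral_pos_of_hasCompactSupport_nonneg_nonzero (x := 0)
    hW.es.compact hW.nonneg ?_
  rw [hW.one 0 (by rw [abs_zero]; norm_num)]
  exact one_ne_zero

private theorem EXB_sl {T l t : ℝ} (hT : 8 ≤ T) (hl : 0 < l) (hlT : l ≤ 5 / (2 * T)) (ht : 0 < t)
    (htT : t ≤ T + 2) : 2 / Real.pi * l ≤ sl l t := by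
  rw [sl_eq l ht.ne']
  have h1 : l * t / 2 ≤ Real.pi / 2 := by
    have hT0 : 0 < T := by linarith
    have h2 : l * t ≤ 5 / (2 * T) * (T + 2) := mul_le_mul hlT htT ht.le (by positivity)
    have h3 : 5 / (2 * T) * (T + 2) ≤ 25 / 8 := by
      rw [div_mul_eq_mul_div, div_le_div_iff₀ (by positivity) (by norm_num)]
      nlinarith
    have h4 := Real.pi_gt_d6
    linarith
  have h2 : 2 / Real.pi * (l * t / 2) ≤ Real.sin (l * t / 2) :=
    Real.mul_le_sin (by positivity) h1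
  rw [le_div_iff₀ ht]
  have : 2 / Real.pi * l * t = 2 * (2 / Real.pi * (l * t / 2)) := by ring
  linarith

/-- For `x` in `[1, 2]` `ck W x ≥ (1/2) ∫ W > 0` (`|x u| ≤ 1/4`). For a zero with `0 < γ ≤ T` use `t ∈ [γ + 1, γ + 2] ⊂ [1, T + 2]`;
there `sl l t = 2 sin (l t/2)/t ≥ (2/π) l` because `l t/2 ≤ (5/(4 T)) (T + 2) ≤ π/2`. `NC T δ = ∑ m_γ (∑_{|γ - γ'| ≤ δ, γ' ≤ T} m' - 1)
≤ ∑_{γ ∈ ordinates T} m_γ (cl δ (1/2 + iγ) - 1)`. -/
theorem exl (hRH : RiemannHypothesis) {W : ℝ → ℝ} (hW : EB W (1 / 8)) : ∃ c : ℝ, 0 < c ∧ ∀ T : ℝ, 8 ≤ T →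
    ∀ l δ : ℝ, 0 < l → l ≤ 5 / (2 * T) → 0 < δ → δ ≤ 1 →
      c * l ^ 2 * NC T δ ≤ ∫ t in Ioi (1 : ℝ), sl l t ^ 2 * EX W δ t := by
  classical
  obtain ⟨C1, hC1, hb1⟩ := ck_bound hW.es (by norm_num)
  obtain ⟨C2, hC2, hb2⟩ := EXB_cl hRH
  obtain ⟨C3, hC3, hb3⟩ := EXB_le hRH hW
  have hI := EXB_pos hW
  obtain ⟨k, hk⟩ : ∃ k : ℝ, k = 1 / 2 * ∫ u, W u := ⟨_, rfl⟩
  have hk0 : 0 < k := by rw [hk]; positivity
  refine ⟨(2 / Real.pi * k) ^ 2, by positivity, fun T hT l δ hl hlT hδ hδ1 => ?_⟩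
  have hinj : Function.Injective (fun γ : ℝ => (1 / 2 + γ * I : ℂ)) := by
    intro a b h
    have := congrArg Complex.im h
    simpa using this
  -- the contribution of one zero
  have hone : ∀ γ ∈ ordinates T, IntegrableOn (fun t : ℝ => sl l t ^ 2 * ck W (t - γ) ^ 2) (Ioi 1) ∧
      (2 / Real.pi * k) ^ 2 * l ^ 2 ≤ ∫ t in Ioi (1 : ℝ), sl l t ^ 2 * ck W (t - γ) ^ 2 := by
    intro γ hγ
    obtain ⟨hg0, hgT, -⟩ := mem_ordinates.1 hγ
    have hcc : Continuous (fun t : ℝ => ck W (t - γ) ^ 2) :=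
      ((ck_continuous hW.es).comp (continuous_id.sub continuous_const)).pow 2
    have hint : IntegrableOn (fun t : ℝ => sl l t ^ 2 * ck W (t - γ) ^ 2) (Ioi 1) := by
      refine EXB_int hcc (C := 4 * C1 ^ 2) (by positivity) (fun t => sq_nonneg _) (fun t => ?_) l
      have h1 := hb1 (t - γ)
      have h2 : C1 / (1 + |t - γ|) ^ 3 ≤ C1 := by
        refine div_le_self hC1 (one_le_pow₀ ?_)
        linarith [abs_nonneg (t - γ)]
      have h3 : ck W (t - γ) ^ 2 ≤ C1 ^ 2 := by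
        rw [← sq_abs]
        exact pow_le_pow_left₀ (abs_nonneg _) (h1.trans h2) 2
      have h4 : 1 / 2 ≤ Real.log (2 + |t|) := by
        have h5 : Real.log 2 ≤ Real.log (2 + |t|) := Real.log_le_log (by norm_num) (by linarith [abs_nonneg t])
        linarith [Real.log_two_gt_d9]
      have h5 : 1 ≤ 4 * Real.log (2 + |t|) ^ 2 := by nlinarith
      calc ck W (t - γ) ^ 2 ≤ C1 ^ 2 * 1 := by linarith
        _ ≤ C1 ^ 2 * (4 * Real.log (2 + |t|) ^ 2) := mul_le_mul_of_nonneg_left h5 (by positivity)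
        _ = 4 * C1 ^ 2 * Real.log (2 + |t|) ^ 2 := by ring
    refine ⟨hint, ?_⟩
    have hsub : Icc (γ + 1) (γ + 2) ⊆ Ioi (1 : ℝ) := by
      intro t ht
      have := ht.1
      show 1 < t
      linarith
    have h1 : ∫ t in Icc (γ + 1) (γ + 2), sl l t ^ 2 * ck W (t - γ) ^ 2 ≤
        ∫ t in Ioi (1 : ℝ), sl l t ^ 2 * ck W (t - γ) ^ 2 :=
      setIntegral_mono_set hint (Eventually.of_forall fun t => by positivity) (Eventually.of_forall hsub)
    refine le_trans ?_ h1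
    have h2 : ∫ _ in Icc (γ + 1) (γ + 2), (2 / Real.pi * k) ^ 2 * l ^ 2 = (2 / Real.pi * k) ^ 2 * l ^ 2 := by
      rw [setIntegral_const, smul_eq_mul, Measure.real, Real.volume_Icc]
      have : γ + 2 - (γ + 1) = 1 := by ring
      rw [this, ENNReal.ofReal_one, ENNReal.toReal_one, one_mul]
    rw [← h2]
    refine setIntegral_mono_on (integrableOn_const (by rw [Real.volume_Icc]; exact ENNReal.ofReal_ne_top))
      (hint.mono_set hsub) measurableSet_Icc fun t ht => ?_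
    have h3 := EXB_sl hT hl hlT (show 0 < t by linarith [ht.1]) (by linarith [ht.2])
    have h4 := EXB_ck hW (show 1 ≤ t - γ by linarith [ht.1]) (by linarith [ht.2])
    rw [← hk] at h4
    have hp : 0 < 2 / Real.pi * l := by positivity
    calc (2 / Real.pi * k) ^ 2 * l ^ 2 = (2 / Real.pi * l) ^ 2 * k ^ 2 := by ring
      _ ≤ sl l t ^ 2 * ck W (t - γ) ^ 2 :=
        mul_le_mul (pow_le_pow_left₀ hp.le h3 2) (pow_le_pow_left₀ hk0.le h4 2) (by positivity) (by positivity)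
  -- pointwise lower bound
  have hpt : ∀ t : ℝ, ∑ γ ∈ ordinates T, (mult γ : ℝ) * (cl δ (1 / 2 + γ * I) - 1) * (sl l t ^ 2 * ck W (t - γ) ^ 2) ≤
      sl l t ^ 2 * EX W δ t := by
    intro t
    have h1 : ∑ a ∈ (ordinates T).image (fun γ : ℝ => (1 / 2 + γ * I : ℂ)),
        (mx a : ℝ) * ck W (t - a.im) ^ 2 * (cl δ a - 1) ≤ EX W δ t :=
      (hb3 δ hδ hδ1 t).1.sum_le_tsum _ fun a _ => EXB_tnn hRH hδ hδ1 t a
    rw [Finset.sum_image (fun _ _ _ _ h => hinj h)] at h1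
    have h2 := mul_le_mul_of_nonneg_left h1 (sq_nonneg (sl l t))
    refine le_trans (le_of_eq ?_) h2
    rw [Finset.mul_sum]
    refine Finset.sum_congr rfl fun γ _ => ?_
    rw [mx_half, half_im]
    ring
  have hcl1 : ∀ γ ∈ ordinates T, 0 ≤ (mult γ : ℝ) * (cl δ (1 / 2 + γ * I) - 1) := by
    intro γ _
    by_cases hm : mult γ = 0
    · rw [hm, Nat.cast_zero, zero_mul]
    · have h1 : mx (1 / 2 + γ * I) ≠ 0 := by rw [mx_half]; exact hm
      have h2 := EXB_cl_ge hRH hδ hδ1 h1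
      have h3 : 0 ≤ cl δ (1 / 2 + γ * I) - 1 := by linarith
      positivity
  have hcl2 : ∀ γ ∈ ordinates T, (∑ y ∈ ordinates T, if |γ - y| ≤ δ then (mult y : ℝ) else 0) ≤
      cl δ (1 / 2 + γ * I) := by
    intro γ _
    have h1 := (hb2 δ hδ1 (1 / 2 + γ * I)).1.sum_le_tsum
      ((ordinates T).image (fun γ : ℝ => (1 / 2 + γ * I : ℂ))) fun b _ => EXB_cnn δ _ b
    rw [Finset.sum_image (fun _ _ _ _ h => hinj h)] at h1
    refine le_trans (le_of_eq ?_) h1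
    refine Finset.sum_congr rfl fun y _ => ?_
    rw [mx_half, half_im, half_im, abs_sub_comm]
  have hNC : NC T δ ≤ ∑ γ ∈ ordinates T, (mult γ : ℝ) * (cl δ (1 / 2 + γ * I) - 1) := by
    unfold NC
    rw [← Finset.sum_sub_distrib]
    refine Finset.sum_le_sum fun γ hγ => ?_
    have h1 : (∑ y ∈ ordinates T, if |γ - y| ≤ δ then (mult γ : ℝ) * (mult y : ℝ) else 0) =
        (mult γ : ℝ) * ∑ y ∈ ordinates T, if |γ - y| ≤ δ then (mult y : ℝ) else 0 := by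
      rw [Finset.mul_sum]
      refine Finset.sum_congr rfl fun y _ => ?_
      split_ifs
      · rfl
      · rw [mul_zero]
    rw [h1, mul_sub, mul_one]
    exact sub_le_sub_right (mul_le_mul_of_nonneg_left (hcl2 γ hγ) (Nat.cast_nonneg _)) _
  have hint := EX_int hRH hW hδ hδ1 hl
  have hterm : ∀ γ ∈ ordinates T, IntegrableOn
      (fun t : ℝ => (mult γ : ℝ) * (cl δ (1 / 2 + γ * I) - 1) * (sl l t ^ 2 * ck W (t - γ) ^ 2)) (Ioi 1) :=
    fun γ hγ => (hone γ hγ).1.const_mul _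
  calc (2 / Real.pi * k) ^ 2 * l ^ 2 * NC T δ
      ≤ (2 / Real.pi * k) ^ 2 * l ^ 2 * ∑ γ ∈ ordinates T, (mult γ : ℝ) * (cl δ (1 / 2 + γ * I) - 1) :=
        mul_le_mul_of_nonneg_left hNC (by positivity)
    _ = ∑ γ ∈ ordinates T, (mult γ : ℝ) * (cl δ (1 / 2 + γ * I) - 1) * ((2 / Real.pi * k) ^ 2 * l ^ 2) := by
        rw [Finset.mul_sum]
        refine Finset.sum_congr rfl fun γ _ => ?_
        ring
    _ ≤ ∑ γ ∈ ordinates T, (mult γ : ℝ) * (cl δ (1 / 2 + γ * I) - 1) *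
          ∫ t in Ioi (1 : ℝ), sl l t ^ 2 * ck W (t - γ) ^ 2 :=
        Finset.sum_le_sum fun γ hγ => mul_le_mul_of_nonneg_left (hone γ hγ).2 (hcl1 γ hγ)
    _ = ∫ t in Ioi (1 : ℝ), ∑ γ ∈ ordinates T,
          (mult γ : ℝ) * (cl δ (1 / 2 + γ * I) - 1) * (sl l t ^ 2 * ck W (t - γ) ^ 2) := by
        rw [integral_finset_sum _ fun γ hγ => hterm γ hγ]
        refine Finset.sum_congr rfl fun γ _ => ?_
        rw [integral_const_mul]
    _ ≤ ∫ t in Ioi (1 : ℝ), sl l t ^ 2 * EX W δ t :=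
        integral_mono (integrable_finset_sum _ fun γ hγ => hterm γ hγ) hint fun t => hpt t

end Pool.Agent.Lib.MP_2a816b_nt.TA
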