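import Pool.Agent.Lib.MP_2a816b_nt.TA.Defs

open Complex Set Filter Topology MeasureTheory

namespace Pool.Agent.Lib.MP_2a816b_nt.TA

open Pool.Agent.Lib.MP_00e05b_nt Pool.Agent.Lib.MP_00e05b_nt.Mont Pool.Agent.Lib.MP_2a816b_nt.PV

/-- the Gaussian weight of scale `M` -/
noncomputable def Kg (M x : ℝ) : ℝ := Real.exp (-(x ^ 2 / (2 * M ^ 2)))

/-- tail integral of the Gaussian weight -/
noncomputable def Ig (M σ : ℝ) : ℝ := ∫ x in Ioi σ, Kg M x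

/-- The one-sided hypothesis, Gaussian version: range `log X ≤ (log (X/H))^(3/2 + δ)`, error `H (1 + log H)^(-θ)`,
`θ = (1 + 4 δ)/(3 + 2 δ)`. -/
def UG (δ C : ℝ) : Prop := ∀ X H : ℝ, 1 ≤ H → H ≤ X → Real.log X ≤ Real.log (X / H) ^ (3 / 2 + δ) →
  VV X H ≤ H * (Real.log (X / H) - (Real.eulerMascheroniConstant + Real.log (2 * Real.pi))) +
    C * H * (1 + Real.log H) ^ (-((1 + 4 * δ) / (3 + 2 * δ)))

end Pool.Agent.Lib.MP_2a816b_nt.TA
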