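import Pool.Agent.Lib.MP_2a816b_nt.TA.Defs
import Pool.Agent.Lib.MP_2a816b_nt.PV.Elem

open Complex Set Filter Topology MeasureTheory

namespace Pool.Agent.Lib.MP_2a816b_nt.TA

open Pool.Agent.Lib.MP_00e05b_nt Pool.Agent.Lib.MP_00e05b_nt.Mont Pool.Agent.Lib.MP_2a816b_nt.PV

/-- `sinh x ≤ x cosh x`. -/
theorem Asm1_sinh {x : ℝ} (hx : 0 ≤ x) : Real.sinh x ≤ x * Real.cosh x := by
  have h1 : ∀ y : ℝ, HasDerivAt (fun y => y * Real.cosh y - Real.sinh y) (y * Real.sinh y) y := by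
    intro y
    have h2 := ((hasDerivAt_id y).mul (Real.hasDerivAt_cosh y)).sub (Real.hasDerivAt_sinh y)
    refine h2.congr_deriv ?_
    simp only [id]
    ring
  have h3 : MonotoneOn (fun y => y * Real.cosh y - Real.sinh y) (Ici 0) := by
    refine monotoneOn_of_deriv_nonneg (convex_Ici 0) ?_ ?_ ?_
    · exact fun y _ => (h1 y).continuousAt.continuousWithinAt
    · exact fun y _ => (h1 y).differentiableAt.differentiableWithinAt
    · intro y hy
      rw [interior_Ici] at hy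
      rw [(h1 y).deriv]
      have hy' : 0 < y := hy
      have := Real.sinh_pos_iff.2 hy'
      positivity
  have h4 := h3 (mem_Ici.2 (le_refl (0 : ℝ))) hx hx
  simp only [zero_mul, Real.sinh_zero, sub_zero] at h4
  linarith

theorem Asm1_two {l : ℝ} (hl : 0 < l) : 2 * Real.sinh (l / 2) ≤ l * Real.exp (l ^ 2 / 8) := by
  have h1 := Asm1_sinh (x := l / 2) (by positivity)
  have h2 := Real.cosh_le_exp_half_sq (l / 2)
  have e : (l / 2) ^ 2 / 2 = l ^ 2 / 8 := by ring
  rw [e] at h2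
  nlinarith

/-- the error `e = - log l - su l` -/
theorem Asm1_e {l : ℝ} (hl : 0 < l) : -Real.log l - l ^ 2 / 8 ≤ su l := by
  unfold su
  have h1 := Real.log_le_log (Elem_sinh_pos hl) (Asm1_two hl)
  rw [Real.log_mul hl.ne' (Real.exp_pos _).ne', Real.log_exp] at h1
  linarith

theorem Asm1_r {l : ℝ} (hl : 0 < l) : (1 - 3 * l ^ 2 / 8) * (1 / l ^ 3) ≤ w3 l := by
  unfold w3
  have h1 : (2 * Real.sinh (l / 2)) ^ 3 ≤ l ^ 3 * Real.exp (3 * l ^ 2 / 8) := by
    have h2 := pow_le_pow_left₀ (Elem_sinh_pos hl).le (Asm1_two hl) 3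
    refine h2.trans (le_of_eq ?_)
    rw [mul_pow, ← Real.exp_nat_mul]
    congr 2
    push_cast
    ring
  have h3 : 1 - 3 * l ^ 2 / 8 ≤ Real.exp (-(3 * l ^ 2 / 8)) := by
    have := Real.add_one_le_exp (-(3 * l ^ 2 / 8))
    linarith
  have hpos : 0 < (2 * Real.sinh (l / 2)) ^ 3 := by
    have := Elem_sinh_pos hl
    positivity
  calc (1 - 3 * l ^ 2 / 8) * (1 / l ^ 3) ≤ Real.exp (-(3 * l ^ 2 / 8)) * (1 / l ^ 3) :=
        mul_le_mul_of_nonneg_right h3 (by positivity)
    _ = (l ^ 3 * Real.exp (3 * l ^ 2 / 8))⁻¹ := by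
        rw [Real.exp_neg]
        field_simp
    _ ≤ _ := inv_anti₀ hpos h1

/-- the constant `c0` -/
theorem Asm1_c0 : 1 ≤ c0 ∧ c0 ≤ 3 := by
  unfold c0
  have h1 := Real.one_half_lt_eulerMascheroniConstant
  have h2 := Real.eulerMascheroniConstant_lt_two_thirds
  have h3 : 1 ≤ Real.log (2 * Real.pi) := by
    rw [Real.le_log_iff_exp_le (by positivity)]
    have := Real.exp_one_lt_d9
    have := Real.pi_gt_three
    linarith
  have h4 : Real.log (2 * Real.pi) ≤ 2 := by
    rw [Real.log_le_iff_le_exp (by positivity)]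
    have h5 : Real.exp 2 = Real.exp 1 * Real.exp 1 := by
      rw [← Real.exp_add]
      norm_num
    rw [h5]
    have := Real.exp_one_gt_d9
    have := Real.pi_lt_d2
    nlinarith
  constructor <;> linarith

/-- the primitive of the main part -/
theorem Asm1_prim {L M D l : ℝ} (hl : 0 < l) :
    HasDerivAt (fun l => -((M - D) / (2 * M)) * (l⁻¹ * ((L + Real.log l) ^ 2 -
      (M + D - 2) * (L + Real.log l) + (M * D - M - D + 2))))
      ((M - D) / (2 * M) * (l⁻¹ ^ 2 * ((M - (L + Real.log l)) * (D - (L + Real.log l))))) l := by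
  have h1 : HasDerivAt (fun l => L + Real.log l) l⁻¹ l := (Real.hasDerivAt_log hl.ne').const_add L
  have h2 : HasDerivAt (fun l : ℝ => l⁻¹) (-(l ^ 2)⁻¹) l := hasDerivAt_inv hl.ne'
  have h3 := (h1.pow 2).sub (h1.const_mul (M + D - 2))
  have h4 := h3.add_const (M * D - M - D + 2)
  have h5 := (h2.mul h4).const_mul (-((M - D) / (2 * M)))
  refine h5.congr_deriv ?_
  simp only [Pi.sub_apply, Pi.pow_apply]
  push_cast
  field_simp
  ring

/-- the main part -/
theorem Asm1_int {L M D a : ℝ} (ha : 0 < a) (ha1 : a ≤ 1) :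
    ∫ l in a..1, (M - D) / (2 * M) * (l⁻¹ ^ 2 * ((M - (L + Real.log l)) * (D - (L + Real.log l)))) =
      -((M - D) / (2 * M)) * (L ^ 2 - (M + D - 2) * L + (M * D - M - D + 2)) +
      ((M - D) / (2 * M)) * (a⁻¹ * ((L + Real.log a) ^ 2 - (M + D - 2) * (L + Real.log a) +
        (M * D - M - D + 2))) := by
  have h1 : ∀ l ∈ uIcc a 1, HasDerivAt (fun l => -((M - D) / (2 * M)) * (l⁻¹ *
      ((L + Real.log l) ^ 2 - (M + D - 2) * (L + Real.log l) + (M * D - M - D + 2))))
      ((M - D) / (2 * M) * (l⁻¹ ^ 2 * ((M - (L + Real.log l)) * (D - (L + Real.log l))))) l := by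
    intro l hl
    rw [uIcc_of_le ha1] at hl
    exact Asm1_prim (lt_of_lt_of_le ha hl.1)
  rw [intervalIntegral.integral_eq_sub_of_hasDerivAt h1 ?_]
  · rw [Real.log_one]
    ring
  · refine ContinuousOn.intervalIntegrable ?_
    have hne : ∀ l ∈ uIcc a 1, l ≠ 0 := by
      intro l hl
      rw [uIcc_of_le ha1] at hl
      exact (lt_of_lt_of_le ha hl.1).ne'
    have h2 : ContinuousOn Real.log (uIcc a 1) := Real.continuousOn_log.mono fun l hl => by
      simpa using hne l hl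
    have h3 : ContinuousOn (fun l : ℝ => l⁻¹) (uIcc a 1) := continuousOn_inv₀.mono fun l hl => by
      simpa using hne l hl
    fun_prop

/-- the pointwise bound -/
theorem Asm1_point {L M l : ℝ} (hL : 5 ≤ L) (hM : 2 * L ≤ M) (hl : 0 < l) (hl1 : l ≤ 1)
    (hs : 0 ≤ L + Real.log l) :
    (M - (L + 1 - c0)) / (2 * M) * (l⁻¹ ^ 2 * ((M - (L + Real.log l)) *
      ((L + 1 - c0) - (L + Real.log l)))) - L * M / 2 ≤
    w3 l * ((M - L + su l) / M * (l / 2 * ((M - L + su l) * (1 - c0 - Real.log l) -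
      (1 - c0 - Real.log l) ^ 2))) := by
  obtain ⟨hc1, hc3⟩ := Asm1_c0
  set s := L + Real.log l with hsdef
  set D := L + 1 - c0 with hD
  have hlog : Real.log l ≤ 0 := Real.log_nonpos hl.le hl1
  have hsL : s ≤ L := by linarith
  have hM0 : 0 < M := by linarith
  set e := -Real.log l - su l with he
  have he0 : 0 ≤ e := by
    have := su_le hl
    linarith
  have he1 : e ≤ l ^ 2 / 8 := by
    have := Asm1_e hl
    linarith
  have hsu : M - L + su l = M - s - e := by rw [he, hsdef]; ring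
  have h1c : 1 - c0 - Real.log l = D - s := by rw [hD, hsdef]; ring
  rw [hsu, h1c]
  set r := w3 l * l ^ 3 with hr
  have hl3 : 0 < l ^ 3 := by positivity
  have hw : w3 l = r * l⁻¹ ^ 3 := by
    rw [hr]
    field_simp
  have hr1 : r ≤ 1 := by
    have h1 := w3_le hl
    rw [hr]
    calc w3 l * l ^ 3 ≤ 1 / l ^ 3 * l ^ 3 := mul_le_mul_of_nonneg_right h1 hl3.le
      _ = 1 := by field_simp
  have hr0 : 1 - 3 * l ^ 2 / 8 ≤ r := by
    have h1 := Asm1_r hl
    rw [hr]
    calc 1 - 3 * l ^ 2 / 8 = (1 - 3 * l ^ 2 / 8) * (1 / l ^ 3) * l ^ 3 := by field_simp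
      _ ≤ _ := mul_le_mul_of_nonneg_right h1 hl3.le
  -- the bracket
  set A := M - s with hA
  set B := M - D with hB
  have hA0 : M / 2 ≤ A := by linarith
  have hAM : A ≤ M := by linarith
  have hB0 : M / 2 ≤ B := by linarith
  have hBM : B ≤ M := by linarith
  have hl2 : l ^ 2 ≤ 1 := pow_le_one₀ hl.le hl1
  have hl20 : 0 ≤ l ^ 2 := by positivity
  have hAe : 0 ≤ A - e := by linarith
  have hBe : 0 ≤ B - e := by linarith
  have hABe : (A - e) * (B - e) ≤ A * B :=
    mul_le_mul (by linarith) (by linarith) hBe (by linarith)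
  have hup : r * ((A - e) * (B - e)) ≤ A * B := by
    have h0 : 0 ≤ (A - e) * (B - e) := mul_nonneg hAe hBe
    calc r * ((A - e) * (B - e)) ≤ 1 * ((A - e) * (B - e)) := mul_le_mul_of_nonneg_right hr1 h0
      _ ≤ A * B := by rw [one_mul]; exact hABe
  have hAB0 : 0 ≤ A * B := mul_nonneg (by linarith) (by linarith)
  have hABM : A * B ≤ M ^ 2 := by
    calc A * B ≤ M * M := mul_le_mul hAM hBM (by linarith) hM0.le
      _ = M ^ 2 := by ring
  have hlow : A * B - l ^ 2 * M ^ 2 ≤ r * ((A - e) * (B - e)) := by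
    have h0 : 0 ≤ (A - e) * (B - e) := mul_nonneg hAe hBe
    have h1 : (1 - 3 * l ^ 2 / 8) * ((A - e) * (B - e)) ≤ r * ((A - e) * (B - e)) :=
      mul_le_mul_of_nonneg_right hr0 h0
    have h2 : A * B - e * (2 * M) ≤ (A - e) * (B - e) := by nlinarith
    have h3 : e * (2 * M) ≤ l ^ 2 / 8 * (2 * M) := mul_le_mul_of_nonneg_right he1 (by linarith)
    have h4 : 3 * l ^ 2 / 8 * ((A - e) * (B - e)) ≤ 3 * l ^ 2 / 8 * M ^ 2 :=
      mul_le_mul_of_nonneg_left (hABe.trans hABM) (by positivity)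
    have h5 : l ^ 2 * M ≤ l ^ 2 * M ^ 2 := by
      have : M ≤ M ^ 2 := by nlinarith
      exact mul_le_mul_of_nonneg_left this hl20
    nlinarith
  -- the other factor
  have hE1 : -L ≤ D - s := by linarith
  have hE2 : D - s ≤ L := by linarith
  set E := D - s with hE
  have hmain : -(L * (l ^ 2 * M ^ 2)) ≤ E * (r * ((A - e) * (B - e)) - A * B) := by
    have h0 : -(l ^ 2 * M ^ 2) ≤ r * ((A - e) * (B - e)) - A * B := by linarith
    have h1 : r * ((A - e) * (B - e)) - A * B ≤ 0 := by linarith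
    have h2 : L * (r * ((A - e) * (B - e)) - A * B) ≤ E * (r * ((A - e) * (B - e)) - A * B) :=
      mul_le_mul_of_nonpos_right hE2 h1
    have h3 : L * -(l ^ 2 * M ^ 2) ≤ L * (r * ((A - e) * (B - e)) - A * B) :=
      mul_le_mul_of_nonneg_left h0 (by linarith)
    linarith
  have hfin : r * l⁻¹ ^ 3 * ((A - e) / M * (l / 2 * ((A - e) * E - E ^ 2))) -
      B / (2 * M) * (l⁻¹ ^ 2 * (A * E)) =
      (E * (r * ((A - e) * (B - e)) - A * B)) * (l⁻¹ ^ 2 / (2 * M)) := by
    have hBE : (A - e) * E - E ^ 2 = E * (B - e) := by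
      rw [hA, hB, hE]
      ring
    rw [hBE]
    field_simp
  have hq : 0 ≤ l⁻¹ ^ 2 / (2 * M) := by positivity
  have h9 := mul_le_mul_of_nonneg_right hmain hq
  have h10 : -(L * (l ^ 2 * M ^ 2)) * (l⁻¹ ^ 2 / (2 * M)) = -(L * M / 2) := by
    field_simp
  rw [h10] at h9
  rw [hw]
  linarith

/-- the two integrals -/
theorem Asm1_integral {L M a : ℝ} (hL : 5 ≤ L) (hM : 2 * L ≤ M) (ha : 0 < a) (ha1 : a ≤ 1)
    (hs : 0 ≤ L + Real.log a) :
    (∫ l in a..1, (M - (L + 1 - c0)) / (2 * M) * (l⁻¹ ^ 2 * ((M - (L + Real.log l)) *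
      ((L + 1 - c0) - (L + Real.log l))))) - L * M / 2 ≤
    ∫ l in a..1, w3 l * ((M - L + su l) / M * (l / 2 * ((M - L + su l) * (1 - c0 - Real.log l) -
      (1 - c0 - Real.log l) ^ 2))) := by
  have hne : ∀ l ∈ uIcc a 1, 0 < l := by
    intro l hl
    rw [uIcc_of_le ha1] at hl
    exact lt_of_lt_of_le ha hl.1
  have h2 : ContinuousOn Real.log (uIcc a 1) := Real.continuousOn_log.mono fun l hl => by
    simpa using (hne l hl).ne'
  have h3 : ContinuousOn (fun l : ℝ => l⁻¹) (uIcc a 1) := continuousOn_inv₀.mono fun l hl => by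
    simpa using (hne l hl).ne'
  have h4 : ContinuousOn w3 (uIcc a 1) := w3_cont.mono fun l hl => hne l hl
  have h5 : ContinuousOn su (uIcc a 1) := su_cont.mono fun l hl => hne l hl
  have hLM : 0 ≤ L * M / 2 := by
    have : 0 ≤ L * M := mul_nonneg (by linarith) (by linarith)
    linarith
  have hI1 : IntervalIntegrable (fun l => (M - (L + 1 - c0)) / (2 * M) * (l⁻¹ ^ 2 *
      ((M - (L + Real.log l)) * ((L + 1 - c0) - (L + Real.log l))))) volume a 1 := by
    refine ContinuousOn.intervalIntegrable ?_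
    fun_prop
  have hI2 : IntervalIntegrable (fun l => w3 l * ((M - L + su l) / M * (l / 2 *
      ((M - L + su l) * (1 - c0 - Real.log l) - (1 - c0 - Real.log l) ^ 2)))) volume a 1 := by
    refine ContinuousOn.intervalIntegrable ?_
    fun_prop
  have h6 := intervalIntegral.integral_mono_on ha1 (hI1.sub (intervalIntegrable_const
    (c := L * M / 2))) hI2 fun l hl => Asm1_point hL hM (lt_of_lt_of_le ha hl.1) hl.2 (by
      have := Real.log_le_log ha hl.1
      linarith)
  rw [intervalIntegral.integral_sub hI1 intervalIntegrable_const,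
    intervalIntegral.integral_const, smul_eq_mul] at h6
  have h7 : (1 - a) * (L * M / 2) ≤ L * M / 2 := by
    have : (1 - a) * (L * M / 2) ≤ 1 * (L * M / 2) :=
      mul_le_mul_of_nonneg_right (by linarith) hLM
    linarith
  linarith

/-- LEAF Asm1 (pure calculus). `G l = (N/M) (l/2) (N (1 - c0 - log l) - (1 - c0 - log l)²)`, `N = M - L + su l`; with
`s = L + log l = log (T l) ≥ 0`, `D = L + 1 - c0`: `1 - c0 - log l = D - s`, `N = M - s - O(l²)` (`-log l - l² ≤ su l ≤ -log l`),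
`w3 l = l^(-3) (1 + O(l²))`; the main part is `(1/T) ∫_{1/T}^1 l^(-2) ((M - s)/(2M)) ((M - s)(D - s) - (D - s)²) dl
= ∫_0^L ((M - s)(D - s)(M - D)/(2M)) e^(-s) ds = (M - D)(M D - M - D + 2)/(2M) + O(M L³/T)`, and
`(M - D)(MD - M - D + 2)/(2M) = M q/2 - q²/2 - q + 1/2 + (q² - 1)/(2M)` with `q = L - c0 = D - 1`. All the errors
(`w3`, `su`, the piece `[1/T, lT T]` of length `≤ 1/T²`, `∫_L^∞`) are `≤ C M L³/T ≤ C`. -/
theorem asm_main : ∃ C T0 : ℝ, 0 ≤ C ∧ ∀ T : ℝ, T0 ≤ T → ∀ M : ℝ, 2 * Real.log T ≤ M → M ≤ T ^ (1 / 8 : ℝ) →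
    M * (Real.log T - c0) / 2 - (Real.log T - c0) ^ 2 / 2 - (Real.log T - c0) - C ≤
      1 / T * ∫ l in (lT T)..1, w3 l * ((M - Real.log T + su l) / M * (l / 2 * ((M - Real.log T + su l) *
        (1 - c0 - Real.log l) - (1 - c0 - Real.log l) ^ 2))) := by
  refine ⟨10, Real.exp 5, by norm_num, fun T hT M hM hMT => ?_⟩
  obtain ⟨hc1, hc3⟩ := Asm1_c0
  have hT0 : 0 < T := lt_of_lt_of_le (Real.exp_pos _) hT
  have hT6 : 6 ≤ T := by
    have := Real.add_one_le_exp (5 : ℝ)
    linarith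
  set L := Real.log T with hLdef
  have hL : 5 ≤ L := (Real.le_log_iff_exp_le hT0).2 hT
  have hM0 : 0 < M := by linarith
  have hMM : M * M ≤ T := by
    have h1 : M * M ≤ T ^ (1 / 8 : ℝ) * T ^ (1 / 8 : ℝ) := mul_le_mul hMT hMT hM0.le (by positivity)
    rw [← Real.rpow_add hT0] at h1
    refine h1.trans ?_
    calc T ^ (1 / 8 + 1 / 8 : ℝ) ≤ T ^ (1 : ℝ) :=
          Real.rpow_le_rpow_of_exponent_le (by linarith) (by norm_num)
      _ = T := Real.rpow_one T
  have hML : M * L ≤ T / 2 := by nlinarith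
  have hMT' : M ≤ T := by nlinarith
  set a := lT T with ha
  have ha0 : 1 / T ≤ a := lT_ge (by linarith)
  have hapos : 0 < a := lt_of_lt_of_le (by positivity) ha0
  have ha2 : a ≤ 1 / (T - 1 / 2) := lT_le (by linarith)
  have ha1 : a ≤ 1 := by
    refine ha2.trans ?_
    rw [div_le_one (by linarith)]
    linarith
  set s := L + Real.log a with hs
  have hseq : s = Real.log (T * a) := by rw [Real.log_mul hT0.ne' hapos.ne', hs]
  have hTa : 1 ≤ T * a := by
    have := mul_le_mul_of_nonneg_left ha0 hT0.le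
    rwa [mul_one_div_cancel hT0.ne'] at this
  have hTa' : T * a ≤ 1 + 1 / T := by
    have h1 : T * a ≤ T * (1 / (T - 1 / 2)) := mul_le_mul_of_nonneg_left ha2 hT0.le
    refine h1.trans ?_
    rw [mul_one_div, div_le_iff₀ (by linarith)]
    have e : (1 + 1 / T) * (T - 1 / 2) = T + 1 / 2 - 1 / (2 * T) := by
      field_simp
      ring
    rw [e]
    have : 1 / (2 * T) ≤ 1 / 2 := by
      rw [div_le_div_iff₀ (by positivity) (by norm_num)]
      linarith
    linarith
  have hs0 : 0 ≤ s := by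
    rw [hseq]
    exact Real.log_nonneg hTa
  have hs1 : s ≤ 1 / T := by
    rw [hseq]
    have h1 := Real.log_le_sub_one_of_pos (by linarith : 0 < T * a)
    linarith
  refine le_trans ?_ (mul_le_mul_of_nonneg_left (Asm1_integral hL hM hapos ha1 hs0)
    (by positivity : (0 : ℝ) ≤ 1 / T))
  rw [Asm1_int hapos ha1]
  set D := L + 1 - c0 with hD
  set k := (M - D) / (2 * M) with hk
  have hk0 : 0 ≤ k := div_nonneg (by linarith) (by linarith)
  have hk1 : k ≤ 1 / 2 := by
    rw [hk, div_le_div_iff₀ (by linarith) (by norm_num)]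
    linarith
  set g0 := M * D - M - D + 2 with hg0
  -- the value at one
  have hg1 : L ^ 2 - (M + D - 2) * L + g0 ≤ 4 := by
    have e : L ^ 2 - (M + D - 2) * L + g0 = (M - L) * (D - L) - (M - L) - (D - L) + 2 := by
      rw [hg0]; ring
    rw [e]
    have h1 : (M - L) * (D - L) ≤ 0 := mul_nonpos_of_nonneg_of_nonpos (by linarith) (by linarith)
    linarith
  have h1 : -k * (L ^ 2 - (M + D - 2) * L + g0) ≥ -2 := by
    have h2 : k * (L ^ 2 - (M + D - 2) * L + g0) ≤ k * 4 := mul_le_mul_of_nonneg_left hg1 hk0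
    linarith
  -- the value at `a`
  have hgs : g0 - 2 * M / T ≤ s ^ 2 - (M + D - 2) * s + g0 := by
    have h2 : (M + D) * s ≤ 2 * M * (1 / T) :=
      mul_le_mul (by linarith) hs1 hs0 (by linarith)
    have h3 : 2 * M * (1 / T) = 2 * M / T := by ring
    nlinarith [sq_nonneg s]
  have hg00 : 0 ≤ g0 := by
    have : g0 = (M - 1) * (D - 1) + 1 := by rw [hg0]; ring
    rw [this]
    have := mul_nonneg (by linarith : 0 ≤ M - 1) (by linarith : 0 ≤ D - 1)
    linarith
  have hg0M : g0 ≤ T := by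
    have h2 : M * D ≤ M * L := mul_le_mul_of_nonneg_left (by linarith) hM0.le
    rw [hg0]
    linarith
  set w := 1 / T * a⁻¹ with hw
  have hw0 : 0 ≤ w := by positivity
  have hw1 : w ≤ 1 := by
    rw [hw, ← one_div, one_div_mul_one_div, div_le_one (by positivity)]
    exact hTa
  have hw2 : 1 - 1 / T ≤ w := by
    have e : w = 1 / (T * a) := by
      rw [hw]
      field_simp
    rw [e, le_div_iff₀ (by positivity)]
    have h2 : (1 - 1 / T) * (T * a) ≤ (1 - 1 / T) * (1 + 1 / T) := by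
      refine mul_le_mul_of_nonneg_left hTa' ?_
      rw [sub_nonneg, div_le_one hT0]
      linarith
    have h3 : (1 - 1 / T) * (1 + 1 / T) = 1 - (1 / T) ^ 2 := by ring
    have h4 : 0 ≤ (1 / T) ^ 2 := by positivity
    linarith
  have h2 : g0 - 3 ≤ w * (s ^ 2 - (M + D - 2) * s + g0) := by
    have h3 : w * (g0 - 2 * M / T) ≤ w * (s ^ 2 - (M + D - 2) * s + g0) :=
      mul_le_mul_of_nonneg_left hgs hw0
    have h4 : (1 - 1 / T) * g0 ≤ w * g0 := mul_le_mul_of_nonneg_right hw2 hg00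
    have h5 : 2 * M / T ≤ 2 := by
      rw [div_le_iff₀ hT0]
      linarith
    have h6 : 0 ≤ 2 * M / T := by positivity
    have h7 : w * (2 * M / T) ≤ 2 := (mul_le_mul_of_nonneg_right hw1 h6).trans (by linarith)
    have h8 : 1 / T * g0 ≤ 1 := by
      rw [one_div_mul_eq_div, div_le_one hT0]
      exact hg0M
    have h9 : w * (g0 - 2 * M / T) = w * g0 - w * (2 * M / T) := by ring
    have h10 : (1 - 1 / T) * g0 = g0 - 1 / T * g0 := by ring
    linarith
  have h3 : k * (g0 - 3) ≤ k * (w * (s ^ 2 - (M + D - 2) * s + g0)) :=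
    mul_le_mul_of_nonneg_left h2 hk0
  -- the main term
  have h4 : M * (L - c0) / 2 - (L - c0) ^ 2 / 2 - (L - c0) ≤ k * g0 := by
    have e : k * g0 = M * (L - c0) / 2 - (L - c0) ^ 2 / 2 - (L - c0) + 1 / 2 +
        ((L - c0) ^ 2 - 1) / (2 * M) := by
      rw [hk, hg0, hD]
      field_simp
      ring
    rw [e]
    have h5 : 0 ≤ ((L - c0) ^ 2 - 1) / (2 * M) := by
      refine div_nonneg ?_ (by linarith)
      nlinarith
    linarith
  have h5 : 1 / T * (L * M / 2) ≤ 1 := by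
    rw [one_div_mul_eq_div, div_le_one hT0]
    nlinarith
  have h6 : 1 / T * (-k * (L ^ 2 - (M + D - 2) * L + g0)) ≥ -2 := by
    have h7 : 1 / T ≤ 1 := by
      rw [div_le_one hT0]
      linarith
    have h8 : 0 ≤ 1 / T := by positivity
    nlinarith
  have h7 : 1 / T * (k * (a⁻¹ * (s ^ 2 - (M + D - 2) * s + g0))) =
      k * (w * (s ^ 2 - (M + D - 2) * s + g0)) := by
    rw [hw]
    ring
  have h8 : 1 / T * (-k * (L ^ 2 - (M + D - 2) * L + g0) +
      k * (a⁻¹ * (s ^ 2 - (M + D - 2) * s + g0)) - L * M / 2) =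
      1 / T * (-k * (L ^ 2 - (M + D - 2) * L + g0)) +
      1 / T * (k * (a⁻¹ * (s ^ 2 - (M + D - 2) * s + g0))) - 1 / T * (L * M / 2) := by ring
  rw [h8, h7]
  have h9 : k * (g0 - 3) = k * g0 - 3 * k := by ring
  linarith

end Pool.Agent.Lib.MP_2a816b_nt.TA
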