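import Pool.Agent.Lib.MP_2a816b_nt.TA.Defs

open Complex Set Filter Topology MeasureTheory

namespace Pool.Agent.Lib.MP_2a816b_nt.TA

open Pool.Agent.Lib.MP_00e05b_nt Pool.Agent.Lib.MP_00e05b_nt.Mont Pool.Agent.Lib.MP_2a816b_nt.PV

private theorem DTL_supp {W : ℝ → ℝ} (hW : EB W (1 / 8)) : HasCompactSupport W := by
  refine HasCompactSupport.intro (isCompact_Icc (a := -(1 / 8 : ℝ)) (b := 1 / 8)) ?_
  intro v hv
  refine hW.supp v ?_
  by_contra hcon
  have h1 := abs_lt.1 (not_le.1 hcon)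
  exact hv ⟨h1.1.le, h1.2.le⟩

private theorem DTL_int {W : ℝ → ℝ} (hW : EB W (1 / 8)) {f : ℝ → ℝ} (hf : Continuous f) :
    Integrable (fun v => f v * W v ^ 2) := by
  have h1 : HasCompactSupport (fun v => f v * (W v * W v)) :=
    ((DTL_supp hW).mul_left (f := W)).mul_left (f := f)
  have h2 : (fun v => f v * W v ^ 2) = fun v => f v * (W v * W v) := by
    funext v
    ring
  rw [h2]
  have hc : Continuous (fun v => f v * (W v * W v)) :=
    hf.mul (hW.smooth.continuous.mul hW.smooth.continuous)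
  exact hc.integrable_of_hasCompactSupport h1

private theorem DTL_odd {W : ℝ → ℝ} (hW : EB W (1 / 8)) : ∫ v, v * W v ^ 2 = 0 := by
  have h1 := integral_neg_eq_self (fun v : ℝ => v * W v ^ 2) volume
  have h2 : (∫ v : ℝ, -v * W (-v) ^ 2) = -∫ v, v * W v ^ 2 := by
    rw [← integral_neg]
    refine integral_congr_ae (Eventually.of_forall fun v => ?_)
    show -v * W (-v) ^ 2 = -(v * W v ^ 2)
    rw [hW.even]
    ring
  rw [h2] at h1
  linarith

/-- the linear weight is reproduced -/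
private theorem DTL_lin {W : ℝ → ℝ} (hW : EB W (1 / 8)) (N u : ℝ) :
    Integrable (fun c => (1 - c / N) * W (u - c) ^ 2) ∧
      ∫ c, (1 - c / N) * W (u - c) ^ 2 = (1 - u / N) * II W := by
  have e1 : (fun c => (1 - c / N) * W (u - c) ^ 2) =
      fun c => (fun x => (1 - (u - x) / N) * W x ^ 2) (u - c) := by
    funext c
    show (1 - c / N) * W (u - c) ^ 2 = (1 - (u - (u - c)) / N) * W (u - c) ^ 2
    rw [sub_sub_cancel]
  have hi : Integrable (fun x => (1 - (u - x) / N) * W x ^ 2) :=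
    DTL_int hW (by fun_prop)
  have hone : Integrable (fun v => W v ^ 2) := by
    have h := DTL_int hW (f := fun _ => (1 : ℝ)) continuous_const
    refine h.congr (Eventually.of_forall fun v => ?_)
    show 1 * W v ^ 2 = W v ^ 2
    rw [one_mul]
  have hx : Integrable (fun v => v * W v ^ 2) := DTL_int hW continuous_id
  constructor
  · rw [e1]
    exact hi.comp_sub_left u
  · rw [e1, integral_sub_left_eq_self (fun x => (1 - (u - x) / N) * W x ^ 2) volume u]
    have e2 : (fun x => (1 - (u - x) / N) * W x ^ 2) =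
        fun x => (1 - u / N) * W x ^ 2 + (1 / N) * (x * W x ^ 2) := by
      funext x
      ring
    rw [e2, integral_add (hone.const_mul _) (hx.const_mul _), integral_const_mul, integral_const_mul, DTL_odd hW]
    unfold II
    ring

private theorem DTL_loc {l : ℝ} (hl : 0 ≤ l) (hl1 : l ≤ 5 / 4) :
    LocallyIntegrable (fun u => Dt l u ^ 2) := by
  rw [MeasureTheory.locallyIntegrable_iff]
  intro k hk
  obtain ⟨r, hr⟩ := hk.isBounded.subset_closedBall (0 : ℝ)
  have h1 : IntegrableOn (fun u => Dt l u ^ 2) (Icc (-|r|) |r|) := by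
    rw [integrableOn_Icc_iff_integrableOn_Ioc]
    have h := Dt_ii hl hl1 (-|r|) |r|
    rw [intervalIntegrable_iff_integrableOn_Ioc_of_le (by linarith [abs_nonneg r])] at h
    exact h
  refine h1.mono_set fun x hx => ?_
  have h2 := hr hx
  rw [Metric.mem_closedBall, dist_zero_right, Real.norm_eq_abs] at h2
  have h3 : |x| ≤ |r| := h2.trans (le_abs_self r)
  exact abs_le.mp h3

/-- Fubini with the weight `1 - c/N` -/
private theorem DTL_win {W g : ℝ → ℝ} (hW : EB W (1 / 8)) (hg : LocallyIntegrable g) (h0 : ∀ u, 0 ≤ g u)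
    {N : ℝ} (hN : 2 ≤ N) :
    (∫ c in (1 : ℝ)..N, (1 - c / N) * ∫ u, W (u - c) ^ 2 * g u) ≤
      II W * (∫ u in (7 / 8 : ℝ)..N, (1 - u / N) * g u) +
        1 / (4 * N) * (II W * ∫ u in (N - 1 / 8)..(N + 1 / 8), g u) := by
  have hN0 : 0 < N := by linarith
  have hWc := hW.smooth.continuous
  have hIpos := II_pos hW (by norm_num)
  set μ : Measure ℝ := volume.restrict (Ioc 1 N) with hμ
  set ν : Measure ℝ := volume.restrict (Ioc (7 / 8) (N + 1 / 8)) with hν
  have : IsFiniteMeasure μ := ⟨by rw [hμ, Measure.restrict_apply_univ]; exact measure_Ioc_lt_top⟩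
  have : IsFiniteMeasure ν := ⟨by rw [hν, Measure.restrict_apply_univ]; exact measure_Ioc_lt_top⟩
  have hgI : ∀ a b : ℝ, IntegrableOn g (Ioc a b) := fun a b =>
    (hg.integrableOn_isCompact isCompact_Icc).mono_set Ioc_subset_Icc_self
  have hgν : Integrable g ν := hgI _ _
  -- the clipped weight
  set k : ℝ → ℝ := fun c => max 0 (1 - c / N) with hk
  have hk0 : ∀ c, 0 ≤ k c := fun c => le_max_left _ _
  have hkc : Continuous k := by
    rw [hk]
    fun_prop
  have hF : Integrable (fun p : ℝ × ℝ => (k p.1 * W (p.2 - p.1) ^ 2) * g p.2) (μ.prod ν) := by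
    have h1 : Integrable (fun p : ℝ × ℝ => g p.2) (μ.prod ν) := hgν.comp_snd μ
    have hb : ∀ᵐ p : ℝ × ℝ ∂(μ.prod ν), ‖k p.1 * W (p.2 - p.1) ^ 2‖ ≤ 1 := by
      have h2 : ∀ᵐ c : ℝ ∂μ, 1 < c := by
        rw [hμ]
        filter_upwards [ae_restrict_mem measurableSet_Ioc] with c hc
        exact hc.1
      have h3 : ∀ᵐ p : ℝ × ℝ ∂(μ.prod ν), 1 < p.1 :=
        Measure.quasiMeasurePreserving_fst.ae h2
      filter_upwards [h3] with p hp
      rw [Real.norm_eq_abs, abs_of_nonneg (mul_nonneg (hk0 _) (sq_nonneg _))]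
      have h4 : k p.1 ≤ 1 := by
        rw [hk]
        refine max_le zero_le_one ?_
        have : 0 ≤ p.1 / N := by positivity
        linarith
      have h5 : W (p.2 - p.1) ^ 2 ≤ 1 := pow_le_one₀ (hW.nonneg _) (hW.le_one _)
      calc k p.1 * W (p.2 - p.1) ^ 2 ≤ 1 * 1 := mul_le_mul h4 h5 (sq_nonneg _) zero_le_one
        _ = 1 := one_mul 1
    refine h1.bdd_mul (c := 1) ?_ hb
    exact ((hkc.comp continuous_fst).mul ((hWc.comp (by fun_prop)).pow 2)).aestronglyMeasurable
  set κ : ℝ → ℝ := fun u => ∫ c, k c * W (u - c) ^ 2 ∂μ with hκ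
  have hsw : (∫ c in (1 : ℝ)..N, (1 - c / N) * ∫ u, W (u - c) ^ 2 * g u) = ∫ u, κ u * g u ∂ν := by
    rw [intervalIntegral.integral_of_le (by linarith)]
    have h1 : ∫ c in Ioc 1 N, (1 - c / N) * ∫ u, W (u - c) ^ 2 * g u =
        ∫ c, ∫ u, (k c * W (u - c) ^ 2) * g u ∂ν ∂μ := by
      refine setIntegral_congr_fun measurableSet_Ioc ?_
      intro c hc'
      have h2 : (∫ u, W (u - c) ^ 2 * g u) = ∫ u, W (u - c) ^ 2 * g u ∂ν := by
        refine (setIntegral_eq_integral_of_forall_compl_eq_zero ?_).symm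
        intro u hu
        have : W (u - c) = 0 := by
          refine hW.supp _ ?_
          simp only [mem_Ioc, not_and_or, not_lt, not_le] at hu
          rcases hu with hu | hu
          · exact le_trans (by linarith [hc'.1]) (neg_le_abs _)
          · exact le_trans (by linarith [hc'.2]) (le_abs_self _)
        rw [this]
        ring
      have h3 : k c = 1 - c / N := by
        rw [hk]
        refine max_eq_right ?_
        have : c / N ≤ 1 := by
          rw [div_le_one hN0]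
          exact hc'.2
        linarith
      show (1 - c / N) * (∫ u, W (u - c) ^ 2 * g u) = ∫ u, (k c * W (u - c) ^ 2) * g u ∂ν
      rw [h2, h3, ← integral_const_mul]
      refine integral_congr_ae (Eventually.of_forall fun u => ?_)
      show (1 - c / N) * (W (u - c) ^ 2 * g u) = (1 - c / N) * W (u - c) ^ 2 * g u
      ring
    rw [h1, integral_integral_swap hF]
    refine integral_congr_ae (Eventually.of_forall ?_)
    intro u
    exact integral_mul_const (g u) (fun c => k c * W (u - c) ^ 2)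
  have hκg : Integrable (fun u => κ u * g u) ν := by
    have h1 := hF.integral_prod_right
    refine h1.congr (Eventually.of_forall ?_)
    intro u
    exact integral_mul_const (g u) (fun c => k c * W (u - c) ^ 2)
  have hWu : ∀ u : ℝ, Integrable (fun c => W (u - c) ^ 2) := fun u => by
    have h := DTL_int hW (f := fun _ => (1 : ℝ)) continuous_const
    refine (h.comp_sub_left u).congr (Eventually.of_forall fun c => ?_)
    show 1 * W (u - c) ^ 2 = W (u - c) ^ 2
    rw [one_mul]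
  have hIu : ∀ u : ℝ, ∫ c, W (u - c) ^ 2 = II W := fun u => by
    unfold II
    exact integral_sub_left_eq_self (fun v => W v ^ 2) volume u
  have hWne : ∀ u c : ℝ, W (u - c) ≠ 0 → |u - c| < 1 / 8 := by
    intro u c h
    by_contra hcon
    exact h (hW.supp _ (not_lt.1 hcon))
  -- bound in the middle
  have hκm : ∀ u, u ≤ N - 1 / 8 → κ u ≤ II W * (1 - u / N) := by
    intro u hu
    obtain ⟨hi, he⟩ := DTL_lin hW N u
    have hpt : ∀ c, (1 - c / N) * W (u - c) ^ 2 = k c * W (u - c) ^ 2 := by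
      intro c
      by_cases hz : W (u - c) = 0
      · rw [hz]
        ring
      · have h1 := abs_lt.1 (hWne u c hz)
        have h2 : c / N ≤ 1 := by
          rw [div_le_one hN0]
          linarith [h1.1]
        have h3 : k c = 1 - c / N := by
          rw [hk]
          exact max_eq_right (by linarith)
        rw [h3]
    have h1 : κ u = ∫ c in Ioc 1 N, (1 - c / N) * W (u - c) ^ 2 := by
      rw [hκ]
      refine integral_congr_ae (Eventually.of_forall fun c => ?_)
      exact (hpt c).symm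
    rw [h1, mul_comm (II W), ← he]
    refine setIntegral_le_integral hi (Eventually.of_forall fun c => ?_)
    show 0 ≤ (1 - c / N) * W (u - c) ^ 2
    rw [hpt c]
    exact mul_nonneg (hk0 c) (sq_nonneg _)
  -- bound at the edge
  have hκe : ∀ u, N - 1 / 8 ≤ u → κ u ≤ 1 / (4 * N) * II W := by
    intro u hu
    have hpt : ∀ c, k c * W (u - c) ^ 2 ≤ 1 / (4 * N) * W (u - c) ^ 2 := by
      intro c
      by_cases hz : W (u - c) = 0
      · rw [hz]
        ring_nf
        exact le_rfl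
      · have h1 := abs_lt.1 (hWne u c hz)
        refine mul_le_mul_of_nonneg_right ?_ (sq_nonneg _)
        rw [hk]
        refine max_le (by positivity) ?_
        have h2 : 1 - c / N = (N - c) / N := by
          rw [sub_div, div_self hN0.ne']
        rw [h2, div_le_div_iff₀ hN0 (by positivity)]
        nlinarith [h1.2]
    calc κ u ≤ ∫ c, 1 / (4 * N) * W (u - c) ^ 2 ∂μ := by
          rw [hκ]
          refine integral_mono_of_nonneg (Eventually.of_forall fun c => mul_nonneg (hk0 c) (sq_nonneg _)) ?_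
            (Eventually.of_forall hpt)
          exact ((hWu u).const_mul _).restrict
      _ ≤ ∫ c, 1 / (4 * N) * W (u - c) ^ 2 :=
          setIntegral_le_integral ((hWu u).const_mul _) (Eventually.of_forall fun c => by positivity)
      _ = 1 / (4 * N) * II W := by
          rw [integral_const_mul, hIu]
  have hkg1 : IntervalIntegrable (fun u => κ u * g u) volume (7 / 8) (N - 1 / 8) := by
    rw [intervalIntegrable_iff_integrableOn_Ioc_of_le (by linarith)]
    exact IntegrableOn.mono_set (show IntegrableOn (fun u => κ u * g u) (Ioc (7 / 8) (N + 1 / 8)) volume from hκg)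
      (Ioc_subset_Ioc_right (by linarith))
  have hkg2 : IntervalIntegrable (fun u => κ u * g u) volume (N - 1 / 8) (N + 1 / 8) := by
    rw [intervalIntegrable_iff_integrableOn_Ioc_of_le (by linarith)]
    exact IntegrableOn.mono_set (show IntegrableOn (fun u => κ u * g u) (Ioc (7 / 8) (N + 1 / 8)) volume from hκg)
      (Ioc_subset_Ioc_left (by linarith))
  have hgii : ∀ a b : ℝ, IntervalIntegrable g volume a b := fun a b => by
    rw [intervalIntegrable_iff]
    exact hgI _ _
  have hlg : ∀ a b : ℝ, IntervalIntegrable (fun u => (1 - u / N) * g u) volume a b := fun a b => by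
    have hc : ContinuousOn (fun u : ℝ => 1 - u / N) (uIcc a b) := by fun_prop
    exact (hgii a b).continuousOn_mul hc
  rw [hsw]
  have hν2 : ∫ u, κ u * g u ∂ν = ∫ u in (7 / 8 : ℝ)..(N + 1 / 8), κ u * g u := by
    rw [intervalIntegral.integral_of_le (by linarith)]
  rw [hν2, ← intervalIntegral.integral_add_adjacent_intervals hkg1 hkg2]
  refine add_le_add ?_ ?_
  · have h1 : ∫ u in (7 / 8 : ℝ)..(N - 1 / 8), κ u * g u ≤
        ∫ u in (7 / 8 : ℝ)..(N - 1 / 8), II W * ((1 - u / N) * g u) := by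
      refine intervalIntegral.integral_mono_on (by linarith) hkg1 ((hlg _ _).const_mul _) fun u hu => ?_
      have h2 := mul_le_mul_of_nonneg_right (hκm u hu.2) (h0 u)
      linarith
    rw [intervalIntegral.integral_const_mul] at h1
    refine h1.trans (mul_le_mul_of_nonneg_left ?_ hIpos.le)
    have h3 := intervalIntegral.integral_add_adjacent_intervals (hlg (7 / 8) (N - 1 / 8)) (hlg (N - 1 / 8) N)
    have h4 : 0 ≤ ∫ u in (N - 1 / 8)..N, (1 - u / N) * g u := by
      refine intervalIntegral.integral_nonneg (by linarith) fun u hu => ?_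
      refine mul_nonneg ?_ (h0 u)
      have : u / N ≤ 1 := by
        rw [div_le_one hN0]
        exact hu.2
      linarith
    linarith
  · have h1 : ∫ u in (N - 1 / 8)..(N + 1 / 8), κ u * g u ≤
        ∫ u in (N - 1 / 8)..(N + 1 / 8), (1 / (4 * N) * II W) * g u := by
      refine intervalIntegral.integral_mono_on (by linarith) hkg2 ((hgii _ _).const_mul _) fun u hu => ?_
      exact mul_le_mul_of_nonneg_right (hκe u hu.1) (h0 u)
    rw [intervalIntegral.integral_const_mul] at h1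
    refine h1.trans (le_of_eq ?_)
    ring

/-- LEAF DTL (local Plancherel with the Fejér weight). `PBmain` for every `c ∈ [1, N]`, multiplied by `1 - c/N` and integrated:
`∫ Dt² (v) w(v) dv ≥ π⁻¹ ∫_1^N (1 - c/N) ∫_t sl² ‖AA‖² - C N l^(5/4)` with `w(v) = ∫_1^N (1 - c/N) W(v - c)² dc` (Fubini as in
`win_bounds`, `WinA.lean`). `w(v) = 0` for `v ≤ 7/8`; `w(v) ≤ II W (1 - v/N)` for `7/8 ≤ v ≤ N - 1/8` (linear weight, `W²` even);
`w(v) ≤ II W/(4 N)` for `v ∈ [N - 1/8, N + 1/8]`, `0` beyond; `∫_{N - 1/8}^{N + 1/8} Dt² ≤ C l log² (4/l)` by `slAA_bound` and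
`PBmain` (a finite number of windows; `W ≥ ...`: `W = 1` on `[-1/16, 1/16]`). -/
theorem dtl (hRH : RiemannHypothesis) {W : ℝ → ℝ} (hW : EB W (1 / 8)) : ∃ C : ℝ, 0 ≤ C ∧ ∀ l : ℝ, 0 < l → l ≤ 5 / 4 →
    ∀ N : ℝ, 2 ≤ N →
      (Real.pi * II W)⁻¹ * (∫ c in (1 : ℝ)..N, (1 - c / N) * ∫ t in Ioi (0 : ℝ), sl l t ^ 2 * ‖AA W t c‖ ^ 2) ≤
        (∫ v in (7 / 8 : ℝ)..N, (1 - v / N) * Dt l v ^ 2) + C * N * l ^ (5 / 4 : ℝ) + C * l * Real.log (4 / l) ^ 2 / N := by
  obtain ⟨C1, hC1, hb⟩ := PBmain hRH hW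
  obtain ⟨CA, hCA, hA⟩ := slAA_bound hRH hW
  have hII : 0 < II W := II_pos hW (by norm_num)
  have hpi := Real.pi_pos
  set D : ℝ := (II W)⁻¹ * (C1 + (Real.pi)⁻¹ * CA + 2 * C1) with hD
  have hD0 : 0 ≤ D := by positivity
  refine ⟨D, hD0, fun l hl hl1 N hN => ?_⟩
  have hN0 : 0 < N := by linarith
  have hL := PB_L hl hl1
  have hl54 : 0 ≤ l ^ (5 / 4 : ℝ) := Real.rpow_nonneg hl.le _
  have hl54' : l ^ (5 / 4 : ℝ) ≤ 2 * l := by
    have h1 : l ^ (5 / 4 : ℝ) = l * l ^ (1 / 4 : ℝ) := by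
      rw [← Real.rpow_one_add' hl.le (by norm_num)]
      norm_num
    have h2 : l ^ (1 / 4 : ℝ) ≤ 2 := by
      have h3 : l ^ (1 / 4 : ℝ) ≤ (2 : ℝ) ^ (1 / 4 : ℝ) := Real.rpow_le_rpow hl.le (by linarith) (by norm_num)
      have h4 : (2 : ℝ) ^ (1 / 4 : ℝ) ≤ 2 ^ (1 : ℝ) := Real.rpow_le_rpow_of_exponent_le (by norm_num) (by norm_num)
      rw [Real.rpow_one] at h4
      linarith
    rw [h1, mul_comm 2 l]
    exact mul_le_mul_of_nonneg_left h2 hl.le
  have hloc := DTL_loc hl.le hl1
  set g : ℝ → ℝ := fun u => Dt l u ^ 2 with hg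
  have hg0 : ∀ u, 0 ≤ g u := fun u => sq_nonneg _
  set E : ℝ → ℝ := fun c => ∫ u, W (u - c) ^ 2 * g u with hE
  have hEc : Continuous E := win_cont hW (by norm_num) hloc
  set P : ℝ → ℝ := fun c => ∫ t in Ioi (0 : ℝ), sl l t ^ 2 * ‖AA W t c‖ ^ 2 with hP
  have hP0 : ∀ c, 0 ≤ P c := fun c => integral_nonneg fun t => by positivity
  -- nonnegativity of the right side
  have hR0 : 0 ≤ ∫ v in (7 / 8 : ℝ)..N, (1 - v / N) * Dt l v ^ 2 := by
    refine intervalIntegral.integral_nonneg (by linarith) fun u hu => ?_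
    refine mul_nonneg ?_ (sq_nonneg _)
    have : u / N ≤ 1 := by
      rw [div_le_one hN0]
      exact hu.2
    linarith
  have hwin := DTL_win hW hloc hg0 hN
  -- the edge
  have hedge : II W * ∫ u in (N - 1 / 8)..(N + 1 / 8), g u ≤
      ((Real.pi)⁻¹ * CA + 2 * C1) * (l * Real.log (4 / l) ^ 2) := by
    obtain ⟨h1, _⟩ := win_bounds hW (by norm_num) hloc hg0 (c1 := N - 1 / 4) (c2 := N + 1 / 4) (by linarith)
    have e1 : N - 1 / 4 + 1 / 8 = N - 1 / 8 := by ring
    have e2 : N + 1 / 4 - 1 / 8 = N + 1 / 8 := by ring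
    rw [e1, e2] at h1
    refine h1.trans ?_
    have hpt : ∀ c, 1 ≤ c → E c ≤ ((Real.pi)⁻¹ * CA + 2 * C1) * (l * Real.log (4 / l) ^ 2) := by
      intro c hc
      have h2 := (abs_le.1 (hb l hl hl1 c hc)).2
      obtain ⟨h3, h4⟩ := hA l hl hl1 c
      have h5 : P c ≤ CA * l * Real.log (4 / l) ^ 2 :=
        (setIntegral_le_integral h3 (Eventually.of_forall fun t => by positivity)).trans h4
      have h6 : E c ≤ (Real.pi)⁻¹ * P c + C1 * l ^ (5 / 4 : ℝ) := by
        show (∫ u, W (u - c) ^ 2 * Dt l u ^ 2) ≤ _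
        linarith
      have h7 : (Real.pi)⁻¹ * P c ≤ (Real.pi)⁻¹ * (CA * l * Real.log (4 / l) ^ 2) :=
        mul_le_mul_of_nonneg_left h5 (by positivity)
      have h8 : C1 * l ^ (5 / 4 : ℝ) ≤ C1 * (2 * (l * Real.log (4 / l) ^ 2)) := by
        refine mul_le_mul_of_nonneg_left (hl54'.trans ?_) hC1
        have h9 : 1 ≤ Real.log (4 / l) ^ 2 := one_le_pow₀ hL
        nlinarith
      linarith
    have h2 : (∫ c in (N - 1 / 4)..(N + 1 / 4), E c) ≤
        ∫ c in (N - 1 / 4)..(N + 1 / 4), ((Real.pi)⁻¹ * CA + 2 * C1) * (l * Real.log (4 / l) ^ 2) := by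
      refine intervalIntegral.integral_mono_on (by linarith) (hEc.intervalIntegrable _ _)
        intervalIntegrable_const fun c hc => ?_
      exact hpt c (by linarith [hc.1])
    refine h2.trans ?_
    rw [intervalIntegral.integral_const, smul_eq_mul]
    have h3 : 0 ≤ ((Real.pi)⁻¹ * CA + 2 * C1) * (l * Real.log (4 / l) ^ 2) := by positivity
    have h4 : N + 1 / 4 - (N - 1 / 4) = 1 / 2 := by ring
    rw [h4]
    linarith
  by_cases hPi : IntervalIntegrable (fun c => (1 - c / N) * P c) volume 1 N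
  · have hEi : IntervalIntegrable (fun c => (1 - c / N) * E c) volume 1 N := by
      refine Continuous.intervalIntegrable ?_ _ _
      exact (by fun_prop : Continuous fun c : ℝ => 1 - c / N).mul hEc
    have h1 : (Real.pi)⁻¹ * (∫ c in (1 : ℝ)..N, (1 - c / N) * P c) ≤
        (∫ c in (1 : ℝ)..N, (1 - c / N) * E c) + C1 * l ^ (5 / 4 : ℝ) * N := by
      have h2 : (∫ c in (1 : ℝ)..N, (Real.pi)⁻¹ * ((1 - c / N) * P c)) ≤
          ∫ c in (1 : ℝ)..N, ((1 - c / N) * E c + C1 * l ^ (5 / 4 : ℝ)) := by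
        refine intervalIntegral.integral_mono_on (by linarith) (hPi.const_mul _)
          (hEi.add intervalIntegrable_const) fun c hc => ?_
        have h3 := (abs_le.1 (hb l hl hl1 c hc.1)).1
        have h4 : (Real.pi)⁻¹ * P c ≤ E c + C1 * l ^ (5 / 4 : ℝ) := by
          have h5 : -(C1 * l ^ (5 / 4 : ℝ)) ≤ E c - (Real.pi)⁻¹ * P c := h3
          linarith
        have h5 : 0 ≤ 1 - c / N := by
          have : c / N ≤ 1 := by
            rw [div_le_one hN0]
            exact hc.2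
          linarith
        have h6 : 1 - c / N ≤ 1 := by
          have : 0 ≤ c / N := div_nonneg (by linarith [hc.1]) hN0.le
          linarith
        have h7 := mul_le_mul_of_nonneg_left h4 h5
        have h8 : (1 - c / N) * (C1 * l ^ (5 / 4 : ℝ)) ≤ 1 * (C1 * l ^ (5 / 4 : ℝ)) :=
          mul_le_mul_of_nonneg_right h6 (mul_nonneg hC1 hl54)
        nlinarith
      rw [intervalIntegral.integral_const_mul, intervalIntegral.integral_add hEi intervalIntegrable_const,
        intervalIntegral.integral_const, smul_eq_mul] at h2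
      refine h2.trans ?_
      have h3 : 0 ≤ C1 * l ^ (5 / 4 : ℝ) := mul_nonneg hC1 hl54
      nlinarith
    have h2 : (Real.pi)⁻¹ * (∫ c in (1 : ℝ)..N, (1 - c / N) * P c) ≤
        II W * (∫ v in (7 / 8 : ℝ)..N, (1 - v / N) * Dt l v ^ 2) +
          (1 / (4 * N) * (((Real.pi)⁻¹ * CA + 2 * C1) * (l * Real.log (4 / l) ^ 2)) + C1 * l ^ (5 / 4 : ℝ) * N) := by
      have h3 := mul_le_mul_of_nonneg_left hedge (show 0 ≤ 1 / (4 * N) by positivity)
      have h4 : (∫ c in (1 : ℝ)..N, (1 - c / N) * E c) ≤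
          II W * (∫ v in (7 / 8 : ℝ)..N, (1 - v / N) * Dt l v ^ 2) +
            1 / (4 * N) * (II W * ∫ u in (N - 1 / 8)..(N + 1 / 8), g u) := hwin
      linarith
    have hinv : 0 ≤ (II W)⁻¹ := by positivity
    have h3 := mul_le_mul_of_nonneg_left h2 hinv
    have h4 : (II W)⁻¹ * (II W * (∫ v in (7 / 8 : ℝ)..N, (1 - v / N) * Dt l v ^ 2) +
          (1 / (4 * N) * (((Real.pi)⁻¹ * CA + 2 * C1) * (l * Real.log (4 / l) ^ 2)) + C1 * l ^ (5 / 4 : ℝ) * N)) =
        (∫ v in (7 / 8 : ℝ)..N, (1 - v / N) * Dt l v ^ 2) +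
          (II W)⁻¹ * ((1 / (4 * N) * (((Real.pi)⁻¹ * CA + 2 * C1) * (l * Real.log (4 / l) ^ 2)) +
            C1 * l ^ (5 / 4 : ℝ) * N)) := by
      rw [mul_add, ← mul_assoc, inv_mul_cancel₀ hII.ne', one_mul]
    rw [h4] at h3
    have h5 : (Real.pi * II W)⁻¹ * (∫ c in (1 : ℝ)..N, (1 - c / N) * P c) =
        (II W)⁻¹ * ((Real.pi)⁻¹ * (∫ c in (1 : ℝ)..N, (1 - c / N) * P c)) := by
      rw [mul_inv]
      ring
    show (Real.pi * II W)⁻¹ * (∫ c in (1 : ℝ)..N, (1 - c / N) * P c) ≤ _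
    rw [h5]
    refine h3.trans ?_
    rw [add_assoc]
    refine add_le_add le_rfl ?_
    have h6 : D * l * Real.log (4 / l) ^ 2 / N = (II W)⁻¹ * (1 / N * ((C1 + (Real.pi)⁻¹ * CA + 2 * C1) * (l * Real.log (4 / l) ^ 2))) := by
      rw [hD]
      ring
    have h7 : D * N * l ^ (5 / 4 : ℝ) = (II W)⁻¹ * ((C1 + (Real.pi)⁻¹ * CA + 2 * C1) * l ^ (5 / 4 : ℝ) * N) := by
      rw [hD]
      ring
    rw [h6, h7, ← mul_add]
    refine mul_le_mul_of_nonneg_left ?_ hinv
    have h8 : 1 / (4 * N) * (((Real.pi)⁻¹ * CA + 2 * C1) * (l * Real.log (4 / l) ^ 2)) ≤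
        1 / N * ((C1 + (Real.pi)⁻¹ * CA + 2 * C1) * (l * Real.log (4 / l) ^ 2)) := by
      refine mul_le_mul ?_ ?_ (by positivity) (by positivity)
      · exact one_div_le_one_div_of_le hN0 (by linarith)
      · refine mul_le_mul_of_nonneg_right (by linarith) (by positivity)
    have h9 : C1 * l ^ (5 / 4 : ℝ) * N ≤ (C1 + (Real.pi)⁻¹ * CA + 2 * C1) * l ^ (5 / 4 : ℝ) * N := by
      refine mul_le_mul_of_nonneg_right (mul_le_mul_of_nonneg_right ?_ hl54) hN0.le
      have : 0 ≤ (Real.pi)⁻¹ * CA := by positivity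
      linarith
    linarith
  · have h1 : (∫ c in (1 : ℝ)..N, (1 - c / N) * P c) = 0 := intervalIntegral.integral_undef hPi
    show (Real.pi * II W)⁻¹ * (∫ c in (1 : ℝ)..N, (1 - c / N) * P c) ≤ _
    rw [h1, mul_zero]
    have h2 : 0 ≤ D * N * l ^ (5 / 4 : ℝ) := by positivity
    have h3 : 0 ≤ D * l * Real.log (4 / l) ^ 2 / N := by positivity
    linarith

end Pool.Agent.Lib.MP_2a816b_nt.TA
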