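import Pool.Agent.Lib.MP_2a816b_nt.PV.Fin

/-!
# A Tauberian theorem for the variance of primes in short intervals: definitions

`L = log T`, `T = X/H`, `c0 = γ + log 2π`. `QQ T u = V/H` at `X = e^u`, `H = e^u/T`.
-/

open Complex Set Filter Topology MeasureTheory

namespace Pool.Agent.Lib.MP_2a816b_nt.TA

open Pool.Agent.Lib.MP_00e05b_nt Pool.Agent.Lib.MP_00e05b_nt.Mont Pool.Agent.Lib.MP_2a816b_nt.PV

/-- the constant `γ + log 2π` of the refined conjecture -/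
noncomputable def c0 : ℝ := Real.eulerMascheroniConstant + Real.log (2 * Real.pi)

/-- The one-sided hypothesis: the upper bound of the refined conjecture, with error `H (1 + log H)^(-θ)`,
`θ = (1 + 2 δ)/(2 + δ)`, for all `1 ≤ H ≤ X` with `log X ≤ (log (X/H))^(2 + δ)`. -/
def UB (δ C : ℝ) : Prop := ∀ X H : ℝ, 1 ≤ H → H ≤ X → Real.log X ≤ Real.log (X / H) ^ (2 + δ) →
  VV X H ≤ H * (Real.log (X / H) - (Real.eulerMascheroniConstant + Real.log (2 * Real.pi))) +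
    C * H * (1 + Real.log H) ^ (-((1 + 2 * δ) / (2 + δ)))

/-- `V(X, H)/H` on the ray `X/H = T`, `X = e^u` -/
noncomputable def QQ (T u : ℝ) : ℝ := VV (Real.exp u) (Real.exp u / T) / (Real.exp u / T)

/-- the local density of the zeros at height `t` is `(log t + κ)/2π` (smooth form, error `t^(-1/2)`) -/
def Kap (κ : ℝ) : Prop := ∀ h : ℝ → ℝ, ES h (1 / 2) → ∃ C : ℝ, 0 ≤ C ∧ ∀ t : ℝ, 1 ≤ t →
  |(∑' a : ℂ, (mx a : ℝ) * ck h (t - a.im)) - h 0 * (Real.log t + κ)| ≤ C * t ^ (-(1 / 2) : ℝ)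

/-- the same for `AA W t c` with centre `c ∈ [0, 1/4]` -/
def KapA (κ : ℝ) : Prop := ∀ W : ℝ → ℝ, EB W (1 / 8) → ∃ C : ℝ, 0 ≤ C ∧ ∀ c : ℝ, 0 ≤ c → c ≤ 1 / 4 → ∀ t : ℝ, 1 ≤ t →
  ‖AA W t c‖ ≤ W c * |Real.log t + κ| + C * t ^ (-(1 / 2) : ℝ)

/-- the number of zeros within `δ` of the height of `a`, with multiplicity -/
noncomputable def cl (δ : ℝ) (a : ℂ) : ℝ := ∑' b : ℂ, if |b.im - a.im| ≤ δ then (mx b : ℝ) else 0

/-- local excess of close pairs near height `t` -/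
noncomputable def EX (W : ℝ → ℝ) (δ t : ℝ) : ℝ := ∑' a : ℂ, (mx a : ℝ) * ck W (t - a.im) ^ 2 * (cl δ a - 1)

/-- `N*(T) - N(T)` plus the number of ordered pairs of distinct ordinates in `(0, T]` at distance at most `δ`
(with multiplicities). -/
noncomputable def NC (T δ : ℝ) : ℝ :=
  (∑ x ∈ ordinates T, ∑ y ∈ ordinates T, if |x - y| ≤ δ then (mult x : ℝ) * (mult y : ℝ) else 0) -
    ∑ x ∈ ordinates T, (mult x : ℝ)

/-- the kernel of the explicit formula on `(0, log 2)` -/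
noncomputable def kx (u : ℝ) : ℝ := Real.exp (u / 2) - Real.exp (-(u / 2)) * rt u

end Pool.Agent.Lib.MP_2a816b_nt.TA
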