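import Pool.Agent.Lib.MP_2a816b_nt.TA.Defs

open Complex Set Filter Topology MeasureTheory
open scoped ContDiff

namespace Pool.Agent.Lib.MP_2a816b_nt.TA

open Pool.Agent.Lib.MP_00e05b_nt Pool.Agent.Lib.MP_00e05b_nt.Mont Pool.Agent.Lib.MP_2a816b_nt.PV

/-- the convolution square -/
private noncomputable def Den_h (ψ : ℝ → ℝ) (x : ℝ) : ℝ := ∫ y, ψ y * ψ (x - y)

private lemma Den_es {ψ : ℝ → ℝ} (hψ : EB ψ (1 / 8)) : ES (Den_h ψ) (1 / 2) := by
  have hes := hψ.es
  refine ⟨?_, ?_, ?_⟩
  · have h1 : Den_h ψ = convolution ψ ψ (ContinuousLinearMap.mul ℝ ℝ) volume := by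
      funext x
      unfold Den_h convolution
      simp only [ContinuousLinearMap.mul_apply']
    rw [h1]
    exact HasCompactSupport.contDiff_convolution_right (n := ⊤) (ContinuousLinearMap.mul ℝ ℝ)
      hes.compact hes.integrable.locallyIntegrable hψ.smooth
  · intro u
    unfold Den_h
    rw [← integral_neg_eq_self]
    refine integral_congr_ae (Eventually.of_forall fun y => ?_)
    simp only
    rw [hψ.even y, show -u - -y = -(u - y) by ring, hψ.even (u - y)]
  · intro u hu
    unfold Den_h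
    rw [← integral_zero ℝ ℝ (μ := volume)]
    refine integral_congr_ae (Eventually.of_forall fun y => ?_)
    simp only
    by_cases hy : 1 / 8 ≤ |y|
    · rw [hψ.supp y hy, zero_mul]
    · have h2 : 1 / 8 ≤ |u - y| := by
        have h3 : |u| ≤ |u - y| + |y| := by
          calc |u| = |(u - y) + y| := by rw [sub_add_cancel]
            _ ≤ |u - y| + |y| := abs_add_le _ _
        push Not at hy
        linarith
      rw [hψ.supp (u - y) h2, mul_zero]

private lemma Den_ck {ψ : ℝ → ℝ} (hψ : EB ψ (1 / 8)) (t : ℝ) : ck (Den_h ψ) t = (ck ψ t) ^ 2 := by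
  have hes := hψ.es
  set F : ℝ → ℂ := fun u => (ψ u : ℂ) * cexp (((t * u : ℝ) : ℂ) * I) with hF
  have hFint : Integrable F := by
    apply Continuous.integrable_of_hasCompactSupport
    · rw [hF]
      have := hes.continuous
      fun_prop
    · apply HasCompactSupport.mul_right
      exact hes.compact.comp_left (g := fun x : ℝ => (x : ℂ)) Complex.ofReal_zero
  have h1 := integral_convolution (ContinuousLinearMap.mul ℝ ℂ) (μ := volume) (ν := volume)
    hFint hFint
  have h2 : ∀ x, (convolution F F (ContinuousLinearMap.mul ℝ ℂ) volume) x =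
      (Den_h ψ x : ℂ) * cexp (((t * x : ℝ) : ℂ) * I) := by
    intro x
    unfold convolution Den_h
    rw [← integral_complex_ofReal, ← integral_mul_const]
    refine integral_congr_ae (Eventually.of_forall fun y => ?_)
    simp only [ContinuousLinearMap.mul_apply', hF]
    have h3 : cexp (((t * x : ℝ) : ℂ) * I) = cexp (((t * y : ℝ) : ℂ) * I) *
        cexp (((t * (x - y) : ℝ) : ℂ) * I) := by
      rw [← Complex.exp_add]
      congr 1
      push_cast
      ring
    rw [h3]
    push_cast
    ring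
  rw [integral_congr_ae (Eventually.of_forall h2), ck_cexp (Den_es hψ) t] at h1
  simp only [ContinuousLinearMap.mul_apply', hF] at h1
  rw [ck_cexp hes t] at h1
  have h4 : ((ck (Den_h ψ) t : ℝ) : ℂ) = ((ck ψ t ^ 2 : ℝ) : ℂ) := by
    rw [h1]
    push_cast
    ring
  exact_mod_cast h4

/-- LEAF Den (from `Kap`). `(ck W)² = ck h` with `h = W ⋆ W` (`h u = ∫ W v W (u - v) dv`), smooth, even, supported in
`[-1/4, 1/4]`, `h 0 = ∫ W² = II W`. See `Mont/ConvH.lean` (it may contain this). -/
theorem den {κ : ℝ} (hκ : Kap κ) {W : ℝ → ℝ} (hW : EB W (1 / 8)) : ∃ C : ℝ, 0 ≤ C ∧ ∀ t : ℝ, 1 ≤ t →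
    |(∑' a : ℂ, (mx a : ℝ) * ck W (t - a.im) ^ 2) - II W * (Real.log t + κ)| ≤ C * t ^ (-(1 / 2) : ℝ) := by
  obtain ⟨C, hC, h⟩ := hκ (Den_h W) (Den_es hW)
  refine ⟨C, hC, fun t ht => ?_⟩
  have h0 : Den_h W 0 = II W := by
    unfold Den_h II
    refine integral_congr_ae (Eventually.of_forall fun y => ?_)
    simp only
    rw [zero_sub, hW.even]
    ring
  have h1 := h t ht
  rw [h0] at h1
  simp only [Den_ck hW] at h1
  exact h1

end Pool.Agent.Lib.MP_2a816b_nt.TA
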