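import Pool.Agent.Lib.MP_2a816b_nt.TA.XV

open Complex Set Filter Topology MeasureTheory

namespace Pool.Agent.Lib.MP_2a816b_nt.TA

open Pool.Agent.Lib.MP_00e05b_nt Pool.Agent.Lib.MP_00e05b_nt.Mont Pool.Agent.Lib.MP_2a816b_nt.PV

private theorem Edg_alg {S A B : ℝ} (hA : 0 ≤ A) (hB : 0 ≤ B)
    (h : ∀ t : ℝ, 0 < t → S ≤ (1 + t) * A ^ 2 + (1 + 1 / t) * B ^ 2) : √S ≤ A + B := by
  apply le_of_forall_pos_le_add
  intro ε hε
  have hA' : 0 < A + ε / 2 := by linarith
  have hB' : 0 < B + ε / 2 := by linarith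
  have ht : 0 < (B + ε / 2) / (A + ε / 2) := div_pos hB' hA'
  have h1 := h _ ht
  have h2 : (1 + (B + ε / 2) / (A + ε / 2)) * A ^ 2 + (1 + 1 / ((B + ε / 2) / (A + ε / 2))) * B ^ 2 ≤
      (1 + (B + ε / 2) / (A + ε / 2)) * (A + ε / 2) ^ 2 + (1 + 1 / ((B + ε / 2) / (A + ε / 2))) * (B + ε / 2) ^ 2 := by
    have h3 : A ^ 2 ≤ (A + ε / 2) ^ 2 := by gcongr; linarith
    have h4 : B ^ 2 ≤ (B + ε / 2) ^ 2 := by gcongr; linarith
    have h5 : 0 < 1 / ((B + ε / 2) / (A + ε / 2)) := by positivity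
    gcongr
  have h3 : (1 + (B + ε / 2) / (A + ε / 2)) * (A + ε / 2) ^ 2 + (1 + 1 / ((B + ε / 2) / (A + ε / 2))) * (B + ε / 2) ^ 2 =
      (A + B + ε) ^ 2 := by
    field_simp
    ring
  rw [Real.sqrt_le_iff]
  constructor
  · linarith
  · linarith

private theorem Edg_int {f : ℝ → ℝ} (hf : Measurable f) {C : ℝ} (hC : ∀ x, |f x| ≤ C) (a b : ℝ) :
    IntervalIntegrable (fun x => f x ^ 2) volume a b := by
  rw [intervalIntegrable_iff]
  have hm : Measurable (fun x => f x ^ 2) := hf.pow_const 2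
  refine Measure.integrableOn_of_bounded (M := C ^ 2) (by simp) hm.aestronglyMeasurable ?_
  filter_upwards with x
  rw [norm_pow, Real.norm_eq_abs]
  have := hC x
  gcongr

private theorem Edg_mink {f g : ℝ → ℝ} {a b : ℝ} (hab : a ≤ b) (hf : Measurable f) (hg : Measurable g) {C D : ℝ}
    (hC : ∀ x, |f x| ≤ C) (hD : ∀ x, |g x| ≤ D) :
    √(∫ x in a..b, (f x + g x) ^ 2) ≤ √(∫ x in a..b, f x ^ 2) + √(∫ x in a..b, g x ^ 2) := by
  have hfi := Edg_int hf hC a b
  have hgi := Edg_int hg hD a b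
  have hfg : IntervalIntegrable (fun x => (f x + g x) ^ 2) volume a b :=
    Edg_int (f := fun x => f x + g x) (hf.add hg) (C := C + D)
      (fun x => (abs_add_le _ _).trans (add_le_add (hC x) (hD x))) a b
  have h0f : 0 ≤ ∫ x in a..b, f x ^ 2 := intervalIntegral.integral_nonneg hab fun _ _ => by positivity
  have h0g : 0 ≤ ∫ x in a..b, g x ^ 2 := intervalIntegral.integral_nonneg hab fun _ _ => by positivity
  apply Edg_alg (Real.sqrt_nonneg _) (Real.sqrt_nonneg _)
  intro t ht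
  rw [Real.sq_sqrt h0f, Real.sq_sqrt h0g, ← intervalIntegral.integral_const_mul, ← intervalIntegral.integral_const_mul,
    ← intervalIntegral.integral_add (hfi.const_mul _) (hgi.const_mul _)]
  apply intervalIntegral.integral_mono_on hab hfg ((hfi.const_mul _).add (hgi.const_mul _))
  intro x _
  have h1 : (1 + t) * f x ^ 2 + (1 + 1 / t) * g x ^ 2 - (f x + g x) ^ 2 = (t * f x - g x) ^ 2 / t := by
    field_simp
    ring
  have h2 : 0 ≤ (t * f x - g x) ^ 2 / t := by positivity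
  linarith

/-- copy of `psiWindow_bounded` (Integral.lean) -/
private theorem Edg_psi (X H : ℝ) :
    ∃ g : ℝ → ℝ, Measurable g ∧ (∃ C, ∀ x, |g x| ≤ C) ∧
      ∀ x, 0 ≤ x + H / 2 → x ≤ X → psiWindow x H = g x := by
  set B : ℕ := ⌊X + H / 2⌋₊ with hB
  refine ⟨fun x => ∑ n ∈ Finset.Icc 1 B, if x - H / 2 ≤ (n : ℝ) ∧ (n : ℝ) ≤ x + H / 2 then
    ArithmeticFunction.vonMangoldt n else 0, ?_, ?_, ?_⟩
  · apply Finset.measurable_sum
    intro n _
    apply Measurable.ite _ measurable_const measurable_const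
    have : {x : ℝ | x - H / 2 ≤ (n : ℝ) ∧ (n : ℝ) ≤ x + H / 2} =
        Set.Icc ((n : ℝ) - H / 2) ((n : ℝ) + H / 2) := by
      ext x
      rw [Set.mem_Icc]
      change (x - H / 2 ≤ (n : ℝ) ∧ (n : ℝ) ≤ x + H / 2) ↔ _
      constructor
      · rintro ⟨h1, h2⟩; constructor <;> linarith
      · rintro ⟨h1, h2⟩; constructor <;> linarith
    rw [this]
    exact measurableSet_Icc
  · refine ⟨∑ n ∈ Finset.Icc 1 B, ArithmeticFunction.vonMangoldt n, ?_⟩
    intro x
    refine (Finset.abs_sum_le_sum_abs _ _).trans ?_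
    apply Finset.sum_le_sum; intro n _
    have := ArithmeticFunction.vonMangoldt_nonneg (n := n)
    split_ifs
    · rw [abs_of_nonneg this]
    · rw [abs_zero]; exact this
  · intro x hx0 hxX
    unfold psiWindow
    simp only
    rw [← Finset.sum_filter]
    apply Finset.sum_congr _ (fun _ _ => rfl)
    ext n
    rw [Finset.mem_filter, Finset.mem_filter, Finset.mem_Icc, Finset.mem_Icc, Nat.le_floor_iff hx0]
    constructor
    · rintro ⟨⟨h1, h2⟩, h3⟩
      refine ⟨⟨h1, ?_⟩, h3, h2⟩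
      rw [hB]
      apply Nat.le_floor
      linarith
    · rintro ⟨⟨h1, _⟩, h3, h2⟩
      exact ⟨⟨h1, h2⟩, h3⟩

private theorem Edg_bd {a b d h : ℝ} (hh : 0 ≤ h) (ha : 0 ≤ a + d) : ∃ (G : ℝ → ℝ) (C : ℝ), Measurable G ∧
    (∀ x, |G x| ≤ C) ∧ ∀ x ∈ Icc a b, psiWindow (x + d) h - h = G x := by
  obtain ⟨g, hg, ⟨C, hC⟩, hgx⟩ := Edg_psi (b + d) h
  refine ⟨fun x => g (x + d) - h, C + |h|, (hg.comp (measurable_id.add_const d)).sub_const h, fun x => ?_, fun x hx => ?_⟩
  · exact (abs_sub _ _).trans (add_le_add (hC _) le_rfl)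
  · simp only
    rw [hgx (x + d) (by linarith [hx.1]) (by linarith [hx.2])]

private theorem Edg_shift {X H h d : ℝ} (hh : 0 ≤ h) (hHX : H ≤ X) (h1 : h ≤ H + d) (h2 : X + d ≤ 2 * X) :
    ∫ x in H..X, (psiWindow (x + d) h - h) ^ 2 ≤ ∫ x in h..(2 * X), (psiWindow x h - h) ^ 2 := by
  rw [intervalIntegral.integral_comp_add_right (fun x => (psiWindow x h - h) ^ 2) d]
  apply intervalIntegral.integral_mono_interval h1 (by linarith) h2
  · exact Eventually.of_forall fun x => by positivity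
  · obtain ⟨G, C, m, b, g⟩ := Edg_bd (a := h) (b := 2 * X) (d := 0) hh (by linarith)
    refine (Edg_int m b h (2 * X)).congr fun x hx => ?_
    rw [uIoc_of_le (by linarith)] at hx
    show G x ^ 2 = (psiWindow x h - h) ^ 2
    rw [← g x (Ioc_subset_Icc_self hx), add_zero]

/-- LEAF Dip1 (edges). If `H' = H e^(-s)`, `h = (H - H')/2`, then for almost all `x`
`psiWindow x H = psiWindow x H' + psiWindow (x + (H + H')/4) h + psiWindow (x - (H + H')/4) h`, so by Minkowski on `[H, X]`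
`(∫_H^X (psiWindow x H' - H')²)^(1/2) ≤ (∫_H^X (psiWindow x H - H)²)^(1/2) + 2 (2 X V(2X, h))^(1/2)`. -/
theorem edges {X H s : ℝ} (hH : 0 < H) (hHX : H ≤ X) (hs : 0 < s) (hs1 : s ≤ 1) :
    √(∫ x in H..X, (psiWindow x (H * Real.exp (-s)) - H * Real.exp (-s)) ^ 2) ≤
      √(X * VV X H) + 2 * √(2 * X * VV (2 * X) (H * (1 - Real.exp (-s)) / 2)) := by
  have hX : 0 < X := by linarith
  have e1 : Real.exp (-s) < 1 := by rw [Real.exp_lt_one_iff]; linarith
  have e0 := Real.exp_pos (-s)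
  set H' : ℝ := H * Real.exp (-s) with hH'
  have hH'0 : 0 < H' := by positivity
  have hH'H : H' < H := by
    rw [hH']
    nlinarith
  have hh : H * (1 - Real.exp (-s)) / 2 = (H - H') / 2 := by
    rw [hH']
    ring
  rw [hh]
  set h : ℝ := (H - H') / 2 with hhd
  have hh0 : 0 < h := by rw [hhd]; linarith
  have hV1 : X * VV X H = ∫ x in H..X, (psiWindow x H - H) ^ 2 := by
    unfold VV
    field_simp
  have hV2 : 2 * X * VV (2 * X) h = ∫ x in h..(2 * X), (psiWindow x h - h) ^ 2 := by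
    unfold VV
    field_simp
  rw [hV1, hV2]
  set δ : ℝ := (H + H') / 4 with hδ
  obtain ⟨G0, C0, m0, b0, g0⟩ := Edg_bd (a := H) (b := X) (d := 0) hH.le (by linarith)
  obtain ⟨G1, C1, m1, b1, g1⟩ := Edg_bd (a := H) (b := X) (d := δ) hh0.le (by rw [hδ]; linarith)
  obtain ⟨G2, C2, m2, b2, g2⟩ := Edg_bd (a := H) (b := X) (d := -δ) hh0.le (by rw [hδ]; linarith)
  have hi0 : ∫ x in H..X, G0 x ^ 2 = ∫ x in H..X, (psiWindow x H - H) ^ 2 := by
    apply intervalIntegral.integral_congr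
    intro x hx
    rw [uIcc_of_le hHX] at hx
    simp only
    rw [← g0 x hx, add_zero]
  have hi1 : ∫ x in H..X, G1 x ^ 2 = ∫ x in H..X, (psiWindow (x + δ) h - h) ^ 2 := by
    apply intervalIntegral.integral_congr
    intro x hx
    rw [uIcc_of_le hHX] at hx
    simp only
    rw [← g1 x hx]
  have hi2 : ∫ x in H..X, G2 x ^ 2 = ∫ x in H..X, (psiWindow (x + -δ) h - h) ^ 2 := by
    apply intervalIntegral.integral_congr
    intro x hx
    rw [uIcc_of_le hHX] at hx
    simp only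
    rw [← g2 x hx]
  have hS1 : ∫ x in H..X, (psiWindow (x + δ) h - h) ^ 2 ≤ ∫ x in h..(2 * X), (psiWindow x h - h) ^ 2 :=
    Edg_shift hh0.le hHX (by rw [hδ, hhd]; linarith) (by rw [hδ]; linarith)
  have hS2 : ∫ x in H..X, (psiWindow (x + -δ) h - h) ^ 2 ≤ ∫ x in h..(2 * X), (psiWindow x h - h) ^ 2 :=
    Edg_shift hh0.le hHX (by rw [hδ, hhd]; linarith) (by rw [hδ]; linarith)
  have hmain : ∫ x in H..X, (psiWindow x H' - H') ^ 2 = ∫ x in H..X, (G0 x + (-G1 x + -G2 x)) ^ 2 := by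
    apply intervalIntegral.integral_congr_ae
    have c1 : (Set.range fun n : ℕ => (n : ℝ) + H / 2).Countable := Set.countable_range _
    have c2 : (Set.range fun n : ℕ => (n : ℝ) + H' / 2).Countable := Set.countable_range _
    have c3 : (Set.range fun n : ℕ => (n : ℝ) - H' / 2).Countable := Set.countable_range _
    filter_upwards [c1.ae_notMem volume, c2.ae_notMem volume, c3.ae_notMem volume] with x h1 h2 h3 hx
    rw [uIoc_of_le hHX] at hx
    have hx' : x ∈ Icc H X := Ioc_subset_Icc_self hx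
    rw [← g0 x hx', ← g1 x hx', ← g2 x hx', add_zero]
    have w0 := Star_win (x := x) hH.le (by linarith [hx.1]) fun n hn => h1 ⟨n, hn.symm⟩
    have w1 := Star_win (x := x) hH'0.le (by linarith [hx.1]) fun n hn => h2 ⟨n, hn.symm⟩
    have w2 := Star_win (x := x + δ) hh0.le (by rw [hδ, hhd]; linarith [hx.1]) fun n hn => h3 ⟨n, by
      simp only
      rw [hδ, hhd] at hn
      linarith⟩
    have w3 := Star_win (x := x + -δ) hh0.le (by rw [hδ, hhd]; linarith [hx.1]) fun n hn => h1 ⟨n, by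
      simp only
      rw [hδ, hhd] at hn
      linarith⟩
    rw [show x + δ + h / 2 = x + H / 2 by rw [hδ, hhd]; ring, show x + δ - h / 2 = x + H' / 2 by rw [hδ, hhd]; ring] at w2
    rw [show x + -δ + h / 2 = x - H' / 2 by rw [hδ, hhd]; ring, show x + -δ - h / 2 = x - H / 2 by rw [hδ, hhd]; ring] at w3
    rw [w0, w1, w2, w3]
    have : H' = H - h - h := by rw [hhd]; ring
    congr 1
    linarith
  rw [hmain]
  have k1 := Edg_mink hHX m0 (m1.neg.add m2.neg) b0 (D := C1 + C2) (fun x => by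
    refine (abs_add_le _ _).trans (add_le_add ?_ ?_)
    · simp only [Pi.neg_apply, abs_neg]
      exact b1 x
    · simp only [Pi.neg_apply, abs_neg]
      exact b2 x)
  have k2 := Edg_mink hHX m1.neg m2.neg (C := C1) (D := C2) (fun x => by
      simp only [Pi.neg_apply, abs_neg]
      exact b1 x) (fun x => by
      simp only [Pi.neg_apply, abs_neg]
      exact b2 x)
  simp only [Pi.neg_apply, Pi.add_apply, neg_sq] at k1 k2
  rw [hi0] at k1
  rw [hi1, hi2] at k2
  have k3 := Real.sqrt_le_sqrt hS1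
  have k4 := Real.sqrt_le_sqrt hS2
  linarith

end Pool.Agent.Lib.MP_2a816b_nt.TA
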