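import Pool.Agent.Lib.MP_2a816b_nt.TA.GKer
import Pool.Agent.Lib.MP_2a816b_nt.TA.Asm1

open Complex Set Filter Topology MeasureTheory

namespace Pool.Agent.Lib.MP_2a816b_nt.TA

open Pool.Agent.Lib.MP_00e05b_nt Pool.Agent.Lib.MP_00e05b_nt.Mont Pool.Agent.Lib.MP_2a816b_nt.PV

/-- `Ig M` is continuous -/
theorem GAsm1_cont {M : ℝ} (hM : 1 ≤ M) : Continuous (Ig M) := by
  have hc : Continuous (Kg M) := by
    unfold Kg
    fun_prop
  have h1 : ∀ σ : ℝ, Ig M σ = Ig M 0 - ∫ x in (0 : ℝ)..σ, Kg M x := by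
    intro σ
    have h2 := intervalIntegral.integral_interval_add_Ioi (Kg_int hM 0) (Kg_int hM σ)
    unfold Ig
    linarith
  have h3 : Continuous fun σ : ℝ => Ig M 0 - ∫ x in (0 : ℝ)..σ, Kg M x := by
    refine continuous_const.sub ?_
    exact intervalIntegral.continuous_primitive (fun a b => hc.intervalIntegrable a b) 0
  rw [funext h1]
  exact h3

/-- the primitive of the main part -/
theorem GAsm1_prim {L I D l : ℝ} (hl : 0 < l) :
    HasDerivAt (fun l => -(1 / 2 : ℝ) * (l⁻¹ * ((L + Real.log l) ^ 2 -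
      (2 * I - 2) * (L + Real.log l) + (D * (2 * I - D) + 2 - 2 * I))))
      (1 / 2 * (l⁻¹ ^ 2 * ((D - (L + Real.log l)) * (2 * I - D - (L + Real.log l))))) l := by
  have h1 : HasDerivAt (fun l => L + Real.log l) l⁻¹ l := (Real.hasDerivAt_log hl.ne').const_add L
  have h2 : HasDerivAt (fun l : ℝ => l⁻¹) (-(l ^ 2)⁻¹) l := hasDerivAt_inv hl.ne'
  have h3 := (h1.pow 2).sub (h1.const_mul (2 * I - 2))
  have h4 := h3.add_const (D * (2 * I - D) + 2 - 2 * I)
  have h5 := (h2.mul h4).const_mul (-(1 / 2 : ℝ))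
  refine h5.congr_deriv ?_
  simp only [Pi.sub_apply, Pi.pow_apply]
  push_cast
  field_simp
  ring

/-- the main part -/
theorem GAsm1_int {L I D a : ℝ} (ha : 0 < a) (ha1 : a ≤ 1) :
    ∫ l in a..1, 1 / 2 * (l⁻¹ ^ 2 * ((D - (L + Real.log l)) * (2 * I - D - (L + Real.log l)))) =
      -(1 / 2 : ℝ) * (L ^ 2 - (2 * I - 2) * L + (D * (2 * I - D) + 2 - 2 * I)) +
      (1 / 2) * (a⁻¹ * ((L + Real.log a) ^ 2 - (2 * I - 2) * (L + Real.log a) +
        (D * (2 * I - D) + 2 - 2 * I))) := by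
  have h1 : ∀ l ∈ uIcc a 1, HasDerivAt (fun l => -(1 / 2 : ℝ) * (l⁻¹ *
      ((L + Real.log l) ^ 2 - (2 * I - 2) * (L + Real.log l) + (D * (2 * I - D) + 2 - 2 * I))))
      (1 / 2 * (l⁻¹ ^ 2 * ((D - (L + Real.log l)) * (2 * I - D - (L + Real.log l))))) l := by
    intro l hl
    rw [uIcc_of_le ha1] at hl
    exact GAsm1_prim (lt_of_lt_of_le ha hl.1)
  rw [intervalIntegral.integral_eq_sub_of_hasDerivAt h1 ?_]
  · rw [Real.log_one]
    ring
  · refine ContinuousOn.intervalIntegrable ?_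
    have hne : ∀ l ∈ uIcc a 1, l ≠ 0 := by
      intro l hl
      rw [uIcc_of_le ha1] at hl
      exact (lt_of_lt_of_le ha hl.1).ne'
    have h2 : ContinuousOn Real.log (uIcc a 1) := Real.continuousOn_log.mono fun l hl => by
      simpa using hne l hl
    have h3 : ContinuousOn (fun l : ℝ => l⁻¹) (uIcc a 1) := continuousOn_inv₀.mono fun l hl => by
      simpa using hne l hl
    fun_prop

/-- the pointwise bound -/
theorem GAsm1_point {L M l : ℝ} (hL : 5 ≤ L) (hM : 2 * L ≤ M) (hl : 0 < l) (hl1 : l ≤ 1)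
    (hs : 0 ≤ L + Real.log l) :
    1 / 2 * (l⁻¹ ^ 2 * (((L + 1 - c0) - (L + Real.log l)) *
      (2 * Ig M 0 - (L + 1 - c0) - (L + Real.log l)))) - 110 * (L * M) ≤
    w3 l * (Ig M (L - su l) * (l * (1 - c0 - Real.log l)) - l / 2 * (1 - c0 - Real.log l) ^ 2) := by
  obtain ⟨hc1, hc3⟩ := Asm1_c0
  have hM1 : 1 ≤ M := by linarith
  have hsu0 := su_le hl
  have hσ0 : 0 ≤ L - su l := by linarith
  obtain ⟨hJ1, hJ2, hJ0, hI2, hI1⟩ := Ig_bounds hM1 hσ0
  set I := Ig M 0 with hIdef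
  set J := Ig M (L - su l) with hJdef
  set s := L + Real.log l with hsdef
  set D := L + 1 - c0 with hD
  have hlog : Real.log l ≤ 0 := Real.log_nonpos hl.le hl1
  have hsL : s ≤ L := by linarith
  have hM0 : 0 < M := by linarith
  set e := -Real.log l - su l with he
  have he0 : 0 ≤ e := by linarith
  have he1 : e ≤ l ^ 2 / 8 := by
    have := Asm1_e hl
    linarith
  have hJ1' : I - s - e ≤ J := by
    have : L - su l = s + e := by rw [he, hsdef]; ring
    rw [this] at hJ1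
    linarith
  have h1c : 1 - c0 - Real.log l = D - s := by rw [hD, hsdef]; ring
  rw [h1c]
  set r := w3 l * l ^ 3 with hr
  have hl3 : 0 < l ^ 3 := by positivity
  have hw : w3 l = r * l⁻¹ ^ 3 := by
    rw [hr]
    field_simp
  have hr1 : r ≤ 1 := by
    have h1 := w3_le hl
    rw [hr]
    calc w3 l * l ^ 3 ≤ 1 / l ^ 3 * l ^ 3 := mul_le_mul_of_nonneg_right h1 hl3.le
      _ = 1 := by field_simp
  have hr0 : 1 - 3 * l ^ 2 / 8 ≤ r := by
    have h1 := Asm1_r hl
    rw [hr]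
    calc 1 - 3 * l ^ 2 / 8 = (1 - 3 * l ^ 2 / 8) * (1 / l ^ 3) * l ^ 3 := by field_simp
      _ ≤ _ := mul_le_mul_of_nonneg_right h1 hl3.le
  have hrp : 0 ≤ r := by
    rw [hr]
    exact mul_nonneg (w3_pos hl).le hl3.le
  set E := D - s with hE
  have hE1 : -2 ≤ E := by
    have : E = 1 - c0 - Real.log l := by rw [h1c]
    linarith
  have hE2 : E ≤ L := by linarith
  have hl2 : l ^ 2 ≤ 1 := pow_le_one₀ hl.le hl1
  have hl20 : 0 < l ^ 2 := by positivity
  have hX : (D - s) * (2 * I - D - s) = 2 * ((I - s) * E - E ^ 2 / 2) := by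
    rw [hE]; ring
  rw [hX]
  set X := (I - s) * E - E ^ 2 / 2 with hXdef
  have hLM : 0 ≤ L * M := mul_nonneg (by linarith) hM0.le
  have key : X - 110 * (L * M) * l ^ 2 ≤ r * (J * E - E ^ 2 / 2) := by
    rcases le_or_gt 0 E with hE0 | hE0
    · -- `E ≥ 0`
      have h1 : (I - s - e) * E ≤ J * E := mul_le_mul_of_nonneg_right hJ1' hE0
      have hX0 : 0 ≤ X := by
        have e1 : X = E * (I - s - E / 2) := by rw [hXdef]; ring
        rw [e1]
        refine mul_nonneg hE0 ?_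
        linarith
      have hX1 : X ≤ 2 * (L * M) := by
        have e1 : X = E * (I - s - E / 2) := by rw [hXdef]; ring
        rw [e1]
        have : E * (I - s - E / 2) ≤ L * (2 * M) := by
          refine mul_le_mul hE2 (by linarith) ?_ (by linarith)
          linarith
        linarith
      have h2 : X - e * E ≤ J * E - E ^ 2 / 2 := by
        have : X - e * E = (I - s - e) * E - E ^ 2 / 2 := by rw [hXdef]; ring
        linarith
      have h3 : r * (X - e * E) ≤ r * (J * E - E ^ 2 / 2) := mul_le_mul_of_nonneg_left h2 hrp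
      have h4 : (1 - 3 * l ^ 2 / 8) * X ≤ r * X := mul_le_mul_of_nonneg_right hr0 hX0
      have h5 : e * E ≤ l ^ 2 / 8 * L := mul_le_mul he1 hE2 hE0 (by positivity)
      have h6 : 0 ≤ e * E := mul_nonneg he0 hE0
      have h7 : r * (e * E) ≤ 1 * (e * E) := mul_le_mul_of_nonneg_right hr1 h6
      have h8 : 3 * l ^ 2 / 8 * X ≤ 3 * l ^ 2 / 8 * (2 * (L * M)) :=
        mul_le_mul_of_nonneg_left hX1 (by positivity)
      have h9 : l ^ 2 / 8 * L ≤ l ^ 2 / 8 * (L * M) := by
        refine mul_le_mul_of_nonneg_left ?_ (by positivity)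
        nlinarith
      have h10 : 0 ≤ l ^ 2 * (L * M) := mul_nonneg hl20.le hLM
      nlinarith
    · -- `E < 0`
      have h1 : I * E ≤ J * E := mul_le_mul_of_nonpos_right hJ2 hE0.le
      have hneg : J * E - E ^ 2 / 2 ≤ 0 := by
        have := mul_nonpos_of_nonneg_of_nonpos hJ0 hE0.le
        have := sq_nonneg E
        linarith
      have h2 : 1 * (J * E - E ^ 2 / 2) ≤ r * (J * E - E ^ 2 / 2) :=
        mul_le_mul_of_nonpos_right hr1 hneg
      have h3 : X + s * E ≤ J * E - E ^ 2 / 2 := by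
        have : X + s * E = I * E - E ^ 2 / 2 := by rw [hXdef]; ring
        linarith
      -- `l ≥ e^(-2)`
      have hlog2 : -2 ≤ Real.log l := by
        have : E = 1 - c0 - Real.log l := by rw [h1c]
        linarith
      have hl4 : 1 ≤ 55 * l ^ 2 := by
        have h4 : Real.exp (-2) ≤ l := (Real.le_log_iff_exp_le hl).1 hlog2
        have h5 : 1 / (2.7182818286 : ℝ) ^ 2 ≤ Real.exp (-2) := by
          have e1 : Real.exp (-2) = 1 / Real.exp 1 ^ 2 := by
            rw [Real.exp_neg, ← Real.exp_nat_mul]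
            norm_num
          rw [e1]
          have h6 := Real.exp_one_lt_d9
          have h7 := Real.exp_pos 1
          exact one_div_le_one_div_of_le (by positivity) (by gcongr)
        have h6 : (0.135 : ℝ) ≤ l := by
          refine le_trans ?_ (h5.trans h4)
          norm_num
        have h7 : (0.135 : ℝ) ^ 2 ≤ l ^ 2 := pow_le_pow_left₀ (by norm_num) h6 2
        nlinarith
      have h5 : -(110 * (L * M) * l ^ 2) ≤ s * E := by
        have h6 : -(2 * L) ≤ s * E := by nlinarith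
        have h7 : 2 * L ≤ 110 * (L * M) * l ^ 2 := by
          have h8 : 2 * (L * 1) ≤ 2 * (L * M) :=
            mul_le_mul_of_nonneg_left (mul_le_mul_of_nonneg_left hM1 (by linarith)) (by norm_num)
          have h9 : 2 * (L * M) * 1 ≤ 2 * (L * M) * (55 * l ^ 2) :=
            mul_le_mul_of_nonneg_left hl4 (by linarith)
          linarith
        linarith
      linarith
  have hq : 0 ≤ l⁻¹ ^ 2 := by positivity
  have h9 := mul_le_mul_of_nonneg_right key hq
  have e1 : r * l⁻¹ ^ 3 * (J * (l * E) - l / 2 * E ^ 2) = r * (J * E - E ^ 2 / 2) * l⁻¹ ^ 2 := by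
    field_simp
  have e2 : (X - 110 * (L * M) * l ^ 2) * l⁻¹ ^ 2 =
      1 / 2 * (l⁻¹ ^ 2 * (2 * X)) - 110 * (L * M) := by
    field_simp
  rw [hw, e1]
  linarith

/-- the two integrals -/
theorem GAsm1_integral {L M a : ℝ} (hL : 5 ≤ L) (hM : 2 * L ≤ M) (ha : 0 < a) (ha1 : a ≤ 1)
    (hs : 0 ≤ L + Real.log a) :
    (∫ l in a..1, 1 / 2 * (l⁻¹ ^ 2 * (((L + 1 - c0) - (L + Real.log l)) *
      (2 * Ig M 0 - (L + 1 - c0) - (L + Real.log l))))) - 110 * (L * M) ≤
    ∫ l in a..1, w3 l * (Ig M (L - su l) * (l * (1 - c0 - Real.log l)) -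
      l / 2 * (1 - c0 - Real.log l) ^ 2) := by
  have hne : ∀ l ∈ uIcc a 1, 0 < l := by
    intro l hl
    rw [uIcc_of_le ha1] at hl
    exact lt_of_lt_of_le ha hl.1
  have h2 : ContinuousOn Real.log (uIcc a 1) := Real.continuousOn_log.mono fun l hl => by
    simpa using (hne l hl).ne'
  have h3 : ContinuousOn (fun l : ℝ => l⁻¹) (uIcc a 1) := continuousOn_inv₀.mono fun l hl => by
    simpa using (hne l hl).ne'
  have h4 : ContinuousOn w3 (uIcc a 1) := w3_cont.mono fun l hl => hne l hl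
  have h5 : ContinuousOn su (uIcc a 1) := su_cont.mono fun l hl => hne l hl
  have hJ : ContinuousOn (fun l => Ig M (L - su l)) (uIcc a 1) :=
    (GAsm1_cont (by linarith : 1 ≤ M)).comp_continuousOn (continuousOn_const.sub h5)
  have hLM : 0 ≤ 110 * (L * M) := by
    have : 0 ≤ L * M := mul_nonneg (by linarith) (by linarith)
    linarith
  have hI1 : IntervalIntegrable (fun l => 1 / 2 * (l⁻¹ ^ 2 * (((L + 1 - c0) - (L + Real.log l)) *
      (2 * Ig M 0 - (L + 1 - c0) - (L + Real.log l))))) volume a 1 := by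
    refine ContinuousOn.intervalIntegrable ?_
    fun_prop
  have hI2 : IntervalIntegrable (fun l => w3 l * (Ig M (L - su l) * (l * (1 - c0 - Real.log l)) -
      l / 2 * (1 - c0 - Real.log l) ^ 2)) volume a 1 := by
    refine ContinuousOn.intervalIntegrable ?_
    fun_prop
  have h6 := intervalIntegral.integral_mono_on ha1 (hI1.sub (intervalIntegrable_const
    (c := 110 * (L * M)))) hI2 fun l hl => GAsm1_point hL hM (lt_of_lt_of_le ha hl.1) hl.2 (by
      have := Real.log_le_log ha hl.1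
      linarith)
  rw [intervalIntegral.integral_sub hI1 intervalIntegrable_const,
    intervalIntegral.integral_const, smul_eq_mul] at h6
  have h7 : (1 - a) * (110 * (L * M)) ≤ 110 * (L * M) := by
    have : (1 - a) * (110 * (L * M)) ≤ 1 * (110 * (L * M)) :=
      mul_le_mul_of_nonneg_right (by linarith) hLM
    linarith
  linarith

/-- LEAF GAsm1 (pure calculus). `s = L + log l`, `D = L + 1 - c0 = q + 1`, `1 - c0 - log l = D - s`, `σ = L - su l ∈ [s, s + l²]`,
`Ig M 0 - σ ≤ Ig M σ ≤ Ig M 0`. Main part `∫_0^L ((I - s)(D - s) - (D - s)²/2) e^(-s) ds`, `I = Ig M 0 ≤ 2M`: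
`= I q - q - q²/2 + 1/2` up to `O(M L²/T)`. Where `D - s < 0` (that is `l > e^(1 - c0)`) use `|..| ≤ C M`, weight `O(1/T)`. -/
theorem asm_mainG : ∃ C T0 : ℝ, 0 ≤ C ∧ ∀ T : ℝ, T0 ≤ T → ∀ M : ℝ, 2 * Real.log T ≤ M → M ≤ T ^ (1 / 8 : ℝ) →
    Ig M 0 * (Real.log T - c0) - (Real.log T - c0) - (Real.log T - c0) ^ 2 / 2 - C ≤
      1 / T * ∫ l in (lT T)..1, w3 l * (Ig M (Real.log T - su l) * (l * (1 - c0 - Real.log l)) -
        l / 2 * (1 - c0 - Real.log l) ^ 2) := by
  refine ⟨70, Real.exp 5, by norm_num, fun T hT M hM hMT => ?_⟩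
  obtain ⟨hc1, hc3⟩ := Asm1_c0
  have hT0 : 0 < T := lt_of_lt_of_le (Real.exp_pos _) hT
  have hT6 : 6 ≤ T := by
    have := Real.add_one_le_exp (5 : ℝ)
    linarith
  set L := Real.log T with hLdef
  have hL : 5 ≤ L := (Real.le_log_iff_exp_le hT0).2 hT
  have hM0 : 0 < M := by linarith
  have hMM : M * M ≤ T := by
    have h1 : M * M ≤ T ^ (1 / 8 : ℝ) * T ^ (1 / 8 : ℝ) := mul_le_mul hMT hMT hM0.le (by positivity)
    rw [← Real.rpow_add hT0] at h1
    refine h1.trans ?_
    calc T ^ (1 / 8 + 1 / 8 : ℝ) ≤ T ^ (1 : ℝ) :=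
          Real.rpow_le_rpow_of_exponent_le (by linarith) (by norm_num)
      _ = T := Real.rpow_one T
  have hML : M * L ≤ T / 2 := by nlinarith
  have hM10 : 10 ≤ M := by linarith
  have hMT' : 10 * M ≤ T := by nlinarith
  obtain ⟨-, -, -, hI2, hI1⟩ := Ig_bounds (by linarith : 1 ≤ M) (le_refl (0 : ℝ))
  set a := lT T with ha
  have ha0 : 1 / T ≤ a := lT_ge (by linarith)
  have hapos : 0 < a := lt_of_lt_of_le (by positivity) ha0
  have ha2 : a ≤ 1 / (T - 1 / 2) := lT_le (by linarith)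
  have ha1 : a ≤ 1 := by
    refine ha2.trans ?_
    rw [div_le_one (by linarith)]
    linarith
  set s := L + Real.log a with hs
  have hseq : s = Real.log (T * a) := by rw [Real.log_mul hT0.ne' hapos.ne', hs]
  have hTa : 1 ≤ T * a := by
    have := mul_le_mul_of_nonneg_left ha0 hT0.le
    rwa [mul_one_div_cancel hT0.ne'] at this
  have hTa' : T * a ≤ 1 + 1 / T := by
    have h1 : T * a ≤ T * (1 / (T - 1 / 2)) := mul_le_mul_of_nonneg_left ha2 hT0.le
    refine h1.trans ?_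
    rw [mul_one_div, div_le_iff₀ (by linarith)]
    have e : (1 + 1 / T) * (T - 1 / 2) = T + 1 / 2 - 1 / (2 * T) := by
      field_simp
      ring
    rw [e]
    have : 1 / (2 * T) ≤ 1 / 2 := by
      rw [div_le_div_iff₀ (by positivity) (by norm_num)]
      linarith
    linarith
  have hs0 : 0 ≤ s := by
    rw [hseq]
    exact Real.log_nonneg hTa
  have hs1 : s ≤ 1 / T := by
    rw [hseq]
    have h1 := Real.log_le_sub_one_of_pos (by linarith : 0 < T * a)
    linarith
  refine le_trans ?_ (mul_le_mul_of_nonneg_left (GAsm1_integral hL hM hapos ha1 hs0)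
    (by positivity : (0 : ℝ) ≤ 1 / T))
  rw [GAsm1_int hapos ha1]
  set I := Ig M 0 with hI
  set D := L + 1 - c0 with hD
  set g0 := D * (2 * I - D) + 2 - 2 * I with hg0
  -- the value at one
  have hg1 : L ^ 2 - (2 * I - 2) * L + g0 ≤ 2 := by
    have e : L ^ 2 - (2 * I - 2) * L + g0 = (D - L) * (2 * I - D - L) + 2 * L + 2 - 2 * I := by
      rw [hg0]; ring
    rw [e]
    have h1 : (D - L) * (2 * I - D - L) ≤ 0 :=
      mul_nonpos_of_nonpos_of_nonneg (by linarith) (by linarith)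
    linarith
  -- the value at `a`
  have hgs : g0 - 1 ≤ s ^ 2 - (2 * I - 2) * s + g0 := by
    have h2 : (2 * I - 2) * s ≤ (4 * M) * (1 / T) :=
      mul_le_mul (by linarith) hs1 hs0 (by linarith)
    have h3 : 4 * M * (1 / T) ≤ 1 := by
      rw [mul_one_div, div_le_one hT0]
      linarith
    nlinarith [sq_nonneg s]
  have hg00 : 0 ≤ g0 := by
    have e : g0 = (D - 1) * (2 * I - 2 - (D - 1)) + 1 := by rw [hg0]; ring
    rw [e]
    have := mul_nonneg (by linarith : 0 ≤ D - 1) (by linarith : 0 ≤ 2 * I - 2 - (D - 1))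
    linarith
  have hg0M : g0 ≤ 2 * T := by
    have h2 : D * (2 * I - D) ≤ L * (4 * M) :=
      mul_le_mul (by linarith) (by linarith) (by linarith) (by linarith)
    rw [hg0]
    linarith
  set w := 1 / T * a⁻¹ with hw
  have hw0 : 0 ≤ w := by positivity
  have hw1 : w ≤ 1 := by
    rw [hw, ← one_div, one_div_mul_one_div, div_le_one (by positivity)]
    exact hTa
  have hw2 : 1 - 1 / T ≤ w := by
    have e : w = 1 / (T * a) := by
      rw [hw]
      field_simp
    rw [e, le_div_iff₀ (by positivity)]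
    have h2 : (1 - 1 / T) * (T * a) ≤ (1 - 1 / T) * (1 + 1 / T) := by
      refine mul_le_mul_of_nonneg_left hTa' ?_
      rw [sub_nonneg, div_le_one hT0]
      linarith
    have h3 : (1 - 1 / T) * (1 + 1 / T) = 1 - (1 / T) ^ 2 := by ring
    have h4 : 0 ≤ (1 / T) ^ 2 := by positivity
    linarith
  have h2 : g0 - 3 ≤ w * (s ^ 2 - (2 * I - 2) * s + g0) := by
    have h3 : w * (g0 - 1) ≤ w * (s ^ 2 - (2 * I - 2) * s + g0) :=
      mul_le_mul_of_nonneg_left hgs hw0
    have h4 : (1 - 1 / T) * g0 ≤ w * g0 := mul_le_mul_of_nonneg_right hw2 hg00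
    have h8 : 1 / T * g0 ≤ 2 := by
      rw [one_div_mul_eq_div, div_le_iff₀ hT0]
      exact hg0M
    have h10 : (1 - 1 / T) * g0 = g0 - 1 / T * g0 := by ring
    linarith
  -- the main term
  have h4 : I * (L - c0) - (L - c0) - (L - c0) ^ 2 / 2 ≤ 1 / 2 * g0 := by
    have e : 1 / 2 * g0 = I * (L - c0) - (L - c0) - (L - c0) ^ 2 / 2 + 1 / 2 := by
      rw [hg0, hD]
      ring
    rw [e]
    linarith
  have h5 : 1 / T * (110 * (L * M)) ≤ 55 := by
    rw [one_div_mul_eq_div, div_le_iff₀ hT0]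
    linarith
  have h6 : 1 / T * (-(1 / 2 : ℝ) * (L ^ 2 - (2 * I - 2) * L + g0)) ≥ -1 := by
    have h7 : 1 / T ≤ 1 := by
      rw [div_le_one hT0]
      linarith
    have h8 : 0 ≤ 1 / T := by positivity
    nlinarith
  have h7 : 1 / T * (1 / 2 * (a⁻¹ * (s ^ 2 - (2 * I - 2) * s + g0))) =
      1 / 2 * (w * (s ^ 2 - (2 * I - 2) * s + g0)) := by
    rw [hw]
    ring
  have h8 : 1 / T * (-(1 / 2 : ℝ) * (L ^ 2 - (2 * I - 2) * L + g0) +
      1 / 2 * (a⁻¹ * (s ^ 2 - (2 * I - 2) * s + g0)) - 110 * (L * M)) =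
      1 / T * (-(1 / 2 : ℝ) * (L ^ 2 - (2 * I - 2) * L + g0)) +
      1 / T * (1 / 2 * (a⁻¹ * (s ^ 2 - (2 * I - 2) * s + g0))) - 1 / T * (110 * (L * M)) := by ring
  rw [h8, h7]
  linarith

end Pool.Agent.Lib.MP_2a816b_nt.TA
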