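import Pool.Agent.Lib.MP_2a816b_nt.TA.GKer
import Pool.Agent.Lib.MP_2a816b_nt.TA.EXB

open Complex Set Filter Topology MeasureTheory

namespace Pool.Agent.Lib.MP_2a816b_nt.TA

open Pool.Agent.Lib.MP_00e05b_nt Pool.Agent.Lib.MP_00e05b_nt.Mont Pool.Agent.Lib.MP_2a816b_nt.PV

/-- the pointwise lower bound -/
private theorem GAsm2_pt {C c r L T M l : ℝ} (hC : 0 ≤ C) (hc : 0 < c) (hT : 1 ≤ T) (hL : L = Real.log T)
    (hL2 : 2 ≤ L) (hM : 2 * L ≤ M)
    (hr : ∀ l : ℝ, 0 < l → l ≤ r → (1 - 1 / 2) * (1 / l ^ 3) ≤ w3 l) (hTr : 5 / (2 * T) ≤ r)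
    (hl : lT T ≤ l) (hl1 : l ≤ 1) :
    -C * l ^ (-2 : ℝ) - C * M * l ^ (-(7 / 4) : ℝ) - C / M * Real.log (4 * T) ^ 2 * l ^ (-2 : ℝ) +
      (if l ≤ 5 / (2 * T) then c * M / 32 * (2 * T / 5) * NC T (1 / M) else 0) ≤
    w3 l * (-C * l - C * M * l ^ (5 / 4 : ℝ) - C * l * Real.log (4 / l) ^ 2 / M +
        (if l ≤ 5 / (2 * T) then c * Ig M (L - su l) * l ^ 2 * NC T (1 / M) else 0)) := by
  have hT0 : 0 < T := by linarith
  have hlT : 1 / T ≤ l := (lT_ge hT).trans hl
  have hl0 : 0 < l := lt_of_lt_of_le (by positivity) hlT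
  have hM0 : 0 < M := by linarith
  have h3 : (1 : ℝ) ≤ Real.log 3 := by
    have := Real.exp_one_lt_d9
    rw [Real.le_log_iff_exp_le (by norm_num)]
    linarith
  have hs1 : -1 ≤ su l := su_ge_neg_one hl0 (hl1.trans h3)
  have hs2 : su l ≤ L := by
    refine (su_le hl0).trans ?_
    have h4 : Real.log (1 / T) ≤ Real.log l := Real.log_le_log (by positivity) hlT
    rw [one_div, Real.log_inv] at h4
    rw [hL]
    linarith
  have hw0 : 0 < w3 l := w3_pos hl0
  have hw1 : w3 l ≤ 1 / l ^ 3 := w3_le hl0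
  have hp2 : l ^ (-2 : ℝ) = 1 / l ^ 2 := by
    rw [Real.rpow_neg hl0.le, one_div]
    norm_cast
  have hp7 : 1 / l ^ 3 * l ^ (5 / 4 : ℝ) = l ^ (-(7 / 4) : ℝ) := by
    have h5 : 1 / l ^ 3 = l ^ (-3 : ℝ) := by
      rw [Real.rpow_neg hl0.le, one_div]
      norm_cast
    rw [h5, ← Real.rpow_add hl0]
    norm_num
  -- term 1
  have ht1 : w3 l * (C * l) ≤ C * l ^ (-2 : ℝ) := by
    calc w3 l * (C * l) ≤ 1 / l ^ 3 * (C * l) := mul_le_mul_of_nonneg_right hw1 (by positivity)
      _ = C * l ^ (-2 : ℝ) := by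
          rw [hp2]
          field_simp
  -- term 2
  have ht2 : w3 l * (C * M * l ^ (5 / 4 : ℝ)) ≤ C * M * l ^ (-(7 / 4) : ℝ) := by
    calc w3 l * (C * M * l ^ (5 / 4 : ℝ)) ≤ 1 / l ^ 3 * (C * M * l ^ (5 / 4 : ℝ)) :=
          mul_le_mul_of_nonneg_right hw1 (by positivity)
      _ = C * M * (1 / l ^ 3 * l ^ (5 / 4 : ℝ)) := by ring
      _ = C * M * l ^ (-(7 / 4) : ℝ) := by rw [hp7]
  -- term 3
  have hlog : Real.log (4 / l) ^ 2 ≤ Real.log (4 * T) ^ 2 := by
    have h6 : 0 ≤ Real.log (4 / l) := by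
      apply Real.log_nonneg
      rw [le_div_iff₀ hl0]
      linarith
    apply pow_le_pow_left₀ h6
    apply Real.log_le_log (by positivity)
    rw [div_le_iff₀ hl0]
    rw [div_le_iff₀ hT0] at hlT
    linarith
  have ht3 : w3 l * (C * l * Real.log (4 / l) ^ 2 / M) ≤ C / M * Real.log (4 * T) ^ 2 * l ^ (-2 : ℝ) := by
    calc w3 l * (C * l * Real.log (4 / l) ^ 2 / M)
        = w3 l * (C / M * l * Real.log (4 / l) ^ 2) := by
          field_simp
      _ ≤ 1 / l ^ 3 * (C / M * l * Real.log (4 * T) ^ 2) := by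
          apply mul_le_mul hw1 _ (by positivity) (by positivity)
          exact mul_le_mul_of_nonneg_left hlog (by positivity)
      _ = C / M * Real.log (4 * T) ^ 2 * l ^ (-2 : ℝ) := by
          rw [hp2]
          field_simp
  -- term 4
  have ht4 : (if l ≤ 5 / (2 * T) then c * M / 32 * (2 * T / 5) * NC T (1 / M) else 0) ≤
      w3 l * (if l ≤ 5 / (2 * T) then c * Ig M (L - su l) * l ^ 2 * NC T (1 / M) else 0) := by
    split_ifs with h7
    · have h8 : (1 - 1 / 2) * (1 / l ^ 3) ≤ w3 l := hr l hl0 (h7.trans hTr)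
      have h9 : 0 ≤ NC T (1 / M) := NC_nonneg (by positivity)
      have h11 : 2 * T / 5 ≤ 1 / l := by
        rw [le_div_iff₀ hl0]
        rw [le_div_iff₀ (by positivity)] at h7
        linarith
      have hb := Ig_bounds (M := M) (σ := L - su l) (by linarith) (by linarith)
      have h12 : M / 4 ≤ Ig M (L - su l) := by
        have h13 := hb.1
        have h14 := hb.2.2.2.2
        linarith
      calc c * M / 32 * (2 * T / 5) * NC T (1 / M) ≤ c * M / 32 * (1 / l) * NC T (1 / M) := by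
            apply mul_le_mul_of_nonneg_right _ h9
            exact mul_le_mul_of_nonneg_left h11 (by positivity)
        _ = (1 - 1 / 2) * (1 / l ^ 3) * (1 / 4 * (c * (M / 4) * l ^ 2 * NC T (1 / M))) := by
            field_simp
            ring
        _ ≤ w3 l * (c * Ig M (L - su l) * l ^ 2 * NC T (1 / M)) := by
            apply mul_le_mul h8 _ (by positivity) hw0.le
            have h15 : c * (M / 4) * l ^ 2 * NC T (1 / M) ≤ c * Ig M (L - su l) * l ^ 2 * NC T (1 / M) := by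
              apply mul_le_mul_of_nonneg_right _ h9
              apply mul_le_mul_of_nonneg_right _ (by positivity)
              exact mul_le_mul_of_nonneg_left h12 hc.le
            have h16 : 0 ≤ c * (M / 4) * l ^ 2 * NC T (1 / M) := by positivity
            linarith
    · simp
  have hexp : w3 l * (-C * l - C * M * l ^ (5 / 4 : ℝ) - C * l * Real.log (4 / l) ^ 2 / M +
        (if l ≤ 5 / (2 * T) then c * Ig M (L - su l) * l ^ 2 * NC T (1 / M) else 0)) =
      -(w3 l * (C * l)) - w3 l * (C * M * l ^ (5 / 4 : ℝ)) -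
      w3 l * (C * l * Real.log (4 / l) ^ 2 / M) +
      w3 l * (if l ≤ 5 / (2 * T) then c * Ig M (L - su l) * l ^ 2 * NC T (1 / M) else 0) := by
    ring
  rw [hexp]
  linarith

/-- the tail integral is antitone -/
private theorem GAsm2_anti {M : ℝ} (hM : 1 ≤ M) {σ τ : ℝ} (h : σ ≤ τ) : Ig M τ ≤ Ig M σ := by
  unfold Ig
  refine setIntegral_mono_set (Kg_int hM σ) ?_ ?_
  · exact Eventually.of_forall fun x => (Real.exp_pos _).le
  · exact (Set.Ioi_subset_Ioi h).eventuallyLE

/-- the integrand is integrable -/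
private theorem GAsm2_int {C c T M : ℝ} (hT : 1 ≤ T)
    (hL2 : 2 ≤ Real.log T) (hM : 2 * Real.log T ≤ M) (hlT1 : lT T ≤ 1) :
    IntervalIntegrable (fun l : ℝ => w3 l * (-C * l - C * M * l ^ (5 / 4 : ℝ) - C * l * Real.log (4 / l) ^ 2 / M +
        (if l ≤ 5 / (2 * T) then c * Ig M (Real.log T - su l) * l ^ 2 * NC T (1 / M) else 0)))
      volume (lT T) 1 := by
  have hT0 : 0 < T := by linarith
  have hlT0 : 0 < lT T := lt_of_lt_of_le (by positivity) (lT_ge hT)
  have hM1 : 1 ≤ M := by linarith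
  have hu : Set.uIcc (lT T) 1 = Icc (lT T) 1 := Set.uIcc_of_le hlT1
  have hpos : ∀ l ∈ Icc (lT T) 1, 0 < l := fun l hl => hlT0.trans_le hl.1
  have hsub : Icc (lT T) 1 ⊆ Ioi 0 := fun l hl => hpos l hl
  have hw : ContinuousOn w3 (Icc (lT T) 1) := w3_cont.mono hsub
  have hnc : IntervalIntegrable (fun l : ℝ => Ig M (Real.log T - su l)) volume (lT T) 1 := by
    apply AntitoneOn.intervalIntegrable
    rw [hu]
    intro x hx y hy hxy
    apply GAsm2_anti hM1
    have h4 : su y ≤ su x := by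
      rw [su, su]
      apply neg_le_neg
      have hx0 := hpos x hx
      apply Real.log_le_log
      · have : 0 < Real.sinh (x / 2) := Real.sinh_pos_iff.2 (by linarith)
        linarith
      · have : Real.sinh (x / 2) ≤ Real.sinh (y / 2) := Real.sinh_le_sinh.2 (by linarith)
        linarith
    linarith
  have hE : IntervalIntegrable (fun l : ℝ => if l ≤ 5 / (2 * T) then
      c * Ig M (Real.log T - su l) * l ^ 2 * NC T (1 / M) else 0) volume (lT T) 1 := by
    have h5 : IntervalIntegrable (fun l : ℝ =>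
        (c * l ^ 2 * NC T (1 / M)) * Ig M (Real.log T - su l)) volume (lT T) 1 := by
      apply hnc.continuousOn_mul
      exact ((continuous_const.mul (continuous_id.pow 2)).mul continuous_const).continuousOn
    rw [intervalIntegrable_iff_integrableOn_Ioc_of_le hlT1] at h5 ⊢
    have h6 := h5.indicator (measurableSet_Iic (a := 5 / (2 * T)))
    refine h6.congr (Eventually.of_forall fun l => ?_)
    simp only [Set.indicator, Set.mem_Iic]
    split_ifs
    · ring
    · rfl
  have hA : ContinuousOn (fun l : ℝ => -C * l - C * M * l ^ (5 / 4 : ℝ) -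
      C * l * Real.log (4 / l) ^ 2 / M) (Icc (lT T) 1) := by
    apply ContinuousOn.sub
    · apply ContinuousOn.sub (by fun_prop)
      apply continuousOn_const.mul
      exact continuousOn_id.rpow_const fun x hx => Or.inl (hpos x hx).ne'
    · apply ContinuousOn.div_const
      apply (continuousOn_const.mul continuousOn_id).mul
      apply ContinuousOn.pow
      apply ContinuousOn.log
      · exact continuousOn_const.div continuousOn_id fun x hx => (hpos x hx).ne'
      · intro x hx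
        have := hpos x hx
        positivity
  have hS := ((hA.intervalIntegrable_of_Icc hlT1).add hE)
  rw [← hu] at hw
  exact hS.continuousOn_mul hw

/-- the integral of the lower bound -/
private theorem GAsm2_low {C c T M : ℝ} (hC : 0 ≤ C) (hc : 0 < c) (hT : 8 ≤ T)
    (hL2 : 2 ≤ Real.log T) (hM : 2 * Real.log T ≤ M) (hM8 : M ≤ T ^ (1 / 8 : ℝ)) :
    IntervalIntegrable (fun l : ℝ => -C * l ^ (-2 : ℝ) - C * M * l ^ (-(7 / 4) : ℝ) -
        C / M * Real.log (4 * T) ^ 2 * l ^ (-2 : ℝ) +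
      (if l ≤ 5 / (2 * T) then c * M / 32 * (2 * T / 5) * NC T (1 / M) else 0)) volume (lT T) 1 ∧
    c / 64 * (M / T) * NC T (1 / M) - (4 * C) * (1 + Real.log T ^ 2 / M) ≤
      1 / T * ∫ l in (lT T)..1, (-C * l ^ (-2 : ℝ) - C * M * l ^ (-(7 / 4) : ℝ) -
        C / M * Real.log (4 * T) ^ 2 * l ^ (-2 : ℝ) +
      (if l ≤ 5 / (2 * T) then c * M / 32 * (2 * T / 5) * NC T (1 / M) else 0)) := by
  have hT0 : 0 < T := by linarith
  have hlTg : 1 / T ≤ lT T := lT_ge (by linarith)
  have hlT0 : 0 < lT T := lt_of_lt_of_le (by positivity) hlTg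
  have hlTa : lT T ≤ 5 / (4 * T) := by
    refine (lT_le (by linarith)).trans ?_
    rw [div_le_div_iff₀ (by linarith) (by positivity)]
    linarith
  have ha1 : 5 / (2 * T) ≤ 1 := by
    rw [div_le_one (by positivity)]
    linarith
  have h45 : 5 / (4 * T) ≤ 5 / (2 * T) := by
    apply div_le_div_of_nonneg_left (by norm_num) (by positivity)
    linarith
  have hlTa2 : lT T ≤ 5 / (2 * T) := hlTa.trans h45
  have hlT1 : lT T ≤ 1 := hlTa2.trans ha1
  have hM0 : 0 < M := by linarith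
  have h0 : (0 : ℝ) ∉ Set.uIcc (lT T) 1 := by
    rw [Set.uIcc_of_le hlT1]
    exact fun h => absurd h.1 (not_le.2 hlT0)
  have i2 : IntervalIntegrable (fun l : ℝ => l ^ (-2 : ℝ)) volume (lT T) 1 :=
    intervalIntegral.intervalIntegrable_rpow (Or.inr h0)
  have i7 : IntervalIntegrable (fun l : ℝ => l ^ (-(7 / 4) : ℝ)) volume (lT T) 1 :=
    intervalIntegral.intervalIntegrable_rpow (Or.inr h0)
  have v2 : ∫ l in (lT T)..1, l ^ (-2 : ℝ) ≤ T := by
    rw [integral_rpow (Or.inr ⟨by norm_num, h0⟩)]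
    have e1 : (-2 : ℝ) + 1 = -1 := by norm_num
    rw [e1, Real.one_rpow, Real.rpow_neg_one]
    have e2 : (lT T)⁻¹ ≤ T := by
      rw [inv_le_comm₀ hlT0 hT0, ← one_div]
      exact hlTg
    linarith
  have v7 : ∫ l in (lT T)..1, l ^ (-(7 / 4) : ℝ) ≤ 4 / 3 * T ^ (3 / 4 : ℝ) := by
    rw [integral_rpow (Or.inr ⟨by norm_num, h0⟩)]
    have e1 : (-(7 / 4) : ℝ) + 1 = -(3 / 4) := by norm_num
    rw [e1, Real.one_rpow]
    have e2 : (lT T) ^ (-(3 / 4) : ℝ) ≤ T ^ (3 / 4 : ℝ) := by
      rw [Real.rpow_neg hlT0.le, ← Real.inv_rpow hlT0.le]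
      apply Real.rpow_le_rpow (inv_nonneg.2 hlT0.le) _ (by norm_num)
      rw [inv_le_comm₀ hlT0 hT0, ← one_div]
      exact hlTg
    linarith
  obtain ⟨K0, hK0⟩ : ∃ K0, K0 = c * M / 32 * (2 * T / 5) * NC T (1 / M) := ⟨_, rfl⟩
  rw [← hK0]
  have hNC : 0 ≤ NC T (1 / M) := NC_nonneg (by positivity)
  have hK0n : 0 ≤ K0 := by
    rw [hK0]
    positivity
  have hif : (fun l : ℝ => if l ≤ 5 / (2 * T) then K0 else 0) =
      (Set.Iic (5 / (2 * T))).indicator fun _ => K0 := by
    ext l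
    simp only [Set.indicator, Set.mem_Iic]
  have iK : IntervalIntegrable (fun l : ℝ => if l ≤ 5 / (2 * T) then K0 else 0) volume (lT T) 1 := by
    rw [hif, intervalIntegrable_iff_integrableOn_Ioc_of_le hlT1]
    exact (integrableOn_const (by simp)).indicator measurableSet_Iic
  have vK : ∫ l in (lT T)..1, (if l ≤ 5 / (2 * T) then K0 else 0) = K0 * (5 / (2 * T) - lT T) := by
    rw [hif, intervalIntegral.integral_of_le hlT1, setIntegral_indicator measurableSet_Iic,
      Set.Ioc_inter_Iic, min_eq_right ha1, setIntegral_const, Real.volume_real_Ioc_of_le hlTa2,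
      smul_eq_mul, mul_comm]
  have iA := ((i2.const_mul (-C)).sub (i7.const_mul (C * M))).sub
    (i2.const_mul (C / M * Real.log (4 * T) ^ 2))
  refine ⟨iA.add iK, ?_⟩
  rw [intervalIntegral.integral_add iA iK, intervalIntegral.integral_sub
    ((i2.const_mul (-C)).sub (i7.const_mul (C * M))) (i2.const_mul (C / M * Real.log (4 * T) ^ 2)),
    intervalIntegral.integral_sub (i2.const_mul (-C)) (i7.const_mul (C * M)),
    intervalIntegral.integral_const_mul, intervalIntegral.integral_const_mul,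
    intervalIntegral.integral_const_mul, vK]
  have hlog : Real.log (4 * T) ^ 2 ≤ 4 * Real.log T ^ 2 := by
    have e1 : Real.log (4 * T) = 2 * Real.log 2 + Real.log T := by
      rw [Real.log_mul (by norm_num) hT0.ne', show (4 : ℝ) = 2 ^ 2 by norm_num, Real.log_pow]
      norm_num
    have e2 : Real.log (4 * T) ≤ 2 * Real.log T := by
      have := Real.log_two_lt_d9
      rw [e1]
      linarith
    have e3 : 0 ≤ Real.log (4 * T) := Real.log_nonneg (by linarith)
    calc Real.log (4 * T) ^ 2 ≤ (2 * Real.log T) ^ 2 := pow_le_pow_left₀ e3 e2 2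
      _ = 4 * Real.log T ^ 2 := by ring
  have hMT : M * T ^ (3 / 4 : ℝ) ≤ T := by
    calc M * T ^ (3 / 4 : ℝ) ≤ T ^ (1 / 8 : ℝ) * T ^ (3 / 4 : ℝ) :=
          mul_le_mul_of_nonneg_right hM8 (by positivity)
      _ = T ^ (7 / 8 : ℝ) := by
          rw [← Real.rpow_add hT0]
          norm_num
      _ ≤ T ^ (1 : ℝ) := Real.rpow_le_rpow_of_exponent_le (by linarith) (by norm_num)
      _ = T := Real.rpow_one T
  have b1 : -C * T ≤ -C * ∫ l in (lT T)..1, l ^ (-2 : ℝ) := by
    have := mul_le_mul_of_nonneg_left v2 hC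
    linarith
  have b2 : C * M * ∫ l in (lT T)..1, l ^ (-(7 / 4) : ℝ) ≤ 4 / 3 * C * T := by
    calc C * M * ∫ l in (lT T)..1, l ^ (-(7 / 4) : ℝ) ≤ C * M * (4 / 3 * T ^ (3 / 4 : ℝ)) :=
          mul_le_mul_of_nonneg_left v7 (by positivity)
      _ = 4 / 3 * C * (M * T ^ (3 / 4 : ℝ)) := by ring
      _ ≤ 4 / 3 * C * T := mul_le_mul_of_nonneg_left hMT (by positivity)
  have b3 : C / M * Real.log (4 * T) ^ 2 * ∫ l in (lT T)..1, l ^ (-2 : ℝ) ≤
      C / M * (4 * Real.log T ^ 2) * T := by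
    calc C / M * Real.log (4 * T) ^ 2 * ∫ l in (lT T)..1, l ^ (-2 : ℝ)
        ≤ C / M * Real.log (4 * T) ^ 2 * T := mul_le_mul_of_nonneg_left v2 (by positivity)
      _ ≤ C / M * (4 * Real.log T ^ 2) * T := by
          apply mul_le_mul_of_nonneg_right _ hT0.le
          exact mul_le_mul_of_nonneg_left hlog (by positivity)
  have b4 : K0 * (5 / (4 * T)) ≤ K0 * (5 / (2 * T) - lT T) := by
    apply mul_le_mul_of_nonneg_left _ hK0n
    have : 5 / (2 * T) = 5 / (4 * T) + 5 / (4 * T) := by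
      field_simp
      norm_num
    linarith
  calc c / 64 * (M / T) * NC T (1 / M) - 4 * C * (1 + Real.log T ^ 2 / M)
      ≤ c / 64 * (M / T) * NC T (1 / M) - (7 / 3) * C - 4 * C * (Real.log T ^ 2 / M) := by
        linarith
    _ = 1 / T * (-C * T - 4 / 3 * C * T - C / M * (4 * Real.log T ^ 2) * T + K0 * (5 / (4 * T))) := by
        rw [hK0]
        field_simp
        ring
    _ ≤ _ := by
        apply mul_le_mul_of_nonneg_left _ (by positivity)
        linarith

/-- LEAF GAsm2 (errors and excess), as `asm_err`. On `[lT T, 5/(2T)]` `σ ≤ 1` and `Ig M σ ≥ M/2 - ... ≥ c M`. -/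
theorem asm_errG {C c : ℝ} (hC : 0 ≤ C) (hc : 0 < c) : ∃ C' c' T0 : ℝ, 0 ≤ C' ∧ 0 < c' ∧ ∀ T : ℝ, T0 ≤ T → ∀ M : ℝ,
    2 * Real.log T ≤ M → M ≤ T ^ (1 / 8 : ℝ) →
    c' * (M / T) * NC T (1 / M) - C' * (1 + Real.log T ^ 2 / M) ≤
      1 / T * ∫ l in (lT T)..1, w3 l * (-C * l - C * M * l ^ (5 / 4 : ℝ) - C * l * Real.log (4 / l) ^ 2 / M +
        (if l ≤ 5 / (2 * T) then c * Ig M (Real.log T - su l) * l ^ 2 * NC T (1 / M) else 0)) := by
  obtain ⟨r, hr0, hr⟩ := w3_ge (κ := 1 / 2) (by norm_num)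
  refine ⟨4 * C, c / 64, max 8 (5 / (2 * r)), by positivity, by positivity, fun T hT M hM hM8 => ?_⟩
  have hT8 : 8 ≤ T := (le_max_left _ _).trans hT
  have hTr : 5 / (2 * T) ≤ r := by
    have h1 : 5 / (2 * r) ≤ T := (le_max_right _ _).trans hT
    rw [div_le_iff₀ (by positivity)] at h1 ⊢
    linarith
  have hL2 : 2 ≤ Real.log T := by
    have h2 : Real.log 8 ≤ Real.log T := Real.log_le_log (by norm_num) hT8
    have h3 : Real.log 8 = 3 * Real.log 2 := by
      rw [show (8 : ℝ) = 2 ^ 3 by norm_num, Real.log_pow]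
      norm_num
    have := Real.log_two_gt_d9
    linarith
  have hlT1 : lT T ≤ 1 := by
    refine (lT_le (by linarith)).trans ?_
    rw [div_le_one (by linarith)]
    linarith
  obtain ⟨hi, hle⟩ := GAsm2_low hC hc hT8 hL2 hM hM8
  refine hle.trans ?_
  apply mul_le_mul_of_nonneg_left _ (by positivity)
  refine intervalIntegral.integral_mono_on hlT1 hi (GAsm2_int (by linarith) hL2 hM hlT1) fun l hl => ?_
  exact GAsm2_pt hC hc (by linarith) rfl hL2 hM hr hTr hl.1 hl.2

end Pool.Agent.Lib.MP_2a816b_nt.TA
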