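import Pool.Agent.Lib.MP_2a816b_nt.TA.GKer
import Pool.Agent.Lib.MP_2a816b_nt.TA.DTL

open Complex Set Filter Topology MeasureTheory

namespace Pool.Agent.Lib.MP_2a816b_nt.TA

open Pool.Agent.Lib.MP_00e05b_nt Pool.Agent.Lib.MP_00e05b_nt.Mont Pool.Agent.Lib.MP_2a816b_nt.PV

/-- unit intervals against an antitone weight -/
private theorem GDTL_crit {f K : ℝ → ℝ} {A x0 : ℝ} (hf0 : ∀ x, 0 ≤ f x) (hfi : ∀ a b, IntervalIntegrable f volume a b)
    (hfu : ∀ x, x0 ≤ x → ∫ u in x..(x + 1), f u ≤ A) (hKc : Continuous K) (hK0 : ∀ x, 0 ≤ K x)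
    (hKa : AntitoneOn K (Ici (x0 - 1))) (hKi : IntegrableOn K (Ioi (x0 - 1))) :
    IntegrableOn (fun u => K u * f u) (Ioi x0) ∧ ∫ u in Ioi x0, K u * f u ≤ A * ∫ u in Ioi (x0 - 1), K u := by
  have hA : 0 ≤ A := (intervalIntegral.integral_nonneg (by linarith : x0 ≤ x0 + 1) fun u _ => hf0 u).trans (hfu x0 le_rfl)
  have hii : ∀ a b, IntervalIntegrable (fun u => K u * f u) volume a b := fun a b =>
    (hfi a b).continuousOn_mul hKc.continuousOn
  have key : ∀ n : ℕ, ∫ x in x0..(x0 + n), K x * f x ≤ A * ∫ x in (x0 - 1)..(x0 - 1 + n), K x := by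
    intro n
    induction n with
    | zero => simp
    | succ n ih =>
      have h1 : ∫ x in x0..(x0 + (n + 1 : ℕ)), K x * f x =
          (∫ x in x0..(x0 + n), K x * f x) + ∫ x in (x0 + n)..(x0 + n + 1), K x * f x := by
        rw [intervalIntegral.integral_add_adjacent_intervals (hii _ _) (hii _ _)]
        congr 1
        push_cast
        ring
      have h2 : ∫ x in (x0 - 1)..(x0 - 1 + (n + 1 : ℕ)), K x =
          (∫ x in (x0 - 1)..(x0 - 1 + n), K x) + ∫ x in (x0 - 1 + n)..(x0 - 1 + n + 1), K x := by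
        rw [intervalIntegral.integral_add_adjacent_intervals (hKc.intervalIntegrable _ _) (hKc.intervalIntegrable _ _)]
        congr 1
        push_cast
        ring
      have hn : (0 : ℝ) ≤ n := Nat.cast_nonneg n
      have h3 : ∫ x in (x0 + n)..(x0 + n + 1), K x * f x ≤ K (x0 + n) * A := by
        calc ∫ x in (x0 + n)..(x0 + n + 1), K x * f x ≤ ∫ x in (x0 + n)..(x0 + n + 1), K (x0 + n) * f x := by
              refine intervalIntegral.integral_mono_on (by linarith) (hii _ _) ((hfi _ _).const_mul _) fun x hx => ?_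
              refine mul_le_mul_of_nonneg_right (hKa ?_ ?_ hx.1) (hf0 x)
              · exact mem_Ici.2 (by linarith)
              · exact mem_Ici.2 (by linarith [hx.1])
          _ = K (x0 + n) * ∫ x in (x0 + n)..(x0 + n + 1), f x := intervalIntegral.integral_const_mul _ _
          _ ≤ K (x0 + n) * A := mul_le_mul_of_nonneg_left (hfu _ (by linarith)) (hK0 _)
      have h4 : K (x0 + n) ≤ ∫ x in (x0 - 1 + n)..(x0 - 1 + n + 1), K x := by
        have h5 : K (x0 + n) = ∫ x in (x0 - 1 + n)..(x0 - 1 + n + 1), K (x0 + n) := by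
          rw [intervalIntegral.integral_const, add_sub_cancel_left, one_smul]
        rw [h5]
        refine intervalIntegral.integral_mono_on (by linarith) intervalIntegrable_const (hKc.intervalIntegrable _ _)
          fun x hx => ?_
        refine hKa ?_ ?_ (by linarith [hx.2])
        · exact mem_Ici.2 (by linarith [hx.1])
        · exact mem_Ici.2 (by linarith)
      rw [h1, h2, mul_add]
      refine add_le_add ih (h3.trans ?_)
      rw [mul_comm]
      exact mul_le_mul_of_nonneg_left h4 hA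
  have hle : ∀ n : ℕ, ∫ x in x0..(x0 + n), K x * f x ≤ A * ∫ x in Ioi (x0 - 1), K x := by
    intro n
    have hn : (0 : ℝ) ≤ n := Nat.cast_nonneg n
    refine (key n).trans (mul_le_mul_of_nonneg_left ?_ hA)
    rw [intervalIntegral.integral_of_le (by linarith)]
    refine setIntegral_mono_set hKi (ae_of_all _ fun x => hK0 x) (LE.le.eventuallyLE ?_)
    intro x hx
    exact mem_Ioi.2 (by linarith [hx.1])
  have ht : Tendsto (fun n : ℕ => x0 + (n : ℝ)) atTop atTop :=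
    tendsto_atTop_add_const_left _ _ tendsto_natCast_atTop_atTop
  have h2 : IntegrableOn (fun u => K u * f u) (Ioi x0) := by
    refine integrableOn_Ioi_of_intervalIntegral_norm_bounded (A * ∫ x in Ioi (x0 - 1), K x) x0 (l := atTop)
      (b := fun n : ℕ => x0 + n) (fun n => ?_) ht ?_
    · exact (hii x0 (x0 + n)).1
    · refine Eventually.of_forall fun n => ?_
      have e1 : ∫ x in x0..(x0 + n), ‖K x * f x‖ = ∫ x in x0..(x0 + n), K x * f x := by
        refine intervalIntegral.integral_congr fun x _ => ?_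
        exact Real.norm_of_nonneg (mul_nonneg (hK0 x) (hf0 x))
      rw [e1]
      exact hle n
  exact ⟨h2, le_of_tendsto' (intervalIntegral_tendsto_integral_Ioi x0 h2 ht) hle⟩

private theorem GDTL_shift (h : ℝ → ℝ) (a d : ℝ) : ∫ v in Ioi a, h (v + d) = ∫ u in Ioi (a + d), h u := by
  rw [← integral_indicator measurableSet_Ioi, ← integral_indicator measurableSet_Ioi,
    ← integral_add_right_eq_self (fun u => (Ioi (a + d)).indicator h u) d]
  refine integral_congr_ae (ae_of_all _ fun x => ?_)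
  by_cases hx : x ∈ Ioi a
  · have hx' : x + d ∈ Ioi (a + d) := by
      rw [mem_Ioi] at hx ⊢
      linarith
    show (Ioi a).indicator (fun v => h (v + d)) x = (Ioi (a + d)).indicator h (x + d)
    rw [indicator_of_mem hx, indicator_of_mem hx']
  · have hx' : x + d ∉ Ioi (a + d) := by
      rw [mem_Ioi] at hx ⊢
      intro h1
      exact hx (by linarith)
    show (Ioi a).indicator (fun v => h (v + d)) x = (Ioi (a + d)).indicator h (x + d)
    rw [indicator_of_notMem hx, indicator_of_notMem hx']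

private theorem GDTL_K_cont (M σ : ℝ) : Continuous (fun v => Kg M (v + σ)) := by
  unfold Kg
  fun_prop

private theorem GDTL_K_nonneg (M x : ℝ) : 0 ≤ Kg M x := (Real.exp_pos _).le

private theorem GDTL_K_le_one (M x : ℝ) : Kg M x ≤ 1 := by
  unfold Kg
  rw [Real.exp_le_one_iff]
  have : 0 ≤ x ^ 2 / (2 * M ^ 2) := by positivity
  linarith

private theorem GDTL_K_anti (M : ℝ) {σ : ℝ} (hσ : 0 ≤ σ) : AntitoneOn (fun v => Kg M (v + σ)) (Ici 0) := by
  intro x hx y _ hxy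
  show Kg M (y + σ) ≤ Kg M (x + σ)
  unfold Kg
  refine Real.exp_le_exp.2 (neg_le_neg ?_)
  refine div_le_div_of_nonneg_right ?_ (by positivity)
  have := mem_Ici.1 hx
  exact pow_le_pow_left₀ (by linarith) (by linarith) 2

/-- `∫ Kg M (v + σ)` over `v > a` for `a ≥ 0`. -/
private theorem GDTL_K_le {M σ a : ℝ} (hM : 1 ≤ M) (hσ : 0 ≤ σ) (ha : 0 ≤ a) :
    ∫ v in Ioi a, Kg M (v + σ) ≤ 2 * M := by
  rw [GDTL_shift]
  have h := Ig_bounds hM (σ := a + σ) (by linarith)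
  have h2 : ∫ u in Ioi (a + σ), Kg M u = Ig M (a + σ) := rfl
  rw [h2]
  exact h.2.1.trans h.2.2.2.1

/-- the sum over the unit intervals -/
private theorem GDTL_sum {M σ A l : ℝ} (hM : 1 ≤ M) (hσ : 0 ≤ σ) (hl : 0 < l) (hl1 : l ≤ 5 / 4)
    (hA : ∀ x : ℝ, 7 / 8 ≤ x → ∫ v in x..(x + 1), Dt l v ^ 2 ≤ A) :
    IntegrableOn (fun v => Kg M (v + σ) * Dt l v ^ 2) (Ioi (7 / 8)) ∧
      ∫ v in Ioi (7 / 8), Kg M (v + σ) * Dt l v ^ 2 ≤ A * (1 + 2 * M) := by
  have hii : ∀ a b, IntervalIntegrable (fun v => Dt l v ^ 2) volume a b := fun a b => Dt_ii hl.le hl1 a b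
  have hA0 : 0 ≤ A := (intervalIntegral.integral_nonneg (by norm_num : (7 / 8 : ℝ) ≤ 7 / 8 + 1)
    fun u _ => sq_nonneg _).trans (hA _ le_rfl)
  obtain ⟨h1, h2⟩ := GDTL_crit (f := fun v => Dt l v ^ 2) (K := fun v => Kg M (v + σ)) (A := A) (x0 := 1)
    (fun x => sq_nonneg _) hii (fun x hx => hA x (by linarith)) (GDTL_K_cont M σ) (fun x => GDTL_K_nonneg M _)
    (by rw [sub_self]; exact GDTL_K_anti M hσ) (by rw [sub_self]; exact Kg_shift_int hM σ 0)
  have h3 : IntervalIntegrable (fun v => Kg M (v + σ) * Dt l v ^ 2) volume (7 / 8) 1 :=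
    (hii _ _).continuousOn_mul (GDTL_K_cont M σ).continuousOn
  have h4 : IntegrableOn (fun v => Kg M (v + σ) * Dt l v ^ 2) (Ioc (7 / 8) 1) := h3.1
  have hU : Ioc (7 / 8 : ℝ) 1 ∪ Ioi 1 = Ioi (7 / 8) := Ioc_union_Ioi_eq_Ioi (by norm_num)
  have hd : Disjoint (Ioc (7 / 8 : ℝ) 1) (Ioi 1) := by
    rw [Set.disjoint_left]
    intro x hx hx'
    exact absurd hx.2 (not_le.2 (mem_Ioi.1 hx'))
  refine ⟨by rw [← hU]; exact h4.union h1, ?_⟩
  rw [← hU, setIntegral_union hd measurableSet_Ioi h4 h1]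
  have h5 : ∫ v in Ioc (7 / 8 : ℝ) 1, Kg M (v + σ) * Dt l v ^ 2 ≤ A := by
    rw [← intervalIntegral.integral_of_le (by norm_num)]
    calc ∫ v in (7 / 8 : ℝ)..1, Kg M (v + σ) * Dt l v ^ 2 ≤ ∫ v in (7 / 8 : ℝ)..1, Dt l v ^ 2 := by
          refine intervalIntegral.integral_mono_on (by norm_num) h3 (hii _ _) fun v _ => ?_
          have := mul_le_mul_of_nonneg_right (GDTL_K_le_one M (v + σ)) (sq_nonneg (Dt l v))
          rwa [one_mul] at this
      _ ≤ ∫ v in (7 / 8 : ℝ)..(7 / 8 + 1), Dt l v ^ 2 := by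
          refine intervalIntegral.integral_mono_interval le_rfl (by norm_num) (by norm_num) ?_ (hii _ _)
          exact Eventually.of_forall fun v => sq_nonneg _
      _ ≤ A := hA _ le_rfl
  have h6 : ∫ v in Ioi (1 : ℝ), Kg M (v + σ) * Dt l v ^ 2 ≤ A * (2 * M) := by
    refine h2.trans (mul_le_mul_of_nonneg_left ?_ hA0)
    rw [sub_self]
    exact GDTL_K_le hM hσ le_rfl
  linarith

/-- LEAF GDTL: as `dtl` (adapt it). Unit intervals: `∫_x^(x+1) Dt² ≤ C l log² (4/l)` for `x ≥ 7/8`. `w(v) = ∫_1^∞ Kg M (c + σ) W(v - c)² dc`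
vanishes for `v ≤ 7/8` and `w(v) ≤ ∫ W(y)² (Kg M (v + σ + y) + Kg M (v + σ - y))/2 dy
≤ II W (Kg M (v + σ) + (C/M²) e^(-(v + σ)²/(4M²)))` because `Kg M (x + y) + Kg M (x - y) ≤ 2 Kg M x cosh (x y/M²)` and
`cosh z - 1 ≤ z² cosh z`. The error is `(C/M²) ∫ e^(-(v+σ)²/4M²) Dt² ≤ (C/M) l log² (4/l)`. -/
theorem Dt_unit (hRH : RiemannHypothesis) : ∃ C : ℝ, 0 ≤ C ∧ ∀ l : ℝ, 0 < l → l ≤ 5 / 4 → ∀ x : ℝ, 7 / 8 ≤ x →
    ∫ v in x..(x + 1), Dt l v ^ 2 ≤ C * l * Real.log (4 / l) ^ 2 := by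
  obtain ⟨C, hC, h⟩ := Dt_crude hRH
  refine ⟨2 * C, by positivity, fun l hl hl1 x hx => ?_⟩
  refine (h l hl hl1 x (x + 1) (by linarith) (by linarith)).trans (le_of_eq ?_)
  ring

theorem KDt_int (hRH : RiemannHypothesis) {M σ l : ℝ} (hM : 1 ≤ M) (hσ : 0 ≤ σ) (hl : 0 < l) (hl1 : l ≤ 5 / 4) :
    IntegrableOn (fun v => Kg M (v + σ) * Dt l v ^ 2) (Ioi (7 / 8)) := by
  obtain ⟨C, _, h⟩ := Dt_unit hRH
  exact (GDTL_sum hM hσ hl hl1 (h l hl hl1)).1

private theorem GDTL_supp {W : ℝ → ℝ} (hW : EB W (1 / 8)) : HasCompactSupport W := by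
  refine HasCompactSupport.intro (isCompact_Icc (a := -(1 / 8 : ℝ)) (b := 1 / 8)) ?_
  intro v hv
  refine hW.supp v ?_
  by_contra hcon
  have h1 := abs_lt.1 (not_le.1 hcon)
  exact hv ⟨h1.1.le, h1.2.le⟩

private theorem GDTL_WI {W : ℝ → ℝ} (hW : EB W (1 / 8)) {f : ℝ → ℝ} (hf : Continuous f) :
    Integrable (fun v => f v * W v ^ 2) := by
  have h1 : HasCompactSupport (fun v => f v * (W v * W v)) :=
    ((GDTL_supp hW).mul_left (f := W)).mul_left (f := f)
  have h2 : (fun v => f v * W v ^ 2) = fun v => f v * (W v * W v) := by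
    funext v
    ring
  rw [h2]
  have hc : Continuous (fun v => f v * (W v * W v)) :=
    hf.mul (hW.smooth.continuous.mul hW.smooth.continuous)
  exact hc.integrable_of_hasCompactSupport h1

private theorem GDTL_loc {l : ℝ} (hl : 0 ≤ l) (hl1 : l ≤ 5 / 4) :
    LocallyIntegrable (fun u => Dt l u ^ 2) := by
  rw [MeasureTheory.locallyIntegrable_iff]
  intro k hk
  obtain ⟨r, hr⟩ := hk.isBounded.subset_closedBall (0 : ℝ)
  have h1 : IntegrableOn (fun u => Dt l u ^ 2) (Icc (-|r|) |r|) := by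
    rw [integrableOn_Icc_iff_integrableOn_Ioc]
    have h := Dt_ii hl hl1 (-|r|) |r|
    rw [intervalIntegrable_iff_integrableOn_Ioc_of_le (by linarith [abs_nonneg r])] at h
    exact h
  refine h1.mono_set fun x hx => ?_
  have h2 := hr hx
  rw [Metric.mem_closedBall, dist_zero_right, Real.norm_eq_abs] at h2
  have h3 : |x| ≤ |r| := h2.trans (le_abs_self r)
  exact abs_le.mp h3

/-- the Gaussian against a small shift -/
private theorem GDTL_pt {M x y : ℝ} (hM : 2 ≤ M) (hy : |y| ≤ 1 / 8) :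
    Kg M (x - y) + Kg M (x + y) ≤ 2 * (Kg M x + 1 / M ^ 2 * Kg (√2 * M) x) := by
  have hM0 : 0 < M := by linarith
  obtain ⟨s, hs⟩ : ∃ s, s = x ^ 2 / M ^ 2 := ⟨_, rfl⟩
  obtain ⟨r, hr⟩ : ∃ r, r = y ^ 2 / M ^ 2 := ⟨_, rfl⟩
  obtain ⟨q, hq⟩ : ∃ q, q = x * y / M ^ 2 := ⟨_, rfl⟩
  have hs0 : 0 ≤ s := by rw [hs]; positivity
  have hr0 : 0 ≤ r := by rw [hr]; positivity
  have hqq : q ^ 2 = s * r := by
    rw [hq, hs, hr]
    field_simp
  have hy2 : y ^ 2 ≤ 1 / 64 := by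
    rw [← sq_abs]
    calc |y| ^ 2 ≤ (1 / 8) ^ 2 := pow_le_pow_left₀ (abs_nonneg y) hy 2
      _ = 1 / 64 := by norm_num
  have hr1 : r ≤ 1 / 64 * (1 / M ^ 2) := by
    rw [hr, div_eq_mul_one_div]
    exact mul_le_mul_of_nonneg_right hy2 (by positivity)
  have hM2 : 1 / M ^ 2 ≤ 1 / 4 := by
    refine one_div_le_one_div_of_le (by norm_num) ?_
    nlinarith
  have hr2 : r ≤ 1 / 256 := by linarith
  have k0 : Kg M x = Real.exp (-(s / 2)) := by
    unfold Kg
    rw [hs]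
    congr 2
    field_simp
  have k1 : Kg M (x - y) = Real.exp (-(s / 2) - r / 2) * Real.exp q := by
    unfold Kg
    rw [← Real.exp_add, hs, hr, hq]
    congr 1
    field_simp
    ring
  have k2 : Kg M (x + y) = Real.exp (-(s / 2) - r / 2) * Real.exp (-q) := by
    unfold Kg
    rw [← Real.exp_add, hs, hr, hq]
    congr 1
    field_simp
    ring
  have k3 : Kg (√2 * M) x = Real.exp (-(s / 4)) := by
    unfold Kg
    rw [mul_pow, Real.sq_sqrt (by norm_num), hs]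
    congr 2
    field_simp
    norm_num
  have h1 : Kg M (x - y) + Kg M (x + y) = 2 * (Real.exp (-(s / 2) - r / 2) * Real.cosh q) := by
    rw [k1, k2, Real.cosh_eq]
    ring
  have h2 : Real.exp (-(s / 2) - r / 2) ≤ Real.exp (-(s / 2)) := Real.exp_le_exp.2 (by linarith)
  have h3 : Real.cosh q ≤ Real.exp (s * r / 2) := by
    have := Real.cosh_le_exp_half_sq q
    rwa [hqq] at this
  obtain ⟨a, ha⟩ : ∃ a, a = s * r / 2 := ⟨_, rfl⟩
  rw [← ha] at h3
  have ha0 : 0 ≤ a := by rw [ha]; positivity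
  have ha1 : a ≤ s / 128 * (1 / M ^ 2) := by
    rw [ha]
    have := mul_le_mul_of_nonneg_left hr1 hs0
    linarith
  have ha2 : a ≤ s / 512 := by
    rw [ha]
    have := mul_le_mul_of_nonneg_left hr2 hs0
    linarith
  have h4 : Real.exp a ≤ 1 + a * Real.exp a := by
    have h5 := Real.add_one_le_exp (-a)
    have h6 := mul_le_mul_of_nonneg_right h5 (Real.exp_pos a).le
    rw [← Real.exp_add, neg_add_cancel, Real.exp_zero] at h6
    linarith
  have h5 : Real.exp (-(s / 2)) * (a * Real.exp a) ≤ 1 / M ^ 2 * Real.exp (-(s / 4)) := by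
    have h6 : a * Real.exp a ≤ s / 128 * (1 / M ^ 2) * Real.exp (s / 512) :=
      mul_le_mul ha1 (Real.exp_le_exp.2 ha2) (Real.exp_pos _).le (by positivity)
    have h7 : s / 128 ≤ Real.exp (127 * s / 512) := by
      have := Real.add_one_le_exp (127 * s / 512)
      linarith
    have h8 : s / 128 * (1 / M ^ 2) * Real.exp (s / 512) ≤
        Real.exp (127 * s / 512) * (1 / M ^ 2) * Real.exp (s / 512) :=
      mul_le_mul_of_nonneg_right (mul_le_mul_of_nonneg_right h7 (by positivity)) (Real.exp_pos _).le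
    have h9 := mul_le_mul_of_nonneg_left (h6.trans h8) (Real.exp_pos (-(s / 2))).le
    refine h9.trans (le_of_eq ?_)
    have e1 : Real.exp (-(s / 2)) * (Real.exp (127 * s / 512) * (1 / M ^ 2) * Real.exp (s / 512)) =
        1 / M ^ 2 * (Real.exp (-(s / 2)) * Real.exp (127 * s / 512) * Real.exp (s / 512)) := by ring
    rw [e1, ← Real.exp_add, ← Real.exp_add]
    congr 2
    ring
  have h6 : Real.exp (-(s / 2) - r / 2) * Real.cosh q ≤ Real.exp (-(s / 2)) * (1 + a * Real.exp a) :=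
    mul_le_mul h2 (h3.trans h4) (Real.cosh_pos q).le (Real.exp_pos _).le
  rw [h1, k0, k3]
  rw [mul_add, mul_one] at h6
  linarith

/-- the kernel in the centre -/
private theorem GDTL_ker {W : ℝ → ℝ} (hW : EB W (1 / 8)) {M : ℝ} (hM : 2 ≤ M) (σ u : ℝ) :
    Integrable (fun c => Kg M (c + σ) * W (u - c) ^ 2) ∧
      ∫ c, Kg M (c + σ) * W (u - c) ^ 2 ≤ II W * (Kg M (u + σ) + 1 / M ^ 2 * Kg (√2 * M) (u + σ)) := by
  have hK : ∀ f : ℝ → ℝ, Continuous f → Continuous (fun y => Kg M (f y)) := by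
    intro f hf
    unfold Kg
    fun_prop
  have e1 : (fun c => Kg M (c + σ) * W (u - c) ^ 2) =
      fun c => (fun y => Kg M (u + σ - y) * W y ^ 2) (u - c) := by
    funext c
    show Kg M (c + σ) * W (u - c) ^ 2 = Kg M (u + σ - (u - c)) * W (u - c) ^ 2
    rw [show u + σ - (u - c) = c + σ by ring]
  have i1 : Integrable (fun y => Kg M (u + σ - y) * W y ^ 2) := GDTL_WI hW (hK _ (by fun_prop))
  have i2 : Integrable (fun y => Kg M (u + σ + y) * W y ^ 2) := GDTL_WI hW (hK _ (by fun_prop))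
  have hone : Integrable (fun v => W v ^ 2) := by
    have h := GDTL_WI hW (f := fun _ => (1 : ℝ)) continuous_const
    refine h.congr (Eventually.of_forall fun v => ?_)
    show 1 * W v ^ 2 = W v ^ 2
    rw [one_mul]
  constructor
  · rw [e1]
    exact i1.comp_sub_left u
  · rw [e1, integral_sub_left_eq_self (fun y => Kg M (u + σ - y) * W y ^ 2) volume u]
    have h1 : (∫ y, Kg M (u + σ - y) * W y ^ 2) = ∫ y, Kg M (u + σ + y) * W y ^ 2 := by
      rw [← integral_neg_eq_self (fun y : ℝ => Kg M (u + σ + y) * W y ^ 2) volume]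
      refine integral_congr_ae (Eventually.of_forall fun y => ?_)
      show Kg M (u + σ - y) * W y ^ 2 = Kg M (u + σ + -y) * W (-y) ^ 2
      rw [hW.even, sub_eq_add_neg]
    have h2 : (∫ y, Kg M (u + σ - y) * W y ^ 2) + (∫ y, Kg M (u + σ + y) * W y ^ 2) ≤
        ∫ y, 2 * (Kg M (u + σ) + 1 / M ^ 2 * Kg (√2 * M) (u + σ)) * W y ^ 2 := by
      rw [← integral_add i1 i2]
      refine integral_mono (i1.add i2) (hone.const_mul _) fun y => ?_
      show Kg M (u + σ - y) * W y ^ 2 + Kg M (u + σ + y) * W y ^ 2 ≤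
        2 * (Kg M (u + σ) + 1 / M ^ 2 * Kg (√2 * M) (u + σ)) * W y ^ 2
      rw [← add_mul]
      by_cases hz : W y = 0
      · rw [hz]
        simp
      · refine mul_le_mul_of_nonneg_right (GDTL_pt hM ?_) (sq_nonneg _)
        by_contra hcon
        exact hz (hW.supp _ (not_le.1 hcon).le)
    rw [integral_const_mul] at h2
    have h3 : (∫ y, W y ^ 2) = II W := rfl
    rw [h3] at h2
    linarith

/-- Fubini with the Gaussian weight -/
private theorem GDTL_win {W : ℝ → ℝ} (hW : EB W (1 / 8)) {M σ l A B : ℝ} (hM : 2 ≤ M) (hσ : 0 ≤ σ) (hl : 0 < l)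
    (hl1 : l ≤ 5 / 4) (hA : ∀ x : ℝ, 7 / 8 ≤ x → ∫ v in x..(x + 1), Dt l v ^ 2 ≤ A)
    (hB : ∀ c : ℝ, 1 ≤ c → ∫ u, W (u - c) ^ 2 * Dt l u ^ 2 ≤ B) :
    IntegrableOn (fun c => Kg M (c + σ) * ∫ u, W (u - c) ^ 2 * Dt l u ^ 2) (Ioi 1) ∧
    (∫ c in Ioi (1 : ℝ), Kg M (c + σ) * ∫ u, W (u - c) ^ 2 * Dt l u ^ 2) ≤
      II W * ((∫ v in Ioi (7 / 8 : ℝ), Kg M (v + σ) * Dt l v ^ 2) + 4 * A / M) := by
  have hM0 : 0 < M := by linarith
  have hWc := hW.smooth.continuous
  have hloc := GDTL_loc hl.le hl1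
  have hIpos := II_pos hW (by norm_num)
  have hA0 : 0 ≤ A := (intervalIntegral.integral_nonneg (by norm_num : (7 / 8 : ℝ) ≤ 7 / 8 + 1)
    fun u _ => sq_nonneg _).trans (hA _ le_rfl)
  have hEc : Continuous (fun c => ∫ u, W (u - c) ^ 2 * Dt l u ^ 2) := win_cont hW (by norm_num) hloc
  have hE0 : ∀ c, 0 ≤ ∫ u, W (u - c) ^ 2 * Dt l u ^ 2 := fun c => integral_nonneg fun u => by positivity
  have hKi : IntegrableOn (fun c => Kg M (c + σ)) (Ioi 1) := Kg_shift_int (by linarith) σ 1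
  have hKE : IntegrableOn (fun c => Kg M (c + σ) * ∫ u, W (u - c) ^ 2 * Dt l u ^ 2) (Ioi 1) := by
    refine Integrable.mul_bdd (c := B) hKi hEc.aestronglyMeasurable ?_
    filter_upwards [ae_restrict_mem measurableSet_Ioi] with c hc
    rw [Real.norm_of_nonneg (hE0 c)]
    exact hB c (mem_Ioi.1 hc).le
  refine ⟨hKE, ?_⟩
  set μ : Measure ℝ := volume.restrict (Ioi 1) with hμ
  set ν : Measure ℝ := volume.restrict (Ioi (7 / 8)) with hν
  set F : ℝ × ℝ → ℝ := fun p => (Kg M (p.1 + σ) * W (p.2 - p.1) ^ 2) * Dt l p.2 ^ 2 with hF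
  have hF0 : ∀ p, 0 ≤ F p := fun p => mul_nonneg (mul_nonneg (GDTL_K_nonneg M _) (sq_nonneg _)) (sq_nonneg _)
  have hFm : Measurable F := by
    have h1 : Measurable (fun p : ℝ × ℝ => Dt l p.2 ^ 2) :=
      (Dt_meas.comp (measurable_const.prodMk measurable_snd)).pow_const 2
    refine Measurable.mul ?_ h1
    exact (((GDTL_K_cont M σ).comp continuous_fst).mul ((hWc.comp (by fun_prop)).pow 2)).measurable
  have hWg : ∀ c, Integrable (fun u => W (u - c) ^ 2 * Dt l u ^ 2) := by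
    intro c
    have h1 : IntegrableOn (fun u => Dt l u ^ 2) (Icc (c - 1) (c + 1)) :=
      hloc.integrableOn_isCompact isCompact_Icc
    have h2 : IntegrableOn (fun u => W (u - c) ^ 2 * Dt l u ^ 2) (Icc (c - 1) (c + 1)) := by
      refine Integrable.bdd_mul (c := 1) h1 ((hWc.comp (by fun_prop)).pow 2).aestronglyMeasurable ?_
      refine Eventually.of_forall fun u => ?_
      rw [Real.norm_of_nonneg (sq_nonneg _)]
      exact pow_le_one₀ (hW.nonneg _) (hW.le_one _)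
    refine (integrableOn_iff_integrable_of_support_subset ?_).1 h2
    intro u hu
    by_contra hcon
    apply hu
    have : W (u - c) = 0 := by
      refine hW.supp _ ?_
      simp only [mem_Icc, not_and_or, not_le] at hcon
      rcases hcon with h | h
      · exact le_trans (by linarith) (neg_le_abs _)
      · exact le_trans (by linarith) (le_abs_self _)
    show W (u - c) ^ 2 * Dt l u ^ 2 = 0
    rw [this]
    ring
  have hFc : ∀ c, 1 < c → ∫ u, F (c, u) ∂ν = Kg M (c + σ) * ∫ u, W (u - c) ^ 2 * Dt l u ^ 2 := by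
    intro c hc
    have h2 : (∫ u, W (u - c) ^ 2 * Dt l u ^ 2) = ∫ u, W (u - c) ^ 2 * Dt l u ^ 2 ∂ν := by
      refine (setIntegral_eq_integral_of_forall_compl_eq_zero ?_).symm
      intro u hu
      have : W (u - c) = 0 := by
        refine hW.supp _ ?_
        rw [mem_Ioi, not_lt] at hu
        exact le_trans (by linarith) (neg_le_abs _)
      rw [this]
      ring
    rw [h2, ← integral_const_mul]
    refine integral_congr_ae (Eventually.of_forall fun u => ?_)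
    show Kg M (c + σ) * W (u - c) ^ 2 * Dt l u ^ 2 = Kg M (c + σ) * (W (u - c) ^ 2 * Dt l u ^ 2)
    ring
  have hFi : Integrable F (μ.prod ν) := by
    rw [integrable_prod_iff hFm.aestronglyMeasurable]
    refine ⟨ae_of_all _ fun c => ?_, ?_⟩
    · refine (((hWg c).const_mul (Kg M (c + σ))).restrict (s := Ioi (7 / 8))).congr
        (Eventually.of_forall fun u => ?_)
      show Kg M (c + σ) * (W (u - c) ^ 2 * Dt l u ^ 2) = Kg M (c + σ) * W (u - c) ^ 2 * Dt l u ^ 2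
      ring
    · refine Integrable.congr hKE ?_
      filter_upwards [ae_restrict_mem measurableSet_Ioi] with c hc
      rw [← hFc c hc]
      refine integral_congr_ae (Eventually.of_forall fun u => ?_)
      exact (Real.norm_of_nonneg (hF0 (c, u))).symm
  have hsw : (∫ c in Ioi (1 : ℝ), Kg M (c + σ) * ∫ u, W (u - c) ^ 2 * Dt l u ^ 2) =
      ∫ u, (∫ c, Kg M (c + σ) * W (u - c) ^ 2 ∂μ) * Dt l u ^ 2 ∂ν := by
    have h1 : (∫ c in Ioi (1 : ℝ), Kg M (c + σ) * ∫ u, W (u - c) ^ 2 * Dt l u ^ 2) =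
        ∫ c, ∫ u, F (c, u) ∂ν ∂μ :=
      setIntegral_congr_fun measurableSet_Ioi fun c hc => (hFc c hc).symm
    rw [h1, integral_integral_swap hFi]
    refine integral_congr_ae (Eventually.of_forall fun u => ?_)
    exact integral_mul_const (Dt l u ^ 2) (fun c => Kg M (c + σ) * W (u - c) ^ 2)
  have hκg : Integrable (fun u => (∫ c, Kg M (c + σ) * W (u - c) ^ 2 ∂μ) * Dt l u ^ 2) ν := by
    refine hFi.integral_prod_right.congr (Eventually.of_forall fun u => ?_)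
    exact integral_mul_const (Dt l u ^ 2) (fun c => Kg M (c + σ) * W (u - c) ^ 2)
  have hM' : 1 ≤ √2 * M := by
    have h1 : 1 ≤ √2 := Real.one_le_sqrt.2 (by norm_num)
    nlinarith
  have hs2 : √2 ≤ 3 / 2 := by
    rw [Real.sqrt_le_left (by norm_num)]
    norm_num
  obtain ⟨i1, _⟩ := GDTL_sum (M := M) (by linarith) hσ hl hl1 hA
  obtain ⟨i2, b2⟩ := GDTL_sum hM' hσ hl hl1 hA
  rw [hsw]
  have hle : ∫ u, (∫ c, Kg M (c + σ) * W (u - c) ^ 2 ∂μ) * Dt l u ^ 2 ∂ν ≤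
      ∫ u, II W * (Kg M (u + σ) * Dt l u ^ 2 + 1 / M ^ 2 * (Kg (√2 * M) (u + σ) * Dt l u ^ 2)) ∂ν := by
    refine integral_mono hκg ((Integrable.add i1 (i2.const_mul _)).const_mul _) fun u => ?_
    show (∫ c, Kg M (c + σ) * W (u - c) ^ 2 ∂μ) * Dt l u ^ 2 ≤
      II W * (Kg M (u + σ) * Dt l u ^ 2 + 1 / M ^ 2 * (Kg (√2 * M) (u + σ) * Dt l u ^ 2))
    obtain ⟨j1, j2⟩ := GDTL_ker hW hM σ u
    have h1 : (∫ c, Kg M (c + σ) * W (u - c) ^ 2 ∂μ) ≤ ∫ c, Kg M (c + σ) * W (u - c) ^ 2 :=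
      setIntegral_le_integral j1 (Eventually.of_forall fun c => mul_nonneg (GDTL_K_nonneg M _) (sq_nonneg _))
    have h2 := mul_le_mul_of_nonneg_right (h1.trans j2) (sq_nonneg (Dt l u))
    refine h2.trans (le_of_eq ?_)
    ring
  refine hle.trans ?_
  rw [integral_const_mul, integral_add i1 (i2.const_mul _), integral_const_mul]
  refine mul_le_mul_of_nonneg_left (add_le_add le_rfl ?_) hIpos.le
  have h1 : 1 / M ^ 2 * ∫ u, Kg (√2 * M) (u + σ) * Dt l u ^ 2 ∂ν ≤ 1 / M ^ 2 * (A * (1 + 2 * (√2 * M))) :=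
    mul_le_mul_of_nonneg_left b2 (by positivity)
  refine h1.trans ?_
  have h2 : 1 + 2 * (√2 * M) ≤ 4 * M := by nlinarith
  have h3 : 1 / M ^ 2 * (A * (1 + 2 * (√2 * M))) ≤ 1 / M ^ 2 * (A * (4 * M)) :=
    mul_le_mul_of_nonneg_left (mul_le_mul_of_nonneg_left h2 hA0) (by positivity)
  refine h3.trans (le_of_eq ?_)
  field_simp

theorem dtlG (hRH : RiemannHypothesis) {W : ℝ → ℝ} (hW : EB W (1 / 8)) : ∃ C : ℝ, 0 ≤ C ∧ ∀ l : ℝ, 0 < l → l ≤ 5 / 4 →
    ∀ M σ : ℝ, 2 ≤ M → 0 ≤ σ →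
      (Real.pi * II W)⁻¹ * (∫ c in Ioi (1 : ℝ), Kg M (c + σ) * ∫ t in Ioi (0 : ℝ), sl l t ^ 2 * ‖AA W t c‖ ^ 2) ≤
        (∫ v in Ioi (7 / 8 : ℝ), Kg M (v + σ) * Dt l v ^ 2) + C * M * l ^ (5 / 4 : ℝ) + C * l * Real.log (4 / l) ^ 2 / M := by
  obtain ⟨C1, hC1, hb⟩ := PBmain hRH hW
  obtain ⟨CA, hCA, hA⟩ := slAA_bound hRH hW
  obtain ⟨CU, hCU, hU⟩ := Dt_unit hRH
  have hII : 0 < II W := II_pos hW (by norm_num)
  have hpi := Real.pi_pos
  refine ⟨4 * CU + (II W)⁻¹ * (2 * C1), by positivity, fun l hl hl1 M σ hM hσ => ?_⟩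
  have hM0 : 0 < M := by linarith
  have hl54 : 0 ≤ l ^ (5 / 4 : ℝ) := Real.rpow_nonneg hl.le _
  set P : ℝ → ℝ := fun c => ∫ t in Ioi (0 : ℝ), sl l t ^ 2 * ‖AA W t c‖ ^ 2 with hP
  set E : ℝ → ℝ := fun c => ∫ u, W (u - c) ^ 2 * Dt l u ^ 2 with hE
  have hB : ∀ c : ℝ, 1 ≤ c → E c ≤ (Real.pi)⁻¹ * (CA * l * Real.log (4 / l) ^ 2) + C1 * l ^ (5 / 4 : ℝ) := by
    intro c hc
    have h2 := (abs_le.1 (hb l hl hl1 c hc)).2
    obtain ⟨h3, h4⟩ := hA l hl hl1 c
    have h5 : P c ≤ CA * l * Real.log (4 / l) ^ 2 :=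
      (setIntegral_le_integral h3 (Eventually.of_forall fun t => by positivity)).trans h4
    have h7 : (Real.pi)⁻¹ * P c ≤ (Real.pi)⁻¹ * (CA * l * Real.log (4 / l) ^ 2) :=
      mul_le_mul_of_nonneg_left h5 (by positivity)
    have h6 : E c - (Real.pi)⁻¹ * P c ≤ C1 * l ^ (5 / 4 : ℝ) := h2
    linarith
  obtain ⟨hKE, hwin⟩ := GDTL_win hW hM hσ hl hl1 (hU l hl hl1) hB
  have hR0 : 0 ≤ ∫ v in Ioi (7 / 8 : ℝ), Kg M (v + σ) * Dt l v ^ 2 :=
    setIntegral_nonneg measurableSet_Ioi fun v _ => mul_nonneg (GDTL_K_nonneg _ _) (sq_nonneg _)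
  have hKi : IntegrableOn (fun c => Kg M (c + σ)) (Ioi 1) := Kg_shift_int (by linarith) σ 1
  have hinv : 0 ≤ (II W)⁻¹ := by positivity
  by_cases hPi : IntegrableOn (fun c => Kg M (c + σ) * P c) (Ioi 1)
  · have h1 : (Real.pi)⁻¹ * (∫ c in Ioi (1 : ℝ), Kg M (c + σ) * P c) ≤
        (∫ c in Ioi (1 : ℝ), Kg M (c + σ) * E c) + C1 * l ^ (5 / 4 : ℝ) * (2 * M) := by
      have h2 : (∫ c in Ioi (1 : ℝ), (Real.pi)⁻¹ * (Kg M (c + σ) * P c)) ≤
          ∫ c in Ioi (1 : ℝ), (Kg M (c + σ) * E c + C1 * l ^ (5 / 4 : ℝ) * Kg M (c + σ)) := by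
        refine setIntegral_mono_on (hPi.const_mul _) (Integrable.add hKE (hKi.const_mul _)) measurableSet_Ioi
          fun c hc => ?_
        have h3 := (abs_le.1 (hb l hl hl1 c (mem_Ioi.1 hc).le)).1
        have h4 : (Real.pi)⁻¹ * P c ≤ E c + C1 * l ^ (5 / 4 : ℝ) := by
          have h5 : -(C1 * l ^ (5 / 4 : ℝ)) ≤ E c - (Real.pi)⁻¹ * P c := h3
          linarith
        have h7 := mul_le_mul_of_nonneg_left h4 (GDTL_K_nonneg M (c + σ))
        nlinarith
      rw [integral_const_mul, integral_add hKE (hKi.const_mul _), integral_const_mul] at h2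
      refine h2.trans (add_le_add le_rfl ?_)
      exact mul_le_mul_of_nonneg_left (GDTL_K_le (by linarith) hσ zero_le_one) (mul_nonneg hC1 hl54)
    have h2 := h1.trans (add_le_add hwin le_rfl)
    have h3 := mul_le_mul_of_nonneg_left h2 hinv
    have h5 : (Real.pi * II W)⁻¹ * (∫ c in Ioi (1 : ℝ), Kg M (c + σ) * P c) =
        (II W)⁻¹ * ((Real.pi)⁻¹ * (∫ c in Ioi (1 : ℝ), Kg M (c + σ) * P c)) := by
      rw [mul_inv]
      ring
    show (Real.pi * II W)⁻¹ * (∫ c in Ioi (1 : ℝ), Kg M (c + σ) * P c) ≤ _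
    rw [h5]
    refine h3.trans ?_
    rw [mul_add, ← mul_assoc, inv_mul_cancel₀ hII.ne', one_mul]
    have h6 : 4 * (CU * l * Real.log (4 / l) ^ 2) / M ≤
        (4 * CU + (II W)⁻¹ * (2 * C1)) * l * Real.log (4 / l) ^ 2 / M := by
      refine div_le_div_of_nonneg_right ?_ hM0.le
      have : 0 ≤ (II W)⁻¹ * (2 * C1) * l * Real.log (4 / l) ^ 2 := by positivity
      nlinarith
    have h7 : (II W)⁻¹ * (C1 * l ^ (5 / 4 : ℝ) * (2 * M)) ≤
        (4 * CU + (II W)⁻¹ * (2 * C1)) * M * l ^ (5 / 4 : ℝ) := by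
      have : 0 ≤ 4 * CU * M * l ^ (5 / 4 : ℝ) := by positivity
      nlinarith
    linarith
  · have h1 : (∫ c in Ioi (1 : ℝ), Kg M (c + σ) * P c) = 0 := integral_undef hPi
    show (Real.pi * II W)⁻¹ * (∫ c in Ioi (1 : ℝ), Kg M (c + σ) * P c) ≤ _
    rw [h1, mul_zero]
    have h2 : 0 ≤ (4 * CU + (II W)⁻¹ * (2 * C1)) * M * l ^ (5 / 4 : ℝ) := by positivity
    have h3 : 0 ≤ (4 * CU + (II W)⁻¹ * (2 * C1)) * l * Real.log (4 / l) ^ 2 / M := by positivity
    linarith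

end Pool.Agent.Lib.MP_2a816b_nt.TA
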