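import Pool.Agent.Lib.MP_2a816b_nt.TA.StW
import Pool.Agent.Lib.MP_2a816b_nt.TA.GDTL

open Complex Set Filter Topology MeasureTheory

namespace Pool.Agent.Lib.MP_2a816b_nt.TA

open Pool.Agent.Lib.MP_00e05b_nt Pool.Agent.Lib.MP_00e05b_nt.Mont Pool.Agent.Lib.MP_2a816b_nt.PV

theorem GStW_QQ {T : ℝ} (hT : 2 ≤ T) (u : ℝ) :
    QQ T u = 1 / T * ∫ l in (lT T)..(Real.log 3), w3 l * Dt l (u - Real.log T + su l) ^ 2 := by
  have hT0 : 0 < T := by linarith
  have hlog : 0 < Real.log T := Real.log_pos (by linarith)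
  rw [QQ_eq_RR hT, star hT]
  have e1 : (u / Real.log T - 1) * Real.log T = u - Real.log T := by
    rw [sub_mul, div_mul_cancel₀ _ hlog.ne', one_mul]
  rw [e1]
  field_simp

theorem GStW_avg {T : ℝ} (hT : 2 ≤ T) {x y : ℝ} (hxy : x ≤ y) :
    ∫ u in x..y, QQ T u = 1 / T * ∫ l in (lT T)..(Real.log 3),
      w3 l * ∫ v in (x - Real.log T + su l)..(y - Real.log T + su l), Dt l v ^ 2 := by
  have hT0 : 0 < T := by linarith
  have hlog : 0 < Real.log T := Real.log_pos (by linarith)
  have h1 := (star_avg hT (a := x / Real.log T) (b := y / Real.log T) (div_le_div_of_nonneg_right hxy hlog.le)).2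
  have h2 : ∫ u in x..y, QQ T u = Real.log T * (Real.log T * ∫ α in (x / Real.log T)..(y / Real.log T), RR α T) := by
    simp only [QQ_eq_RR hT]
    rw [intervalIntegral.integral_const_mul, intervalIntegral.integral_comp_div (fun α => RR α T) hlog.ne', smul_eq_mul]
  have e1 : ∀ z : ℝ, (z / Real.log T - 1) * Real.log T = z - Real.log T := by
    intro z
    rw [sub_mul, div_mul_cancel₀ _ hlog.ne', one_mul]
  rw [h2, h1, e1, e1]
  field_simp

theorem GStW_inv_sq {a b : ℝ} (ha : 0 < a) (hab : a ≤ b) : ∫ l in a..b, (l ^ 2)⁻¹ ≤ a⁻¹ := by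
  have h1 : ∫ l in a..b, (l ^ 2)⁻¹ = -b⁻¹ - -a⁻¹ := by
    refine intervalIntegral.integral_eq_sub_of_hasDerivAt (f := fun l => -l⁻¹) (fun l hl => ?_) ?_
    · rw [uIcc_of_le hab] at hl
      have hl0 : l ≠ 0 := (ha.trans_le hl.1).ne'
      exact (hasDerivAt_inv hl0).neg.congr_deriv (by rw [neg_neg])
    · refine ContinuousOn.intervalIntegrable ?_
      rw [uIcc_of_le hab]
      exact ContinuousOn.inv₀ (continuousOn_id.pow 2) fun l hl => pow_ne_zero 2 (ha.trans_le hl.1).ne'
  rw [h1]
  have : 0 < b⁻¹ := inv_pos.2 (ha.trans_le hab)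
  linarith

/-- A general criterion. -/
theorem GStW_int {f K : ℝ → ℝ} {A x0 : ℝ} (hf0 : ∀ x, 0 ≤ f x) (hfi : ∀ a b, IntervalIntegrable f volume a b)
    (hfu : ∀ x, x0 ≤ x → ∫ u in x..(x + 1), f u ≤ A) (hKc : Continuous K) (hK0 : ∀ x, 0 ≤ K x)
    (hKa : AntitoneOn K (Ici (x0 - 1))) (hKi : IntegrableOn K (Ioi (x0 - 1))) (a : ℝ) :
    IntegrableOn (fun u => K u * f u) (Ioi a) := by
  have hA : 0 ≤ A := (intervalIntegral.integral_nonneg (by linarith : x0 ≤ x0 + 1) fun u _ => hf0 u).trans (hfu x0 le_rfl)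
  have hii : ∀ a b, IntervalIntegrable (fun u => K u * f u) volume a b := fun a b =>
    (hfi a b).continuousOn_mul hKc.continuousOn
  obtain ⟨b, hb⟩ : ∃ b, b = max a x0 := ⟨_, rfl⟩
  have hab : a ≤ b := hb ▸ le_max_left _ _
  have hb0 : x0 ≤ b := hb ▸ le_max_right _ _
  have key : ∀ n : ℕ, ∫ x in b..(b + n), K x * f x ≤ A * ∫ x in (b - 1)..(b - 1 + n), K x := by
    intro n
    induction n with
    | zero => simp
    | succ n ih =>
      have h1 : ∫ x in b..(b + (n + 1 : ℕ)), K x * f x =
          (∫ x in b..(b + n), K x * f x) + ∫ x in (b + n)..(b + n + 1), K x * f x := by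
        rw [intervalIntegral.integral_add_adjacent_intervals (hii _ _) (hii _ _)]
        congr 1
        push_cast
        ring
      have h2 : ∫ x in (b - 1)..(b - 1 + (n + 1 : ℕ)), K x =
          (∫ x in (b - 1)..(b - 1 + n), K x) + ∫ x in (b - 1 + n)..(b - 1 + n + 1), K x := by
        rw [intervalIntegral.integral_add_adjacent_intervals (hKc.intervalIntegrable _ _) (hKc.intervalIntegrable _ _)]
        congr 1
        push_cast
        ring
      have hn : (0 : ℝ) ≤ n := Nat.cast_nonneg n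
      have h3 : ∫ x in (b + n)..(b + n + 1), K x * f x ≤ K (b + n) * A := by
        calc ∫ x in (b + n)..(b + n + 1), K x * f x ≤ ∫ x in (b + n)..(b + n + 1), K (b + n) * f x := by
              refine intervalIntegral.integral_mono_on (by linarith) (hii _ _) ((hfi _ _).const_mul _) fun x hx => ?_
              refine mul_le_mul_of_nonneg_right (hKa ?_ ?_ hx.1) (hf0 x)
              · exact mem_Ici.2 (by linarith)
              · exact mem_Ici.2 (by linarith [hx.1])
          _ = K (b + n) * ∫ x in (b + n)..(b + n + 1), f x := intervalIntegral.integral_const_mul _ _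
          _ ≤ K (b + n) * A := mul_le_mul_of_nonneg_left (hfu _ (by linarith)) (hK0 _)
      have h4 : K (b + n) ≤ ∫ x in (b - 1 + n)..(b - 1 + n + 1), K x := by
        have h5 : K (b + n) = ∫ x in (b - 1 + n)..(b - 1 + n + 1), K (b + n) := by
          rw [intervalIntegral.integral_const, add_sub_cancel_left, one_smul]
        rw [h5]
        refine intervalIntegral.integral_mono_on (by linarith) intervalIntegrable_const (hKc.intervalIntegrable _ _)
          fun x hx => ?_
        refine hKa ?_ ?_ (by linarith [hx.2])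
        · exact mem_Ici.2 (by linarith [hx.1])
        · exact mem_Ici.2 (by linarith)
      rw [h1, h2, mul_add]
      refine add_le_add ih (h3.trans ?_)
      rw [mul_comm]
      exact mul_le_mul_of_nonneg_left h4 hA
  have h2 : IntegrableOn (fun u => K u * f u) (Ioi b) := by
    refine integrableOn_Ioi_of_intervalIntegral_norm_bounded (A * ∫ x in Ioi (x0 - 1), K x) b (l := atTop)
      (b := fun n : ℕ => b + n) (fun n => ?_) (tendsto_atTop_add_const_left _ _ tendsto_natCast_atTop_atTop) ?_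
    · exact (hii b (b + n)).1
    · refine Eventually.of_forall fun n => ?_
      have hn : (0 : ℝ) ≤ n := Nat.cast_nonneg n
      have e1 : ∫ x in b..(b + n), ‖K x * f x‖ = ∫ x in b..(b + n), K x * f x := by
        refine intervalIntegral.integral_congr fun x _ => ?_
        exact Real.norm_of_nonneg (mul_nonneg (hK0 x) (hf0 x))
      rw [e1]
      refine (key n).trans (mul_le_mul_of_nonneg_left ?_ hA)
      rw [intervalIntegral.integral_of_le (by linarith)]
      refine setIntegral_mono_set hKi (ae_of_all _ fun x => hK0 x) (LE.le.eventuallyLE ?_)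
      intro x hx
      exact mem_Ioi.2 (by linarith [hx.1])
  rw [← Ioc_union_Ioi_eq_Ioi hab]
  exact (hii a b).1.union h2

theorem GStW_shift (h : ℝ → ℝ) (a d : ℝ) : ∫ v in Ioi a, h (v + d) = ∫ u in Ioi (a + d), h u := by
  rw [← integral_indicator measurableSet_Ioi, ← integral_indicator measurableSet_Ioi,
    ← integral_add_right_eq_self (fun u => (Ioi (a + d)).indicator h u) d]
  refine integral_congr_ae (ae_of_all _ fun x => ?_)
  by_cases hx : x ∈ Ioi a
  · have hx' : x + d ∈ Ioi (a + d) := by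
      rw [mem_Ioi] at hx ⊢
      linarith
    show (Ioi a).indicator (fun v => h (v + d)) x = (Ioi (a + d)).indicator h (x + d)
    rw [indicator_of_mem hx, indicator_of_mem hx']
  · have hx' : x + d ∉ Ioi (a + d) := by
      rw [mem_Ioi] at hx ⊢
      intro h1
      exact hx (by linarith)
    show (Ioi a).indicator (fun v => h (v + d)) x = (Ioi (a + d)).indicator h (x + d)
    rw [indicator_of_notMem hx, indicator_of_notMem hx']

theorem GStW_Kg_cont (M : ℝ) : Continuous (Kg M) := by
  unfold Kg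
  fun_prop

theorem GStW_Kg_nonneg (M x : ℝ) : 0 ≤ Kg M x := (Real.exp_pos _).le

theorem GStW_Kg_anti {M : ℝ} (hM : 1 ≤ M) : AntitoneOn (Kg M) (Ici 0) := by
  intro x hx y _ hxy
  unfold Kg
  refine Real.exp_le_exp.2 (neg_le_neg ?_)
  refine div_le_div_of_nonneg_right ?_ (by positivity)
  exact pow_le_pow_left₀ (mem_Ici.1 hx) hxy 2

/-- LEAF GStW. Unit intervals on the `u` side: `∫_x^(x+1) QQ T u du = (1/T) ∫_{lT}^{log 3} w3 l ∫ Dt²` (star), `Dt_unit` for the part
`v ≥ 7/8`, and for `v ≤ 7/8` (then `u = v + L - su l ≤ L + 2`) only finitely many unit intervals: any finite bound is enough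
for integrability, but the uniform bound is asked only for `x ≥ L + 2`. -/
theorem QQ_unit (hRH : RiemannHypothesis) : ∃ C : ℝ, 0 ≤ C ∧ ∀ T x : ℝ, 2 ≤ T → Real.log T + 2 ≤ x →
    ∫ u in x..(x + 1), QQ T u ≤ C * (1 + Real.log T) ^ 2 := by
  obtain ⟨C, hC, hD⟩ := Dt_unit hRH
  refine ⟨4 * C, by positivity, fun T x hT hx => ?_⟩
  have hT0 : 0 < T := by linarith
  have hlog : 0 < Real.log T := Real.log_pos (by linarith)
  have hlT1 : 1 / T ≤ lT T := lT_ge (by linarith : (1 : ℝ) ≤ T)
  have hlT0 : 0 < lT T := lt_of_lt_of_le (by positivity) hlT1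
  have hlT3 : lT T ≤ Real.log 3 := lT_le_log_three (by linarith)
  rw [GStW_avg hT (by linarith)]
  have hsub : Icc (lT T) (Real.log 3) ⊆ Ioi 0 := fun l hl => hlT0.trans_le hl.1
  have hb : ∀ l ∈ Icc (lT T) (Real.log 3),
      w3 l * ∫ v in (x - Real.log T + su l)..(x + 1 - Real.log T + su l), Dt l v ^ 2 ≤
        C * Real.log (4 * T) ^ 2 * (l ^ 2)⁻¹ := by
    intro l hl
    have hl0 : 0 < l := hsub hl
    have hl54 : l ≤ 5 / 4 := hl.2.trans log_three_le
    have hsu := su_ge_neg_one hl0 hl.2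
    have h1 := hD l hl0 hl54 (x - Real.log T + su l) (by linarith)
    have e1 : x + 1 - Real.log T + su l = x - Real.log T + su l + 1 := by ring
    rw [e1]
    have h2 : 1 ≤ T * l := by
      have := mul_le_mul_of_nonneg_left (hlT1.trans hl.1) hT0.le
      rwa [mul_one_div_cancel hT0.ne'] at this
    have hlog4 : Real.log (4 / l) ≤ Real.log (4 * T) := by
      refine Real.log_le_log (by positivity) ?_
      rw [div_le_iff₀ hl0]
      linarith
    have hlog40 : 0 ≤ Real.log (4 / l) := by
      refine Real.log_nonneg ?_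
      rw [le_div_iff₀ hl0]
      linarith
    have h3 : 0 ≤ ∫ v in (x - Real.log T + su l)..(x - Real.log T + su l + 1), Dt l v ^ 2 :=
      intervalIntegral.integral_nonneg (by linarith) fun v _ => sq_nonneg _
    calc w3 l * ∫ v in (x - Real.log T + su l)..(x - Real.log T + su l + 1), Dt l v ^ 2
        ≤ (1 / l ^ 3) * (C * l * Real.log (4 / l) ^ 2) := mul_le_mul (w3_le hl0) h1 h3 (by positivity)
      _ ≤ (1 / l ^ 3) * (C * l * Real.log (4 * T) ^ 2) := by
          have h4 := pow_le_pow_left₀ hlog40 hlog4 2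
          exact mul_le_mul_of_nonneg_left (mul_le_mul_of_nonneg_left h4 (by positivity)) (by positivity)
      _ = C * Real.log (4 * T) ^ 2 * (l ^ 2)⁻¹ := by
          field_simp
  have hint : IntervalIntegrable (fun l => w3 l *
      ∫ v in (x - Real.log T + su l)..(x + 1 - Real.log T + su l), Dt l v ^ 2) volume (lT T) (Real.log 3) :=
    inner_ii hlT0 hlT3 log_three_le (continuousOn_const.add (su_cont.mono hsub))
      (continuousOn_const.add (su_cont.mono hsub)) (w3_cont.mono hsub)
  have hint2 : IntervalIntegrable (fun l : ℝ => C * Real.log (4 * T) ^ 2 * (l ^ 2)⁻¹) volume (lT T) (Real.log 3) := by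
    refine ContinuousOn.intervalIntegrable ?_
    rw [uIcc_of_le hlT3]
    exact continuousOn_const.mul (ContinuousOn.inv₀ (continuousOn_id.pow 2) fun l hl => pow_ne_zero 2 (hsub hl).ne')
  have h5 := intervalIntegral.integral_mono_on hlT3 hint hint2 hb
  rw [intervalIntegral.integral_const_mul] at h5
  have h6 := GStW_inv_sq hlT0 hlT3
  have h7 : (lT T)⁻¹ ≤ T := by
    have := inv_anti₀ (by positivity) hlT1
    rwa [one_div, inv_inv] at this
  have h8 : Real.log (4 * T) ≤ 2 * (1 + Real.log T) := by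
    rw [Real.log_mul (by norm_num) hT0.ne']
    have h9 : Real.log 4 = 2 * Real.log 2 := by
      rw [show (4 : ℝ) = 2 ^ 2 by norm_num, Real.log_pow]
      norm_num
    have := Real.log_two_lt_d9
    linarith
  have h9 : 0 ≤ Real.log (4 * T) := Real.log_nonneg (by linarith)
  calc 1 / T * ∫ l in (lT T)..(Real.log 3),
        w3 l * ∫ v in (x - Real.log T + su l)..(x + 1 - Real.log T + su l), Dt l v ^ 2
      ≤ 1 / T * (C * Real.log (4 * T) ^ 2 * T) := by
        refine mul_le_mul_of_nonneg_left (h5.trans ?_) (by positivity)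
        exact mul_le_mul_of_nonneg_left (h6.trans h7) (by positivity)
    _ = C * Real.log (4 * T) ^ 2 := by field_simp
    _ ≤ C * (2 * (1 + Real.log T)) ^ 2 := mul_le_mul_of_nonneg_left (pow_le_pow_left₀ h9 h8 2) hC
    _ = 4 * C * (1 + Real.log T) ^ 2 := by ring

theorem KQ_int (hRH : RiemannHypothesis) {T M : ℝ} (hT : 2 ≤ T) (hM : 1 ≤ M) (a : ℝ) :
    IntegrableOn (fun u => Kg M u * QQ T u) (Ioi a) := by
  obtain ⟨C, hC, hQ⟩ := QQ_unit hRH
  have hlog : 0 < Real.log T := Real.log_pos (by linarith)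
  refine GStW_int (A := C * (1 + Real.log T) ^ 2) (x0 := Real.log T + 2) (fun x => QQ_nonneg hT x) (fun a b => QQ_ii hT a b)
    (fun x hx => hQ T x hT hx) (GStW_Kg_cont M) (GStW_Kg_nonneg M) ?_ (Kg_int hM _) a
  exact (GStW_Kg_anti hM).mono fun x hx => mem_Ici.2 (by
    have := mem_Ici.1 hx
    linarith)

/-- as `stw`: Tonelli, substitution `v = u - L + su l`, restriction to `l ≤ 1`, `v ≥ 7/8`. -/
theorem stwG (hRH : RiemannHypothesis) {T M : ℝ} (hT : 2 ≤ T) (hM : 1 ≤ M) :
    IntervalIntegrable (fun l : ℝ => w3 l * ∫ v in Ioi (7 / 8 : ℝ), Kg M (v + (Real.log T - su l)) * Dt l v ^ 2)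
      volume (lT T) 1 ∧
    1 / T * ∫ l in (lT T)..1, w3 l * ∫ v in Ioi (7 / 8 : ℝ), Kg M (v + (Real.log T - su l)) * Dt l v ^ 2 ≤
      ∫ u in Ioi (0 : ℝ), Kg M u * QQ T u := by
  have hT0 : 0 < T := by linarith
  have hlog : 0 < Real.log T := Real.log_pos (by linarith)
  have hlT1 : 1 / T ≤ lT T := lT_ge (by linarith : (1 : ℝ) ≤ T)
  have hlT0 : 0 < lT T := lt_of_lt_of_le (by positivity) hlT1
  have hlT3 : lT T ≤ Real.log 3 := lT_le_log_three (by linarith)
  have h13 : 1 ≤ Real.log 3 := by
    rw [Real.le_log_iff_exp_le (by norm_num)]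
    have := Real.exp_one_lt_d9
    linarith
  have hlT_one : lT T ≤ 1 := by
    refine (lT_le (by linarith : (1 : ℝ) ≤ T)).trans ?_
    rw [div_le_one (by linarith)]
    linarith
  set L := Real.log T with hL
  have hw3m : Measurable w3 := by
    unfold w3
    exact (((Real.continuous_sinh.comp (continuous_id.div_const 2)).const_mul 2).pow 3).measurable.inv
  have hsum : Measurable su := by
    unfold su
    exact (Real.measurable_log.comp ((Real.continuous_sinh.comp (continuous_id.div_const 2)).const_mul 2).measurable).neg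
  let G : ℝ × ℝ → ℝ := fun p => Kg M p.1 * (w3 p.2 * Dt p.2 (p.1 - L + su p.2) ^ 2)
  have hGm : Measurable G := by
    have e1 : Measurable fun p : ℝ × ℝ => (p.2, p.1 - L + su p.2) :=
      measurable_snd.prodMk ((measurable_fst.sub_const L).add (hsum.comp measurable_snd))
    exact ((GStW_Kg_cont M).measurable.comp measurable_fst).mul
      ((hw3m.comp measurable_snd).mul ((Dt_meas.comp e1).pow_const 2))
  have hsl : ∀ l ∈ Ioc (lT T) (Real.log 3), 0 ≤ L - su l := by
    intro l hl
    have hl0 : 0 < l := hlT0.trans hl.1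
    have h1 := su_le hl0
    have h2 : -Real.log l ≤ L := by
      have := Real.log_le_log (by positivity) (hlT1.trans hl.1.le)
      rw [one_div, Real.log_inv] at this
      linarith
    linarith
  have hG0 : ∀ u l, l ∈ Ioc (lT T) (Real.log 3) → 0 ≤ G (u, l) := by
    intro u l hl
    exact mul_nonneg (GStW_Kg_nonneg M u) (mul_nonneg (w3_pos (hlT0.trans hl.1)).le (sq_nonneg _))
  have hGu : ∀ u, IntegrableOn (fun l => G (u, l)) (Ioc (lT T) (Real.log 3)) := by
    intro u
    obtain ⟨C, hC0, hC⟩ := Dt_bdd (|u| + L + (1 + L))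
    refine Measure.integrableOn_of_bounded (M := Kg M u * (1 / (lT T) ^ 3 * C ^ 2)) ?_ ?_ ?_
    · rw [Real.volume_Ioc]
      exact ENNReal.ofReal_ne_top
    · exact (hGm.comp (measurable_const.prodMk measurable_id)).aestronglyMeasurable
    · filter_upwards [ae_restrict_mem measurableSet_Ioc] with l hl
      have hl0 : 0 < l := hlT0.trans hl.1
      have hw := w3_le hl0
      have hw0 := w3_pos hl0
      have hs1 := su_ge_neg_one hl0 hl.2
      have hs3 := hsl l hl
      have hsabs : |su l| ≤ 1 + L := abs_le.2 ⟨by linarith, by linarith⟩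
      have harg : |u - L + su l| ≤ |u| + L + (1 + L) := by
        refine (abs_add_le _ _).trans (add_le_add ((abs_sub _ _).trans ?_) hsabs)
        rw [abs_of_pos hlog]
      have hD := hC l _ hl0.le (hl.2.trans log_three_le) harg
      rw [Real.norm_of_nonneg (hG0 u l hl)]
      refine mul_le_mul_of_nonneg_left ?_ (GStW_Kg_nonneg M u)
      rw [← sq_abs (Dt _ _)]
      refine mul_le_mul (hw.trans ?_) (pow_le_pow_left₀ (abs_nonneg _) hD 2) (by positivity) (by positivity)
      exact one_div_le_one_div_of_le (by positivity) (pow_le_pow_left₀ hlT0.le hl.1.le 3)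
  have hGI : ∀ u, ∫ l in Ioc (lT T) (Real.log 3), G (u, l) = T * (Kg M u * QQ T u) := by
    intro u
    rw [GStW_QQ hT, ← hL, intervalIntegral.integral_of_le hlT3]
    show ∫ l in Ioc (lT T) (Real.log 3), Kg M u * (w3 l * Dt l (u - L + su l) ^ 2) = _
    rw [integral_const_mul]
    field_simp
  have hGi : Integrable G ((volume.restrict (Ioi 0)).prod (volume.restrict (Ioc (lT T) (Real.log 3)))) := by
    rw [integrable_prod_iff hGm.aestronglyMeasurable]
    refine ⟨ae_of_all _ fun u => hGu u, ?_⟩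
    have e1 : (fun u => ∫ l in Ioc (lT T) (Real.log 3), ‖G (u, l)‖) = fun u => T * (Kg M u * QQ T u) := by
      funext u
      rw [← hGI u]
      refine setIntegral_congr_fun measurableSet_Ioc fun l hl => ?_
      exact Real.norm_of_nonneg (hG0 u l hl)
    rw [e1]
    exact (KQ_int hRH hT hM 0).const_mul T
  let S : Set (ℝ × ℝ) := {p | 7 / 8 + (L - su p.2) < p.1}
  have hSm : MeasurableSet S :=
    measurableSet_lt (measurable_const.add (measurable_const.sub (hsum.comp measurable_snd))) measurable_fst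
  have hG'i : Integrable (S.indicator G)
      ((volume.restrict (Ioi 0)).prod (volume.restrict (Ioc (lT T) (Real.log 3)))) := hGi.indicator hSm
  have hG'l : ∀ l ∈ Ioc (lT T) (Real.log 3), ∫ u in Ioi (0 : ℝ), S.indicator G (u, l) =
      w3 l * ∫ v in Ioi (7 / 8 : ℝ), Kg M (v + (L - su l)) * Dt l v ^ 2 := by
    intro l hl
    have h1 : ∀ u, S.indicator G (u, l) = (Ioi (7 / 8 + (L - su l))).indicator (fun u => G (u, l)) u := by
      intro u
      by_cases hu : u ∈ Ioi (7 / 8 + (L - su l))
      · have hu' : (u, l) ∈ S := hu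
        rw [indicator_of_mem hu, indicator_of_mem hu']
      · have hu' : (u, l) ∉ S := hu
        rw [indicator_of_notMem hu, indicator_of_notMem hu']
    simp only [h1]
    have h2 := hsl l hl
    have h3 : Ioi (0 : ℝ) ∩ Ioi (7 / 8 + (L - su l)) = Ioi (7 / 8 + (L - su l)) := by
      rw [inter_eq_right]
      intro u hu
      have := mem_Ioi.1 hu
      exact mem_Ioi.2 (by linarith)
    rw [setIntegral_indicator measurableSet_Ioi, h3, ← GStW_shift, ← integral_const_mul]
    refine setIntegral_congr_fun measurableSet_Ioi fun v _ => ?_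
    show Kg M (v + (L - su l)) * (w3 l * Dt l (v + (L - su l) - L + su l) ^ 2) =
      w3 l * (Kg M (v + (L - su l)) * Dt l v ^ 2)
    rw [show v + (L - su l) - L + su l = v by ring]
    ring
  have hΦ : IntegrableOn (fun l => w3 l * ∫ v in Ioi (7 / 8 : ℝ), Kg M (v + (L - su l)) * Dt l v ^ 2)
      (Ioc (lT T) (Real.log 3)) := by
    have h1 := hG'i.integral_prod_right
    exact (integrableOn_congr_fun (fun l hl => hG'l l hl) measurableSet_Ioc).1 h1
  have hΦ0 : ∀ l ∈ Ioc (lT T) (Real.log 3),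
      0 ≤ w3 l * ∫ v in Ioi (7 / 8 : ℝ), Kg M (v + (L - su l)) * Dt l v ^ 2 := by
    intro l hl
    refine mul_nonneg (w3_pos (hlT0.trans hl.1)).le ?_
    exact setIntegral_nonneg measurableSet_Ioi fun v _ => mul_nonneg (GStW_Kg_nonneg _ _) (sq_nonneg _)
  have hsub : Ioc (lT T) 1 ⊆ Ioc (lT T) (Real.log 3) := Ioc_subset_Ioc_right h13
  refine ⟨?_, ?_⟩
  · rw [intervalIntegrable_iff_integrableOn_Ioc_of_le hlT_one]
    exact hΦ.mono_set hsub
  · rw [intervalIntegral.integral_of_le hlT_one]
    have h1 : ∫ l in Ioc (lT T) 1, w3 l * ∫ v in Ioi (7 / 8 : ℝ), Kg M (v + (L - su l)) * Dt l v ^ 2 ≤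
        ∫ l in Ioc (lT T) (Real.log 3), w3 l * ∫ v in Ioi (7 / 8 : ℝ), Kg M (v + (L - su l)) * Dt l v ^ 2 := by
      refine setIntegral_mono_set hΦ ?_ hsub.eventuallyLE
      filter_upwards [ae_restrict_mem measurableSet_Ioc] with l hl
      exact hΦ0 l hl
    have h2 : ∫ l in Ioc (lT T) (Real.log 3), w3 l * ∫ v in Ioi (7 / 8 : ℝ), Kg M (v + (L - su l)) * Dt l v ^ 2 =
        ∫ p, S.indicator G p ∂((volume.restrict (Ioi 0)).prod (volume.restrict (Ioc (lT T) (Real.log 3)))) := by
      rw [integral_prod_symm _ hG'i]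
      exact (setIntegral_congr_fun measurableSet_Ioc fun l hl => hG'l l hl).symm
    have h3 : ∫ p, S.indicator G p ∂((volume.restrict (Ioi 0)).prod (volume.restrict (Ioc (lT T) (Real.log 3)))) ≤
        ∫ p, G p ∂((volume.restrict (Ioi 0)).prod (volume.restrict (Ioc (lT T) (Real.log 3)))) := by
      refine integral_mono_ae hG'i hGi ?_
      rw [Measure.prod_restrict]
      filter_upwards [ae_restrict_mem (measurableSet_Ioi.prod measurableSet_Ioc)] with p hp
      by_cases hpS : p ∈ S
      · rw [indicator_of_mem hpS]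
      · rw [indicator_of_notMem hpS]
        exact hG0 p.1 p.2 hp.2
    have h4 : ∫ p, G p ∂((volume.restrict (Ioi 0)).prod (volume.restrict (Ioc (lT T) (Real.log 3)))) =
        T * ∫ u in Ioi (0 : ℝ), Kg M u * QQ T u := by
      rw [integral_prod _ hGi, ← integral_const_mul]
      exact integral_congr_ae (ae_of_all _ fun u => hGI u)
    have h5 := (h1.trans_eq h2).trans (h3.trans_eq h4)
    calc 1 / T * ∫ l in Ioc (lT T) 1, w3 l * ∫ v in Ioi (7 / 8 : ℝ), Kg M (v + (L - su l)) * Dt l v ^ 2
        ≤ 1 / T * (T * ∫ u in Ioi (0 : ℝ), Kg M u * QQ T u) := mul_le_mul_of_nonneg_left h5 (by positivity)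
      _ = ∫ u in Ioi (0 : ℝ), Kg M u * QQ T u := by field_simp

end Pool.Agent.Lib.MP_2a816b_nt.TA
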