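import Pool.Agent.Lib.MP_2a816b_nt.TA.Psi

open Complex Set Filter Topology MeasureTheory

namespace Pool.Agent.Lib.MP_2a816b_nt.TA

open Pool.Agent.Lib.MP_00e05b_nt Pool.Agent.Lib.MP_00e05b_nt.Mont Pool.Agent.Lib.MP_2a816b_nt.PV

/-- Abel summation: `∑_{n ≤ x} Λ(n) log n = ψ(x) log x - ∫_1^x ψ(t)/t dt` -/
private lemma Pr_abel (b : ℝ) : ∑ k ∈ Finset.Icc 0 ⌊b⌋₊, Real.log k * ArithmeticFunction.vonMangoldt k =
    Real.log b * Chebyshev.psi b - ∫ t in Set.Ioc 1 b, t⁻¹ * Chebyshev.psi t := by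
  have h := sum_mul_eq_sub_integral_mul₀ (f := Real.log) (fun k => (ArithmeticFunction.vonMangoldt k : ℝ))
    (by simp) b (fun t ht => Real.differentiableAt_log (by linarith [ht.1]))
    (by
      rw [Real.deriv_log']
      apply ContinuousOn.integrableOn_Icc
      exact continuousOn_inv₀.mono (fun t ht => by
        have := ht.1
        simp only [mem_compl_iff, mem_singleton_iff]
        linarith))
  rw [h, Real.deriv_log']
  simp only [Chebyshev.psi_eq_sum_Icc]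

private lemma Pr_int (b : ℝ) : IntegrableOn (fun t => t⁻¹ * Chebyshev.psi t) (Set.Ioc 1 b) := by
  have h := integrableOn_mul_sum_Icc (m := 0) (fun k => (ArithmeticFunction.vonMangoldt k : ℝ)) (a := 1) (b := b) (by norm_num)
    (g := fun t => t⁻¹) (by
      apply ContinuousOn.integrableOn_Icc
      exact continuousOn_inv₀.mono (fun t ht => by
        have := ht.1
        simp only [mem_compl_iff, mem_singleton_iff]
        linarith))
  have h2 := h.mono_set (Set.Ioc_subset_Icc_self)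
  simpa only [Chebyshev.psi_eq_sum_Icc] using h2

private lemma Pr_sumsq (hRH : RiemannHypothesis) : ∃ C : ℝ, 0 ≤ C ∧ ∀ x : ℝ, 1 ≤ x →
    ∑ k ∈ Finset.Icc 1 ⌊x⌋₊, (ArithmeticFunction.vonMangoldt k : ℝ) ^ 2 ≤ x * (Real.log x - 1) + C * x ^ (7 / 8 : ℝ) := by
  obtain ⟨C, hC, hψ⟩ := psi_err hRH
  refine ⟨12 * C + 1, by positivity, fun x hx => ?_⟩
  have hx0 : 0 < x := by linarith
  have hlog : 0 ≤ Real.log x := Real.log_nonneg hx
  have h1 : ∑ k ∈ Finset.Icc 1 ⌊x⌋₊, (ArithmeticFunction.vonMangoldt k : ℝ) ^ 2 ≤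
      ∑ k ∈ Finset.Icc 0 ⌊x⌋₊, Real.log k * ArithmeticFunction.vonMangoldt k := by
    refine (Finset.sum_le_sum fun k _ => ?_).trans (Finset.sum_le_sum_of_subset_of_nonneg
      (Finset.Icc_subset_Icc_left (Nat.zero_le 1)) (fun k _ _ => mul_nonneg (Real.log_natCast_nonneg k)
        ArithmeticFunction.vonMangoldt_nonneg))
    rw [sq]
    exact mul_le_mul_of_nonneg_right ArithmeticFunction.vonMangoldt_le_log ArithmeticFunction.vonMangoldt_nonneg
  have h2 : (x - 1) - 2 * C * x ^ (3 / 4 : ℝ) ≤ ∫ t in Set.Ioc 1 x, t⁻¹ * Chebyshev.psi t := by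
    have hi : IntegrableOn (fun t : ℝ => 1 - C * t ^ (-(1 / 4) : ℝ)) (Set.Ioc 1 x) := by
      have : IntegrableOn (fun t : ℝ => 1 - C * t ^ (-(1 / 4) : ℝ)) (Set.Icc 1 x) := by
        apply ContinuousOn.integrableOn_Icc
        apply ContinuousOn.sub continuousOn_const
        apply ContinuousOn.mul continuousOn_const
        exact ContinuousOn.rpow_const continuousOn_id (fun t ht => Or.inl (ne_of_gt (lt_of_lt_of_le one_pos ht.1)))
      exact this.mono_set Set.Ioc_subset_Icc_self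
    have h3 : ∫ t in Set.Ioc 1 x, (1 - C * t ^ (-(1 / 4) : ℝ)) ≤ ∫ t in Set.Ioc 1 x, t⁻¹ * Chebyshev.psi t := by
      apply setIntegral_mono_on hi (Pr_int x) measurableSet_Ioc
      intro t ht
      have ht1 : 1 ≤ t := ht.1.le
      have ht0 : 0 < t := by linarith
      have hp := (abs_le.1 (hψ t ht1)).1
      have e1 : t⁻¹ * t ^ (3 / 4 : ℝ) = t ^ (-(1 / 4) : ℝ) := by
        rw [← Real.rpow_neg_one, ← Real.rpow_add ht0]
        norm_num
      have e2 : t⁻¹ * t = 1 := inv_mul_cancel₀ ht0.ne'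
      calc 1 - C * t ^ (-(1 / 4) : ℝ) = t⁻¹ * (t - C * t ^ (3 / 4 : ℝ)) := by
            rw [mul_sub, e2, ← e1]; ring
        _ ≤ t⁻¹ * Chebyshev.psi t := by
            apply mul_le_mul_of_nonneg_left _ (by positivity)
            linarith
    refine le_trans ?_ h3
    rw [← intervalIntegral.integral_of_le hx, intervalIntegral.integral_sub (by simp)
      (by
        apply IntervalIntegrable.const_mul
        apply intervalIntegral.intervalIntegrable_rpow'
        norm_num), intervalIntegral.integral_const_mul, integral_rpow (Or.inl (by norm_num))]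
    simp only [intervalIntegral.integral_const, smul_eq_mul, mul_one, Real.one_rpow]
    have e3 : (-(1 / 4) + 1 : ℝ) = 3 / 4 := by norm_num
    rw [e3]
    have hp : (0 : ℝ) ≤ x ^ (3 / 4 : ℝ) := by positivity
    have : C * ((x ^ (3 / 4 : ℝ) - 1) / (3 / 4)) ≤ 2 * C * x ^ (3 / 4 : ℝ) := by
      have : (x ^ (3 / 4 : ℝ) - 1) / (3 / 4) ≤ 2 * x ^ (3 / 4 : ℝ) := by
        rw [div_le_iff₀ (by norm_num)]; nlinarith
      nlinarith
    linarith
  have h4 : Real.log x * Chebyshev.psi x ≤ Real.log x * (x + C * x ^ (3 / 4 : ℝ)) := by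
    apply mul_le_mul_of_nonneg_left _ hlog
    have hp := (abs_le.1 (hψ x hx)).2
    linarith
  have h5 : Real.log x ≤ 8 * x ^ (1 / 8 : ℝ) := by
    have := Real.log_le_rpow_div hx0.le (show (0 : ℝ) < 1 / 8 by norm_num)
    linarith
  have h6 : x ^ (1 / 8 : ℝ) * x ^ (3 / 4 : ℝ) = x ^ (7 / 8 : ℝ) := by
    rw [← Real.rpow_add hx0]; norm_num
  have h7 : x ^ (3 / 4 : ℝ) ≤ x ^ (7 / 8 : ℝ) := Real.rpow_le_rpow_of_exponent_le hx (by norm_num)
  have h8 : 1 ≤ x ^ (7 / 8 : ℝ) := Real.one_le_rpow hx (by norm_num)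
  have h9 : Real.log x * x ^ (3 / 4 : ℝ) ≤ 8 * x ^ (7 / 8 : ℝ) := by
    calc Real.log x * x ^ (3 / 4 : ℝ) ≤ (8 * x ^ (1 / 8 : ℝ)) * x ^ (3 / 4 : ℝ) :=
          mul_le_mul_of_nonneg_right h5 (by positivity)
      _ = 8 * x ^ (7 / 8 : ℝ) := by rw [mul_assoc, h6]
  rw [Pr_abel] at h1
  have h10 : C * (Real.log x * x ^ (3 / 4 : ℝ)) ≤ C * (8 * x ^ (7 / 8 : ℝ)) := mul_le_mul_of_nonneg_left h9 hC
  have h11 : C * x ^ (3 / 4 : ℝ) ≤ C * x ^ (7 / 8 : ℝ) := mul_le_mul_of_nonneg_left h7 hC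
  have h12 : 0 ≤ C * x ^ (7 / 8 : ℝ) := by positivity
  nlinarith

/-- for `x` not a half-integer (shifted), at most one integer in the window -/
private lemma Pr_pw {X H x : ℝ} (hH : 0 < H) (hH1 : H ≤ 1) (hxX : x ≤ X) (hx : ∀ k : ℕ, x ≠ k + 1 / 2) :
    (psiWindow x H - H) ^ 2 ≤
      (∑ n ∈ Finset.Icc 1 ⌊X + 1 / 2⌋₊, Set.indicator (Set.Icc ((n : ℝ) - H / 2) (n + H / 2))
        (fun _ => (ArithmeticFunction.vonMangoldt n : ℝ) ^ 2) x) + H ^ 2 := by
  have hnn : ∀ n ∈ Finset.Icc 1 ⌊X + 1 / 2⌋₊, 0 ≤ Set.indicator (Set.Icc ((n : ℝ) - H / 2) (n + H / 2))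
        (fun _ => (ArithmeticFunction.vonMangoldt n : ℝ) ^ 2) x := fun n _ =>
    Set.indicator_nonneg (fun _ _ => sq_nonneg _) _
  unfold psiWindow
  rcases ((Finset.Icc 1 ⌊x + H / 2⌋₊).filter (fun n : ℕ => x - H / 2 ≤ (n : ℝ))).eq_empty_or_nonempty with h | ⟨n, hn⟩
  · rw [h, Finset.sum_empty, zero_sub, neg_sq]
    have := Finset.sum_nonneg hnn
    linarith
  · have key : ∀ m ∈ (Finset.Icc 1 ⌊x + H / 2⌋₊).filter (fun n : ℕ => x - H / 2 ≤ (n : ℝ)), 1 ≤ m ∧
        x - H / 2 ≤ (m : ℝ) ∧ (m : ℝ) ≤ x + H / 2 := by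
      intro m hm
      rw [Finset.mem_filter, Finset.mem_Icc] at hm
      exact ⟨hm.1.1, hm.2, (Nat.le_floor_iff' (by omega)).1 hm.1.2⟩
    have huniq : ∀ m ∈ (Finset.Icc 1 ⌊x + H / 2⌋₊).filter (fun n : ℕ => x - H / 2 ≤ (n : ℝ)), m = n := by
      have aux : ∀ a b : ℕ, x - H / 2 ≤ (a : ℝ) → (b : ℝ) ≤ x + H / 2 → ¬ a < b := by
        intro a b ha hb hab
        have h1 : (a : ℝ) + 1 ≤ b := by exact_mod_cast hab
        apply hx a
        linarith
      intro m hm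
      obtain ⟨_, h1, h2⟩ := key m hm
      obtain ⟨_, h3, h4⟩ := key n hn
      have := aux m n h1 h4
      have := aux n m h3 h2
      omega
    rw [Finset.eq_singleton_iff_unique_mem.2 ⟨hn, huniq⟩, Finset.sum_singleton]
    obtain ⟨h1, h3, h4⟩ := key n hn
    have hmem : n ∈ Finset.Icc 1 ⌊X + 1 / 2⌋₊ := by
      rw [Finset.mem_Icc]
      refine ⟨h1, Nat.le_floor ?_⟩
      linarith
    have h5 := Finset.single_le_sum hnn hmem
    rw [Set.indicator_of_mem (by constructor <;> linarith)] at h5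
    have h6 : 0 ≤ (ArithmeticFunction.vonMangoldt n : ℝ) := ArithmeticFunction.vonMangoldt_nonneg
    nlinarith

private lemma Pr_VV {X H : ℝ} (hH : 0 < H) (hH1 : H ≤ 1) (hX : 1 ≤ X) (hHX : H ≤ X) :
    VV X H / H ≤ (∑ n ∈ Finset.Icc 1 ⌊X + 1 / 2⌋₊, (ArithmeticFunction.vonMangoldt n : ℝ) ^ 2) / X + H := by
  have hX0 : 0 < X := by linarith
  have hint : ∀ n : ℕ, Integrable (Set.indicator (Set.Icc ((n : ℝ) - H / 2) (n + H / 2))
        (fun _ => (ArithmeticFunction.vonMangoldt n : ℝ) ^ 2)) (volume.restrict (Set.Ioc H X)) := by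
    intro n
    apply (integrable_const _).indicator measurableSet_Icc
  have h1 : ∫ x in H..X, (psiWindow x H - H) ^ 2 ≤
      H * (∑ n ∈ Finset.Icc 1 ⌊X + 1 / 2⌋₊, (ArithmeticFunction.vonMangoldt n : ℝ) ^ 2) + H ^ 2 * X := by
    rw [intervalIntegral.integral_of_le hHX]
    have h2 : ∫ x in Set.Ioc H X, (psiWindow x H - H) ^ 2 ≤ ∫ x in Set.Ioc H X,
        ((∑ n ∈ Finset.Icc 1 ⌊X + 1 / 2⌋₊, Set.indicator (Set.Icc ((n : ℝ) - H / 2) (n + H / 2))
        (fun _ => (ArithmeticFunction.vonMangoldt n : ℝ) ^ 2) x) + H ^ 2) := by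
      apply integral_mono_of_nonneg
      · exact Filter.Eventually.of_forall fun x => sq_nonneg _
      · apply Integrable.add
        · exact integrable_finsetSum _ (fun n _ => hint n)
        · exact integrable_const _
      · rw [Filter.EventuallyLE, ae_restrict_iff' measurableSet_Ioc]
        have hc : (Set.range (fun k : ℕ => (k : ℝ) + 1 / 2)).Countable := Set.countable_range _
        filter_upwards [hc.ae_notMem volume] with x hx hxI
        exact Pr_pw hH hH1 hxI.2 (fun k hk => hx ⟨k, hk.symm⟩)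
    refine h2.trans ?_
    rw [integral_add (integrable_finsetSum _ (fun n _ => hint n)) (integrable_const _),
      integral_finsetSum _ (fun n _ => hint n), Finset.mul_sum]
    apply add_le_add
    · apply Finset.sum_le_sum
      intro n _
      rw [integral_indicator measurableSet_Icc, setIntegral_const, smul_eq_mul]
      apply mul_le_mul_of_nonneg_right _ (sq_nonneg _)
      have h3 : (volume.restrict (Set.Ioc H X)).real (Set.Icc ((n : ℝ) - H / 2) (n + H / 2)) ≤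
          volume.real (Set.Icc ((n : ℝ) - H / 2) (n + H / 2)) := by
        apply ENNReal.toReal_mono
        · simp
        · exact Measure.restrict_apply_le _ _
      refine h3.trans ?_
      rw [Real.volume_real_Icc_of_le (by linarith)]
      linarith
    · rw [integral_const, smul_eq_mul]
      have : (volume.restrict (Set.Ioc H X)).real Set.univ = X - H := by
        simp [Measure.real, hHX]
      rw [this]
      nlinarith [sq_nonneg H]
  unfold VV
  rw [div_le_iff₀ hH]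
  have h4 : (1 / X) * ∫ x in H..X, (psiWindow x H - H) ^ 2 ≤ (1 / X) *
      (H * (∑ n ∈ Finset.Icc 1 ⌊X + 1 / 2⌋₊, (ArithmeticFunction.vonMangoldt n : ℝ) ^ 2) + H ^ 2 * X) :=
    mul_le_mul_of_nonneg_left h1 (by positivity)
  refine h4.trans (le_of_eq ?_)
  field_simp

/-- LEAF Pr (primes, `H ≤ 1`). `VV X H = (1/X) ∫_H^X (psiWindow² - 2 H psiWindow + H²) ≤ (1/X) ∫_H^X psiWindow x H² dx + H²`;
for `H < 1` a window contains at most one integer, so `∫ psiWindow² ≤ H ∑_{n ≤ X + 1} Λ(n)²` (`H = 1`: up to a null set), and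
`∑_{n ≤ x} Λ(n)² ≤ ∑_{n ≤ x} Λ(n) log n = ψ(x) log x - ∫_1^x ψ(t)/t dt ≤ x (log x - 1) + C x^(3/4)` by
`psi_err` (Abel summation). -/
theorem pr (hRH : RiemannHypothesis) : ∃ C : ℝ, 0 ≤ C ∧ ∀ T u : ℝ, 2 ≤ T → 0 ≤ u → u ≤ Real.log T →
    QQ T u ≤ u - 1 + C * Real.exp (-(u / 8)) + Real.exp u / T := by
  obtain ⟨C, hC, hS⟩ := Pr_sumsq hRH
  refine ⟨2 * C + 8, by positivity, fun T u hT hu huT => ?_⟩
  have hT0 : 0 < T := by linarith
  have hX1 : 1 ≤ Real.exp u := Real.one_le_exp hu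
  have hX0 : 0 < Real.exp u := Real.exp_pos u
  have hH0 : 0 < Real.exp u / T := by positivity
  have hH1 : Real.exp u / T ≤ 1 := by
    rw [div_le_one hT0]
    exact (Real.le_log_iff_exp_le hT0).1 huT
  have hHX : Real.exp u / T ≤ Real.exp u := div_le_self hX0.le (by linarith)
  have h1 := Pr_VV hH0 hH1 hX1 hHX
  have h2 := hS (Real.exp u + 1 / 2) (by linarith)
  unfold QQ
  refine h1.trans ?_
  set X := Real.exp u with hXdef
  have hlogX : Real.log X = u := Real.log_exp u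
  have h3 : Real.log (X + 1 / 2) ≤ u + 1 / (2 * X) := by
    have e : X + 1 / 2 = X * (1 + 1 / (2 * X)) := by field_simp
    rw [e, Real.log_mul hX0.ne' (by positivity), hlogX]
    have := Real.log_le_sub_one_of_pos (show 0 < 1 + 1 / (2 * X) by positivity)
    linarith
  have h4 : u ≤ 8 * X ^ (1 / 8 : ℝ) := by
    have := Real.log_le_rpow_div hX0.le (show (0 : ℝ) < 1 / 8 by norm_num)
    rw [hlogX] at this
    linarith
  have h5 : (X + 1 / 2) ^ (7 / 8 : ℝ) ≤ 2 * X ^ (7 / 8 : ℝ) := by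
    calc (X + 1 / 2) ^ (7 / 8 : ℝ) ≤ (2 * X) ^ (7 / 8 : ℝ) :=
          Real.rpow_le_rpow (by positivity) (by linarith) (by norm_num)
      _ = 2 ^ (7 / 8 : ℝ) * X ^ (7 / 8 : ℝ) := Real.mul_rpow (by norm_num) hX0.le
      _ ≤ 2 * X ^ (7 / 8 : ℝ) := by
          apply mul_le_mul_of_nonneg_right _ (by positivity)
          calc (2 : ℝ) ^ (7 / 8 : ℝ) ≤ 2 ^ (1 : ℝ) := Real.rpow_le_rpow_of_exponent_le (by norm_num) (by norm_num)
            _ = 2 := Real.rpow_one 2
  have h6 : X ^ (7 / 8 : ℝ) = X * Real.exp (-(u / 8)) := by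
    rw [hXdef, ← Real.exp_mul, ← Real.exp_add]
    congr 1; ring
  have h7 : X ^ (1 / 8 : ℝ) ≤ X * Real.exp (-(u / 8)) := by
    rw [← h6]
    exact Real.rpow_le_rpow_of_exponent_le hX1 (by norm_num)
  have h8 : 1 ≤ X * Real.exp (-(u / 8)) := by
    rw [← h6]
    exact Real.one_le_rpow hX1 (by norm_num)
  have h9 : (∑ n ∈ Finset.Icc 1 ⌊X + 1 / 2⌋₊, (ArithmeticFunction.vonMangoldt n : ℝ) ^ 2) ≤
      X * (u - 1 + (2 * C + 8) * Real.exp (-(u / 8))) := by
    refine h2.trans ?_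
    have h10 : (X + 1 / 2) * (Real.log (X + 1 / 2) - 1) ≤ (X + 1 / 2) * (u + 1 / (2 * X) - 1) :=
      mul_le_mul_of_nonneg_left (by linarith) (by positivity)
    have h11 : (X + 1 / 2) * (u + 1 / (2 * X) - 1) = X * (u - 1) + u / 2 + 1 / (4 * X) := by
      field_simp; ring
    have h12 : 1 / (4 * X) ≤ 1 := by
      rw [div_le_one (by positivity)]; linarith
    have h13 : C * (X + 1 / 2) ^ (7 / 8 : ℝ) ≤ C * (2 * (X * Real.exp (-(u / 8)))) := by
      apply mul_le_mul_of_nonneg_left _ hC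
      rw [← h6]; exact h5
    nlinarith
  have h14 : (∑ n ∈ Finset.Icc 1 ⌊X + 1 / 2⌋₊, (ArithmeticFunction.vonMangoldt n : ℝ) ^ 2) / X ≤
      u - 1 + (2 * C + 8) * Real.exp (-(u / 8)) := by
    rw [div_le_iff₀ hX0]
    linarith
  linarith

end Pool.Agent.Lib.MP_2a816b_nt.TA
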