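import Pool.Agent.Lib.MP_2a816b_nt.TA.GSL
import Pool.Agent.Lib.MP_2a816b_nt.TA.Pr
import Pool.Agent.Lib.MP_2a816b_nt.TA.GStW
import Pool.Agent.Lib.MP_2a816b_nt.TA.GAsm1
import Pool.Agent.Lib.MP_2a816b_nt.TA.GAsm2

open Complex Set Filter Topology MeasureTheory

namespace Pool.Agent.Lib.MP_2a816b_nt.TA

open Pool.Agent.Lib.MP_00e05b_nt Pool.Agent.Lib.MP_00e05b_nt.Mont Pool.Agent.Lib.MP_2a816b_nt.PV

private lemma GAsm3_e1 {L : ℝ} : ∫ u in (0 : ℝ)..L, Real.exp (-(u / 8)) ≤ 8 := by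
  have h : ∀ u ∈ uIcc 0 L, HasDerivAt (fun u : ℝ => -(8 * Real.exp (-(u / 8)))) (Real.exp (-(u / 8))) u := by
    intro u _
    have h1 := (((hasDerivAt_id u).div_const 8).neg.exp.const_mul 8).neg
    refine h1.congr_deriv ?_
    simp
    ring
  rw [intervalIntegral.integral_eq_sub_of_hasDerivAt h
    ((by fun_prop : Continuous fun u : ℝ => Real.exp (-(u / 8))).intervalIntegrable _ _)]
  have := Real.exp_pos (-(L / 8))
  simp
  linarith

private lemma GAsm3_e2 {L T : ℝ} (hT : 0 < T) (hL : Real.exp L = T) : ∫ u in (0 : ℝ)..L, Real.exp u / T ≤ 1 := by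
  rw [intervalIntegral.integral_div, integral_exp, hL, div_le_one hT, Real.exp_zero]
  linarith

private lemma GAsm3_Kc (M : ℝ) : Continuous (Kg M) := by
  unfold Kg
  fun_prop

private lemma GAsm3_K0 (M x : ℝ) : 0 ≤ Kg M x := (Real.exp_pos _).le

private lemma GAsm3_K1 (M x : ℝ) : Kg M x ≤ 1 := by
  unfold Kg
  rw [Real.exp_le_one_iff, neg_nonpos]
  positivity

/-- the part `u ≤ L` -/
private lemma GAsm3_prime (hRH : RiemannHypothesis) : ∃ C : ℝ, 0 ≤ C ∧ ∀ T : ℝ, 3 ≤ T → ∀ M : ℝ,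
    ∫ u in (0 : ℝ)..(Real.log T), Kg M u * QQ T u ≤ Real.log T ^ 2 / 2 - Real.log T + C := by
  obtain ⟨C, hC, h⟩ := pr hRH
  refine ⟨8 * C + 3, by positivity, fun T hT M => ?_⟩
  have hT0 : 0 < T := by linarith
  have hT2 : 2 ≤ T := by linarith
  set L := Real.log T with hL
  have hL1 : 1 ≤ L := by
    rw [hL, Real.le_log_iff_exp_le hT0]
    have := Real.exp_one_lt_d9
    linarith
  have hL0 : 0 < L := by linarith
  have hexp : Real.exp L = T := Real.exp_log hT0
  have hi1 : IntervalIntegrable (fun u => Kg M u * QQ T u) volume 0 L :=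
    (QQ_ii hT2 0 L).continuousOn_mul (GAsm3_Kc M).continuousOn
  have c1 : Continuous (fun u : ℝ => u - 1) := by fun_prop
  have c2 : Continuous (fun u : ℝ => C * Real.exp (-(u / 8))) := by fun_prop
  have c3 : Continuous (fun u : ℝ => Real.exp u / T) := by fun_prop
  have c12 : Continuous (fun u : ℝ => (u - 1) + C * Real.exp (-(u / 8))) := c1.add c2
  have c123 : Continuous (fun u : ℝ => (u - 1) + C * Real.exp (-(u / 8)) + Real.exp u / T) := c12.add c3
  -- pointwise
  have hpt : ∀ u ∈ Icc 0 L, Kg M u * QQ T u ≤ (u - 1) + C * Real.exp (-(u / 8)) + Real.exp u / T +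
      (if u ≤ 1 then (1 : ℝ) else 0) := by
    intro u hu
    have h1 := h T u hT2 hu.1 hu.2
    have hK0 := GAsm3_K0 M u
    have hK1 := GAsm3_K1 M u
    have h2 := mul_le_mul_of_nonneg_left h1 hK0
    have h3 : Kg M u * (C * Real.exp (-(u / 8))) ≤ C * Real.exp (-(u / 8)) :=
      mul_le_of_le_one_left (by positivity) hK1
    have h4 : Kg M u * (Real.exp u / T) ≤ Real.exp u / T := mul_le_of_le_one_left (by positivity) hK1
    have h5 : Kg M u * (u - 1 + C * Real.exp (-(u / 8)) + Real.exp u / T) =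
        Kg M u * (u - 1) + Kg M u * (C * Real.exp (-(u / 8))) + Kg M u * (Real.exp u / T) := by ring
    rw [h5] at h2
    split_ifs with hc
    · have h6 : Kg M u * (u - 1) ≤ 0 := mul_nonpos_of_nonneg_of_nonpos hK0 (by linarith)
      have h7 : 0 ≤ u := hu.1
      linarith
    · have h6 : Kg M u * (u - 1) ≤ u - 1 := mul_le_of_le_one_left (by linarith) hK1
      linarith
  have hii : IntervalIntegrable (fun u : ℝ => if u ≤ 1 then (1 : ℝ) else 0) volume 0 L := by
    rw [intervalIntegrable_iff_integrableOn_Ioc_of_le hL0.le]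
    refine Measure.integrableOn_of_bounded (M := 1) (by simp) ?_ ?_
    · exact (Measurable.ite (measurableSet_le measurable_id measurable_const) measurable_const
        measurable_const).aestronglyMeasurable
    · refine Eventually.of_forall fun u => ?_
      split_ifs <;> simp
  have hmono : ∫ u in (0 : ℝ)..L, Kg M u * QQ T u ≤
      ∫ u in (0 : ℝ)..L, ((u - 1) + C * Real.exp (-(u / 8)) + Real.exp u / T + (if u ≤ 1 then (1 : ℝ) else 0)) :=
    intervalIntegral.integral_mono_on hL0.le hi1 ((c123.intervalIntegrable _ _).add hii) hpt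
  have hind : ∫ u in (0 : ℝ)..L, (if u ≤ 1 then (1 : ℝ) else 0) ≤ 1 := by
    have e1 : ∫ u in (0 : ℝ)..1, (if u ≤ 1 then (1 : ℝ) else 0) = 1 := by
      rw [intervalIntegral.integral_congr (g := fun _ => (1 : ℝ))]
      · simp
      · intro u hu
        rw [uIcc_of_le zero_le_one] at hu
        simp [hu.2]
    have e2 : ∫ u in (1 : ℝ)..L, (if u ≤ 1 then (1 : ℝ) else 0) = 0 := by
      rw [intervalIntegral.integral_of_le hL1, setIntegral_congr_fun (g := fun _ => (0 : ℝ)) measurableSet_Ioc]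
      · simp
      · intro u hu
        have : ¬ u ≤ 1 := not_le.2 hu.1
        simp [this]
    have i1 : IntervalIntegrable (fun u : ℝ => if u ≤ 1 then (1 : ℝ) else 0) volume 0 1 :=
      hii.mono_set (by rw [uIcc_of_le zero_le_one, uIcc_of_le hL0.le]; exact Icc_subset_Icc le_rfl hL1)
    have i2 : IntervalIntegrable (fun u : ℝ => if u ≤ 1 then (1 : ℝ) else 0) volume 1 L :=
      hii.mono_set (by rw [uIcc_of_le hL1, uIcc_of_le hL0.le]; exact Icc_subset_Icc zero_le_one le_rfl)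
    rw [← intervalIntegral.integral_add_adjacent_intervals i1 i2, e1, e2]
    norm_num
  refine hmono.trans ?_
  rw [intervalIntegral.integral_add (c123.intervalIntegrable _ _) hii,
    intervalIntegral.integral_add (c12.intervalIntegrable _ _) (c3.intervalIntegrable _ _),
    intervalIntegral.integral_add (c1.intervalIntegrable _ _) (c2.intervalIntegrable _ _),
    intervalIntegral.integral_const_mul]
  have h0 : ∫ u in (0 : ℝ)..L, (u - 1) = L ^ 2 / 2 - L := by
    have hd : ∀ u ∈ uIcc 0 L, HasDerivAt (fun u : ℝ => u ^ 2 / 2 - u) (u - 1) u := by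
      intro u _
      have h1 := ((hasDerivAt_pow 2 u).div_const 2).sub (hasDerivAt_id u)
      refine h1.congr_deriv ?_
      simp
    rw [intervalIntegral.integral_eq_sub_of_hasDerivAt hd (c1.intervalIntegrable _ _)]
    ring
  rw [h0]
  have h1 := mul_le_mul_of_nonneg_left (GAsm3_e1 (L := L)) hC
  have h2 := GAsm3_e2 hT0 hexp
  linarith

/-- `∫_0^L Kg ≥ L - L³/(6 M²)` -/
private lemma GAsm3_K {L M : ℝ} (hL : 0 ≤ L) (hM : 0 < M) : L - L ^ 3 / (6 * M ^ 2) ≤ ∫ u in (0 : ℝ)..L, Kg M u := by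
  have hc : Continuous (fun u : ℝ => 1 - u ^ 2 / (2 * M ^ 2)) := by fun_prop
  have h1 : ∫ u in (0 : ℝ)..L, (1 - u ^ 2 / (2 * M ^ 2)) ≤ ∫ u in (0 : ℝ)..L, Kg M u := by
    refine intervalIntegral.integral_mono_on hL (hc.intervalIntegrable _ _) ((GAsm3_Kc M).intervalIntegrable _ _)
      fun u _ => ?_
    unfold Kg
    have := Real.add_one_le_exp (-(u ^ 2 / (2 * M ^ 2)))
    linarith
  refine le_trans (le_of_eq ?_) h1
  have h : ∀ u ∈ uIcc 0 L, HasDerivAt (fun u : ℝ => u - u ^ 3 / (6 * M ^ 2)) (1 - u ^ 2 / (2 * M ^ 2)) u := by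
    intro u _
    have h1 := (hasDerivAt_id u).sub ((hasDerivAt_pow 3 u).div_const (6 * M ^ 2))
    refine h1.congr_deriv ?_
    simp
    field_simp
    ring
  rw [intervalIntegral.integral_eq_sub_of_hasDerivAt h (hc.intervalIntegrable _ _)]
  ring

/-- LEAF GAsm3 (master inequality, Gaussian weight). -/
theorem masterG (hRH : RiemannHypothesis) : ∃ C c T0 : ℝ, 0 ≤ C ∧ 0 < c ∧ ∀ T : ℝ, T0 ≤ T → ∀ M : ℝ,
    2 * Real.log T ≤ M → M ≤ T ^ (1 / 8 : ℝ) →
    (∫ u in Ioi (Real.log T), Kg M u * (Real.log T - c0 - QQ T u)) + c * (M / T) * NC T (1 / M) ≤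
      Real.log T ^ 4 / (6 * M ^ 2) + C * (1 + Real.log T ^ 2 / M) := by
  obtain ⟨Cs, cs, hCs, hcs, hs⟩ := sl_lowerG hRH
  obtain ⟨Ca, Ta, hCa, ha⟩ := asm_mainG
  obtain ⟨Ce, ce, Te, hCe, hce, he⟩ := asm_errG hCs hcs
  obtain ⟨Cp, hCp, hp⟩ := GAsm3_prime hRH
  refine ⟨Ca + Ce + Cp + c0 ^ 2 + |c0| + 1, ce, max (max Ta Te) (max (Real.exp 8) (Real.exp (2 * |c0|))), by positivity, hce,
    fun T hT M hM1 hM2 => ?_⟩
  have hTa : Ta ≤ T := (le_max_left _ _).trans ((le_max_left _ _).trans hT)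
  have hTe : Te ≤ T := (le_max_right _ _).trans ((le_max_left _ _).trans hT)
  have hT8 : Real.exp 8 ≤ T := (le_max_left _ _).trans ((le_max_right _ _).trans hT)
  have hTc : Real.exp (2 * |c0|) ≤ T := (le_max_right _ _).trans ((le_max_right _ _).trans hT)
  have hT0 : 0 < T := (Real.exp_pos 8).trans_le hT8
  have he8 : (8 : ℝ) ≤ Real.exp 8 := by
    have := Real.add_one_le_exp (8 : ℝ)
    linarith
  have hT88 : 8 ≤ T := he8.trans hT8
  have hT2 : 2 ≤ T := by linarith
  set L := Real.log T with hL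
  have hL8 : 8 ≤ L := by
    rw [hL, Real.le_log_iff_exp_le hT0]
    exact hT8
  have hLc : 2 * |c0| ≤ L := by
    rw [hL, Real.le_log_iff_exp_le hT0]
    exact hTc
  have hq0 : 0 ≤ L - c0 := by
    have := le_abs_self c0
    linarith [abs_nonneg c0]
  have hM0 : 0 < M := by linarith
  have hM1' : 1 ≤ M := by linarith
  have hlT1 : 1 / T ≤ lT T := lT_ge (by linarith)
  have hlT0 : 0 < lT T := lt_of_lt_of_le (by positivity) hlT1
  have hlT2 : lT T ≤ 1 := by
    refine (lT_le (by linarith)).trans ?_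
    rw [div_le_one (by linarith)]
    linarith
  obtain ⟨hstwi, hstw⟩ := stwG hRH hT2 hM1'
  rw [← hL] at hstwi hstw
  -- σ ≥ 0
  have hσ : ∀ l ∈ Icc (lT T) 1, 0 ≤ L - su l := by
    intro l hl
    have hl0 : 0 < l := hlT0.trans_le hl.1
    have h1 := su_le hl0
    have h2 : Real.log (1 / T) ≤ Real.log l := Real.log_le_log (by positivity) (hlT1.trans hl.1)
    rw [one_div, Real.log_inv] at h2
    linarith
  have hsuc : ContinuousOn su (uIcc (lT T) 1) := by
    rw [uIcc_of_le hlT2]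
    exact su_cont.mono fun x hx => hlT0.trans_le hx.1
  have hw3c : ContinuousOn w3 (uIcc (lT T) 1) := by
    rw [uIcc_of_le hlT2]
    exact w3_cont.mono fun x hx => hlT0.trans_le hx.1
  have hIgc : Continuous (fun x : ℝ => Ig M x) := by
    have e : (fun x : ℝ => Ig M x) = fun x => Ig M 0 - ∫ u in (0 : ℝ)..x, Kg M u := by
      funext x
      unfold Ig
      have := intervalIntegral.integral_interval_add_Ioi (Kg_int hM1' 0) (Kg_int hM1' x)
      linarith
    rw [e]
    exact continuous_const.sub (intervalIntegral.continuous_primitive (fun a b => (GAsm3_Kc M).intervalIntegrable a b) 0)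
  have hIc : ContinuousOn (fun l => Ig M (L - su l)) (uIcc (lT T) 1) :=
    hIgc.comp_continuousOn (continuousOn_const.sub hsuc)
  have hlogc : ContinuousOn (fun l : ℝ => Real.log l) (uIcc (lT T) 1) := by
    rw [uIcc_of_le hlT2]
    exact continuousOn_id.log fun x hx => (hlT0.trans_le hx.1).ne'
  have hlog4c : ContinuousOn (fun l : ℝ => Real.log (4 / l)) (uIcc (lT T) 1) := by
    rw [uIcc_of_le hlT2]
    refine (continuousOn_const.div continuousOn_id fun x hx => (hlT0.trans_le hx.1).ne').log fun x hx => ?_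
    have := hlT0.trans_le hx.1
    exact (div_pos (by norm_num) this).ne'
  have hrc : ContinuousOn (fun l : ℝ => l ^ (5 / 4 : ℝ)) (uIcc (lT T) 1) :=
    continuousOn_id.rpow_const fun x _ => Or.inr (by norm_num)
  have hidc : ContinuousOn (fun l : ℝ => l) (uIcc (lT T) 1) := continuousOn_id
  -- integrability of the two parts
  have hmi : IntervalIntegrable (fun l => w3 l * (Ig M (L - su l) * (l * (1 - c0 - Real.log l)) -
        l / 2 * (1 - c0 - Real.log l) ^ 2)) volume (lT T) 1 := by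
    apply ContinuousOn.intervalIntegrable
    exact hw3c.mul ((hIc.mul (hidc.mul (continuousOn_const.sub hlogc))).sub
      ((hidc.div_const 2).mul ((continuousOn_const.sub hlogc).pow 2)))
  have hgi : IntervalIntegrable (fun l : ℝ => if l ≤ 5 / (2 * T) then (1 : ℝ) else 0) volume (lT T) 1 := by
    rw [intervalIntegrable_iff_integrableOn_Ioc_of_le hlT2]
    refine Measure.integrableOn_of_bounded (M := 1) (by simp) ?_ ?_
    · exact (Measurable.ite (measurableSet_le measurable_id measurable_const) measurable_const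
        measurable_const).aestronglyMeasurable
    · refine Eventually.of_forall fun u => ?_
      split_ifs <;> simp
  have hei : IntervalIntegrable (fun l => w3 l * (-Cs * l - Cs * M * l ^ (5 / 4 : ℝ) - Cs * l * Real.log (4 / l) ^ 2 / M +
        (if l ≤ 5 / (2 * T) then cs * Ig M (L - su l) * l ^ 2 * NC T (1 / M) else 0))) volume (lT T) 1 := by
    have p1 : IntervalIntegrable (fun l => w3 l * (-Cs * l - Cs * M * l ^ (5 / 4 : ℝ) - Cs * l * Real.log (4 / l) ^ 2 / M))
        volume (lT T) 1 := by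
      apply ContinuousOn.intervalIntegrable
      exact hw3c.mul (((continuousOn_const.mul hidc).sub (continuousOn_const.mul hrc)).sub
        (((continuousOn_const.mul hidc).mul (hlog4c.pow 2)).div_const _))
    have p2 : IntervalIntegrable (fun l => (w3 l * (cs * Ig M (L - su l) * l ^ 2 * NC T (1 / M))) *
        (if l ≤ 5 / (2 * T) then (1 : ℝ) else 0)) volume (lT T) 1 := by
      refine hgi.continuousOn_mul ?_
      exact hw3c.mul (((continuousOn_const.mul hIc).mul (hidc.pow 2)).mul continuousOn_const)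
    refine (p1.add p2).congr fun l _ => ?_
    split_ifs <;> ring
  -- comparison
  have hcmp : (∫ l in (lT T)..1, w3 l * (Ig M (L - su l) * (l * (1 - c0 - Real.log l)) -
        l / 2 * (1 - c0 - Real.log l) ^ 2)) + (∫ l in (lT T)..1, w3 l * (-Cs * l - Cs * M * l ^ (5 / 4 : ℝ) -
        Cs * l * Real.log (4 / l) ^ 2 / M +
        (if l ≤ 5 / (2 * T) then cs * Ig M (L - su l) * l ^ 2 * NC T (1 / M) else 0))) ≤
      ∫ l in (lT T)..1, w3 l * ∫ v in Ioi (7 / 8 : ℝ), Kg M (v + (L - su l)) * Dt l v ^ 2 := by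
    rw [← intervalIntegral.integral_add hmi hei]
    refine intervalIntegral.integral_mono_on hlT2 (hmi.add hei) hstwi fun l hl => ?_
    have hl0 : 0 < l := hlT0.trans_le hl.1
    have h1 := hs T hT88 l M (L - su l) (hlT1.trans hl.1) hl.2 (by linarith) (hσ l hl)
    have hw := w3_pos hl0
    have h3 := mul_le_mul_of_nonneg_left h1 hw.le
    refine le_trans (le_of_eq ?_) h3
    ring
  have hm := ha T hTa M hM1 hM2
  have hr := he T hTe M hM1 hM2
  rw [← hL] at hm hr
  have hlow : (Ig M 0 * (L - c0) - (L - c0) - (L - c0) ^ 2 / 2 - Ca) + (ce * (M / T) * NC T (1 / M) - Ce * (1 + L ^ 2 / M)) ≤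
      ∫ u in Ioi (0 : ℝ), Kg M u * QQ T u := by
    have h1 := mul_le_mul_of_nonneg_left hcmp (by positivity : 0 ≤ 1 / T)
    rw [mul_add] at h1
    linarith
  have hq := hp T (by linarith) M
  rw [← hL] at hq
  have hKQ0 := KQ_int hRH hT2 hM1' 0
  have hKQL := KQ_int hRH hT2 hM1' L
  have hsplit := intervalIntegral.integral_interval_add_Ioi hKQ0 hKQL
  have hKL := Kg_int hM1' L
  have hsplitK := intervalIntegral.integral_interval_add_Ioi (Kg_int hM1' 0) hKL
  have hD : ∫ u in Ioi L, Kg M u * (L - c0 - QQ T u) =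
      (L - c0) * (∫ u in Ioi L, Kg M u) - ∫ u in Ioi L, Kg M u * QQ T u := by
    rw [← integral_const_mul, ← integral_sub (hKL.const_mul _) hKQL]
    refine integral_congr_ae (Eventually.of_forall fun u => ?_)
    show Kg M u * (L - c0 - QQ T u) = (L - c0) * Kg M u - Kg M u * QQ T u
    ring
  rw [hD]
  have hKlow := GAsm3_K (by linarith : 0 ≤ L) hM0
  have hIL : ∫ u in Ioi L, Kg M u ≤ Ig M 0 - L + L ^ 3 / (6 * M ^ 2) := by
    unfold Ig
    linarith
  have hq1 : (L - c0) * (∫ u in Ioi L, Kg M u) ≤ (L - c0) * (Ig M 0 - L + L ^ 3 / (6 * M ^ 2)) :=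
    mul_le_mul_of_nonneg_left hIL hq0
  have hLM : 0 ≤ L ^ 2 / M := by positivity
  have hid : (L - c0) * (Ig M 0 - L + L ^ 3 / (6 * M ^ 2)) - (Ig M 0 * (L - c0) - (L - c0) - (L - c0) ^ 2 / 2) +
      (L ^ 2 / 2 - L) = L ^ 4 / (6 * M ^ 2) + c0 ^ 2 / 2 - c0 - c0 * L ^ 3 / (6 * M ^ 2) := by
    field_simp
    ring
  have hcL : -(c0 * L ^ 3 / (6 * M ^ 2)) ≤ |c0| * (L ^ 2 / M) := by
    have h1 : -(c0 * L ^ 3 / (6 * M ^ 2)) = -c0 * (L ^ 3 / (6 * M ^ 2)) := by ring
    rw [h1]
    have h2 : L ^ 3 / (6 * M ^ 2) ≤ L ^ 2 / M := by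
      rw [div_le_div_iff₀ (by positivity) hM0]
      have h3 : L ≤ 6 * M := by linarith
      have h4 : L ^ 3 * M = L ^ 2 * M * L := by ring
      have h5 : L ^ 2 * (6 * M ^ 2) = L ^ 2 * M * (6 * M) := by ring
      rw [h4, h5]
      exact mul_le_mul_of_nonneg_left h3 (by positivity)
    have h3 : 0 ≤ L ^ 3 / (6 * M ^ 2) := by positivity
    calc -c0 * (L ^ 3 / (6 * M ^ 2)) ≤ |c0| * (L ^ 3 / (6 * M ^ 2)) :=
          mul_le_mul_of_nonneg_right (neg_le_abs c0) h3
      _ ≤ |c0| * (L ^ 2 / M) := mul_le_mul_of_nonneg_left h2 (abs_nonneg _)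
  have h2 : -c0 ≤ |c0| := neg_le_abs c0
  have h3 : (Ca + Ce + Cp + c0 ^ 2 + |c0| + 1) * (1 + L ^ 2 / M) = (Ca + Cp) * (1 + L ^ 2 / M) + Ce * (1 + L ^ 2 / M) +
      (c0 ^ 2 + 1) * (L ^ 2 / M) + |c0| * (L ^ 2 / M) + (c0 ^ 2 + |c0| + 1) := by ring
  have h4 : Ca + Cp ≤ (Ca + Cp) * (1 + L ^ 2 / M) := le_mul_of_one_le_right (by positivity) (by linarith)
  have h5 : 0 ≤ (c0 ^ 2 + 1) * (L ^ 2 / M) := by positivity
  rw [h3]
  nlinarith [sq_nonneg c0]

end Pool.Agent.Lib.MP_2a816b_nt.TA
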