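import Pool.Agent.Lib.MP_2a816b_nt.TA.GDefs

open Complex Set Filter Topology MeasureTheory

namespace Pool.Agent.Lib.MP_2a816b_nt.TA

open Pool.Agent.Lib.MP_00e05b_nt Pool.Agent.Lib.MP_00e05b_nt.Mont Pool.Agent.Lib.MP_2a816b_nt.PV

/-- the cosine transform of `v ↦ Kg M (|v| + σ)` -/
noncomputable def Kh (M σ ξ : ℝ) : ℝ := 2 * ∫ v in Ioi (0 : ℝ), Kg M (v + σ) * Real.cos (ξ * v)

/-! ### elementary facts -/

private theorem GKer_pos (M x : ℝ) : 0 < Kg M x := Real.exp_pos _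

private theorem GKer_le_one (M x : ℝ) : Kg M x ≤ 1 := by
  rw [Kg, Real.exp_le_one_iff]
  have : 0 ≤ x ^ 2 / (2 * M ^ 2) := by positivity
  linarith

private theorem GKer_cont (M : ℝ) : Continuous (Kg M) := by
  unfold Kg
  fun_prop

private theorem GKer_eq (M x : ℝ) : Kg M x = Real.exp (-(1 / (2 * M ^ 2)) * x ^ 2) := by
  rw [Kg]
  congr 1
  ring

private theorem GKer_int {M : ℝ} (hM : 1 ≤ M) : Integrable (Kg M) := by
  have h : (0 : ℝ) < 1 / (2 * M ^ 2) := by positivity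
  refine (integrable_exp_neg_mul_sq h).congr (Filter.Eventually.of_forall fun x => ?_)
  exact (GKer_eq M x).symm

theorem Kg_int {M : ℝ} (hM : 1 ≤ M) (σ : ℝ) : IntegrableOn (Kg M) (Ioi σ) :=
  (GKer_int hM).integrableOn

theorem Kg_shift_int {M : ℝ} (hM : 1 ≤ M) (σ a : ℝ) : IntegrableOn (fun v => Kg M (v + σ)) (Ioi a) :=
  ((GKer_int hM).comp_add_right σ).integrableOn

/-- Translation. -/
private theorem GKer_trans (f : ℝ → ℝ) (σ : ℝ) : ∫ v in Ioi (0 : ℝ), f (v + σ) = ∫ x in Ioi σ, f x := by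
  rw [← integral_indicator measurableSet_Ioi, ← integral_indicator measurableSet_Ioi,
    ← integral_add_right_eq_self (μ := volume) (fun x => (Ioi σ).indicator f x) σ]
  refine integral_congr_ae (Filter.Eventually.of_forall fun v => ?_)
  change (Ioi (0 : ℝ)).indicator (fun v => f (v + σ)) v = (Ioi σ).indicator f (v + σ)
  by_cases h : 0 < v
  · rw [indicator_of_mem (show v ∈ Ioi (0 : ℝ) from h), indicator_of_mem]
    exact lt_add_of_pos_left σ h
  · rw [indicator_of_notMem (show v ∉ Ioi (0 : ℝ) from h), indicator_of_notMem]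
    simpa using h

private theorem GKer_I0 {M : ℝ} (hM : 1 ≤ M) : Ig M 0 = M * (Real.sqrt (2 * Real.pi) / 2) := by
  have h := integral_gaussian_Ioi (1 / (2 * M ^ 2))
  have h2 : Ig M 0 = ∫ x in Ioi (0 : ℝ), Real.exp (-(1 / (2 * M ^ 2)) * x ^ 2) := by
    rw [Ig]
    exact integral_congr_ae (Filter.Eventually.of_forall fun x => GKer_eq M x)
  rw [h2, h]
  have h3 : Real.pi / (1 / (2 * M ^ 2)) = M ^ 2 * (2 * Real.pi) := by
    field_simp
  rw [h3, Real.sqrt_mul (by positivity), Real.sqrt_sq (by linarith)]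
  ring

theorem Ig_bounds {M σ : ℝ} (hM : 1 ≤ M) (hσ : 0 ≤ σ) : Ig M 0 - σ ≤ Ig M σ ∧ Ig M σ ≤ Ig M 0 ∧ 0 ≤ Ig M σ ∧
    Ig M 0 ≤ 2 * M ∧ M ≤ Ig M 0 := by
  have h0 : 0 ≤ Ig M σ := setIntegral_nonneg measurableSet_Ioi fun x _ => (GKer_pos M x).le
  have h1 : Ig M 0 = (∫ x in Ioc 0 σ, Kg M x) + Ig M σ := by
    rw [Ig, Ig, ← Ioc_union_Ioi_eq_Ioi hσ, setIntegral_union Ioc_disjoint_Ioi_same
      measurableSet_Ioi (GKer_int hM).integrableOn (GKer_int hM).integrableOn]
  have h2 : 0 ≤ ∫ x in Ioc 0 σ, Kg M x := setIntegral_nonneg measurableSet_Ioc fun x _ => (GKer_pos M x).le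
  have h3 : ∫ x in Ioc 0 σ, Kg M x ≤ σ := by
    have h4 : ∫ x in Ioc 0 σ, Kg M x ≤ ∫ _x in Ioc 0 σ, (1 : ℝ) :=
      setIntegral_mono_on (GKer_int hM).integrableOn (by simp) measurableSet_Ioc
        fun x _ => GKer_le_one M x
    refine h4.trans ?_
    simp [hσ]
  have hs : 2 ≤ Real.sqrt (2 * Real.pi) := by
    rw [Real.le_sqrt' (by norm_num)]
    have := Real.pi_gt_three
    linarith
  have hs' : Real.sqrt (2 * Real.pi) ≤ 4 := by
    rw [Real.sqrt_le_left (by norm_num)]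
    have := Real.pi_lt_four
    linarith
  refine ⟨by linarith, by linarith, h0, ?_, ?_⟩
  · rw [GKer_I0 hM]
    nlinarith
  · rw [GKer_I0 hM]
    nlinarith

set_option linter.unusedVariables false in
theorem Kh_zero {M σ : ℝ} (hM : 1 ≤ M) (hσ : 0 ≤ σ) : Kh M σ 0 = 2 * Ig M σ := by
  rw [Kh, Ig, ← GKer_trans (Kg M) σ]
  simp

/-! ### positivity -/

/-- The Laplace transform of the Gaussian weight on the half line. -/
private noncomputable def GKer_Phi (M : ℝ) (z : ℂ) : ℂ :=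
  ∫ v in Ioi (0 : ℝ), (Kg M v : ℂ) * Complex.exp (-z * v)

private theorem GKer_norm {M : ℝ} {z : ℂ} (hz : 0 ≤ z.re) {v : ℝ} (hv : 0 ≤ v) :
    ‖(Kg M v : ℂ) * Complex.exp (-z * v)‖ ≤ Kg M v := by
  rw [norm_mul, Complex.norm_exp, Complex.norm_real, Real.norm_eq_abs, abs_of_pos (GKer_pos M v)]
  have h1 : (-z * (v : ℂ)).re = -(z.re * v) := by simp
  rw [h1]
  have h2 : Real.exp (-(z.re * v)) ≤ 1 := by
    rw [Real.exp_le_one_iff]
    have := mul_nonneg hz hv
    linarith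
  exact mul_le_of_le_one_right (GKer_pos M v).le h2

private theorem GKer_meas (M : ℝ) (z : ℂ) :
    AEStronglyMeasurable (fun v : ℝ => (Kg M v : ℂ) * Complex.exp (-z * v))
      (volume.restrict (Ioi 0)) := by
  have h : Continuous fun v : ℝ => (Kg M v : ℂ) * Complex.exp (-z * v) :=
    (Complex.continuous_ofReal.comp (GKer_cont M)).mul (by fun_prop)
  exact h.aestronglyMeasurable

private theorem GKer_Phi_int {M : ℝ} (hM : 1 ≤ M) {z : ℂ} (hz : 0 ≤ z.re) :
    Integrable (fun v : ℝ => (Kg M v : ℂ) * Complex.exp (-z * v)) (volume.restrict (Ioi 0)) :=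
  Integrable.mono' (Kg_int hM 0) (GKer_meas M z)
    ((ae_restrict_iff' measurableSet_Ioi).2 (Filter.Eventually.of_forall fun _ hv =>
      GKer_norm hz (le_of_lt hv)))

private theorem GKer_Phi_norm {M : ℝ} (hM : 1 ≤ M) {z : ℂ} (hz : 0 ≤ z.re) :
    ‖GKer_Phi M z‖ ≤ Ig M 0 :=
  norm_integral_le_of_norm_le (Kg_int hM 0)
    ((ae_restrict_iff' measurableSet_Ioi).2 (Filter.Eventually.of_forall fun _ hv =>
      GKer_norm hz (le_of_lt hv)))

private theorem GKer_Phi_cont {M : ℝ} (hM : 1 ≤ M) :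
    ContinuousOn (GKer_Phi M) {z : ℂ | 0 ≤ z.re} := by
  refine continuousOn_of_dominated (bound := Kg M) (fun z _ => GKer_meas M z) (fun z hz => ?_)
    (Kg_int hM 0) (Filter.Eventually.of_forall fun v => ?_)
  · exact (ae_restrict_iff' measurableSet_Ioi).2 (Filter.Eventually.of_forall fun _ hv =>
      GKer_norm hz (le_of_lt hv))
  · exact Continuous.continuousOn (by fun_prop)

/-- `x ^ 2 Kg M x` is bounded by a wider Gaussian. -/
private theorem GKer_sq {M : ℝ} (hM : 1 ≤ M) (x : ℝ) :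
    x ^ 2 * Kg M x ≤ 4 * M ^ 2 * Real.exp (-(1 / (4 * M ^ 2)) * x ^ 2) := by
  have h1 : x ^ 2 / (4 * M ^ 2) ≤ Real.exp (x ^ 2 / (4 * M ^ 2)) := by
    have := Real.add_one_le_exp (x ^ 2 / (4 * M ^ 2))
    linarith
  have h2 : Kg M x = Real.exp (-(1 / (4 * M ^ 2)) * x ^ 2) * Real.exp (-(x ^ 2 / (4 * M ^ 2))) := by
    rw [Kg, ← Real.exp_add]
    congr 1
    field_simp
    ring
  have h3 : x ^ 2 * Real.exp (-(x ^ 2 / (4 * M ^ 2))) ≤ 4 * M ^ 2 := by
    rw [Real.exp_neg, ← div_eq_mul_inv, div_le_iff₀ (Real.exp_pos _)]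
    rw [div_le_iff₀ (by positivity)] at h1
    linarith
  calc x ^ 2 * Kg M x = (x ^ 2 * Real.exp (-(x ^ 2 / (4 * M ^ 2)))) *
        Real.exp (-(1 / (4 * M ^ 2)) * x ^ 2) := by rw [h2]; ring
    _ ≤ _ := mul_le_mul_of_nonneg_right h3 (Real.exp_pos _).le

private theorem GKer_sq_int {M : ℝ} (hM : 1 ≤ M) : Integrable (fun x => x ^ 2 * Kg M x) := by
  have h : (0 : ℝ) < 1 / (4 * M ^ 2) := by positivity
  refine Integrable.mono' ((integrable_exp_neg_mul_sq h).const_mul (4 * M ^ 2))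
    (((continuous_pow 2).mul (GKer_cont M)).aestronglyMeasurable)
    (Filter.Eventually.of_forall fun x => ?_)
  rw [Real.norm_eq_abs, abs_of_nonneg (mul_nonneg (sq_nonneg x) (GKer_pos M x).le)]
  exact GKer_sq hM x

private theorem GKer_Phi_diff {M : ℝ} (hM : 1 ≤ M) :
    DifferentiableOn ℂ (GKer_Phi M) {z : ℂ | 0 < z.re} := by
  intro z hz
  have hopen : IsOpen {z : ℂ | 0 < z.re} := isOpen_lt continuous_const Complex.continuous_re
  have hb : Integrable (fun v : ℝ => Kg M v + v ^ 2 * Kg M v) (volume.restrict (Ioi 0)) :=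
    ((GKer_int hM).add (GKer_sq_int hM)).restrict
  have h := hasDerivAt_integral_of_dominated_loc_of_deriv_le (𝕜 := ℂ)
    (μ := volume.restrict (Ioi (0 : ℝ))) (s := {z : ℂ | 0 < z.re})
    (F := fun (z : ℂ) (v : ℝ) => (Kg M v : ℂ) * Complex.exp (-z * v))
    (F' := fun (z : ℂ) (v : ℝ) => (Kg M v : ℂ) * (-(v : ℂ) * Complex.exp (-z * v)))
    (bound := fun v => Kg M v + v ^ 2 * Kg M v)
    (hopen.mem_nhds hz) (Filter.Eventually.of_forall fun z => GKer_meas M z)
    (GKer_Phi_int hM (le_of_lt hz)) ?_ ?_ hb ?_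
  · exact h.2.differentiableAt.differentiableWithinAt
  · have h : Continuous fun v : ℝ => (Kg M v : ℂ) * (-(v : ℂ) * Complex.exp (-z * v)) :=
      (Complex.continuous_ofReal.comp (GKer_cont M)).mul (by fun_prop)
    exact h.aestronglyMeasurable
  · refine (ae_restrict_iff' measurableSet_Ioi).2 (Filter.Eventually.of_forall fun v hv w hw => ?_)
    have hv' : 0 ≤ v := le_of_lt hv
    have e : (Kg M v : ℂ) * (-(v : ℂ) * Complex.exp (-w * v)) =
        -(v : ℂ) * ((Kg M v : ℂ) * Complex.exp (-w * v)) := by ring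
    rw [e, norm_mul, norm_neg, Complex.norm_real, Real.norm_eq_abs, abs_of_nonneg hv']
    have h1 := mul_le_mul_of_nonneg_left (GKer_norm (M := M) (le_of_lt hw) hv') hv'
    refine h1.trans ?_
    have h2 := (GKer_pos M v).le
    nlinarith [mul_nonneg (sq_nonneg (v - 1)) h2, mul_nonneg hv' h2, mul_nonneg (sq_nonneg v) h2]
  · refine Filter.Eventually.of_forall fun v w _ => ?_
    have h1 : HasDerivAt (fun w : ℂ => -w * (v : ℂ)) (-(v : ℂ)) w := by
      simpa using ((hasDerivAt_id w).neg.mul_const (v : ℂ))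
    have h2 := (h1.cexp).const_mul (Kg M v : ℂ)
    exact h2.congr_deriv (by ring)

private theorem GKer_Phi_line {M : ℝ} (hM : 1 ≤ M) (x : ℝ) : 0 ≤ (GKer_Phi M (x * I)).re := by
  have hint := GKer_Phi_int hM (z := x * I) (by simp)
  have h1 : (GKer_Phi M (x * I)).re = ∫ v in Ioi (0 : ℝ), Kg M v * Real.cos (x * v) := by
    rw [GKer_Phi, ← Complex.reCLM_apply, ← ContinuousLinearMap.integral_comp_comm _ hint]
    refine integral_congr_ae (Filter.Eventually.of_forall fun v => ?_)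
    change ((Kg M v : ℂ) * Complex.exp (-(x * I) * v)).re = _
    rw [Complex.re_ofReal_mul, Complex.exp_re]
    simp
  have h2 : ∫ v : ℝ, Kg M v * Real.cos (x * v) = 2 * ∫ v in Ioi (0 : ℝ), Kg M v * Real.cos (x * v) := by
    rw [← integral_comp_abs (f := fun v => Kg M v * Real.cos (x * v))]
    refine integral_congr_ae (Filter.Eventually.of_forall fun v => ?_)
    change Kg M v * Real.cos (x * v) = Kg M |v| * Real.cos (x * |v|)
    rcases abs_cases v with ⟨h, _⟩ | ⟨h, _⟩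
    · rw [h]
    · rw [h, mul_neg, Real.cos_neg]
      congr 1
      rw [Kg, Kg]
      ring_nf
  have hb : (0 : ℝ) < 1 / (2 * M ^ 2) := by positivity
  have h3 := fourierIntegral_gaussian (b := ((1 / (2 * M ^ 2) : ℝ) : ℂ)) (by rw [Complex.ofReal_re]; exact hb) (x : ℂ)
  have h4 : ∫ v : ℝ, Kg M v * Real.cos (x * v) =
      (∫ v : ℝ, Complex.exp (I * x * v) * Complex.exp (-((1 / (2 * M ^ 2) : ℝ) : ℂ) * v ^ 2)).re := by
    have hint2 : Integrable (fun v : ℝ =>
        Complex.exp (I * x * v) * Complex.exp (-((1 / (2 * M ^ 2) : ℝ) : ℂ) * v ^ 2)) := by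
      refine Integrable.mono' (GKer_int hM) (Continuous.aestronglyMeasurable (by fun_prop))
        (Filter.Eventually.of_forall fun v => ?_)
      rw [norm_mul, Complex.norm_exp, Complex.norm_exp]
      have e1 : (I * (x : ℂ) * (v : ℂ)).re = 0 := by simp
      have e2 : (-((1 / (2 * M ^ 2) : ℝ) : ℂ) * (v : ℂ) ^ 2).re = -(1 / (2 * M ^ 2)) * v ^ 2 := by
        rw [← Complex.ofReal_neg, ← Complex.ofReal_pow, ← Complex.ofReal_mul, Complex.ofReal_re]
      rw [e1, e2, Real.exp_zero, one_mul, GKer_eq]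
    rw [← Complex.reCLM_apply, ← ContinuousLinearMap.integral_comp_comm _ hint2]
    refine integral_congr_ae (Filter.Eventually.of_forall fun v => ?_)
    change _ = (Complex.exp (I * x * v) * Complex.exp (-((1 / (2 * M ^ 2) : ℝ) : ℂ) * v ^ 2)).re
    have e2 : Complex.exp (-((1 / (2 * M ^ 2) : ℝ) : ℂ) * (v : ℂ) ^ 2) = ((Kg M v : ℝ) : ℂ) := by
      rw [GKer_eq, Complex.ofReal_exp]
      congr 1
      push_cast
      ring
    rw [e2, mul_comm, Complex.re_ofReal_mul, Complex.exp_re]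
    simp
  have h5 : 0 ≤ ∫ v : ℝ, Kg M v * Real.cos (x * v) := by
    rw [h4, h3]
    have e1 : ((Real.pi : ℂ) / ((1 / (2 * M ^ 2) : ℝ) : ℂ)) ^ (1 / 2 : ℂ) =
        (((Real.pi / (1 / (2 * M ^ 2))) ^ (1 / 2 : ℝ) : ℝ) : ℂ) := by
      rw [Complex.ofReal_cpow (by positivity)]
      push_cast
      rfl
    have e2 : Complex.exp (-(x : ℂ) ^ 2 / (4 * ((1 / (2 * M ^ 2) : ℝ) : ℂ))) =
        ((Real.exp (-x ^ 2 / (4 * (1 / (2 * M ^ 2)))) : ℝ) : ℂ) := by
      rw [Complex.ofReal_exp]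
      congr 1
      push_cast
      rfl
    rw [e1, e2, ← Complex.ofReal_mul, Complex.ofReal_re]
    positivity
  rw [h1]
  linarith

private theorem GKer_Phi_re {M : ℝ} (hM : 1 ≤ M) {z : ℂ} (hz : 0 ≤ z.re) :
    0 ≤ (GKer_Phi M z).re := by
  have hcl : closure {z : ℂ | 0 < z.re} ⊆ {z : ℂ | 0 ≤ z.re} :=
    closure_minimal (fun z (hz : 0 < z.re) => le_of_lt hz)
      (isClosed_le continuous_const Complex.continuous_re)
  have hd : DiffContOnCl ℂ (fun z => Complex.exp (-GKer_Phi M z)) {z : ℂ | 0 < z.re} :=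
    ⟨((GKer_Phi_diff hM).neg).cexp, (((GKer_Phi_cont hM).mono hcl).neg).cexp⟩
  have hn : ∀ z : ℂ, 0 ≤ z.re → ‖Complex.exp (-GKer_Phi M z)‖ ≤ Real.exp (Ig M 0) := by
    intro z hz
    rw [Complex.norm_exp, Real.exp_le_exp, Complex.neg_re]
    have h1 := Complex.abs_re_le_norm (GKer_Phi M z)
    have h2 := GKer_Phi_norm hM hz
    have h3 := neg_abs_le (GKer_Phi M z).re
    linarith
  have key : ‖Complex.exp (-GKer_Phi M z)‖ ≤ 1 := by
    refine PhragmenLindelof.right_half_plane_of_bounded_on_real (C := 1)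
      (f := fun z => Complex.exp (-GKer_Phi M z)) hd
      ⟨0, by norm_num, 0, ?_⟩ ?_ (fun x => ?_) hz
    · refine Asymptotics.IsBigO.of_bound (Real.exp (Ig M 0)) ?_
      refine Filter.Eventually.filter_mono inf_le_right ?_
      refine Filter.eventually_principal.2 fun z hz => ?_
      refine (hn z (le_of_lt hz)).trans ?_
      simp
    · refine Filter.isBoundedUnder_of_eventually_le (a := Real.exp (Ig M 0)) ?_
      filter_upwards [Filter.eventually_ge_atTop (0 : ℝ)] with x hx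
      exact hn x (by simpa using hx)
    · rw [Complex.norm_exp, Real.exp_le_one_iff, Complex.neg_re]
      have := GKer_Phi_line hM x
      linarith
  rw [Complex.norm_exp, Real.exp_le_one_iff, Complex.neg_re] at key
  linarith

theorem Kh_nonneg {M σ : ℝ} (hM : 1 ≤ M) (hσ : 0 ≤ σ) (ξ : ℝ) : 0 ≤ Kh M σ ξ := by
  have hM0 : (0 : ℝ) < M := by linarith
  have hz : 0 ≤ ((σ / M ^ 2 : ℝ) + ξ * I : ℂ).re := by
    simp only [Complex.add_re, Complex.ofReal_re, Complex.mul_re, Complex.I_re, Complex.ofReal_im,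
      Complex.I_im]
    have : 0 ≤ σ / M ^ 2 := by positivity
    linarith
  have h1 := GKer_Phi_re hM hz
  have h2 : (GKer_Phi M ((σ / M ^ 2 : ℝ) + ξ * I)).re =
      ∫ v in Ioi (0 : ℝ), Kg M v * (Real.exp (-(σ / M ^ 2) * v) * Real.cos (ξ * v)) := by
    rw [GKer_Phi, ← Complex.reCLM_apply, ← ContinuousLinearMap.integral_comp_comm _
      (GKer_Phi_int hM hz)]
    refine integral_congr_ae (Filter.Eventually.of_forall fun v => ?_)
    change ((Kg M v : ℂ) * Complex.exp (-((σ / M ^ 2 : ℝ) + ξ * I) * v)).re = _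
    rw [Complex.re_ofReal_mul, Complex.exp_re]
    have e1 : (-(((σ / M ^ 2 : ℝ) : ℂ) + ξ * I) * (v : ℂ)).re = -(σ / M ^ 2) * v := by
      simp only [neg_add_rev, Complex.mul_re, Complex.add_re, Complex.neg_re, Complex.ofReal_re,
        Complex.I_re, Complex.ofReal_im, Complex.I_im, Complex.add_im, Complex.neg_im, Complex.mul_im]
      ring
    have e2 : (-(((σ / M ^ 2 : ℝ) : ℂ) + ξ * I) * (v : ℂ)).im = -(ξ * v) := by
      simp only [neg_add_rev, Complex.mul_re, Complex.add_re, Complex.neg_re, Complex.ofReal_re,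
        Complex.I_re, Complex.ofReal_im, Complex.I_im, Complex.add_im, Complex.neg_im, Complex.mul_im]
      ring
    rw [e1, e2, Real.cos_neg]
  have h3 : Kh M σ ξ = 2 * (Real.exp (-(σ ^ 2 / (2 * M ^ 2))) *
      ∫ v in Ioi (0 : ℝ), Kg M v * (Real.exp (-(σ / M ^ 2) * v) * Real.cos (ξ * v))) := by
    rw [Kh]
    refine congrArg (fun y : ℝ => 2 * y) ?_
    rw [← integral_const_mul]
    refine integral_congr_ae (Filter.Eventually.of_forall fun v => ?_)
    change Kg M (v + σ) * Real.cos (ξ * v) = _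
    have e : Kg M (v + σ) = Real.exp (-(σ ^ 2 / (2 * M ^ 2))) * Kg M v *
        Real.exp (-(σ / M ^ 2) * v) := by
      rw [Kg, Kg, ← Real.exp_add, ← Real.exp_add]
      congr 1
      field_simp
      ring
    rw [e]
    ring
  rw [h3, ← h2]
  have := Real.exp_pos (-(σ ^ 2 / (2 * M ^ 2)))
  positivity

/-! ### decay and width -/

private theorem GKer_deriv (M σ v : ℝ) :
    HasDerivAt (fun v => Kg M (v + σ)) (-((v + σ) / M ^ 2) * Kg M (v + σ)) v := by
  have h1 : HasDerivAt (fun v : ℝ => -((v + σ) ^ 2 / (2 * M ^ 2))) (-((v + σ) / M ^ 2)) v := by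
    have h := ((((hasDerivAt_id v).add_const σ).pow 2).div_const (2 * M ^ 2)).neg
    refine h.congr_deriv ?_
    simp only [id, Nat.cast_ofNat]
    rcases eq_or_ne M 0 with rfl | hM
    · simp
    · field_simp
      ring
  refine h1.exp.congr_deriv ?_
  rw [Kg]
  ring

/-- `(1 + x) Kg M x` tends to zero. -/
private theorem GKer_tendsto {M : ℝ} (hM : 1 ≤ M) (σ : ℝ) :
    Tendsto (fun v => (1 + (v + σ) ^ 2) * Kg M (v + σ)) atTop (𝓝 0) := by
  have h : (0 : ℝ) < 1 / (4 * M ^ 2) := by positivity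
  have h1 : Tendsto (fun x : ℝ => 5 * M ^ 2 * Real.exp (-(1 / (4 * M ^ 2)) * x ^ 2)) atTop (𝓝 0) := by
    have h2 : Tendsto (fun x : ℝ => (1 / (4 * M ^ 2)) * x ^ 2) atTop atTop :=
      Tendsto.const_mul_atTop h (tendsto_pow_atTop (by norm_num))
    have h3 := (Real.tendsto_exp_neg_atTop_nhds_zero.comp h2).const_mul (5 * M ^ 2)
    rw [mul_zero] at h3
    refine h3.congr fun x => ?_
    simp only [Function.comp]
    rw [neg_mul]
  have h2 : Tendsto (fun x : ℝ => (1 + x ^ 2) * Kg M x) atTop (𝓝 0) := by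
    refine squeeze_zero (fun x => mul_nonneg (by positivity) (GKer_pos M x).le) (fun x => ?_) h1
    have h4 := GKer_sq hM x
    have h5 : Kg M x ≤ Real.exp (-(1 / (4 * M ^ 2)) * x ^ 2) := by
      rw [Kg, Real.exp_le_exp]
      have : 0 ≤ x ^ 2 / (4 * M ^ 2) := by positivity
      have e : -(x ^ 2 / (2 * M ^ 2)) = -(1 / (4 * M ^ 2)) * x ^ 2 - x ^ 2 / (4 * M ^ 2) := by
        field_simp
        ring
      rw [e]
      linarith
    have h6 : 1 ≤ M ^ 2 := one_le_pow₀ hM
    have h7 := Real.exp_pos (-(1 / (4 * M ^ 2)) * x ^ 2)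
    nlinarith
  exact h2.comp (tendsto_atTop_add_const_right atTop σ tendsto_id)

private theorem GKer_sq_shift {M : ℝ} (hM : 1 ≤ M) (σ : ℝ) :
    Integrable (fun v => (v + σ) ^ 2 * Kg M (v + σ)) :=
  (GKer_sq_int hM).comp_add_right σ

theorem Kh_dec : ∃ C : ℝ, 0 ≤ C ∧ ∀ M σ ξ : ℝ, 1 ≤ M → 0 ≤ σ → Kh M σ ξ * ξ ^ 2 ≤ C / M := by
  refine ⟨22, by norm_num, fun M σ ξ hM hσ => ?_⟩
  have hM0 : (0 : ℝ) < M := by linarith
  set k : ℝ → ℝ := fun v => Kg M (v + σ) with hk
  set k2 : ℝ → ℝ := fun v => ((v + σ) ^ 2 / M ^ 4 - 1 / M ^ 2) * Kg M (v + σ) with hk2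
  have hk2i : Integrable k2 := by
    have h := ((GKer_sq_shift hM σ).const_mul (1 / M ^ 4)).sub
      (((GKer_int hM).comp_add_right σ).const_mul (1 / M ^ 2))
    refine h.congr (Filter.Eventually.of_forall fun v => ?_)
    simp only [hk2, Pi.sub_apply]
    ring
  have hkc : Integrable (fun v => k v * Real.cos (ξ * v)) := by
    refine ((GKer_int hM).comp_add_right σ).mul_bdd (c := 1)
      (Continuous.aestronglyMeasurable (by fun_prop)) (Filter.Eventually.of_forall fun v => ?_)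
    rw [Real.norm_eq_abs]
    exact Real.abs_cos_le_one _
  have hk2c : Integrable (fun v => k2 v * Real.cos (ξ * v)) := by
    refine hk2i.mul_bdd (c := 1)
      (Continuous.aestronglyMeasurable (by fun_prop)) (Filter.Eventually.of_forall fun v => ?_)
    rw [Real.norm_eq_abs]
    exact Real.abs_cos_le_one _
  have hd : ∀ v : ℝ, HasDerivAt (fun v => k v * (ξ * Real.sin (ξ * v)) +
      (-((v + σ) / M ^ 2) * k v) * Real.cos (ξ * v))
      (ξ ^ 2 * (k v * Real.cos (ξ * v)) + k2 v * Real.cos (ξ * v)) v := by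
    intro v
    have h1 := GKer_deriv M σ v
    have h2 : HasDerivAt (fun v : ℝ => ξ * v) ξ v := by
      simpa using (hasDerivAt_id v).const_mul ξ
    have h3 : HasDerivAt (fun v : ℝ => -((v + σ) / M ^ 2)) (-(1 / M ^ 2)) v :=
      (((hasDerivAt_id v).add_const σ).div_const (M ^ 2)).neg
    have h4 := (h1.mul (h2.sin.const_mul ξ)).add ((h3.mul h1).mul h2.cos)
    refine h4.congr_deriv ?_
    simp only [hk, hk2, Pi.mul_apply]
    field_simp
    ring
  have hlim : Tendsto (fun v => k v * (ξ * Real.sin (ξ * v)) +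
      (-((v + σ) / M ^ 2) * k v) * Real.cos (ξ * v)) atTop (𝓝 0) := by
    have h1 := (GKer_tendsto hM σ).const_mul (|ξ| + 1)
    rw [mul_zero] at h1
    refine squeeze_zero_norm (fun v => ?_) h1
    rw [Real.norm_eq_abs]
    have hkp : 0 < k v := GKer_pos M _
    have hM1 : 1 ≤ M ^ 2 := one_le_pow₀ hM
    have a1 : |k v * (ξ * Real.sin (ξ * v))| ≤ |ξ| * k v := by
      rw [abs_mul, abs_mul, abs_of_pos hkp]
      have := Real.abs_sin_le_one (ξ * v)
      have := mul_le_mul_of_nonneg_left this (abs_nonneg ξ)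
      nlinarith
    have a2 : |(-((v + σ) / M ^ 2) * k v) * Real.cos (ξ * v)| ≤ (1 + (v + σ) ^ 2) * k v := by
      rw [abs_mul, abs_mul, abs_neg, abs_of_pos hkp, abs_div, abs_of_pos (by positivity : 0 < M ^ 2)]
      have b1 : |v + σ| / M ^ 2 ≤ 1 + (v + σ) ^ 2 := by
        rw [div_le_iff₀ (by positivity)]
        have : |v + σ| ≤ 1 + (v + σ) ^ 2 := by
          rw [← sq_abs (v + σ)]
          nlinarith [sq_nonneg (|v + σ| - 1), abs_nonneg (v + σ)]
        nlinarith [sq_nonneg (v + σ)]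
      have b2 := Real.abs_cos_le_one (ξ * v)
      have b3 : 0 ≤ |v + σ| / M ^ 2 * k v := by positivity
      calc |v + σ| / M ^ 2 * k v * |Real.cos (ξ * v)| ≤ |v + σ| / M ^ 2 * k v * 1 :=
            mul_le_mul_of_nonneg_left b2 b3
        _ ≤ (1 + (v + σ) ^ 2) * k v := by
            rw [mul_one]
            exact mul_le_mul_of_nonneg_right b1 hkp.le
    have a3 := abs_add_le (k v * (ξ * Real.sin (ξ * v)))
      ((-((v + σ) / M ^ 2) * k v) * Real.cos (ξ * v))
    have a4 : |ξ| * k v ≤ |ξ| * ((1 + (v + σ) ^ 2) * k v) := by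
      refine mul_le_mul_of_nonneg_left ?_ (abs_nonneg ξ)
      nlinarith [sq_nonneg (v + σ), mul_nonneg (sq_nonneg (v + σ)) hkp.le]
    change _ ≤ (|ξ| + 1) * ((1 + (v + σ) ^ 2) * k v)
    linarith
  have key := integral_Ioi_of_hasDerivAt_of_tendsto' (a := 0) (fun v _ => hd v)
    ((hkc.const_mul (ξ ^ 2)).add hk2c).integrableOn hlim
  rw [integral_add (hkc.const_mul (ξ ^ 2)).integrableOn hk2c.integrableOn, integral_const_mul] at key
  have e0 : k 0 * (ξ * Real.sin (ξ * 0)) + (-((0 + σ) / M ^ 2) * k 0) * Real.cos (ξ * 0) =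
      -(σ / M ^ 2 * k 0) := by
    rw [mul_zero, Real.sin_zero, Real.cos_zero, zero_add]
    ring
  rw [e0] at key
  have b1 : σ / M ^ 2 * k 0 ≤ 1 / M := by
    have h1 : σ / M ≤ Real.exp (σ ^ 2 / (2 * M ^ 2)) := by
      have h2 := Real.add_one_le_exp (σ ^ 2 / (2 * M ^ 2))
      have h3 : σ ^ 2 / (2 * M ^ 2) = (σ / M) ^ 2 / 2 := by
        field_simp
      rw [h3] at h2 ⊢
      nlinarith [sq_nonneg (σ / M - 1)]
    have h2 : k 0 = (Real.exp (σ ^ 2 / (2 * M ^ 2)))⁻¹ := by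
      simp only [hk]
      rw [zero_add, Kg, Real.exp_neg]
    have h3 : σ / M * k 0 ≤ 1 := by
      rw [h2, ← div_eq_mul_inv, div_le_one (Real.exp_pos _)]
      exact h1
    calc σ / M ^ 2 * k 0 = (σ / M * k 0) / M := by
          field_simp
      _ ≤ 1 / M := div_le_div_of_nonneg_right h3 hM0.le
  have b2 : -(∫ v in Ioi (0 : ℝ), k2 v * Real.cos (ξ * v)) ≤ 10 / M := by
    have hg : (0 : ℝ) < 1 / (4 * M ^ 2) := by positivity
    have hgi : Integrable (fun v : ℝ => 5 / M ^ 2 * Real.exp (-(1 / (4 * M ^ 2)) * v ^ 2)) :=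
      (integrable_exp_neg_mul_sq hg).const_mul _
    have h1 : ‖∫ v in Ioi (0 : ℝ), k2 v * Real.cos (ξ * v)‖ ≤
        ∫ v in Ioi (0 : ℝ), 5 / M ^ 2 * Real.exp (-(1 / (4 * M ^ 2)) * v ^ 2) := by
      refine norm_integral_le_of_norm_le hgi.integrableOn ?_
      refine (ae_restrict_iff' measurableSet_Ioi).2 (Filter.Eventually.of_forall fun v hv => ?_)
      have hv' : 0 ≤ v := le_of_lt hv
      have c1 : |k2 v| ≤ 5 / M ^ 2 * Real.exp (-(1 / (4 * M ^ 2)) * (v + σ) ^ 2) := by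
        have hkp := GKer_pos M (v + σ)
        simp only [hk2]
        rw [abs_mul, abs_of_pos hkp]
        have d1 : |(v + σ) ^ 2 / M ^ 4 - 1 / M ^ 2| ≤ (v + σ) ^ 2 / M ^ 4 + 1 / M ^ 2 := by
          rw [abs_le]
          have f1 : 0 ≤ (v + σ) ^ 2 / M ^ 4 := by positivity
          have f2 : 0 ≤ 1 / M ^ 2 := by positivity
          constructor <;> linarith
        have d2 := GKer_sq hM (v + σ)
        have d3 : Kg M (v + σ) ≤ Real.exp (-(1 / (4 * M ^ 2)) * (v + σ) ^ 2) := by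
          rw [Kg, Real.exp_le_exp]
          have : 0 ≤ (v + σ) ^ 2 / (4 * M ^ 2) := by positivity
          have e : -((v + σ) ^ 2 / (2 * M ^ 2)) =
              -(1 / (4 * M ^ 2)) * (v + σ) ^ 2 - (v + σ) ^ 2 / (4 * M ^ 2) := by
            field_simp
            ring
          rw [e]
          linarith
        calc |(v + σ) ^ 2 / M ^ 4 - 1 / M ^ 2| * Kg M (v + σ) ≤
              ((v + σ) ^ 2 / M ^ 4 + 1 / M ^ 2) * Kg M (v + σ) :=
                mul_le_mul_of_nonneg_right d1 hkp.le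
          _ = 1 / M ^ 4 * ((v + σ) ^ 2 * Kg M (v + σ)) + 1 / M ^ 2 * Kg M (v + σ) := by ring
          _ ≤ 1 / M ^ 4 * (4 * M ^ 2 * Real.exp (-(1 / (4 * M ^ 2)) * (v + σ) ^ 2)) +
              1 / M ^ 2 * Real.exp (-(1 / (4 * M ^ 2)) * (v + σ) ^ 2) :=
                add_le_add (mul_le_mul_of_nonneg_left d2 (by positivity))
                  (mul_le_mul_of_nonneg_left d3 (by positivity))
          _ = _ := by
              field_simp
              ring
      have c2 : Real.exp (-(1 / (4 * M ^ 2)) * (v + σ) ^ 2) ≤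
          Real.exp (-(1 / (4 * M ^ 2)) * v ^ 2) := by
        rw [Real.exp_le_exp]
        have : v ^ 2 ≤ (v + σ) ^ 2 := by nlinarith
        have := mul_le_mul_of_nonneg_left this hg.le
        linarith
      rw [norm_mul, Real.norm_eq_abs, Real.norm_eq_abs]
      calc |k2 v| * |Real.cos (ξ * v)| ≤ |k2 v| * 1 :=
            mul_le_mul_of_nonneg_left (Real.abs_cos_le_one _) (abs_nonneg _)
        _ ≤ 5 / M ^ 2 * Real.exp (-(1 / (4 * M ^ 2)) * (v + σ) ^ 2) := by rw [mul_one]; exact c1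
        _ ≤ _ := mul_le_mul_of_nonneg_left c2 (by positivity)
    rw [integral_const_mul, integral_gaussian_Ioi] at h1
    have h2 : Real.pi / (1 / (4 * M ^ 2)) = (2 * M) ^ 2 * Real.pi := by
      field_simp
      ring
    rw [h2, Real.sqrt_mul (by positivity), Real.sqrt_sq (by positivity)] at h1
    have h3 : Real.sqrt Real.pi ≤ 2 := by
      rw [Real.sqrt_le_left (by norm_num)]
      have := Real.pi_lt_four
      linarith
    have h4 : 5 / M ^ 2 * (2 * M * Real.sqrt Real.pi / 2) = 5 / M * Real.sqrt Real.pi := by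
      field_simp
    rw [h4] at h1
    have h5 : 5 / M * Real.sqrt Real.pi ≤ 5 / M * 2 := mul_le_mul_of_nonneg_left h3 (by positivity)
    have h6 := neg_abs_le (∫ v in Ioi (0 : ℝ), k2 v * Real.cos (ξ * v))
    rw [Real.norm_eq_abs] at h1
    have h7 : 5 / M * 2 = 10 / M := by ring
    linarith
  have e1 : Kh M σ ξ * ξ ^ 2 = 2 * (ξ ^ 2 * ∫ v in Ioi (0 : ℝ), k v * Real.cos (ξ * v)) := by
    rw [Kh]
    ring
  have e2 : 22 / M = 2 * (1 / M + 10 / M) := by ring
  rw [e1, e2]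
  linarith

theorem Kh_half {M σ ξ : ℝ} (hM : 1 ≤ M) (hσ : 0 ≤ σ) (hξ : |ξ| ≤ 1 / M) : Kh M σ 0 / 2 ≤ Kh M σ ξ := by
  have hM0 : (0 : ℝ) < M := by linarith
  set k : ℝ → ℝ := fun v => Kg M (v + σ) with hk
  have hki : Integrable k := (GKer_int hM).comp_add_right σ
  have hkc : Integrable (fun v => k v * Real.cos (ξ * v)) := by
    refine hki.mul_bdd (c := 1)
      (Continuous.aestronglyMeasurable (by fun_prop)) (Filter.Eventually.of_forall fun v => ?_)
    rw [Real.norm_eq_abs]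
    exact Real.abs_cos_le_one _
  have hd : ∀ v : ℝ, HasDerivAt (fun v => v * k v) (k v - v * ((v + σ) / M ^ 2) * k v) v := by
    intro v
    have h1 := (hasDerivAt_id v).mul (GKer_deriv M σ v)
    refine h1.congr_deriv ?_
    simp only [hk, id]
    ring
  have hint : IntegrableOn (fun v => k v - v * ((v + σ) / M ^ 2) * k v) (Ioi 0) := by
    refine Integrable.sub hki.integrableOn ?_
    refine Integrable.mono' (g := fun v => 1 / M ^ 2 * ((v + σ) ^ 2 * Kg M (v + σ)))
      ((GKer_sq_shift hM σ).const_mul _).integrableOn ?_ ?_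
    · refine Continuous.aestronglyMeasurable ?_
      have := GKer_cont M
      simp only [hk]
      fun_prop
    · refine (ae_restrict_iff' measurableSet_Ioi).2 (Filter.Eventually.of_forall fun v hv => ?_)
      have hv' : 0 ≤ v := le_of_lt hv
      have hkp := GKer_pos M (v + σ)
      rw [Real.norm_eq_abs, abs_of_nonneg (by simp only [hk]; positivity)]
      simp only [hk]
      have h1 : v * (v + σ) ≤ (v + σ) ^ 2 := by nlinarith
      calc v * ((v + σ) / M ^ 2) * Kg M (v + σ) = 1 / M ^ 2 * ((v * (v + σ)) * Kg M (v + σ)) := by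
            ring
        _ ≤ _ := mul_le_mul_of_nonneg_left (mul_le_mul_of_nonneg_right h1 hkp.le) (by positivity)
  have hlim : Tendsto (fun v => v * k v) atTop (𝓝 0) := by
    refine squeeze_zero' ?_ ?_ (GKer_tendsto hM σ)
    · filter_upwards [Filter.eventually_ge_atTop (0 : ℝ)] with v hv
      exact mul_nonneg hv (GKer_pos M _).le
    · filter_upwards [Filter.eventually_ge_atTop (0 : ℝ)] with v hv
      refine mul_le_mul_of_nonneg_right ?_ (GKer_pos M _).le
      nlinarith [sq_nonneg (v + σ - 1)]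
  have key := integral_Ioi_of_hasDerivAt_of_tendsto' (a := 0) (fun v _ => hd v) hint hlim
  rw [zero_mul, sub_zero] at key
  have h1 : ∀ v ∈ Ioi (0 : ℝ), (1 / 2) * k v + (1 / 2) * (k v - v * ((v + σ) / M ^ 2) * k v) ≤
      k v * Real.cos (ξ * v) := by
    intro v hv
    have hv' : 0 ≤ v := le_of_lt hv
    have hkp : 0 < k v := GKer_pos M (v + σ)
    have h2 := Real.one_sub_sq_div_two_le_cos (x := ξ * v)
    have h3 : (ξ * v) ^ 2 ≤ v * ((v + σ) / M ^ 2) := by
      have h4 : ξ ^ 2 ≤ (1 / M) ^ 2 := by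
        rw [← sq_abs ξ]
        exact pow_le_pow_left₀ (abs_nonneg ξ) hξ 2
      calc (ξ * v) ^ 2 = ξ ^ 2 * v ^ 2 := by ring
        _ ≤ (1 / M) ^ 2 * v ^ 2 := mul_le_mul_of_nonneg_right h4 (sq_nonneg v)
        _ = v * (v / M ^ 2) := by ring
        _ ≤ v * ((v + σ) / M ^ 2) := by
            refine mul_le_mul_of_nonneg_left ?_ hv'
            exact div_le_div_of_nonneg_right (by linarith) (by positivity)
    have h5 := mul_le_mul_of_nonneg_left h2 hkp.le
    nlinarith [mul_le_mul_of_nonneg_left h3 hkp.le]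
  have h2 : ∫ v in Ioi (0 : ℝ), ((1 / 2) * k v + (1 / 2) * (k v - v * ((v + σ) / M ^ 2) * k v)) ≤
      ∫ v in Ioi (0 : ℝ), k v * Real.cos (ξ * v) := setIntegral_mono_on ((hki.integrableOn.const_mul (1 / 2)).add (hint.const_mul (1 / 2)))
    hkc.integrableOn measurableSet_Ioi h1
  rw [integral_add (hki.integrableOn.const_mul (1 / 2)) (hint.const_mul (1 / 2)),
    integral_const_mul, integral_const_mul, key, mul_zero, add_zero] at h2
  have e0 : Kh M σ 0 = 2 * ∫ v in Ioi (0 : ℝ), k v := by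
    rw [Kh]
    simp [hk]
  have e1 : Kh M σ ξ = 2 * ∫ v in Ioi (0 : ℝ), k v * Real.cos (ξ * v) := rfl
  rw [e0, e1]
  linarith

end Pool.Agent.Lib.MP_2a816b_nt.TA
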