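import Pool.Agent.Lib.MP_2a816b_nt.TA.GKer
import Pool.Agent.Lib.MP_2a816b_nt.TA.EXB

open Complex Set Filter Topology MeasureTheory
open scoped ContDiff

namespace Pool.Agent.Lib.MP_2a816b_nt.TA

open Pool.Agent.Lib.MP_00e05b_nt Pool.Agent.Lib.MP_00e05b_nt.Mont Pool.Agent.Lib.MP_2a816b_nt.PV

/-- product expansion -/
private lemma GPos_expand {ι : Type*} (w γ : ι → ℝ) (hw : Summable (fun a => |w a|)) (c : ℝ) :
    HasSum (fun p : ι × ι => w p.1 * w p.2 * Real.cos ((γ p.1 - γ p.2) * c))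
      (‖∑' a, (w a : ℂ) * cexp (((γ a * c : ℝ) : ℂ) * I)‖ ^ 2) := by
  have hn : ∀ a, ‖(w a : ℂ) * cexp (((γ a * c : ℝ) : ℂ) * I)‖ = |w a| := by
    intro a
    rw [norm_mul, Complex.norm_exp_ofReal_mul_I, mul_one, Complex.norm_real, Real.norm_eq_abs]
  have hs : Summable (fun a => (w a : ℂ) * cexp (((γ a * c : ℝ) : ℂ) * I)) := by
    apply Summable.of_norm
    simp_rw [hn]
    exact hw
  have h1 := hs.hasSum
  set Z : ℂ := ∑' a, (w a : ℂ) * cexp (((γ a * c : ℝ) : ℂ) * I) with hZ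
  have hre : HasSum (fun a => w a * Real.cos (γ a * c)) Z.re := by
    have h2 := Complex.hasSum_re h1
    have e : ∀ a, ((w a : ℂ) * cexp (((γ a * c : ℝ) : ℂ) * I)).re = w a * Real.cos (γ a * c) := by
      intro a
      rw [Complex.re_ofReal_mul, Complex.exp_ofReal_mul_I_re]
    simp_rw [e] at h2
    exact h2
  have him : HasSum (fun a => w a * Real.sin (γ a * c)) Z.im := by
    have h2 := Complex.hasSum_im h1
    have e : ∀ a, ((w a : ℂ) * cexp (((γ a * c : ℝ) : ℂ) * I)).im = w a * Real.sin (γ a * c) := by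
      intro a
      rw [Complex.im_ofReal_mul, Complex.exp_ofReal_mul_I_im]
    simp_rw [e] at h2
    exact h2
  have sre : Summable (fun a => ‖w a * Real.cos (γ a * c)‖) := by
    refine Summable.of_nonneg_of_le (fun a => norm_nonneg _) (fun a => ?_) hw
    rw [norm_mul, Real.norm_eq_abs, Real.norm_eq_abs]
    exact mul_le_of_le_one_right (abs_nonneg _) (Real.abs_cos_le_one _)
  have sim : Summable (fun a => ‖w a * Real.sin (γ a * c)‖) := by
    refine Summable.of_nonneg_of_le (fun a => norm_nonneg _) (fun a => ?_) hw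
    rw [norm_mul, Real.norm_eq_abs, Real.norm_eq_abs]
    exact mul_le_of_le_one_right (abs_nonneg _) (Real.abs_sin_le_one _)
  have h3 := (hre.mul hre (summable_mul_of_summable_norm sre sre)).add
    (him.mul him (summable_mul_of_summable_norm sim sim))
  have e1 : ‖Z‖ ^ 2 = Z.re * Z.re + Z.im * Z.im := by
    rw [← Complex.normSq_eq_norm_sq, Complex.normSq_apply]
  rw [e1]
  have e2 : (fun p : ι × ι => w p.1 * w p.2 * Real.cos ((γ p.1 - γ p.2) * c)) = fun p : ι × ι =>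
      w p.1 * Real.cos (γ p.1 * c) * (w p.2 * Real.cos (γ p.2 * c)) +
      w p.1 * Real.sin (γ p.1 * c) * (w p.2 * Real.sin (γ p.2 * c)) := by
    funext p
    rw [sub_mul, Real.cos_sub]
    ring
  rw [e2]
  exact h3

private lemma GPos_dbl_c {ι : Type*} [Countable ι] (w γ : ι → ℝ) (hw : Summable (fun a => |w a|)) {M σ : ℝ} (hM : 1 ≤ M) :
    HasSum (fun p : ι × ι => w p.1 * w p.2 * Kh M σ (γ p.1 - γ p.2))
      (2 * ∫ c in Ioi (0 : ℝ), Kg M (c + σ) * ‖∑' a, (w a : ℂ) * cexp (((γ a * c : ℝ) : ℂ) * I)‖ ^ 2) := by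
  have hs2 : Summable (fun p : ι × ι => |w p.1| * |w p.2|) :=
    hw.mul_of_nonneg hw (fun a => abs_nonneg _) (fun a => abs_nonneg _)
  have hKc : Continuous fun c : ℝ => Kg M (c + σ) := by
    unfold Kg
    fun_prop
  have hK0 : ∀ c : ℝ, 0 ≤ Kg M (c + σ) := fun c => (Real.exp_pos _).le
  have h1 : HasSum (fun p : ι × ι => ∫ c in Ioi (0 : ℝ), Kg M (c + σ) * (w p.1 * w p.2 * Real.cos ((γ p.1 - γ p.2) * c)))
      (∫ c in Ioi (0 : ℝ), Kg M (c + σ) * ‖∑' a, (w a : ℂ) * cexp (((γ a * c : ℝ) : ℂ) * I)‖ ^ 2) := by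
    apply hasSum_integral_of_dominated_convergence (fun (p : ι × ι) (c : ℝ) => |w p.1| * |w p.2| * Kg M (c + σ))
    · intro p
      apply Continuous.aestronglyMeasurable
      exact hKc.mul (continuous_const.mul (Real.continuous_cos.comp (continuous_const.mul continuous_id)))
    · intro p
      refine Eventually.of_forall fun c => ?_
      rw [norm_mul, norm_mul, norm_mul, Real.norm_eq_abs, Real.norm_eq_abs, Real.norm_eq_abs, Real.norm_eq_abs,
        abs_of_nonneg (hK0 c)]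
      have h2 := Real.abs_cos_le_one ((γ p.1 - γ p.2) * c)
      have h3 : 0 ≤ |w p.1| * |w p.2| := by positivity
      calc Kg M (c + σ) * (|w p.1| * |w p.2| * |Real.cos ((γ p.1 - γ p.2) * c)|)
          ≤ Kg M (c + σ) * (|w p.1| * |w p.2| * 1) :=
            mul_le_mul_of_nonneg_left (mul_le_mul_of_nonneg_left h2 h3) (hK0 c)
        _ = _ := by ring
    · exact Eventually.of_forall fun c => hs2.mul_right _
    · simp_rw [tsum_mul_right]
      exact (Kg_shift_int hM σ 0).const_mul _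
    · refine Eventually.of_forall fun c => ?_
      exact (GPos_expand w γ hw c).mul_left _
  have h2 := h1.mul_left 2
  have e : ∀ p : ι × ι, 2 * ∫ c in Ioi (0 : ℝ), Kg M (c + σ) * (w p.1 * w p.2 * Real.cos ((γ p.1 - γ p.2) * c)) =
      w p.1 * w p.2 * Kh M σ (γ p.1 - γ p.2) := by
    intro p
    unfold Kh
    have e3 : ∫ c in Ioi (0 : ℝ), Kg M (c + σ) * (w p.1 * w p.2 * Real.cos ((γ p.1 - γ p.2) * c)) =
        w p.1 * w p.2 * ∫ c in Ioi (0 : ℝ), Kg M (c + σ) * Real.cos ((γ p.1 - γ p.2) * c) := by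
      rw [← integral_const_mul]
      apply integral_congr_ae
      refine Eventually.of_forall fun c => ?_
      simp only
      ring
    rw [e3]
    ring
  simp_rw [e] at h2
  exact h2

private lemma GPos_dbl {ι : Type*} (w γ : ι → ℝ) (hw : Summable (fun a => |w a|)) {M σ : ℝ} (hM : 1 ≤ M) :
    HasSum (fun p : ι × ι => w p.1 * w p.2 * Kh M σ (γ p.1 - γ p.2))
      (2 * ∫ c in Ioi (0 : ℝ), Kg M (c + σ) * ‖∑' a, (w a : ℂ) * cexp (((γ a * c : ℝ) : ℂ) * I)‖ ^ 2) := by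
  set s : Set ι := Function.support w with hs
  have hcs : s.Countable := by
    have h1 : (Function.support (fun a => |w a|)).Countable := hw.countable_support
    have h2 : s = Function.support (fun a => |w a|) := by
      ext a
      simp [hs]
    rw [h2]
    exact h1
  have : Countable s := hcs.to_subtype
  have h1 := GPos_dbl_c (fun a : s => w a) (fun a : s => γ a) (hw.subtype s) (M := M) (σ := σ) hM
  have e : ∀ c : ℝ, ∑' a : s, (w a : ℂ) * cexp (((γ a * c : ℝ) : ℂ) * I) =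
      ∑' a, (w a : ℂ) * cexp (((γ a * c : ℝ) : ℂ) * I) := by
    intro c
    apply tsum_subtype_eq_of_support_subset (f := fun a => (w a : ℂ) * cexp (((γ a * c : ℝ) : ℂ) * I))
    intro a ha
    rw [Function.mem_support] at ha
    rw [hs, Function.mem_support]
    intro h0
    apply ha
    simp [h0]
  simp_rw [e] at h1
  have hinj : Function.Injective (Prod.map (Subtype.val : s → ι) (Subtype.val : s → ι)) :=
    Subtype.val_injective.prodMap Subtype.val_injective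
  refine (hinj.hasSum_iff (f := fun p : ι × ι => w p.1 * w p.2 * Kh M σ (γ p.1 - γ p.2)) ?_).1 h1
  rintro ⟨a, b⟩ hab
  by_cases ha : w a = 0
  · simp [ha]
  · by_cases hb : w b = 0
    · simp [hb]
    · exact absurd ⟨(⟨a, ha⟩, ⟨b, hb⟩), rfl⟩ hab

private lemma GPos_sk {f f1 f2 f3 : ℝ → ℝ} {K : ℝ} (h : Bump f f1 f2 f3 K) (t : ℝ) :
    |∫ u, f u * Real.sin (t * u)| ≤ 1000 * K / (1 + |t|) ^ 3 := by
  have hK : 0 ≤ K := (abs_nonneg _).trans (h.b0 0)
  have hcont : Continuous f := continuous_iff_continuousAt.2 fun u => (h.d0 u).continuousAt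
  have hcs : HasCompactSupport f := by
    apply HasCompactSupport.intro (isCompact_Icc (a := -1) (b := 1))
    intro x hx
    apply (h.supp x _).1
    by_contra hc
    push Not at hc
    rw [abs_lt] at hc
    exact hx ⟨hc.1.le, hc.2.le⟩
  have hz : ∀ u, u ∉ Set.Ioc (-1 : ℝ) 1 → f u = 0 := by
    intro u hu
    apply (h.supp u _).1
    by_contra hc
    push Not at hc
    rw [abs_lt] at hc
    exact hu ⟨hc.1, hc.2.le⟩
  have hint : Integrable (fun u : ℝ => (f u : ℂ) * ph t 0 u) := by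
    apply Continuous.integrable_of_hasCompactSupport
    · have := continuous_ph t 0
      fun_prop
    · apply HasCompactSupport.mul_right
      exact hcs.comp_left (g := fun x : ℝ => (x : ℂ)) (by simp)
  have e1 : ∫ u, f u * Real.sin (t * u) = (∫ u, (f u : ℂ) * ph t 0 u).im := by
    have : (∫ u, (f u : ℂ) * ph t 0 u).im = ∫ u, ((f u : ℂ) * ph t 0 u).im :=
      (integral_im hint).symm
    rw [this]
    congr 1
    ext u
    unfold ph
    rw [Complex.im_ofReal_mul, Complex.exp_ofReal_mul_I_im, zero_mul, sub_zero]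
  have e2 : ∫ u, (f u : ℂ) * ph t 0 u = ∫ u in (0 - 1 : ℝ)..(0 + 1), (f (u - 0) : ℂ) * ph t 0 u := by
    rw [intervalIntegral.integral_of_le (by norm_num), ← integral_indicator measurableSet_Ioc]
    congr 1
    ext u
    by_cases hu : u ∈ Set.Ioc (0 - 1 : ℝ) (0 + 1)
    · rw [Set.indicator_of_mem hu, sub_zero]
    · rw [Set.indicator_of_notMem hu]
      have : u ∉ Set.Ioc (-1 : ℝ) 1 := by
        simpa using hu
      rw [hz u this]
      simp
  have b1 : |∫ u, f u * Real.sin (t * u)| ≤ 2 * K := by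
    rw [e1, e2]
    refine (Complex.abs_im_le_norm _).trans ?_
    have := intervalIntegral.norm_integral_le_of_norm_le_const (a := (0 - 1 : ℝ)) (b := 0 + 1)
      (C := K) (f := fun u : ℝ => (f (u - 0) : ℂ) * ph t 0 u) (fun u _ => by
        rw [norm_mul, norm_ph, mul_one, Complex.norm_real]
        exact h.b0 _)
    refine this.trans (le_of_eq ?_)
    norm_num
    ring
  rcases eq_or_ne t 0 with h0 | h0
  · rw [h0, abs_zero, add_zero, one_pow, div_one, ← h0]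
    linarith
  · have ht : 0 < |t| := abs_pos.2 h0
    have b2 : |∫ u, f u * Real.sin (t * u)| ≤ 104 * K / |t| ^ 3 := by
      rw [e1, e2]
      refine (Complex.abs_im_le_norm _).trans ?_
      apply osc_bound h 0 t 0 |t| ht
      intro u _
      simp
    rcases le_or_gt |t| 1 with h1 | h1
    · refine b1.trans ?_
      rw [le_div_iff₀ (by positivity)]
      have : (1 + |t|) ^ 3 ≤ (1 + 1) ^ 3 := by gcongr
      nlinarith
    · refine b2.trans ?_
      rw [div_le_div_iff₀ (by positivity) (by positivity)]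
      have : (1 + |t|) ^ 3 ≤ (|t| + |t|) ^ 3 := by gcongr
      have h3 : 0 < |t| ^ 3 := by positivity
      nlinarith

private lemma GPos_deriv {W : ℝ → ℝ} (hW : EB W (1 / 8)) (x : ℝ) :
    HasDerivAt (ck W) (∫ u, -((u * W u) * Real.sin (x * u))) x := by
  have hc : Continuous W := hW.smooth.continuous
  have hcs : HasCompactSupport W := hW.es.compact
  have h := hasDerivAt_integral_of_dominated_loc_of_deriv_le (μ := volume) (𝕜 := ℝ)
    (F := fun (x u : ℝ) => W u * Real.cos (x * u)) (F' := fun (x u : ℝ) => -((u * W u) * Real.sin (x * u)))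
    (x₀ := x) (s := univ) (bound := fun u => |u * W u|) (Filter.univ_mem) ?_ ?_ ?_ ?_ ?_ ?_
  · exact h.2
  · refine Eventually.of_forall fun y => ?_
    apply Continuous.aestronglyMeasurable
    fun_prop
  · apply Continuous.integrable_of_hasCompactSupport (by fun_prop)
    exact hcs.mul_right
  · apply Continuous.aestronglyMeasurable
    fun_prop
  · refine Eventually.of_forall fun u y _ => ?_
    rw [norm_neg, norm_mul, Real.norm_eq_abs, Real.norm_eq_abs]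
    exact mul_le_of_le_one_right (abs_nonneg _) (Real.abs_sin_le_one _)
  · apply Continuous.integrable_of_hasCompactSupport (by fun_prop)
    have h1 : HasCompactSupport (fun u => u * W u) := hcs.mul_left
    exact h1.abs
  · refine Eventually.of_forall fun u y _ => ?_
    have h1 : HasDerivAt (fun y : ℝ => y * u) u y := by simpa using (hasDerivAt_id y).mul_const u
    have h2 := (h1.cos).const_mul (W u)
    refine h2.congr_deriv ?_
    ring

private lemma GPos_deriv_bound {W : ℝ → ℝ} (hW : EB W (1 / 8)) :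
    ∃ C : ℝ, 0 ≤ C ∧ ∀ x : ℝ, |∫ u, -((u * W u) * Real.sin (x * u))| ≤ C / (1 + |x|) ^ 3 := by
  have hf : ContDiff ℝ ∞ (fun u => u * W u) := contDiff_id.mul hW.smooth
  obtain ⟨K, hK⟩ := bump_of_smooth hf (fun u hu => by rw [hW.supp u (by linarith), mul_zero])
  have hK0 : 0 ≤ K := (abs_nonneg _).trans (hK.b0 0)
  refine ⟨1000 * K, by positivity, fun x => ?_⟩
  rw [integral_neg, abs_neg]
  exact GPos_sk hK x

private lemma GPos_lip {W : ℝ → ℝ} (hW : EB W (1 / 8)) :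
    ∃ C : ℝ, 0 ≤ C ∧ ∀ x y : ℝ, |x - y| ≤ 1 → |ck W x - ck W y| ≤ C / (1 + |x|) ^ 3 * |x - y| := by
  obtain ⟨C, hC, hb⟩ := GPos_deriv_bound hW
  refine ⟨8 * C, by positivity, fun x y hxy => ?_⟩
  have h := Convex.norm_image_sub_le_of_norm_hasDerivWithin_le (f := ck W)
    (f' := fun x => ∫ u, -((u * W u) * Real.sin (x * u))) (C := 8 * C / (1 + |x|) ^ 3) (s := Icc (x - 1) (x + 1)) (x := y) (y := x)
    (fun z _ => (GPos_deriv hW z).hasDerivWithinAt) (fun z hz => ?_) (convex_Icc _ _) ?_ ?_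
  · simpa [Real.norm_eq_abs] using h
  · rw [Real.norm_eq_abs]
    refine (hb z).trans ?_
    have h1 : 1 + |x| ≤ 2 * (1 + |z|) := by
      have h2 : |x - z| ≤ 1 := by
        rw [abs_le]
        constructor <;> linarith [hz.1, hz.2]
      have h3 := abs_sub_abs_le_abs_sub x z
      have h4 := abs_nonneg z
      linarith
    rw [div_le_div_iff₀ (by positivity) (by positivity)]
    have h2 : (1 + |x|) ^ 3 ≤ (2 * (1 + |z|)) ^ 3 := pow_le_pow_left₀ (by positivity) h1 3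
    calc C * (1 + |x|) ^ 3 ≤ C * (2 * (1 + |z|)) ^ 3 := mul_le_mul_of_nonneg_left h2 hC
      _ = _ := by ring
  · rw [abs_le] at hxy
    constructor <;> linarith [hxy.1, hxy.2]
  · constructor <;> linarith

private lemma GPos_diff {W : ℝ → ℝ} (hW : EB W (1 / 8)) :
    ∃ D : ℝ, 0 ≤ D ∧ ∀ x y : ℝ, (ck W x - ck W y) ^ 2 * (1 + |x - y|) ^ 2 ≤
      D * (x - y) ^ 2 * (1 / (1 + |x|) ^ 4 + 1 / (1 + |y|) ^ 4) := by
  obtain ⟨C, hC, hb⟩ := ck_bound hW.es (by norm_num : (1 / 8 : ℝ) ≤ 3 / 4)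
  obtain ⟨L, hL, hl⟩ := GPos_lip hW
  have hpow : ∀ x : ℝ, 1 / (1 + |x|) ^ 6 ≤ 1 / (1 + |x|) ^ 4 := by
    intro x
    apply one_div_le_one_div_of_le (by positivity)
    exact pow_le_pow_right₀ (by linarith [abs_nonneg x]) (by norm_num)
  refine ⟨4 * L ^ 2 + 8 * C ^ 2, by positivity, fun x y => ?_⟩
  have hx0 : 0 ≤ 1 / (1 + |x|) ^ 4 := by positivity
  have hy0 : 0 ≤ 1 / (1 + |y|) ^ 4 := by positivity
  have hxy0 : 0 ≤ (x - y) ^ 2 := sq_nonneg _
  rcases le_or_gt |x - y| 1 with h | h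
  · have h1 : (ck W x - ck W y) ^ 2 ≤ L ^ 2 * (1 / (1 + |x|) ^ 6) * (x - y) ^ 2 := by
      rw [← sq_abs, ← sq_abs (x - y)]
      calc |ck W x - ck W y| ^ 2 ≤ (L / (1 + |x|) ^ 3 * |x - y|) ^ 2 := pow_le_pow_left₀ (abs_nonneg _) (hl x y h) 2
        _ = _ := by
          rw [mul_pow, div_pow]
          ring
    have h2 : (1 + |x - y|) ^ 2 ≤ 4 := by
      have := abs_nonneg (x - y)
      nlinarith
    calc (ck W x - ck W y) ^ 2 * (1 + |x - y|) ^ 2 ≤ (L ^ 2 * (1 / (1 + |x|) ^ 6) * (x - y) ^ 2) * 4 :=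
          mul_le_mul h1 h2 (by positivity) (by positivity)
      _ ≤ (L ^ 2 * (1 / (1 + |x|) ^ 4) * (x - y) ^ 2) * 4 := by
          have := hpow x
          gcongr
      _ ≤ _ := by
          have h3 : 0 ≤ L ^ 2 * (x - y) ^ 2 * (1 / (1 + |y|) ^ 4) := by positivity
          have h4 : 0 ≤ C ^ 2 * (x - y) ^ 2 * (1 / (1 + |x|) ^ 4 + 1 / (1 + |y|) ^ 4) := by positivity
          nlinarith
  · have h1 : ∀ z : ℝ, (ck W z) ^ 2 ≤ C ^ 2 * (1 / (1 + |z|) ^ 4) := by
      intro z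
      rw [← sq_abs]
      calc |ck W z| ^ 2 ≤ (C / (1 + |z|) ^ 3) ^ 2 := pow_le_pow_left₀ (abs_nonneg _) (hb z) 2
        _ = C ^ 2 * (1 / (1 + |z|) ^ 6) := by rw [div_pow]; ring
        _ ≤ _ := mul_le_mul_of_nonneg_left (hpow z) (by positivity)
    have h2 : (ck W x - ck W y) ^ 2 ≤ 2 * C ^ 2 * (1 / (1 + |x|) ^ 4 + 1 / (1 + |y|) ^ 4) := by
      have := h1 x
      have := h1 y
      nlinarith [sq_nonneg (ck W x + ck W y)]
    have h3 : (1 + |x - y|) ^ 2 ≤ 4 * (x - y) ^ 2 := by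
      rw [← sq_abs (x - y)]
      nlinarith
    calc (ck W x - ck W y) ^ 2 * (1 + |x - y|) ^ 2 ≤
        (2 * C ^ 2 * (1 / (1 + |x|) ^ 4 + 1 / (1 + |y|) ^ 4)) * (4 * (x - y) ^ 2) :=
          mul_le_mul h2 h3 (by positivity) (by positivity)
      _ ≤ _ := by
          have h4 : 0 ≤ L ^ 2 * (x - y) ^ 2 * (1 / (1 + |x|) ^ 4 + 1 / (1 + |y|) ^ 4) := by positivity
          nlinarith

private lemma GPos_log (t g : ℝ) : Real.log (2 + |g|) ≤ 2 * Real.log (2 + |t|) * (1 + |t - g|) := by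
  have h0 : 0 ≤ |t - g| := abs_nonneg _
  have ht : 0 ≤ |t| := abs_nonneg _
  have h1 : 2 + |g| ≤ (2 + |t|) * (1 + |t - g|) := by
    have : |g| ≤ |t| + |t - g| := by
      have h2 := abs_sub_abs_le_abs_sub g t
      rw [abs_sub_comm g t] at h2
      linarith
    nlinarith
  have h2 : Real.log (2 + |g|) ≤ Real.log (2 + |t|) + Real.log (1 + |t - g|) := by
    rw [← Real.log_mul (by positivity) (by positivity)]
    exact Real.log_le_log (by positivity) h1
  have h3 : Real.log (1 + |t - g|) ≤ |t - g| := by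
    have := Real.log_le_sub_one_of_pos (show 0 < 1 + |t - g| by positivity)
    linarith
  have h4 : (1 : ℝ) / 2 ≤ Real.log (2 + |t|) := by
    have h5 := Real.log_two_gt_d9
    have h6 : Real.log 2 ≤ Real.log (2 + |t|) := Real.log_le_log (by norm_num) (by linarith)
    linarith
  nlinarith

private lemma GPos_F {W : ℝ → ℝ} (hW : EB W (1 / 8)) (t : ℝ) {M σ : ℝ} (hM : 1 ≤ M) :
    HasSum (fun p : ℂ × ℂ => ((mx p.1 : ℝ) * ck W (t - p.1.im)) * ((mx p.2 : ℝ) * ck W (t - p.2.im)) *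
      Kh M σ (p.1.im - p.2.im)) (2 * ∫ c in Ioi (0 : ℝ), Kg M (c + σ) * ‖AA W t c‖ ^ 2) := by
  obtain ⟨C, hC, hb⟩ := ck_bound hW.es (by norm_num : (1 / 8 : ℝ) ≤ 3 / 4)
  have hw : Summable (fun a : ℂ => |(mx a : ℝ) * ck W (t - a.im)|) := by
    refine Summable.of_nonneg_of_le (fun a => abs_nonneg _) (fun a => ?_) ((summable_cube t).mul_left C)
    rw [abs_mul, Nat.abs_cast]
    have h1 := hb (t - a.im)
    rw [abs_sub_comm t a.im] at h1
    have h2 : (0 : ℝ) ≤ mx a := Nat.cast_nonneg _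
    calc (mx a : ℝ) * |ck W (t - a.im)| ≤ (mx a : ℝ) * (C / (1 + |a.im - t|) ^ 3) := mul_le_mul_of_nonneg_left h1 h2
      _ = C * ((mx a : ℝ) / (1 + |a.im - t|) ^ 3) := by ring
  have h := GPos_dbl (fun a : ℂ => (mx a : ℝ) * ck W (t - a.im)) (fun a : ℂ => a.im) hw (M := M) (σ := σ) hM
  have e : ∀ c : ℝ, ∑' a : ℂ, (((mx a : ℝ) * ck W (t - a.im) : ℝ) : ℂ) * cexp (((a.im * c : ℝ) : ℂ) * I) = AA W t c := by
    intro c
    unfold AA
    refine tsum_congr fun a => ?_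
    push_cast
    ring
  simp_rw [e] at h
  exact h

private lemma GPos_cl {C1 : ℝ} (hloc : ∀ t : ℝ, Summable (fun a : ℂ => (mx a : ℝ) * (1 / (1 + |t - a.im|) ^ 2)) ∧
      ∑' a : ℂ, (mx a : ℝ) * (1 / (1 + |t - a.im|) ^ 2) ≤ C1 * Real.log (2 + |t|)) {δ : ℝ} (hδ : δ ≤ 1) (a : ℂ) :
    Summable (fun b : ℂ => if |b.im - a.im| ≤ δ then (mx b : ℝ) else 0) ∧ 0 ≤ cl δ a ∧
      cl δ a ≤ 4 * (C1 * Real.log (2 + |a.im|)) := by
  obtain ⟨hs, hle⟩ := hloc a.im
  have h0 : ∀ b : ℂ, 0 ≤ (if |b.im - a.im| ≤ δ then (mx b : ℝ) else 0) := by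
    intro b
    split_ifs
    · exact Nat.cast_nonneg _
    · exact le_rfl
  have h1 : ∀ b : ℂ, (if |b.im - a.im| ≤ δ then (mx b : ℝ) else 0) ≤ 4 * ((mx b : ℝ) * (1 / (1 + |a.im - b.im|) ^ 2)) := by
    intro b
    have hm : (0 : ℝ) ≤ mx b := Nat.cast_nonneg _
    split_ifs with h
    · rw [abs_sub_comm b.im] at h
      have h2 : 0 ≤ |a.im - b.im| := abs_nonneg _
      have h3 : 1 / 4 ≤ 1 / (1 + |a.im - b.im|) ^ 2 := by
        apply one_div_le_one_div_of_le (by positivity)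
        nlinarith
      nlinarith
    · positivity
  have hs2 : Summable (fun b : ℂ => if |b.im - a.im| ≤ δ then (mx b : ℝ) else 0) :=
    Summable.of_nonneg_of_le h0 h1 (hs.mul_left 4)
  refine ⟨hs2, tsum_nonneg h0, ?_⟩
  unfold cl
  calc ∑' b : ℂ, (if |b.im - a.im| ≤ δ then (mx b : ℝ) else 0)
      ≤ ∑' b : ℂ, 4 * ((mx b : ℝ) * (1 / (1 + |a.im - b.im|) ^ 2)) := hs2.tsum_le_tsum h1 (hs.mul_left 4)
    _ = 4 * ∑' b : ℂ, (mx b : ℝ) * (1 / (1 + |a.im - b.im|) ^ 2) := tsum_mul_left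
    _ ≤ _ := mul_le_mul_of_nonneg_left hle (by norm_num)

/-- the main term -/
private noncomputable def GPos_G (W : ℝ → ℝ) (A N t : ℝ) (p : ℂ × ℂ) : ℝ :=
  (mx p.1 : ℝ) * ck W (t - p.1.im) ^ 2 * (A * (if |p.2.im - p.1.im| ≤ 1 / N then (mx p.2 : ℝ) else 0) +
    if p.2 = p.1 then A else 0)

private lemma GPos_Gsum {C1 : ℝ} (hC1 : 0 ≤ C1)
    (hloc : ∀ t : ℝ, Summable (fun a : ℂ => (mx a : ℝ) * (1 / (1 + |t - a.im|) ^ 2)) ∧
      ∑' a : ℂ, (mx a : ℝ) * (1 / (1 + |t - a.im|) ^ 2) ≤ C1 * Real.log (2 + |t|)) {W : ℝ → ℝ} (hW : EB W (1 / 8))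
    {A N : ℝ} (hA : 0 ≤ A) (hN : 1 ≤ N) (t : ℝ) : HasSum (GPos_G W A N t)
      (2 * A * ((∑' a : ℂ, (mx a : ℝ) * ck W (t - a.im) ^ 2) + EX W (1 / N) t / 2)) := by
  obtain ⟨C, hC, hb⟩ := ck_bound hW.es (by norm_num : (1 / 8 : ℝ) ≤ 3 / 4)
  have hN0 : 0 < N := by linarith
  have hδ : 1 / N ≤ 1 := by
    rw [div_le_one hN0]
    exact hN
  obtain ⟨hs, hle⟩ := hloc t
  have hcl := fun a : ℂ => GPos_cl hloc hδ a
  have hm : ∀ a : ℂ, (0 : ℝ) ≤ mx a := fun a => Nat.cast_nonneg _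
  have hL : 0 < Real.log (2 + |t|) := Real.log_pos (by linarith [abs_nonneg t])
  -- pointwise bounds
  have hq : ∀ a : ℂ, (mx a : ℝ) * ck W (t - a.im) ^ 2 * (1 + |t - a.im|) ≤
      C ^ 2 * ((mx a : ℝ) * (1 / (1 + |t - a.im|) ^ 2)) := by
    intro a
    have h0 : 0 ≤ |t - a.im| := abs_nonneg _
    have h1 : ck W (t - a.im) ^ 2 ≤ (C / (1 + |t - a.im|) ^ 3) ^ 2 := by
      rw [← sq_abs]
      exact pow_le_pow_left₀ (abs_nonneg _) (hb _) 2
    have h2 : (C / (1 + |t - a.im|) ^ 3) ^ 2 * (1 + |t - a.im|) = C ^ 2 * (1 / (1 + |t - a.im|) ^ 5) := by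
      have : 1 + |t - a.im| ≠ 0 := by positivity
      field_simp
    have h3 : 1 / (1 + |t - a.im|) ^ 5 ≤ 1 / (1 + |t - a.im|) ^ 2 := by
      apply one_div_le_one_div_of_le (by positivity)
      exact pow_le_pow_right₀ (by linarith) (by norm_num)
    calc (mx a : ℝ) * ck W (t - a.im) ^ 2 * (1 + |t - a.im|)
        = (mx a : ℝ) * (ck W (t - a.im) ^ 2 * (1 + |t - a.im|)) := by ring
      _ ≤ (mx a : ℝ) * ((C / (1 + |t - a.im|) ^ 3) ^ 2 * (1 + |t - a.im|)) := by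
          apply mul_le_mul_of_nonneg_left _ (hm a)
          exact mul_le_mul_of_nonneg_right h1 (by positivity)
      _ = (mx a : ℝ) * (C ^ 2 * (1 / (1 + |t - a.im|) ^ 5)) := by rw [h2]
      _ ≤ (mx a : ℝ) * (C ^ 2 * (1 / (1 + |t - a.im|) ^ 2)) := by
          apply mul_le_mul_of_nonneg_left _ (hm a)
          exact mul_le_mul_of_nonneg_left h3 (by positivity)
      _ = _ := by ring
  have hq0 : ∀ a : ℂ, 0 ≤ (mx a : ℝ) * ck W (t - a.im) ^ 2 := fun a => mul_nonneg (hm a) (sq_nonneg _)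
  have s1 : Summable (fun a : ℂ => (mx a : ℝ) * ck W (t - a.im) ^ 2) := by
    refine Summable.of_nonneg_of_le hq0 (fun a => ?_) (hs.mul_left (C ^ 2))
    refine le_trans ?_ (hq a)
    have h0 : 0 ≤ |t - a.im| := abs_nonneg _
    nlinarith [hq0 a]
  have s2 : Summable (fun a : ℂ => (mx a : ℝ) * ck W (t - a.im) ^ 2 * cl (1 / N) a) := by
    refine Summable.of_nonneg_of_le (fun a => mul_nonneg (hq0 a) (hcl a).2.1) (fun a => ?_)
      (hs.mul_left (4 * C1 * (2 * Real.log (2 + |t|)) * C ^ 2))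
    have h1 := (hcl a).2.2
    have h2 := GPos_log t a.im
    calc (mx a : ℝ) * ck W (t - a.im) ^ 2 * cl (1 / N) a
        ≤ (mx a : ℝ) * ck W (t - a.im) ^ 2 * (4 * (C1 * (2 * Real.log (2 + |t|) * (1 + |t - a.im|)))) := by
          apply mul_le_mul_of_nonneg_left _ (hq0 a)
          refine h1.trans ?_
          apply mul_le_mul_of_nonneg_left _ (by norm_num)
          exact mul_le_mul_of_nonneg_left h2 hC1
      _ = (4 * C1 * (2 * Real.log (2 + |t|))) * ((mx a : ℝ) * ck W (t - a.im) ^ 2 * (1 + |t - a.im|)) := by ring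
      _ ≤ (4 * C1 * (2 * Real.log (2 + |t|))) * (C ^ 2 * ((mx a : ℝ) * (1 / (1 + |t - a.im|) ^ 2))) :=
          mul_le_mul_of_nonneg_left (hq a) (by positivity)
      _ = _ := by ring
  -- inner sums
  have hin : ∀ a : ℂ, HasSum (fun b : ℂ => GPos_G W A N t (a, b))
      ((mx a : ℝ) * ck W (t - a.im) ^ 2 * (A * cl (1 / N) a + A)) := by
    intro a
    have h1 : HasSum (fun b : ℂ => if |b.im - a.im| ≤ 1 / N then (mx b : ℝ) else 0) (cl (1 / N) a) := (hcl a).1.hasSum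
    have h2 : HasSum (fun b : ℂ => if b = a then A else 0) (A) := hasSum_ite_eq a (A)
    exact ((h1.mul_left (A)).add h2).mul_left _
  have hG0 : 0 ≤ GPos_G W A N t := by
    intro p
    unfold GPos_G
    apply mul_nonneg (hq0 p.1)
    apply add_nonneg
    · apply mul_nonneg (by positivity)
      split_ifs
      · exact hm _
      · exact le_rfl
    · split_ifs
      · positivity
      · exact le_rfl
  have hout : HasSum (fun a : ℂ => (mx a : ℝ) * ck W (t - a.im) ^ 2 * (A * cl (1 / N) a + A))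
      (2 * A * ((∑' a : ℂ, (mx a : ℝ) * ck W (t - a.im) ^ 2) + EX W (1 / N) t / 2)) := by
    have e1 : EX W (1 / N) t = (∑' a : ℂ, (mx a : ℝ) * ck W (t - a.im) ^ 2 * cl (1 / N) a) -
        ∑' a : ℂ, (mx a : ℝ) * ck W (t - a.im) ^ 2 := by
      unfold EX
      rw [← s2.tsum_sub s1]
      refine tsum_congr fun a => ?_
      ring
    have h1 := (s2.hasSum.mul_left (A)).add (s1.hasSum.mul_left (A))
    have e2 : 2 * A * ((∑' a : ℂ, (mx a : ℝ) * ck W (t - a.im) ^ 2) + EX W (1 / N) t / 2) =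
        A * (∑' a : ℂ, (mx a : ℝ) * ck W (t - a.im) ^ 2 * cl (1 / N) a) +
          A * ∑' a : ℂ, (mx a : ℝ) * ck W (t - a.im) ^ 2 := by
      rw [e1]
      ring
    rw [e2]
    have e3 : (fun a : ℂ => (mx a : ℝ) * ck W (t - a.im) ^ 2 * (A * cl (1 / N) a + A)) = fun a : ℂ =>
        A * ((mx a : ℝ) * ck W (t - a.im) ^ 2 * cl (1 / N) a) + A * ((mx a : ℝ) * ck W (t - a.im) ^ 2) := by
      funext a
      ring
    rw [e3]
    exact h1
  have hsG : Summable (GPos_G W A N t) := by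
    rw [summable_prod_of_nonneg hG0]
    refine ⟨fun a => (hin a).summable, ?_⟩
    have e : (fun a : ℂ => ∑' b : ℂ, GPos_G W A N t (a, b)) = fun a : ℂ =>
        (mx a : ℝ) * ck W (t - a.im) ^ 2 * (A * cl (1 / N) a + A) := by
      funext a
      exact (hin a).tsum_eq
    rw [e]
    exact hout.summable
  have h1 := hsG.hasSum.prod_fiberwise hin
  have h2 := h1.unique hout
  rw [← h2]
  exact hsG.hasSum

/-- the error term -/
private noncomputable def GPos_E (t : ℝ) (p : ℂ × ℂ) : ℝ :=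
  (mx p.1 : ℝ) * (1 / (1 + |t - p.1.im|) ^ 4) * ((mx p.2 : ℝ) * (1 / (1 + |p.1.im - p.2.im|) ^ 2))

private lemma GPos_Esum {C1 : ℝ} (hC1 : 0 ≤ C1)
    (hloc : ∀ t : ℝ, Summable (fun a : ℂ => (mx a : ℝ) * (1 / (1 + |t - a.im|) ^ 2)) ∧
      ∑' a : ℂ, (mx a : ℝ) * (1 / (1 + |t - a.im|) ^ 2) ≤ C1 * Real.log (2 + |t|)) (t : ℝ) :
    Summable (GPos_E t) ∧ ∑' p, GPos_E t p ≤ 2 * C1 ^ 2 * Real.log (2 + |t|) ^ 2 := by
  obtain ⟨hs, hle⟩ := hloc t
  have hm : ∀ a : ℂ, (0 : ℝ) ≤ mx a := fun a => Nat.cast_nonneg _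
  have hL : 0 < Real.log (2 + |t|) := Real.log_pos (by linarith [abs_nonneg t])
  have hE0 : 0 ≤ GPos_E t := by
    intro p
    unfold GPos_E
    have := hm p.1
    have := hm p.2
    positivity
  have hin : ∀ a : ℂ, Summable (fun b : ℂ => GPos_E t (a, b)) := by
    intro a
    have h1 := ((hloc a.im).1).mul_left ((mx a : ℝ) * (1 / (1 + |t - a.im|) ^ 4))
    exact h1
  have hb : ∀ a : ℂ, ∑' b : ℂ, GPos_E t (a, b) ≤
      (2 * C1 * Real.log (2 + |t|)) * ((mx a : ℝ) * (1 / (1 + |t - a.im|) ^ 2)) := by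
    intro a
    have h0 : 0 ≤ |t - a.im| := abs_nonneg _
    have e : ∑' b : ℂ, GPos_E t (a, b) = (mx a : ℝ) * (1 / (1 + |t - a.im|) ^ 4) *
        ∑' b : ℂ, (mx b : ℝ) * (1 / (1 + |a.im - b.im|) ^ 2) := by
      rw [← tsum_mul_left]
      rfl
    rw [e]
    have h1 := (hloc a.im).2
    have h2 := GPos_log t a.im
    have h3 : 1 / (1 + |t - a.im|) ^ 4 * (1 + |t - a.im|) = 1 / (1 + |t - a.im|) ^ 3 := by
      have : 1 + |t - a.im| ≠ 0 := by positivity
      field_simp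
    have h4 : 1 / (1 + |t - a.im|) ^ 3 ≤ 1 / (1 + |t - a.im|) ^ 2 := by
      apply one_div_le_one_div_of_le (by positivity)
      exact pow_le_pow_right₀ (by linarith) (by norm_num)
    calc (mx a : ℝ) * (1 / (1 + |t - a.im|) ^ 4) * ∑' b : ℂ, (mx b : ℝ) * (1 / (1 + |a.im - b.im|) ^ 2)
        ≤ (mx a : ℝ) * (1 / (1 + |t - a.im|) ^ 4) * (C1 * (2 * Real.log (2 + |t|) * (1 + |t - a.im|))) := by
          apply mul_le_mul_of_nonneg_left _ (mul_nonneg (hm a) (by positivity))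
          exact h1.trans (mul_le_mul_of_nonneg_left h2 hC1)
      _ = (2 * C1 * Real.log (2 + |t|)) * ((mx a : ℝ) * (1 / (1 + |t - a.im|) ^ 4 * (1 + |t - a.im|))) := by ring
      _ = (2 * C1 * Real.log (2 + |t|)) * ((mx a : ℝ) * (1 / (1 + |t - a.im|) ^ 3)) := by rw [h3]
      _ ≤ _ := by
          apply mul_le_mul_of_nonneg_left _ (by positivity)
          exact mul_le_mul_of_nonneg_left h4 (hm a)
  have hout : Summable (fun a : ℂ => ∑' b : ℂ, GPos_E t (a, b)) := by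
    refine Summable.of_nonneg_of_le (fun a => tsum_nonneg fun b => hE0 (a, b)) hb (hs.mul_left _)
  have hsE : Summable (GPos_E t) := by
    rw [summable_prod_of_nonneg hE0]
    exact ⟨hin, hout⟩
  refine ⟨hsE, ?_⟩
  rw [hsE.tsum_prod]
  calc ∑' a : ℂ, ∑' b : ℂ, GPos_E t (a, b)
      ≤ ∑' a : ℂ, (2 * C1 * Real.log (2 + |t|)) * ((mx a : ℝ) * (1 / (1 + |t - a.im|) ^ 2)) :=
        hout.tsum_le_tsum hb (hs.mul_left _)
    _ = (2 * C1 * Real.log (2 + |t|)) * ∑' a : ℂ, (mx a : ℝ) * (1 / (1 + |t - a.im|) ^ 2) := tsum_mul_left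
    _ ≤ (2 * C1 * Real.log (2 + |t|)) * (C1 * Real.log (2 + |t|)) := mul_le_mul_of_nonneg_left hle (by positivity)
    _ = _ := by ring

private lemma GPos_Kh_neg (M σ ξ : ℝ) : Kh M σ (-ξ) = Kh M σ ξ := by
  unfold Kh
  simp only [neg_mul, Real.cos_neg]

private lemma GPos_Gle {W : ℝ → ℝ} {M σ : ℝ} (hM : 1 ≤ M) (hσ : 0 ≤ σ) (t : ℝ) (a b : ℂ) :
    GPos_G W (Ig M σ) M t (a, b) ≤ (mx a : ℝ) * (mx b : ℝ) * Kh M σ (a.im - b.im) * ck W (t - a.im) ^ 2 := by
  unfold GPos_G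
  have hM0 : 0 < M := by linarith
  have hI := (Ig_bounds hM hσ).2.2.1
  have hma : (0 : ℝ) ≤ mx a := Nat.cast_nonneg _
  have hmb : (0 : ℝ) ≤ mx b := Nat.cast_nonneg _
  have hq : 0 ≤ ck W (t - a.im) ^ 2 := sq_nonneg _
  have hK := Kh_nonneg hM hσ (a.im - b.im)
  simp only
  by_cases hab : b = a
  · subst hab
    have h1 : |b.im - b.im| ≤ 1 / M := by
      rw [sub_self, abs_zero]
      positivity
    rw [if_pos h1, if_pos rfl, sub_self, Kh_zero hM hσ]
    have h2 : (mx b : ℝ) ≤ (mx b : ℝ) ^ 2 := by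
      have h3 : mx b ≤ mx b ^ 2 := by
        rcases Nat.eq_zero_or_pos (mx b) with h | h
        · rw [h]
          norm_num
        · nlinarith
      exact_mod_cast h3
    have h4 : (mx b : ℝ) * ck W (t - b.im) ^ 2 * (Ig M σ) ≤ (mx b : ℝ) ^ 2 * ck W (t - b.im) ^ 2 * (Ig M σ) := by
      apply mul_le_mul_of_nonneg_right _ hI
      exact mul_le_mul_of_nonneg_right h2 hq
    nlinarith
  · rw [if_neg hab, add_zero]
    split_ifs with h
    · rw [abs_sub_comm] at h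
      have h1 := Kh_half hM hσ h
      rw [Kh_zero hM hσ] at h1
      have h1' : Ig M σ ≤ Kh M σ (a.im - b.im) := by linarith
      calc (mx a : ℝ) * ck W (t - a.im) ^ 2 * (Ig M σ * (mx b : ℝ)) = (mx a : ℝ) * (mx b : ℝ) * (Ig M σ) * ck W (t - a.im) ^ 2 := by ring
        _ ≤ _ := by
          apply mul_le_mul_of_nonneg_right _ hq
          exact mul_le_mul_of_nonneg_left h1' (mul_nonneg hma hmb)
    · rw [mul_zero, mul_zero]
      exact mul_nonneg (mul_nonneg (mul_nonneg hma hmb) hK) hq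

private lemma GPos_Ele {W : ℝ → ℝ} {D : ℝ} (hd : ∀ x y : ℝ, (ck W x - ck W y) ^ 2 * (1 + |x - y|) ^ 2 ≤
      D * (x - y) ^ 2 * (1 / (1 + |x|) ^ 4 + 1 / (1 + |y|) ^ 4)) (hD : 0 ≤ D) {B : ℝ}
    (hB : ∀ M σ ξ : ℝ, 1 ≤ M → 0 ≤ σ → Kh M σ ξ * ξ ^ 2 ≤ B / M) {M σ : ℝ} (hM : 1 ≤ M) (hσ : 0 ≤ σ) (t : ℝ) (a b : ℂ) :
    (mx a : ℝ) * (mx b : ℝ) * Kh M σ (a.im - b.im) * (ck W (t - a.im) - ck W (t - b.im)) ^ 2 ≤
      B * D / M * (GPos_E t (a, b) + GPos_E t (b, a)) := by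
  unfold GPos_E
  have hma : (0 : ℝ) ≤ mx a := Nat.cast_nonneg _
  have hmb : (0 : ℝ) ≤ mx b := Nat.cast_nonneg _
  have hK := Kh_nonneg hM hσ (a.im - b.im)
  have h1 := hB M σ (a.im - b.im) hM hσ
  have h2 := hd (t - a.im) (t - b.im)
  have e1 : t - a.im - (t - b.im) = b.im - a.im := by ring
  have e2 : (b.im - a.im) ^ 2 = (a.im - b.im) ^ 2 := by ring
  rw [e1, e2, abs_sub_comm b.im] at h2
  simp only
  rw [abs_sub_comm b.im a.im]
  set S : ℝ := 1 / (1 + |t - a.im|) ^ 4 + 1 / (1 + |t - b.im|) ^ 4 with hS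
  have hS0 : 0 ≤ S := by positivity
  have hp : 0 < (1 + |a.im - b.im|) ^ 2 := by positivity
  have h3 : Kh M σ (a.im - b.im) * (ck W (t - a.im) - ck W (t - b.im)) ^ 2 ≤
      B * D / M * (S * (1 / (1 + |a.im - b.im|) ^ 2)) := by
    have h4 : Kh M σ (a.im - b.im) * ((ck W (t - a.im) - ck W (t - b.im)) ^ 2 * (1 + |a.im - b.im|) ^ 2) ≤
        B * D / M * S := by
      calc _ ≤ Kh M σ (a.im - b.im) * (D * (a.im - b.im) ^ 2 * S) := mul_le_mul_of_nonneg_left h2 hK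
        _ = (D * S) * (Kh M σ (a.im - b.im) * (a.im - b.im) ^ 2) := by ring
        _ ≤ (D * S) * (B / M) := mul_le_mul_of_nonneg_left h1 (mul_nonneg hD hS0)
        _ = _ := by ring
    rw [mul_one_div, ← mul_div_assoc, le_div_iff₀ hp]
    calc _ = Kh M σ (a.im - b.im) * ((ck W (t - a.im) - ck W (t - b.im)) ^ 2 * (1 + |a.im - b.im|) ^ 2) := by ring
      _ ≤ _ := h4
  calc (mx a : ℝ) * (mx b : ℝ) * Kh M σ (a.im - b.im) * (ck W (t - a.im) - ck W (t - b.im)) ^ 2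
      = ((mx a : ℝ) * (mx b : ℝ)) * (Kh M σ (a.im - b.im) * (ck W (t - a.im) - ck W (t - b.im)) ^ 2) := by ring
    _ ≤ ((mx a : ℝ) * (mx b : ℝ)) * (B * D / M * (S * (1 / (1 + |a.im - b.im|) ^ 2))) :=
        mul_le_mul_of_nonneg_left h3 (mul_nonneg hma hmb)
    _ = _ := by
        rw [hS]
        ring

/-- LEAF GPos: as `pos` (`Pos.lean`, adapt it) with `Kh M σ` in place of the Fejér kernel:
`2 ∫_0^∞ Kg M (c + σ) ‖AA W t c‖² dc = ∑∑ m m' b b' Kh M σ (γ - γ')`, `b b' = (b² + b'²)/2 - (b - b')²/2`. The integrand is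
integrable because `AA` is bounded in `c` (`AA_le`). -/
theorem posG (hRH : RiemannHypothesis) {W : ℝ → ℝ} (hW : EB W (1 / 8)) : ∃ C : ℝ, 0 ≤ C ∧ ∀ t M σ : ℝ, 1 ≤ M → 0 ≤ σ →
    2 * Ig M σ * ((∑' a : ℂ, (mx a : ℝ) * ck W (t - a.im) ^ 2) + EX W (1 / M) t / 2) - C / M * Real.log (2 + |t|) ^ 2 ≤
      2 * ∫ c in Ioi (0 : ℝ), Kg M (c + σ) * ‖AA W t c‖ ^ 2 := by
  obtain ⟨D, hD, hd⟩ := GPos_diff hW
  obtain ⟨C1, hC1, hloc⟩ := local_count hRH
  obtain ⟨B, hB0, hB⟩ := Kh_dec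
  refine ⟨2 * B * D * C1 ^ 2, by positivity, fun t M σ hM hσ => ?_⟩
  have hM0 : 0 < M := by linarith
  have hF := GPos_F hW t (M := M) (σ := σ) hM
  have hG := GPos_Gsum hC1 hloc hW (Ig_bounds hM hσ).2.2.1 hM t
  obtain ⟨hE, hEle⟩ := GPos_Esum hC1 hloc t
  have hG' : HasSum (fun p : ℂ × ℂ => GPos_G W (Ig M σ) M t p.swap)
      (2 * Ig M σ * ((∑' a : ℂ, (mx a : ℝ) * ck W (t - a.im) ^ 2) + EX W (1 / M) t / 2)) :=
    (Equiv.prodComm ℂ ℂ).hasSum_iff.2 hG
  have hE' : HasSum (fun p : ℂ × ℂ => GPos_E t p.swap) (∑' p, GPos_E t p) := (Equiv.prodComm ℂ ℂ).hasSum_iff.2 hE.hasSum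
  have h1 := (hG.add hG').sub ((hE.hasSum.add hE').mul_left (B * D / M))
  have h2 := hasSum_le (fun p : ℂ × ℂ => ?_) h1 (hF.mul_left 2)
  · have h3 : B * D / M * (∑' p, GPos_E t p) ≤ B * D / M * (2 * C1 ^ 2 * Real.log (2 + |t|) ^ 2) :=
      mul_le_mul_of_nonneg_left hEle (by positivity)
    have h4 : B * D / M * (2 * C1 ^ 2 * Real.log (2 + |t|) ^ 2) = 2 * B * D * C1 ^ 2 / M * Real.log (2 + |t|) ^ 2 := by ring
    rw [h4] at h3
    linarith
  · obtain ⟨a, b⟩ := p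
    have g1 := GPos_Gle (W := W) hM hσ t a b
    have g2 := GPos_Gle (W := W) hM hσ t b a
    have g3 := GPos_Ele hd hD hB hM hσ t a b
    have e1 : Kh M σ (b.im - a.im) = Kh M σ (a.im - b.im) := by
      rw [← GPos_Kh_neg]
      congr 1
      ring
    rw [e1] at g2
    simp only [Prod.swap_prod_mk]
    linarith

end Pool.Agent.Lib.MP_2a816b_nt.TA
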