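import Pool.Agent.Lib.MP_2a816b_nt.TA.Mid

open Complex Set Filter Topology MeasureTheory

namespace Pool.Agent.Lib.MP_2a816b_nt.TA

open Pool.Agent.Lib.MP_00e05b_nt Pool.Agent.Lib.MP_00e05b_nt.Mont Pool.Agent.Lib.MP_2a816b_nt.PV

/-- `∫ W² = 2 ∫_0^1 W²` -/
private theorem Spk_II {W : ℝ → ℝ} (hW : EB W (1 / 8)) : II W = 2 * ∫ c in (0 : ℝ)..1, W c ^ 2 := by
  have hcont : Continuous (fun u => W u ^ 2) := hW.smooth.continuous.pow 2
  have hcpt : HasCompactSupport (fun u => W u ^ 2) := by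
    apply HasCompactSupport.of_support_subset_isCompact (isCompact_Icc (a := -(1 / 8 : ℝ)) (b := 1 / 8))
    intro u hu
    by_contra hcon
    apply hu
    have : 1 / 8 ≤ |u| := by
      rw [mem_Icc, not_and_or, not_le, not_le] at hcon
      rcases hcon with h | h
      · exact le_trans (by linarith) (neg_le_abs u)
      · exact le_trans (by linarith) (le_abs_self u)
    simp only
    rw [hW.supp u this]
    norm_num
  have hint : Integrable (fun u => W u ^ 2) := hcont.integrable_of_hasCompactSupport hcpt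
  have h1 : II W = ∫ u in (-1 : ℝ)..1, W u ^ 2 := by
    unfold II
    rw [intervalIntegral.integral_of_le (by norm_num)]
    symm
    apply setIntegral_eq_integral_of_forall_compl_eq_zero
    intro u hu
    have : 1 / 8 ≤ |u| := by
      rw [mem_Ioc, not_and_or, not_lt, not_le] at hu
      rcases hu with h | h
      · exact le_trans (by linarith) (neg_le_abs u)
      · exact le_trans (by linarith) (le_abs_self u)
    rw [hW.supp u this]
    norm_num
  have h2 : ∫ u in (-1 : ℝ)..0, W u ^ 2 = ∫ u in (0 : ℝ)..1, W u ^ 2 := by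
    have h3 := intervalIntegral.integral_comp_neg (a := 0) (b := 1) (fun u => W u ^ 2)
    rw [neg_zero] at h3
    rw [← h3]
    congr 1
    funext u
    rw [hW.even]
  rw [h1, ← intervalIntegral.integral_add_adjacent_intervals (b := 0) (hcont.intervalIntegrable _ _)
    (hcont.intervalIntegrable _ _), h2]
  ring

/-- LEAF Spk (from `KapA` and `mid`). `2 ∫_0^(1/4) W² = II W` (even, supported in `[-1/8, 1/8]`). -/
theorem spk (hRH : RiemannHypothesis) {κ : ℝ} (hκ : KapA κ) {W : ℝ → ℝ} (hW : EB W (1 / 8)) :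
    ∃ C : ℝ, 0 ≤ C ∧ ∀ t N : ℝ, 1 ≤ t → 1 ≤ N →
      2 * ∫ c in (0 : ℝ)..1, (1 - c / N) * ‖AA W t c‖ ^ 2 ≤ II W * (Real.log t + κ) ^ 2 + C := by
  obtain ⟨C1, hC1, h1⟩ := hκ W hW
  obtain ⟨C2, hC2, h2⟩ := mid hRH hW
  set C3 : ℝ := 2 * C1 * (2 + |κ|) + C1 ^ 2 + C2 ^ 2 with hC3
  have hC30 : 0 ≤ C3 := by positivity
  refine ⟨2 * C3, by positivity, fun t N ht hN => ?_⟩
  have ht0 : 0 < t := by linarith
  have hII := Spk_II hW
  have hcont : Continuous (fun u => W u ^ 2) := hW.smooth.continuous.pow 2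
  -- the decay
  have hdec : |Real.log t + κ| * t ^ (-(1 / 2) : ℝ) ≤ 2 + |κ| := by
    have hp : 0 < t ^ (-(1 / 2) : ℝ) := Real.rpow_pos_of_pos ht0 _
    have hp1 : t ^ (-(1 / 2) : ℝ) ≤ 1 := Real.rpow_le_one_of_one_le_of_nonpos ht (by norm_num)
    have hl0 : 0 ≤ Real.log t := Real.log_nonneg ht
    have hl : Real.log t ≤ t ^ (1 / 2 : ℝ) / (1 / 2) := Real.log_le_rpow_div ht0.le (by norm_num)
    have hm : t ^ (1 / 2 : ℝ) * t ^ (-(1 / 2) : ℝ) = 1 := by
      rw [← Real.rpow_add ht0]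
      norm_num
    calc |Real.log t + κ| * t ^ (-(1 / 2) : ℝ) ≤ (Real.log t + |κ|) * t ^ (-(1 / 2) : ℝ) := by
          gcongr
          refine (abs_add_le _ _).trans ?_
          rw [abs_of_nonneg hl0]
      _ = Real.log t * t ^ (-(1 / 2) : ℝ) + |κ| * t ^ (-(1 / 2) : ℝ) := by ring
      _ ≤ t ^ (1 / 2 : ℝ) / (1 / 2) * t ^ (-(1 / 2) : ℝ) + |κ| * 1 := by gcongr
      _ = 2 * (t ^ (1 / 2 : ℝ) * t ^ (-(1 / 2) : ℝ)) + |κ| := by ring
      _ = 2 + |κ| := by rw [hm]; ring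
  have hp : 0 < t ^ (-(1 / 2) : ℝ) := Real.rpow_pos_of_pos ht0 _
  have hp1 : t ^ (-(1 / 2) : ℝ) ≤ 1 := Real.rpow_le_one_of_one_le_of_nonpos ht (by norm_num)
  -- pointwise
  have hpt : ∀ c ∈ Icc (0 : ℝ) 1, (1 - c / N) * ‖AA W t c‖ ^ 2 ≤ W c ^ 2 * (Real.log t + κ) ^ 2 + C3 := by
    intro c hc
    have hw0 : 0 ≤ 1 - c / N := by
      have : c / N ≤ 1 := by
        rw [div_le_one (by linarith)]
        linarith [hc.2]
      linarith
    have hw1 : 1 - c / N ≤ 1 := by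
      have : 0 ≤ c / N := div_nonneg hc.1 (by linarith)
      linarith
    have hA : ‖AA W t c‖ ^ 2 ≤ W c ^ 2 * (Real.log t + κ) ^ 2 + C3 := by
      rcases le_total c (1 / 4) with h | h
      · have h3 := h1 c hc.1 h t ht
        have hW0 := hW.nonneg c
        have hW1 := hW.le_one c
        calc ‖AA W t c‖ ^ 2 ≤ (W c * |Real.log t + κ| + C1 * t ^ (-(1 / 2) : ℝ)) ^ 2 := by gcongr
          _ = W c ^ 2 * (Real.log t + κ) ^ 2 + 2 * C1 * (W c * (|Real.log t + κ| * t ^ (-(1 / 2) : ℝ))) +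
              C1 ^ 2 * (t ^ (-(1 / 2) : ℝ)) ^ 2 := by
              rw [← sq_abs (Real.log t + κ)]
              ring
          _ ≤ W c ^ 2 * (Real.log t + κ) ^ 2 + 2 * C1 * (1 * (2 + |κ|)) + C1 ^ 2 * 1 ^ 2 := by gcongr
          _ ≤ W c ^ 2 * (Real.log t + κ) ^ 2 + C3 := by
              rw [hC3]
              nlinarith [sq_nonneg C2]
      · have h3 := h2 c h hc.2 t
        calc ‖AA W t c‖ ^ 2 ≤ C2 ^ 2 := by gcongr
          _ ≤ C3 := by
              rw [hC3]
              have : 0 ≤ 2 * C1 * (2 + |κ|) := by positivity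
              nlinarith [sq_nonneg C1]
          _ ≤ W c ^ 2 * (Real.log t + κ) ^ 2 + C3 := by
              have : 0 ≤ W c ^ 2 * (Real.log t + κ) ^ 2 := by positivity
              linarith
    calc (1 - c / N) * ‖AA W t c‖ ^ 2 ≤ 1 * ‖AA W t c‖ ^ 2 := by gcongr
      _ ≤ W c ^ 2 * (Real.log t + κ) ^ 2 + C3 := by rw [one_mul]; exact hA
  have hrhs : ∫ c in (0 : ℝ)..1, (W c ^ 2 * (Real.log t + κ) ^ 2 + C3) =
      (∫ c in (0 : ℝ)..1, W c ^ 2) * (Real.log t + κ) ^ 2 + C3 := by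
    have hi1 : IntervalIntegrable (fun c => W c ^ 2 * (Real.log t + κ) ^ 2) volume 0 1 :=
      (hcont.mul continuous_const).intervalIntegrable _ _
    have hi2 : IntervalIntegrable (fun _ : ℝ => C3) volume 0 1 := continuous_const.intervalIntegrable _ _
    rw [intervalIntegral.integral_add hi1 hi2, intervalIntegral.integral_mul_const, intervalIntegral.integral_const]
    simp
  by_cases hi : IntervalIntegrable (fun c => (1 - c / N) * ‖AA W t c‖ ^ 2) volume 0 1
  · have h4 : ∫ c in (0 : ℝ)..1, (1 - c / N) * ‖AA W t c‖ ^ 2 ≤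
        ∫ c in (0 : ℝ)..1, (W c ^ 2 * (Real.log t + κ) ^ 2 + C3) := by
      apply intervalIntegral.integral_mono_on zero_le_one hi _ hpt
      exact ((hcont.mul continuous_const).add continuous_const).intervalIntegrable _ _
    rw [hrhs] at h4
    rw [hII]
    calc 2 * ∫ c in (0 : ℝ)..1, (1 - c / N) * ‖AA W t c‖ ^ 2 ≤
        2 * ((∫ c in (0 : ℝ)..1, W c ^ 2) * (Real.log t + κ) ^ 2 + C3) := by gcongr
      _ = 2 * (∫ c in (0 : ℝ)..1, W c ^ 2) * (Real.log t + κ) ^ 2 + 2 * C3 := by ring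
  · rw [intervalIntegral.integral_undef hi, mul_zero, hII]
    have h5 : 0 ≤ ∫ c in (0 : ℝ)..1, W c ^ 2 := intervalIntegral.integral_nonneg zero_le_one fun _ _ => by positivity
    positivity

end Pool.Agent.Lib.MP_2a816b_nt.TA
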