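import Pool.Agent.Lib.MP_2a816b_nt.TA.GDefs
import Pool.Agent.Lib.MP_2a816b_nt.TA.Spk

open Complex Set Filter Topology MeasureTheory

namespace Pool.Agent.Lib.MP_2a816b_nt.TA

open Pool.Agent.Lib.MP_00e05b_nt Pool.Agent.Lib.MP_00e05b_nt.Mont Pool.Agent.Lib.MP_2a816b_nt.PV

private theorem GSpk_lim {X B : ℝ} (hX : 0 ≤ X) (h : ∀ N : ℝ, 1 ≤ N → (1 - 1 / N) * X ≤ B) : X ≤ B := by
  by_contra hcon
  have h0 : 0 < X - B := by linarith [not_le.1 hcon]
  have hN : 1 ≤ X / (X - B) + 1 := by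
    have : 0 ≤ X / (X - B) := div_nonneg hX h0.le
    linarith
  have h1 := h _ hN
  have hN0 : 0 < X / (X - B) + 1 := by linarith
  have h2 : X / (X - B) * (X - B) = X := div_mul_cancel₀ X h0.ne'
  have h3 : X - B ≤ X / (X / (X - B) + 1) := by
    have h4 : (1 - 1 / (X / (X - B) + 1)) * X = X - X / (X / (X - B) + 1) := by ring
    linarith
  rw [le_div_iff₀ hN0] at h3
  nlinarith

/-- LEAF GSpk (easy, from `spk`): `Kg ≤ 1`, and `spk` for all `N`, `N → ∞`. -/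
theorem spkG (hRH : RiemannHypothesis) {κ : ℝ} (hκ : KapA κ) {W : ℝ → ℝ} (hW : EB W (1 / 8)) :
    ∃ C : ℝ, 0 ≤ C ∧ ∀ t M σ : ℝ, 1 ≤ t →
      2 * ∫ c in (0 : ℝ)..1, Kg M (c + σ) * ‖AA W t c‖ ^ 2 ≤ II W * (Real.log t + κ) ^ 2 + C := by
  obtain ⟨C, hC, h⟩ := spk hRH hκ hW
  refine ⟨C, hC, fun t M σ ht => ?_⟩
  have hA : Continuous (fun c : ℝ => ‖AA W t c‖ ^ 2) := by
    have h1 := AA_cont2 hW.es (by norm_num)
    have h2 : Continuous (fun c : ℝ => AA W t c) :=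
      Continuous.comp (g := fun p : ℝ × ℝ => AA W p.1 p.2) h1 (continuous_const.prodMk continuous_id)
    exact (h2.norm).pow 2
  have hX0 : 0 ≤ 2 * ∫ c in (0 : ℝ)..1, ‖AA W t c‖ ^ 2 :=
    mul_nonneg zero_le_two (intervalIntegral.integral_nonneg zero_le_one fun c _ => by positivity)
  have hK : Continuous (fun c : ℝ => Kg M (c + σ)) := by
    unfold Kg
    fun_prop
  have h1 : 2 * ∫ c in (0 : ℝ)..1, Kg M (c + σ) * ‖AA W t c‖ ^ 2 ≤ 2 * ∫ c in (0 : ℝ)..1, ‖AA W t c‖ ^ 2 := by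
    refine mul_le_mul_of_nonneg_left ?_ zero_le_two
    refine intervalIntegral.integral_mono_on zero_le_one ((hK.mul hA).intervalIntegrable _ _)
      (hA.intervalIntegrable _ _) fun c _ => ?_
    have h2 : Kg M (c + σ) ≤ 1 := by
      unfold Kg
      rw [Real.exp_le_one_iff]
      have : 0 ≤ (c + σ) ^ 2 / (2 * M ^ 2) := by positivity
      linarith
    calc Kg M (c + σ) * ‖AA W t c‖ ^ 2 ≤ 1 * ‖AA W t c‖ ^ 2 := mul_le_mul_of_nonneg_right h2 (by positivity)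
      _ = ‖AA W t c‖ ^ 2 := one_mul _
  refine h1.trans (GSpk_lim hX0 fun N hN => ?_)
  refine le_trans ?_ (h t N ht hN)
  have h3 : (1 - 1 / N) * (2 * ∫ c in (0 : ℝ)..1, ‖AA W t c‖ ^ 2) =
      2 * ∫ c in (0 : ℝ)..1, (1 - 1 / N) * ‖AA W t c‖ ^ 2 := by
    rw [intervalIntegral.integral_const_mul]
    ring
  rw [h3]
  refine mul_le_mul_of_nonneg_left ?_ zero_le_two
  have hc1 : Continuous (fun c : ℝ => (1 - c / N) * ‖AA W t c‖ ^ 2) := by
    exact (by fun_prop : Continuous fun c : ℝ => 1 - c / N).mul hA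
  refine intervalIntegral.integral_mono_on zero_le_one ((hA.const_mul _).intervalIntegrable _ _)
    (hc1.intervalIntegrable _ _) fun c hc => ?_
  refine mul_le_mul_of_nonneg_right ?_ (by positivity)
  have h4 : c / N ≤ 1 / N := div_le_div_of_nonneg_right hc.2 (by linarith)
  linarith

end Pool.Agent.Lib.MP_2a816b_nt.TA
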