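import Pool.Agent.Lib.MP_2a816b_nt.TA.Defs

open Complex Set Filter Topology MeasureTheory

namespace Pool.Agent.Lib.MP_2a816b_nt.TA

open Pool.Agent.Lib.MP_00e05b_nt Pool.Agent.Lib.MP_00e05b_nt.Mont Pool.Agent.Lib.MP_2a816b_nt.PV

private lemma KA1_mx (a : ℂ) : mx (1 - a) = mx a := by
  have hg : AnalyticAt ℂ (fun s : ℂ => 1 - s) a := analyticAt_const.sub analyticAt_id
  have hg' : deriv (fun s : ℂ => 1 - s) a ≠ 0 := by
    have h : HasDerivAt (fun s : ℂ => 1 - s) (-1) a := by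
      simpa using (hasDerivAt_id a).const_sub 1
    rw [h.deriv]
    norm_num
  have h := analyticOrderAt_comp_of_deriv_ne_zero (f := xi) hg hg'
  have he : (xi ∘ fun s : ℂ => 1 - s) = xi := by
    funext s
    exact xi_one_sub s
  rw [he] at h
  unfold mx analyticOrderNatAt
  rw [h]

/-- the paired partial fraction -/
private noncomputable def KA1_g (a z : ℂ) : ℂ := 1 / 2 * ((z - a)⁻¹ + (z - (1 - a))⁻¹)

private noncomputable def KA1_g1 (a z : ℂ) : ℂ := -(1 / 2 * (((z - a) ^ 2)⁻¹ + ((z - (1 - a)) ^ 2)⁻¹))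

private noncomputable def KA1_g2 (a z : ℂ) : ℂ := ((z - a) ^ 3)⁻¹ + ((z - (1 - a)) ^ 3)⁻¹

private lemma KA1_d1 (a z : ℂ) (h1 : z - a ≠ 0) (h2 : z - (1 - a) ≠ 0) :
    HasDerivAt (KA1_g a) (KA1_g1 a z) z := by
  have e1 : HasDerivAt (fun w : ℂ => (w - a)⁻¹) (-1 / (z - a) ^ 2) z :=
    ((hasDerivAt_id z).sub_const a).inv h1
  have e2 : HasDerivAt (fun w : ℂ => (w - (1 - a))⁻¹) (-1 / (z - (1 - a)) ^ 2) z :=
    ((hasDerivAt_id z).sub_const (1 - a)).inv h2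
  have e3 := (e1.add e2).const_mul (1 / 2 : ℂ)
  have e4 : KA1_g1 a z = 1 / 2 * (-1 / (z - a) ^ 2 + -1 / (z - (1 - a)) ^ 2) := by
    unfold KA1_g1
    ring
  rw [e4]
  exact e3

private lemma KA1_dsq (b z : ℂ) (h1 : z - b ≠ 0) :
    HasDerivAt (fun w : ℂ => ((w - b) ^ 2)⁻¹) (-(2 * ((z - b) ^ 3)⁻¹)) z := by
  have e0 : HasDerivAt (fun w : ℂ => (w - b) ^ 2) (2 * (z - b)) z := by
    have h := ((hasDerivAt_id z).sub_const b).fun_pow 2
    have e : (2 : ℂ) * (z - b) = ((2 : ℕ) : ℂ) * (id z - b) ^ (2 - 1) * 1 := by simp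
    rw [e]
    exact h
  have e1 := e0.inv (pow_ne_zero 2 h1)
  have e4 : -(2 * ((z - b) ^ 3)⁻¹) = -(2 * (z - b)) / ((z - b) ^ 2) ^ 2 := by
    field_simp
  rw [e4]
  exact e1

private lemma KA1_d2 (a z : ℂ) (h1 : z - a ≠ 0) (h2 : z - (1 - a) ≠ 0) :
    HasDerivAt (KA1_g1 a) (KA1_g2 a z) z := by
  have e3 := (((KA1_dsq a z h1).add (KA1_dsq (1 - a) z h2)).const_mul (1 / 2 : ℂ)).neg
  have e4 : KA1_g2 a z = -(1 / 2 * (-(2 * ((z - a) ^ 3)⁻¹) + -(2 * ((z - (1 - a)) ^ 3)⁻¹))) := by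
    unfold KA1_g2
    ring
  rw [e4]
  exact e3

/-- a uniform neighbourhood of a point which is not a zero -/
private lemma KA1_near {z0 : ℂ} (hz : xi z0 ≠ 0) : ∃ δ : ℝ, 0 < δ ∧ ∃ K : ℝ, 0 ≤ K ∧ ∀ z ∈ Metric.ball z0 δ,
    ∀ a : ℂ, xi a = 0 → z - a ≠ 0 ∧ ‖(z - a)⁻¹‖ ≤ K / (1 + |a.im|) := by
  have h1 : ∀ᶠ w in 𝓝 z0, xi w ≠ 0 := differentiable_xi.continuous.continuousAt.eventually_ne hz
  obtain ⟨δ, hδ, hball⟩ := Metric.eventually_nhds_iff_ball.1 h1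
  refine ⟨δ / 2, by linarith, (1 + ‖z0‖ + δ) / (δ / 2) + 1, by positivity, ?_⟩
  intro z hzb a ha
  rw [Metric.mem_ball, dist_eq_norm] at hzb
  have h2 : δ ≤ ‖z0 - a‖ := by
    by_contra h
    push Not at h
    refine hball a ?_ ha
    rw [Metric.mem_ball, dist_comm, dist_eq_norm]
    exact h
  have h3 : δ / 2 ≤ ‖z - a‖ := by
    have e : z0 - a = (z - a) - (z - z0) := by ring
    have := norm_sub_le (z - a) (z - z0)
    rw [← e] at this
    linarith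
  have h4 : 0 < ‖z - a‖ := by linarith
  refine ⟨norm_pos_iff.1 h4, ?_⟩
  have h5 : |a.im| ≤ ‖z0‖ + δ / 2 + ‖z - a‖ := by
    have e : a = z0 + (z - z0) - (z - a) := by ring
    have i1 : |a.im| ≤ ‖a‖ := Complex.abs_im_le_norm a
    have i2 : ‖a‖ ≤ ‖z0 + (z - z0)‖ + ‖z - a‖ := by
      have := norm_sub_le (z0 + (z - z0)) (z - a)
      rw [← e] at this
      exact this
    have i3 := norm_add_le z0 (z - z0)
    linarith
  rw [norm_inv, inv_eq_one_div, div_le_div_iff₀ h4 (by positivity)]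
  have h6 : 1 + ‖z0‖ + δ ≤ (1 + ‖z0‖ + δ) / (δ / 2) * ‖z - a‖ := by
    rw [div_mul_eq_mul_div, le_div_iff₀ (by linarith)]
    have : 0 ≤ ‖z0‖ := norm_nonneg z0
    exact mul_le_mul_of_nonneg_left h3 (by positivity)
  nlinarith

/-- the summable majorant -/
private noncomputable def KA1_u (a : ℂ) : ℝ := (mx a : ℝ) * (1 / (1 + |0 - a.im|) ^ 2)

private lemma KA1_xi1 {a : ℂ} (ha : xi a = 0) : xi (1 - a) = 0 := by rw [xi_one_sub, ha]

private lemma KA1_im (a : ℂ) : |(1 - a).im| = |a.im| := by simp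

private lemma KA1_geq {a z : ℂ} (h1 : z - a ≠ 0) (h2 : z - (1 - a) ≠ 0) :
    KA1_g a z = (z - 1 / 2) * ((z - a)⁻¹ * (z - (1 - a))⁻¹) := by
  unfold KA1_g
  have h3 : z - 1 + a ≠ 0 := by
    intro h
    apply h2
    rw [← h]
    ring
  have e : z - (1 - a) = z - 1 + a := by ring
  rw [e]
  field_simp
  ring

/-- the three bounds in a neighbourhood -/
private lemma KA1_bd {z0 : ℂ} (hz : xi z0 ≠ 0) : ∃ δ : ℝ, 0 < δ ∧ ∃ M : ℝ, 0 ≤ M ∧ ∀ z ∈ Metric.ball z0 δ,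
    (∀ a : ℂ, ‖(mx a : ℂ) * KA1_g a z‖ ≤ M * KA1_u a) ∧ (∀ a : ℂ, ‖(mx a : ℂ) * KA1_g1 a z‖ ≤ M * KA1_u a) ∧
    (∀ a : ℂ, ‖(mx a : ℂ) * KA1_g2 a z‖ ≤ M * KA1_u a) := by
  obtain ⟨δ, hδ, K, hK, h⟩ := KA1_near hz
  have hz0n : 0 ≤ ‖z0‖ := norm_nonneg z0
  refine ⟨δ, hδ, (‖z0‖ + δ + 1) * K ^ 2 + K ^ 2 + 2 * K ^ 3, by positivity, ?_⟩
  intro z hzb
  have hzn : ‖z - 1 / 2‖ ≤ ‖z0‖ + δ + 1 := by
    rw [Metric.mem_ball, dist_eq_norm] at hzb
    have e : z - 1 / 2 = z0 + (z - z0) - 1 / 2 := by ring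
    have i1 := norm_sub_le (z0 + (z - z0)) (1 / 2)
    rw [← e] at i1
    have i2 := norm_add_le z0 (z - z0)
    have i3 : ‖(1 / 2 : ℂ)‖ ≤ 1 := by norm_num
    linarith
  have key : ∀ a : ℂ, ∀ w : ℂ, ∀ B : ℝ, 0 ≤ B → B ≤ (‖z0‖ + δ + 1) * K ^ 2 + K ^ 2 + 2 * K ^ 3 →
      (xi a = 0 → ‖w‖ ≤ B * (1 / (1 + |0 - a.im|) ^ 2)) →
      ‖(mx a : ℂ) * w‖ ≤ ((‖z0‖ + δ + 1) * K ^ 2 + K ^ 2 + 2 * K ^ 3) * KA1_u a := by
    intro a w B hB hBM hw
    by_cases ha : xi a = 0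
    · rw [norm_mul, Complex.norm_natCast]
      unfold KA1_u
      calc (mx a : ℝ) * ‖w‖ ≤ (mx a : ℝ) * (B * (1 / (1 + |0 - a.im|) ^ 2)) := by gcongr; exact hw ha
        _ = B * ((mx a : ℝ) * (1 / (1 + |0 - a.im|) ^ 2)) := by ring
        _ ≤ _ := by gcongr
    · rw [mx_eq_zero ha]
      simp only [Nat.cast_zero, zero_mul, norm_zero]
      unfold KA1_u
      positivity
  have hpos : ∀ a : ℂ, (1 : ℝ) ≤ 1 + |a.im| := fun a => by linarith [abs_nonneg a.im]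
  have hq : ∀ a : ℂ, |0 - a.im| = |a.im| := fun a => by rw [zero_sub, abs_neg]
  have hA : ∀ a : ℂ, xi a = 0 → (z - a ≠ 0 ∧ ‖(z - a)⁻¹‖ ≤ K / (1 + |a.im|)) ∧
      (z - (1 - a) ≠ 0 ∧ ‖(z - (1 - a))⁻¹‖ ≤ K / (1 + |a.im|)) := by
    intro a ha
    refine ⟨h z hzb a ha, ?_⟩
    have := h z hzb (1 - a) (KA1_xi1 ha)
    rw [KA1_im] at this
    exact this
  refine ⟨fun a => key a _ ((‖z0‖ + δ + 1) * K ^ 2) (by positivity) (by nlinarith [sq_nonneg K, pow_nonneg hK 3]) ?_,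
    fun a => key a _ (K ^ 2) (by positivity) (by nlinarith [mul_nonneg (by linarith : 0 ≤ ‖z0‖ + δ + 1) (sq_nonneg K), pow_nonneg hK 3]) ?_,
    fun a => key a _ (2 * K ^ 3) (by positivity) (by nlinarith [mul_nonneg (by linarith : 0 ≤ ‖z0‖ + δ + 1) (sq_nonneg K), sq_nonneg K]) ?_⟩
  · intro ha
    obtain ⟨⟨n1, b1⟩, ⟨n2, b2⟩⟩ := hA a ha
    rw [KA1_geq n1 n2, norm_mul, norm_mul, hq]
    calc ‖z - 1 / 2‖ * (‖(z - a)⁻¹‖ * ‖(z - (1 - a))⁻¹‖) ≤
        (‖z0‖ + δ + 1) * (K / (1 + |a.im|) * (K / (1 + |a.im|))) := by gcongr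
      _ = (‖z0‖ + δ + 1) * K ^ 2 * (1 / (1 + |a.im|) ^ 2) := by
        have := hpos a
        field_simp
  · intro ha
    obtain ⟨⟨n1, b1⟩, ⟨n2, b2⟩⟩ := hA a ha
    unfold KA1_g1
    rw [norm_neg, norm_mul, hq]
    have e1 : ‖((z - a) ^ 2)⁻¹ + ((z - (1 - a)) ^ 2)⁻¹‖ ≤ (K / (1 + |a.im|)) ^ 2 + (K / (1 + |a.im|)) ^ 2 := by
      refine (norm_add_le _ _).trans ?_
      rw [← inv_pow, ← inv_pow, norm_pow, norm_pow]
      gcongr
    have e2 : ‖(1 / 2 : ℂ)‖ = 1 / 2 := by norm_num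
    rw [e2]
    calc 1 / 2 * ‖((z - a) ^ 2)⁻¹ + ((z - (1 - a)) ^ 2)⁻¹‖ ≤
        1 / 2 * ((K / (1 + |a.im|)) ^ 2 + (K / (1 + |a.im|)) ^ 2) := by gcongr
      _ = K ^ 2 * (1 / (1 + |a.im|) ^ 2) := by
        have := hpos a
        field_simp
        ring
  · intro ha
    obtain ⟨⟨n1, b1⟩, ⟨n2, b2⟩⟩ := hA a ha
    unfold KA1_g2
    rw [hq]
    have e1 : ‖((z - a) ^ 3)⁻¹ + ((z - (1 - a)) ^ 3)⁻¹‖ ≤ (K / (1 + |a.im|)) ^ 3 + (K / (1 + |a.im|)) ^ 3 := by
      refine (norm_add_le _ _).trans ?_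
      rw [← inv_pow, ← inv_pow, norm_pow, norm_pow]
      gcongr
    have h1 := hpos a
    have e3 : 1 / (1 + |a.im|) ^ 3 ≤ 1 / (1 + |a.im|) ^ 2 := by
      apply one_div_le_one_div_of_le (by positivity)
      exact pow_le_pow_right₀ h1 (by norm_num)
    calc _ ≤ _ := e1
      _ = 2 * K ^ 3 * (1 / (1 + |a.im|) ^ 3) := by field_simp; ring
      _ ≤ _ := by gcongr

private noncomputable def KA1_F (z : ℂ) : ℂ := ∑' a : ℂ, (mx a : ℂ) * KA1_g a z

private noncomputable def KA1_F1 (z : ℂ) : ℂ := ∑' a : ℂ, (mx a : ℂ) * KA1_g1 a z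

private noncomputable def KA1_F2 (z : ℂ) : ℂ := ∑' a : ℂ, (mx a : ℂ) * KA1_g2 a z

private lemma KA1_usum (hRH : RiemannHypothesis) : Summable KA1_u := by
  obtain ⟨C, hC, h⟩ := local_count hRH
  exact (h 0).1

private lemma KA1_sum (hRH : RiemannHypothesis) {z0 : ℂ} (hz : xi z0 ≠ 0) :
    Summable (fun a : ℂ => (mx a : ℂ) * KA1_g a z0) ∧ Summable (fun a : ℂ => (mx a : ℂ) * KA1_g1 a z0) ∧
    Summable (fun a : ℂ => (mx a : ℂ) * KA1_g2 a z0) := by
  obtain ⟨δ, hδ, M, hM, h⟩ := KA1_bd hz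
  obtain ⟨b0, b1, b2⟩ := h z0 (Metric.mem_ball_self hδ)
  have hu := (KA1_usum hRH).mul_left M
  exact ⟨Summable.of_norm_bounded hu b0, Summable.of_norm_bounded hu b1, Summable.of_norm_bounded hu b2⟩

private lemma KA1_Fd (hRH : RiemannHypothesis) {z0 : ℂ} (hz : xi z0 ≠ 0) :
    HasDerivAt KA1_F (KA1_F1 z0) z0 ∧ HasDerivAt KA1_F1 (KA1_F2 z0) z0 := by
  obtain ⟨δ, hδ, M, hM, h⟩ := KA1_bd hz
  obtain ⟨δ', hδ', K, hK, h'⟩ := KA1_near hz
  have hu := (KA1_usum hRH).mul_left M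
  obtain ⟨s0, s1, s2⟩ := KA1_sum hRH hz
  set r := min δ δ' with hr
  have hr0 : 0 < r := lt_min hδ hδ'
  have hmem : z0 ∈ Metric.ball z0 r := Metric.mem_ball_self hr0
  have hconn : IsPreconnected (Metric.ball z0 r) := (convex_ball z0 r).isPreconnected
  constructor
  · unfold KA1_F KA1_F1
    refine hasDerivAt_tsum_of_isPreconnected (g := fun a z => (mx a : ℂ) * KA1_g a z)
      (g' := fun a z => (mx a : ℂ) * KA1_g1 a z) hu Metric.isOpen_ball hconn ?_ ?_ hmem s0 hmem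
    · intro a y hy
      by_cases ha : xi a = 0
      · have hy' : y ∈ Metric.ball z0 δ' := Metric.ball_subset_ball (min_le_right _ _) hy
        exact (KA1_d1 a y (h' y hy' a ha).1 (h' y hy' (1 - a) (KA1_xi1 ha)).1).const_mul _
      · rw [mx_eq_zero ha]
        simp only [Nat.cast_zero, zero_mul]
        exact hasDerivAt_const y 0
    · intro a y hy
      exact (h y (Metric.ball_subset_ball (min_le_left _ _) hy)).2.1 a
  · unfold KA1_F1 KA1_F2
    refine hasDerivAt_tsum_of_isPreconnected (g := fun a z => (mx a : ℂ) * KA1_g1 a z)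
      (g' := fun a z => (mx a : ℂ) * KA1_g2 a z) hu Metric.isOpen_ball hconn ?_ ?_ hmem s1 hmem
    · intro a y hy
      by_cases ha : xi a = 0
      · have hy' : y ∈ Metric.ball z0 δ' := Metric.ball_subset_ball (min_le_right _ _) hy
        exact (KA1_d2 a y (h' y hy' a ha).1 (h' y hy' (1 - a) (KA1_xi1 ha)).1).const_mul _
      · rw [mx_eq_zero ha]
        simp only [Nat.cast_zero, zero_mul]
        exact hasDerivAt_const y 0
    · intro a y hy
      exact (h y (Metric.ball_subset_ball (min_le_left _ _) hy)).2.2 a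

private lemma KA1_second {z : ℂ} (hz : xi z ≠ 0) : deriv (deriv (logDeriv xi)) z = KA1_F2 z := by
  obtain ⟨C, hC⟩ := xi_growth
  have h1 := partial_fraction hC hz
  have h2 := (Equiv.subLeft (1 : ℂ)).hasSum_iff.2 h1
  have h3 := (h1.add h2).mul_left (1 / 2 : ℂ)
  have h4 : (1 / 2 : ℂ) * (deriv (deriv (logDeriv xi)) z + deriv (deriv (logDeriv xi)) z) =
      deriv (deriv (logDeriv xi)) z := by ring
  rw [h4] at h3
  rw [← h3.tsum_eq]
  unfold KA1_F2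
  refine tsum_congr fun a => ?_
  have e : analyticOrderNatAt xi (1 - a) = mx a := KA1_mx a
  have e' : analyticOrderNatAt xi a = mx a := rfl
  simp only [Function.comp_apply, Equiv.subLeft_apply]
  rw [e, e']
  unfold KA1_g2
  rw [div_eq_mul_inv, div_eq_mul_inv]
  ring

private lemma KA1_U : IsOpen {z : ℂ | xi z ≠ 0} ∧ IsPreconnected {z : ℂ | xi z ≠ 0} := by
  constructor
  · exact isOpen_ne_fun differentiable_xi.continuous continuous_const
  · obtain ⟨C, hC⟩ := xi_growth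
    have hcount : ({z : ℂ | xi z = 0}).Countable := by
      have hs : (⋃ n : ℕ, (↑(zs xi (n : ℝ)) : Set ℂ)).Countable :=
        Set.countable_iUnion fun n => (zs xi (n : ℝ)).countable_toSet
      refine hs.mono ?_
      intro a ha
      obtain ⟨n, hn⟩ := exists_nat_ge ‖a‖
      exact Set.mem_iUnion.2 ⟨n, (mem_zs hC n a).2 ⟨ha, hn⟩⟩
    exact (Set.Countable.isConnected_compl_of_one_lt_rank (by simp) hcount).2

private lemma KA1_L {z : ℂ} (hz : xi z ≠ 0) : DifferentiableAt ℂ (logDeriv xi) z ∧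
    DifferentiableAt ℂ (deriv (logDeriv xi)) z :=
  ⟨(analyticAt_ldxi hz).differentiableAt, (analyticAt_ldxi hz).deriv.differentiableAt⟩

private lemma KA1_Lsymm (z : ℂ) : logDeriv xi (1 - z) = -logDeriv xi z := by
  have h1 : deriv (fun s => xi (1 - s)) z = -deriv xi (1 - z) := deriv_comp_const_sub xi 1 z
  have h2 : (fun s => xi (1 - s)) = xi := by
    funext s
    exact xi_one_sub s
  rw [h2] at h1
  rw [logDeriv_apply, logDeriv_apply, xi_one_sub, h1]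
  ring

private lemma KA1_Fsymm (z : ℂ) : KA1_F (1 - z) = -KA1_F z := by
  unfold KA1_F
  rw [← tsum_neg]
  refine tsum_congr fun a => ?_
  unfold KA1_g
  have e1 : 1 - z - a = -(z - (1 - a)) := by ring
  have e2 : 1 - z - (1 - a) = -(z - a) := by ring
  rw [e1, e2, inv_neg, inv_neg]
  ring

/-- `xi'/xi = F + c (z - 1/2)` off the zeros -/
private lemma KA1_lin (hRH : RiemannHypothesis) : ∃ c : ℂ, ∀ z : ℂ, xi z ≠ 0 →
    logDeriv xi z = KA1_F z + c * (z - 1 / 2) := by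
  obtain ⟨hU, hU'⟩ := KA1_U
  obtain ⟨c, hc⟩ := hU.exists_eq_add_of_deriv_eq (f := deriv (logDeriv xi)) (g := KA1_F1) hU'
    (fun z hz => (KA1_L hz).2.differentiableWithinAt) (fun z hz => (KA1_Fd hRH hz).2.differentiableAt.differentiableWithinAt)
    (fun z hz => by rw [(KA1_Fd hRH hz).2.deriv]; exact KA1_second hz)
  have h1 : ∀ z : ℂ, xi z ≠ 0 → HasDerivAt (fun w => KA1_F w + c * w) (KA1_F1 z + c * 1) z := fun z hz =>
    (KA1_Fd hRH hz).1.add ((hasDerivAt_id z).const_mul c)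
  obtain ⟨d, hd⟩ := hU.exists_eq_add_of_deriv_eq (f := logDeriv xi) (g := fun w => KA1_F w + c * w) hU'
    (fun z hz => (KA1_L hz).1.differentiableWithinAt) (fun z hz => (h1 z hz).differentiableAt.differentiableWithinAt)
    (fun z hz => by
      rw [(h1 z hz).deriv, mul_one]
      exact hc hz)
  refine ⟨c, fun z hz => ?_⟩
  have e1 : logDeriv xi z = KA1_F z + c * z + d := hd hz
  have hz' : xi (1 - z) ≠ 0 := by rw [xi_one_sub]; exact hz
  have e2 : logDeriv xi (1 - z) = KA1_F (1 - z) + c * (1 - z) + d := hd hz'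
  rw [KA1_Lsymm, KA1_Fsymm] at e2
  linear_combination (1 / 2) * e1 - (1 / 2) * e2

private lemma KA1_greal (hRH : RiemannHypothesis) {a : ℂ} (ha : xi a = 0) {y : ℝ} (hy : 0 < y) :
    KA1_g a (1 / 2 + y) = ((y / (y ^ 2 + a.im ^ 2) : ℝ) : ℂ) := by
  have haeq := re_of_RH hRH ha
  set γ : ℝ := a.im with hγ
  have e1 : (1 / 2 + (y : ℂ)) - a = y - γ * I := by rw [haeq]; ring
  have e2 : (1 / 2 + (y : ℂ)) - (1 - a) = y + γ * I := by rw [haeq]; ring
  have h0 : 0 < y ^ 2 + γ ^ 2 := by positivity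
  have h1 : ((y : ℂ) - γ * I) * (y + γ * I) = ((y ^ 2 + γ ^ 2 : ℝ) : ℂ) := by
    push_cast
    ring_nf
    rw [I_sq]
    ring
  have h2 : ((y : ℂ) - γ * I) ≠ 0 := by
    intro h
    rw [h, zero_mul] at h1
    exact h0.ne (by exact_mod_cast h1)
  have h3 : ((y : ℂ) + γ * I) ≠ 0 := by
    intro h
    rw [h, mul_zero] at h1
    exact h0.ne (by exact_mod_cast h1)
  rw [KA1_geq (by rw [e1]; exact h2) (by rw [e2]; exact h3), e1, e2, ← mul_inv, h1]
  push_cast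
  rw [div_eq_mul_inv]
  ring

private lemma KA1_diff (y g : ℝ) (hy : 1 ≤ y) :
    |(y + 2) / ((y + 2) ^ 2 + g ^ 2) - y / (y ^ 2 + g ^ 2)| ≤ 4 * (1 / (1 + |0 - g|) ^ 2) := by
  have hg : (1 + |0 - g|) ^ 2 ≤ 2 * (y ^ 2 + g ^ 2) := by
    rw [zero_sub, abs_neg]
    have h1 : |g| ^ 2 = g ^ 2 := sq_abs g
    nlinarith [sq_nonneg (1 - |g|)]
  have h1 : 0 < (y + 2) ^ 2 + g ^ 2 := by positivity
  have h2 : 0 < y ^ 2 + g ^ 2 := by positivity
  have h3 : (y + 2) / ((y + 2) ^ 2 + g ^ 2) - y / (y ^ 2 + g ^ 2) =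
      (2 * g ^ 2 - 2 * y ^ 2 - 4 * y) / (((y + 2) ^ 2 + g ^ 2) * (y ^ 2 + g ^ 2)) := by
    rw [div_sub_div _ _ h1.ne' h2.ne']
    congr 1
    ring
  have h4 : |2 * g ^ 2 - 2 * y ^ 2 - 4 * y| ≤ 2 * ((y + 2) ^ 2 + g ^ 2) := by
    rw [abs_le]
    constructor <;> nlinarith
  rw [h3, abs_div, abs_of_pos (mul_pos h1 h2)]
  calc |2 * g ^ 2 - 2 * y ^ 2 - 4 * y| / (((y + 2) ^ 2 + g ^ 2) * (y ^ 2 + g ^ 2)) ≤
      2 * ((y + 2) ^ 2 + g ^ 2) / (((y + 2) ^ 2 + g ^ 2) * (y ^ 2 + g ^ 2)) := by gcongr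
    _ = 2 / (y ^ 2 + g ^ 2) := by field_simp
    _ ≤ 4 * (1 / (1 + |0 - g|) ^ 2) := by
      rw [mul_one_div, div_le_div_iff₀ h2 (by positivity)]
      linarith

private lemma KA1_lim (g : ℝ) : Tendsto (fun y : ℝ => y / (y ^ 2 + g ^ 2)) atTop (𝓝 0) := by
  refine squeeze_zero' ?_ ?_ (tendsto_inv_atTop_zero (𝕜 := ℝ))
  · filter_upwards [eventually_gt_atTop (0 : ℝ)] with y hy
    positivity
  · filter_upwards [eventually_gt_atTop (0 : ℝ)] with y hy
    rw [inv_eq_one_div, div_le_div_iff₀ (by positivity) hy]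
    nlinarith [sq_nonneg g]

private lemma KA1_re (y : ℝ) : ((1 / 2 : ℂ) + y).re = 1 / 2 + y := by
  simp

private lemma KA1_Fdiff (hRH : RiemannHypothesis) :
    Tendsto (fun y : ℝ => KA1_F (1 / 2 + (y + 2 : ℝ)) - KA1_F (1 / 2 + y)) atTop (𝓝 0) := by
  have hu := (KA1_usum hRH).mul_left 4
  have h1 : Tendsto (fun y : ℝ => ∑' a : ℂ, ((mx a : ℂ) * KA1_g a (1 / 2 + (y + 2 : ℝ)) -
      (mx a : ℂ) * KA1_g a (1 / 2 + y))) atTop (𝓝 (∑' a : ℂ, (0 : ℂ))) := by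
    refine tendsto_tsum_of_dominated_convergence hu ?_ ?_
    · intro a
      by_cases ha : xi a = 0
      · have h2 := KA1_lim a.im
        have h3 : Tendsto (fun y : ℝ => (y + 2) / ((y + 2) ^ 2 + a.im ^ 2)) atTop (𝓝 0) :=
          h2.comp (tendsto_atTop_add_const_right atTop 2 tendsto_id)
        have h4 : Tendsto (fun y : ℝ => (mx a : ℂ) * (((y + 2) / ((y + 2) ^ 2 + a.im ^ 2) : ℝ) : ℂ) -
            (mx a : ℂ) * ((y / (y ^ 2 + a.im ^ 2) : ℝ) : ℂ)) atTop (𝓝 ((mx a : ℂ) * ((0 : ℝ) : ℂ) - (mx a : ℂ) * ((0 : ℝ) : ℂ))) :=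
          (((Complex.continuous_ofReal.tendsto 0).comp h3).const_mul _).sub
            (((Complex.continuous_ofReal.tendsto 0).comp h2).const_mul _)
        rw [sub_self] at h4
        refine h4.congr' ?_
        filter_upwards [eventually_gt_atTop (0 : ℝ)] with y hy
        rw [KA1_greal hRH ha hy, KA1_greal hRH ha (by linarith : 0 < y + 2)]
      · rw [mx_eq_zero ha]
        simp only [Nat.cast_zero, zero_mul, sub_zero]
        exact tendsto_const_nhds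
    · filter_upwards [eventually_ge_atTop (1 : ℝ)] with y hy a
      by_cases ha : xi a = 0
      · rw [KA1_greal hRH ha (by linarith : 0 < y), KA1_greal hRH ha (by linarith : 0 < y + 2), ← mul_sub,
          ← Complex.ofReal_sub, norm_mul, Complex.norm_natCast, Complex.norm_real, Real.norm_eq_abs]
        unfold KA1_u
        have := KA1_diff y a.im hy
        calc (mx a : ℝ) * _ ≤ (mx a : ℝ) * (4 * (1 / (1 + |0 - a.im|) ^ 2)) := by gcongr
          _ = _ := by ring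
      · rw [mx_eq_zero ha]
        simp only [Nat.cast_zero, zero_mul, sub_zero, norm_zero]
        unfold KA1_u
        positivity
  rw [tsum_zero] at h1
  refine h1.congr' ?_
  filter_upwards [eventually_ge_atTop (1 : ℝ)] with y hy
  have n1 : xi (1 / 2 + (y + 2 : ℝ)) ≠ 0 := xi_ne_zero (by rw [KA1_re]; linarith)
  have n2 : xi (1 / 2 + y) ≠ 0 := xi_ne_zero (by rw [KA1_re]; linarith)
  unfold KA1_F
  rw [(KA1_sum hRH n1).1.tsum_sub (KA1_sum hRH n2).1]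

private lemma KA1_Llim : Tendsto (fun x : ℝ => LSeries vMc x) atTop (𝓝 0) := by
  have h := LSeries.tendsto_atTop (f := vMc) (absc.trans_lt (EReal.coe_lt_top 1))
  have e : vMc 1 = 0 := by simp [vMc]
  rw [e] at h
  exact h

private lemma KA1_Ldiff :
    Tendsto (fun y : ℝ => logDeriv xi (1 / 2 + (y + 2 : ℝ)) - logDeriv xi (1 / 2 + y)) atTop (𝓝 0) := by
  have hx : Tendsto (fun y : ℝ => 1 / 2 + y) atTop atTop := tendsto_atTop_add_const_left atTop (1 / 2) tendsto_id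
  have hinv : ∀ b : ℝ, Tendsto (fun y : ℝ => (((1 / 2 + y + b)⁻¹ : ℝ) : ℂ)) atTop (𝓝 0) := by
    intro b
    have h1 : Tendsto (fun y : ℝ => (1 / 2 + y + b)⁻¹) atTop (𝓝 0) :=
      tendsto_inv_atTop_zero.comp (tendsto_atTop_add_const_right atTop b hx)
    have h2 := (Complex.continuous_ofReal.tendsto 0).comp h1
    rw [Complex.ofReal_zero] at h2
    exact h2
  have hL0 : Tendsto (fun y : ℝ => LSeries vMc ((1 / 2 + y : ℝ) : ℂ)) atTop (𝓝 0) := KA1_Llim.comp hx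
  have hL2 : Tendsto (fun y : ℝ => LSeries vMc ((1 / 2 + y + 2 : ℝ) : ℂ)) atTop (𝓝 0) :=
    KA1_Llim.comp (tendsto_atTop_add_const_right atTop 2 hx)
  have h := ((hinv 2).add ((hinv 1).add (((hinv (-1)).neg).add (hL0.add hL2.neg))))
  simp only [neg_zero, add_zero] at h
  refine h.congr' ?_
  filter_upwards [eventually_gt_atTop (1 : ℝ)] with y hy
  have hs : 1 < ((1 / 2 : ℂ) + y).re := by rw [KA1_re]; linarith
  have e := logDeriv_shift hs
  have e1 : (1 / 2 : ℂ) + ((y + 2 : ℝ) : ℂ) = 1 / 2 + y + 2 := by push_cast; ring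
  rw [e1, e]
  push_cast
  ring

private lemma KA1_c0 (hRH : RiemannHypothesis) {c : ℂ} (hc : ∀ z : ℂ, xi z ≠ 0 →
    logDeriv xi z = KA1_F z + c * (z - 1 / 2)) : c = 0 := by
  have h1 := KA1_Ldiff.sub (KA1_Fdiff hRH)
  have h2 : Tendsto (fun _ : ℝ => c * 2) atTop (𝓝 (0 - 0)) := by
    refine h1.congr' ?_
    filter_upwards [eventually_ge_atTop (1 : ℝ)] with y hy
    have n1 : xi (1 / 2 + (y + 2 : ℝ)) ≠ 0 := xi_ne_zero (by rw [KA1_re]; linarith)
    have n2 : xi (1 / 2 + y) ≠ 0 := xi_ne_zero (by rw [KA1_re]; linarith)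
    rw [hc _ n1, hc _ n2]
    push_cast
    ring
  have h3 := tendsto_nhds_unique tendsto_const_nhds h2
  rw [sub_zero] at h3
  rcases mul_eq_zero.1 h3 with h | h
  · exact h
  · norm_num at h

/-- LEAF KA1. Under RH `xi'/xi (1/2 + y) = ∑ mx a y/(y² + a.im²)` for real `y > 1/2` (and for `Re y > 0`). The library has
`partial_fraction` (second derivative of `logDeriv xi`, absolutely convergent). On the half plane `Re y > 0` both sides are
analytic with the same second derivative (`y/(y² + γ²) = (1/(y - iγ) + 1/(y + iγ))/2`, sum over the symmetric multiset of zeros),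
so they differ by `A + B y`. Both sides are odd meromorphic functions of `y` (`xi (1 - s) = xi s`, `xi_one_sub`), continuous
at some point `i τ` that is not a zero (the zeros are countable), so `A = 0`. `B = 0`: for real `y → ∞` the left side is
`O(log y)` (KA2) and the sum is `o(y)`. (If you prefer, prove it only as needed: real `y > 1/2`.) -/
theorem ld_sum (hRH : RiemannHypothesis) {y : ℝ} (hy : 1 / 2 < y) :
    HasSum (fun a : ℂ => (mx a : ℝ) * (y / (y ^ 2 + a.im ^ 2))) (logDeriv xi ((1 / 2 : ℂ) + y)).re := by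
  obtain ⟨c, hc⟩ := KA1_lin hRH
  have hc0 := KA1_c0 hRH hc
  have hn : xi ((1 / 2 : ℂ) + y) ≠ 0 := xi_ne_zero (by rw [KA1_re]; linarith)
  have h1 := hc _ hn
  rw [hc0, zero_mul, add_zero] at h1
  have h2 : HasSum (fun a : ℂ => (mx a : ℂ) * KA1_g a (1 / 2 + y)) (logDeriv xi ((1 / 2 : ℂ) + y)) := by
    rw [h1]
    exact (KA1_sum hRH hn).1.hasSum
  have h3 := Complex.reCLM.hasSum h2
  refine h3.congr_fun ?_
  intro a
  rw [Complex.reCLM_apply]
  by_cases ha : xi a = 0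
  · rw [KA1_greal hRH ha (by linarith : 0 < y)]
    rw [← Complex.ofReal_natCast, ← Complex.ofReal_mul, Complex.ofReal_re]
  · rw [mx_eq_zero ha]
    simp

end Pool.Agent.Lib.MP_2a816b_nt.TA
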