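import Pool.Agent.Lib.MP_2a816b_nt.TA.Defs

open Complex Set Filter Topology MeasureTheory

namespace Pool.Agent.Lib.MP_2a816b_nt.TA

open Pool.Agent.Lib.MP_00e05b_nt Pool.Agent.Lib.MP_00e05b_nt.Mont Pool.Agent.Lib.MP_2a816b_nt.PV

/-- `log (x - 1) ≤ Γ'/Γ(x) ≤ log x` for real `x > 1`, by convexity of `log Γ`. -/
theorem KA2_psi {x : ℝ} (hx : 1 < x) : Real.log (x - 1) ≤ deriv Real.Gamma x / Real.Gamma x ∧
    deriv Real.Gamma x / Real.Gamma x ≤ Real.log x := by
  set f : ℝ → ℝ := Real.log ∘ Real.Gamma with hf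
  have hc : ConvexOn ℝ (Ioi 0) f := Real.convexOn_log_Gamma
  have h_rec : ∀ x : ℝ, 0 < x → f (x + 1) = f x + Real.log x := fun x hx => by
    simp only [f, Function.comp_apply, Real.Gamma_add_one hx.ne',
      Real.log_mul hx.ne' (Real.Gamma_pos_of_pos hx).ne', add_comm]
  have hG : ∀ x : ℝ, 0 < x → DifferentiableAt ℝ Real.Gamma x := fun x hx =>
    Real.differentiableAt_Gamma fun m => by
      have : (0 : ℝ) ≤ m := Nat.cast_nonneg m
      linarith
  have hder : ∀ x : ℝ, 0 < x → DifferentiableAt ℝ f x := fun x hx =>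
    (hG x hx).log (Real.Gamma_pos_of_pos hx).ne'
  have hx0 : 0 < x := by linarith
  have hd : deriv f x = deriv Real.Gamma x / Real.Gamma x := by
    rw [hf, Function.comp_def, deriv.log (hG x hx0) (Real.Gamma_pos_of_pos hx0).ne']
  rw [← hd]
  constructor
  · have h1 := hc.slope_le_deriv (x := x - 1) (y := x) (mem_Ioi.mpr (by linarith)) (mem_Ioi.mpr hx0) (by linarith) (hder x hx0)
    rw [slope_def_field, show x - (x - 1) = 1 by ring, div_one] at h1
    have h2 := h_rec (x - 1) (by linarith)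
    rw [sub_add_cancel] at h2
    linarith
  · have h1 := hc.deriv_le_slope (x := x) (y := x + 1) (mem_Ioi.mpr hx0) (mem_Ioi.mpr (by linarith)) (by linarith) (hder x hx0)
    rw [slope_def_field, show x + 1 - x = 1 by ring, div_one] at h1
    have h2 := h_rec x hx0
    linarith

theorem KA2_digamma {x : ℝ} (hx : 0 < x) : (logDeriv Complex.Gamma (x : ℂ)).re =
    deriv Real.Gamma x / Real.Gamma x := by
  have hd : DifferentiableAt ℂ Complex.Gamma (x : ℂ) := Complex.differentiableAt_Gamma _ fun m h => by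
    have h1 := congrArg Complex.re h
    rw [Complex.ofReal_re, Complex.neg_re, Complex.natCast_re] at h1
    have : (0 : ℝ) ≤ m := Nat.cast_nonneg m
    linarith
  have h1 := hd.hasDerivAt.real_of_complex
  have h2 : deriv Real.Gamma x = (deriv Complex.Gamma (x : ℂ)).re := h1.deriv
  rw [h2, logDeriv_apply, Complex.Gamma_ofReal, Complex.div_ofReal_re]

theorem KA2_zeta {σ : ℝ} (hσ : 2 ≤ σ) : ‖logDeriv riemannZeta (σ : ℂ)‖ ≤
    (2 : ℝ) ^ (-(σ - 2)) * ∑' n, ‖LSeries.term (fun n => (ArithmeticFunction.vonMangoldt n : ℂ)) (2 : ℂ) n‖ := by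
  have hs : 1 < (σ : ℂ).re := by rw [Complex.ofReal_re]; linarith
  have h2 : 1 < (2 : ℂ).re := by norm_num
  have h1 := ArithmeticFunction.LSeries_vonMangoldt_eq_deriv_riemannZeta_div hs
  have h3 : logDeriv riemannZeta (σ : ℂ) = - LSeries (fun n => (ArithmeticFunction.vonMangoldt n : ℂ)) (σ : ℂ) := by
    rw [h1, logDeriv_apply]; ring
  rw [h3, norm_neg, LSeries]
  have hsum := (ArithmeticFunction.LSeriesSummable_vonMangoldt h2)
  refine tsum_of_norm_bounded ((hsum.norm.hasSum).mul_left ((2 : ℝ) ^ (-(σ - 2)))) fun n => ?_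
  rw [LSeries.norm_term_eq, LSeries.norm_term_eq]
  split_ifs with hn
  · simp
  · rw [Complex.ofReal_re]
    by_cases hn1 : n = 1
    · subst hn1
      simp
    · have hn2 : 2 ≤ n := by omega
      have hn0 : (0 : ℝ) < n := by positivity
      have hn2' : (2 : ℝ) ≤ n := by exact_mod_cast hn2
      have e1 : ((n : ℝ) ^ σ)⁻¹ = (n : ℝ) ^ (-(σ - 2)) * ((n : ℝ) ^ (2 : ℂ).re)⁻¹ := by
        rw [show (2 : ℂ).re = 2 by norm_num, ← Real.rpow_neg hn0.le, ← Real.rpow_neg hn0.le, ← Real.rpow_add hn0]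
        congr 1; ring
      have e2 : (n : ℝ) ^ (-(σ - 2)) ≤ (2 : ℝ) ^ (-(σ - 2)) :=
        Real.rpow_le_rpow_of_nonpos (by norm_num) hn2' (by linarith)
      rw [div_eq_mul_inv, e1, div_eq_mul_inv]
      have h0 : 0 ≤ ‖(ArithmeticFunction.vonMangoldt n : ℂ)‖ * ((n : ℝ) ^ (2 : ℂ).re)⁻¹ := by positivity
      calc ‖(ArithmeticFunction.vonMangoldt n : ℂ)‖ * ((n : ℝ) ^ (-(σ - 2)) * ((n : ℝ) ^ (2 : ℂ).re)⁻¹)
          = (n : ℝ) ^ (-(σ - 2)) * (‖(ArithmeticFunction.vonMangoldt n : ℂ)‖ * ((n : ℝ) ^ (2 : ℂ).re)⁻¹) := by ring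
        _ ≤ _ := mul_le_mul_of_nonneg_right e2 h0

theorem KA2_logDeriv_congr {f g : ℂ → ℂ} {x : ℂ} (h : f =ᶠ[𝓝 x] g) : logDeriv f x = logDeriv g x := by
  rw [logDeriv_apply, logDeriv_apply, h.deriv_eq, h.eq_of_nhds]

theorem KA2_GammaR {s : ℂ} (hs : 0 < s.re) : logDeriv Gammaℝ s =
    -(Real.log Real.pi : ℂ) / 2 + 1 / 2 * logDeriv Complex.Gamma (s / 2) := by
  have hs2 : 0 < (s / 2).re := by
    rw [show s / 2 = s * ((1 / 2 : ℝ) : ℂ) by push_cast; ring, Complex.re_mul_ofReal]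
    linarith
  have hg0 : Complex.Gamma (s / 2) ≠ 0 := Complex.Gamma_ne_zero_of_re_pos hs2
  have hd : DifferentiableAt ℂ Complex.Gamma (s / 2) := Complex.differentiableAt_Gamma _ fun m h => by
    have h1 := congrArg Complex.re h
    rw [Complex.neg_re, Complex.natCast_re] at h1
    have : (0 : ℝ) ≤ m := Nat.cast_nonneg m
    linarith
  have hpi : (Real.pi : ℂ) ≠ 0 := Complex.ofReal_ne_zero.mpr Real.pi_ne_zero
  have h1 : HasDerivAt (fun z : ℂ => (Real.pi : ℂ) ^ (-z / 2)) ((Real.pi : ℂ) ^ (-s / 2) * Complex.log Real.pi * (-1 / 2)) s := by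
    have h0 : HasDerivAt (fun z : ℂ => -z / 2) (-1 / 2) s := ((hasDerivAt_id s).neg).div_const 2
    exact h0.const_cpow (Or.inl hpi)
  have h2 : HasDerivAt (fun z : ℂ => Complex.Gamma (z / 2)) (deriv Complex.Gamma (s / 2) * (1 / 2)) s := by
    have h0 : HasDerivAt (fun z : ℂ => z / 2) (1 / 2) s := (hasDerivAt_id s).div_const 2
    exact HasDerivAt.comp s hd.hasDerivAt h0
  have h3 := h1.mul h2
  have h4 : deriv Gammaℝ s = (Real.pi : ℂ) ^ (-s / 2) * Complex.log Real.pi * (-1 / 2) * Complex.Gamma (s / 2) +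
      (Real.pi : ℂ) ^ (-s / 2) * (deriv Complex.Gamma (s / 2) * (1 / 2)) := h3.deriv
  have hp0 : (Real.pi : ℂ) ^ (-s / 2) ≠ 0 := by
    rw [Complex.cpow_def_of_ne_zero hpi]; exact Complex.exp_ne_zero _
  rw [logDeriv_apply, logDeriv_apply, h4, Complex.Gammaℝ_def, Complex.ofReal_log Real.pi_pos.le]
  field_simp

/-- the formula on the real axis -/
theorem KA2_formula {y : ℝ} (hy : 1 < y) : (logDeriv xi ((1 / 2 : ℂ) + y)).re =
    1 / (y + 1 / 2) + 1 / (y - 1 / 2) - Real.log Real.pi / 2 +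
      1 / 2 * (deriv Real.Gamma ((y + 1 / 2) / 2) / Real.Gamma ((y + 1 / 2) / 2)) +
      (logDeriv riemannZeta ((y + 1 / 2 : ℝ) : ℂ)).re := by
  have e0 : (1 / 2 : ℂ) + y = ((y + 1 / 2 : ℝ) : ℂ) := by push_cast; ring
  rw [e0]
  set σ : ℝ := y + 1 / 2 with hσ
  have hs0 : 0 < (σ : ℂ).re := by rw [Complex.ofReal_re]; linarith
  have hσ1 : (σ : ℂ) ≠ 1 := by
    intro h
    have := congrArg Complex.re h
    rw [Complex.ofReal_re, Complex.one_re] at this
    linarith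
  have hσ0 : (σ : ℂ) ≠ 0 := by
    intro h
    rw [h] at hs0
    simp at hs0
  have hev : xi =ᶠ[𝓝 (σ : ℂ)] fun s => s * (1 - s) * Gammaℝ s * riemannZeta s := by
    have h1 : ∀ᶠ z : ℂ in 𝓝 (σ : ℂ), 0 < z.re := (Complex.continuous_re.continuousAt).eventually_mem (Ioi_mem_nhds hs0)
    have h2 : ∀ᶠ z : ℂ in 𝓝 (σ : ℂ), z ≠ 1 := eventually_ne_nhds hσ1
    filter_upwards [h1, h2] with z hz1 hz2 using xi_eq_zeta hz1 hz2
  have hz0 : riemannZeta (σ : ℂ) ≠ 0 := riemannZeta_ne_zero_of_one_lt_re (by rw [Complex.ofReal_re]; linarith)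
  have hg0 : Gammaℝ (σ : ℂ) ≠ 0 := Gammaℝ_ne_zero_of_re_pos hs0
  have h1s : 1 - (σ : ℂ) ≠ 0 := sub_ne_zero.mpr (Ne.symm hσ1)
  have hdG : DifferentiableAt ℂ Gammaℝ (σ : ℂ) := by
    have h : DifferentiableAt ℂ (fun s => ((Gammaℝ s)⁻¹)⁻¹) (σ : ℂ) :=
      (differentiable_Gammaℝ_inv (σ : ℂ)).inv (inv_ne_zero hg0)
    simpa only [inv_inv] using h
  have hdz : DifferentiableAt ℂ riemannZeta (σ : ℂ) := differentiableAt_riemannZeta hσ1
  rw [KA2_logDeriv_congr hev,
    logDeriv_mul (f := fun s => s * (1 - s) * Gammaℝ s) (g := riemannZeta) (σ : ℂ)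
      (mul_ne_zero (mul_ne_zero hσ0 h1s) hg0) hz0 (by fun_prop) hdz,
    logDeriv_mul (f := fun s => s * (1 - s)) (g := Gammaℝ) (σ : ℂ) (mul_ne_zero hσ0 h1s) hg0 (by fun_prop) hdG,
    logDeriv_mul (f := fun s => s) (g := fun s => 1 - s) (σ : ℂ) hσ0 h1s (by fun_prop) (by fun_prop),
    KA2_GammaR hs0]
  have e1 : logDeriv (fun s : ℂ => s) (σ : ℂ) = ((1 / σ : ℝ) : ℂ) := by
    rw [logDeriv_apply]
    simp
  have e2 : logDeriv (fun s : ℂ => 1 - s) (σ : ℂ) = ((1 / (σ - 1) : ℝ) : ℂ) := by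
    rw [logDeriv_apply]
    have : deriv (fun s : ℂ => 1 - s) (σ : ℂ) = -1 := by
      simp
    rw [this]
    have h3 : (σ : ℂ) - 1 ≠ 0 := sub_ne_zero.mpr hσ1
    push_cast
    field_simp
    ring
  have e3 : (σ : ℂ) / 2 = ((σ / 2 : ℝ) : ℂ) := by push_cast; ring
  have e4 : (1 / 2 * logDeriv Complex.Gamma ((σ / 2 : ℝ) : ℂ)).re =
      1 / 2 * (deriv Real.Gamma (σ / 2) / Real.Gamma (σ / 2)) := by
    rw [show (1 / 2 : ℂ) = ((1 / 2 : ℝ) : ℂ) by push_cast; ring, Complex.re_ofReal_mul,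
      KA2_digamma (by linarith)]
  have e5 : (-(Real.log Real.pi : ℂ) / 2).re = -Real.log Real.pi / 2 := by
    rw [show (-(Real.log Real.pi : ℂ) / 2) = ((-Real.log Real.pi / 2 : ℝ) : ℂ) by push_cast; ring,
      Complex.ofReal_re]
  rw [e1, e2, e3, Complex.add_re, Complex.add_re, Complex.add_re, Complex.add_re, e4, e5, Complex.ofReal_re,
    Complex.ofReal_re, show σ - 1 = y - 1 / 2 by rw [hσ]; ring]
  ring

/-- LEAF KA2 (no zeros). `xi s = s (1 - s) π^(-s/2) Γ(s/2) ζ(s)` for `Re s > 1` (`xi_eq`, `completedRiemannZeta`), so for real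
`s = 1/2 + y`: `xi'/xi = 1/s + 1/(s - 1) - (log π)/2 + (1/2) (Γ'/Γ)(s/2) + ζ'/ζ(s)`; `ζ'/ζ(s) → 0` (Dirichlet series, `O(2^(-s))`),
and `log (x - 1) ≤ Γ'/Γ(x) ≤ log x` for real `x > 1` by convexity of `log Γ` (`Real.convexOn_log_Gamma`,
`log Γ(x + 1) - log Γ(x) = log x`), or Mathlib's digamma if it has the bound. -/
theorem ld_asym : Tendsto (fun y : ℝ => (logDeriv xi ((1 / 2 : ℂ) + y)).re - 1 / 2 * Real.log (y / (2 * Real.pi)))
    atTop (𝓝 0) := by
  have t1 : Tendsto (fun y : ℝ => 1 / (y + 1 / 2)) atTop (𝓝 0) := by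
    simp_rw [one_div]
    exact tendsto_inv_atTop_zero.comp (tendsto_atTop_add_const_right _ _ tendsto_id)
  have t2 : Tendsto (fun y : ℝ => 1 / (y - 1 / 2)) atTop (𝓝 0) := by
    simp_rw [one_div, sub_eq_add_neg]
    exact tendsto_inv_atTop_zero.comp (tendsto_atTop_add_const_right _ _ tendsto_id)
  have t3 : Tendsto (fun y : ℝ => 1 / 2 * (deriv Real.Gamma ((y + 1 / 2) / 2) / Real.Gamma ((y + 1 / 2) / 2) -
      Real.log (y / 2))) atTop (𝓝 0) := by
    have hb : Tendsto (fun y : ℝ => 3 / y) atTop (𝓝 0) := tendsto_const_nhds.div_atTop tendsto_id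
    refine squeeze_zero_norm' ?_ hb
    filter_upwards [eventually_ge_atTop 3] with y hy
    have hy0 : 0 < y := by linarith
    obtain ⟨h1, h2⟩ := KA2_psi (x := (y + 1 / 2) / 2) (by linarith)
    have e1 : Real.log ((y + 1 / 2) / 2) - Real.log (y / 2) ≤ 3 / y := by
      rw [← Real.log_div (by positivity) (by positivity)]
      have := Real.log_le_sub_one_of_pos (x := (y + 1 / 2) / 2 / (y / 2)) (by positivity)
      refine this.trans ?_
      have : (y + 1 / 2) / 2 / (y / 2) - 1 = (1 / 2) / y := by field_simp; ring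
      rw [this]
      exact div_le_div_of_nonneg_right (by norm_num) hy0.le
    have e2 : -(3 / y) ≤ Real.log ((y + 1 / 2) / 2 - 1) - Real.log (y / 2) := by
      have h0 : (y + 1 / 2) / 2 - 1 = (y - 3 / 2) / 2 := by ring
      have h3 : 0 < y - 3 / 2 := by linarith
      rw [h0, ← Real.log_div (by positivity) (by positivity)]
      have := Real.one_sub_inv_le_log_of_pos (x := (y - 3 / 2) / 2 / (y / 2)) (by positivity)
      refine le_trans ?_ this
      have h3' : y - 3 / 2 ≠ 0 := h3.ne'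
      have h5 : ((y - 3 / 2) / 2 / (y / 2))⁻¹ = y / (y - 3 / 2) := by
        rw [div_div_div_cancel_right₀ two_ne_zero, inv_div]
      have h4 : 1 - ((y - 3 / 2) / 2 / (y / 2))⁻¹ = -((3 / 2) / (y - 3 / 2)) := by
        rw [h5, eq_neg_iff_add_eq_zero, sub_add, ← sub_div, div_self h3', sub_self]
      rw [h4, neg_le_neg_iff, div_le_div_iff₀ h3 hy0]
      linarith
    rw [Real.norm_eq_abs, abs_le]
    constructor <;> linarith
  have t4 : Tendsto (fun y : ℝ => (logDeriv riemannZeta ((y + 1 / 2 : ℝ) : ℂ)).re) atTop (𝓝 0) := by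
    set K := ∑' n, ‖LSeries.term (fun n => (ArithmeticFunction.vonMangoldt n : ℂ)) (2 : ℂ) n‖ with hK
    have hb : Tendsto (fun y : ℝ => (2 : ℝ) ^ (-(y + 1 / 2 - 2)) * K) atTop (𝓝 0) := by
      rw [show (0 : ℝ) = 0 * K by ring]
      refine Tendsto.mul_const K ?_
      have h1 : Tendsto (fun y : ℝ => -(y + 1 / 2 - 2)) atTop atBot := by
        refine tendsto_neg_atTop_atBot.comp ?_
        have : (fun y : ℝ => y + 1 / 2 - 2) = fun y => y + (-3 / 2) := by funext y; ring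
        rw [this]
        exact tendsto_atTop_add_const_right _ _ tendsto_id
      exact (tendsto_rpow_atBot_of_base_gt_one 2 (by norm_num)).comp h1
    refine squeeze_zero_norm' ?_ hb
    filter_upwards [eventually_ge_atTop 2] with y hy
    exact (Complex.abs_re_le_norm _).trans (KA2_zeta (by linarith))
  have t5 := ((t1.add t2).add t3).add t4
  rw [add_zero, add_zero, add_zero] at t5
  refine t5.congr' ?_
  filter_upwards [eventually_gt_atTop 1] with y hy
  rw [KA2_formula hy]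
  have hy0 : 0 < y := by linarith
  have : Real.log (y / (2 * Real.pi)) = Real.log (y / 2) - Real.log Real.pi := by
    rw [← Real.log_div (by positivity) Real.pi_ne_zero, div_div]
  rw [this]
  ring

end Pool.Agent.Lib.MP_2a816b_nt.TA
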