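import Pool.Agent.Lib.MP_2a816b_nt.TA.Defs

open Complex Set Filter Topology MeasureTheory

namespace Pool.Agent.Lib.MP_2a816b_nt.TA

open Pool.Agent.Lib.MP_00e05b_nt Pool.Agent.Lib.MP_00e05b_nt.Mont Pool.Agent.Lib.MP_2a816b_nt.PV

/-- the convolution square -/
private noncomputable def KA3_cv (ψ : ℝ → ℝ) (x : ℝ) : ℝ := ∫ y, ψ y * ψ (x - y)

private theorem KA3_es {ψ : ℝ → ℝ} (hψ : EB ψ (1 / 4)) : ES (KA3_cv ψ) (1 / 2) := by
  have hes := hψ.es
  refine ⟨?_, ?_, ?_⟩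
  · have h1 : KA3_cv ψ = convolution ψ ψ (ContinuousLinearMap.mul ℝ ℝ) volume := by
      funext x
      unfold KA3_cv convolution
      simp only [ContinuousLinearMap.mul_apply']
    rw [h1]
    exact HasCompactSupport.contDiff_convolution_right (n := ⊤) (ContinuousLinearMap.mul ℝ ℝ)
      hes.compact hes.integrable.locallyIntegrable hψ.smooth
  · intro u
    unfold KA3_cv
    rw [← integral_neg_eq_self]
    refine integral_congr_ae (Eventually.of_forall fun y => ?_)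
    simp only
    rw [hψ.even y, show -u - -y = -(u - y) by ring, hψ.even (u - y)]
  · intro u hu
    unfold KA3_cv
    rw [← integral_zero ℝ ℝ (μ := volume)]
    refine integral_congr_ae (Eventually.of_forall fun y => ?_)
    simp only
    by_cases hy : 1 / 4 ≤ |y|
    · rw [hψ.supp y hy, zero_mul]
    · have h2 : 1 / 4 ≤ |u - y| := by
        have h3 : |u| ≤ |u - y| + |y| := by
          calc |u| = |(u - y) + y| := by rw [sub_add_cancel]
            _ ≤ |u - y| + |y| := abs_add_le _ _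
        push Not at hy
        linarith
      rw [hψ.supp (u - y) h2, mul_zero]

private theorem KA3_ck {ψ : ℝ → ℝ} (hψ : EB ψ (1 / 4)) (t : ℝ) : ck (KA3_cv ψ) t = (ck ψ t) ^ 2 := by
  have hes := hψ.es
  set F : ℝ → ℂ := fun u => (ψ u : ℂ) * cexp (((t * u : ℝ) : ℂ) * I) with hF
  have hFint : Integrable F := by
    apply Continuous.integrable_of_hasCompactSupport
    · rw [hF]
      have := hes.continuous
      fun_prop
    · apply HasCompactSupport.mul_right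
      exact hes.compact.comp_left (g := fun x : ℝ => (x : ℂ)) Complex.ofReal_zero
  have h1 := integral_convolution (ContinuousLinearMap.mul ℝ ℂ) (μ := volume) (ν := volume)
    hFint hFint
  have h2 : ∀ x, (convolution F F (ContinuousLinearMap.mul ℝ ℂ) volume) x =
      (KA3_cv ψ x : ℂ) * cexp (((t * x : ℝ) : ℂ) * I) := by
    intro x
    unfold convolution KA3_cv
    rw [← integral_complex_ofReal, ← integral_mul_const]
    refine integral_congr_ae (Eventually.of_forall fun y => ?_)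
    simp only [ContinuousLinearMap.mul_apply', hF]
    have h3 : cexp (((t * x : ℝ) : ℂ) * I) = cexp (((t * y : ℝ) : ℂ) * I) *
        cexp (((t * (x - y) : ℝ) : ℂ) * I) := by
      rw [← Complex.exp_add]
      congr 1
      push_cast
      ring
    rw [h3]
    push_cast
    ring
  rw [integral_congr_ae (Eventually.of_forall h2), ck_cexp (KA3_es hψ) t] at h1
  simp only [ContinuousLinearMap.mul_apply', hF] at h1
  rw [ck_cexp hes t] at h1
  have h4 : ((ck (KA3_cv ψ) t : ℝ) : ℂ) = ((ck ψ t ^ 2 : ℝ) : ℂ) := by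
    rw [h1]
    push_cast
    ring
  exact_mod_cast h4

private theorem KA3_pos {ψ : ℝ → ℝ} (hψ : EB ψ (1 / 4)) : 0 < KA3_cv ψ 0 := by
  have hc := hψ.es.continuous
  have h1 : KA3_cv ψ 0 = ∫ y, ψ y * ψ y := by
    unfold KA3_cv
    refine integral_congr_ae (Eventually.of_forall fun y => ?_)
    simp only
    rw [zero_sub, hψ.even]
  rw [h1]
  refine Continuous.integral_pos_of_hasCompactSupport_nonneg_nonzero (f := fun y => ψ y * ψ y) (x := 0) (by fun_prop)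
    hψ.es.compact.mul_right (fun y => mul_self_nonneg _) ?_
  rw [hψ.one 0 (by norm_num)]
  norm_num

/-- Exchange of the sum over the zeros and an integral. -/
private theorem KA3_exch {g : ℂ → ℝ → ℝ} {B : ℝ → ℝ} (hg : ∀ a, Continuous (g a)) (h0 : ∀ a t, xi a ≠ 0 → g a t = 0)
    (hB : Integrable B) (hb : ∀ t, Summable (fun a => |g a t|) ∧ ∑' a, |g a t| ≤ B t) :
    (∀ a, Integrable (g a)) ∧ Integrable (fun t => ∑' a, g a t) ∧
      HasSum (fun a => ∫ t, g a t) (∫ t, ∑' a, g a t) ∧ |∫ t, ∑' a, g a t| ≤ ∫ t, B t := by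
  have hle : ∀ t, |∑' a, g a t| ≤ B t := fun t => by
    have h1 : ‖∑' a, g a t‖ ≤ ∑' a, ‖g a t‖ := norm_tsum_le_tsum_norm (hb t).1
    exact h1.trans (hb t).2
  have hi : ∀ a, Integrable (g a) := fun a => hB.mono' (hg a).aestronglyMeasurable (ae_of_all _ fun t =>
    (((hb t).1.le_tsum a fun _ _ => abs_nonneg _).trans (hb t).2 : |g a t| ≤ B t))
  obtain ⟨Z, hZ⟩ : ∃ Z : Set ℂ, Z = {a : ℂ | xi a = 0} := ⟨_, rfl⟩
  have hcz : Countable Z := by
    rw [hZ]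
    exact countable_zeros.to_subtype
  have hs : ∀ t, HasSum (fun a : Z => g a t) (∑' a, g a t) := by
    intro t
    have h1 : HasSum (fun a => g a t) (∑' a, g a t) := (Summable.of_norm (hb t).1).hasSum
    refine (hasSum_subtype_iff_of_support_subset (f := fun a => g a t) (s := Z) ?_).2 h1
    intro a ha
    rw [hZ]
    by_contra h
    exact ha (h0 a t h)
  have hp : ∀ (s : Finset Z) (t : ℝ), ‖∑ a ∈ s, g a t‖ ≤ B t := by
    intro s t
    refine (norm_sum_le _ _).trans ?_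
    have h2 : Summable (fun a : Z => |g a t|) := (hb t).1.subtype Z
    have h3 : ∑' a : Z, |g a t| ≤ ∑' a, |g a t| :=
      Summable.tsum_subtype_le (fun a => |g a t|) Z (fun a => abs_nonneg _) (hb t).1
    exact ((h2.sum_le_tsum s fun _ _ => abs_nonneg _).trans h3).trans (hb t).2
  have hm : AEStronglyMeasurable (fun t => ∑' a, g a t) volume :=
    aestronglyMeasurable_of_tendsto_ae _ (f := fun (s : Finset Z) t => ∑ a ∈ s, g a t)
      (fun s => (continuous_finsetSum s fun a _ => hg a).aestronglyMeasurable)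
      (ae_of_all _ fun t => hs t)
  refine ⟨hi, hB.mono' hm (ae_of_all _ hle), ?_, ?_⟩
  · refine (hasSum_subtype_iff_of_support_subset (f := fun a => ∫ t, g a t) (s := Z) ?_).1 ?_
    · intro a ha
      rw [hZ]
      by_contra h
      apply ha
      change ∫ t, g a t = 0
      rw [show g a = fun _ => 0 from funext fun t => h0 a t h, integral_zero]
    · have h4 := tendsto_integral_filter_of_dominated_convergence (l := (SummationFilter.unconditional Z).filter)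
        (F := fun (s : Finset Z) t => ∑ a ∈ s, g a t) (f := fun t => ∑' a, g a t) B
        (Eventually.of_forall fun s => (continuous_finsetSum s fun a _ => hg a).aestronglyMeasurable)
        (Eventually.of_forall fun s => ae_of_all _ fun t => hp s t) hB (ae_of_all _ fun t => hs t)
      refine h4.congr fun s => ?_
      exact integral_finsetSum (f := fun (a : Z) (t : ℝ) => g a t) s fun a _ => hi a
  · have h5 : ‖∫ t, ∑' a, g a t‖ ≤ ∫ t, B t := norm_integral_le_of_norm_le hB (ae_of_all _ hle)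
    exact h5

/-- integrability of even functions -/
private theorem KA3_abs {f : ℝ → ℝ} (hf : IntegrableOn f (Ioi 0)) : Integrable (fun x => f |x|) := by
  have h1 : IntegrableOn (fun x => f |x|) (Ioi 0) := by
    refine hf.congr_fun (fun x hx => ?_) measurableSet_Ioi
    rw [abs_of_pos hx]
  have h2 : IntegrableOn (fun x ↦ f |x|) (Iic 0) := by
    rw [← Measure.map_neg_eq_self (volume : Measure ℝ)]
    let m : MeasurableEmbedding fun x : ℝ => -x := (Homeomorph.neg ℝ).measurableEmbedding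
    rw [m.integrableOn_map_iff]
    simp_rw [Function.comp_def, abs_neg, neg_preimage, neg_Iic, neg_zero]
    exact Iff.mpr integrableOn_Ici_iff_integrableOn_Ioi h1
  rw [← integrableOn_univ, ← Iic_union_Ioi (a := (0 : ℝ))]
  exact h2.union h1

private theorem KA3_int {f : ℝ → ℝ} (hf : Measurable f) {K : ℝ}
    (h1 : ∀ s, 0 < s → s ≤ 1 → |f s| ≤ K * s ^ (-(1 / 2) : ℝ)) (h2 : ∀ s, 1 ≤ s → |f s| ≤ K * s ^ (1 / 2 : ℝ)) :
    IntegrableOn (fun s => f s * (1 + s ^ 2)⁻¹) (Ioi 0) := by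
  have hm : Measurable (fun s : ℝ => f s * (1 + s ^ 2)⁻¹) := by fun_prop
  rw [← Ioc_union_Ioi_eq_Ioi (zero_le_one' ℝ)]
  refine IntegrableOn.union ?_ ?_
  · have h3 : IntegrableOn (fun s : ℝ => K * s ^ (-(1 / 2) : ℝ)) (Ioc 0 1) := by
      rw [← intervalIntegrable_iff_integrableOn_Ioc_of_le zero_le_one]
      exact (intervalIntegral.intervalIntegrable_rpow' (by norm_num)).const_mul K
    refine Integrable.mono' h3 hm.aestronglyMeasurable ?_
    refine (ae_restrict_iff' measurableSet_Ioc).2 (ae_of_all _ fun s hs => ?_)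
    rw [norm_mul, Real.norm_eq_abs, Real.norm_eq_abs, abs_of_pos (by positivity : (0 : ℝ) < (1 + s ^ 2)⁻¹)]
    have h4 : (1 + s ^ 2)⁻¹ ≤ 1 := inv_le_one_of_one_le₀ (by nlinarith [sq_nonneg s])
    calc |f s| * (1 + s ^ 2)⁻¹ ≤ |f s| * 1 := mul_le_mul_of_nonneg_left h4 (abs_nonneg _)
      _ ≤ _ := by rw [mul_one]; exact h1 s hs.1 hs.2
  · have h3 : IntegrableOn (fun s : ℝ => K * s ^ (-(3 / 2) : ℝ)) (Ioi 1) :=
      (integrableOn_Ioi_rpow_of_lt (by norm_num) one_pos).const_mul K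
    refine Integrable.mono' h3 hm.aestronglyMeasurable ?_
    refine (ae_restrict_iff' measurableSet_Ioi).2 (ae_of_all _ fun s hs => ?_)
    have hs1 : (1 : ℝ) < s := hs
    have hs0 : 0 < s := by linarith
    rw [norm_mul, Real.norm_eq_abs, Real.norm_eq_abs, abs_of_pos (by positivity : (0 : ℝ) < (1 + s ^ 2)⁻¹)]
    have h4 : (1 + s ^ 2)⁻¹ ≤ (s ^ 2)⁻¹ := inv_anti₀ (by positivity) (by linarith)
    calc |f s| * (1 + s ^ 2)⁻¹ ≤ (K * s ^ (1 / 2 : ℝ)) * (s ^ 2)⁻¹ :=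
          mul_le_mul (h2 s hs1.le) h4 (by positivity) ((abs_nonneg _).trans (h2 s hs1.le))
      _ = K * s ^ (-(3 / 2) : ℝ) := by
          have h5 : s ^ (-(3 / 2) : ℝ) = s ^ (1 / 2 : ℝ) * (s ^ 2)⁻¹ := by
            rw [← Real.rpow_natCast s 2, ← Real.rpow_neg hs0.le, ← Real.rpow_add hs0]
            norm_num
          rw [h5]
          ring

private theorem KA3_log1 {s : ℝ} (h0 : 0 < s) (h1 : s ≤ 1) : |Real.log s| ≤ 2 * s ^ (-(1 / 2) : ℝ) := by
  rw [abs_of_nonpos (Real.log_nonpos h0.le h1)]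
  have h2 := Real.log_le_rpow_div (inv_pos.2 h0).le (ε := 1 / 2) (by norm_num)
  rw [Real.log_inv, Real.inv_rpow h0.le, ← Real.rpow_neg h0.le] at h2
  linarith

private theorem KA3_log2 {s : ℝ} (h1 : 1 ≤ s) : |Real.log s| ≤ 2 * s ^ (1 / 2 : ℝ) := by
  rw [abs_of_nonneg (Real.log_nonneg h1)]
  have h2 := Real.log_le_rpow_div (by linarith : 0 ≤ s) (ε := 1 / 2) (by norm_num)
  linarith

private theorem KA3_ilog : Integrable (fun s : ℝ => Real.log |s| * (1 + |s| ^ 2)⁻¹) :=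
  KA3_abs (f := fun s => Real.log s * (1 + s ^ 2)⁻¹)
    (KA3_int Real.measurable_log (K := 2) (fun _ h0 h1 => KA3_log1 h0 h1) fun _ h1 => KA3_log2 h1)

private theorem KA3_irp : Integrable (fun s : ℝ => |s| ^ (-(1 / 2) : ℝ) * (1 + |s| ^ 2)⁻¹) := by
  refine KA3_abs (f := fun s => s ^ (-(1 / 2) : ℝ) * (1 + s ^ 2)⁻¹)
    (KA3_int (f := fun s => s ^ (-(1 / 2) : ℝ)) (measurable_id.pow_const _) (K := 1) (fun s h0 h1 => ?_) fun s h1 => ?_)
  · rw [abs_of_nonneg (by positivity), one_mul]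
  · rw [abs_of_nonneg (by positivity), one_mul]
    exact Real.rpow_le_rpow_of_exponent_le h1 (by norm_num)

private theorem KA3_il2 : Integrable (fun s : ℝ => Real.log (2 + |s|) * (1 + |s| ^ 2)⁻¹) := by
  refine KA3_abs (f := fun s => Real.log (2 + s) * (1 + s ^ 2)⁻¹)
    (KA3_int (f := fun s => Real.log (2 + s)) (Real.measurable_log.comp (measurable_const.add measurable_id)) (K := 6) (fun s h0 h1 => ?_) fun s h1 => ?_)
  · rw [abs_of_nonneg (Real.log_nonneg (by linarith))]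
    have h2 : Real.log (2 + s) ≤ 2 + s - 1 := Real.log_le_sub_one_of_pos (by linarith)
    have h3 : 1 ≤ s ^ (-(1 / 2) : ℝ) := Real.one_le_rpow_of_pos_of_le_one_of_nonpos h0 h1 (by norm_num)
    linarith
  · rw [abs_of_nonneg (Real.log_nonneg (by linarith))]
    have h2 := Real.log_le_rpow_div (by linarith : 0 ≤ 2 + s) (ε := 1 / 2) (by norm_num)
    have h3 : (2 + s) ^ (1 / 2 : ℝ) ≤ (4 * s) ^ (1 / 2 : ℝ) :=
      Real.rpow_le_rpow (by linarith) (by linarith) (by norm_num)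
    rw [Real.mul_rpow (by norm_num) (by linarith)] at h3
    have h4 : (4 : ℝ) ^ (1 / 2 : ℝ) = 2 := by
      rw [← Real.sqrt_eq_rpow, show (4 : ℝ) = 2 ^ 2 by norm_num, Real.sqrt_sq (by norm_num)]
    rw [h4] at h3
    have h5 : 0 ≤ s ^ (1 / 2 : ℝ) := by positivity
    linarith

/-- `∫ log |s| / (1 + s²) = 0` -/
private theorem KA3_zero : ∫ s : ℝ, Real.log |s| * (1 + |s| ^ 2)⁻¹ = 0 := by
  rw [integral_comp_abs (f := fun s : ℝ => Real.log s * (1 + s ^ 2)⁻¹)]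
  have h1 := integral_comp_rpow_Ioi (fun s : ℝ => Real.log s * (1 + s ^ 2)⁻¹) (p := -1) (by norm_num)
  have h2 : ∫ x in Ioi (0 : ℝ), (|(-1 : ℝ)| * x ^ ((-1 : ℝ) - 1)) • (Real.log (x ^ (-1 : ℝ)) * (1 + (x ^ (-1 : ℝ)) ^ 2)⁻¹) =
      -∫ x in Ioi (0 : ℝ), Real.log x * (1 + x ^ 2)⁻¹ := by
    rw [← integral_neg]
    refine setIntegral_congr_fun measurableSet_Ioi fun x hx => ?_
    have hx0 : (0 : ℝ) < x := hx
    have e1 : x ^ (-1 : ℝ) = x⁻¹ := Real.rpow_neg_one x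
    have e2 : x ^ ((-1 : ℝ) - 1) = (x ^ 2)⁻¹ := by
      rw [show (-1 : ℝ) - 1 = -(2 : ℕ) by norm_num, Real.rpow_neg hx0.le, Real.rpow_natCast]
    simp only [e1, e2, Real.log_inv, abs_neg, abs_one, one_mul, smul_eq_mul]
    field_simp
    ring
  rw [h2] at h1
  linarith

/-- scaling -/
private theorem KA3_sc {y : ℝ} (hy : 0 < y) (f : ℝ → ℝ) :
    ∫ t, f t * (y / (y ^ 2 + t ^ 2)) = ∫ s, f (y * s) * (1 + |s| ^ 2)⁻¹ := by
  have h1 := Measure.integral_comp_mul_left (fun t => f t * (y / (y ^ 2 + t ^ 2))) y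
  rw [abs_of_pos (inv_pos.2 hy), smul_eq_mul] at h1
  have h2 : ∫ t, f t * (y / (y ^ 2 + t ^ 2)) = y * ∫ x, f (y * x) * (y / (y ^ 2 + (y * x) ^ 2)) := by
    rw [h1, ← mul_assoc, mul_inv_cancel₀ hy.ne', one_mul]
  rw [h2, ← integral_const_mul]
  refine integral_congr_ae (ae_of_all _ fun s => ?_)
  simp only [sq_abs]
  field_simp

private theorem KA3_sci {y : ℝ} (hy : 0 < y) {f : ℝ → ℝ} (h : Integrable (fun s => f (y * s) * (1 + |s| ^ 2)⁻¹)) :
    Integrable (fun t => f t * (y / (y ^ 2 + t ^ 2))) := by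
  rw [← integrable_comp_mul_left_iff _ hy.ne']
  refine (h.const_mul y⁻¹).congr (ae_of_all _ fun s => ?_)
  simp only [sq_abs]
  field_simp

private theorem KA3_pi : Integrable (fun s : ℝ => (1 + |s| ^ 2)⁻¹) ∧ ∫ s : ℝ, (1 + |s| ^ 2)⁻¹ = Real.pi := by
  simp only [sq_abs]
  exact ⟨integrable_inv_one_add_sq, integral_univ_inv_one_add_sq⟩

private theorem KA3_L1 {y : ℝ} (hy : 0 < y) (κ : ℝ) :
    Integrable (fun t : ℝ => (Real.log |t| + κ) * (y / (y ^ 2 + t ^ 2))) ∧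
      ∫ t : ℝ, (Real.log |t| + κ) * (y / (y ^ 2 + t ^ 2)) = Real.pi * (Real.log y + κ) := by
  have h1 : (fun s : ℝ => (Real.log |y * s| + κ) * (1 + |s| ^ 2)⁻¹) =ᵐ[volume]
      fun s => (Real.log y + κ) * (1 + |s| ^ 2)⁻¹ + Real.log |s| * (1 + |s| ^ 2)⁻¹ := by
    have h0 : ∀ᵐ s : ℝ, s ≠ 0 := by
      rw [ae_iff]
      simp
    filter_upwards [h0] with s hs
    rw [abs_mul, abs_of_pos hy, Real.log_mul hy.ne' (abs_ne_zero.2 hs)]
    ring
  have h2 : Integrable (fun s : ℝ => (Real.log y + κ) * (1 + |s| ^ 2)⁻¹ + Real.log |s| * (1 + |s| ^ 2)⁻¹) :=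
    (KA3_pi.1.const_mul _).add KA3_ilog
  refine ⟨KA3_sci hy (f := fun t => Real.log |t| + κ) (h2.congr h1.symm), ?_⟩
  rw [KA3_sc hy (fun t => Real.log |t| + κ), integral_congr_ae h1,
    integral_add (KA3_pi.1.const_mul _) KA3_ilog, integral_const_mul, KA3_pi.2, KA3_zero, add_zero, mul_comm]

private theorem KA3_L2 {y : ℝ} (hy : 0 < y) :
    Integrable (fun t : ℝ => |t| ^ (-(1 / 2) : ℝ) * (y / (y ^ 2 + t ^ 2))) ∧
      ∫ t : ℝ, |t| ^ (-(1 / 2) : ℝ) * (y / (y ^ 2 + t ^ 2)) =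
        y ^ (-(1 / 2) : ℝ) * ∫ s : ℝ, |s| ^ (-(1 / 2) : ℝ) * (1 + |s| ^ 2)⁻¹ := by
  have h1 : (fun s : ℝ => |y * s| ^ (-(1 / 2) : ℝ) * (1 + |s| ^ 2)⁻¹) =
      fun s => y ^ (-(1 / 2) : ℝ) * (|s| ^ (-(1 / 2) : ℝ) * (1 + |s| ^ 2)⁻¹) := by
    funext s
    rw [abs_mul, abs_of_pos hy, Real.mul_rpow hy.le (abs_nonneg s), mul_assoc]
  refine ⟨KA3_sci hy (f := fun t => |t| ^ (-(1 / 2) : ℝ)) ?_, ?_⟩
  · rw [h1]
    exact KA3_irp.const_mul _
  · rw [KA3_sc hy (fun t => |t| ^ (-(1 / 2) : ℝ)), h1, integral_const_mul]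

private theorem KA3_L3 {y : ℝ} (hy : 1 ≤ y) :
    Integrable (fun t : ℝ => Real.log (2 + |t|) * (y / (y ^ 2 + t ^ 2))) ∧
      ∫ t : ℝ, Real.log (2 + |t|) * (y / (y ^ 2 + t ^ 2)) ≤
        (∫ s : ℝ, Real.log (2 + |s|) * (1 + |s| ^ 2)⁻¹) + Real.log y * Real.pi := by
  have hy0 : 0 < y := by linarith
  have hi : Integrable (fun s : ℝ => Real.log (2 + |s|) * (1 + |s| ^ 2)⁻¹ + Real.log y * (1 + |s| ^ 2)⁻¹) :=
    KA3_il2.add (KA3_pi.1.const_mul _)
  have h1 : ∀ s : ℝ, Real.log (2 + |y * s|) * (1 + |s| ^ 2)⁻¹ ≤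
      Real.log (2 + |s|) * (1 + |s| ^ 2)⁻¹ + Real.log y * (1 + |s| ^ 2)⁻¹ := by
    intro s
    rw [← add_mul]
    refine mul_le_mul_of_nonneg_right ?_ (by positivity)
    rw [← Real.log_mul (by positivity) hy0.ne']
    refine Real.log_le_log (by positivity) ?_
    rw [abs_mul, abs_of_pos hy0]
    nlinarith [abs_nonneg s]
  have h0 : ∀ s : ℝ, 0 ≤ Real.log (2 + |y * s|) * (1 + |s| ^ 2)⁻¹ := fun s =>
    mul_nonneg (Real.log_nonneg (by linarith [abs_nonneg (y * s)])) (by positivity)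
  have h2 : Integrable (fun s : ℝ => Real.log (2 + |y * s|) * (1 + |s| ^ 2)⁻¹) := by
    refine hi.mono' (Measurable.aestronglyMeasurable (by fun_prop)) (ae_of_all _ fun s => ?_)
    rw [Real.norm_eq_abs, abs_of_nonneg (h0 s)]
    exact h1 s
  refine ⟨KA3_sci hy0 (f := fun t => Real.log (2 + |t|)) h2, ?_⟩
  rw [KA3_sc hy0 (fun t => Real.log (2 + |t|))]
  refine (integral_mono h2 hi h1).trans (le_of_eq ?_)
  rw [integral_add KA3_il2 (KA3_pi.1.const_mul _), integral_const_mul, KA3_pi.2]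

private theorem KA3_diff {y : ℝ} (hy : 1 ≤ y) (x t : ℝ) :
    |y / (y ^ 2 + x ^ 2) - y / (y ^ 2 + t ^ 2)| ≤ (1 + |t - x|) ^ 2 / (y ^ 2 + t ^ 2) := by
  have hx : 0 < y ^ 2 + x ^ 2 := by positivity
  have ht : 0 < y ^ 2 + t ^ 2 := by positivity
  have h1 : y / (y ^ 2 + x ^ 2) - y / (y ^ 2 + t ^ 2) = (y * ((t - x) * (t + x))) / ((y ^ 2 + x ^ 2) * (y ^ 2 + t ^ 2)) := by
    field_simp
    ring
  rw [h1, abs_div, abs_of_pos (mul_pos hx ht), div_le_div_iff₀ (mul_pos hx ht) ht, abs_mul, abs_mul,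
    abs_of_pos (by linarith : 0 < y)]
  have h2 : |t + x| ≤ 2 * |x| + |t - x| := by
    have : t + x = 2 * x + (t - x) := by ring
    rw [this]
    refine (abs_add_le _ _).trans ?_
    rw [abs_mul, abs_of_pos (by norm_num : (0 : ℝ) < 2)]
  have h3 : y * (|t - x| * |t + x|) ≤ (1 + |t - x|) ^ 2 * (y ^ 2 + x ^ 2) := by
    have h4 : y * (|t - x| * |t + x|) ≤ y * (|t - x| * (2 * |x| + |t - x|)) := by gcongr
    have h5 : 2 * y * |x| ≤ y ^ 2 + x ^ 2 := by
      rw [← sq_abs x]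
      nlinarith [sq_nonneg (y - |x|)]
    have h6 : y ≤ y ^ 2 + x ^ 2 := by nlinarith [sq_nonneg x]
    have h7 : 0 ≤ |t - x| := abs_nonneg _
    calc y * (|t - x| * |t + x|) ≤ |t - x| * (2 * y * |x|) + |t - x| ^ 2 * y := by
          refine h4.trans (le_of_eq ?_)
          ring
      _ ≤ |t - x| * (y ^ 2 + x ^ 2) + |t - x| ^ 2 * (y ^ 2 + x ^ 2) := by gcongr
      _ ≤ _ := by nlinarith [mul_nonneg h7 hx.le]
  calc y * (|t - x| * |t + x|) * (y ^ 2 + t ^ 2) ≤ (1 + |t - x|) ^ 2 * (y ^ 2 + x ^ 2) * (y ^ 2 + t ^ 2) := by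
        gcongr
    _ = _ := by ring


private theorem KA3_main (hRH : RiemannHypothesis) {κ : ℝ} (hκ : Kap κ) : ∃ K : ℝ, ∀ y : ℝ, 1 ≤ y →
    |(∑' a : ℂ, (mx a : ℝ) * (y / (y ^ 2 + a.im ^ 2))) - 1 / 2 * (Real.log y + κ)| ≤ K * y ^ (-(1 / 2) : ℝ) := by
  obtain ⟨ψ, hψ⟩ := exists_EB (1 / 4) (by norm_num)
  obtain ⟨h, hh⟩ : ∃ h : ℝ → ℝ, h = KA3_cv ψ := ⟨_, rfl⟩
  have hes : ES h (1 / 2) := hh ▸ KA3_es hψ
  obtain ⟨c, hc⟩ : ∃ c : ℝ, c = h 0 := ⟨_, rfl⟩
  have hc0 : 0 < c := by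
    rw [hc, hh]
    exact KA3_pos hψ
  obtain ⟨k, hk⟩ : ∃ k : ℝ → ℝ, k = ck h := ⟨_, rfl⟩
  have hkc : Continuous k := hk ▸ ck_continuous hes
  have hke : ∀ x, k (-x) = k x := fun x => by
    rw [hk]
    exact ck_even _ _
  obtain ⟨hki, hkI⟩ := int_ck hes (by norm_num)
  rw [← hk] at hki hkI
  rw [← hc] at hkI
  obtain ⟨A, hA, hAb⟩ : ∃ A : ℝ, 0 ≤ A ∧ ∀ x, |k x| ≤ A / (1 + |x|) ^ 4 := by
    obtain ⟨B, hB, hBb⟩ := ck_bound hψ.es (by norm_num)
    refine ⟨B ^ 2, by positivity, fun x => ?_⟩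
    rw [hk, hh, KA3_ck hψ, abs_pow]
    have h1 : 1 ≤ 1 + |x| := by linarith [abs_nonneg x]
    calc |ck ψ x| ^ 2 ≤ (B / (1 + |x|) ^ 3) ^ 2 := by
          gcongr
          exact hBb x
      _ = B ^ 2 / (1 + |x|) ^ 6 := by rw [div_pow, ← pow_mul]
      _ ≤ B ^ 2 / (1 + |x|) ^ 4 := by
          gcongr
          norm_num
  obtain ⟨M, hM, hloc⟩ := local_count hRH
  obtain ⟨C1, hC1, hK1⟩ := hκ h hes
  rw [← hc, ← hk] at hK1
  -- the density
  obtain ⟨D, hD⟩ : ∃ D : ℝ → ℝ, D = fun t => ∑' a : ℂ, (mx a : ℝ) * k (t - a.im) := ⟨_, rfl⟩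
  have hkb2 : ∀ x, |k x| ≤ A * (1 / (1 + |x|) ^ 2) := fun x => by
    refine (hAb x).trans ?_
    rw [div_eq_mul_one_div]
    have h1 : 1 ≤ 1 + |x| := by linarith [abs_nonneg x]
    gcongr
    norm_num
  have hDs : ∀ t, Summable (fun a : ℂ => |(mx a : ℝ) * k (t - a.im)|) ∧
      ∑' a : ℂ, |(mx a : ℝ) * k (t - a.im)| ≤ A * (M * Real.log (2 + |t|)) := by
    intro t
    have h1 : ∀ a : ℂ, |(mx a : ℝ) * k (t - a.im)| ≤ A * ((mx a : ℝ) * (1 / (1 + |t - a.im|) ^ 2)) := by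
      intro a
      rw [abs_mul, Nat.abs_cast]
      calc (mx a : ℝ) * |k (t - a.im)| ≤ (mx a : ℝ) * (A * (1 / (1 + |t - a.im|) ^ 2)) := by
            gcongr
            exact hkb2 _
        _ = _ := by ring
    have h2 := (hloc t).1.mul_left A
    have h3 : Summable (fun a : ℂ => |(mx a : ℝ) * k (t - a.im)|) := Summable.of_nonneg_of_le (fun a => abs_nonneg _) h1 h2
    refine ⟨h3, (h3.tsum_le_tsum h1 h2).trans ?_⟩
    rw [tsum_mul_left]
    exact mul_le_mul_of_nonneg_left (hloc t).2 hA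
  have hDb : ∀ t, |D t| ≤ A * (M * Real.log (2 + |t|)) := fun t => by
    rw [hD]
    have h1 : ‖∑' a : ℂ, (mx a : ℝ) * k (t - a.im)‖ ≤ ∑' a : ℂ, ‖(mx a : ℝ) * k (t - a.im)‖ :=
      norm_tsum_le_tsum_norm (hDs t).1
    exact h1.trans (hDs t).2
  have hDe : ∀ t, D (-t) = D t := by
    intro t
    rw [hD]
    change ∑' a : ℂ, (mx a : ℝ) * k (-t - a.im) = ∑' a : ℂ, (mx a : ℝ) * k (t - a.im)
    rw [sum_symm (fun x => k (-t - x))]
    refine tsum_congr fun a => ?_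
    rw [← hke]
    congr 2
    ring
  obtain ⟨C4, hC4⟩ : ∃ C4 : ℝ, C4 = C1 + (A * (M * Real.log 3) + c * (2 + |κ|)) := ⟨_, rfl⟩
  have hE : ∀ t, t ≠ 0 → |D t - c * (Real.log |t| + κ)| ≤ C4 * |t| ^ (-(1 / 2) : ℝ) := by
    intro t ht
    have ht0 : 0 < |t| := abs_pos.2 ht
    have hDt : D t = D |t| := by
      rcases le_total 0 t with h1 | h1
      · rw [abs_of_nonneg h1]
      · rw [abs_of_nonpos h1, hDe]
    have hp : 0 ≤ A * (M * Real.log 3) + c * (2 + |κ|) := by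
      have : 0 ≤ Real.log 3 := Real.log_nonneg (by norm_num)
      positivity
    have hr : 0 < |t| ^ (-(1 / 2) : ℝ) := by positivity
    rcases le_total 1 |t| with h1 | h1
    · have h2 := hK1 |t| h1
      rw [hDt, hD]
      refine h2.trans ?_
      rw [hC4]
      gcongr
      linarith
    · have h2 : 1 ≤ |t| ^ (-(1 / 2) : ℝ) := Real.one_le_rpow_of_pos_of_le_one_of_nonpos ht0 h1 (by norm_num)
      have h3 : |D t| ≤ A * (M * Real.log 3) * |t| ^ (-(1 / 2) : ℝ) := by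
        have h4 : Real.log (2 + |t|) ≤ Real.log 3 := Real.log_le_log (by positivity) (by linarith)
        calc |D t| ≤ A * (M * Real.log (2 + |t|)) := hDb t
          _ ≤ A * (M * Real.log 3) := by gcongr
          _ ≤ _ := le_mul_of_one_le_right (by
            have : 0 ≤ Real.log 3 := Real.log_nonneg (by norm_num)
            positivity) h2
      have h5 : |c * (Real.log |t| + κ)| ≤ c * (2 + |κ|) * |t| ^ (-(1 / 2) : ℝ) := by
        rw [abs_mul, abs_of_pos hc0, mul_assoc]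
        gcongr
        calc abs (Real.log |t| + κ) ≤ abs (Real.log |t|) + |κ| := abs_add_le _ _
          _ ≤ 2 * |t| ^ (-(1 / 2) : ℝ) + |κ| * |t| ^ (-(1 / 2) : ℝ) := by
              gcongr
              · exact KA3_log1 ht0 h1
              · exact le_mul_of_one_le_right (abs_nonneg _) h2
          _ = _ := by ring
      calc |D t - c * (Real.log |t| + κ)| ≤ |D t| + |c * (Real.log |t| + κ)| := abs_sub _ _
        _ ≤ A * (M * Real.log 3) * |t| ^ (-(1 / 2) : ℝ) + c * (2 + |κ|) * |t| ^ (-(1 / 2) : ℝ) := add_le_add h3 h5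
        _ ≤ _ := by
            rw [hC4, add_mul, add_mul]
            have : 0 ≤ C1 * |t| ^ (-(1 / 2) : ℝ) := by positivity
            linarith
  -- constants
  obtain ⟨A2, hA2⟩ : ∃ A2 : ℝ, A2 = ∫ s : ℝ, |s| ^ (-(1 / 2) : ℝ) * (1 + |s| ^ 2)⁻¹ := ⟨_, rfl⟩
  obtain ⟨A3, hA3⟩ : ∃ A3 : ℝ, A3 = ∫ s : ℝ, Real.log (2 + |s|) * (1 + |s| ^ 2)⁻¹ := ⟨_, rfl⟩
  have hA30 : 0 ≤ A3 := by
    rw [hA3]
    refine integral_nonneg fun s => mul_nonneg (Real.log_nonneg (by linarith [abs_nonneg s])) (by positivity)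
  refine ⟨(2 * Real.pi * c)⁻¹ * (C4 * A2 + A * M * (A3 + 2 * Real.pi)), fun y hy => ?_⟩
  have hy0 : 0 < y := by linarith
  have hPc : Continuous (fun t : ℝ => y / (y ^ 2 + t ^ 2)) :=
    continuous_const.div (by fun_prop) fun t => by positivity
  have hP0 : ∀ t : ℝ, 0 < y / (y ^ 2 + t ^ 2) := fun t => by positivity
  obtain ⟨l1, l1'⟩ := KA3_L1 hy0 κ
  obtain ⟨l2, l2'⟩ := KA3_L2 hy0
  obtain ⟨l3, l3'⟩ := KA3_L3 hy
  rw [← hA2] at l2'
  rw [← hA3] at l3'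
  -- first exchange
  obtain ⟨f1, f2, f3, -⟩ := KA3_exch (g := fun a t => (mx a : ℝ) * k (t - a.im) * (y / (y ^ 2 + t ^ 2)))
    (B := fun t => A * M * (Real.log (2 + |t|) * (y / (y ^ 2 + t ^ 2))))
    (fun a => by fun_prop) (fun a t ha => by
      rw [mx_eq_zero ha, Nat.cast_zero, zero_mul, zero_mul]) (l3.const_mul _) (fun t => by
      have e : ∀ a : ℂ, |(mx a : ℝ) * k (t - a.im) * (y / (y ^ 2 + t ^ 2))| =
          |(mx a : ℝ) * k (t - a.im)| * (y / (y ^ 2 + t ^ 2)) := fun a => by rw [abs_mul, abs_of_pos (hP0 t)]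
      simp only [e]
      refine ⟨(hDs t).1.mul_right _, ?_⟩
      rw [tsum_mul_right]
      calc _ ≤ A * (M * Real.log (2 + |t|)) * (y / (y ^ 2 + t ^ 2)) :=
            mul_le_mul_of_nonneg_right (hDs t).2 (hP0 t).le
        _ = _ := by ring)
  -- second exchange
  obtain ⟨g1, g2, g3, g4⟩ := KA3_exch
    (g := fun a t => (mx a : ℝ) * k (t - a.im) * (y / (y ^ 2 + a.im ^ 2) - y / (y ^ 2 + t ^ 2)))
    (B := fun t => A * M / y * (Real.log (2 + |t|) * (y / (y ^ 2 + t ^ 2))))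
    (fun a => by fun_prop) (fun a t ha => by
      rw [mx_eq_zero ha, Nat.cast_zero, zero_mul, zero_mul]) (l3.const_mul _) (fun t => by
      have e : ∀ a : ℂ, |(mx a : ℝ) * k (t - a.im) * (y / (y ^ 2 + a.im ^ 2) - y / (y ^ 2 + t ^ 2))| ≤
          (A / (y ^ 2 + t ^ 2)) * ((mx a : ℝ) * (1 / (1 + |t - a.im|) ^ 2)) := fun a => by
        rw [abs_mul, abs_mul, Nat.abs_cast]
        have h1 : 0 < 1 + |t - a.im| := by positivity
        calc (mx a : ℝ) * |k (t - a.im)| * |y / (y ^ 2 + a.im ^ 2) - y / (y ^ 2 + t ^ 2)| ≤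
            (mx a : ℝ) * (A / (1 + |t - a.im|) ^ 4) * ((1 + |t - a.im|) ^ 2 / (y ^ 2 + t ^ 2)) := by
              gcongr
              · exact hAb _
              · exact KA3_diff hy _ _
          _ = _ := by field_simp
      have h2 := (hloc t).1.mul_left (A / (y ^ 2 + t ^ 2))
      have h3 := Summable.of_nonneg_of_le (fun a => abs_nonneg _) e h2
      refine ⟨h3, (h3.tsum_le_tsum e h2).trans ?_⟩
      rw [tsum_mul_left]
      calc _ ≤ A / (y ^ 2 + t ^ 2) * (M * Real.log (2 + |t|)) :=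
            mul_le_mul_of_nonneg_left (hloc t).2 (by positivity)
        _ = _ := by field_simp)
  -- the sum of both
  obtain ⟨I1, hI1⟩ : ∃ I1 : ℝ, I1 = ∫ t, ∑' a : ℂ, (mx a : ℝ) * k (t - a.im) * (y / (y ^ 2 + t ^ 2)) := ⟨_, rfl⟩
  obtain ⟨I2, hI2⟩ : ∃ I2 : ℝ, I2 = ∫ t, ∑' a : ℂ, (mx a : ℝ) * k (t - a.im) *
    (y / (y ^ 2 + a.im ^ 2) - y / (y ^ 2 + t ^ 2)) := ⟨_, rfl⟩
  rw [← hI1] at f3
  rw [← hI2] at g3 g4
  have hpt : ∀ a : ℂ, (∫ t, (mx a : ℝ) * k (t - a.im) * (y / (y ^ 2 + t ^ 2))) +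
      (∫ t, (mx a : ℝ) * k (t - a.im) * (y / (y ^ 2 + a.im ^ 2) - y / (y ^ 2 + t ^ 2))) =
        2 * Real.pi * c * ((mx a : ℝ) * (y / (y ^ 2 + a.im ^ 2))) := by
    intro a
    rw [← integral_add (f1 a) (g1 a)]
    have e : ∀ t, (mx a : ℝ) * k (t - a.im) * (y / (y ^ 2 + t ^ 2)) +
        (mx a : ℝ) * k (t - a.im) * (y / (y ^ 2 + a.im ^ 2) - y / (y ^ 2 + t ^ 2)) =
          (mx a : ℝ) * (y / (y ^ 2 + a.im ^ 2)) * k (t - a.im) := fun t => by ring
    simp only [e]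
    rw [integral_const_mul, integral_sub_right_eq_self k a.im, hkI]
    ring
  have hsum : HasSum (fun a : ℂ => 2 * Real.pi * c * ((mx a : ℝ) * (y / (y ^ 2 + a.im ^ 2)))) (I1 + I2) := by
    simpa only [hpt] using f3.add g3
  have hS : 2 * Real.pi * c * (∑' a : ℂ, (mx a : ℝ) * (y / (y ^ 2 + a.im ^ 2))) = I1 + I2 := by
    rw [← tsum_mul_left]
    exact hsum.tsum_eq
  have hI1' : I1 = ∫ t, D t * (y / (y ^ 2 + t ^ 2)) := by
    rw [hI1, hD]
    simp only [tsum_mul_right]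
  have f2' : Integrable (fun t => D t * (y / (y ^ 2 + t ^ 2))) := by
    rw [hD]
    simpa only [tsum_mul_right] using f2
  have hb1 : |I1 - c * (Real.pi * (Real.log y + κ))| ≤ C4 * (y ^ (-(1 / 2) : ℝ) * A2) := by
    have h1 : I1 - c * (Real.pi * (Real.log y + κ)) =
        ∫ t, (D t * (y / (y ^ 2 + t ^ 2)) - c * ((Real.log |t| + κ) * (y / (y ^ 2 + t ^ 2)))) := by
      rw [integral_sub f2' (l1.const_mul c), integral_const_mul, l1', hI1']
    rw [h1, ← l2', ← integral_const_mul]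
    have h0 : ∀ᵐ t : ℝ, t ≠ 0 := by
      rw [ae_iff]
      simp
    have h3 : ∀ᵐ t : ℝ, ‖D t * (y / (y ^ 2 + t ^ 2)) - c * ((Real.log |t| + κ) * (y / (y ^ 2 + t ^ 2)))‖ ≤
        C4 * (|t| ^ (-(1 / 2) : ℝ) * (y / (y ^ 2 + t ^ 2))) := by
      filter_upwards [h0] with t ht
      have h2 : D t * (y / (y ^ 2 + t ^ 2)) - c * ((Real.log |t| + κ) * (y / (y ^ 2 + t ^ 2))) =
          (D t - c * (Real.log |t| + κ)) * (y / (y ^ 2 + t ^ 2)) := by ring
      rw [h2, Real.norm_eq_abs, abs_mul, abs_of_pos (hP0 t), ← mul_assoc]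
      exact mul_le_mul_of_nonneg_right (hE t ht) (hP0 t).le
    exact norm_integral_le_of_norm_le (l2.const_mul C4) h3
  have hy1 : 1 / y ≤ y ^ (-(1 / 2) : ℝ) := by
    rw [one_div, ← Real.rpow_neg_one]
    exact Real.rpow_le_rpow_of_exponent_le hy (by norm_num)
  have hly : Real.log y / y ≤ 2 * y ^ (-(1 / 2) : ℝ) := by
    have h1 := (abs_le.1 (KA3_log2 hy)).2
    have h2 : y ^ (-(1 / 2) : ℝ) = y ^ (1 / 2 : ℝ) / y := by
      rw [← Real.rpow_sub_one hy0.ne']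
      norm_num
    rw [h2, ← mul_div_assoc]
    gcongr
  have hb2 : |I2| ≤ A * M * ((A3 + 2 * Real.pi) * y ^ (-(1 / 2) : ℝ)) := by
    refine g4.trans ?_
    rw [integral_const_mul]
    have hAM : 0 ≤ A * M := mul_nonneg hA hM
    calc A * M / y * ∫ t : ℝ, Real.log (2 + |t|) * (y / (y ^ 2 + t ^ 2)) ≤ A * M / y * (A3 + Real.log y * Real.pi) :=
          mul_le_mul_of_nonneg_left l3' (by positivity)
      _ = A * M * (A3 * (1 / y) + Real.pi * (Real.log y / y)) := by ring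
      _ ≤ A * M * (A3 * y ^ (-(1 / 2) : ℝ) + Real.pi * (2 * y ^ (-(1 / 2) : ℝ))) := by
          have := Real.pi_pos
          gcongr
      _ = _ := by ring
  have hcp : 0 < 2 * Real.pi * c := by positivity
  have hfin : (∑' a : ℂ, (mx a : ℝ) * (y / (y ^ 2 + a.im ^ 2))) - 1 / 2 * (Real.log y + κ) =
      (2 * Real.pi * c)⁻¹ * ((I1 - c * (Real.pi * (Real.log y + κ))) + I2) := by
    rw [eq_inv_mul_iff_mul_eq₀ hcp.ne', mul_sub, hS]
    ring
  rw [hfin, abs_mul, abs_of_pos (inv_pos.2 hcp)]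
  have hlast : |(I1 - c * (Real.pi * (Real.log y + κ))) + I2| ≤
      (C4 * A2 + A * M * (A3 + 2 * Real.pi)) * y ^ (-(1 / 2) : ℝ) :=
    (abs_add_le _ _).trans ((add_le_add hb1 hb2).trans (le_of_eq (by ring)))
  calc _ ≤ (2 * Real.pi * c)⁻¹ * ((C4 * A2 + A * M * (A3 + 2 * Real.pi)) * y ^ (-(1 / 2) : ℝ)) :=
        mul_le_mul_of_nonneg_left hlast (inv_pos.2 hcp).le
    _ = _ := (mul_assoc _ _ _).symm

/-- LEAF KA3. Let `W` be an `EB W (1/2)`-type bump (`ES W (1/2)`, `W 0 = 1`, `exists_EB`), `k = ck W/(2π)`, `∫ k = 1` (`int_ck`),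
`|k| ≤ C/(1 + |x|)^3`, `P_y t = y/(y² + t²)`. By Fubini `∫_ℝ (∑' mx a k (t - a.im)) P_y t dt = ∑' mx a (k ∗ P_y)(a.im)` and
`|(k ∗ P_y)(x) - P_y x| ≤ (C/y) P_y x`-like (or `≤ C/y · 1/(1 + x²)^(3/4)`; all that is needed is that the difference of the two
sums is `o(1)`: use `|P_y'| ≤ 1/y · P_y`, `local_count`). The left side is `∫ (1/2π)(log |t| + κ + O(|t|^(-1/2))) P_y dt + O(1/y)
= (1/2)(log y + κ) + o(1)`: `∫_ℝ P_y = π`, `∫_ℝ log |t| P_y t dt = π log y` (scale, `∫_0^∞ log x/(1 + x²) = 0`). -/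
theorem ld_kap (hRH : RiemannHypothesis) {κ : ℝ} (hκ : Kap κ) :
    Tendsto (fun y : ℝ => (∑' a : ℂ, (mx a : ℝ) * (y / (y ^ 2 + a.im ^ 2))) - 1 / 2 * (Real.log y + κ)) atTop (𝓝 0) := by
  obtain ⟨K, hK⟩ := KA3_main hRH hκ
  have h1 : Tendsto (fun y : ℝ => K * y ^ (-(1 / 2) : ℝ)) atTop (𝓝 0) := by
    have h2 := (tendsto_rpow_neg_atTop (y := (1 / 2 : ℝ)) (by norm_num)).const_mul K
    rwa [mul_zero] at h2
  refine squeeze_zero_norm' ?_ h1
  filter_upwards [eventually_ge_atTop 1] with y hy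
  exact hK y hy

end Pool.Agent.Lib.MP_2a816b_nt.TA
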