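import Pool.Agent.Lib.MP_2a816b_nt.TA.Z2
import Pool.Agent.Lib.MP_2a816b_nt.TA.KA1
import Pool.Agent.Lib.MP_2a816b_nt.TA.KA2
import Pool.Agent.Lib.MP_2a816b_nt.TA.KA3

open Complex Set Filter Topology MeasureTheory

namespace Pool.Agent.Lib.MP_2a816b_nt.TA

open Pool.Agent.Lib.MP_00e05b_nt Pool.Agent.Lib.MP_00e05b_nt.Mont Pool.Agent.Lib.MP_2a816b_nt.PV

/-- the constant of the local density -/
theorem kap_eq (hRH : RiemannHypothesis) {κ : ℝ} (hκ : Kap κ) : κ = -Real.log (2 * Real.pi) := by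
  have h1 := ld_kap hRH hκ
  have h2 := ld_asym
  have h3 : Tendsto (fun _ : ℝ => 1 / 2 * (κ + Real.log (2 * Real.pi))) atTop (𝓝 (0 - 0)) := by
    refine (h2.sub h1).congr' ?_
    filter_upwards [eventually_gt_atTop (1 / 2 : ℝ)] with y hy
    rw [(ld_sum hRH hy).tsum_eq, Real.log_div (by linarith) (by positivity)]
    ring
  have h4 := tendsto_nhds_unique tendsto_const_nhds h3
  linarith

theorem kap : ∀ _hRH : RiemannHypothesis, Kap (-Real.log (2 * Real.pi)) ∧ KapA (-Real.log (2 * Real.pi)) := by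
  intro hRH
  obtain ⟨κ, h1, h2⟩ := kap_exists hRH
  rw [← kap_eq hRH h1]
  exact ⟨h1, h2⟩

end Pool.Agent.Lib.MP_2a816b_nt.TA
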