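import Pool.Agent.Lib.MP_2a816b_nt.TA.K2
import Pool.Agent.Lib.MP_2a816b_nt.TA.Kap
import Pool.Agent.Lib.MP_2a816b_nt.TA.GPos
import Pool.Agent.Lib.MP_2a816b_nt.TA.EXB
import Pool.Agent.Lib.MP_2a816b_nt.TA.GSpk
import Pool.Agent.Lib.MP_2a816b_nt.TA.Den
import Pool.Agent.Lib.MP_2a816b_nt.TA.GDTL

open Complex Set Filter Topology MeasureTheory

namespace Pool.Agent.Lib.MP_2a816b_nt.TA

open Pool.Agent.Lib.MP_00e05b_nt Pool.Agent.Lib.MP_00e05b_nt.Mont Pool.Agent.Lib.MP_2a816b_nt.PV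

/-- the function of two variables -/
private noncomputable def GSL_F (W : ℝ → ℝ) (l : ℝ) (c t : ℝ) : ℝ := sl l t ^ 2 * ‖AA W t c‖ ^ 2

private lemma GSL_F_nonneg (W : ℝ → ℝ) (l c t : ℝ) : 0 ≤ GSL_F W l c t := by
  unfold GSL_F
  positivity

private lemma GSL_swap {A : ℝ → ℝ → ℂ} (h : Continuous (fun p : ℝ × ℝ => A p.1 p.2)) :
    Continuous (fun p : ℝ × ℝ => A p.2 p.1) :=
  Continuous.comp (g := fun p : ℝ × ℝ => A p.1 p.2) h continuous_swap

private lemma GSL_snd {A : ℝ → ℝ → ℝ} (h : Continuous (fun p : ℝ × ℝ => A p.1 p.2)) (l : ℝ) :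
    Continuous (fun p : ℝ × ℝ => A l p.2) :=
  Continuous.comp (g := fun p : ℝ × ℝ => A p.1 p.2) h (continuous_const.prodMk continuous_snd)

private lemma GSL_F_cont {W : ℝ → ℝ} (hW : EB W (1 / 8)) (l : ℝ) :
    Continuous (Function.uncurry (GSL_F W l)) := by
  have h1 : Continuous (fun p : ℝ × ℝ => sl l p.2) := GSL_snd (A := sl) sl_cont l
  have h18 : (1 / 8 : ℝ) ≤ 3 / 4 := by norm_num
  have hes := hW.es
  have h0 := AA_cont2 hes h18
  have h2 : Continuous (fun p : ℝ × ℝ => AA W p.2 p.1) := GSL_swap (A := AA W) h0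
  exact (h1.pow 2).mul (h2.norm.pow 2)

private lemma GSL_prod (hRH : RiemannHypothesis) {W : ℝ → ℝ} (hW : EB W (1 / 8)) {l : ℝ} (hl : 0 < l) (hl1 : l ≤ 5 / 4)
    {M σ : ℝ} (hM : 1 ≤ M) :
    Integrable (Function.uncurry fun c t => Kg M (c + σ) * GSL_F W l c t)
      ((volume.restrict (Ioi (1 : ℝ))).prod (volume.restrict (Ioi (0 : ℝ)))) := by
  obtain ⟨C, hC, hb⟩ := slAA_bound hRH hW
  have hKc : Continuous (fun p : ℝ × ℝ => Kg M (p.1 + σ)) := by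
    unfold Kg
    fun_prop
  have hmeas : AEStronglyMeasurable (Function.uncurry fun c t => Kg M (c + σ) * GSL_F W l c t)
      ((volume.restrict (Ioi (1 : ℝ))).prod (volume.restrict (Ioi (0 : ℝ)))) :=
    (hKc.mul (GSL_F_cont hW l)).aestronglyMeasurable
  have hK0 : ∀ c : ℝ, 0 ≤ Kg M (c + σ) := fun c => (Real.exp_pos _).le
  rw [MeasureTheory.integrable_prod_iff hmeas]
  refine ⟨Eventually.of_forall fun c => ?_, ?_⟩
  · exact ((hb l hl hl1 c).1.integrableOn (s := Ioi (0 : ℝ))).const_mul (Kg M (c + σ))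
  · refine Integrable.mono' ((Kg_shift_int hM σ 1).const_mul (C * l * Real.log (4 / l) ^ 2)) ?_ ?_
    · exact hmeas.norm.integral_prod_right'
    · refine Eventually.of_forall fun c => ?_
      have h1 : ∫ t in Ioi (0 : ℝ), ‖(Function.uncurry fun c t => Kg M (c + σ) * GSL_F W l c t) (c, t)‖ =
          Kg M (c + σ) * ∫ t in Ioi (0 : ℝ), GSL_F W l c t := by
        rw [← integral_const_mul]
        refine integral_congr_ae (Eventually.of_forall fun t => ?_)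
        show ‖Kg M (c + σ) * GSL_F W l c t‖ = Kg M (c + σ) * GSL_F W l c t
        rw [Real.norm_eq_abs, abs_of_nonneg (mul_nonneg (hK0 c) (GSL_F_nonneg W l c t))]
      have h2 : ∫ t in Ioi (0 : ℝ), GSL_F W l c t ≤ ∫ t, GSL_F W l c t :=
        setIntegral_le_integral (hb l hl hl1 c).1 (Eventually.of_forall fun t => GSL_F_nonneg W l c t)
      have h3 : 0 ≤ ∫ t in Ioi (0 : ℝ), GSL_F W l c t := integral_nonneg fun t => GSL_F_nonneg W l c t
      rw [h1, Real.norm_eq_abs, abs_of_nonneg (mul_nonneg (hK0 c) h3), mul_comm]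
      exact mul_le_mul_of_nonneg_right (h2.trans (hb l hl hl1 c).2) (hK0 c)

private lemma GSL_fub (hRH : RiemannHypothesis) {W : ℝ → ℝ} (hW : EB W (1 / 8)) {l : ℝ} (hl : 0 < l) (hl1 : l ≤ 5 / 4)
    {M σ : ℝ} (hM : 1 ≤ M) :
    IntegrableOn (fun t => sl l t ^ 2 * ∫ c in Ioi (1 : ℝ), Kg M (c + σ) * ‖AA W t c‖ ^ 2) (Ioi (0 : ℝ)) ∧
    (∫ c in Ioi (1 : ℝ), Kg M (c + σ) * ∫ t in Ioi (0 : ℝ), sl l t ^ 2 * ‖AA W t c‖ ^ 2) =
      ∫ t in Ioi (0 : ℝ), sl l t ^ 2 * ∫ c in Ioi (1 : ℝ), Kg M (c + σ) * ‖AA W t c‖ ^ 2 := by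
  have hP := GSL_prod hRH hW hl hl1 (σ := σ) hM
  have he : ∀ t : ℝ, (∫ c in Ioi (1 : ℝ), Kg M (c + σ) * GSL_F W l c t) =
      sl l t ^ 2 * ∫ c in Ioi (1 : ℝ), Kg M (c + σ) * ‖AA W t c‖ ^ 2 := by
    intro t
    rw [← integral_const_mul]
    refine integral_congr_ae (Eventually.of_forall fun c => ?_)
    show Kg M (c + σ) * GSL_F W l c t = sl l t ^ 2 * (Kg M (c + σ) * ‖AA W t c‖ ^ 2)
    unfold GSL_F
    ring
  constructor
  · have h1 := hP.integral_prod_right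
    refine h1.congr (Eventually.of_forall fun t => ?_)
    exact he t
  · have h1 := MeasureTheory.integral_integral_swap hP
    have h2 : (∫ c in Ioi (1 : ℝ), Kg M (c + σ) * ∫ t in Ioi (0 : ℝ), sl l t ^ 2 * ‖AA W t c‖ ^ 2) =
        ∫ c in Ioi (1 : ℝ), ∫ t in Ioi (0 : ℝ), Kg M (c + σ) * GSL_F W l c t := by
      refine integral_congr_ae (Eventually.of_forall fun c => ?_)
      show Kg M (c + σ) * ∫ t in Ioi (0 : ℝ), sl l t ^ 2 * ‖AA W t c‖ ^ 2 = ∫ t in Ioi (0 : ℝ), Kg M (c + σ) * GSL_F W l c t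
      rw [integral_const_mul]
      rfl
    rw [h2, h1]
    exact integral_congr_ae (Eventually.of_forall fun t => he t)

private lemma GSL_six {μ : Measure ℝ} {f1 f2 f3 f4 f5 f6 : ℝ → ℝ} (h1 : Integrable f1 μ) (h2 : Integrable f2 μ)
    (h3 : Integrable f3 μ) (h4 : Integrable f4 μ) (h5 : Integrable f5 μ) (h6 : Integrable f6 μ) :
    ∫ t, (f1 t - f2 t + f3 t - f4 t - f5 t - f6 t) ∂μ =
      (∫ t, f1 t ∂μ) - (∫ t, f2 t ∂μ) + (∫ t, f3 t ∂μ) - (∫ t, f4 t ∂μ) - (∫ t, f5 t ∂μ) - ∫ t, f6 t ∂μ := by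
  have k2 : Integrable (fun t => f1 t - f2 t) μ := h1.sub h2
  have k3 : Integrable (fun t => f1 t - f2 t + f3 t) μ := k2.add h3
  have k4 : Integrable (fun t => f1 t - f2 t + f3 t - f4 t) μ := k3.sub h4
  have k5 : Integrable (fun t => f1 t - f2 t + f3 t - f4 t - f5 t) μ := k4.sub h5
  rw [integral_sub k5 h6, integral_sub k4 h5, integral_sub k3 h4, integral_add k2 h3, integral_sub h1 h2]

/-- LEAF GSL: as `sl_lower`. -/
theorem sl_lowerG (hRH : RiemannHypothesis) : ∃ C c : ℝ, 0 ≤ C ∧ 0 < c ∧ ∀ T : ℝ, 8 ≤ T → ∀ l M σ : ℝ, 1 / T ≤ l → l ≤ 1 →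
    2 ≤ M → 0 ≤ σ →
    Ig M σ * (l * (1 - c0 - Real.log l)) - l / 2 * (1 - c0 - Real.log l) ^ 2 - C * l - C * M * l ^ (5 / 4 : ℝ) -
        C * l * Real.log (4 / l) ^ 2 / M + (if l ≤ 5 / (2 * T) then c * Ig M σ * l ^ 2 * NC T (1 / M) else 0) ≤
      ∫ v in Ioi (7 / 8 : ℝ), Kg M (v + σ) * Dt l v ^ 2 := by
  obtain ⟨W, hW⟩ := exists_EB (1 / 8) (by norm_num)
  obtain ⟨hkap, hkapA⟩ := kap hRH
  set κ : ℝ := -Real.log (2 * Real.pi) with hκ
  have hII : 0 < II W := II_pos hW (by norm_num)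
  have hpi := Real.pi_pos
  obtain ⟨C1, hC1, h1⟩ := dtlG hRH hW
  obtain ⟨C2, hC2, h2⟩ := posG hRH hW
  obtain ⟨C3, hC3, h3⟩ := spkG hRH hkapA hW
  obtain ⟨C4, hC4, h4⟩ := den hkap hW
  obtain ⟨C5, hC5, h5⟩ := sl_mom1 κ
  obtain ⟨C6, hC6, h6⟩ := sl_mom2 κ
  obtain ⟨C7, hC7, h7⟩ := sl_half
  obtain ⟨C8, hC8, h8⟩ := sl_logsq
  obtain ⟨c9, hc9, h9⟩ := exl hRH hW
  obtain ⟨CA, hCA, hA⟩ := AA_le hRH hW.es (by norm_num)
  set P : ℝ := Real.pi * II W with hP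
  have hP0 : 0 < P := by positivity
  set C : ℝ := C1 + C5 + 2 * C4 * C7 / P + C2 * C8 / P + C6 + C3 / II W with hCdef
  have hC0 : 0 ≤ C := by positivity
  refine ⟨C, c9 / (2 * P), hC0, by positivity, fun T hT l M σ hl1 hl2 hM2 hσ => ?_⟩
  have hT0 : 0 < T := by linarith
  have hl : 0 < l := lt_of_lt_of_le (by positivity) hl1
  have hM0 : 0 < M := by linarith
  have hM : (1 : ℝ) ≤ M := by linarith
  have hiM : 0 < 1 / M := by positivity
  have hiM1 : 1 / M ≤ 1 := by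
    rw [div_le_one hM0]
    exact hM
  obtain ⟨-, hI2, hI0, hI4, -⟩ := Ig_bounds hM hσ
  set I0 : ℝ := Ig M σ with hI0def
  have hI5 : I0 ≤ 2 * M := hI2.trans hI4
  set a : ℝ := 1 - c0 - Real.log l with ha
  have hae : 1 - Real.eulerMascheroniConstant - Real.log l + κ = a := by
    rw [ha, hκ]
    unfold c0
    ring
  obtain ⟨i5, m5⟩ := h5 l hl hl2
  obtain ⟨i6, m6⟩ := h6 l hl hl2
  obtain ⟨i7, m7⟩ := h7 l hl hl2
  obtain ⟨i8, m8⟩ := h8 l hl hl2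
  obtain ⟨iq, mq⟩ := sl_sq_int hl
  rw [hae] at m5 m6
  have hsub : Ioi (1 : ℝ) ⊆ Ioi 0 := Ioi_subset_Ioi zero_le_one
  have i8' := i8.mono_set hsub
  have iq' := iq.mono_set hsub
  have iE := EX_int hRH hW hiM hiM1 hl
  obtain ⟨fi, fe⟩ := GSL_fub hRH hW hl (by linarith : l ≤ 5 / 4) (σ := σ) hM
  set M1 : ℝ := ∫ t in Ioi (1 : ℝ), sl l t ^ 2 * (Real.log t + κ) with hM1
  set M2 : ℝ := ∫ t in Ioi (1 : ℝ), sl l t ^ 2 * (Real.log t + κ) ^ 2 with hM2'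
  set Hf : ℝ := ∫ t in Ioi (1 : ℝ), sl l t ^ 2 * t ^ (-(1 / 2) : ℝ) with hHf
  set LS : ℝ := ∫ t in Ioi (1 : ℝ), sl l t ^ 2 * Real.log (2 + |t|) ^ 2 with hLS
  set SQ : ℝ := ∫ t in Ioi (1 : ℝ), sl l t ^ 2 with hSQ
  set EI : ℝ := ∫ t in Ioi (1 : ℝ), sl l t ^ 2 * EX W (1 / M) t with hEI
  have hLSle : LS ≤ C8 * l * Real.log (4 / l) ^ 2 := by
    refine (setIntegral_mono_set i8 ?_ hsub.eventuallyLE).trans m8
    exact Eventually.of_forall fun t => by positivity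
  have hSQle : SQ ≤ Real.pi * l := by
    rw [← mq]
    refine setIntegral_mono_set iq ?_ hsub.eventuallyLE
    exact Eventually.of_forall fun t => by positivity
  have hHf0 : 0 ≤ Hf := setIntegral_nonneg measurableSet_Ioi fun t ht => by
    have : (0 : ℝ) < t := lt_trans one_pos ht
    positivity
  have hEI0 : 0 ≤ EI := setIntegral_nonneg measurableSet_Ioi fun t _ =>
    mul_nonneg (sq_nonneg _) (EX_nonneg hRH hW hiM hiM1 t)
  have hK0 : ∀ c : ℝ, 0 ≤ Kg M (c + σ) := fun c => (Real.exp_pos _).le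
  have hAc : ∀ t : ℝ, Continuous (fun c : ℝ => AA W t c) := fun t =>
    (AA_cont2 hW.es (by norm_num)).comp (continuous_const.prodMk continuous_id)
  have hKc : Continuous (fun c : ℝ => Kg M (c + σ)) := by
    unfold Kg
    fun_prop
  have hJi : ∀ t : ℝ, IntegrableOn (fun c : ℝ => Kg M (c + σ) * ‖AA W t c‖ ^ 2) (Ioi 0) := by
    intro t
    refine Integrable.mono' ((Kg_shift_int hM σ 0).const_mul ((CA * Real.log (2 + |t|)) ^ 2)) ?_ ?_
    · exact (hKc.mul ((hAc t).norm.pow 2)).aestronglyMeasurable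
    · refine Eventually.of_forall fun c => ?_
      rw [Real.norm_eq_abs, abs_of_nonneg (mul_nonneg (hK0 c) (sq_nonneg _)), mul_comm]
      exact mul_le_mul_of_nonneg_right (pow_le_pow_left₀ (norm_nonneg _) (hA t c) 2) (hK0 c)
  -- pointwise lower bound
  have hpt : ∀ t ∈ Ioi (1 : ℝ), I0 * II W * (sl l t ^ 2 * (Real.log t + κ)) - I0 * C4 * (sl l t ^ 2 * t ^ (-(1 / 2) : ℝ)) +
      I0 / 2 * (sl l t ^ 2 * EX W (1 / M) t) - C2 / (2 * M) * (sl l t ^ 2 * Real.log (2 + |t|) ^ 2) -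
      II W / 2 * (sl l t ^ 2 * (Real.log t + κ) ^ 2) - C3 / 2 * sl l t ^ 2 ≤
        sl l t ^ 2 * ∫ c in Ioi (1 : ℝ), Kg M (c + σ) * ‖AA W t c‖ ^ 2 := by
    intro t ht
    have ht1 : (1 : ℝ) ≤ t := le_of_lt ht
    have q2 := h2 t M σ hM hσ
    have q3 := h3 t M σ ht1
    have q4 := (abs_le.1 (h4 t ht1)).1
    have hsplit := intervalIntegral.integral_interval_add_Ioi (hJi t) ((hJi t).mono_set hsub)
    set J : ℝ := ∫ c in Ioi (1 : ℝ), Kg M (c + σ) * ‖AA W t c‖ ^ 2 with hJ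
    set S : ℝ := ∑' a : ℂ, (mx a : ℝ) * ck W (t - a.im) ^ 2 with hS
    have hmain : I0 * II W * (Real.log t + κ) - I0 * C4 * t ^ (-(1 / 2) : ℝ) + I0 / 2 * EX W (1 / M) t -
        C2 / (2 * M) * Real.log (2 + |t|) ^ 2 - II W / 2 * (Real.log t + κ) ^ 2 - C3 / 2 ≤ J := by
      have q5 : I0 * (II W * (Real.log t + κ) - C4 * t ^ (-(1 / 2) : ℝ)) ≤ I0 * S :=
        mul_le_mul_of_nonneg_left (by linarith) hI0
      have q6 : C2 / (2 * M) * Real.log (2 + |t|) ^ 2 = (C2 / M * Real.log (2 + |t|) ^ 2) / 2 := by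
        field_simp
      rw [q6]
      have q7 : 2 * I0 * (S + EX W (1 / M) t / 2) = 2 * (I0 * S) + I0 * EX W (1 / M) t := by ring
      rw [q7] at q2
      have q8 : I0 * (II W * (Real.log t + κ) - C4 * t ^ (-(1 / 2) : ℝ)) = I0 * II W * (Real.log t + κ) -
        I0 * C4 * t ^ (-(1 / 2) : ℝ) := by ring
      rw [q8] at q5
      linarith
    have hs0 : 0 ≤ sl l t ^ 2 := sq_nonneg _
    have := mul_le_mul_of_nonneg_left hmain hs0
    refine le_trans (le_of_eq ?_) this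
    ring
  have hgi : IntegrableOn (fun t => I0 * II W * (sl l t ^ 2 * (Real.log t + κ)) - I0 * C4 * (sl l t ^ 2 * t ^ (-(1 / 2) : ℝ)) +
      I0 / 2 * (sl l t ^ 2 * EX W (1 / M) t) - C2 / (2 * M) * (sl l t ^ 2 * Real.log (2 + |t|) ^ 2) -
      II W / 2 * (sl l t ^ 2 * (Real.log t + κ) ^ 2) - C3 / 2 * sl l t ^ 2) (Ioi 1) :=
    (((((i5.const_mul _).sub (i7.const_mul _)).add (iE.const_mul _)).sub (i8'.const_mul _)).sub (i6.const_mul _)).sub
      (iq'.const_mul _)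
  have hint := setIntegral_mono_on hgi (fi.mono_set hsub) measurableSet_Ioi hpt
  have hval : ∫ t in Ioi (1 : ℝ), (I0 * II W * (sl l t ^ 2 * (Real.log t + κ)) - I0 * C4 * (sl l t ^ 2 * t ^ (-(1 / 2) : ℝ)) +
      I0 / 2 * (sl l t ^ 2 * EX W (1 / M) t) - C2 / (2 * M) * (sl l t ^ 2 * Real.log (2 + |t|) ^ 2) -
      II W / 2 * (sl l t ^ 2 * (Real.log t + κ) ^ 2) - C3 / 2 * sl l t ^ 2) =
      I0 * II W * M1 - I0 * C4 * Hf + I0 / 2 * EI - C2 / (2 * M) * LS - II W / 2 * M2 - C3 / 2 * SQ := by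
    have j1 := (i5.const_mul (I0 * II W))
    have j2 := (i7.const_mul (I0 * C4))
    have j3 := (iE.const_mul (I0 / 2))
    have j4 := (i8'.const_mul (C2 / (2 * M)))
    have j5 := (i6.const_mul (II W / 2))
    have j6 := (iq'.const_mul (C3 / 2))
    have j := GSL_six j1 j2 j3 j4 j5 j6
    rw [integral_const_mul, integral_const_mul, integral_const_mul, integral_const_mul, integral_const_mul,
      integral_const_mul] at j
    exact j
  rw [hval] at hint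
  have hle : ∫ t in Ioi (1 : ℝ), sl l t ^ 2 * ∫ c in Ioi (1 : ℝ), Kg M (c + σ) * ‖AA W t c‖ ^ 2 ≤
      ∫ t in Ioi (0 : ℝ), sl l t ^ 2 * ∫ c in Ioi (1 : ℝ), Kg M (c + σ) * ‖AA W t c‖ ^ 2 := by
    refine setIntegral_mono_set fi ?_ hsub.eventuallyLE
    refine Eventually.of_forall fun t => mul_nonneg (sq_nonneg _) ?_
    exact integral_nonneg fun c => mul_nonneg (hK0 c) (sq_nonneg _)
  have hD := h1 l hl (by linarith) M σ hM2 hσ
  rw [fe] at hD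
  set Z : ℝ := ∫ t in Ioi (0 : ℝ), sl l t ^ 2 * ∫ c in Ioi (1 : ℝ), Kg M (c + σ) * ‖AA W t c‖ ^ 2 with hZ
  set R : ℝ := ∫ v in Ioi (7 / 8 : ℝ), Kg M (v + σ) * Dt l v ^ 2 with hR
  have hZ1 : I0 * II W * M1 - I0 * C4 * Hf + I0 / 2 * EI - C2 / (2 * M) * LS - II W / 2 * M2 - C3 / 2 * SQ ≤ Z :=
    hint.trans hle
  have hZ2 : P⁻¹ * (I0 * II W * M1 - I0 * C4 * Hf + I0 / 2 * EI - C2 / (2 * M) * LS - II W / 2 * M2 - C3 / 2 * SQ) ≤
      P⁻¹ * Z := mul_le_mul_of_nonneg_left hZ1 (by positivity)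
  -- the six terms
  have hll : l ^ 2 ≤ l ^ (5 / 4 : ℝ) := by
    rw [← Real.rpow_natCast]
    exact Real.rpow_le_rpow_of_exponent_ge hl hl2 (by norm_num)
  have hl54 : 0 ≤ l ^ (5 / 4 : ℝ) := by positivity
  have t1 : I0 * (l * a) - C5 * (M * l ^ (5 / 4 : ℝ)) ≤ P⁻¹ * (I0 * II W * M1) := by
    have e1 : P⁻¹ * (I0 * II W * M1) = I0 / Real.pi * M1 := by
      rw [hP]
      field_simp
    rw [e1]
    have e2 : Real.pi * l * a - C5 * l ^ 2 ≤ M1 := by linarith [(abs_le.1 m5).1]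
    have e3 := mul_le_mul_of_nonneg_left e2 (by positivity : 0 ≤ I0 / Real.pi)
    refine le_trans ?_ e3
    have e4 : I0 / Real.pi * (Real.pi * l * a - C5 * l ^ 2) = I0 * (l * a) - C5 * (I0 * l ^ 2) / Real.pi := by
      field_simp
    rw [e4]
    have e5 : C5 * (I0 * l ^ 2) ≤ C5 * (2 * M * l ^ (5 / 4 : ℝ)) :=
      mul_le_mul_of_nonneg_left (mul_le_mul hI5 hll (by positivity) (by positivity)) hC5
    have e6 : C5 * (I0 * l ^ 2) / Real.pi ≤ C5 * (M * l ^ (5 / 4 : ℝ)) := by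
      rw [div_le_iff₀ hpi]
      refine e5.trans ?_
      have e7 : C5 * (2 * M * l ^ (5 / 4 : ℝ)) = C5 * (M * l ^ (5 / 4 : ℝ)) * 2 := by ring
      rw [e7]
      exact mul_le_mul_of_nonneg_left (by linarith [Real.pi_gt_three]) (by positivity)
    linarith
  have t2 : P⁻¹ * (I0 * C4 * Hf) ≤ 2 * C4 * C7 / P * (M * l ^ (5 / 4 : ℝ)) := by
    have e0 : I0 * C4 * Hf ≤ 2 * M * C4 * (C7 * l ^ (5 / 4 : ℝ)) :=
      mul_le_mul (mul_le_mul_of_nonneg_right hI5 hC4) m7 hHf0 (by positivity)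
    have e1 := mul_le_mul_of_nonneg_left e0 (by positivity : 0 ≤ P⁻¹)
    refine e1.trans (le_of_eq ?_)
    field_simp
  have t3 : P⁻¹ * (I0 / 2 * EI) = I0 * EI / (2 * P) := by
    field_simp
  have t4 : P⁻¹ * (C2 / (2 * M) * LS) ≤ C2 * C8 / P * (l * Real.log (4 / l) ^ 2 / M) := by
    have e1 : P⁻¹ * (C2 / (2 * M) * LS) ≤ P⁻¹ * (C2 / (2 * M) * (C8 * l * Real.log (4 / l) ^ 2)) :=
      mul_le_mul_of_nonneg_left (mul_le_mul_of_nonneg_left hLSle (by positivity)) (by positivity)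
    refine e1.trans ?_
    have e2 : P⁻¹ * (C2 / (2 * M) * (C8 * l * Real.log (4 / l) ^ 2)) = (C2 * C8 / P * (l * Real.log (4 / l) ^ 2 / M)) / 2 := by
      field_simp
    rw [e2]
    have : 0 ≤ C2 * C8 / P * (l * Real.log (4 / l) ^ 2 / M) := by positivity
    linarith
  have t5 : P⁻¹ * (II W / 2 * M2) ≤ l / 2 * a ^ 2 + C6 * l := by
    have e1 : P⁻¹ * (II W / 2 * M2) = M2 / (2 * Real.pi) := by
      rw [hP]
      field_simp
    rw [e1, div_le_iff₀ (by positivity)]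
    refine m6.trans ?_
    have e2 : (l / 2 * a ^ 2 + C6 * l) * (2 * Real.pi) = Real.pi * l * (a ^ 2 + 2 * C6) := by ring
    rw [e2]
    exact mul_le_mul_of_nonneg_left (by linarith) (by positivity)
  have t6 : P⁻¹ * (C3 / 2 * SQ) ≤ C3 / II W * l := by
    have e1 : P⁻¹ * (C3 / 2 * SQ) ≤ P⁻¹ * (C3 / 2 * (Real.pi * l)) :=
      mul_le_mul_of_nonneg_left (mul_le_mul_of_nonneg_left hSQle (by positivity)) (by positivity)
    refine e1.trans ?_
    have e2 : P⁻¹ * (C3 / 2 * (Real.pi * l)) = (C3 / II W * l) / 2 := by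
      rw [hP]
      field_simp
    rw [e2]
    have : 0 ≤ C3 / II W * l := by positivity
    linarith
  -- excess
  have t7 : (if l ≤ 5 / (2 * T) then c9 / (2 * P) * I0 * l ^ 2 * NC T (1 / M) else 0) ≤ I0 * EI / (2 * P) := by
    split_ifs with hc
    · have e1 := h9 T hT l (1 / M) hl hc hiM hiM1
      have e2 := mul_le_mul_of_nonneg_left e1 (by positivity : 0 ≤ I0 / (2 * P))
      calc c9 / (2 * P) * I0 * l ^ 2 * NC T (1 / M) = I0 / (2 * P) * (c9 * l ^ 2 * NC T (1 / M)) := by ring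
        _ ≤ I0 / (2 * P) * EI := e2
        _ = I0 * EI / (2 * P) := by ring
    · positivity
  have hexp : P⁻¹ * (I0 * II W * M1 - I0 * C4 * Hf + I0 / 2 * EI - C2 / (2 * M) * LS - II W / 2 * M2 - C3 / 2 * SQ) =
      P⁻¹ * (I0 * II W * M1) - P⁻¹ * (I0 * C4 * Hf) + P⁻¹ * (I0 / 2 * EI) - P⁻¹ * (C2 / (2 * M) * LS) -
      P⁻¹ * (II W / 2 * M2) - P⁻¹ * (C3 / 2 * SQ) := by ring
  rw [hexp, t3] at hZ2
  -- sizes of the constants
  have u1 : (C1 + C5 + 2 * C4 * C7 / P) * (M * l ^ (5 / 4 : ℝ)) ≤ C * (M * l ^ (5 / 4 : ℝ)) := by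
    refine mul_le_mul_of_nonneg_right ?_ (by positivity)
    rw [hCdef]
    have : 0 ≤ C2 * C8 / P + C6 + C3 / II W := by positivity
    linarith
  have u2 : (C1 + C2 * C8 / P) * (l * Real.log (4 / l) ^ 2 / M) ≤ C * (l * Real.log (4 / l) ^ 2 / M) := by
    refine mul_le_mul_of_nonneg_right ?_ (by positivity)
    rw [hCdef]
    have : 0 ≤ C5 + 2 * C4 * C7 / P + C6 + C3 / II W := by positivity
    linarith
  have u3 : (C6 + C3 / II W) * l ≤ C * l := by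
    refine mul_le_mul_of_nonneg_right ?_ hl.le
    rw [hCdef]
    have : 0 ≤ C1 + C5 + 2 * C4 * C7 / P + C2 * C8 / P := by positivity
    linarith
  have v1 : C * M * l ^ (5 / 4 : ℝ) = C * (M * l ^ (5 / 4 : ℝ)) := by ring
  have v2 : C * l * Real.log (4 / l) ^ 2 / M = C * (l * Real.log (4 / l) ^ 2 / M) := by ring
  have v3 : C1 * M * l ^ (5 / 4 : ℝ) = C1 * (M * l ^ (5 / 4 : ℝ)) := by ring
  have v4 : C1 * l * Real.log (4 / l) ^ 2 / M = C1 * (l * Real.log (4 / l) ^ 2 / M) := by ring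
  rw [v1, v2]
  rw [v3, v4] at hD
  rw [add_mul, add_mul] at u1
  rw [add_mul] at u2 u3
  linarith

end Pool.Agent.Lib.MP_2a816b_nt.TA
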