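import Pool.Agent.Lib.MP_2a816b_nt.TA.HCr

open Complex Set Filter Topology MeasureTheory

namespace Pool.Agent.Lib.MP_2a816b_nt.TA

open Pool.Agent.Lib.MP_00e05b_nt Pool.Agent.Lib.MP_00e05b_nt.Mont Pool.Agent.Lib.MP_2a816b_nt.PV

/-- LEAF HCb (a): `small_h` up to `h ≤ 3`. By `split2` twice (`h = h/4 + 3h/4` etc., or `h/2 + h/2` with `Y = X`, `Z = 2X`):
`X VV X h ≤ 2 (X VV X (h/2)) + 2 (2X VV (2X) (h/2))` and again `h/2 = h/4 + h/4`, `h/4 ≤ 3/4 ≤ 1`, then `small_h` at `X, 2X, 4X`
and `log (4X) ≤ 3 log X` for `X ≥ 2`. Needs `h ≤ X`. -/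
theorem small_h3 : ∃ C : ℝ, 0 ≤ C ∧ ∀ X h : ℝ, 2 ≤ X → 0 < h → h ≤ 3 → h ≤ X → VV X h ≤ C * h * Real.log X := by
  obtain ⟨C, hC, hs⟩ := small_h
  refine ⟨27 * C, by positivity, fun X h hX hh h3 hhX => ?_⟩
  have hX0 : 0 < X := by linarith
  have e2 : h / 2 + h / 2 = h := by ring
  have e4 : h / 4 + h / 4 = h / 2 := by ring
  have s1 := split2 (X := X) (Y := X) (Z := 2 * X) (r := h / 2) (s := h / 2) (by linarith) (by linarith)
    (by linarith) le_rfl (by linarith)
  rw [e2] at s1
  have s2 := split2 (X := X) (Y := X) (Z := 2 * X) (r := h / 4) (s := h / 4) (by linarith) (by linarith)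
    (by linarith) le_rfl (by linarith)
  rw [e4] at s2
  have s3 := split2 (X := 2 * X) (Y := 2 * X) (Z := 4 * X) (r := h / 4) (s := h / 4) (by linarith) (by linarith)
    (by linarith) le_rfl (by linarith)
  rw [e4] at s3
  have hl1 : Real.log X ≤ Real.log (4 * X) := Real.log_le_log hX0 (by linarith)
  have hl2 : Real.log (2 * X) ≤ Real.log (4 * X) := Real.log_le_log (by linarith) (by linarith)
  have hCh : 0 ≤ C * (h / 4) := by positivity
  have b1 : VV X (h / 4) ≤ C * (h / 4) * Real.log (4 * X) :=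
    (hs X (h / 4) hX (by linarith) (by linarith)).trans (mul_le_mul_of_nonneg_left hl1 hCh)
  have b2 : VV (2 * X) (h / 4) ≤ C * (h / 4) * Real.log (4 * X) :=
    (hs (2 * X) (h / 4) (by linarith) (by linarith) (by linarith)).trans (mul_le_mul_of_nonneg_left hl2 hCh)
  have b3 : VV (4 * X) (h / 4) ≤ C * (h / 4) * Real.log (4 * X) :=
    hs (4 * X) (h / 4) (by linarith) (by linarith) (by linarith)
  have c1 : X * VV X (h / 4) ≤ X * (C * (h / 4) * Real.log (4 * X)) := mul_le_mul_of_nonneg_left b1 hX0.le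
  have c2 : 2 * X * VV (2 * X) (h / 4) ≤ 2 * X * (C * (h / 4) * Real.log (4 * X)) :=
    mul_le_mul_of_nonneg_left b2 (by linarith)
  have c3 : 4 * X * VV (4 * X) (h / 4) ≤ 4 * X * (C * (h / 4) * Real.log (4 * X)) :=
    mul_le_mul_of_nonneg_left b3 (by linarith)
  have hlog4 : Real.log (4 * X) ≤ 3 * Real.log X := by
    have h1 : Real.log (4 * X) ≤ Real.log (X ^ 3) := by
      apply Real.log_le_log (by linarith)
      nlinarith [mul_self_nonneg (X - 2), sq_nonneg X]
    rwa [Real.log_pow] at h1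
  have key : X * VV X h ≤ X * (9 * C * h * Real.log (4 * X)) := by nlinarith
  have key2 : VV X h ≤ 9 * C * h * Real.log (4 * X) := le_of_mul_le_mul_left key hX0
  refine key2.trans ?_
  have h9 : 0 ≤ 9 * C * h := by positivity
  calc 9 * C * h * Real.log (4 * X) ≤ 9 * C * h * (3 * Real.log X) := mul_le_mul_of_nonneg_left hlog4 h9
    _ = 27 * C * h * Real.log X := by ring

/-- LEAF HCb (b). `h < 3`: `small_h3`, `log X = L + log h ≤ 2L`. `h ≥ 3`: `crude` with `T = 6X/h`, `log T = L + log 6`; by `PUu`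
(`ε = 1`, `T ≥ T0`) `∫_(log 2X)^(log 4X) QQ T u du ≤ ∫_(log T)^((log T)^(1+κ)) max (QQ - (log T - c0)) 0 + log 2 (log T - c0) ≤ 2 log T`
since `log T ≤ log 2X` (`h ≥ 3`) and `log 4X ≤ log 4 + L^(1+κ1) ≤ (log T)^(1+κ)` for `L` large. So `VV X h ≤ 44 h (L + log 6)`. -/
theorem crudeB {κ ρ κ1 : ℝ} (hρ : 0 ≤ ρ) (h0 : 0 < κ1) (h1 : κ1 < κ) (h : PUu κ ρ) : ∃ C : ℝ, 0 < C ∧ CB κ1 C := by
  obtain ⟨C3, hC3, hs⟩ := small_h3
  obtain ⟨T0, hT0⟩ := eventually_atTop.1 (h 1 one_pos)
  obtain ⟨L0, hL0⟩ := eventually_atTop.1 ((tendsto_rpow_atTop (sub_pos.2 h1)).eventually_ge_atTop (2 : ℝ))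
  refine ⟨3 * C3 + 132 + |T0| + |L0|, by positivity, fun X H hH hHX hC hlogX => ?_⟩
  set L : ℝ := Real.log (X / H) with hL
  have habs1 : T0 ≤ |T0| := le_abs_self _
  have habs2 : L0 ≤ |L0| := le_abs_self _
  have habs3 : 0 ≤ |T0| := abs_nonneg _
  have habs4 : 0 ≤ |L0| := abs_nonneg _
  have hL132 : 132 ≤ L := by linarith
  have hH0 : 0 < H := by linarith
  have hX0 : 0 < X := by linarith
  have hXH : 0 < X / H := by positivity
  have hexpL : Real.exp L = X / H := Real.exp_log hXH
  have hLexp : L + 1 ≤ X / H := by rw [← hexpL]; exact Real.add_one_le_exp L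
  have hXlog : Real.log X = L + Real.log H := by rw [hL, Real.log_div hX0.ne' hH0.ne']; ring
  have hlog3 : Real.log 3 ≤ 2 := by
    have := Real.log_le_sub_one_of_pos (show (0 : ℝ) < 3 by norm_num)
    linarith
  have hlog6 : Real.log 6 ≤ 5 := by
    have := Real.log_le_sub_one_of_pos (show (0 : ℝ) < 6 by norm_num)
    linarith
  have hlog6' : 0 ≤ Real.log 6 := Real.log_nonneg (by norm_num)
  have hHL : 0 ≤ H * L := by positivity
  by_cases h3 : H ≤ 3
  · have hXge : 2 ≤ X := by
      have : X / H * H = X := div_mul_cancel₀ X hH0.ne'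
      nlinarith
    have hb := hs X H hXge hH0 h3 hHX
    have hlogH : Real.log H ≤ Real.log 3 := Real.log_le_log hH0 h3
    have hle : Real.log X ≤ 3 * L := by rw [hXlog]; linarith
    calc VV X H ≤ C3 * H * Real.log X := hb
      _ ≤ C3 * H * (3 * L) := mul_le_mul_of_nonneg_left hle (by positivity)
      _ = 3 * C3 * (H * L) := by ring
      _ ≤ (3 * C3 + 132 + |T0| + |L0|) * (H * L) := mul_le_mul_of_nonneg_right (by linarith) hHL
      _ = (3 * C3 + 132 + |T0| + |L0|) * H * L := by ring
  · push Not at h3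
    set T : ℝ := 6 * X / H with hT
    have hTe : T = 6 * (X / H) := by rw [hT]; ring
    have hTpos : 0 < T := by rw [hTe]; positivity
    have hTL : L ≤ T := by rw [hTe]; linarith
    have hT0' : T0 ≤ T := by linarith
    have hT2 : 2 ≤ T := by linarith
    have hlogT : Real.log T = Real.log 6 + L := by
      rw [hTe, Real.log_mul (by norm_num) hXH.ne']
    have hlogTL : L ≤ Real.log T := by rw [hlogT]; linarith
    have hlogT1 : 1 ≤ Real.log T := by linarith
    have hP := hT0 T hT0'
    have hPle : (1 : ℝ) * Real.log T ^ (1 - ρ) ≤ Real.log T := by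
      rw [one_mul]
      calc Real.log T ^ (1 - ρ) ≤ Real.log T ^ (1 : ℝ) := Real.rpow_le_rpow_of_exponent_le hlogT1 (by linarith)
        _ = Real.log T := Real.rpow_one _
    -- the endpoints
    have hA : Real.log T ≤ Real.log (2 * X) := by
      apply Real.log_le_log hTpos
      rw [hT, div_le_iff₀ hH0]
      nlinarith
    have hAB : Real.log (2 * X) ≤ Real.log (4 * X) := Real.log_le_log (by linarith) (by linarith)
    have hB : Real.log (4 * X) ≤ Real.log T ^ (1 + κ) := by
      have hLpos : 0 < L := by linarith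
      have h4 : Real.log 4 ≤ 3 := by
        have := Real.log_le_sub_one_of_pos (show (0 : ℝ) < 4 by norm_num)
        linarith
      have e1 : Real.log (4 * X) = Real.log 4 + Real.log X := Real.log_mul (by norm_num) hX0.ne'
      have hbase : L ≤ L ^ (1 + κ1) := by
        calc L = L ^ (1 : ℝ) := (Real.rpow_one L).symm
          _ ≤ L ^ (1 + κ1) := Real.rpow_le_rpow_of_exponent_le (by linarith) (by linarith)
      have h2 : 2 ≤ L ^ (κ - κ1) := hL0 L (by linarith)
      have hmul : L ^ (1 + κ1) * L ^ (κ - κ1) = L ^ (1 + κ) := by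
        rw [← Real.rpow_add hLpos]
        congr 1
        ring
      have h5 : 2 * L ^ (1 + κ1) ≤ L ^ (1 + κ) := by
        rw [← hmul]
        have : 0 ≤ L ^ (1 + κ1) := by positivity
        nlinarith
      have h6 : L ^ (1 + κ) ≤ Real.log T ^ (1 + κ) := Real.rpow_le_rpow hLpos.le hlogTL (by linarith)
      rw [e1]
      linarith
    have hQi : ∀ a b : ℝ, IntervalIntegrable (QQ T) volume a b := fun a b => QQ_ii hT2 a b
    have hMi : ∀ a b : ℝ, IntervalIntegrable (fun u => max (QQ T u - (Real.log T - c0)) 0) volume a b := by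
      intro a b
      have h1 : IntervalIntegrable (fun u => QQ T u - (Real.log T - c0)) volume a b :=
        (hQi a b).sub intervalIntegrable_const
      have h2 : (fun u => max (QQ T u - (Real.log T - c0)) 0) =
          fun u => ((QQ T u - (Real.log T - c0)) + |QQ T u - (Real.log T - c0)|) * (1 / 2) := by
        funext u
        rcases le_total 0 (QQ T u - (Real.log T - c0)) with h3 | h3
        · rw [max_eq_left h3, abs_of_nonneg h3]; ring
        · rw [max_eq_right h3, abs_of_nonpos h3]; ring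
      rw [h2]
      exact (h1.add h1.abs).mul_const _
    have hM0 : ∀ u, 0 ≤ max (QQ T u - (Real.log T - c0)) 0 := fun u => le_max_right _ _
    have hint1 : ∫ u in (Real.log (2 * X))..(Real.log (4 * X)), max (QQ T u - (Real.log T - c0)) 0 ≤
        ∫ u in (Real.log T)..(Real.log T ^ (1 + κ)), max (QQ T u - (Real.log T - c0)) 0 :=
      intervalIntegral.integral_mono_interval hA hAB hB (Eventually.of_forall hM0) (hMi _ _)
    have hint2 : ∫ u in (Real.log (2 * X))..(Real.log (4 * X)), QQ T u ≤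
        ∫ u in (Real.log (2 * X))..(Real.log (4 * X)), (max (QQ T u - (Real.log T - c0)) 0 + (Real.log T - c0)) := by
      apply intervalIntegral.integral_mono_on hAB (hQi _ _) ((hMi _ _).add intervalIntegrable_const)
      intro u _
      have := le_max_left (QQ T u - (Real.log T - c0)) 0
      linarith
    rw [intervalIntegral.integral_add (hMi _ _) intervalIntegrable_const, intervalIntegral.integral_const,
      smul_eq_mul] at hint2
    have hdiff : Real.log (4 * X) - Real.log (2 * X) = Real.log 2 := by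
      rw [show (4 : ℝ) * X = 2 * (2 * X) by ring, Real.log_mul (by norm_num) (by positivity)]
      ring
    rw [hdiff] at hint2
    have hc0 : 0 ≤ c0 := by
      unfold c0
      have h1 : 0 ≤ Real.log (2 * Real.pi) := Real.log_nonneg (by have := Real.pi_gt_three; linarith)
      have h2 := Real.one_half_lt_eulerMascheroniConstant
      linarith
    have hlog2 : Real.log 2 ≤ 1 := by
      have := Real.log_le_sub_one_of_pos (show (0 : ℝ) < 2 by norm_num)
      linarith
    have hlog2' : 0 ≤ Real.log 2 := Real.log_nonneg (by norm_num)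
    have hprod : Real.log 2 * (Real.log T - c0) ≤ Real.log T := by nlinarith
    have hI : ∫ u in (Real.log (2 * X))..(Real.log (4 * X)), QQ T u ≤ 2 * Real.log T := by linarith
    have hcr := crude hH0 hHX
    rw [← hT] at hcr
    calc VV X H ≤ 22 * H * ∫ u in (Real.log (2 * X))..(Real.log (4 * X)), QQ T u := hcr
      _ ≤ 22 * H * (2 * Real.log T) := mul_le_mul_of_nonneg_left hI (by positivity)
      _ ≤ 22 * H * (2 * (3 * L)) := by
          apply mul_le_mul_of_nonneg_left _ (by positivity)
          rw [hlogT]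
          linarith
      _ = 132 * (H * L) := by ring
      _ ≤ (3 * C3 + 132 + |T0| + |L0|) * (H * L) := mul_le_mul_of_nonneg_right (by linarith) hHL
      _ = (3 * C3 + 132 + |T0| + |L0|) * H * L := by ring

end Pool.Agent.Lib.MP_2a816b_nt.TA
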