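
import Pool.Agent.Lib.MP_2a816b_nt.TA.Defs

open Complex Set Filter Topology MeasureTheory

namespace Pool.Agent.Lib.MP_2a816b_nt.TA

open Pool.Agent.Lib.MP_00e05b_nt Pool.Agent.Lib.MP_00e05b_nt.Mont Pool.Agent.Lib.MP_2a816b_nt.PV

theorem QQ_eq_RR {T : ℝ} (hT : 2 ≤ T) (u : ℝ) : QQ T u = Real.log T * RR (u / Real.log T) T := by
  have hT0 : 0 < T := by linarith
  have hlog : 0 < Real.log T := Real.log_pos (by linarith)
  have h1 : T ^ (u / Real.log T) = Real.exp u := by
    rw [Real.rpow_def_of_pos hT0]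
    congr 1
    field_simp
  have h2 : T ^ (u / Real.log T - 1) = Real.exp u / T := by
    rw [Real.rpow_sub_one hT0.ne', h1]
  unfold QQ RR
  rw [h1, h2]
  have h3 : 0 < Real.exp u / T := div_pos (Real.exp_pos u) hT0
  field_simp

theorem QQ_nonneg {T : ℝ} (hT : 2 ≤ T) (u : ℝ) : 0 ≤ QQ T u := by
  rw [QQ_eq_RR hT]
  exact mul_nonneg (Real.log_nonneg (by linarith)) (RR_nonneg hT _)

theorem QQ_ii {T : ℝ} (hT : 2 ≤ T) (a b : ℝ) : IntervalIntegrable (QQ T) volume a b := by
  have hlog : 0 < Real.log T := Real.log_pos (by linarith)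
  have h1 : ∀ x y : ℝ, IntervalIntegrable (fun α => RR α T) volume x y := by
    intro x y
    rcases le_total x y with h | h
    · exact (star_avg hT h).1
    · exact (star_avg hT h).1.symm
  have h2 := ((h1 ((Real.log T)⁻¹ * a) ((Real.log T)⁻¹ * b)).comp_mul_left (c := (Real.log T)⁻¹)).const_mul
    (Real.log T)
  have e1 : (Real.log T)⁻¹ * a / (Real.log T)⁻¹ = a := by field_simp
  have e2 : (Real.log T)⁻¹ * b / (Real.log T)⁻¹ = b := by field_simp
  rw [e1, e2] at h2
  refine h2.congr fun u _ => ?_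
  rw [QQ_eq_RR hT, div_eq_inv_mul]

private theorem StW_lT_one {T : ℝ} (hT : 2 ≤ T) : lT T ≤ 1 := by
  have h1 := lT_le (by linarith : (1 : ℝ) ≤ T)
  refine h1.trans ?_
  rw [div_le_one (by linarith)]
  linarith

private theorem StW_one_le : (1 : ℝ) ≤ Real.log 3 := by
  rw [Real.le_log_iff_exp_le (by norm_num)]
  have := Real.exp_one_lt_d9
  linarith

/-- LEAF StW. `star` with `α = u/L`: `QQ T u = (1/T) ∫_{lT T}^{log 3} w3 l Dt l (u - L + su l)² dl`. Multiply by `1 - u/M`,
integrate over `[0, M]`, Fubini (as in `star_avg`), substitution `v = u - L + su l`; restrict to `l ≤ 1` and `v ≥ 7/8`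
(`0 ≤ L - su l` because `su l ≤ -log l ≤ L` for `l ≥ lT T ≥ 1/T`, so `u ≥ 0` is implied by `v ≥ 7/8`) and use
`1 - (v + L - su l)/M = (N/M) (1 - v/N)`, `N = M - L + su l`. -/
theorem stw {T M : ℝ} (hT : 2 ≤ T) (hM : Real.log T + 4 ≤ M) :
    IntervalIntegrable (fun l : ℝ => w3 l * ((M - Real.log T + su l) / M *
      ∫ v in (7 / 8 : ℝ)..(M - Real.log T + su l), (1 - v / (M - Real.log T + su l)) * Dt l v ^ 2)) volume (lT T) 1 ∧
    1 / T * ∫ l in (lT T)..1, w3 l * ((M - Real.log T + su l) / M *
      ∫ v in (7 / 8 : ℝ)..(M - Real.log T + su l), (1 - v / (M - Real.log T + su l)) * Dt l v ^ 2) ≤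
      ∫ u in (0 : ℝ)..M, (1 - u / M) * QQ T u := by
  have hT0 : 0 < T := by linarith
  have hlog : 0 < Real.log T := Real.log_pos (by linarith)
  have hM0 : 0 < M := by linarith
  have hlT1 : 1 / T ≤ lT T := lT_ge (by linarith : (1 : ℝ) ≤ T)
  have hlT0 : 0 < lT T := lt_of_lt_of_le (by positivity) hlT1
  have hlT3 : lT T ≤ Real.log 3 := lT_le_log_three (by linarith)
  have hlTo : lT T ≤ 1 := StW_lT_one hT
  have hw3m : Measurable w3 := by
    unfold w3
    exact (((Real.continuous_sinh.comp (continuous_id.div_const 2)).const_mul 2).pow 3).measurable.inv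
  have hsum : Measurable su := by
    unfold su
    exact (Real.measurable_log.comp ((Real.continuous_sinh.comp (continuous_id.div_const 2)).const_mul 2).measurable).neg
  have harg : Measurable fun p : ℝ × ℝ => p.1 - Real.log T + su p.2 :=
    (measurable_fst.sub_const _).add (hsum.comp measurable_snd)
  -- the two kernels
  obtain ⟨K, hKdef, hKm⟩ : ∃ K : ℝ → ℝ → ℝ, (∀ u l, K u l = w3 l * ((1 - u / M) * Dt l (u - Real.log T + su l) ^ 2)) ∧
      Measurable (Function.uncurry K) := by
    refine ⟨fun u l => w3 l * ((1 - u / M) * Dt l (u - Real.log T + su l) ^ 2), fun _ _ => rfl, ?_⟩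
    have e1 : Measurable fun p : ℝ × ℝ => (p.2, p.1 - Real.log T + su p.2) :=
      measurable_snd.prodMk harg
    have e2 : Measurable fun p : ℝ × ℝ => 1 - p.1 / M := measurable_const.sub (measurable_fst.div_const M)
    exact (hw3m.comp measurable_snd).mul (e2.mul ((Dt_meas.comp e1).pow_const 2))
  have hset : MeasurableSet {p : ℝ × ℝ | 7 / 8 < p.1 - Real.log T + su p.2} :=
    measurableSet_lt measurable_const harg
  obtain ⟨K', hK1, hK0, hKm', hKi⟩ : ∃ K' : ℝ → ℝ → ℝ,
      (∀ u l, 7 / 8 < u - Real.log T + su l → K' u l = K u l) ∧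
      (∀ u l, ¬ 7 / 8 < u - Real.log T + su l → K' u l = 0) ∧ Measurable (Function.uncurry K') ∧
      ∀ ν : Measure (ℝ × ℝ), Integrable (Function.uncurry K) ν → Integrable (Function.uncurry K') ν := by
    have hu : Function.uncurry (fun u l => {p : ℝ × ℝ | 7 / 8 < p.1 - Real.log T + su p.2}.indicator
        (Function.uncurry K) (u, l)) = {p : ℝ × ℝ | 7 / 8 < p.1 - Real.log T + su p.2}.indicator
        (Function.uncurry K) := by
      funext p
      rfl
    refine ⟨fun u l => {p : ℝ × ℝ | 7 / 8 < p.1 - Real.log T + su p.2}.indicator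
        (Function.uncurry K) (u, l), fun u l h => ?_, fun u l h => ?_, ?_, ?_⟩
    · have h' : (u, l) ∈ {p : ℝ × ℝ | 7 / 8 < p.1 - Real.log T + su p.2} := h
      show indicator _ _ _ = _
      rw [indicator_of_mem h']
      rfl
    · have h' : (u, l) ∉ {p : ℝ × ℝ | 7 / 8 < p.1 - Real.log T + su p.2} := h
      show indicator _ _ _ = _
      rw [indicator_of_notMem h']
    · rw [hu]
      exact hKm.indicator hset
    · intro ν hν
      rw [hu]
      exact hν.indicator hset
  have hsu : ∀ l, lT T < l → l ≤ Real.log 3 → -1 ≤ su l ∧ su l ≤ Real.log T := by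
    intro l h1 h2
    have hl0 : 0 < l := hlT0.trans h1
    have hs2 := su_le hl0
    have hs3 : -Real.log l ≤ Real.log T := by
      have := Real.log_le_log (by positivity) (hlT1.trans h1.le)
      rw [one_div, Real.log_inv] at this
      linarith
    exact ⟨su_ge_neg_one hl0 h2, by linarith⟩
  obtain ⟨C, hC0, hC⟩ := Dt_bdd (M + 2 * Real.log T + 1)
  have hbd : ∀ u l : ℝ, 0 < u → u ≤ M → lT T < l → l ≤ Real.log 3 →
      0 ≤ K u l ∧ K u l ≤ 1 / (lT T) ^ 3 * (1 * C ^ 2) := by
    intro u l hu0 huM h1 h2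
    have hl0 : 0 < l := hlT0.trans h1
    have hw := w3_le hl0
    have hw0 := w3_pos hl0
    rw [hKdef]
    have hu1 : 0 ≤ 1 - u / M := by
      rw [sub_nonneg, div_le_one hM0]
      exact huM
    have hu2 : 1 - u / M ≤ 1 := by
      have : 0 ≤ u / M := by positivity
      linarith
    obtain ⟨hs1, hs2⟩ := hsu l h1 h2
    have hD := hC l (u - Real.log T + su l) hl0.le (h2.trans log_three_le) (by
      rw [abs_le]; constructor <;> linarith)
    refine ⟨by positivity, ?_⟩
    refine mul_le_mul (hw.trans ?_) ?_ (by positivity) (by positivity)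
    · exact one_div_le_one_div_of_le (by positivity) (pow_le_pow_left₀ hlT0.le h1.le 3)
    · rw [← sq_abs (Dt _ _)]
      exact mul_le_mul hu2 (pow_le_pow_left₀ (abs_nonneg _) hD 2) (by positivity) zero_le_one
  have hKint : ∀ b : ℝ, b ≤ Real.log 3 → Integrable (Function.uncurry K)
      ((volume.restrict (Ioc 0 M)).prod (volume.restrict (Ioc (lT T) b))) := by
    intro b hb
    rw [Measure.prod_restrict]
    refine Measure.integrableOn_of_bounded (M := 1 / (lT T) ^ 3 * (1 * C ^ 2)) ?_ hKm.aestronglyMeasurable ?_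
    · rw [Measure.prod_prod, Real.volume_Ioc, Real.volume_Ioc]
      exact ENNReal.mul_ne_top ENNReal.ofReal_ne_top ENNReal.ofReal_ne_top
    · filter_upwards [ae_restrict_mem (measurableSet_Ioc.prod measurableSet_Ioc)] with p hp
      obtain ⟨hp1, hp2⟩ := hp
      obtain ⟨h1, h2⟩ := hbd p.1 p.2 hp1.1 hp1.2 hp2.1 (hp2.2.trans hb)
      show ‖K p.1 p.2‖ ≤ _
      rw [Real.norm_of_nonneg h1]
      exact h2
  have hKint' : Integrable (Function.uncurry K')
      ((volume.restrict (Ioc 0 M)).prod (volume.restrict (Ioc (lT T) 1))) :=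
    hKi _ (hKint 1 StW_one_le)
  -- the inner integral
  have hinner : ∀ l ∈ Ioc (lT T) 1, ∫ u in Ioc 0 M, K' u l =
      w3 l * ((M - Real.log T + su l) / M *
        ∫ v in (7 / 8 : ℝ)..(M - Real.log T + su l), (1 - v / (M - Real.log T + su l)) * Dt l v ^ 2) := by
    intro l hl
    obtain ⟨hs1, hs2⟩ := hsu l hl.1 (hl.2.trans StW_one_le)
    have hN : 0 < M - Real.log T + su l := by linarith
    have e1 : ∀ u, K' u l = (Ioi (7 / 8 + (Real.log T - su l))).indicator (fun u => K u l) u := by
      intro u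
      by_cases h : 7 / 8 < u - Real.log T + su l
      · have h' : u ∈ Ioi (7 / 8 + (Real.log T - su l)) := by
          rw [mem_Ioi]; linarith
        rw [hK1 u l h, indicator_of_mem h']
      · have h' : u ∉ Ioi (7 / 8 + (Real.log T - su l)) := by
          rw [mem_Ioi]; intro h2; exact h (by linarith)
        rw [hK0 u l h, indicator_of_notMem h']
    simp only [e1]
    rw [setIntegral_indicator measurableSet_Ioi]
    have e2 : Ioc 0 M ∩ Ioi (7 / 8 + (Real.log T - su l)) = Ioc (7 / 8 + (Real.log T - su l)) M := by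
      ext u
      simp only [mem_inter_iff, mem_Ioc, mem_Ioi]
      constructor
      · rintro ⟨⟨_, h2⟩, h3⟩
        exact ⟨h3, h2⟩
      · rintro ⟨h1, h2⟩
        exact ⟨⟨by linarith, h2⟩, h1⟩
    rw [e2, ← intervalIntegral.integral_of_le (by linarith)]
    have e3 : ∀ u, K u l = (fun v => w3 l * ((1 - (v + (Real.log T - su l)) / M) * Dt l v ^ 2))
        (u - (Real.log T - su l)) := by
      intro u
      rw [hKdef]
      show _ = w3 l * ((1 - (u - (Real.log T - su l) + (Real.log T - su l)) / M) * Dt l (u - (Real.log T - su l)) ^ 2)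
      have a1 : u - (Real.log T - su l) + (Real.log T - su l) = u := by ring
      have a2 : u - (Real.log T - su l) = u - Real.log T + su l := by ring
      rw [a1, a2]
    simp only [e3]
    rw [intervalIntegral.integral_comp_sub_right
      (fun v => w3 l * ((1 - (v + (Real.log T - su l)) / M) * Dt l v ^ 2)) (Real.log T - su l)]
    have e4 : (7 : ℝ) / 8 + (Real.log T - su l) - (Real.log T - su l) = 7 / 8 := by ring
    have e5 : M - (Real.log T - su l) = M - Real.log T + su l := by ring
    rw [e4, e5, intervalIntegral.integral_const_mul]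
    congr 1
    rw [← intervalIntegral.integral_const_mul]
    refine intervalIntegral.integral_congr fun v _ => ?_
    show (1 - (v + (Real.log T - su l)) / M) * Dt l v ^ 2 =
      (M - Real.log T + su l) / M * ((1 - v / (M - Real.log T + su l)) * Dt l v ^ 2)
    have hN' := hN.ne'
    have hM' := hM0.ne'
    field_simp
    ring
  refine ⟨?_, ?_⟩
  · rw [intervalIntegrable_iff_integrableOn_Ioc_of_le hlTo]
    have h1 : IntegrableOn (fun l => ∫ u in Ioc 0 M, K' u l) (Ioc (lT T) 1) volume :=
      hKint'.integral_prod_right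
    exact h1.congr_fun (fun l hl => hinner l hl) measurableSet_Ioc
  · have hQ : ∀ u, (1 - u / M) * QQ T u = 1 / T * ∫ l in Ioc (lT T) (Real.log 3), K u l := by
      intro u
      have h1 : (u / Real.log T - 1) * Real.log T = u - Real.log T := by field_simp
      rw [QQ_eq_RR hT, star hT, intervalIntegral.integral_of_le hlT3, h1]
      have h2 : ∀ l, K u l = (1 - u / M) * (w3 l * Dt l (u - Real.log T + su l) ^ 2) := fun l => by
        rw [hKdef]; ring
      simp only [h2]
      rw [integral_const_mul]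
      have h3 := hlog.ne'
      field_simp
    have hR : ∫ u in (0 : ℝ)..M, (1 - u / M) * QQ T u =
        1 / T * ∫ l in Ioc (lT T) (Real.log 3), ∫ u in Ioc 0 M, K u l := by
      simp only [hQ]
      rw [intervalIntegral.integral_const_mul, intervalIntegral.integral_of_le hM0.le,
        integral_integral_swap (hKint _ le_rfl)]
    rw [hR, intervalIntegral.integral_of_le hlTo]
    refine mul_le_mul_of_nonneg_left ?_ (by positivity)
    have hin : ∀ b : ℝ, b ≤ Real.log 3 →
        IntegrableOn (fun l => ∫ u in Ioc 0 M, K u l) (Ioc (lT T) b) volume := fun b hb =>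
      (hKint b hb).integral_prod_right
    have hin' : IntegrableOn (fun l => ∫ u in Ioc 0 M, K' u l) (Ioc (lT T) 1) volume :=
      hKint'.integral_prod_right
    have hin1 : IntegrableOn (fun l => ∫ u in Ioc 0 M, K u l) (Ioc (lT T) 1) volume := hin 1 StW_one_le
    have hin3 : IntegrableOn (fun l => ∫ u in Ioc 0 M, K u l) (Ioc (lT T) (Real.log 3)) volume :=
      hin _ le_rfl
    have hmono : ∀ l ∈ Ioc (lT T) 1, ∫ u in Ioc 0 M, K' u l ≤ ∫ u in Ioc 0 M, K u l := by
      intro l hl
      have hl3 := hl.2.trans StW_one_le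
      have hm1 : Measurable fun u => K u l := hKm.comp (measurable_id.prodMk measurable_const)
      have hm2 : Measurable fun u => K' u l := hKm'.comp (measurable_id.prodMk measurable_const)
      have hle : ∀ u ∈ Ioc 0 M, 0 ≤ K' u l ∧ K' u l ≤ K u l := by
        intro u hu
        have h0 := (hbd u l hu.1 hu.2 hl.1 hl3).1
        by_cases h : 7 / 8 < u - Real.log T + su l
        · rw [hK1 u l h]
          exact ⟨h0, le_rfl⟩
        · rw [hK0 u l h]
          exact ⟨le_rfl, h0⟩
      have hv : volume (Ioc 0 M) ≠ ⊤ := by simp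
      have i1 : IntegrableOn (fun u => K' u l) (Ioc 0 M) volume := by
        refine Measure.integrableOn_of_bounded (M := 1 / (lT T) ^ 3 * (1 * C ^ 2)) hv
          hm2.aestronglyMeasurable ?_
        filter_upwards [ae_restrict_mem measurableSet_Ioc] with u hu
        rw [Real.norm_of_nonneg (hle u hu).1]
        exact (hle u hu).2.trans (hbd u l hu.1 hu.2 hl.1 hl3).2
      have i2 : IntegrableOn (fun u => K u l) (Ioc 0 M) volume := by
        refine Measure.integrableOn_of_bounded (M := 1 / (lT T) ^ 3 * (1 * C ^ 2)) hv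
          hm1.aestronglyMeasurable ?_
        filter_upwards [ae_restrict_mem measurableSet_Ioc] with u hu
        rw [Real.norm_of_nonneg (hbd u l hu.1 hu.2 hl.1 hl3).1]
        exact (hbd u l hu.1 hu.2 hl.1 hl3).2
      exact setIntegral_mono_on i1 i2 measurableSet_Ioc fun u hu => (hle u hu).2
    have hs1 : ∫ l in Ioc (lT T) 1, ∫ u in Ioc 0 M, K' u l ≤ ∫ l in Ioc (lT T) 1, ∫ u in Ioc 0 M, K u l :=
      setIntegral_mono_on hin' hin1 measurableSet_Ioc hmono
    have hs2 : ∫ l in Ioc (lT T) 1, ∫ u in Ioc 0 M, K u l ≤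
        ∫ l in Ioc (lT T) (Real.log 3), ∫ u in Ioc 0 M, K u l := by
      refine setIntegral_mono_set hin3 ?_ (Ioc_subset_Ioc_right StW_one_le).eventuallyLE
      filter_upwards [ae_restrict_mem measurableSet_Ioc] with l hl
      exact setIntegral_nonneg measurableSet_Ioc fun u hu => (hbd u l hu.1 hu.2 hl.1 hl.2).1
    have hs0 : ∫ l in Ioc (lT T) 1, w3 l * ((M - Real.log T + su l) / M *
          ∫ v in (7 / 8 : ℝ)..(M - Real.log T + su l), (1 - v / (M - Real.log T + su l)) * Dt l v ^ 2) =
        ∫ l in Ioc (lT T) 1, ∫ u in Ioc 0 M, K' u l :=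
      setIntegral_congr_fun measurableSet_Ioc fun l hl => (hinner l hl).symm
    rw [hs0]
    exact hs1.trans hs2

end Pool.Agent.Lib.MP_2a816b_nt.TA
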