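import Pool.Agent.Lib.MP_2a816b_nt.TA.Defs

open Complex Set Filter Topology MeasureTheory

namespace Pool.Agent.Lib.MP_2a816b_nt.TA

open Pool.Agent.Lib.MP_00e05b_nt Pool.Agent.Lib.MP_00e05b_nt.Mont Pool.Agent.Lib.MP_2a816b_nt.PV

/-- `psiWindow` is bounded and measurable (copy of `psiWindow_bounded`). -/
theorem XV_bounded (X H : ℝ) :
    ∃ g : ℝ → ℝ, Measurable g ∧ (∃ C, ∀ x, |g x| ≤ C) ∧
      ∀ x, 0 ≤ x + H / 2 → x ≤ X → psiWindow x H = g x := by
  set B : ℕ := ⌊X + H / 2⌋₊ with hB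
  refine ⟨fun x => ∑ n ∈ Finset.Icc 1 B, if x - H / 2 ≤ (n : ℝ) ∧ (n : ℝ) ≤ x + H / 2 then
    ArithmeticFunction.vonMangoldt n else 0, ?_, ?_, ?_⟩
  · apply Finset.measurable_sum
    intro n _
    apply Measurable.ite _ measurable_const measurable_const
    have : {x : ℝ | x - H / 2 ≤ (n : ℝ) ∧ (n : ℝ) ≤ x + H / 2} =
        Set.Icc ((n : ℝ) - H / 2) ((n : ℝ) + H / 2) := by
      ext x
      rw [Set.mem_Icc]
      change (x - H / 2 ≤ (n : ℝ) ∧ (n : ℝ) ≤ x + H / 2) ↔ _
      constructor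
      · rintro ⟨h1, h2⟩; constructor <;> linarith
      · rintro ⟨h1, h2⟩; constructor <;> linarith
    rw [this]
    exact measurableSet_Icc
  · refine ⟨∑ n ∈ Finset.Icc 1 B, ArithmeticFunction.vonMangoldt n, ?_⟩
    intro x
    refine (Finset.abs_sum_le_sum_abs _ _).trans ?_
    apply Finset.sum_le_sum; intro n _
    have := ArithmeticFunction.vonMangoldt_nonneg (n := n)
    split_ifs
    · rw [abs_of_nonneg this]
    · rw [abs_zero]; exact this
  · intro x hx0 hxX
    unfold psiWindow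
    simp only
    rw [← Finset.sum_filter]
    apply Finset.sum_congr _ (fun _ _ => rfl)
    ext n
    rw [Finset.mem_filter, Finset.mem_filter, Finset.mem_Icc, Finset.mem_Icc, Nat.le_floor_iff hx0]
    constructor
    · rintro ⟨⟨h1, h2⟩, h3⟩
      refine ⟨⟨h1, ?_⟩, h3, h2⟩
      rw [hB]
      apply Nat.le_floor
      linarith
    · rintro ⟨⟨h1, _⟩, h3, h2⟩
      exact ⟨⟨h1, h2⟩, h3⟩

/-- integrability (copy of `sq_integrable`) -/
theorem XV_sq (X H a b : ℝ) (hH : 0 ≤ H) (ha : 0 ≤ a) (hab : a ≤ b) (hbX : b ≤ X) :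
    IntervalIntegrable (fun x => (psiWindow x H - H) ^ 2) volume a b := by
  obtain ⟨g, hg, ⟨C, hC⟩, hgx⟩ := XV_bounded X H
  have h1 : IntervalIntegrable (fun x => (g x - H) ^ 2) volume a b := by
    rw [intervalIntegrable_iff_integrableOn_Ioc_of_le hab]
    have hm : Measurable (fun x => (g x - H) ^ 2) := (hg.sub measurable_const).pow_const 2
    refine Measure.integrableOn_of_bounded (M := (C + |H|) ^ 2) (by simp) hm.aestronglyMeasurable ?_
    filter_upwards with x
    rw [norm_pow, Real.norm_eq_abs]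
    have h2 : |g x - H| ≤ C + |H| := (abs_sub _ _).trans (by have := hC x; linarith)
    gcongr
  apply h1.congr
  intro x hx
  rw [Set.uIoc_of_le hab] at hx
  simp only
  rw [hgx x (by have := hx.1; linarith) (hx.2.trans hbX)]

/-- monotonicity in `X` -/
theorem XV_mono {X Y H : ℝ} (hH : 0 < H) (h1 : H ≤ X) (h2 : X ≤ Y) : X * VV X H ≤ Y * VV Y H := by
  have hX : 0 < X := by linarith
  have hY : 0 < Y := by linarith
  unfold VV
  rw [← mul_assoc, ← mul_assoc, mul_one_div_cancel hX.ne', mul_one_div_cancel hY.ne', one_mul,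
    one_mul]
  have i1 := XV_sq Y H H X hH.le hH.le h1 h2
  have i2 := XV_sq Y H X Y hH.le hX.le h2 le_rfl
  rw [← intervalIntegral.integral_add_adjacent_intervals i1 i2]
  have h3 : 0 ≤ ∫ x in X..Y, (psiWindow x H - H) ^ 2 :=
    intervalIntegral.integral_nonneg h2 fun x _ => sq_nonneg _
  linarith

/-- at most two integers in a window of length at most one -/
theorem XV_card {x h : ℝ} (hh1 : h ≤ 1) (hx : 0 ≤ x + h / 2) :
    ((Finset.Icc 1 ⌊x + h / 2⌋₊).filter (fun n : ℕ => x - h / 2 ≤ (n : ℝ))).card ≤ 2 := by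
  have h1 : (Finset.Icc 1 ⌊x + h / 2⌋₊).filter (fun n : ℕ => x - h / 2 ≤ (n : ℝ)) ⊆
      Finset.Icc ⌈x - h / 2⌉₊ ⌊x + h / 2⌋₊ := by
    intro n hn
    rw [Finset.mem_filter, Finset.mem_Icc] at hn
    rw [Finset.mem_Icc]
    exact ⟨Nat.ceil_le.2 hn.2, hn.1.2⟩
  refine (Finset.card_le_card h1).trans ?_
  rw [Nat.card_Icc]
  have h2 : (⌊x + h / 2⌋₊ : ℝ) ≤ x + h / 2 := Nat.floor_le hx
  have h3 : x - h / 2 ≤ (⌈x - h / 2⌉₊ : ℝ) := Nat.le_ceil _
  have h4 : (⌊x + h / 2⌋₊ : ℝ) ≤ ((⌈x - h / 2⌉₊ + 1 : ℕ) : ℝ) := by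
    push_cast
    linarith
  have h5 : ⌊x + h / 2⌋₊ ≤ ⌈x - h / 2⌉₊ + 1 := by exact_mod_cast h4
  omega

/-- the pointwise bound -/
theorem XV_pt {X x h : ℝ} (hh : 0 < h) (hh1 : h ≤ 1) (hx : h ≤ x) (hxX : x ≤ X) :
    (psiWindow x h - h) ^ 2 ≤ (∑ n ∈ Finset.Icc 1 ⌊X + h / 2⌋₊,
      (Icc ((n : ℝ) - h / 2) ((n : ℝ) + h / 2)).indicator
        (fun _ => 4 * ArithmeticFunction.vonMangoldt n ^ 2) x) + 2 * h ^ 2 := by
  have hx0 : 0 ≤ x + h / 2 := by linarith
  set F := (Finset.Icc 1 ⌊x + h / 2⌋₊).filter (fun n : ℕ => x - h / 2 ≤ (n : ℝ)) with hF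
  have h1 : psiWindow x h ^ 2 ≤ 2 * ∑ n ∈ F, ArithmeticFunction.vonMangoldt n ^ 2 := by
    have h2 : psiWindow x h ^ 2 ≤ F.card * ∑ n ∈ F, ArithmeticFunction.vonMangoldt n ^ 2 :=
      sq_sum_le_card_mul_sum_sq
    refine h2.trans (mul_le_mul_of_nonneg_right ?_ (Finset.sum_nonneg fun n _ => sq_nonneg _))
    exact_mod_cast XV_card hh1 hx0
  have h3 : 4 * ∑ n ∈ F, ArithmeticFunction.vonMangoldt n ^ 2 ≤
      ∑ n ∈ Finset.Icc 1 ⌊X + h / 2⌋₊, (Icc ((n : ℝ) - h / 2) ((n : ℝ) + h / 2)).indicator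
        (fun _ => 4 * ArithmeticFunction.vonMangoldt n ^ 2) x := by
    rw [Finset.mul_sum]
    have hsub : F ⊆ Finset.Icc 1 ⌊X + h / 2⌋₊ := by
      intro n hn
      rw [hF, Finset.mem_filter, Finset.mem_Icc] at hn
      rw [Finset.mem_Icc]
      exact ⟨hn.1.1, hn.1.2.trans (Nat.floor_le_floor (by linarith))⟩
    refine le_trans (Finset.sum_le_sum fun n hn => ?_) (Finset.sum_le_sum_of_subset_of_nonneg hsub
      fun n _ _ => indicator_nonneg (fun _ _ => by positivity) x)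
    rw [hF, Finset.mem_filter, Finset.mem_Icc] at hn
    have h4 : (n : ℝ) ≤ x + h / 2 := (Nat.le_floor_iff hx0).1 hn.1.2
    rw [indicator_of_mem]
    exact ⟨by linarith, by linarith [hn.2]⟩
  have h5 : (psiWindow x h - h) ^ 2 ≤ 2 * psiWindow x h ^ 2 + 2 * h ^ 2 := by
    nlinarith [sq_nonneg (psiWindow x h + h)]
  linarith

theorem XV_int (n : ℕ) (c : ℝ) {h X : ℝ} (hh : 0 < h) (hX : h ≤ X) (hc : 0 ≤ c) :
    IntervalIntegrable ((Icc ((n : ℝ) - h / 2) ((n : ℝ) + h / 2)).indicator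
      (fun _ => c)) volume h X ∧
    ∫ x in h..X, (Icc ((n : ℝ) - h / 2) ((n : ℝ) + h / 2)).indicator (fun _ => c) x ≤ c * h := by
  have h1 : IntegrableOn ((Icc ((n : ℝ) - h / 2) ((n : ℝ) + h / 2)).indicator
      (fun _ : ℝ => c)) (Ioc h X) := by
    refine Integrable.indicator ?_ measurableSet_Icc
    exact integrableOn_const (by simp)
  constructor
  · rwa [intervalIntegrable_iff_integrableOn_Ioc_of_le hX]
  · rw [intervalIntegral.integral_of_le hX, integral_indicator measurableSet_Icc,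
      Measure.restrict_restrict measurableSet_Icc, setIntegral_const, smul_eq_mul, mul_comm]
    refine mul_le_mul_of_nonneg_left ?_ hc
    have h2 : volume.real (Icc ((n : ℝ) - h / 2) ((n : ℝ) + h / 2) ∩ Ioc h X) ≤
        volume.real (Icc ((n : ℝ) - h / 2) ((n : ℝ) + h / 2)) :=
      measureReal_mono inter_subset_left (by simp)
    refine h2.trans (le_of_eq ?_)
    rw [Real.volume_real_Icc_of_le (by linarith)]
    ring

/-- LEAF Dip0 (elementary, `h ≤ 1`): `VV X h = (1/X) ∫_h^X (psiWindow² - 2 h psiWindow + h²) ≤ (1/X) ∫_h^X psiWindow x h² dx + h²`;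
for `h < 1` a window contains at most one integer (`h = 1`: two, on a null set), so `∫ psiWindow² ≤ h ∑_{n ≤ X + 1} Λ(n)²
≤ h log (X + 1) ψ(X + 1)`; Chebyshev. -/
theorem small_h : ∃ C : ℝ, 0 ≤ C ∧ ∀ X h : ℝ, 2 ≤ X → 0 < h → h ≤ 1 → VV X h ≤ C * h * Real.log X := by
  refine ⟨16 * (Real.log 4 + 4) + 4, by have := Real.log_nonneg (by norm_num : (1 : ℝ) ≤ 4); positivity,
    fun X h hX hh hh1 => ?_⟩
  have hX0 : 0 < X := by linarith
  have hhX : h ≤ X := by linarith
  set B := ⌊X + h / 2⌋₊ with hB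
  set K := Real.log 4 + 4 with hK
  have hK0 : 0 ≤ K := by
    have := Real.log_nonneg (by norm_num : (1 : ℝ) ≤ 4)
    positivity
  have hlogX : 1 / 2 ≤ Real.log X := by
    have h1 := Real.log_le_log (by norm_num : (0 : ℝ) < 2) hX
    have h2 := Real.log_two_gt_d9
    linarith
  -- the integral
  have h1 : ∫ x in h..X, (psiWindow x h - h) ^ 2 ≤
      ∫ x in h..X, ((∑ n ∈ Finset.Icc 1 B, (Icc ((n : ℝ) - h / 2) ((n : ℝ) + h / 2)).indicator
        (fun _ => 4 * ArithmeticFunction.vonMangoldt n ^ 2) x) + 2 * h ^ 2) := by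
    refine intervalIntegral.integral_mono_on hhX (XV_sq X h h X hh.le hh.le hhX le_rfl) ?_
      fun x hx => XV_pt hh hh1 hx.1 hx.2
    refine IntervalIntegrable.add ?_ intervalIntegrable_const
    have h2 := IntervalIntegrable.sum (μ := volume) (a := h) (b := X) (Finset.Icc 1 B)
      (f := fun n : ℕ => (Icc ((n : ℝ) - h / 2) ((n : ℝ) + h / 2)).indicator
        (fun _ => 4 * ArithmeticFunction.vonMangoldt n ^ 2))
      fun n _ => (XV_int n _ hh hhX (by positivity)).1
    refine h2.congr (fun x _ => ?_)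
    simp only [Finset.sum_apply]
  have h2 : ∫ x in h..X, ((∑ n ∈ Finset.Icc 1 B, (Icc ((n : ℝ) - h / 2) ((n : ℝ) + h / 2)).indicator
        (fun _ => 4 * ArithmeticFunction.vonMangoldt n ^ 2) x) + 2 * h ^ 2) ≤
      (∑ n ∈ Finset.Icc 1 B, 4 * ArithmeticFunction.vonMangoldt n ^ 2 * h) + X * (2 * h ^ 2) := by
    rw [intervalIntegral.integral_add ?_ intervalIntegrable_const]
    · refine add_le_add ?_ ?_
      · rw [intervalIntegral.integral_finsetSum fun n _ => (XV_int n _ hh hhX (by positivity)).1]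
        exact Finset.sum_le_sum fun n _ => (XV_int n _ hh hhX (by positivity)).2
      · rw [intervalIntegral.integral_const, smul_eq_mul]
        exact mul_le_mul_of_nonneg_right (by linarith) (by positivity)
    · have h3 := IntervalIntegrable.sum (μ := volume) (a := h) (b := X) (Finset.Icc 1 B)
        (f := fun n : ℕ => (Icc ((n : ℝ) - h / 2) ((n : ℝ) + h / 2)).indicator
          (fun _ => 4 * ArithmeticFunction.vonMangoldt n ^ 2))
        fun n _ => (XV_int n _ hh hhX (by positivity)).1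
      refine h3.congr (fun x _ => ?_)
      simp only [Finset.sum_apply]
  -- the sum
  have hBX : (B : ℝ) ≤ X + 1 := by
    have := Nat.floor_le (by linarith : 0 ≤ X + h / 2)
    linarith
  have hlogB : Real.log (X + 1) ≤ 2 * Real.log X := by
    have h3 : X + 1 ≤ X ^ 2 := by nlinarith
    have h4 := Real.log_le_log (by linarith) h3
    rw [Real.log_pow] at h4
    exact_mod_cast h4
  have h3 : ∑ n ∈ Finset.Icc 1 B, ArithmeticFunction.vonMangoldt n ^ 2 ≤
      2 * Real.log X * (K * (X + 1)) := by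
    have h4 : ∀ n ∈ Finset.Icc 1 B, ArithmeticFunction.vonMangoldt n ^ 2 ≤
        2 * Real.log X * ArithmeticFunction.vonMangoldt n := by
      intro n hn
      rw [Finset.mem_Icc] at hn
      rw [sq]
      refine mul_le_mul_of_nonneg_right ?_ ArithmeticFunction.vonMangoldt_nonneg
      refine ArithmeticFunction.vonMangoldt_le_log.trans (le_trans ?_ hlogB)
      refine Real.log_le_log (by exact_mod_cast hn.1) ?_
      have : (n : ℝ) ≤ B := by exact_mod_cast hn.2
      linarith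
    refine (Finset.sum_le_sum h4).trans ?_
    rw [← Finset.mul_sum]
    refine mul_le_mul_of_nonneg_left ?_ (by linarith)
    have h5 : ∑ n ∈ Finset.Icc 1 B, ArithmeticFunction.vonMangoldt n = Chebyshev.psi (B : ℝ) := by
      unfold Chebyshev.psi
      rw [Nat.floor_natCast]
      rfl
    rw [h5]
    refine (Chebyshev.psi_le_const_mul_self (Nat.cast_nonneg B)).trans ?_
    exact mul_le_mul_of_nonneg_left hBX hK0
  have h4 : ∑ n ∈ Finset.Icc 1 B, 4 * ArithmeticFunction.vonMangoldt n ^ 2 * h =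
      4 * h * ∑ n ∈ Finset.Icc 1 B, ArithmeticFunction.vonMangoldt n ^ 2 := by
    rw [Finset.mul_sum]
    exact Finset.sum_congr rfl fun n _ => by ring
  have h5 : ∫ x in h..X, (psiWindow x h - h) ^ 2 ≤
      4 * h * (2 * Real.log X * (K * (X + 1))) + X * (2 * h ^ 2) := by
    refine (h1.trans h2).trans ?_
    rw [h4]
    refine add_le_add (mul_le_mul_of_nonneg_left h3 (by positivity)) le_rfl
  unfold VV
  rw [one_div, inv_mul_le_iff₀ hX0]
  refine h5.trans ?_
  have h6 : 4 * h * (2 * Real.log X * (K * (X + 1))) ≤ 4 * h * (2 * Real.log X * (K * (2 * X))) := by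
    refine mul_le_mul_of_nonneg_left ?_ (by positivity)
    refine mul_le_mul_of_nonneg_left ?_ (by linarith)
    exact mul_le_mul_of_nonneg_left (by linarith) hK0
  have h7 : X * (2 * h ^ 2) ≤ X * (4 * h * Real.log X) := by
    refine mul_le_mul_of_nonneg_left ?_ hX0.le
    have h8 : h ^ 2 ≤ h := by nlinarith
    have h9 : h * (1 / 2) ≤ h * Real.log X := mul_le_mul_of_nonneg_left hlogX hh.le
    linarith
  calc 4 * h * (2 * Real.log X * (K * (X + 1))) + X * (2 * h ^ 2) ≤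
        4 * h * (2 * Real.log X * (K * (2 * X))) + X * (4 * h * Real.log X) := add_le_add h6 h7
    _ = X * ((16 * K + 4) * h * Real.log X) := by ring

end Pool.Agent.Lib.MP_2a816b_nt.TA
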