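import Pool.Agent.Lib.MP_2a816b_nt.TA.HDefs
import Pool.Agent.Lib.MP_2a816b_nt.TA.XV
import Pool.Agent.Lib.MP_2a816b_nt.TA.StW
import Pool.Agent.Lib.MP_2a816b_nt.TA.Edg

open Complex Set Filter Topology MeasureTheory

namespace Pool.Agent.Lib.MP_2a816b_nt.TA

open Pool.Agent.Lib.MP_00e05b_nt Pool.Agent.Lib.MP_00e05b_nt.Mont Pool.Agent.Lib.MP_2a816b_nt.PV

private theorem HCr_shift {X H h d Y : ℝ} (hh : 0 ≤ h) (hHX : H ≤ X) (h1 : h ≤ H + d) (h2 : X + d ≤ Y) :
    ∫ x in H..X, (psiWindow (x + d) h - h) ^ 2 ≤ ∫ x in h..Y, (psiWindow x h - h) ^ 2 := by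
  rw [intervalIntegral.integral_comp_add_right (fun x => (psiWindow x h - h) ^ 2) d]
  apply intervalIntegral.integral_mono_interval h1 (by linarith) h2
  · exact Eventually.of_forall fun x => by positivity
  · exact XV_sq Y h h Y hh hh (by linarith) le_rfl

private theorem HCr_ii {X H h d : ℝ} (hh : 0 ≤ h) (hHX : H ≤ X) (h1 : 0 ≤ H + d) :
    IntervalIntegrable (fun x => (psiWindow (x + d) h - h) ^ 2) volume H X := by
  have h2 := (XV_sq (X + d) h (H + d) (X + d) hh h1 (by linarith) le_rfl).comp_add_right d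
  simpa using h2

private theorem HCr_VV {X H : ℝ} (hX : 0 < X) : X * VV X H = ∫ x in H..X, (psiWindow x H - H) ^ 2 := by
  unfold VV
  rw [← mul_assoc, mul_one_div_cancel hX.ne', one_mul]

/-- LEAF HCr (a), splitting a window in two. For almost all `x` (see `Star_win` and the proof of `edges` in `Edg.lean`)
`psiWindow x (r + s) = psiWindow (x - s/2) r + psiWindow (x + r/2) s`; `(a + b)² ≤ 2a² + 2b²`; shift the variable:
`∫_(r+s)^X (psiWindow (x - s/2) r - r)² dx ≤ ∫_r^Y (psiWindow y r - r)² dy = Y VV Y r` (as `r + s - s/2 ≥ r`, `X - s/2 ≤ Y`), and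
`∫_(r+s)^X (psiWindow (x + r/2) s - s)² dx ≤ Z VV Z s` (as `X + r/2 ≤ Z`). -/
theorem split2 {X Y Z r s : ℝ} (hr : 0 < r) (hs : 0 < s) (h : r + s ≤ X) (hY : X ≤ Y) (hZ : X + r / 2 ≤ Z) :
    X * VV X (r + s) ≤ 2 * (Y * VV Y r) + 2 * (Z * VV Z s) := by
  have hX : 0 < X := by linarith
  rw [HCr_VV hX, HCr_VV (by linarith : 0 < Y), HCr_VV (by linarith : 0 < Z)]
  have i1 : ∫ x in (r + s)..X, (psiWindow (x + -(s / 2)) r - r) ^ 2 ≤ ∫ x in r..Y, (psiWindow x r - r) ^ 2 :=
    HCr_shift hr.le h (by linarith) (by linarith)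
  have i2 : ∫ x in (r + s)..X, (psiWindow (x + r / 2) s - s) ^ 2 ≤ ∫ x in s..Z, (psiWindow x s - s) ^ 2 :=
    HCr_shift hs.le h (by linarith) hZ
  have j0 : IntervalIntegrable (fun x => (psiWindow x (r + s) - (r + s)) ^ 2) volume (r + s) X :=
    XV_sq X (r + s) (r + s) X (by linarith) (by linarith) h le_rfl
  have j1 : IntervalIntegrable (fun x => (psiWindow (x + -(s / 2)) r - r) ^ 2) volume (r + s) X :=
    HCr_ii hr.le h (by linarith)
  have j2 : IntervalIntegrable (fun x => (psiWindow (x + r / 2) s - s) ^ 2) volume (r + s) X :=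
    HCr_ii hs.le h (by linarith)
  have hmain : ∫ x in (r + s)..X, (psiWindow x (r + s) - (r + s)) ^ 2 ≤
      ∫ x in (r + s)..X, (2 * (psiWindow (x + -(s / 2)) r - r) ^ 2 + 2 * (psiWindow (x + r / 2) s - s) ^ 2) := by
    apply intervalIntegral.integral_mono_ae_restrict h j0 ((j1.const_mul 2).add (j2.const_mul 2))
    have c1 : (Set.range fun n : ℕ => (n : ℝ) + (r + s) / 2).Countable := Set.countable_range _
    have c3 : (Set.range fun n : ℕ => (n : ℝ) + (s - r) / 2).Countable := Set.countable_range _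
    filter_upwards [ae_restrict_of_ae (c1.ae_notMem volume), ae_restrict_of_ae (c3.ae_notMem volume),
      ae_restrict_mem measurableSet_Icc] with x h1 h3 hx
    have w0 := Star_win (x := x) (H := r + s) (by linarith) (by linarith [hx.1]) fun n hn => h1 ⟨n, hn.symm⟩
    have w1 := Star_win (x := x + -(s / 2)) (H := r) hr.le (by linarith [hx.1]) fun n hn => h1 ⟨n, by
      simp only
      linarith⟩
    have w2 := Star_win (x := x + r / 2) (H := s) hs.le (by linarith [hx.1]) fun n hn => h3 ⟨n, by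
      simp only
      linarith⟩
    rw [show x + -(s / 2) + r / 2 = x + r / 2 - s / 2 by ring, show x + -(s / 2) - r / 2 = x - (r + s) / 2 by ring] at w1
    rw [show x + r / 2 + s / 2 = x + (r + s) / 2 by ring] at w2
    have w : psiWindow x (r + s) = psiWindow (x + -(s / 2)) r + psiWindow (x + r / 2) s := by
      rw [w0, w1, w2]
      ring
    rw [w]
    nlinarith [sq_nonneg ((psiWindow (x + -(s / 2)) r - r) - (psiWindow (x + r / 2) s - s))]
  rw [intervalIntegral.integral_add (j1.const_mul 2) (j2.const_mul 2), intervalIntegral.integral_const_mul,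
    intervalIntegral.integral_const_mul] at hmain
  linarith

private theorem HCr_img {a b : ℝ} (ha : 0 < a) (hb : 0 < b) :
    Real.exp '' Icc (Real.log a) (Real.log b) = Icc a b := by
  ext y
  constructor
  · rintro ⟨u, hu, rfl⟩
    have h1 := Real.exp_le_exp.2 hu.1
    have h2 := Real.exp_le_exp.2 hu.2
    rw [Real.exp_log ha] at h1
    rw [Real.exp_log hb] at h2
    exact ⟨h1, h2⟩
  · intro hy
    have hy0 : 0 < y := lt_of_lt_of_le ha hy.1
    exact ⟨Real.log y, ⟨Real.log_le_log ha hy.1, Real.log_le_log hy0 hy.2⟩, Real.exp_log hy0⟩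

/-- the substitution `Y = e^u` -/
private theorem HCr_sub {T a b : ℝ} (hT : 2 ≤ T) (ha : 0 < a) (hab : a ≤ b) :
    IntervalIntegrable (fun Y => Y * VV Y (Y / T)) volume a b ∧
      ∫ Y in a..b, Y * VV Y (Y / T) ≤ b ^ 3 / T * ∫ u in (Real.log a)..(Real.log b), QQ T u := by
  have hT0 : 0 < T := by linarith
  have hb : 0 < b := by linarith
  have hlab : Real.log a ≤ Real.log b := Real.log_le_log ha hab
  have hG : ∀ u : ℝ, Real.exp u * (Real.exp u * VV (Real.exp u) (Real.exp u / T)) = Real.exp u ^ 3 / T * QQ T u := by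
    intro u
    have := Real.exp_pos u
    unfold QQ
    field_simp
  have hder : ∀ u ∈ Icc (Real.log a) (Real.log b), HasDerivWithinAt Real.exp (Real.exp u) (Icc (Real.log a) (Real.log b)) u :=
    fun u _ => (Real.hasDerivAt_exp u).hasDerivWithinAt
  have hinj : Set.InjOn Real.exp (Icc (Real.log a) (Real.log b)) := Real.exp_injective.injOn
  have hQ := QQ_ii hT (Real.log a) (Real.log b)
  have hQ2 : IntervalIntegrable (fun u => Real.exp u ^ 3 / T * QQ T u) volume (Real.log a) (Real.log b) :=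
    hQ.continuousOn_mul (by fun_prop)
  have e1 : IntegrableOn (fun Y => Y * VV Y (Y / T)) (Icc a b) := by
    rw [← HCr_img ha hb, integrableOn_image_iff_integrableOn_abs_deriv_smul measurableSet_Icc hder hinj]
    rw [intervalIntegrable_iff_integrableOn_Icc_of_le hlab] at hQ2
    refine hQ2.congr_fun (fun u _ => ?_) measurableSet_Icc
    simp only
    rw [abs_of_pos (Real.exp_pos u), smul_eq_mul, hG]
  refine ⟨(intervalIntegrable_iff_integrableOn_Icc_of_le hab).2 e1, ?_⟩
  rw [intervalIntegral.integral_of_le hab, ← integral_Icc_eq_integral_Ioc, ← HCr_img ha hb,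
    integral_image_eq_integral_abs_deriv_smul measurableSet_Icc hder hinj, integral_Icc_eq_integral_Ioc,
    ← intervalIntegral.integral_of_le hlab, ← intervalIntegral.integral_const_mul]
  have e2 : ∫ u in (Real.log a)..(Real.log b), |Real.exp u| • (Real.exp u * VV (Real.exp u) (Real.exp u / T)) =
      ∫ u in (Real.log a)..(Real.log b), Real.exp u ^ 3 / T * QQ T u := by
    apply intervalIntegral.integral_congr
    intro u _
    simp only
    rw [abs_of_pos (Real.exp_pos u), smul_eq_mul, hG]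
  rw [e2]
  apply intervalIntegral.integral_mono_on hlab hQ2 (hQ.const_mul _)
  intro u hu
  have h1 : Real.exp u ≤ b := by
    have := Real.exp_le_exp.2 hu.2
    rwa [Real.exp_log hb] at this
  have h2 : Real.exp u ^ 3 ≤ b ^ 3 := pow_le_pow_left₀ (Real.exp_pos u).le h1 3
  exact mul_le_mul_of_nonneg_right (div_le_div_of_nonneg_right h2 hT0.le) (QQ_nonneg hT u)

/-- LEAF HCr (b). `T = 6X/h`, `G(Y) = Y VV Y (Y/T) = (Y²/T) QQ T (log Y)`. For `Y ∈ [2X, 4X]` put `r = Y/T`, `s = (6X - Y)/T = h - r`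
(both in `[h/3, 2h/3]`): `X VV X h ≤ 2 G(Y) + 2 G(6X - Y)` by `split2`. Integrate over `Y ∈ [2X, 4X]`:
`2X · X VV X h ≤ 4 ∫_(2X)^(4X) G(Y) dY = 4 ∫_(log 2X)^(log 4X) (e^(3u)/T) QQ T u du ≤ 4 · 64 X³ · (h/(6X)) ∫ QQ T`, so the constant
is `64/3 ≤ 22`. -/
theorem crude {X h : ℝ} (hh : 0 < h) (hX : h ≤ X) :
    VV X h ≤ 22 * h * ∫ u in (Real.log (2 * X))..(Real.log (4 * X)), QQ (6 * X / h) u := by
  have hX0 : 0 < X := by linarith
  have hT0 : 0 < 6 * X / h := by positivity
  have hT : 6 ≤ 6 * X / h := by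
    rw [le_div_iff₀ hh]
    linarith
  have hTh : h * (6 * X / h) = 6 * X := by
    field_simp
  generalize hTd : 6 * X / h = T at hT0 hT hTh ⊢
  obtain ⟨i1, i2⟩ := HCr_sub (T := T) (a := 2 * X) (b := 4 * X) (by linarith) (by linarith) (by linarith)
  have hpt : ∀ Y ∈ Icc (2 * X) (4 * X), X * VV X h ≤ 2 * (Y * VV Y (Y / T)) + 2 * ((6 * X - Y) * VV (6 * X - Y) ((6 * X - Y) / T)) := by
    intro Y hY
    have hY0 : 0 < Y := by linarith [hY.1]
    have hZ0 : 0 < 6 * X - Y := by linarith [hY.2]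
    have hs : Y / T + (6 * X - Y) / T = h := by
      rw [← add_div, add_sub_cancel, ← hTh, mul_div_cancel_right₀ _ hT0.ne']
    have h1 := split2 (X := X) (Y := Y) (Z := 6 * X - Y) (r := Y / T) (s := (6 * X - Y) / T) (by positivity) (by positivity)
      (by rw [hs]; exact hX) (by linarith [hY.1]) (by
        have h2 : Y / T ≤ 4 * X / 6 := div_le_div₀ (by linarith) hY.2 (by norm_num) hT
        linarith [hY.2])
    rwa [hs] at h1
  have j1 : IntervalIntegrable (fun Y => (6 * X - Y) * VV (6 * X - Y) ((6 * X - Y) / T)) volume (2 * X) (4 * X) := by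
    have := (i1.comp_sub_left (6 * X)).symm
    rwa [show 6 * X - 2 * X = 4 * X by ring, show 6 * X - 4 * X = 2 * X by ring] at this
  have j2 : ∫ Y in (2 * X)..(4 * X), (6 * X - Y) * VV (6 * X - Y) ((6 * X - Y) / T) =
      ∫ Y in (2 * X)..(4 * X), Y * VV Y (Y / T) := by
    rw [intervalIntegral.integral_comp_sub_left (fun Y => Y * VV Y (Y / T)) (6 * X)]
    rw [show 6 * X - 2 * X = 4 * X by ring, show 6 * X - 4 * X = 2 * X by ring]
  have h3 : ∫ _Y in (2 * X)..(4 * X), X * VV X h ≤ ∫ Y in (2 * X)..(4 * X), (2 * (Y * VV Y (Y / T)) +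
      2 * ((6 * X - Y) * VV (6 * X - Y) ((6 * X - Y) / T))) :=
    intervalIntegral.integral_mono_on (by linarith) intervalIntegrable_const ((i1.const_mul 2).add (j1.const_mul 2)) hpt
  rw [intervalIntegral.integral_const, smul_eq_mul, intervalIntegral.integral_add (i1.const_mul 2) (j1.const_mul 2),
    intervalIntegral.integral_const_mul, intervalIntegral.integral_const_mul, j2] at h3
  have hI : 0 ≤ ∫ u in (Real.log (2 * X))..(Real.log (4 * X)), QQ T u :=
    intervalIntegral.integral_nonneg (Real.log_le_log (by linarith) (by linarith)) fun u _ => QQ_nonneg (by linarith) u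
  set I := ∫ u in (Real.log (2 * X))..(Real.log (4 * X)), QQ T u with hId
  have h4 : 2 * X * (X * VV X h) ≤ 4 * ((4 * X) ^ 3 / T * I) := by
    calc 2 * X * (X * VV X h) = (4 * X - 2 * X) * (X * VV X h) := by ring
      _ ≤ _ := h3
      _ ≤ 4 * ((4 * X) ^ 3 / T * I) := by linarith
  have h5 : 4 * ((4 * X) ^ 3 / T * I) = 2 * X * (X * (64 / 3 * h * I)) := by
    have hTh' : 1 / T = h / (6 * X) := by
      rw [← hTh]
      field_simp
    calc 4 * ((4 * X) ^ 3 / T * I) = 4 * (4 * X) ^ 3 * I * (1 / T) := by ring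
      _ = 4 * (4 * X) ^ 3 * I * (h / (6 * X)) := by rw [hTh']
      _ = 2 * X * (X * (64 / 3 * h * I)) := by
        field_simp
        ring
  rw [h5] at h4
  have h6 : VV X h ≤ 64 / 3 * h * I := le_of_mul_le_mul_left (le_of_mul_le_mul_left h4 (by linarith)) hX0
  refine h6.trans ?_
  have : 0 ≤ h * I := mul_nonneg hh.le hI
  linarith

end Pool.Agent.Lib.MP_2a816b_nt.TA
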