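import Pool.Agent.Lib.MP_2a816b_nt.TA.HDefs
import Pool.Agent.Lib.MP_2a816b_nt.TA.StW

open Complex Set Filter Topology MeasureTheory

namespace Pool.Agent.Lib.MP_2a816b_nt.TA

open Pool.Agent.Lib.MP_00e05b_nt Pool.Agent.Lib.MP_00e05b_nt.Mont Pool.Agent.Lib.MP_2a816b_nt.PV

/-- LEAF HCv (a). `T^a = e^(a L)`. -/
theorem EE_eq {T : ℝ} (hT : 0 < T) (a : ℝ) : EE a T = QQ T (a * Real.log T) - (Real.log T - c0) := by
  have h1 : T ^ a = Real.exp (a * Real.log T) := by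
    rw [Real.rpow_def_of_pos hT, mul_comm]
  have h2 : T ^ (a - 1) = Real.exp (a * Real.log T) / T := by
    rw [Real.rpow_sub_one hT.ne', h1]
  unfold EE QQ c0
  rw [h1, h2]

/-- the substitution `u = a L`: `∫_L^(L^(1+κ)) f(u) du = L ∫_1^(L^κ) f(a L) da` for `L > 0`, because `L^κ L = L^(1+κ)` -/
private theorem HCv_subst {L : ℝ} (hL : 0 < L) (κ : ℝ) (f : ℝ → ℝ) :
    ∫ u in L..(L ^ (1 + κ)), f u = L * ∫ a in (1 : ℝ)..(L ^ κ), f (a * L) := by
  have h := intervalIntegral.mul_integral_comp_mul_right (a := 1) (b := L ^ κ) (f := f) L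
  rw [h, one_mul, ← Real.rpow_add_one hL.ne', add_comm κ 1]

/-- `L * J = L^(1-ρ) * (L^ρ * J)` for `L > 0` -/
private theorem HCv_pow {L : ℝ} (hL : 0 < L) (ρ J : ℝ) : L * J = L ^ (1 - ρ) * (L ^ ρ * J) := by
  rw [← mul_assoc, ← Real.rpow_add hL, sub_add_cancel, Real.rpow_one]

/-- LEAF HCv (b): `u = a L` (`intervalIntegral.integral_comp_mul_right` or `mul_integral_comp_mul_right`);
`∫_L^(L^(1+κ)) ... du = L ∫_1^(L^κ) ... da ≤ L ε L^(-ρ)`. -/
theorem PU_to {κ ρ : ℝ} (h : Tendsto (fun T : ℝ => Real.log T ^ ρ * ∫ a in (1 : ℝ)..(Real.log T ^ κ), max (EE a T) 0)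
    atTop (𝓝 0)) : PUu κ ρ := by
  intro ε hε
  filter_upwards [h.eventually_lt_const hε, eventually_gt_atTop 1] with T h1 h2
  have hT : 0 < T := by linarith
  have hL : 0 < Real.log T := Real.log_pos h2
  rw [HCv_subst hL κ (fun u => max (QQ T u - (Real.log T - c0)) 0)]
  have e : (∫ a in (1 : ℝ)..(Real.log T ^ κ), max (QQ T (a * Real.log T) - (Real.log T - c0)) 0) =
      ∫ a in (1 : ℝ)..(Real.log T ^ κ), max (EE a T) 0 := by
    refine intervalIntegral.integral_congr fun a _ => ?_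
    show max (QQ T (a * Real.log T) - (Real.log T - c0)) 0 = max (EE a T) 0
    rw [EE_eq hT]
  rw [e, HCv_pow hL ρ, mul_comm ε]
  exact mul_le_mul_of_nonneg_left h1.le (Real.rpow_nonneg hL.le _)

/-- LEAF HCv (c): the same substitution; `0 ≤ κ`, so that `1 ≤ L^κ` for `L ≥ 1` and the integral is not negative. -/
theorem L1_back {κ ρ : ℝ} (hκ : 0 ≤ κ) (h : ∀ ε : ℝ, 0 < ε → ∀ᶠ T : ℝ in atTop,
    ∫ u in (Real.log T)..(Real.log T ^ (1 + κ)), |Real.log T - c0 - QQ T u| ≤ ε * Real.log T ^ (1 - ρ)) :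
    Tendsto (fun T : ℝ => Real.log T ^ ρ * ∫ a in (1 : ℝ)..(Real.log T ^ κ), |EE a T|) atTop (𝓝 0) := by
  rw [Metric.tendsto_nhds]
  intro ε hε
  have hlog : ∀ᶠ T : ℝ in atTop, 1 ≤ Real.log T := Real.tendsto_log_atTop.eventually_ge_atTop 1
  filter_upwards [h (ε / 2) (by linarith), hlog, eventually_gt_atTop 1] with T h1 h2 h3
  have hT : 0 < T := by linarith
  have hL : 0 < Real.log T := by linarith
  have h1' : (1 : ℝ) ≤ Real.log T ^ κ := Real.one_le_rpow h2 hκ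
  have hJ : 0 ≤ ∫ a in (1 : ℝ)..(Real.log T ^ κ), |EE a T| :=
    intervalIntegral.integral_nonneg h1' fun a _ => abs_nonneg _
  have hnn : 0 ≤ Real.log T ^ ρ * ∫ a in (1 : ℝ)..(Real.log T ^ κ), |EE a T| :=
    mul_nonneg (Real.rpow_nonneg hL.le _) hJ
  rw [HCv_subst hL κ (fun u => |Real.log T - c0 - QQ T u|)] at h1
  have e : (∫ a in (1 : ℝ)..(Real.log T ^ κ), |Real.log T - c0 - QQ T (a * Real.log T)|) =
      ∫ a in (1 : ℝ)..(Real.log T ^ κ), |EE a T| := by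
    refine intervalIntegral.integral_congr fun a _ => ?_
    show |Real.log T - c0 - QQ T (a * Real.log T)| = |EE a T|
    rw [EE_eq hT, abs_sub_comm]
  rw [e, HCv_pow hL ρ, mul_comm (ε / 2)] at h1
  have h4 := le_of_mul_le_mul_left h1 (Real.rpow_pos_of_pos hL _)
  rw [Real.dist_eq, sub_zero, abs_of_nonneg hnn]
  linarith

end Pool.Agent.Lib.MP_2a816b_nt.TA
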