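import Pool.Agent.Lib.MP_2a816b_nt.TA.HRHu
import Pool.Agent.Lib.MP_2a816b_nt.TA.GAsm3
import Pool.Agent.Lib.MP_2a816b_nt.TA.GStW
import Pool.Agent.Lib.MP_2a816b_nt.TA.EXB

open Complex Set Filter Topology MeasureTheory

namespace Pool.Agent.Lib.MP_2a816b_nt.TA

open Pool.Agent.Lib.MP_00e05b_nt Pool.Agent.Lib.MP_00e05b_nt.Mont Pool.Agent.Lib.MP_2a816b_nt.PV

/-- the tail: a geometric series over unit intervals -/
private theorem HDefi_tail {f g : ℝ → ℝ} {a B A κ : ℝ} (hA : 0 ≤ A) (hB : 0 ≤ B) (hκ : 0 < κ)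
    (hf : ∀ u, 0 ≤ f u) (hfi : ∀ b c, IntervalIntegrable f volume b c)
    (hfu : ∀ x, a ≤ x → ∫ u in x..(x + 1), f u ≤ B) (hg : Continuous g)
    (hga : ∀ (n : ℕ) (u : ℝ), a + n ≤ u → g u ≤ A * Real.exp (-κ) ^ n)
    (hi : IntegrableOn (fun u => g u * f u) (Ioi a)) :
    ∫ u in Ioi a, g u * f u ≤ A * B * (1 + 1 / κ) := by
  have hgf : ∀ b c, IntervalIntegrable (fun u => g u * f u) volume b c := fun b c =>
    (hfi b c).continuousOn_mul hg.continuousOn
  have hr0 : 0 ≤ Real.exp (-κ) := (Real.exp_pos _).le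
  have hr1 : Real.exp (-κ) < 1 := by
    rw [Real.exp_lt_one_iff]
    linarith
  have hgeo : (1 - Real.exp (-κ))⁻¹ ≤ 1 + 1 / κ := by
    have h1 : 1 + κ ≤ Real.exp κ := by linarith [Real.add_one_le_exp κ]
    have h2 : Real.exp (-κ) ≤ 1 / (1 + κ) := by
      rw [Real.exp_neg, ← one_div]
      exact one_div_le_one_div_of_le (by linarith) h1
    have h3 : κ / (1 + κ) ≤ 1 - Real.exp (-κ) := by
      have : κ / (1 + κ) = 1 - 1 / (1 + κ) := by
        field_simp
        ring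
      rw [this]
      linarith
    calc (1 - Real.exp (-κ))⁻¹ ≤ (κ / (1 + κ))⁻¹ := inv_anti₀ (by positivity) h3
      _ = 1 + 1 / κ := by
        field_simp
        ring
  have key : ∀ N : ℕ, ∫ u in a..(a + (N : ℝ)), g u * f u ≤ A * B * (1 + 1 / κ) := by
    intro N
    have e := intervalIntegral.sum_integral_adjacent_intervals (a := fun n : ℕ => a + (n : ℝ)) (n := N)
      (f := fun u => g u * f u) (μ := volume) (fun k _ => hgf _ _)
    have e' : (∫ u in a..(a + (N : ℝ)), g u * f u) =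
        ∑ k ∈ Finset.range N, ∫ u in (a + (k : ℝ))..(a + ((k + 1 : ℕ) : ℝ)), g u * f u := by
      rw [e]
      simp
    rw [e']
    have hk : ∀ k ∈ Finset.range N, (∫ u in (a + (k : ℝ))..(a + ((k + 1 : ℕ) : ℝ)), g u * f u) ≤
        A * B * Real.exp (-κ) ^ k := by
      intro k _
      have hk1 : a + ((k + 1 : ℕ) : ℝ) = a + (k : ℝ) + 1 := by push_cast; ring
      rw [hk1]
      have h1 : (∫ u in (a + (k : ℝ))..(a + (k : ℝ) + 1), g u * f u) ≤
          ∫ u in (a + (k : ℝ))..(a + (k : ℝ) + 1), A * Real.exp (-κ) ^ k * f u := by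
        refine intervalIntegral.integral_mono_on (by linarith) (hgf _ _) ((hfi _ _).const_mul _) ?_
        intro u hu
        exact mul_le_mul_of_nonneg_right (hga k u hu.1) (hf u)
      rw [intervalIntegral.integral_const_mul] at h1
      have h2 := hfu (a + (k : ℝ)) (by linarith [(Nat.cast_nonneg k : (0 : ℝ) ≤ k)])
      have h3 : A * Real.exp (-κ) ^ k * (∫ u in (a + (k : ℝ))..(a + (k : ℝ) + 1), f u) ≤
          A * Real.exp (-κ) ^ k * B := mul_le_mul_of_nonneg_left h2 (by positivity)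
      calc _ ≤ _ := h1
        _ ≤ _ := h3
        _ = _ := by ring
    refine (Finset.sum_le_sum hk).trans ?_
    rw [← Finset.mul_sum]
    refine mul_le_mul_of_nonneg_left ?_ (mul_nonneg hA hB)
    refine le_trans ?_ hgeo
    rw [← tsum_geometric_of_lt_one hr0 hr1]
    exact (summable_geometric_of_lt_one hr0 hr1).sum_le_tsum _ (fun i _ => pow_nonneg hr0 i)
  have hlim : Tendsto (fun N : ℕ => ∫ u in a..(a + (N : ℝ)), g u * f u) atTop
      (𝓝 (∫ u in Ioi a, g u * f u)) :=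
    intervalIntegral_tendsto_integral_Ioi a hi
      (tendsto_atTop_add_const_left _ _ tendsto_natCast_atTop_atTop)
  exact le_of_tendsto hlim (Eventually.of_forall key)

private theorem HDefi_Kg_cont (M : ℝ) : Continuous (Kg M) := by
  unfold Kg
  fun_prop

private theorem HDefi_Kg_int {M : ℝ} (hM : 0 < M) : Integrable (Kg M) := by
  have h := integrable_exp_neg_mul_sq (b := 1 / (2 * M ^ 2)) (by positivity)
  refine h.congr (Eventually.of_forall fun x => ?_)
  show Real.exp (-(1 / (2 * M ^ 2)) * x ^ 2) = Real.exp (-(x ^ 2 / (2 * M ^ 2)))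
  congr 1
  ring

private theorem HDefi_rpow {a b : ℝ} (hab : a < b) {η : ℝ} (hη : 0 < η) : ∀ᶠ T : ℝ in atTop,
    Real.log T ^ a ≤ η * Real.log T ^ b := by
  have h1 : Tendsto (fun T : ℝ => Real.log T ^ (-(b - a))) atTop (𝓝 0) :=
    (tendsto_rpow_neg_atTop (by linarith : 0 < b - a)).comp Real.tendsto_log_atTop
  filter_upwards [h1.eventually_le_const hη, Real.tendsto_log_atTop.eventually_ge_atTop 1] with T h2 h3
  have h4 : 0 < Real.log T := by linarith
  have h5 : Real.log T ^ a = Real.log T ^ (-(b - a)) * Real.log T ^ b := by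
    rw [← Real.rpow_add h4]
    congr 1
    ring
  rw [h5]
  exact mul_le_mul_of_nonneg_right h2 (Real.rpow_nonneg h4.le _)

private theorem HDefi_abs (x y : ℝ) : |x - y| = (x - y) + 2 * max (y - x) 0 := by
  rcases le_total 0 (x - y) with h | h
  · rw [abs_of_nonneg h, max_eq_right (by linarith)]
    ring
  · rw [abs_of_nonpos h, max_eq_left (by linarith)]
    ring

/-- LEAF HDefi (adapt `GDefi.lean`, `defiG`). `M = L^(1+κ')`, `M1 = L^(1+κ)`, `q = L - c0`. On `[L, M1]`: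
`|q - QQ| = (q - QQ) + 2 max (QQ - q) 0`, and `∫_L^M1 Kg max (QQ - q) 0 ≤ ε L^(1-ρ)` by `h`; for `u ≥ M1`: `q - QQ ≥ -QQ`,
`∫_M1^∞ Kg M QQ ≤ e^(-L^(2(κ-κ'))/2) CU (1 + L)² (1 + M²/M1) ≤ 1` (`QQ_unit`, as in GDefi). Master inequality `masterG`:
`L⁴/(6M²) = L^(2-2κ')/6 = o(L^(1-ρ))` as `2κ' > 1 + ρ`; `C (1 + L²/M) = C (1 + L^(1-κ')) = o(L^(1-ρ))` as `κ' > ρ`, `ρ < 1`;
`Kg M u ≥ e^(-1/2)` on `[L, M]`. -/
theorem defiH {κ ρ κ' : ℝ} (hρ : 0 ≤ ρ) (hρ1 : ρ < 1) (h1 : 1 + ρ < 2 * κ') (h2 : κ' < κ) (h : PUu κ ρ) :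
    ∃ c : ℝ, 0 < c ∧ ∀ ε : ℝ, 0 < ε → ∀ᶠ T : ℝ in atTop,
      (∫ u in (Real.log T)..(Real.log T ^ (1 + κ')), |Real.log T - c0 - QQ T u|) +
        c * (Real.log T ^ (1 + κ') / T) * NC T (1 / Real.log T ^ (1 + κ')) ≤ ε * Real.log T ^ (1 - ρ) := by
  have hκ' : 1 / 2 < κ' := by linarith
  have hκ : 0 < κ := by linarith
  have hRH := rhuH hκ hρ h
  obtain ⟨C2, c, T0, hC2, hc, hm⟩ := masterG hRH
  obtain ⟨CU, hCU, hU⟩ := QQ_unit hRH
  refine ⟨c, hc, fun ε hε => ?_⟩
  set E2 : ℝ := Real.exp (1 / 2) with hE2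
  have hE20 : 0 < E2 := Real.exp_pos _
  set η : ℝ := ε / (E2 * (2 * C2 + 4)) with hηd
  have hη : 0 < η := by positivity
  set δ : ℝ := 2 * (κ - κ') with hδd
  have hδ : 0 < δ := by
    rw [hδd]
    linarith
  have hev1 : ∀ᶠ T : ℝ in atTop, (4 : ℝ) ≤ Real.log T :=
    Real.tendsto_log_atTop.eventually_ge_atTop 4
  have hevc : ∀ᶠ T : ℝ in atTop, c0 ≤ Real.log T :=
    Real.tendsto_log_atTop.eventually_ge_atTop c0
  have hev2 : ∀ᶠ T : ℝ in atTop, Real.log T ^ (1 + κ') ≤ T ^ (1 / 8 : ℝ) := by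
    have h3 := isLittleO_log_rpow_rpow_atTop (1 + κ') (by norm_num : (0 : ℝ) < 1 / 8)
    filter_upwards [h3.bound (zero_lt_one' ℝ), hev1, eventually_ge_atTop (1 : ℝ)] with T h4 h5 h6
    rw [one_mul, Real.norm_of_nonneg (Real.rpow_nonneg (by linarith) _),
      Real.norm_of_nonneg (Real.rpow_nonneg (by linarith) _)] at h4
    exact h4
  have hev3 : ∀ᶠ T : ℝ in atTop,
      (Real.log T ^ δ) ^ ((3 + κ') / δ) * Real.exp (-(1 / 2) * Real.log T ^ δ) ≤ 1 / (8 * CU + 1) := by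
    have h3 := tendsto_rpow_mul_exp_neg_mul_atTop_nhds_zero ((3 + κ') / δ) (1 / 2) (by norm_num)
    have h4 := h3.comp ((tendsto_rpow_atTop hδ).comp Real.tendsto_log_atTop)
    exact h4.eventually_le_const (by positivity)
  filter_upwards [hev1, hev2, hev3, hevc, eventually_ge_atTop T0, eventually_ge_atTop (2 : ℝ),
    HDefi_rpow (by linarith : 2 - 2 * κ' < 1 - ρ) hη, HDefi_rpow (by linarith : 1 - κ' < 1 - ρ) hη,
    HDefi_rpow (by linarith : (0 : ℝ) < 1 - ρ) hη, h η hη]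
    with T hL hT8 hE hLc hT0 hT2 ha1 ha2 ha3 ha4
  set L := Real.log T with hLdef
  set M := L ^ (1 + κ') with hMdef
  set M1 := L ^ (1 + κ) with hM1def
  have hL1 : 1 ≤ L := by linarith
  have hL0 : 0 < L := by linarith
  have hM0 : 0 < M := Real.rpow_pos_of_pos hL0 _
  have hM10 : 0 < M1 := Real.rpow_pos_of_pos hL0 _
  rw [Real.rpow_zero] at ha3
  have hM2' : 2 * L ≤ M := by
    have e1 : M = L * L ^ κ' := by
      rw [hMdef, Real.rpow_add hL0, Real.rpow_one]
    have e2 : (2 : ℝ) ≤ L ^ (1 / 2 : ℝ) := by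
      rw [← Real.sqrt_eq_rpow, Real.le_sqrt (by norm_num) hL0.le]
      linarith
    have e3 : L ^ (1 / 2 : ℝ) ≤ L ^ κ' := Real.rpow_le_rpow_of_exponent_le hL1 hκ'.le
    rw [e1]
    nlinarith
  have hLM : L ≤ M := by linarith
  have hMM1 : M ≤ M1 := Real.rpow_le_rpow_of_exponent_le hL1 (by linarith)
  have hLM1 : L ≤ M1 := by linarith
  have hM1' : 1 ≤ M := by linarith
  have hmas := hm T hT0 M hM2' hT8
  -- integrability
  have hQi : ∀ a b, IntervalIntegrable (QQ T) volume a b := fun a b => QQ_ii hT2 a b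
  have hqi : ∀ a b, IntervalIntegrable (fun u => L - c0 - QQ T u) volume a b := fun a b =>
    (_root_.intervalIntegrable_const).sub (hQi a b)
  have hKc : Continuous (Kg M) := HDefi_Kg_cont M
  have hi1 : IntervalIntegrable (fun u => Kg M u * (L - c0 - QQ T u)) volume L M1 :=
    (hqi _ _).continuousOn_mul hKc.continuousOn
  have hi2 : ∀ a b, IntervalIntegrable (fun u => Kg M u * |L - c0 - QQ T u|) volume a b := fun a b =>
    (hqi _ _).abs.continuousOn_mul hKc.continuousOn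
  have hi3 : IntervalIntegrable (fun u => max (QQ T u - (L - c0)) 0) volume L M1 := by
    have h3 := (((hqi L M1).abs.sub (hqi L M1)).const_mul (1 / 2))
    refine h3.congr (fun u _ => ?_)
    have h4 := HDefi_abs (L - c0) (QQ T u)
    show 1 / 2 * (|L - c0 - QQ T u| - (L - c0 - QQ T u)) = max (QQ T u - (L - c0)) 0
    rw [h4]
    ring
  have hKQ : ∀ a, IntegrableOn (fun u => Kg M u * QQ T u) (Ioi a) := fun a => KQ_int hRH hT2 hM1' a
  have hKcst : ∀ a, IntegrableOn (fun u => Kg M u * (L - c0)) (Ioi a) := fun a =>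
    ((HDefi_Kg_int hM0).mul_const _).integrableOn
  have hKf : ∀ a, IntegrableOn (fun u => Kg M u * (L - c0 - QQ T u)) (Ioi a) := by
    intro a
    refine ((hKcst a).sub (hKQ a)).congr_fun (fun u _ => ?_) measurableSet_Ioi
    show Kg M u * (L - c0) - Kg M u * QQ T u = Kg M u * (L - c0 - QQ T u)
    ring
  have hK0 : ∀ u, 0 ≤ Kg M u := fun u => (Real.exp_pos _).le
  have hK1 : ∀ u, Kg M u ≤ 1 := by
    intro u
    unfold Kg
    rw [Real.exp_le_one_iff, neg_nonpos]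
    positivity
  -- the tail
  have htail : ∫ u in Ioi M1, Kg M u * QQ T u ≤ 1 := by
    have hν : 0 < M1 / M ^ 2 := by positivity
    have h1 := HDefi_tail (f := QQ T) (g := Kg M) (a := M1) (B := CU * (1 + L) ^ 2)
      (A := Real.exp (-(M1 ^ 2 / (2 * M ^ 2)))) (κ := M1 / M ^ 2) (Real.exp_pos _).le (by positivity) hν
      (fun u => QQ_nonneg hT2 u) hQi (fun x hx => hU T x hT2 (by
        have : 2 * L ≤ M1 := by linarith
        linarith)) hKc (by
        intro n u hu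
        unfold Kg
        rw [← Real.exp_nat_mul, ← Real.exp_add]
        apply Real.exp_le_exp.2
        have hn : (0 : ℝ) ≤ n := Nat.cast_nonneg n
        have h2 : (M1 + n) ^ 2 ≤ u ^ 2 := by
          apply pow_le_pow_left₀ (by positivity) hu
        have h3 : M1 ^ 2 + 2 * (M1 * n) ≤ u ^ 2 := by nlinarith
        have h4 : (M1 ^ 2 + 2 * (M1 * n)) / (2 * M ^ 2) ≤ u ^ 2 / (2 * M ^ 2) :=
          div_le_div_of_nonneg_right h3 (by positivity)
        have h5 : (M1 ^ 2 + 2 * (M1 * n)) / (2 * M ^ 2) = M1 ^ 2 / (2 * M ^ 2) + n * (M1 / M ^ 2) := by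
          field_simp
        linarith) (hKQ M1)
    refine h1.trans ?_
    have hpow : M1 ^ 2 / (2 * M ^ 2) = 1 / 2 * L ^ δ := by
      have e1 : M1 ^ 2 = M ^ 2 * L ^ δ := by
        rw [hM1def, hMdef, ← Real.rpow_natCast, ← Real.rpow_natCast, ← Real.rpow_mul hL0.le,
          ← Real.rpow_mul hL0.le, ← Real.rpow_add hL0]
        congr 1
        rw [hδd]
        push_cast
        ring
      rw [e1]
      field_simp
    have hinv : 1 / (M1 / M ^ 2) ≤ M := by
      rw [one_div_div, div_le_iff₀ hM10, pow_two]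
      exact mul_le_mul_of_nonneg_left hMM1 hM0.le
    have hLk : (L ^ δ) ^ ((3 + κ') / δ) = L ^ 2 * M := by
      rw [← Real.rpow_mul hL0.le, show δ * ((3 + κ') / δ) = ((2 : ℕ) : ℝ) + (1 + κ') by
        field_simp
        norm_num
        ring, Real.rpow_add hL0, Real.rpow_natCast]
    rw [hpow]
    rw [hLk] at hE
    have hpoly : (1 + L) ^ 2 * (1 + 1 / (M1 / M ^ 2)) ≤ 8 * (L ^ 2 * M) := by
      have h6 : 1 + 1 / (M1 / M ^ 2) ≤ 2 * M := by linarith
      have h7 : (1 + L) ^ 2 ≤ 4 * L ^ 2 := by nlinarith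
      calc (1 + L) ^ 2 * (1 + 1 / (M1 / M ^ 2)) ≤ (4 * L ^ 2) * (2 * M) :=
            mul_le_mul h7 h6 (by positivity) (by positivity)
        _ = 8 * (L ^ 2 * M) := by ring
    have hEx : Real.exp (-(1 / 2 * L ^ δ)) = Real.exp (-(1 / 2) * L ^ δ) := by
      congr 1
      ring
    rw [hEx]
    calc Real.exp (-(1 / 2) * L ^ δ) * (CU * (1 + L) ^ 2) * (1 + 1 / (M1 / M ^ 2))
        = CU * Real.exp (-(1 / 2) * L ^ δ) * ((1 + L) ^ 2 * (1 + 1 / (M1 / M ^ 2))) := by ring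
      _ ≤ CU * Real.exp (-(1 / 2) * L ^ δ) * (8 * (L ^ 2 * M)) :=
          mul_le_mul_of_nonneg_left hpoly (by positivity)
      _ = 8 * CU * (L ^ 2 * M * Real.exp (-(1 / 2) * L ^ δ)) := by ring
      _ ≤ 8 * CU * (1 / (8 * CU + 1)) := mul_le_mul_of_nonneg_left hE (by positivity)
      _ ≤ 1 := by
          rw [mul_one_div, div_le_one (by positivity)]
          linarith
  -- splitting
  have hsplit := intervalIntegral.integral_Ioi_sub_Ioi (hKf L) hLM1
  have htf : -(∫ u in Ioi M1, Kg M u * (L - c0 - QQ T u)) ≤ 1 := by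
    refine le_trans ?_ htail
    rw [← integral_neg]
    refine setIntegral_mono_on (hKf M1).neg (hKQ M1) measurableSet_Ioi fun u _ => ?_
    have h5 : 0 ≤ Kg M u * (L - c0) := mul_nonneg (hK0 u) (by linarith)
    show -(Kg M u * (L - c0 - QQ T u)) ≤ Kg M u * QQ T u
    linarith
  have hpt : ∀ u ∈ Icc L M1, Kg M u * |L - c0 - QQ T u| ≤
      Kg M u * (L - c0 - QQ T u) + 2 * max (QQ T u - (L - c0)) 0 := by
    intro u hu
    have h7 := HDefi_abs (L - c0) (QQ T u)
    have hD0 : 0 ≤ max (QQ T u - (L - c0)) 0 := le_max_right _ _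
    have h9 : Kg M u * (2 * max (QQ T u - (L - c0)) 0) ≤ 1 * (2 * max (QQ T u - (L - c0)) 0) :=
      mul_le_mul_of_nonneg_right (hK1 u) (by linarith)
    rw [h7, mul_add]
    linarith
  have hint := intervalIntegral.integral_mono_on hLM1 (hi2 _ _) (hi1.add (hi3.const_mul 2)) hpt
  have hadd : (∫ u in L..M1, (Kg M u * (L - c0 - QQ T u) + 2 * max (QQ T u - (L - c0)) 0)) =
      (∫ u in L..M1, Kg M u * (L - c0 - QQ T u)) + 2 * ∫ u in L..M1, max (QQ T u - (L - c0)) 0 := by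
    rw [intervalIntegral.integral_add hi1 (hi3.const_mul _), intervalIntegral.integral_const_mul]
  have hquart : L ^ 4 / (6 * M ^ 2) = 1 / 6 * L ^ (2 - 2 * κ') := by
    have e1 : L ^ 4 = L ^ (2 - 2 * κ') * M ^ 2 := by
      rw [hMdef, ← Real.rpow_natCast (L ^ (1 + κ')), ← Real.rpow_mul hL0.le,
        ← Real.rpow_add hL0, ← Real.rpow_natCast]
      congr 1
      push_cast
      ring
    rw [e1]
    field_simp
  have hsq : L ^ 2 / M = L ^ (1 - κ') := by
    rw [div_eq_iff hM0.ne', hMdef, ← Real.rpow_add hL0, ← Real.rpow_two]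
    congr 1
    ring
  set P := L ^ (1 - ρ) with hP
  have hC2' : C2 * (1 + L ^ 2 / M) ≤ 2 * C2 * (η * P) := by
    rw [hsq]
    have h10 : C2 * (1 + L ^ (1 - κ')) ≤ C2 * (η * P + η * P) :=
      mul_le_mul_of_nonneg_left (by linarith) hC2
    linarith
  -- restriction to [L, M]
  have hLM' : (∫ u in L..M, Kg M u * |L - c0 - QQ T u|) ≤ ∫ u in L..M1, Kg M u * |L - c0 - QQ T u| := by
    rw [← intervalIntegral.integral_add_adjacent_intervals (hi2 L M) (hi2 M M1)]
    have : 0 ≤ ∫ u in M..M1, Kg M u * |L - c0 - QQ T u| :=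
      intervalIntegral.integral_nonneg hMM1 fun u _ => mul_nonneg (hK0 u) (abs_nonneg _)
    linarith
  have hlow : (∫ u in L..M, |L - c0 - QQ T u|) ≤
      E2 * ∫ u in L..M, Kg M u * |L - c0 - QQ T u| := by
    rw [← intervalIntegral.integral_const_mul]
    refine intervalIntegral.integral_mono_on hLM (hqi _ _).abs ((hi2 _ _).const_mul _) fun u hu => ?_
    have hu0 : 0 ≤ u := hL0.le.trans hu.1
    have h5 : Real.exp (-(1 / 2)) ≤ Kg M u := by
      unfold Kg
      apply Real.exp_le_exp.2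
      have h6 : u ^ 2 ≤ M ^ 2 := pow_le_pow_left₀ hu0 hu.2 2
      have h7 : u ^ 2 / (2 * M ^ 2) ≤ 1 / 2 := by
        rw [div_le_iff₀ (by positivity)]
        linarith
      linarith
    have h6 : 1 ≤ E2 * Kg M u := by
      have h7 : E2 * Real.exp (-(1 / 2)) = 1 := by
        rw [hE2, ← Real.exp_add]
        simp
      calc (1 : ℝ) = E2 * Real.exp (-(1 / 2)) := h7.symm
        _ ≤ E2 * Kg M u := mul_le_mul_of_nonneg_left h5 hE20.le
    have h7 := mul_le_mul_of_nonneg_right h6 (abs_nonneg (L - c0 - QQ T u))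
    rw [one_mul, mul_assoc] at h7
    exact h7
  have hE1 : (1 : ℝ) ≤ E2 := by
    rw [hE2, ← Real.exp_zero]
    exact Real.exp_le_exp.2 (by norm_num)
  have hN0 : 0 ≤ c * (M / T) * NC T (1 / M) :=
    mul_nonneg (by positivity) (NC_nonneg (by positivity))
  have hN1 : c * (M / T) * NC T (1 / M) ≤ E2 * (c * (M / T) * NC T (1 / M)) := by
    nlinarith
  have hsum : (∫ u in L..M, Kg M u * |L - c0 - QQ T u|) + c * (M / T) * NC T (1 / M) ≤
      (2 * C2 + 4) * (η * P) := by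
    have hA : (∫ u in L..M1, Kg M u * |L - c0 - QQ T u|) ≤
        (∫ u in L..M1, Kg M u * (L - c0 - QQ T u)) + 2 * ∫ u in L..M1, max (QQ T u - (L - c0)) 0 := by
      rw [← hadd]
      exact hint
    have hB : (∫ u in L..M1, Kg M u * (L - c0 - QQ T u)) ≤
        (∫ u in Ioi L, Kg M u * (L - c0 - QQ T u)) + 1 := by
      rw [← hsplit]
      linarith
    have hD : (∫ u in L..M, Kg M u * |L - c0 - QQ T u|) + c * (M / T) * NC T (1 / M) ≤
        L ^ 4 / (6 * M ^ 2) + C2 * (1 + L ^ 2 / M) + 1 + 2 * (η * P) := by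
      linarith
    rw [hquart] at hD
    have hηP : 0 < η * P := lt_of_lt_of_le zero_lt_one ha3
    have : (2 * C2 + 4) * (η * P) = 2 * C2 * (η * P) + 4 * (η * P) := by ring
    rw [this]
    linarith
  have hfin : E2 * ((2 * C2 + 4) * (η * P)) = ε * P := by
    rw [hηd]
    have : E2 * (2 * C2 + 4) ≠ 0 := by positivity
    field_simp
  calc (∫ u in L..M, |L - c0 - QQ T u|) + c * (M / T) * NC T (1 / M)
      ≤ E2 * (∫ u in L..M, Kg M u * |L - c0 - QQ T u|) +
          E2 * (c * (M / T) * NC T (1 / M)) := add_le_add hlow hN1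
    _ = E2 * ((∫ u in L..M, Kg M u * |L - c0 - QQ T u|) + c * (M / T) * NC T (1 / M)) := by ring
    _ ≤ E2 * ((2 * C2 + 4) * (η * P)) := mul_le_mul_of_nonneg_left hsum hE20.le
    _ = ε * P := hfin

end Pool.Agent.Lib.MP_2a816b_nt.TA
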