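import Pool.Agent.Lib.MP_2a816b_nt.TA.GDefs

open Complex Set Filter Topology MeasureTheory

namespace Pool.Agent.Lib.MP_2a816b_nt.TA

open Pool.Agent.Lib.MP_00e05b_nt Pool.Agent.Lib.MP_00e05b_nt.Mont Pool.Agent.Lib.MP_2a816b_nt.PV

/-- deviation of `V(X, H)/H` from the refined prediction `log T - γ - log 2π` at `X = T^a`, `H = T^(a-1)` -/
noncomputable def EE (a T : ℝ) : ℝ :=
  VV (T ^ a) (T ^ (a - 1)) / T ^ (a - 1) - (Real.log T - (Real.eulerMascheroniConstant + Real.log (2 * Real.pi)))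

/-- the upper half in `L¹` mean over the exponent, in the variable `u = a log T` -/
def PUu (κ ρ : ℝ) : Prop := ∀ ε : ℝ, 0 < ε → ∀ᶠ T : ℝ in atTop,
  ∫ u in (Real.log T)..(Real.log T ^ (1 + κ)), max (QQ T u - (Real.log T - c0)) 0 ≤ ε * Real.log T ^ (1 - ρ)

/-- crude pointwise bound in the range `log X ≤ (log (X/h))^(1 + κ)` -/
def CB (κ C : ℝ) : Prop := ∀ X h : ℝ, 1 ≤ h → h ≤ X → C ≤ Real.log (X / h) →
  Real.log X ≤ Real.log (X / h) ^ (1 + κ) → VV X h ≤ C * h * Real.log (X / h)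

end Pool.Agent.Lib.MP_2a816b_nt.TA
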