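import Pool.Agent.Lib.MP_2a816b_nt.TA.HDefs
import Pool.Agent.Lib.MP_2a816b_nt.TA.XV
import Pool.Agent.Lib.MP_2a816b_nt.TA.Edg
import Pool.Agent.Lib.MP_2a816b_nt.Integral

open Complex Set Filter Topology MeasureTheory

namespace Pool.Agent.Lib.MP_2a816b_nt.TA

open Pool.Agent.Lib.MP_00e05b_nt Pool.Agent.Lib.MP_00e05b_nt.Mont Pool.Agent.Lib.MP_2a816b_nt.PV

private lemma HDip_ylog {y L : ℝ} (hy : 0 < y) (hL : 0 ≤ L) :
    y * Real.log (1 / y) ≤ y * L + 2 * Real.exp (-(L / 2)) := by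
  rcases le_or_gt (Real.exp (-L)) y with h1 | h1
  · have h2 : Real.log (1 / y) ≤ L := by
      rw [one_div, Real.log_inv]
      have := Real.log_le_log (Real.exp_pos _) h1
      rw [Real.log_exp] at this
      linarith
    have h3 := Real.exp_pos (-(L / 2))
    nlinarith
  · have h2 : √y ≤ Real.exp (-(L / 2)) := by
      rw [Real.sqrt_le_left (Real.exp_pos _).le, ← Real.exp_nat_mul]
      refine h1.le.trans (le_of_eq ?_)
      congr 1
      push_cast
      ring
    have h3 : 0 < √y := Real.sqrt_pos.mpr hy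
    have h4 : √y * √y = y := Real.mul_self_sqrt hy.le
    have h5 : Real.log (1 / y) ≤ 2 * (1 / √y) := by
      have h6 : 1 / y = (1 / √y) ^ 2 := by
        rw [div_pow, one_pow, sq, h4]
      rw [h6, Real.log_pow]
      push_cast
      have := Real.log_le_self (by positivity : (0 : ℝ) ≤ 1 / √y)
      linarith
    have h7 : y * Real.log (1 / y) ≤ 2 * √y := by
      calc y * Real.log (1 / y) ≤ y * (2 * (1 / √y)) := by gcongr
        _ = √y * √y * (2 * (1 / √y)) := by rw [h4]
        _ = 2 * √y := by field_simp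
    have h8 : 0 ≤ y * L := by positivity
    linarith

/-- The edge windows. -/
private lemma HDip_edge {κ1 κ2 C C0 : ℝ} (hκ2 : 0 < κ2) (hκ1 : κ2 < κ1) (hC : 0 < C) (h : CB κ1 C) (hC0 : 0 ≤ C0)
    (hsm : ∀ X h : ℝ, 2 ≤ X → 0 < h → h ≤ 1 → VV X h ≤ C0 * h * Real.log X)
    {X H s L : ℝ} (hL : L = Real.log (X / H)) (hH : 1 ≤ H) (hHX : H ≤ X) (hL4 : 4 ≤ L) (hCL : C ≤ L)
    (hcond : Real.log X ≤ L ^ (1 + κ2))
    (k1 : Real.log 2 + L ^ (1 + κ2) ≤ L ^ (1 + κ1)) (k3 : 2 * L ^ (1 + κ2) ≤ Real.exp (L / 2))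
    (hs0 : 0 < s) (hs1 : s ≤ 1) :
    VV (2 * X) (H * (1 - Real.exp (-s)) / 2) ≤
      (2 * C + 2 * C0) * (H * (s * L + Real.exp (-(L / 2)))) := by
  have hH0 : 0 < H := by linarith
  have hX0 : 0 < X := by linarith
  have hes : 0 < Real.exp (-s) := Real.exp_pos _
  have hes1 : Real.exp (-s) < 1 := by rw [← Real.exp_zero]; exact Real.exp_lt_exp.mpr (by linarith)
  obtain ⟨y, hy⟩ : ∃ y : ℝ, y = (1 - Real.exp (-s)) / 2 := ⟨_, rfl⟩
  have hy0 : 0 < y := by rw [hy]; linarith
  have hys : y ≤ s / 2 := by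
    have := Real.add_one_le_exp (-s)
    rw [hy]; linarith
  have hy1 : y ≤ 1 / 2 := by rw [hy]; linarith
  have hh : H * (1 - Real.exp (-s)) / 2 = H * y := by rw [hy]; ring
  rw [hh]
  have hlog2 : 0 < Real.log 2 := Real.log_pos (by norm_num)
  have hlog21 : Real.log 2 ≤ 1 := by have := Real.log_two_lt_d9; linarith
  have hE0 : 0 < Real.exp (-(L / 2)) := Real.exp_pos _
  have hl2X : Real.log (2 * X) = Real.log 2 + Real.log X := Real.log_mul (by norm_num) hX0.ne'
  have hsL : 0 < s * L := by positivity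
  rcases le_or_gt 1 (H * y) with h1 | h1
  · have hfr : Real.log (2 * X / (H * y)) = Real.log 2 + L + Real.log (1 / y) := by
      have e : 2 * X / (H * y) = 2 * (X / H) * (1 / y) := by field_simp
      rw [e, Real.log_mul (by positivity) (by positivity), Real.log_mul (by norm_num) (by positivity), ← hL]
    have hly : 0 ≤ Real.log (1 / y) := by
      apply Real.log_nonneg
      rw [le_div_iff₀ hy0]
      linarith
    have hc : Real.log (2 * X) ≤ Real.log (2 * X / (H * y)) ^ (1 + κ1) := by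
      calc Real.log (2 * X) ≤ Real.log 2 + L ^ (1 + κ2) := by rw [hl2X]; linarith
        _ ≤ L ^ (1 + κ1) := k1
        _ ≤ Real.log (2 * X / (H * y)) ^ (1 + κ1) :=
          Real.rpow_le_rpow (by linarith) (by rw [hfr]; linarith) (by linarith)
    have h2 := h (2 * X) (H * y) h1 (by nlinarith) (by rw [hfr]; linarith) hc
    rw [hfr] at h2
    have h3 := HDip_ylog hy0 (by linarith : (0 : ℝ) ≤ L)
    have h4 : C * (H * y) * (Real.log 2 + L + Real.log (1 / y)) ≤
        C * (H * (y * (1 + 2 * L) + 2 * Real.exp (-(L / 2)))) := by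
      have h5 : y * Real.log 2 ≤ y * 1 := by gcongr
      have h6 : y * (Real.log 2 + L + Real.log (1 / y)) ≤
          y * (1 + 2 * L) + 2 * Real.exp (-(L / 2)) := by nlinarith
      calc C * (H * y) * (Real.log 2 + L + Real.log (1 / y))
          = C * (H * (y * (Real.log 2 + L + Real.log (1 / y)))) := by ring
        _ ≤ _ := by gcongr
    refine (h2.trans h4).trans ?_
    have h7 : y * (1 + 2 * L) ≤ 2 * (s * L) := by
      calc y * (1 + 2 * L) ≤ s / 2 * (1 + 2 * L) := by gcongr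
        _ ≤ s / 2 * (L + 2 * L) := by
          gcongr
          linarith
        _ = 3 / 2 * (s * L) := by ring
        _ ≤ 2 * (s * L) := by linarith
    calc C * (H * (y * (1 + 2 * L) + 2 * Real.exp (-(L / 2))))
        ≤ C * (H * (2 * (s * L) + 2 * Real.exp (-(L / 2)))) := by gcongr
      _ = 2 * C * (H * (s * L + Real.exp (-(L / 2)))) := by ring
      _ ≤ (2 * C + 2 * C0) * (H * (s * L + Real.exp (-(L / 2)))) :=
          mul_le_mul_of_nonneg_right (by linarith) (by positivity)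
  · have h2 := hsm (2 * X) (H * y) (by linarith) (by positivity) h1.le
    have hlX0 : 0 ≤ Real.log (2 * X) := Real.log_nonneg (by linarith)
    have hXL : Real.log X = L + Real.log H := by
      rw [hL, Real.log_div hX0.ne' hH0.ne']; ring
    rcases le_or_gt (Real.log H) L with h3 | h3
    · have h4 : Real.log (2 * X) ≤ 3 * L := by rw [hl2X, hXL]; linarith
      calc VV (2 * X) (H * y) ≤ C0 * (H * y) * Real.log (2 * X) := h2
        _ ≤ C0 * (H * (s / 2)) * (3 * L) := by gcongr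
        _ = (3 / 2 * C0) * (H * (s * L)) := by ring
        _ ≤ (2 * C + 2 * C0) * (H * (s * L + Real.exp (-(L / 2)))) := by
          gcongr
          · linarith
          · linarith
    · have h4 : Real.exp L ≤ H := by
        rw [← Real.exp_log hH0]
        exact Real.exp_le_exp.mpr h3.le
      have h5 : 1 ≤ L ^ (1 + κ2) := Real.one_le_rpow (by linarith) (by linarith)
      have h6 : Real.log (2 * X) ≤ 2 * L ^ (1 + κ2) := by
        rw [hl2X]
        linarith
      have h7 : Real.exp (L / 2) = Real.exp L * Real.exp (-(L / 2)) := by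
        rw [← Real.exp_add]; congr 1; ring
      calc VV (2 * X) (H * y) ≤ C0 * (H * y) * Real.log (2 * X) := h2
        _ ≤ C0 * 1 * Real.exp (L / 2) := by
          gcongr
          exact h6.trans k3
        _ = C0 * (Real.exp L * Real.exp (-(L / 2))) := by rw [h7, mul_one]
        _ ≤ C0 * (H * Real.exp (-(L / 2))) := by gcongr
        _ ≤ (2 * C + 2 * C0) * (H * (s * L + Real.exp (-(L / 2)))) := by
          gcongr
          · linarith
          · linarith

/-- The algebra. -/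
private lemma HDip_alg {η s w : ℝ} (hη0 : 0 ≤ η) (hη1 : η ≤ 1) (hs0 : 0 ≤ s) (hs1 : s ≤ η / 32)
    (hw : w ≤ (η / 64) ^ 2) :
    Real.exp (2 * s) * ((√(1 - η) + 2 * √w) ^ 2 + η / 8) ≤ 1 - η / 2 := by
  have h2 : √w ≤ η / 64 := by
    rw [Real.sqrt_le_left (by positivity)]
    exact hw
  have h3 : √(1 - η) ≤ 1 := Real.sqrt_le_one.mpr (by linarith)
  have h30 : 0 ≤ √(1 - η) := Real.sqrt_nonneg _
  have h20 : 0 ≤ √w := Real.sqrt_nonneg _
  have h4 : √(1 - η) ^ 2 = 1 - η := Real.sq_sqrt (by linarith)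
  have h5 : (√(1 - η) + 2 * √w) ^ 2 ≤ 1 - η + η / 8 := by
    have h6 : √(1 - η) * √w ≤ 1 * (η / 64) := mul_le_mul h3 h2 h20 zero_le_one
    have h7 : √w ^ 2 ≤ (η / 64) ^ 2 := by gcongr
    have h8 : (η / 64) ^ 2 ≤ η / 64 := by nlinarith
    nlinarith
  have h9 : Real.exp (2 * s) ≤ 1 + 4 * s := by
    have h10 : 2 * s ≤ 1 := by linarith
    have h11 := Real.abs_exp_sub_one_sub_id_le (x := 2 * s) (by rw [abs_of_nonneg (by linarith)]; exact h10)
    have h12 := (abs_le.mp h11).2
    nlinarith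
  calc Real.exp (2 * s) * ((√(1 - η) + 2 * √w) ^ 2 + η / 8)
      ≤ (1 + 4 * s) * ((1 - η + η / 8) + η / 8) := by gcongr
    _ ≤ (1 + 4 * (η / 32)) * ((1 - η + η / 8) + η / 8) := by gcongr
    _ ≤ 1 - η / 2 := by nlinarith

private lemma HDip_ev1 {a b : ℝ} (hab : a < b) (c : ℝ) : ∀ᶠ L : ℝ in atTop, c * L ^ a ≤ L ^ b := by
  have h1 := (tendsto_rpow_atTop (sub_pos.mpr hab)).eventually (eventually_ge_atTop c)
  filter_upwards [h1, eventually_gt_atTop 0] with L h2 hL
  calc c * L ^ a ≤ L ^ (b - a) * L ^ a := by gcongr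
    _ = L ^ b := by rw [← Real.rpow_add hL]; congr 1; ring

private lemma HDip_ev2 (c : ℝ) : ∀ᶠ L : ℝ in atTop, c * L ^ 2 ≤ Real.exp (L / 2) := by
  have h1 := (isLittleO_pow_exp_pos_mul_atTop (k := 2) (b := 1 / 2) (by norm_num)).bound
    (show 0 < 1 / (|c| + 1) by positivity)
  filter_upwards [h1, eventually_gt_atTop 0] with L h2 hL
  rw [Real.norm_eq_abs, Real.norm_eq_abs, abs_of_pos (by positivity), abs_of_pos (Real.exp_pos _)] at h2
  have h3 : Real.exp (1 / 2 * L) = Real.exp (L / 2) := by congr 1; ring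
  rw [h3] at h2
  calc c * L ^ 2 ≤ (|c| + 1) * L ^ 2 := by
        gcongr
        have := le_abs_self c
        linarith
    _ ≤ (|c| + 1) * (1 / (|c| + 1) * Real.exp (L / 2)) := by gcongr
    _ = Real.exp (L / 2) := by field_simp

private lemma HDip_ev3 (a : ℝ) : ∀ᶠ L : ℝ in atTop, 2 * L ^ a ≤ Real.exp (L / 2) := by
  have h1 := (isLittleO_rpow_exp_pos_mul_atTop a (b := 1 / 2) (by norm_num)).bound
    (show (0 : ℝ) < 1 / 2 by norm_num)
  filter_upwards [h1, eventually_gt_atTop 0] with L h2 hL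
  rw [Real.norm_eq_abs, Real.norm_eq_abs, abs_of_pos (by positivity), abs_of_pos (Real.exp_pos _)] at h2
  have h3 : Real.exp (1 / 2 * L) = Real.exp (L / 2) := by congr 1; ring
  rw [h3] at h2
  linarith

/-- LEAF HDip: persistence of dips (adapt `GDip.lean`, `dipG`: replace `GDip_ug` by `CB κ1 C`, the range exponents
`3/2 + δ`, `3/2 + δ/2` by `1 + κ1`, `1 + κ2`; the case `H y < 1`, `log H > L` of `GDip_edge` uses `L^(1+κ2) ≤ e^(L/2)/4`). -/
theorem dipH {κ1 κ2 C : ℝ} (h2 : 0 < κ2) (h1 : κ2 < κ1) (hC : 0 < C) (h : CB κ1 C) :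
    ∃ c K : ℝ, 0 < c ∧ c ≤ 1 / 2 ∧ ∀ X H η s : ℝ, 1 ≤ H → H ≤ X → K ≤ Real.log (X / H) →
      Real.log X ≤ Real.log (X / H) ^ (1 + κ2) → 1 / Real.log (X / H) ≤ η → η ≤ 1 →
      VV X H ≤ (1 - η) * (H * Real.log (X / H)) → 0 ≤ s → s ≤ c * η ^ 2 →
      VV (X * Real.exp (-s)) (H * Real.exp (-s)) ≤ (1 - η / 2) * (H * Real.exp (-s) * Real.log (X / H)) := by
  obtain ⟨C0, hC0, hsm⟩ := small_h
  obtain ⟨C1, hC1⟩ : ∃ C1 : ℝ, C1 = 2 * C + 2 * C0 := ⟨_, rfl⟩
  have hC10 : 0 < C1 := by rw [hC1]; positivity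
  have a1 : ∀ᶠ L : ℝ in atTop, 2 * L ^ (1 + κ2) ≤ L ^ (1 + κ1) := HDip_ev1 (by linarith) 2
  have a2 : ∀ᶠ L : ℝ in atTop, (2 : ℝ) ^ (1 + κ1) * L ^ (1 + κ2) ≤ L ^ (1 + κ1) :=
    HDip_ev1 (by linarith) _
  have a3 := HDip_ev3 (1 + κ2)
  have a4 := HDip_ev2 (8 * C)
  have a5 := HDip_ev2 (16 * C0)
  have a6 := HDip_ev2 (16384 * C1)
  obtain ⟨K, hK⟩ := eventually_atTop.mp (a1.and (a2.and (a3.and (a4.and (a5.and (a6.and
    ((eventually_ge_atTop 4).and (eventually_ge_atTop (2 * C)))))))))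
  refine ⟨1 / (16384 * (C1 + 1)), K, by positivity, ?_,
    fun X H η s hH hHX hKL hcond hη hη1 hV hs0 hs => ?_⟩
  · apply div_le_div_of_nonneg_left (by norm_num) (by norm_num)
    linarith
  obtain ⟨L, hL⟩ : ∃ L : ℝ, L = Real.log (X / H) := ⟨_, rfl⟩
  rw [← hL] at hKL hcond hη hV ⊢
  obtain ⟨b1, b2, b3, b4, b5, b6, hL4, hCL⟩ := hK L hKL
  have hX0 : 0 < X := by linarith
  have hH0 : 0 < H := by linarith
  have hL0 : 0 < L := by linarith
  have hη0 : 0 < η := lt_of_lt_of_le (by positivity) hη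
  have hηL : 1 ≤ η * L := by
    rw [div_le_iff₀ hL0] at hη; exact hη
  have hXL : Real.log X = L + Real.log H := by
    rw [hL, Real.log_div hX0.ne' hH0.ne']; ring
  have hXH : X = H * Real.exp L := by
    rw [hL, Real.exp_log (by positivity)]; field_simp
  have hlH0 : 0 ≤ Real.log H := Real.log_nonneg hH
  have hlog2 : 0 < Real.log 2 := Real.log_pos (by norm_num)
  have hlog21 : Real.log 2 ≤ 1 := by have := Real.log_two_lt_d9; linarith
  have hLr : 1 ≤ L ^ (1 + κ2) := Real.one_le_rpow (by linarith) (by linarith)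
  have k1 : Real.log 2 + L ^ (1 + κ2) ≤ L ^ (1 + κ1) := by linarith
  have k2 : L ^ (1 + κ2) ≤ (L / 2) ^ (1 + κ1) := by
    rw [Real.div_rpow hL0.le (by norm_num), le_div_iff₀ (by positivity), mul_comm]
    exact b2
  have hLL : L ≤ L ^ 2 := by
    calc L = L * 1 := (mul_one L).symm
      _ ≤ L * L := mul_le_mul_of_nonneg_left (by linarith) hL0.le
      _ = L ^ 2 := (sq L).symm
  have k4 : C * L ≤ Real.exp (L / 2) / 8 := by
    have e1 : C * L ≤ C * L ^ 2 := mul_le_mul_of_nonneg_left hLL hC.le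
    linarith
  have k5 : 2 * C0 * L ≤ Real.exp (L / 2) / 8 := by
    have e1 : C0 * L ≤ C0 * L ^ 2 := mul_le_mul_of_nonneg_left hLL hC0
    linarith
  have hs2 : s ≤ η ^ 2 / 16384 := by
    refine hs.trans ?_
    rw [div_mul_eq_mul_div, one_mul]
    apply div_le_div_of_nonneg_left (by positivity) (by norm_num)
    linarith
  have hηη : η ^ 2 ≤ η := by
    calc η ^ 2 = η * η := sq η
      _ ≤ η * 1 := mul_le_mul_of_nonneg_left hη1 hη0.le
      _ = η := mul_one η
  have hs32 : s ≤ η / 32 := by linarith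
  have hs1 : s ≤ 1 / 32 := by linarith
  rcases hs0.eq_or_lt with hs00 | hs00
  · rw [← hs00]
    simp only [neg_zero, Real.exp_zero, mul_one]
    refine hV.trans ?_
    have : 0 ≤ H * L := by positivity
    exact mul_le_mul_of_nonneg_right (by linarith) this
  have hes0 : 0 < Real.exp (-s) := Real.exp_pos _
  have hes1 : Real.exp (-s) ≤ 1 := Real.exp_le_one_iff.mpr (by linarith)
  have hHXe : H ≤ X * Real.exp (-s) := by
    rw [hXH, mul_assoc, ← Real.exp_add]
    have : 1 ≤ Real.exp (L + -s) := Real.one_le_exp (by linarith)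
    nlinarith
  obtain ⟨H', hH'⟩ : ∃ H' : ℝ, H' = H * Real.exp (-s) := ⟨_, rfl⟩
  have hH'0 : 0 < H' := by rw [hH']; positivity
  have hH'H : H' ≤ H := by rw [hH']; exact mul_le_of_le_one_right hH0.le hes1
  have hXeX : X * Real.exp (-s) ≤ X := mul_le_of_le_one_right hX0.le hes1
  -- the edge estimate
  have hedge := edges hH0 hHX hs00 (by linarith : s ≤ 1)
  rw [← hH'] at hedge
  have hV2 := HDip_edge h2 h1 hC h hC0 hsm hL hH hHX hL4 (by linarith) hcond k1 b3 hs00 (by linarith)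
  rw [← hC1] at hV2
  obtain ⟨w, hw⟩ : ∃ w : ℝ, w = 2 * C1 * (s + Real.exp (-(L / 2)) / L) := ⟨_, rfl⟩
  have hw0 : 0 ≤ w := by rw [hw]; positivity
  have hwη : w ≤ (η / 64) ^ 2 := by
    have h1 : 2 * C1 * s ≤ η ^ 2 / 8192 := by
      have h2 : C1 * s ≤ (C1 + 1) * (1 / (16384 * (C1 + 1)) * η ^ 2) := by gcongr; linarith
      have h3 : (C1 + 1) * (1 / (16384 * (C1 + 1)) * η ^ 2) = η ^ 2 / 16384 := by field_simp
      linarith
    have h2 : 2 * C1 * (Real.exp (-(L / 2)) / L) ≤ η ^ 2 / 8192 := by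
      have h3 : 1 ≤ (η * L) ^ 2 := one_le_pow₀ hηL
      have h4 : Real.exp (-(L / 2)) * Real.exp (L / 2) = 1 := by
        rw [← Real.exp_add]; simp
      have h5 : Real.exp (-(L / 2)) * (16384 * C1 * L ^ 2) ≤ 1 := by
        calc Real.exp (-(L / 2)) * (16384 * C1 * L ^ 2) ≤ Real.exp (-(L / 2)) * Real.exp (L / 2) := by
              gcongr
          _ = 1 := h4
      have h6 : 2 * C1 * (Real.exp (-(L / 2)) / L) * 8192 * L ^ 2 =
          Real.exp (-(L / 2)) * (16384 * C1 * L) := by field_simp; ring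
      have h7 : Real.exp (-(L / 2)) * (16384 * C1 * L) ≤ 1 := by
        refine le_trans ?_ h5
        gcongr
      have h8 : 2 * C1 * (Real.exp (-(L / 2)) / L) * 8192 * L ^ 2 ≤ η ^ 2 * L ^ 2 := by
        rw [h6]
        refine h7.trans ?_
        rw [← mul_pow]; exact h3
      have h9 : 2 * C1 * (Real.exp (-(L / 2)) / L) * 8192 ≤ η ^ 2 :=
        le_of_mul_le_mul_right h8 (by positivity)
      linarith
    rw [hw]
    have e : (η / 64) ^ 2 = η ^ 2 / 8192 + η ^ 2 / 8192 := by ring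
    rw [e]
    linarith
  have hV3 : 2 * VV (2 * X) (H * (1 - Real.exp (-s)) / 2) ≤ H * L * w := by
    have e : H * L * w = 2 * (C1 * (H * (s * L + Real.exp (-(L / 2))))) := by
      rw [hw]; field_simp
    rw [e]
    linarith
  -- first piece
  have hI1 : ∫ x in H..X, (psiWindow x H' - H') ^ 2 ≤ X * H * L * (√(1 - η) + 2 * √w) ^ 2 := by
    have hInn : 0 ≤ ∫ x in H..X, (psiWindow x H' - H') ^ 2 :=
      intervalIntegral.integral_nonneg hHX fun x _ => sq_nonneg _
    have h1 : √(X * VV X H) ≤ √(X * H * L) * √(1 - η) := by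
      rw [← Real.sqrt_mul (by positivity)]
      apply Real.sqrt_le_sqrt
      calc X * VV X H ≤ X * ((1 - η) * (H * L)) := by gcongr
        _ = X * H * L * (1 - η) := by ring
    have h2 : √(2 * X * VV (2 * X) (H * (1 - Real.exp (-s)) / 2)) ≤ √(X * H * L) * √w := by
      rw [← Real.sqrt_mul (by positivity)]
      apply Real.sqrt_le_sqrt
      calc 2 * X * VV (2 * X) (H * (1 - Real.exp (-s)) / 2)
          = X * (2 * VV (2 * X) (H * (1 - Real.exp (-s)) / 2)) := by ring
        _ ≤ X * (H * L * w) := by gcongr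
        _ = X * H * L * w := by ring
    have h3 : √(∫ x in H..X, (psiWindow x H' - H') ^ 2) ≤ √(X * H * L) * (√(1 - η) + 2 * √w) := by
      refine hedge.trans ?_
      have e : √(X * H * L) * (√(1 - η) + 2 * √w) =
          √(X * H * L) * √(1 - η) + 2 * (√(X * H * L) * √w) := by ring
      rw [e]
      linarith
    have h4 : √(∫ x in H..X, (psiWindow x H' - H') ^ 2) ^ 2 ≤ (√(X * H * L) * (√(1 - η) + 2 * √w)) ^ 2 := by
      gcongr
    rw [Real.sq_sqrt hInn, mul_pow, Real.sq_sqrt (by positivity)] at h4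
    exact h4
  -- second piece
  have hI2 : ∫ x in H'..H, (psiWindow x H' - H') ^ 2 ≤ X * H * L * (η / 8) := by
    obtain ⟨X', hX'⟩ : ∃ X' : ℝ, X' = H * Real.exp (L / 2) := ⟨_, rfl⟩
    have hX'0 : 0 < X' := by rw [hX']; positivity
    have hE1 : 1 ≤ Real.exp (L / 2) := Real.one_le_exp (by linarith)
    have h1 : H ≤ X' := by
      rw [hX']
      nlinarith
    have hX'X : X' ≤ X := by
      rw [hX', hXH]
      gcongr
      linarith
    have h2 : ∫ x in H'..H, (psiWindow x H' - H') ^ 2 ≤ ∫ x in H'..X', (psiWindow x H' - H') ^ 2 := by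
      apply intervalIntegral.integral_mono_interval le_rfl hH'H h1 (Eventually.of_forall fun x => sq_nonneg _)
      exact MP_2a816b_nt.sq_integrable X' H' H' X' hH'0.le hH'0.le (hH'H.trans h1) le_rfl
    have h3 : ∫ x in H'..X', (psiWindow x H' - H') ^ 2 = X' * VV X' H' := by
      unfold VV; field_simp
    have hlX' : Real.log X' ≤ Real.log X := Real.log_le_log hX'0 hX'X
    have h5 : VV X' H' ≤ H * (Real.exp (L / 2) / 8) := by
      rcases le_or_gt 1 H' with h6 | h6
      · have hfr : Real.log (X' / H') = L / 2 + s := by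
          have e : X' / H' = Real.exp (L / 2 + s) := by
            rw [hX', hH', Real.exp_add, Real.exp_neg]
            field_simp
          rw [e, Real.log_exp]
        have hc : Real.log X' ≤ Real.log (X' / H') ^ (1 + κ1) := by
          calc Real.log X' ≤ Real.log X := hlX'
            _ ≤ L ^ (1 + κ2) := hcond
            _ ≤ (L / 2) ^ (1 + κ1) := k2
            _ ≤ Real.log (X' / H') ^ (1 + κ1) :=
              Real.rpow_le_rpow (by positivity) (by rw [hfr]; linarith) (by linarith)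
        have h7 := h X' H' h6 (hH'H.trans h1) (by rw [hfr]; linarith) hc
        rw [hfr] at h7
        calc VV X' H' ≤ C * H' * (L / 2 + s) := h7
          _ ≤ C * H * L := by
            gcongr
            linarith
          _ = H * (C * L) := by ring
          _ ≤ H * (Real.exp (L / 2) / 8) := by gcongr
      · have h2X' : 2 ≤ X' := by
          have h8 : L / 2 + 1 ≤ Real.exp (L / 2) := Real.add_one_le_exp _
          rw [hX']
          nlinarith
        have h7 := hsm X' H' h2X' hH'0 h6.le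
        have hlX'0 : 0 ≤ Real.log X' := Real.log_nonneg (by linarith)
        have hlH1 : Real.log H ≤ L := by
          have h8 : Real.log H' < 0 := Real.log_neg hH'0 h6
          rw [hH', Real.log_mul hH0.ne' hes0.ne', Real.log_exp] at h8
          linarith
        calc VV X' H' ≤ C0 * H' * Real.log X' := h7
          _ ≤ C0 * H * (2 * L) := by
            gcongr
            linarith
          _ = H * (2 * C0 * L) := by ring
          _ ≤ H * (Real.exp (L / 2) / 8) := by gcongr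
    calc ∫ x in H'..H, (psiWindow x H' - H') ^ 2 ≤ X' * VV X' H' := h2.trans h3.le
      _ ≤ X' * (H * (Real.exp (L / 2) / 8)) := by gcongr
      _ = (H * (Real.exp (L / 2) * Real.exp (L / 2))) * H * (1 / 8) := by rw [hX']; ring
      _ = X * H * (1 / 8) := by
        rw [← Real.exp_add, add_halves, ← hXH]
      _ ≤ X * H * (η * L / 8) := by gcongr
      _ = X * H * L * (η / 8) := by ring
  -- conclusion
  have hI3 : ∫ x in H..(X * Real.exp (-s)), (psiWindow x H' - H') ^ 2 ≤ ∫ x in H..X, (psiWindow x H' - H') ^ 2 := by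
    apply intervalIntegral.integral_mono_interval le_rfl hHXe hXeX (Eventually.of_forall fun x => sq_nonneg _)
    exact MP_2a816b_nt.sq_integrable X H' H X hH'0.le hH0.le hHX le_rfl
  have hsplit : ∫ x in H'..(X * Real.exp (-s)), (psiWindow x H' - H') ^ 2 =
      (∫ x in H'..H, (psiWindow x H' - H') ^ 2) + ∫ x in H..(X * Real.exp (-s)), (psiWindow x H' - H') ^ 2 := by
    rw [intervalIntegral.integral_add_adjacent_intervals]
    · exact MP_2a816b_nt.sq_integrable H H' H' H hH'0.le hH'0.le hH'H le_rfl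
    · exact MP_2a816b_nt.sq_integrable (X * Real.exp (-s)) H' H _ hH'0.le hH0.le hHXe le_rfl
  have htot : ∫ x in H'..(X * Real.exp (-s)), (psiWindow x H' - H') ^ 2 ≤
      X * H * L * ((√(1 - η) + 2 * √w) ^ 2 + η / 8) := by
    rw [hsplit, mul_add]
    linarith
  have halg := HDip_alg hη0.le hη1 hs0 hs32 hwη
  have hexp : Real.exp (2 * s) = 1 / (Real.exp (-s) * Real.exp (-s)) := by
    rw [← Real.exp_add, one_div, ← Real.exp_neg]; congr 1; ring
  rw [← hH']
  unfold VV
  calc 1 / (X * Real.exp (-s)) * ∫ x in H'..(X * Real.exp (-s)), (psiWindow x H' - H') ^ 2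
      ≤ 1 / (X * Real.exp (-s)) * (X * H * L * ((√(1 - η) + 2 * √w) ^ 2 + η / 8)) := by gcongr
    _ = H' * L * (Real.exp (2 * s) * ((√(1 - η) + 2 * √w) ^ 2 + η / 8)) := by
        rw [hexp, hH']; field_simp
    _ ≤ H' * L * (1 - η / 2) := by gcongr
    _ = (1 - η / 2) * (H' * L) := by ring

end Pool.Agent.Lib.MP_2a816b_nt.TA
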