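import Pool.Agent.Lib.MP_2a816b_nt.TA.HInt
import Pool.Agent.Lib.MP_2a816b_nt.TA.StW
import Pool.Agent.Lib.MP_2a816b_nt.LM.RFalse

open Complex Set Filter Topology MeasureTheory

namespace Pool.Agent.Lib.MP_2a816b_nt.TA

open Pool.Agent.Lib.MP_00e05b_nt Pool.Agent.Lib.MP_00e05b_nt.Mont Pool.Agent.Lib.MP_2a816b_nt.PV

private theorem HFal_pos (M x : ℝ) : 0 < Kg M x := Real.exp_pos _

private theorem HFal_eq (M x : ℝ) : Kg M x = Real.exp (-(1 / (2 * M ^ 2)) * x ^ 2) := by
  rw [Kg]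
  congr 1
  ring

private theorem HFal_cont (M : ℝ) : Continuous (Kg M) := by
  unfold Kg
  fun_prop

private theorem HFal_int {M : ℝ} (hM : 1 ≤ M) : Integrable (Kg M) := by
  have h : (0 : ℝ) < 1 / (2 * M ^ 2) := by positivity
  refine (integrable_exp_neg_mul_sq h).congr (Filter.Eventually.of_forall fun x => ?_)
  exact (HFal_eq M x).symm

private theorem HFal_c0 : 0 < c0 := by
  unfold c0
  have h1 := Real.one_half_lt_eulerMascheroniConstant
  have h2 : 0 ≤ Real.log (2 * Real.pi) := Real.log_nonneg (by linarith [Real.pi_gt_three])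
  linarith

/-- the total mass on the half line -/
private theorem HFal_mass {M a : ℝ} (hM : 1 ≤ M) (ha : 0 ≤ a) : ∫ u in Ioi a, Kg M u ≤ 2 * M := by
  have h0 : ∫ u in Ioi a, Kg M u ≤ ∫ u in Ioi (0 : ℝ), Kg M u :=
    setIntegral_mono_set (HFal_int hM).integrableOn (Filter.Eventually.of_forall fun x => (HFal_pos M x).le)
      (Ioi_subset_Ioi ha).eventuallyLE
  have h1 : ∫ u in Ioi (0 : ℝ), Kg M u = Real.sqrt (Real.pi / (1 / (2 * M ^ 2))) / 2 := by
    rw [← integral_gaussian_Ioi]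
    exact integral_congr_ae (Filter.Eventually.of_forall fun x => HFal_eq M x)
  have h2 : Real.sqrt (Real.pi / (1 / (2 * M ^ 2))) ≤ 4 * M := by
    rw [Real.sqrt_le_left (by linarith)]
    have h3 : Real.pi / (1 / (2 * M ^ 2)) = 2 * Real.pi * M ^ 2 := by
      field_simp
    rw [h3]
    nlinarith [Real.pi_lt_four, sq_nonneg M]
  rw [h1] at h0
  linarith

/-- LEAF HFal. If the Riemann hypothesis fails, `LM.R_false h 1 1 le_rfl` gives `1 ≤ a' < b'` with
`T ≤ ∫_a'^b' RR α T dα` for large `T`; `QQ T u = L RR (u/L) T` (`QQ_eq_RR`), so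
`∫_(u > L) Kg M u QQ T u du ≥ ∫_(a'L)^(b'L) ≥ Kg M (b'L) L² T ≥ e^(-b'²/8) T` (as `M ≥ 2L`), while
`∫_(u > L) Kg M u (L - c0) du ≤ L · 2M ≤ 2 L T^(1/8)`. Integrability: `KQ_intU` (and `Kg_int` of GStW for the Gaussian). -/
theorem masterF (h : ¬ RiemannHypothesis) : ∃ T0 : ℝ, ∀ T : ℝ, T0 ≤ T → ∀ M : ℝ, 2 * Real.log T ≤ M → M ≤ T ^ (1 / 8 : ℝ) →
    ∫ u in Ioi (Real.log T), Kg M u * (Real.log T - c0 - QQ T u) ≤ 0 := by
  obtain ⟨a', b', ha1, hab, hev⟩ := LM.R_false h 1 1 le_rfl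
  obtain ⟨T1, hT1⟩ := eventually_atTop.1 hev
  obtain ⟨B, hB⟩ : ∃ B : ℝ, B = Real.exp (b' ^ 2 / 8) := ⟨_, rfl⟩
  have hB1 : 1 ≤ B := by
    rw [hB]
    exact Real.one_le_exp (by positivity)
  refine ⟨max (max 2 T1) (Real.exp (2 * B)), fun T hT M hM1 hM2 => ?_⟩
  have hT2 : 2 ≤ T := (le_max_left _ _).trans ((le_max_left _ _).trans hT)
  have hTT1 : T1 ≤ T := (le_max_right _ _).trans ((le_max_left _ _).trans hT)
  have hTB : Real.exp (2 * B) ≤ T := (le_max_right _ _).trans hT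
  have hT0 : 0 < T := by linarith
  obtain ⟨L, hL⟩ : ∃ L : ℝ, L = Real.log T := ⟨_, rfl⟩
  have hLB : 2 * B ≤ L := by
    rw [hL]
    exact (Real.le_log_iff_exp_le hT0).2 hTB
  have hL0 : 0 < L := by linarith
  rw [← hL] at hM1 ⊢
  have hM : 1 ≤ M := by linarith
  have hMT : M ≤ T := by
    refine hM2.trans ?_
    calc T ^ (1 / 8 : ℝ) ≤ T ^ (1 : ℝ) := Real.rpow_le_rpow_of_exponent_le (by linarith) (by norm_num)
      _ = T := Real.rpow_one T
  -- integrability and splitting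
  have hi1 : IntegrableOn (fun u => Kg M u * (L - c0)) (Ioi L) := (HFal_int hM).integrableOn.mul_const _
  have hi2 : IntegrableOn (fun u => Kg M u * QQ T u) (Ioi L) := KQ_intU hT2 hM hL0.le
  have hsplit : ∫ u in Ioi L, Kg M u * (L - c0 - QQ T u) =
      (∫ u in Ioi L, Kg M u * (L - c0)) - ∫ u in Ioi L, Kg M u * QQ T u := by
    rw [← integral_sub hi1 hi2]
    refine integral_congr_ae (Filter.Eventually.of_forall fun u => ?_)
    simp only
    ring
  have hfirst : ∫ u in Ioi L, Kg M u * (L - c0) ≤ 2 * M * L := by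
    have hc := HFal_c0
    have h1 : ∫ u in Ioi L, Kg M u * (L - c0) ≤ ∫ u in Ioi L, Kg M u * L :=
      setIntegral_mono hi1 ((HFal_int hM).integrableOn.mul_const _) fun u =>
        mul_le_mul_of_nonneg_left (by linarith) (HFal_pos M u).le
    have h2 : ∫ u in Ioi L, Kg M u * L = (∫ u in Ioi L, Kg M u) * L := integral_mul_const _ _
    rw [h2] at h1
    exact h1.trans (mul_le_mul_of_nonneg_right (HFal_mass hM hL0.le) hL0.le)
  -- the second integral
  have hnn : ∀ u, 0 ≤ Kg M u * QQ T u := fun u => mul_nonneg (HFal_pos M u).le (QQ_nonneg hT2 u)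
  have hle : a' * L ≤ b' * L := mul_le_mul_of_nonneg_right hab.le hL0.le
  have hsub : Ioc (a' * L) (b' * L) ⊆ Ioi L := by
    intro u hu
    have h1 : 1 * L ≤ a' * L := mul_le_mul_of_nonneg_right ha1 hL0.le
    rw [one_mul] at h1
    exact lt_of_le_of_lt h1 hu.1
  have hs1 : ∫ u in (a' * L)..(b' * L), Kg M u * QQ T u ≤ ∫ u in Ioi L, Kg M u * QQ T u := by
    rw [intervalIntegral.integral_of_le hle]
    exact setIntegral_mono_set hi2 (Filter.Eventually.of_forall hnn) hsub.eventuallyLE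
  have hb0 : 0 < b' := by linarith
  have hker : ∀ u ∈ Icc (a' * L) (b' * L), 1 / B ≤ Kg M u := by
    intro u hu
    have hu0 : 0 ≤ u := le_trans (by positivity) hu.1
    rw [Kg, hB, one_div, ← Real.exp_neg, Real.exp_le_exp]
    have h1 : u ^ 2 ≤ (b' * L) ^ 2 := pow_le_pow_left₀ hu0 hu.2 2
    have h2 : (2 * L) ^ 2 ≤ M ^ 2 := pow_le_pow_left₀ (by linarith) hM1 2
    have h3 : u ^ 2 / (2 * M ^ 2) ≤ b' ^ 2 / 8 := by
      rw [div_le_div_iff₀ (by positivity) (by norm_num)]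
      nlinarith [mul_le_mul_of_nonneg_left h2 (sq_nonneg b')]
    linarith
  have hii : IntervalIntegrable (QQ T) volume (a' * L) (b' * L) := QQ_ii hT2 _ _
  have hs2 : 1 / B * ∫ u in (a' * L)..(b' * L), QQ T u ≤ ∫ u in (a' * L)..(b' * L), Kg M u * QQ T u := by
    rw [← intervalIntegral.integral_const_mul]
    refine intervalIntegral.integral_mono_on hle (hii.const_mul _) ?_ fun u hu =>
      mul_le_mul_of_nonneg_right (hker u hu) (QQ_nonneg hT2 u)
    exact hii.continuousOn_mul (HFal_cont M).continuousOn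
  have hs3 : ∫ u in (a' * L)..(b' * L), QQ T u = L * (L * ∫ α in a'..b', RR α T) := by
    have h1 : ∫ u in (a' * L)..(b' * L), QQ T u = ∫ u in (a' * L)..(b' * L), L * RR (u / L) T := by
      refine intervalIntegral.integral_congr fun u _ => ?_
      rw [QQ_eq_RR hT2, ← hL]
    rw [h1, intervalIntegral.integral_const_mul, intervalIntegral.integral_comp_div (fun α => RR α T) hL0.ne',
      mul_div_cancel_right₀ _ hL0.ne', mul_div_cancel_right₀ _ hL0.ne', smul_eq_mul]
  have hs4 : T ≤ ∫ α in a'..b', RR α T := by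
    have h1 := hT1 T hTT1
    rwa [Real.rpow_one] at h1
  rw [hsplit]
  have hB0 : 0 < B := by linarith
  have hfin : 2 * M * L ≤ 1 / B * (L * (L * ∫ α in a'..b', RR α T)) := by
    have h1 : 2 * M * L ≤ 2 * T * L := mul_le_mul_of_nonneg_right (by linarith) hL0.le
    have h2 : 2 * T * L ≤ 1 / B * (L * (L * T)) := by
      have h3 : 2 * (T * L) ≤ 1 / B * L * (T * L) := by
        refine mul_le_mul_of_nonneg_right ?_ (by positivity)
        rw [one_div, ← div_eq_inv_mul, le_div_iff₀ hB0]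
        exact hLB
      calc 2 * T * L = 2 * (T * L) := by ring
        _ ≤ 1 / B * L * (T * L) := h3
        _ = 1 / B * (L * (L * T)) := by ring
    have h4 : 1 / B * (L * (L * T)) ≤ 1 / B * (L * (L * ∫ α in a'..b', RR α T)) := by
      refine mul_le_mul_of_nonneg_left ?_ (by positivity)
      exact mul_le_mul_of_nonneg_left (mul_le_mul_of_nonneg_left hs4 hL0.le) hL0.le
    linarith
  rw [hs3] at hs2
  linarith

end Pool.Agent.Lib.MP_2a816b_nt.TA
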