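import Pool.Agent.Lib.MP_2a816b_nt.TA.HDefs
import Pool.Agent.Lib.MP_2a816b_nt.TA.XV
import Pool.Agent.Lib.MP_2a816b_nt.TA.Edg
import Pool.Agent.Lib.MP_2a816b_nt.Integral

open Complex Set Filter Topology MeasureTheory

namespace Pool.Agent.Lib.MP_2a816b_nt.TA

open Pool.Agent.Lib.MP_00e05b_nt Pool.Agent.Lib.MP_00e05b_nt.Mont Pool.Agent.Lib.MP_2a816b_nt.PV

private lemma HPk_ylog {y L : ℝ} (hy : 0 < y) (hL : 0 ≤ L) :
    y * Real.log (1 / y) ≤ y * L + 2 * Real.exp (-(L / 2)) := by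
  rcases le_or_gt (Real.exp (-L)) y with h1 | h1
  · have h2 : Real.log (1 / y) ≤ L := by
      rw [one_div, Real.log_inv]
      have := Real.log_le_log (Real.exp_pos _) h1
      rw [Real.log_exp] at this
      linarith
    have h3 := Real.exp_pos (-(L / 2))
    nlinarith
  · have h2 : √y ≤ Real.exp (-(L / 2)) := by
      rw [Real.sqrt_le_left (Real.exp_pos _).le, ← Real.exp_nat_mul]
      refine h1.le.trans (le_of_eq ?_)
      congr 1
      push_cast
      ring
    have h3 : 0 < √y := Real.sqrt_pos.mpr hy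
    have h4 : √y * √y = y := Real.mul_self_sqrt hy.le
    have h5 : Real.log (1 / y) ≤ 2 * (1 / √y) := by
      have h6 : 1 / y = (1 / √y) ^ 2 := by
        rw [div_pow, one_pow, sq, h4]
      rw [h6, Real.log_pow]
      push_cast
      have := Real.log_le_self (by positivity : (0 : ℝ) ≤ 1 / √y)
      linarith
    have h7 : y * Real.log (1 / y) ≤ 2 * √y := by
      calc y * Real.log (1 / y) ≤ y * (2 * (1 / √y)) := by gcongr
        _ = √y * √y * (2 * (1 / √y)) := by rw [h4]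
        _ = 2 * √y := by field_simp
    have h8 : 0 ≤ y * L := by positivity
    linarith

/-- The edge windows. -/
private lemma HPk_edge {κ1 κ2 C C0 : ℝ} (h2 : 0 < κ2) (h1 : κ2 < κ1) (hC : 0 < C) (h : CB κ1 C)
    (hC0 : 0 ≤ C0)
    (hsm : ∀ X h : ℝ, 2 ≤ X → 0 < h → h ≤ 1 → VV X h ≤ C0 * h * Real.log X)
    {X H s L : ℝ} (hL : L = Real.log (X / H)) (hH : 1 ≤ H) (hHX : H ≤ X) (hL4 : 4 ≤ L) (hLC : C ≤ L)
    (k1 : Real.log (2 * X) ≤ L ^ (1 + κ1)) (k3 : L ^ (1 + κ1) ≤ Real.exp (L / 2))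
    (hs0 : 0 < s) (hs1 : s ≤ 1) :
    VV (2 * X) (H * (1 - Real.exp (-s)) / 2) ≤
      (3 * C + 2 * C0) * (H * (s * L + Real.exp (-(L / 2)))) := by
  have hH0 : 0 < H := by linarith
  have hX0 : 0 < X := by linarith
  have hes : 0 < Real.exp (-s) := Real.exp_pos _
  have hes1 : Real.exp (-s) < 1 := by rw [← Real.exp_zero]; exact Real.exp_lt_exp.mpr (by linarith)
  obtain ⟨y, hy⟩ : ∃ y : ℝ, y = (1 - Real.exp (-s)) / 2 := ⟨_, rfl⟩
  have hy0 : 0 < y := by rw [hy]; linarith
  have hys : y ≤ s / 2 := by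
    have := Real.add_one_le_exp (-s)
    rw [hy]; linarith
  have hy1 : y ≤ 1 / 2 := by rw [hy]; linarith
  have hh : H * (1 - Real.exp (-s)) / 2 = H * y := by rw [hy]; ring
  rw [hh]
  have hlog2 : 0 < Real.log 2 := Real.log_pos (by norm_num)
  have hlog21 : Real.log 2 ≤ 1 := by have := Real.log_two_lt_d9; linarith
  have hE0 : 0 < Real.exp (-(L / 2)) := Real.exp_pos _
  have hl2X : Real.log (2 * X) = Real.log 2 + Real.log X := Real.log_mul (by norm_num) hX0.ne'
  have hsL : 0 < s * L := by positivity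
  have hCs : 0 ≤ C * (H * (s * L + Real.exp (-(L / 2)))) := by positivity
  have hC0s : 0 ≤ C0 * (H * (s * L + Real.exp (-(L / 2)))) := by positivity
  rcases le_or_gt 1 (H * y) with h3 | h3
  · have hfr : Real.log (2 * X / (H * y)) = Real.log 2 + L + Real.log (1 / y) := by
      have e : 2 * X / (H * y) = 2 * (X / H) * (1 / y) := by field_simp
      rw [e, Real.log_mul (by positivity) (by positivity), Real.log_mul (by norm_num) (by positivity), ← hL]
    have hly : 0 ≤ Real.log (1 / y) := by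
      apply Real.log_nonneg
      rw [le_div_iff₀ hy0]
      linarith
    have hc : Real.log (2 * X) ≤ Real.log (2 * X / (H * y)) ^ (1 + κ1) :=
      k1.trans (Real.rpow_le_rpow (by linarith) (by rw [hfr]; linarith) (by linarith))
    have h4 := h (2 * X) (H * y) h3 (by nlinarith) (by rw [hfr]; linarith) hc
    rw [hfr] at h4
    have h5 := HPk_ylog hy0 (by linarith : (0 : ℝ) ≤ L)
    have h6 : y * (Real.log 2 + L + Real.log (1 / y)) ≤ y * (1 + 2 * L) + 2 * Real.exp (-(L / 2)) := by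
      have h7 : y * Real.log 2 ≤ y * 1 := by gcongr
      nlinarith
    have h7 : y * (1 + 2 * L) ≤ 3 * (s * L) := by
      calc y * (1 + 2 * L) ≤ s / 2 * (1 + 2 * L) := by gcongr
        _ ≤ s / 2 * (L + 2 * L) := by gcongr; linarith
        _ = 3 / 2 * (s * L) := by ring
        _ ≤ 3 * (s * L) := by linarith
    calc VV (2 * X) (H * y) ≤ C * (H * y) * (Real.log 2 + L + Real.log (1 / y)) := h4
      _ = C * (H * (y * (Real.log 2 + L + Real.log (1 / y)))) := by ring
      _ ≤ C * (H * (3 * (s * L) + 3 * Real.exp (-(L / 2)))) := by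
          gcongr
          linarith
      _ = 3 * (C * (H * (s * L + Real.exp (-(L / 2))))) := by ring
      _ ≤ (3 * C + 2 * C0) * (H * (s * L + Real.exp (-(L / 2)))) := by linarith
  · have h4 := hsm (2 * X) (H * y) (by linarith) (by positivity) h3.le
    have hlX0 : 0 ≤ Real.log (2 * X) := Real.log_nonneg (by linarith)
    have hXL : Real.log X = L + Real.log H := by
      rw [hL, Real.log_div hX0.ne' hH0.ne']; ring
    rcases le_or_gt (Real.log H) L with h5 | h5
    · have h6 : Real.log (2 * X) ≤ 3 * L := by rw [hl2X, hXL]; linarith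
      have h7 : 0 ≤ C0 * (H * Real.exp (-(L / 2))) := by positivity
      have h8 : 0 ≤ C0 * (H * (s * L)) := by positivity
      calc VV (2 * X) (H * y) ≤ C0 * (H * y) * Real.log (2 * X) := h4
        _ ≤ C0 * (H * (s / 2)) * (3 * L) := by gcongr
        _ = (3 / 2) * (C0 * (H * (s * L))) := by ring
        _ ≤ (3 * C + 2 * C0) * (H * (s * L + Real.exp (-(L / 2)))) := by
          have e : (3 * C + 2 * C0) * (H * (s * L + Real.exp (-(L / 2)))) =
            3 * (C * (H * (s * L + Real.exp (-(L / 2))))) + 2 * (C0 * (H * (s * L))) +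
              2 * (C0 * (H * Real.exp (-(L / 2)))) := by ring
          rw [e]
          linarith
    · have h6 : Real.exp L ≤ H := by
        rw [← Real.exp_log hH0]
        exact Real.exp_le_exp.mpr h5.le
      have h7 : Real.exp (L / 2) = Real.exp L * Real.exp (-(L / 2)) := by
        rw [← Real.exp_add]; congr 1; ring
      calc VV (2 * X) (H * y) ≤ C0 * (H * y) * Real.log (2 * X) := h4
        _ ≤ C0 * 1 * Real.exp (L / 2) := by
          gcongr
          exact k1.trans k3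
        _ = C0 * (Real.exp L * Real.exp (-(L / 2))) := by rw [h7, mul_one]
        _ ≤ C0 * (H * Real.exp (-(L / 2))) := by gcongr
        _ ≤ C0 * (H * (s * L + Real.exp (-(L / 2)))) := by
          gcongr
          linarith
        _ ≤ (3 * C + 2 * C0) * (H * (s * L + Real.exp (-(L / 2)))) := by linarith

/-- The algebra. -/
private lemma HPk_alg {η s w : ℝ} (hη0 : 0 < η) (hη1 : η ≤ 1) (hs0 : 0 ≤ s) (hs1 : s ≤ η / 32)
    (hw : w ≤ (η / 64) ^ 2) :
    Real.exp (2 * s) * (√(1 + η / 2) + 2 * √w) ^ 2 + η / 8 < 1 + η := by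
  have h2 : √w ≤ η / 64 := by
    rw [Real.sqrt_le_left (by positivity)]
    exact hw
  have h3 : √(1 + η / 2) ≤ 5 / 4 := by
    rw [Real.sqrt_le_left (by norm_num)]
    linarith
  have h30 : 0 ≤ √(1 + η / 2) := Real.sqrt_nonneg _
  have h20 : 0 ≤ √w := Real.sqrt_nonneg _
  have h4 : √(1 + η / 2) ^ 2 = 1 + η / 2 := Real.sq_sqrt (by linarith)
  have h5 : (√(1 + η / 2) + 2 * √w) ^ 2 ≤ 1 + 5 * η / 8 := by
    have h6 : √(1 + η / 2) * √w ≤ 5 / 4 * (η / 64) := mul_le_mul h3 h2 h20 (by norm_num)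
    have h7 : √w ^ 2 ≤ (η / 64) ^ 2 := by gcongr
    have h8 : (η / 64) ^ 2 ≤ η / 4096 := by nlinarith
    have e : (√(1 + η / 2) + 2 * √w) ^ 2 = √(1 + η / 2) ^ 2 + 4 * (√(1 + η / 2) * √w) + 4 * √w ^ 2 := by
      ring
    rw [e, h4]
    linarith
  have h9 : Real.exp (2 * s) ≤ 1 + 4 * s := by
    have h10 : 2 * s ≤ 1 := by linarith
    have h11 := Real.abs_exp_sub_one_sub_id_le (x := 2 * s) (by rw [abs_of_nonneg (by linarith)]; exact h10)
    have h12 := (abs_le.mp h11).2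
    nlinarith
  have h10 : Real.exp (2 * s) * (√(1 + η / 2) + 2 * √w) ^ 2 ≤ (1 + 4 * (η / 32)) * (1 + 5 * η / 8) := by
    refine mul_le_mul (h9.trans (by linarith)) h5 (sq_nonneg _) (by linarith)
  nlinarith

private lemma HPk_ev1 {a b : ℝ} (hab : a < b) (c : ℝ) : ∀ᶠ L : ℝ in atTop, c * L ^ a ≤ L ^ b := by
  have h1 := (tendsto_rpow_atTop (sub_pos.mpr hab)).eventually (eventually_ge_atTop c)
  filter_upwards [h1, eventually_gt_atTop 0] with L h2 hL
  calc c * L ^ a ≤ L ^ (b - a) * L ^ a := by gcongr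
    _ = L ^ b := by rw [← Real.rpow_add hL]; congr 1; ring

private lemma HPk_ev2 (c : ℝ) : ∀ᶠ L : ℝ in atTop, c * L ^ 2 ≤ Real.exp (L / 2) := by
  have h1 := (isLittleO_pow_exp_pos_mul_atTop (k := 2) (b := 1 / 2) (by norm_num)).bound
    (show 0 < 1 / (|c| + 1) by positivity)
  filter_upwards [h1, eventually_gt_atTop 0] with L h2 hL
  rw [Real.norm_eq_abs, Real.norm_eq_abs, abs_of_pos (by positivity), abs_of_pos (Real.exp_pos _)] at h2
  have h3 : Real.exp (1 / 2 * L) = Real.exp (L / 2) := by congr 1; ring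
  rw [h3] at h2
  calc c * L ^ 2 ≤ (|c| + 1) * L ^ 2 := by
        gcongr
        have := le_abs_self c
        linarith
    _ ≤ (|c| + 1) * (1 / (|c| + 1) * Real.exp (L / 2)) := by gcongr
    _ = Real.exp (L / 2) := by field_simp

private lemma HPk_ev3 (a : ℝ) : ∀ᶠ L : ℝ in atTop, L ^ a ≤ Real.exp (L / 2) := by
  have h1 := (isLittleO_rpow_exp_pos_mul_atTop a (b := 1 / 2) (by norm_num)).bound
    (show (0 : ℝ) < 1 by norm_num)
  filter_upwards [h1, eventually_gt_atTop 0] with L h2 hL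
  rw [Real.norm_eq_abs, Real.norm_eq_abs, abs_of_pos (by positivity), abs_of_pos (Real.exp_pos _),
    one_mul] at h2
  have h3 : Real.exp (1 / 2 * L) = Real.exp (L / 2) := by congr 1; ring
  rw [h3] at h2
  exact h2

/-- LEAF HPk: persistence of peaks, upwards (same tools as `GDip.lean`). Put `X1 = X e^s`, `H1 = H e^s`, `L = log (X/H) = log (X1/H1)`
and suppose `VV X1 H1 < (1 + η/2) H1 L`. `edges` at `(X1, H1, s)` (note `H1 e^(-s) = H`):
`√(∫_H1^X1 (psiWindow x H - H)²) ≤ √(X1 VV X1 H1) + 2 √(2 X1 VV (2 X1) (H1 (1 - e^(-s))/2))`, the last term bounded by `CB κ1 C`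
(or `small_h` if the length is `< 1`) as in `GDip_edge`; `∫_H^H1 (psiWindow x H - H)² ≤ X' VV X' H ≤ X H L η/8` with
`X' = H e^(L/2)` (`CB` at `(X', H)`). Altogether `X VV X H ≤ X H L ((e^s √(1 + η/2) + 2 √w)² + η/8) < (1 + η) X H L` when `s ≤ η/32`,
`√w ≤ η/64`: contradiction. -/
theorem peakH {κ1 κ2 C : ℝ} (h2 : 0 < κ2) (h1 : κ2 < κ1) (hC : 0 < C) (h : CB κ1 C) :
    ∃ c K : ℝ, 0 < c ∧ c ≤ 1 / 2 ∧ ∀ X H η s : ℝ, 1 ≤ H → H ≤ X → K ≤ Real.log (X / H) →
      Real.log X ≤ Real.log (X / H) ^ (1 + κ2) → 1 / Real.log (X / H) ≤ η → η ≤ 1 →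
      (1 + η) * (H * Real.log (X / H)) ≤ VV X H → 0 ≤ s → s ≤ c * η ^ 2 →
      (1 + η / 2) * (H * Real.exp s * Real.log (X / H)) ≤ VV (X * Real.exp s) (H * Real.exp s) := by
  obtain ⟨C0, hC0, hsm⟩ := small_h
  obtain ⟨C1, hC1⟩ : ∃ C1 : ℝ, C1 = 3 * C + 2 * C0 := ⟨_, rfl⟩
  have hC10 : 0 < C1 := by rw [hC1]; positivity
  have a1 : ∀ᶠ L : ℝ in atTop, 3 * L ^ (1 + κ2) ≤ L ^ (1 + κ1) := HPk_ev1 (by linarith) 3
  have a2 : ∀ᶠ L : ℝ in atTop, (2 : ℝ) ^ (1 + κ1) * L ^ (1 + κ2) ≤ L ^ (1 + κ1) :=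
    HPk_ev1 (by linarith) _
  have a3 := HPk_ev3 (1 + κ1)
  have a4 := HPk_ev2 (4 * C)
  have a6 := HPk_ev2 (16384 * C1)
  obtain ⟨K, hK⟩ := eventually_atTop.mp (a1.and (a2.and (a3.and (a4.and (a6.and
    ((eventually_ge_atTop 4).and (eventually_ge_atTop (2 * C))))))))
  refine ⟨1 / (16384 * (C1 + 1)), K, by positivity, ?_,
    fun X H η s hH hHX hKL hcond hη hη1 hV hs0 hs => ?_⟩
  · apply div_le_div_of_nonneg_left (by norm_num) (by norm_num)
    linarith
  obtain ⟨L, hL⟩ : ∃ L : ℝ, L = Real.log (X / H) := ⟨_, rfl⟩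
  rw [← hL] at hKL hcond hη hV ⊢
  obtain ⟨b1, b2, b3, b4, b6, hL4, hLC⟩ := hK L hKL
  have hX0 : 0 < X := by linarith
  have hH0 : 0 < H := by linarith
  have hL0 : 0 < L := by linarith
  have hη0 : 0 < η := lt_of_lt_of_le (by positivity) hη
  have hηL : 1 ≤ η * L := by
    rw [div_le_iff₀ hL0] at hη; exact hη
  have hXH : X = H * Real.exp L := by
    rw [hL, Real.exp_log (by positivity)]; field_simp
  have hlog2 : 0 < Real.log 2 := Real.log_pos (by norm_num)
  have hlog21 : Real.log 2 ≤ 1 := by have := Real.log_two_lt_d9; linarith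
  have hLr : 1 ≤ L ^ (1 + κ2) := Real.one_le_rpow (by linarith) (by linarith)
  have k2 : L ^ (1 + κ2) ≤ (L / 2) ^ (1 + κ1) := by
    rw [Real.div_rpow hL0.le (by norm_num), le_div_iff₀ (by positivity), mul_comm]
    exact b2
  have hLL : L ≤ L ^ 2 := by
    calc L = L * 1 := (mul_one L).symm
      _ ≤ L * L := mul_le_mul_of_nonneg_left (by linarith) hL0.le
      _ = L ^ 2 := (sq L).symm
  have k4 : C * L ≤ Real.exp (L / 2) / 4 := by
    have e1 : C * L ≤ C * L ^ 2 := mul_le_mul_of_nonneg_left hLL hC.le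
    linarith
  have hs2 : s ≤ η ^ 2 / 16384 := by
    refine hs.trans ?_
    rw [div_mul_eq_mul_div, one_mul]
    apply div_le_div_of_nonneg_left (by positivity) (by norm_num)
    linarith
  have hηη : η ^ 2 ≤ η := by
    calc η ^ 2 = η * η := sq η
      _ ≤ η * 1 := mul_le_mul_of_nonneg_left hη1 hη0.le
      _ = η := mul_one η
  have hs32 : s ≤ η / 32 := by linarith
  have hs1 : s ≤ 1 / 32 := by linarith
  rcases hs0.eq_or_lt with hs00 | hs00
  · rw [← hs00]
    simp only [Real.exp_zero, mul_one]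
    refine le_trans ?_ hV
    have : 0 ≤ H * L := by positivity
    exact mul_le_mul_of_nonneg_right (by linarith) this
  by_contra hcon
  rw [not_le] at hcon
  have hes0 : 0 < Real.exp s := Real.exp_pos _
  have hes1 : 1 ≤ Real.exp s := Real.one_le_exp hs0
  obtain ⟨X1, hX1⟩ : ∃ X1 : ℝ, X1 = X * Real.exp s := ⟨_, rfl⟩
  obtain ⟨H1, hH1⟩ : ∃ H1 : ℝ, H1 = H * Real.exp s := ⟨_, rfl⟩
  rw [← hX1, ← hH1] at hcon
  have hX10 : 0 < X1 := by rw [hX1]; positivity
  have hH10 : 0 < H1 := by rw [hH1]; positivity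
  have hHH1 : H ≤ H1 := by rw [hH1]; exact le_mul_of_one_le_right hH0.le hes1
  have hXX1 : X ≤ X1 := by rw [hX1]; exact le_mul_of_one_le_right hX0.le hes1
  have hHX1 : H1 ≤ X1 := by rw [hH1, hX1]; exact mul_le_mul_of_nonneg_right hHX hes0.le
  have hLX1 : L = Real.log (X1 / H1) := by
    rw [hX1, hH1, mul_div_mul_right _ _ hes0.ne', hL]
  have hH1e : H1 * Real.exp (-s) = H := by
    rw [hH1, mul_assoc, ← Real.exp_add, add_neg_cancel, Real.exp_zero, mul_one]
  have hlX1 : Real.log X1 = Real.log X + s := by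
    rw [hX1, Real.log_mul hX0.ne' hes0.ne', Real.log_exp]
  have k1 : Real.log (2 * X1) ≤ L ^ (1 + κ1) := by
    rw [Real.log_mul (by norm_num) hX10.ne', hlX1]
    linarith
  -- the edge estimate
  have hedge := edges hH10 hHX1 hs00 (by linarith : s ≤ 1)
  rw [hH1e] at hedge
  have hV2 := HPk_edge h2 h1 hC h hC0 hsm hLX1 (hH.trans hHH1) hHX1 hL4 (by linarith) k1 b3 hs00
    (by linarith)
  rw [← hC1] at hV2
  obtain ⟨w, hw⟩ : ∃ w : ℝ, w = 2 * C1 * (s + Real.exp (-(L / 2)) / L) := ⟨_, rfl⟩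
  have hw0 : 0 ≤ w := by rw [hw]; positivity
  have hwη : w ≤ (η / 64) ^ 2 := by
    have h1 : 2 * C1 * s ≤ η ^ 2 / 8192 := by
      have h2 : C1 * s ≤ (C1 + 1) * (1 / (16384 * (C1 + 1)) * η ^ 2) := by gcongr; linarith
      have h3 : (C1 + 1) * (1 / (16384 * (C1 + 1)) * η ^ 2) = η ^ 2 / 16384 := by field_simp
      linarith
    have h2 : 2 * C1 * (Real.exp (-(L / 2)) / L) ≤ η ^ 2 / 8192 := by
      have h3 : 1 ≤ (η * L) ^ 2 := one_le_pow₀ hηL
      have h4 : Real.exp (-(L / 2)) * Real.exp (L / 2) = 1 := by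
        rw [← Real.exp_add]; simp
      have h5 : Real.exp (-(L / 2)) * (16384 * C1 * L ^ 2) ≤ 1 := by
        calc Real.exp (-(L / 2)) * (16384 * C1 * L ^ 2) ≤ Real.exp (-(L / 2)) * Real.exp (L / 2) := by
              gcongr
          _ = 1 := h4
      have h6 : 2 * C1 * (Real.exp (-(L / 2)) / L) * 8192 * L ^ 2 =
          Real.exp (-(L / 2)) * (16384 * C1 * L) := by field_simp; ring
      have h7 : Real.exp (-(L / 2)) * (16384 * C1 * L) ≤ 1 := by
        refine le_trans ?_ h5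
        gcongr
      have h8 : 2 * C1 * (Real.exp (-(L / 2)) / L) * 8192 * L ^ 2 ≤ η ^ 2 * L ^ 2 := by
        rw [h6]
        refine h7.trans ?_
        rw [← mul_pow]; exact h3
      have h9 : 2 * C1 * (Real.exp (-(L / 2)) / L) * 8192 ≤ η ^ 2 :=
        le_of_mul_le_mul_right h8 (by positivity)
      linarith
    rw [hw]
    have e : (η / 64) ^ 2 = η ^ 2 / 8192 + η ^ 2 / 8192 := by ring
    rw [e]
    linarith
  have hV3 : 2 * VV (2 * X1) (H1 * (1 - Real.exp (-s)) / 2) ≤ H1 * L * w := by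
    have e : H1 * L * w = 2 * (C1 * (H1 * (s * L + Real.exp (-(L / 2))))) := by
      rw [hw]; field_simp
    rw [e]
    linarith
  -- first piece
  have hI1 : ∫ x in H1..X1, (psiWindow x H - H) ^ 2 ≤ X1 * H1 * L * (√(1 + η / 2) + 2 * √w) ^ 2 := by
    have hInn : 0 ≤ ∫ x in H1..X1, (psiWindow x H - H) ^ 2 :=
      intervalIntegral.integral_nonneg hHX1 fun x _ => sq_nonneg _
    have h1 : √(X1 * VV X1 H1) ≤ √(X1 * H1 * L) * √(1 + η / 2) := by
      rw [← Real.sqrt_mul (by positivity)]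
      apply Real.sqrt_le_sqrt
      calc X1 * VV X1 H1 ≤ X1 * ((1 + η / 2) * (H1 * L)) := by gcongr
        _ = X1 * H1 * L * (1 + η / 2) := by ring
    have h2 : √(2 * X1 * VV (2 * X1) (H1 * (1 - Real.exp (-s)) / 2)) ≤ √(X1 * H1 * L) * √w := by
      rw [← Real.sqrt_mul (by positivity)]
      apply Real.sqrt_le_sqrt
      calc 2 * X1 * VV (2 * X1) (H1 * (1 - Real.exp (-s)) / 2)
          = X1 * (2 * VV (2 * X1) (H1 * (1 - Real.exp (-s)) / 2)) := by ring
        _ ≤ X1 * (H1 * L * w) := by gcongr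
        _ = X1 * H1 * L * w := by ring
    have h3 : √(∫ x in H1..X1, (psiWindow x H - H) ^ 2) ≤ √(X1 * H1 * L) * (√(1 + η / 2) + 2 * √w) := by
      refine hedge.trans ?_
      have e : √(X1 * H1 * L) * (√(1 + η / 2) + 2 * √w) =
          √(X1 * H1 * L) * √(1 + η / 2) + 2 * (√(X1 * H1 * L) * √w) := by ring
      rw [e]
      linarith
    have h4 : √(∫ x in H1..X1, (psiWindow x H - H) ^ 2) ^ 2 ≤ (√(X1 * H1 * L) * (√(1 + η / 2) + 2 * √w)) ^ 2 := by
      gcongr
    rw [Real.sq_sqrt hInn, mul_pow, Real.sq_sqrt (by positivity)] at h4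
    exact h4
  -- second piece
  have hI2 : ∫ x in H..H1, (psiWindow x H - H) ^ 2 ≤ X * H * L * (η / 8) := by
    obtain ⟨X', hX'⟩ : ∃ X' : ℝ, X' = H * Real.exp (L / 2) := ⟨_, rfl⟩
    have hX'0 : 0 < X' := by rw [hX']; positivity
    have hE1 : 1 ≤ Real.exp (L / 2) := Real.one_le_exp (by linarith)
    have h1 : H1 ≤ X' := by
      rw [hX', hH1]
      gcongr
      linarith
    have hX'X : X' ≤ X := by
      rw [hX', hXH]
      gcongr
      linarith
    have h2 : ∫ x in H..H1, (psiWindow x H - H) ^ 2 ≤ ∫ x in H..X', (psiWindow x H - H) ^ 2 := by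
      apply intervalIntegral.integral_mono_interval le_rfl hHH1 h1 (Eventually.of_forall fun x => sq_nonneg _)
      exact MP_2a816b_nt.sq_integrable X' H H X' hH0.le hH0.le (hHH1.trans h1) le_rfl
    have h3 : ∫ x in H..X', (psiWindow x H - H) ^ 2 = X' * VV X' H := by
      unfold VV; field_simp
    have hlX' : Real.log X' ≤ Real.log X := Real.log_le_log hX'0 hX'X
    have h5 : VV X' H ≤ H * (Real.exp (L / 2) / 8) := by
      have hfr : Real.log (X' / H) = L / 2 := by
        have e : X' / H = Real.exp (L / 2) := by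
          rw [hX']
          field_simp
        rw [e, Real.log_exp]
      have hc : Real.log X' ≤ Real.log (X' / H) ^ (1 + κ1) := by
        rw [hfr]
        exact hlX'.trans (hcond.trans k2)
      have h7 := h X' H hH (hHH1.trans h1) (by rw [hfr]; linarith) hc
      rw [hfr] at h7
      calc VV X' H ≤ C * H * (L / 2) := h7
        _ = H * (C * L / 2) := by ring
        _ ≤ H * (Real.exp (L / 2) / 8) := mul_le_mul_of_nonneg_left (by linarith) hH0.le
    calc ∫ x in H..H1, (psiWindow x H - H) ^ 2 ≤ X' * VV X' H := h2.trans h3.le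
      _ ≤ X' * (H * (Real.exp (L / 2) / 8)) := by gcongr
      _ = (H * (Real.exp (L / 2) * Real.exp (L / 2))) * H * (1 / 8) := by rw [hX']; ring
      _ = X * H * (1 / 8) := by
        rw [← Real.exp_add, add_halves, ← hXH]
      _ ≤ X * H * (η * L / 8) := by gcongr
      _ = X * H * L * (η / 8) := by ring
  -- conclusion
  have hI3 : ∫ x in H..X, (psiWindow x H - H) ^ 2 ≤ ∫ x in H..X1, (psiWindow x H - H) ^ 2 := by
    apply intervalIntegral.integral_mono_interval le_rfl hHX hXX1 (Eventually.of_forall fun x => sq_nonneg _)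
    exact MP_2a816b_nt.sq_integrable X1 H H X1 hH0.le hH0.le (hHX.trans hXX1) le_rfl
  have hsplit : ∫ x in H..X1, (psiWindow x H - H) ^ 2 =
      (∫ x in H..H1, (psiWindow x H - H) ^ 2) + ∫ x in H1..X1, (psiWindow x H - H) ^ 2 := by
    rw [intervalIntegral.integral_add_adjacent_intervals]
    · exact MP_2a816b_nt.sq_integrable H1 H H H1 hH0.le hH0.le hHH1 le_rfl
    · exact MP_2a816b_nt.sq_integrable X1 H H1 _ hH0.le hH10.le hHX1 le_rfl
  have halg := HPk_alg hη0 hη1 hs0 hs32 hwη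
  have hexp : X1 * H1 = X * H * Real.exp (2 * s) := by
    have e : Real.exp (2 * s) = Real.exp s * Real.exp s := by
      rw [← Real.exp_add]; congr 1; ring
    rw [hX1, hH1, e]; ring
  have hVX : X * VV X H = ∫ x in H..X, (psiWindow x H - H) ^ 2 := by
    unfold VV; field_simp
  have hXHL : 0 < X * H * L := by positivity
  have t1 : X * ((1 + η) * (H * L)) ≤ X * VV X H := mul_le_mul_of_nonneg_left hV hX0.le
  have t2 : X * VV X H ≤ X * H * L * (Real.exp (2 * s) * (√(1 + η / 2) + 2 * √w) ^ 2 + η / 8) := by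
    rw [hVX]
    refine hI3.trans ?_
    rw [hsplit]
    have e : X * H * L * (Real.exp (2 * s) * (√(1 + η / 2) + 2 * √w) ^ 2 + η / 8) =
        X * H * L * (η / 8) + X * H * Real.exp (2 * s) * L * (√(1 + η / 2) + 2 * √w) ^ 2 := by ring
    rw [e, ← hexp]
    exact add_le_add hI2 hI1
  have t3 : X * H * L * (Real.exp (2 * s) * (√(1 + η / 2) + 2 * √w) ^ 2 + η / 8) <
      X * H * L * (1 + η) := mul_lt_mul_of_pos_left halg hXHL
  have t4 : X * ((1 + η) * (H * L)) = X * H * L * (1 + η) := by ring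
  linarith

end Pool.Agent.Lib.MP_2a816b_nt.TA
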