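import Pool.Agent.Lib.MP_2a816b_nt.TA.HDefi
import Pool.Agent.Lib.MP_2a816b_nt.TA.HDip
import Pool.Agent.Lib.MP_2a816b_nt.TA.HPk
import Pool.Agent.Lib.MP_2a816b_nt.TA.HCb

open Complex Set Filter Topology MeasureTheory

namespace Pool.Agent.Lib.MP_2a816b_nt.TA

open Pool.Agent.Lib.MP_00e05b_nt Pool.Agent.Lib.MP_00e05b_nt.Mont Pool.Agent.Lib.MP_2a816b_nt.PV

private theorem HFinB_c0 : 0 < c0 := by
  unfold c0
  have h1 := Real.one_half_lt_eulerMascheroniConstant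
  have h2 : 0 < Real.log (2 * Real.pi) := Real.log_pos (by nlinarith [Real.pi_gt_three])
  linarith

/-- lower bound of the integral of the deviations by a short interval -/
private theorem HFinB_int {T L M a b m q : ℝ} (hT : 2 ≤ T) (h1 : L ≤ a) (h2 : a ≤ b) (h3 : b ≤ M)
    (hq : ∀ u : ℝ, a ≤ u → u ≤ b → m ≤ |q - QQ T u|) :
    (b - a) * m ≤ ∫ u in L..M, |q - QQ T u| := by
  have hi : ∀ x y : ℝ, IntervalIntegrable (fun u : ℝ => |q - QQ T u|) volume x y := by
    intro x y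
    exact (intervalIntegrable_const.sub (QQ_ii hT x y)).abs
  have h5 : ∫ u in a..b, |q - QQ T u| ≤ ∫ u in L..M, |q - QQ T u| := by
    refine intervalIntegral.integral_mono_interval h1 h2 h3 ?_ (hi L M)
    exact Eventually.of_forall fun u => abs_nonneg _
  have h7 : ∫ _u in a..b, m ≤ ∫ u in a..b, |q - QQ T u| := by
    refine intervalIntegral.integral_mono_on h2 intervalIntegrable_const (hi a b) fun u hu => ?_
    exact hq u hu.1 hu.2
  rw [intervalIntegral.integral_const, smul_eq_mul] at h7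
  exact h7.trans h5

/-- the powers of `η = ε L^(-ρ/3)` -/
private theorem HFinB_eta {L ρ ε : ℝ} (hL : 1 ≤ L) (hρ : 0 ≤ ρ) (hε : 0 < ε) (hε1 : ε ≤ 1) :
    0 < ε * L ^ (-(ρ / 3)) ∧ ε * L ^ (-(ρ / 3)) ≤ 1 ∧
      (ε * L ^ (-(ρ / 3))) * L = ε * L ^ (1 - ρ / 3) ∧
      (ε * L ^ (-(ρ / 3))) ^ 3 * L = ε ^ 3 * L ^ (1 - ρ) := by
  have hL0 : 0 < L := by linarith
  refine ⟨by positivity, ?_, ?_, ?_⟩
  · have h1 : L ^ (-(ρ / 3)) ≤ 1 := Real.rpow_le_one_of_one_le_of_nonpos hL (by linarith)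
    have h2 : 0 < L ^ (-(ρ / 3)) := by positivity
    nlinarith
  · rw [mul_assoc, ← Real.rpow_add_one hL0.ne']
    congr 2
    ring
  · rw [mul_pow, ← Real.rpow_natCast (L ^ (-(ρ / 3))) 3, ← Real.rpow_mul hL0.le, mul_assoc,
      ← Real.rpow_add_one hL0.ne']
    congr 2
    push_cast
    ring

/-- LEAF HFinB (see `GFinB.lean`). Let `κ3 = (κ' + κ)/2`, `κ2 = κ'`, `κ1 = κ3`; `crudeB` gives `CB κ1 C`, then `dipH`, `peakH` (take
the smaller `c`), `defiH` with `κ3` (drop the `NC` term, `NC_nonneg`) and `ε1 = c ε³/100`, `ε ≤ 1` without loss. `T = X/H`, `L = log T`,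
`q = L - c0`, `c0 > 0`. Deficit: if `VV/H < q - ε L^(1-ρ/3)` put `η = ε L^(-ρ/3)` (`≥ 1/L`): `VV ≤ (1 - η) H L`, and for
`u ∈ [log X - c η², log X]` (`≥ L` as `H ≥ 2`, `c ≤ 1/2`) `q - QQ T u ≥ η L/2 - c0 ≥ η L/4`, so
`∫_L^(L^(1+κ3)) |q - QQ| ≥ (c/4) ε³ L^(1-ρ)`: contradiction. Excess: if `VV/H > q + ε L^(1-ρ/3)`, then `VV ≥ (1 + η/2) H L` for
large `L`, and `QQ T u - q ≥ η L/4` for `u ∈ [log X, log X + c η²/4]`: `∫ ≥ (c/16) ε³ L^(1-ρ)`. -/
theorem finBH {κ ρ κ' : ℝ} (hρ : 0 ≤ ρ) (hρ1 : ρ < 1) (h1 : 1 + ρ < 2 * κ') (h2 : κ' < κ) (h : PUu κ ρ) :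
    ∀ ε : ℝ, 0 < ε → ∃ L0 : ℝ, ∀ X H : ℝ, 2 ≤ H → H ≤ X → L0 ≤ Real.log (X / H) →
      Real.log X ≤ Real.log (X / H) ^ (1 + κ') →
      |VV X H - H * (Real.log (X / H) - c0)| ≤ ε * H * Real.log (X / H) ^ (1 - ρ / 3) := by
  intro ε0 hε0
  obtain ⟨κ3, hκ3⟩ : ∃ κ3 : ℝ, κ3 = (κ' + κ) / 2 := ⟨_, rfl⟩
  have hκ'0 : 0 < κ' := by linarith
  have h31 : κ' < κ3 := by rw [hκ3]; linarith
  have h32 : κ3 < κ := by rw [hκ3]; linarith
  obtain ⟨C, hC, hCB⟩ := crudeB (κ1 := κ3) hρ (by linarith) h32 h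
  obtain ⟨cd, Kd, hcd, hcd2, hDip⟩ := dipH hκ'0 h31 hC hCB
  obtain ⟨cp, Kp, hcp, hcp2, hPk⟩ := peakH hκ'0 h31 hC hCB
  obtain ⟨c1, hc1, hD⟩ := defiH (κ' := κ3) hρ hρ1 (by linarith) h32 h
  have hc0 := HFinB_c0
  obtain ⟨ε, hε⟩ : ∃ ε : ℝ, ε = min ε0 1 := ⟨_, rfl⟩
  have hεpos : 0 < ε := by rw [hε]; exact lt_min hε0 one_pos
  have hε1 : ε ≤ 1 := by rw [hε]; exact min_le_right _ _
  have hε2 : ε ≤ ε0 := by rw [hε]; exact min_le_left _ _
  obtain ⟨c, hc⟩ : ∃ c : ℝ, c = min cd cp := ⟨_, rfl⟩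
  have hcpos : 0 < c := by rw [hc]; exact lt_min hcd hcp
  have hccd : c ≤ cd := by rw [hc]; exact min_le_left _ _
  have hccp : c ≤ cp := by rw [hc]; exact min_le_right _ _
  obtain ⟨T0, hT0⟩ := eventually_atTop.1 (hD (c * ε ^ 3 / 100) (by positivity))
  have hev1 : ∀ᶠ L : ℝ in atTop, max 2 (4 * c0) ≤ ε * L ^ (1 - ρ / 3) :=
    ((tendsto_rpow_atTop (by linarith : 0 < 1 - ρ / 3)).const_mul_atTop hεpos).eventually_ge_atTop _
  have hev2 : ∀ᶠ L : ℝ in atTop, 2 ≤ L ^ (κ3 - κ') :=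
    (tendsto_rpow_atTop (by linarith)).eventually_ge_atTop _
  obtain ⟨L1, hL1⟩ := eventually_atTop.1 (hev1.and hev2)
  refine ⟨max (max 1 L1) (max (max Kd Kp) (Real.log (max T0 2))), fun X H hH hHX hLL hyM => ?_⟩
  have hH0 : 0 < H := by linarith
  have hX0 : 0 < X := by linarith
  obtain ⟨y, hy⟩ : ∃ y : ℝ, y = Real.log X := ⟨_, rfl⟩
  obtain ⟨T, hT⟩ : ∃ T : ℝ, T = X / H := ⟨_, rfl⟩
  have hTpos : 0 < T := by rw [hT]; positivity
  rw [← hT] at hLL hyM ⊢
  have hDip' := hDip X H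
  have hPk' := hPk X H
  rw [← hT] at hDip' hPk'
  rw [← hy] at hyM hDip' hPk'
  have hLH : Real.log T = y - Real.log H := by
    rw [hT, Real.log_div hX0.ne' hH0.ne', hy]
  obtain ⟨L, hL⟩ : ∃ L : ℝ, L = Real.log T := ⟨_, rfl⟩
  have hdef := hT0 T
  have hT1 : Real.log (max T0 2) ≤ Real.log T → max T0 2 ≤ T := by
    have h0 : (0 : ℝ) < max T0 2 := lt_of_lt_of_le two_pos (le_max_right _ _)
    exact (Real.log_le_log_iff h0 hTpos).1
  rw [← hL] at hLL hyM hLH hdef hDip' hPk' hT1 ⊢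
  have hLg1 : 1 ≤ L := (le_max_left _ _).trans ((le_max_left _ _).trans hLL)
  have hLg2 : L1 ≤ L := (le_max_right _ _).trans ((le_max_left _ _).trans hLL)
  have hLg3 : Kd ≤ L := (le_max_left _ _).trans ((le_max_left _ _).trans ((le_max_right _ _).trans hLL))
  have hLg4 : Kp ≤ L := (le_max_right _ _).trans ((le_max_left _ _).trans ((le_max_right _ _).trans hLL))
  have hLg5 : Real.log (max T0 2) ≤ L := (le_max_right _ _).trans ((le_max_right _ _).trans hLL)
  have hTm := hT1 hLg5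
  have hT2 : 2 ≤ T := (le_max_right _ _).trans hTm
  have hTT : T0 ≤ T := (le_max_left _ _).trans hTm
  have hL0 : 0 < L := by linarith
  obtain ⟨hb1, hb2⟩ := hL1 L hLg2
  have hb3 : 2 ≤ ε * L ^ (1 - ρ / 3) := (le_max_left _ _).trans hb1
  have hb4 : 4 * c0 ≤ ε * L ^ (1 - ρ / 3) := (le_max_right _ _).trans hb1
  have hlogH : 1 / 2 ≤ Real.log H := by
    have h1 : Real.log 2 ≤ Real.log H := Real.log_le_log (by norm_num) hH
    have h2 := Real.log_two_gt_d9
    linarith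
  have hdef2 := hdef hTT
  have hNC : 0 ≤ c1 * (L ^ (1 + κ3) / T) * NC T (1 / L ^ (1 + κ3)) := by
    have h1 : 0 < L ^ (1 + κ3) := Real.rpow_pos_of_pos hL0 _
    exact mul_nonneg (by positivity) (NC_nonneg (by positivity))
  have hpow : L ^ (1 + κ') + 1 ≤ L ^ (1 + κ3) := by
    have e1 : L ^ (1 + κ3) = L ^ (1 + κ') * L ^ (κ3 - κ') := by
      rw [← Real.rpow_add hL0]
      congr 1
      ring
    have e2 : 1 ≤ L ^ (1 + κ') := Real.one_le_rpow hLg1 (by linarith)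
    have e3 : L ^ (1 + κ') * 2 ≤ L ^ (1 + κ') * L ^ (κ3 - κ') := by gcongr
    rw [e1]
    linarith
  obtain ⟨hη0, hη1, hηL, hη3⟩ := HFinB_eta (ρ := ρ) hLg1 hρ hεpos hε1
  obtain ⟨η, hη⟩ : ∃ η : ℝ, η = ε * L ^ (-(ρ / 3)) := ⟨_, rfl⟩
  rw [← hη] at hη0 hη1 hηL hη3
  rw [← hηL] at hb3 hb4
  have hηsq : η ^ 2 ≤ 1 := pow_le_one₀ hη0.le hη1
  have hηsq0 : 0 < η ^ 2 := by positivity
  have hP : 0 < L ^ (1 - ρ) := by positivity
  have hcε : 0 < c * (ε ^ 3 * L ^ (1 - ρ)) := by positivity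
  have hcsq0 : 0 < c * η ^ 2 := by positivity
  have hcsq : c * η ^ 2 ≤ 1 / 2 := by
    have f1 : c * η ^ 2 ≤ c * 1 := by gcongr
    linarith
  have hHc : 0 < H * c0 := mul_pos hH0 hc0
  have hHx : H * (L - c0) = H * L - H * c0 := by ring
  have hdef3 : ∫ u in L..(L ^ (1 + κ3)), |L - c0 - QQ T u| ≤ c * (ε ^ 3 * L ^ (1 - ρ)) / 100 := by
    have e1 : c * ε ^ 3 / 100 * L ^ (1 - ρ) = c * (ε ^ 3 * L ^ (1 - ρ)) / 100 := by ring
    rw [e1] at hdef2
    linarith
  have hexp : ∀ s : ℝ, X * Real.exp s = Real.exp (y + s) := by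
    intro s
    rw [Real.exp_add, hy, Real.exp_log hX0]
  have hexpH : ∀ s : ℝ, H * Real.exp s = Real.exp (y + s) / T := by
    intro s
    rw [← hexp, hT]
    field_simp
  -- the lower side
  have hlow : H * (L - c0) - VV X H ≤ η * L * H := by
    by_contra hcon
    push Not at hcon
    have hV : VV X H ≤ (1 - η) * (H * L) := by
      have f1 : (1 - η) * (H * L) = H * L - η * L * H := by ring
      rw [f1]
      linarith
    have hiL : 1 / L ≤ η := by
      rw [div_le_iff₀ hL0]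
      linarith
    have hdip := hDip' η
    have hint := HFinB_int (T := T) (L := L) (M := L ^ (1 + κ3)) (a := y - c * η ^ 2) (b := y)
      (m := η * L / 4) (q := L - c0) hT2 (by linarith)
      (by linarith) (by linarith) (by
        intro u hu1 hu2
        have g1 := hdip (y - u) (by linarith) hHX hLg3 hyM hiL hη1 hV (by linarith) (by
          have : c * η ^ 2 ≤ cd * η ^ 2 := by gcongr
          linarith)
        have g2 := hexp (-(y - u))
        have g3 := hexpH (-(y - u))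
        rw [show y + -(y - u) = u by ring] at g2 g3
        rw [g2, g3] at g1
        have h4 : QQ T u ≤ (1 - η / 2) * L := by
          unfold QQ
          rw [div_le_iff₀ (by positivity)]
          linarith
        refine le_trans ?_ (le_abs_self _)
        have f1 : (1 - η / 2) * L = L - η * L / 2 := by ring
        rw [f1] at h4
        linarith)
    have e1 : (y - (y - c * η ^ 2)) * (η * L / 4) = c * (η ^ 3 * L) / 4 := by ring
    rw [e1, hη3] at hint
    linarith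
  -- the upper side
  have hup : VV X H - H * (L - c0) ≤ η * L * H := by
    by_contra hcon
    push Not at hcon
    have hV : (1 + η / 2) * (H * L) ≤ VV X H := by
      have f1 : H * (4 * c0) ≤ H * (η * L) := by gcongr
      have f2 : (1 + η / 2) * (H * L) = H * L + H * (η * L) / 2 := by ring
      have f3 : η * L * H = H * (η * L) := by ring
      have f4 : H * (4 * c0) = 4 * (H * c0) := by ring
      rw [f4] at f1
      rw [f3] at hcon
      rw [f2]
      linarith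
    have hiL : 1 / L ≤ η / 2 := by
      rw [div_le_iff₀ hL0]
      linarith
    have hpk := hPk' (η / 2)
    have hcη0 : c * (η / 2) ^ 2 = c * η ^ 2 / 4 := by ring
    have hcη : c * (η / 2) ^ 2 ≤ 1 / 2 := by linarith
    have hint := HFinB_int (T := T) (L := L) (M := L ^ (1 + κ3)) (a := y) (b := y + c * (η / 2) ^ 2)
      (m := η * L / 4) (q := L - c0) hT2 (by linarith)
      (by linarith) (by linarith) (by
        intro u hu1 hu2
        have g1 := hpk (u - y) (by linarith) hHX hLg4 hyM hiL (by linarith) hV (by linarith) (by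
          have : c * (η / 2) ^ 2 ≤ cp * (η / 2) ^ 2 := by gcongr
          linarith)
        have g2 := hexp (u - y)
        have g3 := hexpH (u - y)
        rw [show y + (u - y) = u by ring] at g2 g3
        rw [g2, g3] at g1
        have h4 : (1 + η / 2 / 2) * L ≤ QQ T u := by
          unfold QQ
          rw [le_div_iff₀ (by positivity)]
          linarith
        refine le_trans ?_ (neg_le_abs _)
        have f1 : (1 + η / 2 / 2) * L = L + η * L / 4 := by ring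
        rw [f1] at h4
        linarith)
    have e1 : (y + c * (η / 2) ^ 2 - y) * (η * L / 4) = c * (η ^ 3 * L) / 16 := by ring
    rw [e1, hη3] at hint
    linarith
  have hfin : η * L * H ≤ ε0 * H * L ^ (1 - ρ / 3) := by
    rw [hηL]
    have : ε * L ^ (1 - ρ / 3) * H ≤ ε0 * L ^ (1 - ρ / 3) * H := by gcongr
    linarith
  rw [abs_le]
  constructor
  · linarith
  · linarith

end Pool.Agent.Lib.MP_2a816b_nt.TA
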