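import Pool.Agent.Lib.MP_2a816b_nt.TA.HDefi
import Pool.Agent.Lib.MP_2a816b_nt.TA.HCv

open Complex Set Filter Topology MeasureTheory

namespace Pool.Agent.Lib.MP_2a816b_nt.TA

open Pool.Agent.Lib.MP_00e05b_nt Pool.Agent.Lib.MP_00e05b_nt.Mont Pool.Agent.Lib.MP_2a816b_nt.PV

/-- LEAF HFinD (a): from `defiH` (the integral is `≥ 0`): `NC ≤ (ε/c) T L^(1-ρ)/L^(1+κ')` (see `GFinD.lean`). -/
theorem finDH {κ ρ κ' : ℝ} (hρ : 0 ≤ ρ) (hρ1 : ρ < 1) (h1 : 1 + ρ < 2 * κ') (h2 : κ' < κ) (h : PUu κ ρ) :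
    ∀ ε : ℝ, 0 < ε → ∀ᶠ T : ℝ in atTop, NC T (Real.log T ^ (-(1 + κ'))) ≤ ε * T * Real.log T ^ (-(κ' + ρ)) := by
  obtain ⟨c, hc, hK⟩ := defiH hρ hρ1 h1 h2 h
  intro ε hε
  filter_upwards [hK (ε * c) (mul_pos hε hc), Real.tendsto_log_atTop.eventually_ge_atTop 1,
    eventually_gt_atTop (0 : ℝ)] with T h3 hL hT
  have hL0 : 0 < Real.log T := by linarith
  set L := Real.log T with hLdef
  set M := L ^ (1 + κ') with hMdef
  have hM0 : 0 < M := Real.rpow_pos_of_pos hL0 _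
  have hLM : L ≤ M := by
    have := Real.rpow_le_rpow_of_exponent_le hL (by linarith : (1 : ℝ) ≤ 1 + κ')
    rwa [Real.rpow_one] at this
  have hnn : 0 ≤ ∫ u in L..M, |L - c0 - QQ T u| :=
    intervalIntegral.integral_nonneg hLM fun u _ => abs_nonneg _
  have h4 : c * (M / T) * NC T (1 / M) ≤ ε * c * L ^ (1 - ρ) := by linarith
  have e1 : L ^ (-(1 + κ')) = 1 / M := by
    rw [Real.rpow_neg hL0.le, hMdef, one_div]
  have e2 : L ^ (1 - ρ) = L ^ (-(κ' + ρ)) * M := by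
    rw [hMdef, ← Real.rpow_add hL0]
    congr 1
    ring
  rw [e1]
  rw [e2] at h4
  have h5 : NC T (1 / M) = (c * (M / T) * NC T (1 / M)) * (T / (c * M)) := by
    field_simp
  rw [h5]
  have h6 := mul_le_mul_of_nonneg_right h4 (by positivity : 0 ≤ T / (c * M))
  refine h6.trans (le_of_eq ?_)
  field_simp

/-- the number of close pairs is at least the number of the diagonal pairs -/
private theorem HFinD_NC {T d : ℝ} (hd : 0 ≤ d) : 0 ≤ NC T d := by
  unfold NC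
  rw [sub_nonneg]
  refine Finset.sum_le_sum fun x hx => ?_
  have h0 : ∀ y ∈ ordinates T, (0 : ℝ) ≤ if |x - y| ≤ d then (mult x : ℝ) * (mult y : ℝ) else 0 := by
    intro y _
    split_ifs
    · positivity
    · exact le_rfl
  have h1 := Finset.single_le_sum h0 hx
  rw [if_pos (by simpa using hd)] at h1
  refine le_trans ?_ h1
  rcases Nat.eq_zero_or_pos (mult x) with h2 | h2
  · rw [h2]
    simp
  · have : (1 : ℝ) ≤ (mult x : ℝ) := by exact_mod_cast h2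
    nlinarith

/-- LEAF HFinD (b): from `defiH` (drop the `NC` term, `NC_nonneg`) and `L1_back`. -/
theorem finCH {κ ρ κ' : ℝ} (hρ : 0 ≤ ρ) (hρ1 : ρ < 1) (h1 : 1 + ρ < 2 * κ') (h2 : κ' < κ) (h : PUu κ ρ) :
    Tendsto (fun T : ℝ => Real.log T ^ ρ * ∫ a in (1 : ℝ)..(Real.log T ^ κ'), |EE a T|) atTop (𝓝 0) := by
  obtain ⟨c, hc, hK⟩ := defiH hρ hρ1 h1 h2 h
  refine L1_back (by linarith) fun ε hε => ?_
  filter_upwards [hK ε hε, Real.tendsto_log_atTop.eventually_ge_atTop 1, eventually_gt_atTop (0 : ℝ)]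
    with T h3 hL hT
  have hL0 : 0 < Real.log T := by linarith
  have hM0 : 0 < Real.log T ^ (1 + κ') := Real.rpow_pos_of_pos hL0 _
  have h4 : 0 ≤ c * (Real.log T ^ (1 + κ') / T) * NC T (1 / Real.log T ^ (1 + κ')) :=
    mul_nonneg (by positivity) (HFinD_NC (by positivity))
  linarith

end Pool.Agent.Lib.MP_2a816b_nt.TA
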