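import Pool.Agent.Lib.MP_2a816b_nt.TA.HFal
import Pool.Agent.Lib.MP_2a816b_nt.TA.GAsm3
import Pool.Agent.Lib.MP_2a816b_nt.TA.EXB

open Complex Set Filter Topology MeasureTheory

namespace Pool.Agent.Lib.MP_2a816b_nt.TA

open Pool.Agent.Lib.MP_00e05b_nt Pool.Agent.Lib.MP_00e05b_nt.Mont Pool.Agent.Lib.MP_2a816b_nt.PV

/-- The lower half, no hypothesis (assembled). -/
theorem masterU : ∃ C T0 : ℝ, 0 ≤ C ∧ ∀ T : ℝ, T0 ≤ T → ∀ M : ℝ, 2 * Real.log T ≤ M → M ≤ T ^ (1 / 8 : ℝ) →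
    (∫ u in Ioi (Real.log T), Kg M u * (Real.log T - c0 - QQ T u)) ≤
      Real.log T ^ 4 / (6 * M ^ 2) + C * (1 + Real.log T ^ 2 / M) := by
  by_cases hRH : RiemannHypothesis
  · obtain ⟨C, c, T0, hC, hc, h⟩ := masterG hRH
    refine ⟨C, max T0 1, hC, fun T hT M h1 h2 => ?_⟩
    have hT1 : 1 ≤ T := (le_max_right _ _).trans hT
    by_cases hM : 0 < M
    · have h3 := h T ((le_max_left _ _).trans hT) M h1 h2
      have h4 : 0 ≤ c * (M / T) * NC T (1 / M) := mul_nonneg (by positivity) (NC_nonneg (by positivity))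
      linarith
    · have h5 : 0 ≤ Real.log T := Real.log_nonneg hT1
      have h6 : M = 0 := by linarith
      have h3 := h T ((le_max_left _ _).trans hT) M h1 h2
      rw [h6] at h3 ⊢
      simp only [zero_div, mul_zero, zero_mul, add_zero] at h3
      exact h3
  · obtain ⟨T0, h⟩ := masterF hRH
    refine ⟨0, max T0 1, le_rfl, fun T hT M h1 h2 => (h T ((le_max_left _ _).trans hT) M h1 h2).trans ?_⟩
    rw [zero_mul, add_zero]
    positivity

/-- LEAF HGa. Substitute `u = a L` (`integral_comp_mul_right_Ioi` or similar), `M = A L`: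
`∫_(a>1) e^(-a²/(2A²)) EE a T da = (1/L) ∫_(u>L) Kg (A L) u (QQ T u - (L - c0)) du ≥ -(1/L) (L²/(6A²) + C (1 + L/A))`;
`A L ≤ T^(1/9) L ≤ T^(1/8)` for large `T`. (`T^a = e^(aL)`, `T^(a-1) = e^(aL)/T`.) -/
theorem gaussU : ∃ C T0 : ℝ, ∀ T : ℝ, T0 ≤ T → ∀ A : ℝ, 2 ≤ A → A ≤ T ^ (1 / 9 : ℝ) →
    -(Real.log T / (6 * A ^ 2)) - C * (1 / Real.log T + 1 / A) ≤
      ∫ a in Ioi (1 : ℝ), Real.exp (-(a ^ 2 / (2 * A ^ 2))) * EE a T := by
  obtain ⟨C, T0, hC, h⟩ := masterU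
  have hev : ∀ᶠ T : ℝ in atTop, Real.log T ≤ T ^ (1 / 72 : ℝ) := by
    have h1 := (isLittleO_log_rpow_atTop (show (0 : ℝ) < 1 / 72 by norm_num)).def (show (0 : ℝ) < 1 by norm_num)
    filter_upwards [h1, eventually_ge_atTop (1 : ℝ)] with T h2 h3
    rw [one_mul, Real.norm_eq_abs, Real.norm_eq_abs, abs_of_nonneg (Real.log_nonneg h3),
      abs_of_nonneg (by positivity)] at h2
    exact h2
  obtain ⟨T1, hT1⟩ := eventually_atTop.1 hev
  refine ⟨C, max (max T0 T1) 3, fun T hT A hA1 hA2 => ?_⟩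
  have hTa : T0 ≤ T := (le_max_left _ _).trans ((le_max_left _ _).trans hT)
  have hTb : T1 ≤ T := (le_max_right _ _).trans ((le_max_left _ _).trans hT)
  have hT3 : 3 ≤ T := (le_max_right _ _).trans hT
  have hT0 : 0 < T := by linarith
  have hL72 := hT1 T hTb
  set L := Real.log T with hL
  have hL0 : 0 < L := Real.log_pos (by linarith)
  have hA0 : 0 < A := by linarith
  have hM1 : 2 * L ≤ A * L := mul_le_mul_of_nonneg_right hA1 hL0.le
  have hM2 : A * L ≤ T ^ (1 / 8 : ℝ) := by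
    calc A * L ≤ T ^ (1 / 9 : ℝ) * T ^ (1 / 72 : ℝ) := mul_le_mul hA2 hL72 hL0.le (by positivity)
      _ = T ^ (1 / 8 : ℝ) := by
        rw [← Real.rpow_add hT0]
        norm_num
  have hm := h T hTa (A * L) hM1 hM2
  rw [← hL] at hm
  set J := ∫ u in Ioi L, Kg (A * L) u * (L - c0 - QQ T u) with hJ
  have hmain : (∫ a in Ioi (1 : ℝ), Real.exp (-(a ^ 2 / (2 * A ^ 2))) * EE a T) = -(L⁻¹ * J) := by
    have e1 := integral_comp_mul_right_Ioi (fun u => Kg (A * L) u * (QQ T u - (L - c0))) 1 hL0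
    have e2 : (∫ u in Ioi L, Kg (A * L) u * (QQ T u - (L - c0))) = -J := by
      rw [hJ, ← integral_neg]
      refine integral_congr_ae (Eventually.of_forall fun u => ?_)
      show Kg (A * L) u * (QQ T u - (L - c0)) = -(Kg (A * L) u * (L - c0 - QQ T u))
      ring
    rw [one_mul, e2, smul_eq_mul] at e1
    rw [show -(L⁻¹ * J) = L⁻¹ * -J by ring, ← e1]
    refine integral_congr_ae (Eventually.of_forall fun a => ?_)
    show Real.exp (-(a ^ 2 / (2 * A ^ 2))) * EE a T = Kg (A * L) (a * L) * (QQ T (a * L) - (L - c0))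
    have h1 : T ^ a = Real.exp (a * L) := by
      rw [Real.rpow_def_of_pos hT0, mul_comm]
    have h2 : T ^ (a - 1) = Real.exp (a * L) / T := by
      rw [Real.rpow_sub_one hT0.ne', h1]
    have h3 : Kg (A * L) (a * L) = Real.exp (-(a ^ 2 / (2 * A ^ 2))) := by
      unfold Kg
      congr 2
      field_simp
    rw [h3]
    unfold EE QQ c0
    rw [h1, h2, ← hL]
  rw [hmain]
  have h5 := mul_le_mul_of_nonneg_left hm (inv_nonneg.2 hL0.le)
  have h6 : L⁻¹ * (L ^ 4 / (6 * (A * L) ^ 2) + C * (1 + L ^ 2 / (A * L))) =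
      L / (6 * A ^ 2) + C * (1 / L + 1 / A) := by
    field_simp
  rw [h6] at h5
  linarith

end Pool.Agent.Lib.MP_2a816b_nt.TA
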