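import Pool.Agent.Lib.MP_2a816b_nt.TA.HDefs
import Pool.Agent.Lib.MP_2a816b_nt.TA.XV
import Pool.Agent.Lib.MP_2a816b_nt.TA.GStW

open Complex Set Filter Topology MeasureTheory

namespace Pool.Agent.Lib.MP_2a816b_nt.TA

open Pool.Agent.Lib.MP_00e05b_nt Pool.Agent.Lib.MP_00e05b_nt.Mont Pool.Agent.Lib.MP_2a816b_nt.PV

/-- crude bound of the sum over a window -/
private theorem HInt_psi {X x H : ℝ} (hX : 1 ≤ X) (hH : 0 ≤ H) (h1 : H ≤ x) (h2 : x ≤ X) :
    0 ≤ psiWindow x H ∧ psiWindow x H ≤ 4 * X ^ 2 := by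
  unfold psiWindow
  refine ⟨Finset.sum_nonneg fun n _ => ArithmeticFunction.vonMangoldt_nonneg, ?_⟩
  have hN : ((⌊x + H / 2⌋₊ : ℕ) : ℝ) ≤ 2 * X :=
    (Nat.floor_le (by linarith)).trans (by linarith)
  calc ∑ n ∈ (Finset.Icc 1 ⌊x + H / 2⌋₊).filter (fun n : ℕ => x - H / 2 ≤ (n : ℝ)),
        ArithmeticFunction.vonMangoldt n
      ≤ ∑ n ∈ Finset.Icc 1 ⌊x + H / 2⌋₊, ArithmeticFunction.vonMangoldt n :=
        Finset.sum_le_sum_of_subset_of_nonneg (Finset.filter_subset _ _)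
          fun n _ _ => ArithmeticFunction.vonMangoldt_nonneg
    _ ≤ ∑ _n ∈ Finset.Icc 1 ⌊x + H / 2⌋₊, (2 * X) := by
        refine Finset.sum_le_sum fun n hn => ?_
        rw [Finset.mem_Icc] at hn
        have hn1 : (1 : ℝ) ≤ n := by exact_mod_cast hn.1
        have hn2 : (n : ℝ) ≤ (⌊x + H / 2⌋₊ : ℕ) := by exact_mod_cast hn.2
        have h3 : ArithmeticFunction.vonMangoldt n ≤ Real.log n :=
          ArithmeticFunction.vonMangoldt_le_log
        have h4 : Real.log n ≤ n := (Real.log_le_sub_one_of_pos (by linarith)).trans (by linarith)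
        linarith
    _ = (⌊x + H / 2⌋₊ : ℕ) * (2 * X) := by
        rw [Finset.sum_const, Nat.card_Icc, nsmul_eq_mul, Nat.add_sub_cancel]
    _ ≤ (2 * X) * (2 * X) := mul_le_mul_of_nonneg_right hN (by linarith)
    _ = 4 * X ^ 2 := by ring

/-- crude bound of the mean square -/
private theorem HInt_VV {X H : ℝ} (hX : 1 ≤ X) (hH : 0 ≤ H) (hHX : H ≤ X) :
    VV X H ≤ 16 * X ^ 4 := by
  have h1 : ‖∫ x in H..X, (psiWindow x H - H) ^ 2‖ ≤ 16 * X ^ 4 * |X - H| := by
    refine intervalIntegral.norm_integral_le_of_norm_le_const fun x hx => ?_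
    rw [uIoc_of_le hHX] at hx
    obtain ⟨h2, h3⟩ := HInt_psi hX hH hx.1.le hx.2
    rw [Real.norm_eq_abs, abs_of_nonneg (sq_nonneg _)]
    have h4 : H ≤ 4 * X ^ 2 := by nlinarith
    have h5 : |psiWindow x H - H| ≤ 4 * X ^ 2 := by
      rw [abs_le]
      constructor <;> linarith
    have h6 := pow_le_pow_left₀ (abs_nonneg _) h5 2
    rw [sq_abs] at h6
    calc (psiWindow x H - H) ^ 2 ≤ (4 * X ^ 2) ^ 2 := h6
      _ = 16 * X ^ 4 := by ring
  rw [abs_of_nonneg (by linarith)] at h1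
  have h2 : ∫ x in H..X, (psiWindow x H - H) ^ 2 ≤ 16 * X ^ 4 * X := by
    refine (le_abs_self _).trans (h1.trans ?_)
    exact mul_le_mul_of_nonneg_left (by linarith) (by positivity)
  have hX0 : 0 < X := by linarith
  unfold VV
  rw [one_div, inv_mul_le_iff₀ hX0]
  linarith

private theorem HInt_QQ {T u : ℝ} (hT : 2 ≤ T) (hu : 0 ≤ u) :
    QQ T u ≤ 16 * T * Real.exp (3 * u) := by
  have hT0 : 0 < T := by linarith
  have he : 0 < Real.exp u := Real.exp_pos u
  have h1 : 1 ≤ Real.exp u := Real.one_le_exp hu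
  have h2 : Real.exp u / T ≤ Real.exp u := div_le_self he.le (by linarith)
  have h3 := HInt_VV h1 (by positivity : 0 ≤ Real.exp u / T) h2
  unfold QQ
  rw [div_le_iff₀ (by positivity)]
  refine h3.trans (le_of_eq ?_)
  have h4 : Real.exp (3 * u) = Real.exp u ^ 3 := by
    rw [← Real.exp_nat_mul]
    norm_num
  rw [h4]
  field_simp

private theorem HInt_meas {T a : ℝ} (hT : 2 ≤ T) :
    AEStronglyMeasurable (QQ T) (volume.restrict (Ioi a)) := by
  have h1 : Ioi a = ⋃ n : ℕ, Ioc a (a + n) := by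
    ext x
    rw [mem_iUnion]
    constructor
    · intro hx
      obtain ⟨n, hn⟩ := exists_nat_gt (x - a)
      exact ⟨n, hx, by linarith⟩
    · rintro ⟨n, hn⟩
      exact hn.1
  rw [h1]
  exact aestronglyMeasurable_iUnion_iff.2 fun n => (QQ_ii hT a (a + n)).1.aestronglyMeasurable

/-- The Gaussian weight times `QQ T` is integrable (no Riemann hypothesis). -/
theorem KQ_intU {T M a : ℝ} (hT : 2 ≤ T) (hM : 1 ≤ M) (ha : 0 ≤ a) : IntegrableOn (fun u => Kg M u * QQ T u) (Ioi a) := by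
  have hT0 : 0 < T := by linarith
  have hM0 : 0 < M := by linarith
  have hb : (0 : ℝ) < 1 / (4 * M ^ 2) := by positivity
  have hg : Integrable (fun u : ℝ => 16 * T * Real.exp (9 * M ^ 2) *
      Real.exp (-(1 / (4 * M ^ 2)) * u ^ 2)) := (integrable_exp_neg_mul_sq hb).const_mul _
  refine Integrable.mono' hg.integrableOn
    ((GStW_Kg_cont M).aestronglyMeasurable.mul (HInt_meas hT)) ?_
  refine (ae_restrict_iff' measurableSet_Ioi).2 (Filter.Eventually.of_forall fun u hu => ?_)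
  have hu0 : 0 ≤ u := ha.trans (le_of_lt hu)
  have hK := GStW_Kg_nonneg M u
  rw [Real.norm_eq_abs, abs_of_nonneg (mul_nonneg hK (QQ_nonneg hT u))]
  have h1 := mul_le_mul_of_nonneg_left (HInt_QQ hT hu0) hK
  refine h1.trans ?_
  have h2 : Kg M u * Real.exp (3 * u) ≤
      Real.exp (9 * M ^ 2) * Real.exp (-(1 / (4 * M ^ 2)) * u ^ 2) := by
    unfold Kg
    rw [← Real.exp_add, ← Real.exp_add, Real.exp_le_exp]
    have h3 : 0 ≤ (u / (2 * M) - 3 * M) ^ 2 := sq_nonneg _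
    have h4 : (u / (2 * M) - 3 * M) ^ 2 = u ^ 2 / (4 * M ^ 2) - 3 * u + 9 * M ^ 2 := by
      field_simp
      ring
    rw [h4] at h3
    have h5 : -(u ^ 2 / (2 * M ^ 2)) = -(1 / (4 * M ^ 2)) * u ^ 2 - u ^ 2 / (4 * M ^ 2) := by
      field_simp
      ring
    rw [h5]
    linarith
  calc Kg M u * (16 * T * Real.exp (3 * u)) = 16 * T * (Kg M u * Real.exp (3 * u)) := by ring
    _ ≤ 16 * T * (Real.exp (9 * M ^ 2) * Real.exp (-(1 / (4 * M ^ 2)) * u ^ 2)) :=
        mul_le_mul_of_nonneg_left h2 (by positivity)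
    _ = _ := by ring

end Pool.Agent.Lib.MP_2a816b_nt.TA
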