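import Pool.Agent.Lib.MP_2a816b_nt.TA.HDefs
import Pool.Agent.Lib.MP_2a816b_nt.TA.StW

open Complex Set Filter Topology MeasureTheory

namespace Pool.Agent.Lib.MP_2a816b_nt.TA

open Pool.Agent.Lib.MP_00e05b_nt Pool.Agent.Lib.MP_00e05b_nt.Mont Pool.Agent.Lib.MP_2a816b_nt.PV

private theorem HRHu_max_ii {T : ℝ} (hT : 2 ≤ T) (c a b : ℝ) :
    IntervalIntegrable (fun u => max (QQ T u - c) 0) volume a b := by
  have h : IntervalIntegrable (fun u => QQ T u - c) volume a b :=
    (QQ_ii hT a b).sub intervalIntegrable_const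
  exact ⟨h.1.pos_part, h.2.pos_part⟩

private theorem HRHu_c0 : 0 ≤ c0 := by
  have h6 := Real.one_half_lt_eulerMascheroniConstant
  have h7 : 0 < Real.log (2 * Real.pi) := Real.log_pos (by linarith [Real.pi_gt_three])
  unfold c0
  linarith

/-- `RH_of_one`: `RR α T = QQ T (α L)/L` (`QQ_eq_RR`), so for `1 ≤ a < b ≤ L^κ` the mean of `RR` over `[a, b]` is
`(1/L²) ∫_(aL)^(bL) QQ T u du`. -/
theorem rhuH {κ ρ : ℝ} (hκ : 0 < κ) (hρ : 0 ≤ ρ) (h : PUu κ ρ) : RiemannHypothesis := by
  refine RH_of_one fun a b ha hab ε hε => ?_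
  have h1 : ∀ᶠ T : ℝ in atTop, b ≤ Real.log T ^ κ :=
    ((tendsto_rpow_atTop hκ).comp Real.tendsto_log_atTop).eventually_ge_atTop b
  have h2 : ∀ᶠ T : ℝ in atTop, 1 ≤ Real.log T := Real.tendsto_log_atTop.eventually_ge_atTop _
  filter_upwards [h1, h2, eventually_ge_atTop (2 : ℝ), h ε hε] with T hb hL1 hT hP
  set L := Real.log T with hL
  have hL0 : 0 < L := by linarith
  have hrp : L ^ (1 - ρ) ≤ L := by
    calc L ^ (1 - ρ) ≤ L ^ (1 : ℝ) := Real.rpow_le_rpow_of_exponent_le hL1 (by linarith)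
      _ = L := Real.rpow_one L
  have hbL : b * L ≤ L ^ (1 + κ) := by
    rw [add_comm, Real.rpow_add_one hL0.ne']
    exact mul_le_mul_of_nonneg_right hb hL0.le
  have haL : L ≤ a * L := by nlinarith
  have habL : a * L ≤ b * L := mul_le_mul_of_nonneg_right hab.le hL0.le
  have e1 : ∫ u in (a * L)..(b * L), QQ T u = L * (L * ∫ α in a..b, RR α T) := by
    have e2 : ∀ u, QQ T u = L * RR (u / L) T := fun u => QQ_eq_RR hT u
    have e3 := intervalIntegral.integral_comp_div (a := a * L) (b := b * L) (fun α => RR α T) hL0.ne'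
    rw [mul_div_cancel_right₀ _ hL0.ne', mul_div_cancel_right₀ _ hL0.ne', smul_eq_mul] at e3
    simp only [e2]
    rw [intervalIntegral.integral_const_mul, e3]
  have e4 : ∫ u in (a * L)..(b * L), QQ T u ≤
      ∫ u in (a * L)..(b * L), (L + max (QQ T u - (L - c0)) 0) := by
    refine intervalIntegral.integral_mono_on habL (QQ_ii hT _ _)
      (intervalIntegrable_const.add (HRHu_max_ii hT _ _ _)) fun u _ => ?_
    have h3 := le_max_left (QQ T u - (L - c0)) 0
    have h4 := HRHu_c0
    linarith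
  have e5 : ∫ u in (a * L)..(b * L), (L + max (QQ T u - (L - c0)) 0) =
      (b * L - a * L) * L + ∫ u in (a * L)..(b * L), max (QQ T u - (L - c0)) 0 := by
    rw [intervalIntegral.integral_add intervalIntegrable_const (HRHu_max_ii hT _ _ _),
      intervalIntegral.integral_const, smul_eq_mul]
  have e6 : ∫ u in (a * L)..(b * L), max (QQ T u - (L - c0)) 0 ≤
      ∫ u in L..(L ^ (1 + κ)), max (QQ T u - (L - c0)) 0 :=
    intervalIntegral.integral_mono_interval haL habL hbL
      (Eventually.of_forall fun u => le_max_right _ _) (HRHu_max_ii hT _ _ _)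
  have e7 : L * (L * ∫ α in a..b, RR α T) ≤ (b - a) * L * L + ε * L := by
    have h3 : ε * L ^ (1 - ρ) ≤ ε * L := mul_le_mul_of_nonneg_left hrp hε.le
    have h4 : (b * L - a * L) * L = (b - a) * L * L := by ring
    linarith [e1, e4, e5, e6, hP]
  have e8 : L * ∫ α in a..b, RR α T ≤ (b - a) * L + ε := by
    have h3 : L * (L * ∫ α in a..b, RR α T) ≤ L * ((b - a) * L + ε) := by
      have h4 : L * ((b - a) * L + ε) = (b - a) * L * L + ε * L := by ring
      linarith
    exact le_of_mul_le_mul_left h3 hL0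
  have e9 : L * ∫ α in a..b, RR α T ≤ L * (b - a + ε) := by
    have h3 : ε ≤ L * ε := by nlinarith
    have h4 : L * (b - a + ε) = (b - a) * L + L * ε := by ring
    linarith
  exact le_of_mul_le_mul_left e9 hL0

end Pool.Agent.Lib.MP_2a816b_nt.TA
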