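import Pool.Agent.Lib.MP_2a816b_nt.TA.Defs

open Complex Set Filter Topology MeasureTheory

namespace Pool.Agent.Lib.MP_2a816b_nt.TA

open Pool.Agent.Lib.MP_00e05b_nt Pool.Agent.Lib.MP_00e05b_nt.Mont Pool.Agent.Lib.MP_2a816b_nt.PV

private theorem K1_gam : ∫ y in Ioi (0 : ℝ), y * Real.log y * Real.exp (-y) =
    1 - Real.eulerMascheroniConstant := by
  have h1 := Complex.hasDerivAt_GammaIntegral (s := 2) (by norm_num)
  have h2 : HasDerivAt Complex.Gamma ((1 - Real.eulerMascheroniConstant : ℝ) : ℂ) 2 := by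
    have h := Complex.hasDerivAt_Gamma_nat 1
    have e1 : ((Nat.factorial 1 : ℕ) : ℂ) * (-(Real.eulerMascheroniConstant : ℂ) + ((harmonic 1 : ℚ) : ℂ)) =
        ((1 - Real.eulerMascheroniConstant : ℝ) : ℂ) := by
      have e2 : harmonic 1 = 1 := by
        simp [harmonic]
      rw [e2]
      push_cast
      rw [Nat.factorial_one]
      push_cast
      ring
    have e3 : ((1 : ℕ) : ℂ) + 1 = 2 := by norm_num
    rw [e1, e3] at h
    exact h
  have h3 : Complex.Gamma =ᶠ[𝓝 2] Complex.GammaIntegral := by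
    have h4 : ∀ᶠ s : ℂ in 𝓝 2, 0 < s.re :=
      (continuous_re.isOpen_preimage _ isOpen_Ioi).mem_nhds (by norm_num)
    filter_upwards [h4] with s hs
    exact Complex.Gamma_eq_integral hs
  have h5 := h1.unique (h2.congr_of_eventuallyEq h3.symm)
  have h6 : ∫ t : ℝ in Ioi 0, (t : ℂ) ^ ((2 : ℂ) - 1) * (Real.log t * Real.exp (-t)) =
      ((∫ y in Ioi (0 : ℝ), y * Real.log y * Real.exp (-y) : ℝ) : ℂ) := by
    rw [← integral_complex_ofReal]
    refine setIntegral_congr_fun measurableSet_Ioi fun t _ => ?_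
    have e4 : (2 : ℂ) - 1 = 1 := by norm_num
    rw [e4, Complex.cpow_one]
    push_cast
    ring
  rw [h6] at h5
  exact_mod_cast h5

private theorem K1_one : ∫ y in Ioi (0 : ℝ), y * Real.exp (-y) = 1 := by
  have h := Real.Gamma_eq_integral (s := 2) (by norm_num)
  have e : Real.Gamma 2 = 1 := by
    have h2 := Real.Gamma_nat_eq_factorial 1
    have e3 : ((1 : ℕ) : ℝ) + 1 = 2 := by norm_num
    rw [e3] at h2
    rw [h2, Nat.factorial_one, Nat.cast_one]
  rw [e] at h
  rw [h]
  refine setIntegral_congr_fun measurableSet_Ioi fun t _ => ?_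
  have e4 : (2 : ℝ) - 1 = 1 := by norm_num
  rw [e4, Real.rpow_one, mul_comm]

/-- integrability of `y log y e^(-y)` -/
private theorem K1_int : IntegrableOn (fun y : ℝ => y * Real.log y * Real.exp (-y)) (Ioi 0) := by
  by_contra h
  have h1 := integral_undef h
  have h2 := K1_gam
  rw [h1] at h2
  have h3 := Real.eulerMascheroniConstant_lt_two_thirds
  linarith

private theorem K1_int1 : IntegrableOn (fun y : ℝ => y * Real.exp (-y)) (Ioi 0) := by
  by_contra h
  have h1 := integral_undef h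
  have h2 := K1_one
  rw [h1] at h2
  norm_num at h2

private theorem K1_inv {w : ℝ} (hw : 0 < w) :
    ∫ x in Ioi (0 : ℝ), x * Real.exp (-(x * w)) = 1 / w ^ 2 := by
  have h := integral_comp_mul_left_Ioi (fun y : ℝ => y * Real.exp (-y)) 0 hw
  rw [mul_zero, K1_one, smul_eq_mul, mul_one] at h
  have e : ∫ x in Ioi (0 : ℝ), w * x * Real.exp (-(w * x)) =
      w * ∫ x in Ioi (0 : ℝ), x * Real.exp (-(x * w)) := by
    rw [← integral_const_mul]
    refine setIntegral_congr_fun measurableSet_Ioi fun t _ => ?_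
    change w * t * Real.exp (-(w * t)) = w * (t * Real.exp (-(t * w)))
    rw [mul_comm t w]
    ring
  rw [e] at h
  have hw' := hw.ne'
  rw [eq_div_iff (by positivity)]
  have h2 : w * (w * ∫ x in Ioi (0 : ℝ), x * Real.exp (-(x * w))) = w * w⁻¹ := by rw [h]
  rw [mul_inv_cancel₀ hw'] at h2
  linear_combination h2

private theorem K1_log {w : ℝ} (hw : 0 < w) :
    ∫ x in Ioi (0 : ℝ), x * Real.log x * Real.exp (-(x * w)) =
      (1 - Real.eulerMascheroniConstant - Real.log w) / w ^ 2 := by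
  have h := integral_comp_mul_left_Ioi
    (fun y : ℝ => y * Real.log y * Real.exp (-y) - Real.log w * (y * Real.exp (-y))) 0 hw
  rw [mul_zero] at h
  have e0 : ∫ y in Ioi (0 : ℝ), (y * Real.log y * Real.exp (-y) - Real.log w * (y * Real.exp (-y))) =
      1 - Real.eulerMascheroniConstant - Real.log w := by
    rw [integral_sub K1_int (K1_int1.const_mul _), integral_const_mul, K1_gam, K1_one, mul_one]
  rw [e0, smul_eq_mul] at h
  have e : ∫ x in Ioi (0 : ℝ), (w * x * Real.log (w * x) * Real.exp (-(w * x)) -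
      Real.log w * (w * x * Real.exp (-(w * x)))) =
      w * ∫ x in Ioi (0 : ℝ), x * Real.log x * Real.exp (-(x * w)) := by
    rw [← integral_const_mul]
    refine setIntegral_congr_fun measurableSet_Ioi fun t ht => ?_
    change w * t * Real.log (w * t) * Real.exp (-(w * t)) - Real.log w * (w * t * Real.exp (-(w * t)))
      = w * (t * Real.log t * Real.exp (-(t * w)))
    rw [Real.log_mul hw.ne' (ne_of_gt ht), mul_comm t w]
    ring
  rw [e] at h
  have hw' := hw.ne'
  rw [eq_div_iff (by positivity)]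
  have h2 : w * (w * ∫ x in Ioi (0 : ℝ), x * Real.log x * Real.exp (-(x * w))) =
      w * (w⁻¹ * (1 - Real.eulerMascheroniConstant - Real.log w)) := by rw [h]
  rw [← mul_assoc w w⁻¹, mul_inv_cancel₀ hw', one_mul] at h2
  linear_combination h2

private theorem K1_cos {x : ℝ} (hx : 0 < x) :
    IntegrableOn (fun w : ℝ => (1 - Real.cos w) * Real.exp (-(x * w))) (Ioi 0) ∧
    ∫ w in Ioi (0 : ℝ), (1 - Real.cos w) * Real.exp (-(x * w)) = 1 / (x * (1 + x ^ 2)) := by
  have hx' := hx.ne'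
  have hq : (1 + x ^ 2) ≠ 0 := by positivity
  have hder : ∀ w : ℝ, HasDerivAt (fun w : ℝ => -(Real.exp (-(x * w)) / x) -
      Real.exp (-(x * w)) * (Real.sin w - x * Real.cos w) / (1 + x ^ 2))
      ((1 - Real.cos w) * Real.exp (-(x * w))) w := by
    intro w
    have h1 : HasDerivAt (fun w : ℝ => Real.exp (-(x * w))) (Real.exp (-(x * w)) * (-(x * 1))) w :=
      (((hasDerivAt_id w).const_mul x).neg).exp
    have h2 : HasDerivAt (fun w : ℝ => Real.sin w - x * Real.cos w)
        (Real.cos w - x * -Real.sin w) w :=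
      (Real.hasDerivAt_sin w).sub ((Real.hasDerivAt_cos w).const_mul x)
    have h3 := ((h1.div_const x).neg).sub ((h1.mul h2).div_const (1 + x ^ 2))
    refine h3.congr_deriv ?_
    field_simp
    ring
  have hlim : Tendsto (fun w : ℝ => -(Real.exp (-(x * w)) / x) -
      Real.exp (-(x * w)) * (Real.sin w - x * Real.cos w) / (1 + x ^ 2)) atTop (𝓝 0) := by
    have h1 : Tendsto (fun w : ℝ => Real.exp (-(x * w))) atTop (𝓝 0) :=
      Real.tendsto_exp_neg_atTop_nhds_zero.comp (tendsto_id.const_mul_atTop hx)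
    have h2 : Tendsto (fun w : ℝ => Real.exp (-(x * w)) * (Real.sin w - x * Real.cos w)) atTop (𝓝 0) := by
      refine squeeze_zero_norm (a := fun w : ℝ => Real.exp (-(x * w)) * (1 + x)) (fun w => ?_) ?_
      · rw [norm_mul, Real.norm_eq_abs, Real.norm_eq_abs, Real.abs_exp]
        refine mul_le_mul_of_nonneg_left ?_ (Real.exp_pos _).le
        have h3 := Real.abs_sin_le_one w
        have h4 := Real.abs_cos_le_one w
        have h5 : |Real.sin w - x * Real.cos w| ≤ |Real.sin w| + |x * Real.cos w| := abs_sub _ _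
        rw [abs_mul, abs_of_pos hx] at h5
        nlinarith
      · have h6 := h1.mul_const (1 + x)
        rwa [zero_mul] at h6
    have h7 := ((h1.div_const x).neg).sub (h2.div_const (1 + x ^ 2))
    rw [zero_div, zero_div, neg_zero, sub_zero] at h7
    exact h7
  have hnn : ∀ w ∈ Ioi (0 : ℝ), 0 ≤ (1 - Real.cos w) * Real.exp (-(x * w)) := by
    intro w _
    have := Real.cos_le_one w
    exact mul_nonneg (by linarith) (Real.exp_pos _).le
  refine ⟨integrableOn_Ioi_deriv_of_nonneg' (fun w _ => hder w) hnn hlim, ?_⟩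
  rw [integral_Ioi_of_hasDerivAt_of_nonneg' (fun w _ => hder w) hnn hlim]
  rw [mul_zero, neg_zero, Real.exp_zero, Real.sin_zero, Real.cos_zero]
  field_simp
  ring

private theorem K1_fub {φ : ℝ → ℝ} (hm : Measurable φ)
    (hφ : IntegrableOn (fun x : ℝ => φ x / (1 + x ^ 2)) (Ioi 0)) :
    IntegrableOn (fun w : ℝ => (1 - Real.cos w) *
      ∫ x in Ioi (0 : ℝ), x * φ x * Real.exp (-(x * w))) (Ioi 0) ∧
    ∫ w in Ioi (0 : ℝ), (1 - Real.cos w) * (∫ x in Ioi (0 : ℝ), x * φ x * Real.exp (-(x * w))) =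
      ∫ x in Ioi (0 : ℝ), φ x / (1 + x ^ 2) := by
  have hF : Integrable (Function.uncurry fun w x : ℝ => (1 - Real.cos w) *
      (x * φ x * Real.exp (-(x * w))))
      ((volume.restrict (Ioi (0 : ℝ))).prod (volume.restrict (Ioi (0 : ℝ)))) := by
    have hmeas : Measurable (Function.uncurry fun w x : ℝ => (1 - Real.cos w) *
      (x * φ x * Real.exp (-(x * w)))) := by
      unfold Function.uncurry
      fun_prop
    rw [integrable_prod_iff' hmeas.aestronglyMeasurable]
    constructor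
    · refine (ae_restrict_iff' measurableSet_Ioi).2 (ae_of_all _ fun x hx => ?_)
      have h1 := (K1_cos hx).1.const_mul (x * φ x)
      refine h1.congr (ae_of_all _ fun w => ?_)
      change x * φ x * ((1 - Real.cos w) * Real.exp (-(x * w))) =
        (1 - Real.cos w) * (x * φ x * Real.exp (-(x * w)))
      ring
    · refine (hφ.norm).congr ((ae_restrict_iff' measurableSet_Ioi).2 (ae_of_all _ fun x hx => ?_))
      change ‖φ x / (1 + x ^ 2)‖ = ∫ w in Ioi (0 : ℝ), ‖(1 - Real.cos w) *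
        (x * φ x * Real.exp (-(x * w)))‖
      have hx0 : 0 < x := hx
      have e1 : ∀ w : ℝ, ‖(1 - Real.cos w) * (x * φ x * Real.exp (-(x * w)))‖ =
          (x * |φ x|) * ((1 - Real.cos w) * Real.exp (-(x * w))) := by
        intro w
        have hc := Real.cos_le_one w
        rw [norm_mul, norm_mul, norm_mul, Real.norm_eq_abs, Real.norm_eq_abs, Real.norm_eq_abs,
          Real.norm_eq_abs, Real.abs_exp, abs_of_pos hx0, abs_of_nonneg (by linarith)]
        ring
      rw [integral_congr_ae (ae_of_all _ e1), integral_const_mul, (K1_cos hx0).2, norm_div,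
        Real.norm_eq_abs, Real.norm_eq_abs, abs_of_pos (by positivity : (0 : ℝ) < 1 + x ^ 2)]
      field_simp
  have h1 := hF.integral_prod_left
  have h2 := integral_integral_swap hF
  have e3 : ∀ w : ℝ, ∫ x in Ioi (0 : ℝ), (1 - Real.cos w) * (x * φ x * Real.exp (-(x * w))) =
      (1 - Real.cos w) * ∫ x in Ioi (0 : ℝ), x * φ x * Real.exp (-(x * w)) := fun w =>
    integral_const_mul _ _
  refine ⟨h1.congr (ae_of_all _ e3), ?_⟩
  rw [← integral_congr_ae (ae_of_all _ e3), h2]
  refine setIntegral_congr_fun measurableSet_Ioi fun x hx => ?_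
  have hx0 : 0 < x := hx
  change ∫ w in Ioi (0 : ℝ), (1 - Real.cos w) * (x * φ x * Real.exp (-(x * w))) = φ x / (1 + x ^ 2)
  have e4 : ∀ w : ℝ, (1 - Real.cos w) * (x * φ x * Real.exp (-(x * w))) =
      (x * φ x) * ((1 - Real.cos w) * Real.exp (-(x * w))) := fun w => by ring
  rw [integral_congr_ae (ae_of_all _ e4), integral_const_mul, (K1_cos hx0).2]
  field_simp

private theorem K1_li : IntegrableOn (fun x : ℝ => Real.log x / (1 + x ^ 2)) (Ioi 0) := by
  rw [← Ioc_union_Ioi_eq_Ioi (zero_le_one (α := ℝ))]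
  refine IntegrableOn.union ?_ ?_
  · have h1 : IntegrableOn Real.log (Ioc (0 : ℝ) 1) :=
      (intervalIntegrable_iff_integrableOn_Ioc_of_le zero_le_one).1 intervalIntegral.intervalIntegrable_log'
    refine h1.norm.mono' ?_ ?_
    · exact (Measurable.aestronglyMeasurable (by fun_prop))
    · refine ae_of_all _ fun x => ?_
      rw [norm_div, Real.norm_eq_abs (1 + x ^ 2), abs_of_pos (by positivity : (0 : ℝ) < 1 + x ^ 2)]
      exact div_le_self (norm_nonneg _) (by nlinarith [sq_nonneg x])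
  · have h2 : IntegrableOn (fun x : ℝ => 2 * x ^ (-(3 / 2) : ℝ)) (Ioi 1) :=
      (integrableOn_Ioi_rpow_of_lt (by norm_num) one_pos).const_mul 2
    refine h2.mono' ?_ ?_
    · exact (Measurable.aestronglyMeasurable (by fun_prop))
    · refine (ae_restrict_iff' measurableSet_Ioi).2 (ae_of_all _ fun x hx => ?_)
      have hx1 : 1 < x := hx
      have hx0 : 0 < x := by linarith
      have hl := Real.log_le_rpow_div hx0.le (by norm_num : (0 : ℝ) < 1 / 2)
      have hl0 : 0 ≤ Real.log x := Real.log_nonneg hx1.le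
      rw [norm_div, Real.norm_eq_abs, Real.norm_eq_abs, abs_of_nonneg hl0,
        abs_of_pos (by positivity : (0 : ℝ) < 1 + x ^ 2), div_le_iff₀ (by positivity)]
      have e1 : x ^ (-(3 / 2) : ℝ) * x ^ 2 = x ^ (1 / 2 : ℝ) := by
        rw [← Real.rpow_natCast x 2, ← Real.rpow_add hx0]
        norm_num
      have hp : 0 < x ^ (-(3 / 2) : ℝ) := Real.rpow_pos_of_pos hx0 _
      calc Real.log x ≤ x ^ (1 / 2 : ℝ) / (1 / 2) := hl
        _ = 2 * (x ^ (-(3 / 2) : ℝ) * x ^ 2) := by rw [e1]; ring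
        _ ≤ 2 * x ^ (-(3 / 2) : ℝ) * (1 + x ^ 2) := by nlinarith

private theorem K1_l0 : ∫ x in Ioi (0 : ℝ), Real.log x / (1 + x ^ 2) = 0 := by
  have h := integral_comp_rpow_Ioi (fun x : ℝ => Real.log x / (1 + x ^ 2)) (p := -1) (by norm_num)
  have e : ∫ x in Ioi (0 : ℝ), (|(-1 : ℝ)| * x ^ ((-1 : ℝ) - 1)) •
      (Real.log (x ^ (-1 : ℝ)) / (1 + (x ^ (-1 : ℝ)) ^ 2)) =
      ∫ x in Ioi (0 : ℝ), -(Real.log x / (1 + x ^ 2)) := by
    refine setIntegral_congr_fun measurableSet_Ioi fun x hx => ?_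
    have hx0 : 0 < x := hx
    change (|(-1 : ℝ)| * x ^ ((-1 : ℝ) - 1)) •
      (Real.log (x ^ (-1 : ℝ)) / (1 + (x ^ (-1 : ℝ)) ^ 2)) = -(Real.log x / (1 + x ^ 2))
    have e1 : x ^ ((-1 : ℝ) - 1) = (x ^ 2)⁻¹ := by
      have : (-1 : ℝ) - 1 = -((2 : ℕ) : ℝ) := by norm_num
      rw [this, Real.rpow_neg hx0.le, Real.rpow_natCast]
    rw [e1, Real.rpow_neg_one, Real.log_inv, abs_neg, abs_one, one_mul, smul_eq_mul]
    have := hx0.ne'
    field_simp
    ring
  rw [e, integral_neg] at h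
  linarith

/-- LEAF K1 (pure analysis). `4 sin²(w/2) = 2 (1 - cos w)`. For `w > 0`: `∫_0^∞ x log x e^(-x w) dx = w^(-2) (Γ'(2) - log w)`
(substitution `x = y/w`), and `Γ'(2) = 1 - γ` (`Γ(s+1) = s Γ(s)`, `Real.hasDerivAt_Gamma_one` or similar in Mathlib,
NumberTheory/Harmonic/GammaDeriv), so `w^(-2) log w = (1 - γ) w^(-2) - ∫_0^∞ x log x e^(-x w) dx`. Fubini (absolute
convergence: `|1 - cos w| ≤ min 2 (w²/2)`): `∫_0^∞ (1 - cos w) e^(-x w) dw = 1/x - x/(1 + x²) = 1/(x (1 + x²))`, so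
`∫ (1 - cos w)/w² log w = (1 - γ) π/2 - ∫_0^∞ log x/(1 + x²) dx = (1 - γ) π/2` (the last integral is `0` by `x ↦ 1/x`).
`∫_0^∞ (1 - cos w)/w² dw = π/2` (see `SinI.lean`, `Ker.lean` of the library). Any other proof is fine. -/
theorem k1 : IntegrableOn (fun w : ℝ => 4 * Real.sin (w / 2) ^ 2 / w ^ 2 * Real.log w) (Ioi 0) ∧
    ∫ w in Ioi (0 : ℝ), 4 * Real.sin (w / 2) ^ 2 / w ^ 2 * Real.log w =
      Real.pi * (1 - Real.eulerMascheroniConstant) := by
  have hφ1 : IntegrableOn (fun x : ℝ => (fun _ : ℝ => (1 : ℝ)) x / (1 + x ^ 2)) (Ioi 0) := by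
    refine integrable_inv_one_add_sq.integrableOn.congr_fun (fun x _ => ?_) measurableSet_Ioi
    change (1 + x ^ 2)⁻¹ = 1 / (1 + x ^ 2)
    rw [one_div]
  obtain ⟨a1, a2⟩ := K1_fub (φ := fun _ => 1) measurable_const hφ1
  obtain ⟨b1, b2⟩ := K1_fub Real.measurable_log K1_li
  rw [K1_l0] at b2
  have e2 : ∫ x in Ioi (0 : ℝ), (fun _ : ℝ => (1 : ℝ)) x / (1 + x ^ 2) = Real.pi / 2 := by
    have h := integral_Ioi_inv_one_add_sq (i := 0)
    rw [Real.arctan_zero, sub_zero] at h
    rw [← h]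
    refine setIntegral_congr_fun measurableSet_Ioi fun x _ => ?_
    change 1 / (1 + x ^ 2) = (1 + x ^ 2)⁻¹
    rw [one_div]
  rw [e2] at a2
  have hpt : ∀ w ∈ Ioi (0 : ℝ), 2 * ((1 - Real.eulerMascheroniConstant) * ((1 - Real.cos w) *
      ∫ x in Ioi (0 : ℝ), x * (fun _ : ℝ => (1 : ℝ)) x * Real.exp (-(x * w))) - (1 - Real.cos w) *
      ∫ x in Ioi (0 : ℝ), x * Real.log x * Real.exp (-(x * w))) =
      4 * Real.sin (w / 2) ^ 2 / w ^ 2 * Real.log w := by
    intro w hw
    have hw0 : 0 < w := hw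
    have e5 : ∫ x in Ioi (0 : ℝ), x * (fun _ : ℝ => (1 : ℝ)) x * Real.exp (-(x * w)) = 1 / w ^ 2 := by
      rw [← K1_inv hw0]
      refine setIntegral_congr_fun measurableSet_Ioi fun x _ => ?_
      change x * 1 * Real.exp (-(x * w)) = x * Real.exp (-(x * w))
      rw [mul_one]
    rw [e5, K1_log hw0]
    have e6 : 1 - Real.cos w = 2 * Real.sin (w / 2) ^ 2 := by
      have h7 := Real.cos_sq' (w / 2)
      have h8 := Real.cos_two_mul (w / 2)
      rw [mul_div_cancel₀ w two_ne_zero] at h8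
      linear_combination (-1 : ℝ) * h8 - 2 * h7
    rw [e6]
    have := hw0.ne'
    field_simp
    ring
  have hI : IntegrableOn (fun w : ℝ => 2 * ((1 - Real.eulerMascheroniConstant) * ((1 - Real.cos w) *
      ∫ x in Ioi (0 : ℝ), x * (fun _ : ℝ => (1 : ℝ)) x * Real.exp (-(x * w))) - (1 - Real.cos w) *
      ∫ x in Ioi (0 : ℝ), x * Real.log x * Real.exp (-(x * w)))) (Ioi 0) :=
    ((a1.const_mul (1 - Real.eulerMascheroniConstant)).sub b1).const_mul 2
  refine ⟨hI.congr_fun hpt measurableSet_Ioi, ?_⟩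
  rw [← setIntegral_congr_fun measurableSet_Ioi hpt, integral_const_mul,
    integral_sub (a1.const_mul _) b1, integral_const_mul, a2, b2]
  ring

end Pool.Agent.Lib.MP_2a816b_nt.TA
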