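import Pool.Agent.Lib.MP_2a816b_nt.TA.K1

open Complex Set Filter Topology MeasureTheory

namespace Pool.Agent.Lib.MP_2a816b_nt.TA

open Pool.Agent.Lib.MP_00e05b_nt Pool.Agent.Lib.MP_00e05b_nt.Mont Pool.Agent.Lib.MP_2a816b_nt.PV

/-- the square of the multiplier, scaled -/
private noncomputable def K2_g (w : ℝ) : ℝ := 4 * Real.sin (w / 2) ^ 2 / w ^ 2

private theorem K2_g_nonneg (w : ℝ) : 0 ≤ K2_g w := by
  unfold K2_g
  positivity

private theorem K2_g_le_one (w : ℝ) : K2_g w ≤ 1 := by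
  unfold K2_g
  by_cases hw : w = 0
  · subst hw
    simp
  · rw [div_le_one (by positivity)]
    have h1 : Real.sin (w / 2) ^ 2 ≤ (w / 2) ^ 2 := Real.sin_sq_le_sq
    nlinarith

private theorem K2_g_le {w : ℝ} (hw : 0 < w) : K2_g w ≤ 4 / w ^ 2 := by
  unfold K2_g
  have h1 := Real.sin_sq_le_one (w / 2)
  exact div_le_div_of_nonneg_right (by linarith) (by positivity)

private theorem K2_g_meas : Measurable K2_g := by
  unfold K2_g
  exact (measurable_const.mul ((Real.measurable_sin.comp (measurable_id.div_const 2)).pow_const 2)).div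
    (measurable_id.pow_const 2)

private theorem K2_sl {l t : ℝ} (hl : 0 < l) (ht : 0 < t) : sl l t ^ 2 = l ^ 2 * K2_g (l * t) := by
  rw [sl_eq l ht.ne']
  unfold K2_g
  field_simp
  try ring

private theorem K2_scale {l : ℝ} (hl : 0 < l) {h : ℝ → ℝ} (hh : IntegrableOn (fun w => K2_g w * h w) (Ioi 0)) :
    IntegrableOn (fun t => sl l t ^ 2 * h (l * t)) (Ioi 0) ∧
    ∫ t in Ioi (0 : ℝ), sl l t ^ 2 * h (l * t) = l * ∫ w in Ioi (0 : ℝ), K2_g w * h w := by
  have h1 : IntegrableOn (fun t => K2_g (l * t) * h (l * t)) (Ioi 0) := by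
    have := (integrableOn_Ioi_comp_mul_left_iff (fun w => K2_g w * h w) 0 hl).2 (by simpa using hh)
    exact this
  have h2 : ∫ t in Ioi (0 : ℝ), K2_g (l * t) * h (l * t) = l⁻¹ * ∫ w in Ioi (0 : ℝ), K2_g w * h w := by
    have := integral_comp_mul_left_Ioi (fun w => K2_g w * h w) 0 hl
    simpa using this
  have h3 : ∀ t ∈ Ioi (0 : ℝ), sl l t ^ 2 * h (l * t) = l ^ 2 * (K2_g (l * t) * h (l * t)) := fun t ht => by
    rw [K2_sl hl ht]
    ring
  constructor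
  · have h4 : IntegrableOn (fun t => l ^ 2 * (K2_g (l * t) * h (l * t))) (Ioi 0) := h1.const_mul (l ^ 2)
    exact h4.congr_fun (fun t ht => (h3 t ht).symm) measurableSet_Ioi
  · rw [setIntegral_congr_fun measurableSet_Ioi h3, integral_const_mul, h2]
    field_simp

private theorem K2_g_int : IntegrableOn K2_g (Ioi 0) ∧ ∫ w in Ioi (0 : ℝ), K2_g w = Real.pi := by
  have h1 : ∫ w in Ioi (0 : ℝ), K2_g w = Real.pi := by
    rw [← qq_w_eq]
    refine setIntegral_congr_fun measurableSet_Ioi ?_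
    intro w hw
    have hw' : w ≠ 0 := ne_of_gt hw
    simp only [qq, K2_g]
    field_simp
  refine ⟨?_, h1⟩
  by_contra hc
  have := integral_undef hc
  rw [this] at h1
  exact Real.pi_pos.ne h1

private theorem K2_glog : IntegrableOn (fun w => K2_g w * Real.log w) (Ioi 0) ∧
    ∫ w in Ioi (0 : ℝ), K2_g w * Real.log w = Real.pi * (1 - Real.eulerMascheroniConstant) := k1

/-- integrability against functions of moderate growth -/
private theorem K2_int {h : ℝ → ℝ} (hm : Measurable h) {K : ℝ}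
    (h1 : ∀ w : ℝ, 0 < w → w ≤ 1 → |h w| ≤ K * w ^ (-(1 / 2) : ℝ))
    (h2 : ∀ w : ℝ, 1 < w → |h w| ≤ K * w ^ (1 / 2 : ℝ)) :
    IntegrableOn (fun w => K2_g w * h w) (Ioi 0) := by
  have hu : (Ioi (0 : ℝ)) = Ioc 0 1 ∪ Ioi 1 := (Ioc_union_Ioi_eq_Ioi zero_le_one).symm
  rw [hu]
  refine IntegrableOn.union ?_ ?_
  · have hi : IntegrableOn (fun w : ℝ => K * w ^ (-(1 / 2) : ℝ)) (Ioc 0 1) := by
      have := (intervalIntegral.intervalIntegrable_rpow' (a := 0) (b := 1) (r := -(1 / 2)) (by norm_num)).1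
      exact this.const_mul K
    refine Integrable.mono' hi (K2_g_meas.mul hm).aestronglyMeasurable ?_
    refine (ae_restrict_iff' measurableSet_Ioc).2 (Eventually.of_forall fun w hw => ?_)
    rw [Real.norm_eq_abs, abs_mul, abs_of_nonneg (K2_g_nonneg w)]
    calc K2_g w * |h w| ≤ 1 * |h w| := mul_le_mul_of_nonneg_right (K2_g_le_one w) (abs_nonneg _)
      _ = |h w| := one_mul _
      _ ≤ _ := h1 w hw.1 hw.2
  · have hi : IntegrableOn (fun w : ℝ => 4 * K * w ^ (-(3 / 2) : ℝ)) (Ioi 1) := by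
      have := integrableOn_Ioi_rpow_of_lt (a := -(3 / 2)) (by norm_num) (zero_lt_one)
      exact this.const_mul (4 * K)
    refine Integrable.mono' hi (K2_g_meas.mul hm).aestronglyMeasurable ?_
    refine (ae_restrict_iff' measurableSet_Ioi).2 (Eventually.of_forall fun w hw => ?_)
    have hw0 : (0 : ℝ) < w := lt_trans zero_lt_one hw
    rw [Real.norm_eq_abs, abs_mul, abs_of_nonneg (K2_g_nonneg w)]
    calc K2_g w * |h w| ≤ 4 / w ^ 2 * (K * w ^ (1 / 2 : ℝ)) :=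
          mul_le_mul (K2_g_le hw0) (h2 w hw) (abs_nonneg _) (by positivity)
      _ = 4 * K * w ^ (-(3 / 2) : ℝ) := by
          have e : w ^ (-(3 / 2) : ℝ) = w ^ (1 / 2 : ℝ) / w ^ 2 := by
            rw [← Real.rpow_natCast w 2, ← Real.rpow_sub hw0]
            norm_num
          rw [e]
          ring

/-- `log w ≤ 4 w^(1/4)` -/
private theorem K2_log_le {w : ℝ} (hw : 0 < w) : Real.log w ≤ 4 * w ^ (1 / 4 : ℝ) := by
  have := Real.log_le_rpow_div hw.le (ε := 1 / 4) (by norm_num)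
  linarith

private theorem K2_logsq_small {w : ℝ} (h0 : 0 < w) (h1 : w ≤ 1) :
    Real.log w ^ 2 ≤ 16 * w ^ (-(1 / 2) : ℝ) := by
  have h2 := K2_log_le (inv_pos.2 h0)
  rw [Real.log_inv] at h2
  have h3 : 0 ≤ -Real.log w := by
    have := Real.log_nonpos h0.le h1
    linarith
  have h4 : (w⁻¹ ^ (1 / 4 : ℝ)) ^ 2 = w ^ (-(1 / 2) : ℝ) := by
    rw [← Real.rpow_natCast, ← Real.rpow_mul (inv_nonneg.2 h0.le), Real.inv_rpow h0.le, ← Real.rpow_neg h0.le]
    norm_num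
  have h5 : (-Real.log w) ^ 2 ≤ (4 * w⁻¹ ^ (1 / 4 : ℝ)) ^ 2 := pow_le_pow_left₀ h3 h2 2
  rw [mul_pow, h4] at h5
  nlinarith [h5]

private theorem K2_logsq_big {w : ℝ} (h0 : 1 < w) : Real.log w ^ 2 ≤ 16 * w ^ (1 / 2 : ℝ) := by
  have hw : 0 < w := lt_trans zero_lt_one h0
  have h2 := K2_log_le hw
  have h3 : 0 ≤ Real.log w := Real.log_nonneg h0.le
  have h4 : (w ^ (1 / 4 : ℝ)) ^ 2 = w ^ (1 / 2 : ℝ) := by
    rw [← Real.rpow_natCast, ← Real.rpow_mul hw.le]
    norm_num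
  have h5 : (Real.log w) ^ 2 ≤ (4 * w ^ (1 / 4 : ℝ)) ^ 2 := pow_le_pow_left₀ h3 h2 2
  rw [mul_pow, h4] at h5
  nlinarith [h5]

private theorem K2_glog2 : IntegrableOn (fun w => K2_g w * Real.log w ^ 2) (Ioi 0) := by
  refine K2_int (Real.measurable_log.pow_const 2) (K := 16) ?_ ?_
  · intro w h0 h1
    rw [abs_of_nonneg (sq_nonneg _)]
    exact K2_logsq_small h0 h1
  · intro w h0
    rw [abs_of_nonneg (sq_nonneg _)]
    exact K2_logsq_big h0

/-- LEAF K2 (easy from K1). `sl l t = 2 sin (l t/2)/t` (`sl_eq`), substitution `w = l t`. -/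
theorem sl_sq_int {l : ℝ} (hl : 0 < l) : IntegrableOn (fun t : ℝ => sl l t ^ 2) (Ioi 0) ∧
    ∫ t in Ioi (0 : ℝ), sl l t ^ 2 = Real.pi * l := by
  have h := K2_scale hl (h := fun _ => 1) (by simpa using K2_g_int.1)
  simp only [mul_one] at h
  rw [K2_g_int.2] at h
  exact ⟨h.1, by rw [h.2]; ring⟩

theorem sl_log_int {l : ℝ} (hl : 0 < l) : IntegrableOn (fun t : ℝ => sl l t ^ 2 * Real.log t) (Ioi 0) ∧
    ∫ t in Ioi (0 : ℝ), sl l t ^ 2 * Real.log t = Real.pi * l * (1 - Real.eulerMascheroniConstant - Real.log l) := by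
  have e0 : (fun w => K2_g w * (Real.log w - Real.log l)) =
      fun w => K2_g w * Real.log w - K2_g w * Real.log l := by
    funext w
    ring
  have hi : IntegrableOn (fun w => K2_g w * (Real.log w - Real.log l)) (Ioi 0) := by
    rw [e0]
    exact K2_glog.1.sub (K2_g_int.1.mul_const _)
  have h := K2_scale hl (h := fun w => Real.log w - Real.log l) hi
  have e1 : ∀ t ∈ Ioi (0 : ℝ), sl l t ^ 2 * (Real.log (l * t) - Real.log l) = sl l t ^ 2 * Real.log t := by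
    intro t ht
    rw [Real.log_mul hl.ne' (ne_of_gt ht)]
    ring
  refine ⟨h.1.congr_fun e1 measurableSet_Ioi, ?_⟩
  rw [← setIntegral_congr_fun measurableSet_Ioi e1, h.2]
  have e2 : ∫ w in Ioi (0 : ℝ), K2_g w * (Real.log w - Real.log l) =
      Real.pi * (1 - Real.eulerMascheroniConstant) - Real.pi * Real.log l := by
    rw [e0, integral_sub K2_glog.1 (K2_g_int.1.mul_const _), K2_glog.2, integral_mul_const, K2_g_int.2]
  rw [e2]
  ring

/-- first moment on `(1, ∞)`: the part on `(0, 1)` is `O(l²)` because `sl² ≤ l²` -/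
theorem sl_mom1 (κ : ℝ) : ∃ C : ℝ, 0 ≤ C ∧ ∀ l : ℝ, 0 < l → l ≤ 1 →
    IntegrableOn (fun t : ℝ => sl l t ^ 2 * (Real.log t + κ)) (Ioi 1) ∧
    |(∫ t in Ioi (1 : ℝ), sl l t ^ 2 * (Real.log t + κ)) -
      Real.pi * l * (1 - Real.eulerMascheroniConstant - Real.log l + κ)| ≤ C * l ^ 2 := by
  have hL : IntegrableOn (fun t : ℝ => |Real.log t + κ|) (Ioc 0 1) := by
    have h1 : IntegrableOn (fun t : ℝ => Real.log t) (Ioc 0 1) :=
      (intervalIntegral.intervalIntegrable_log' (a := 0) (b := 1)).1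
    have h2 : IntegrableOn (fun _ : ℝ => κ) (Ioc 0 1) := integrableOn_const (by simp)
    exact (h1.add h2).abs
  refine ⟨∫ t in Ioc (0 : ℝ) 1, |Real.log t + κ|, integral_nonneg fun _ => abs_nonneg _, fun l hl hl1 => ?_⟩
  have e0 : (fun t : ℝ => sl l t ^ 2 * (Real.log t + κ)) =
      fun t => sl l t ^ 2 * Real.log t + sl l t ^ 2 * κ := by
    funext t
    ring
  have hI : IntegrableOn (fun t : ℝ => sl l t ^ 2 * (Real.log t + κ)) (Ioi 0) := by
    rw [e0]
    exact (sl_log_int hl).1.add ((sl_sq_int hl).1.mul_const _)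
  have hV : ∫ t in Ioi (0 : ℝ), sl l t ^ 2 * (Real.log t + κ) =
      Real.pi * l * (1 - Real.eulerMascheroniConstant - Real.log l + κ) := by
    rw [e0, integral_add (sl_log_int hl).1 ((sl_sq_int hl).1.mul_const _), (sl_log_int hl).2, integral_mul_const,
      (sl_sq_int hl).2]
    ring
  refine ⟨hI.mono_set (Ioi_subset_Ioi zero_le_one), ?_⟩
  have hu : (Ioi (0 : ℝ)) = Ioc 0 1 ∪ Ioi 1 := (Ioc_union_Ioi_eq_Ioi zero_le_one).symm
  have hs : ∫ t in Ioi (0 : ℝ), sl l t ^ 2 * (Real.log t + κ) =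
      (∫ t in Ioc (0 : ℝ) 1, sl l t ^ 2 * (Real.log t + κ)) + ∫ t in Ioi (1 : ℝ), sl l t ^ 2 * (Real.log t + κ) := by
    rw [hu]
    refine setIntegral_union ?_ measurableSet_Ioi (hI.mono_set Ioc_subset_Ioi_self)
      (hI.mono_set (Ioi_subset_Ioi zero_le_one))
    exact Set.disjoint_left.2 fun x hx hx' => absurd hx.2 (not_le.2 hx')
  rw [← hV, hs]
  have e3 : (∫ t in Ioi (1 : ℝ), sl l t ^ 2 * (Real.log t + κ)) -
      ((∫ t in Ioc (0 : ℝ) 1, sl l t ^ 2 * (Real.log t + κ)) + ∫ t in Ioi (1 : ℝ), sl l t ^ 2 * (Real.log t + κ)) =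
      -(∫ t in Ioc (0 : ℝ) 1, sl l t ^ 2 * (Real.log t + κ)) := by ring
  rw [e3, abs_neg]
  calc |∫ t in Ioc (0 : ℝ) 1, sl l t ^ 2 * (Real.log t + κ)| ≤ ∫ t in Ioc (0 : ℝ) 1, |Real.log t + κ| * l ^ 2 := by
        have := norm_integral_le_of_norm_le (μ := volume.restrict (Ioc (0 : ℝ) 1))
          (f := fun t : ℝ => sl l t ^ 2 * (Real.log t + κ)) (g := fun t => |Real.log t + κ| * l ^ 2)
          (hL.mul_const _) (Eventually.of_forall fun t => by
            rw [Real.norm_eq_abs, abs_mul, mul_comm, abs_of_nonneg (sq_nonneg (sl l t))]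
            refine mul_le_mul_of_nonneg_left ?_ (abs_nonneg _)
            have h1 := sl_abs_le hl.le t
            rw [← sq_abs]
            exact pow_le_pow_left₀ (abs_nonneg _) h1 2)
        rwa [Real.norm_eq_abs] at this
    _ = _ := by rw [integral_mul_const]

/-- second moment: `(log w - log l + κ)² = (1 - γ - log l + κ)² + 2 (1 - γ - log l + κ) (log w - (1 - γ)) + (log w - (1 - γ))²`
and the middle term integrates to `0` against `4 sin²(w/2)/w²` by K1 -/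
theorem sl_mom2 (κ : ℝ) : ∃ C : ℝ, 0 ≤ C ∧ ∀ l : ℝ, 0 < l → l ≤ 1 →
    IntegrableOn (fun t : ℝ => sl l t ^ 2 * (Real.log t + κ) ^ 2) (Ioi 1) ∧
    ∫ t in Ioi (1 : ℝ), sl l t ^ 2 * (Real.log t + κ) ^ 2 ≤
      Real.pi * l * ((1 - Real.eulerMascheroniConstant - Real.log l + κ) ^ 2 + C) := by
  set m : ℝ := 1 - Real.eulerMascheroniConstant with hm
  have eD : (fun w => K2_g w * (Real.log w - m) ^ 2) =
      fun w => K2_g w * Real.log w ^ 2 - K2_g w * Real.log w * (2 * m) + K2_g w * m ^ 2 := by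
    funext w
    ring
  have hD : IntegrableOn (fun w => K2_g w * (Real.log w - m) ^ 2) (Ioi 0) := by
    rw [eD]
    exact (K2_glog2.sub (K2_glog.1.mul_const _)).add (K2_g_int.1.mul_const _)
  refine ⟨(∫ w in Ioi (0 : ℝ), K2_g w * (Real.log w - m) ^ 2) / Real.pi,
    div_nonneg (integral_nonneg fun w => mul_nonneg (K2_g_nonneg w) (sq_nonneg _)) Real.pi_pos.le,
    fun l hl hl1 => ?_⟩
  set A : ℝ := m - Real.log l + κ with hA
  have eH : (fun w => K2_g w * (Real.log w - Real.log l + κ) ^ 2) =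
      fun w => K2_g w * A ^ 2 + (K2_g w * Real.log w - K2_g w * m) * (2 * A) + K2_g w * (Real.log w - m) ^ 2 := by
    funext w
    rw [hA]
    ring
  have i1 : IntegrableOn (fun w => K2_g w * A ^ 2) (Ioi 0) := K2_g_int.1.mul_const _
  have i2 : IntegrableOn (fun w => (K2_g w * Real.log w - K2_g w * m) * (2 * A)) (Ioi 0) :=
    (K2_glog.1.sub (K2_g_int.1.mul_const _)).mul_const _
  have hH : IntegrableOn (fun w => K2_g w * (Real.log w - Real.log l + κ) ^ 2) (Ioi 0) := by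
    rw [eH]
    exact (i1.add i2).add hD
  have vH : ∫ w in Ioi (0 : ℝ), K2_g w * (Real.log w - Real.log l + κ) ^ 2 =
      Real.pi * A ^ 2 + ∫ w in Ioi (0 : ℝ), K2_g w * (Real.log w - m) ^ 2 := by
    have i3 : IntegrableOn (fun w => K2_g w * A ^ 2 + (K2_g w * Real.log w - K2_g w * m) * (2 * A)) (Ioi 0) :=
      i1.add i2
    rw [eH, integral_add i3 hD, integral_add i1 i2, integral_mul_const, integral_mul_const,
      integral_sub K2_glog.1 (K2_g_int.1.mul_const _), K2_glog.2, integral_mul_const, K2_g_int.2]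
    ring
  have h := K2_scale hl (h := fun w => (Real.log w - Real.log l + κ) ^ 2) hH
  have e1 : ∀ t ∈ Ioi (0 : ℝ), sl l t ^ 2 * (Real.log (l * t) - Real.log l + κ) ^ 2 =
      sl l t ^ 2 * (Real.log t + κ) ^ 2 := by
    intro t ht
    rw [Real.log_mul hl.ne' (ne_of_gt ht)]
    ring
  have hI : IntegrableOn (fun t : ℝ => sl l t ^ 2 * (Real.log t + κ) ^ 2) (Ioi 0) :=
    h.1.congr_fun e1 measurableSet_Ioi
  refine ⟨hI.mono_set (Ioi_subset_Ioi zero_le_one), ?_⟩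
  calc ∫ t in Ioi (1 : ℝ), sl l t ^ 2 * (Real.log t + κ) ^ 2 ≤ ∫ t in Ioi (0 : ℝ), sl l t ^ 2 * (Real.log t + κ) ^ 2 :=
        setIntegral_mono_set hI (Eventually.of_forall fun t => mul_nonneg (sq_nonneg _) (sq_nonneg _))
          (Ioi_subset_Ioi zero_le_one).eventuallyLE
    _ = l * (Real.pi * A ^ 2 + ∫ w in Ioi (0 : ℝ), K2_g w * (Real.log w - m) ^ 2) := by
        rw [← setIntegral_congr_fun measurableSet_Ioi e1, h.2, vH]
    _ = _ := by
        have := Real.pi_pos.ne'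
        field_simp

/-- `sl² ≤ min (l²) (4/t²)` -/
theorem sl_half : ∃ C : ℝ, 0 ≤ C ∧ ∀ l : ℝ, 0 < l → l ≤ 1 →
    IntegrableOn (fun t : ℝ => sl l t ^ 2 * t ^ (-(1 / 2) : ℝ)) (Ioi 1) ∧
    ∫ t in Ioi (1 : ℝ), sl l t ^ 2 * t ^ (-(1 / 2) : ℝ) ≤ C * l ^ (5 / 4 : ℝ) := by
  have hi0 : IntegrableOn (fun w : ℝ => w ^ (-(5 / 4) : ℝ)) (Ioi 1) :=
    integrableOn_Ioi_rpow_of_lt (by norm_num) zero_lt_one
  refine ⟨∫ t in Ioi (1 : ℝ), 2 * t ^ (-(5 / 4) : ℝ), ?_, fun l hl hl1 => ?_⟩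
  · refine setIntegral_nonneg measurableSet_Ioi fun t ht => ?_
    have : (0 : ℝ) < t := lt_trans zero_lt_one ht
    positivity
  have hb : ∀ t ∈ Ioi (1 : ℝ), sl l t ^ 2 * t ^ (-(1 / 2) : ℝ) ≤ 2 * t ^ (-(5 / 4) : ℝ) * l ^ (5 / 4 : ℝ) := by
    intro t ht
    have ht0 : (0 : ℝ) < t := lt_trans zero_lt_one ht
    have hs := sl_abs_le hl.le t
    have hs2 := sl_mul_le l t
    rw [abs_of_pos ht0] at hs2
    have hs3 : |sl l t| ≤ 2 / t := by
      rw [le_div_iff₀ ht0]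
      linarith
    have e1 : sl l t ^ 2 = |sl l t| ^ (5 / 4 : ℝ) * |sl l t| ^ (3 / 4 : ℝ) := by
      rw [← Real.rpow_add_of_nonneg (abs_nonneg _) (by norm_num) (by norm_num), ← sq_abs, ← Real.rpow_natCast]
      norm_num
    have e2 : |sl l t| ^ (5 / 4 : ℝ) ≤ l ^ (5 / 4 : ℝ) := Real.rpow_le_rpow (abs_nonneg _) hs (by norm_num)
    have e3 : |sl l t| ^ (3 / 4 : ℝ) ≤ (2 / t) ^ (3 / 4 : ℝ) := Real.rpow_le_rpow (abs_nonneg _) hs3 (by norm_num)
    have e4 : (2 / t) ^ (3 / 4 : ℝ) ≤ 2 * t ^ (-(3 / 4) : ℝ) := by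
      rw [Real.div_rpow (by norm_num) ht0.le, Real.rpow_neg ht0.le, div_eq_mul_inv]
      refine mul_le_mul_of_nonneg_right ?_ (by positivity)
      calc (2 : ℝ) ^ (3 / 4 : ℝ) ≤ 2 ^ (1 : ℝ) := Real.rpow_le_rpow_of_exponent_le (by norm_num) (by norm_num)
        _ = 2 := Real.rpow_one 2
    have e5 : t ^ (-(3 / 4) : ℝ) * t ^ (-(1 / 2) : ℝ) = t ^ (-(5 / 4) : ℝ) := by
      rw [← Real.rpow_add ht0]
      norm_num
    calc sl l t ^ 2 * t ^ (-(1 / 2) : ℝ) = |sl l t| ^ (5 / 4 : ℝ) * |sl l t| ^ (3 / 4 : ℝ) * t ^ (-(1 / 2) : ℝ) := by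
          rw [e1]
      _ ≤ l ^ (5 / 4 : ℝ) * (2 * t ^ (-(3 / 4) : ℝ)) * t ^ (-(1 / 2) : ℝ) := by
          refine mul_le_mul_of_nonneg_right ?_ (by positivity)
          exact mul_le_mul e2 (e3.trans e4) (by positivity) (by positivity)
      _ = 2 * (t ^ (-(3 / 4) : ℝ) * t ^ (-(1 / 2) : ℝ)) * l ^ (5 / 4 : ℝ) := by ring
      _ = _ := by rw [e5]
  have hi : IntegrableOn (fun t : ℝ => 2 * t ^ (-(5 / 4) : ℝ) * l ^ (5 / 4 : ℝ)) (Ioi 1) :=
    (hi0.const_mul 2).mul_const _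
  have hc : Continuous fun t : ℝ => sl l t := sl_cont.comp (by fun_prop : Continuous fun t : ℝ => (l, t))
  have hI : IntegrableOn (fun t : ℝ => sl l t ^ 2 * t ^ (-(1 / 2) : ℝ)) (Ioi 1) := by
    refine Integrable.mono' hi ?_ ?_
    · exact ((hc.measurable.pow_const 2).mul (measurable_id.pow_const _)).aestronglyMeasurable
    · refine (ae_restrict_iff' measurableSet_Ioi).2 (Eventually.of_forall fun t ht => ?_)
      have ht0 : (0 : ℝ) < t := lt_trans zero_lt_one ht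
      rw [Real.norm_eq_abs, abs_of_nonneg (by positivity)]
      exact hb t ht
  refine ⟨hI, ?_⟩
  calc ∫ t in Ioi (1 : ℝ), sl l t ^ 2 * t ^ (-(1 / 2) : ℝ) ≤
        ∫ t in Ioi (1 : ℝ), 2 * t ^ (-(5 / 4) : ℝ) * l ^ (5 / 4 : ℝ) :=
        setIntegral_mono_on hI hi measurableSet_Ioi hb
    _ = _ := by rw [integral_mul_const]

theorem sl_logsq : ∃ C : ℝ, 0 ≤ C ∧ ∀ l : ℝ, 0 < l → l ≤ 1 →
    IntegrableOn (fun t : ℝ => sl l t ^ 2 * Real.log (2 + |t|) ^ 2) (Ioi 0) ∧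
    ∫ t in Ioi (0 : ℝ), sl l t ^ 2 * Real.log (2 + |t|) ^ 2 ≤ C * l * Real.log (4 / l) ^ 2 := by
  have hI0 : IntegrableOn (fun w => K2_g w * (1 + Real.log (2 + |w|)) ^ 2) (Ioi 0) := by
    have hmeas : Measurable fun w : ℝ => (1 + Real.log (2 + |w|)) ^ 2 :=
      (measurable_const.add (Real.measurable_log.comp (measurable_const.add measurable_abs))).pow_const 2
    have key : ∀ w : ℝ, 0 < w → 0 ≤ Real.log (2 + |w|) ∧ Real.log (2 + |w|) ≤ 4 * (2 + w) ^ (1 / 4 : ℝ) := by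
      intro w hw
      rw [abs_of_pos hw]
      exact ⟨Real.log_nonneg (by linarith), K2_log_le (by linarith)⟩
    refine K2_int hmeas (K := 1000) ?_ ?_
    · intro w h0 h1
      obtain ⟨a1, a2⟩ := key w h0
      rw [abs_of_nonneg (sq_nonneg _)]
      have b1 : (2 + w) ^ (1 / 4 : ℝ) ≤ 3 := by
        calc (2 + w) ^ (1 / 4 : ℝ) ≤ 3 ^ (1 / 4 : ℝ) := Real.rpow_le_rpow (by linarith) (by linarith) (by norm_num)
          _ ≤ 3 ^ (1 : ℝ) := Real.rpow_le_rpow_of_exponent_le (by norm_num) (by norm_num)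
          _ = 3 := Real.rpow_one 3
      have b2 : (1 : ℝ) ≤ w ^ (-(1 / 2) : ℝ) := Real.one_le_rpow_of_pos_of_le_one_of_nonpos h0 h1 (by norm_num)
      nlinarith
    · intro w h0
      have hw : 0 < w := lt_trans zero_lt_one h0
      obtain ⟨a1, a2⟩ := key w hw
      rw [abs_of_nonneg (sq_nonneg _)]
      have b1 : (2 + w) ^ (1 / 4 : ℝ) ≤ 3 * w ^ (1 / 4 : ℝ) := by
        calc (2 + w) ^ (1 / 4 : ℝ) ≤ (3 * w) ^ (1 / 4 : ℝ) := Real.rpow_le_rpow (by linarith) (by linarith) (by norm_num)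
          _ = 3 ^ (1 / 4 : ℝ) * w ^ (1 / 4 : ℝ) := Real.mul_rpow (by norm_num) hw.le
          _ ≤ 3 * w ^ (1 / 4 : ℝ) := by
            refine mul_le_mul_of_nonneg_right ?_ (by positivity)
            calc (3 : ℝ) ^ (1 / 4 : ℝ) ≤ 3 ^ (1 : ℝ) := Real.rpow_le_rpow_of_exponent_le (by norm_num) (by norm_num)
              _ = 3 := Real.rpow_one 3
      have b2 : (1 : ℝ) ≤ w ^ (1 / 4 : ℝ) := Real.one_le_rpow h0.le (by norm_num)
      have b3 : (w ^ (1 / 4 : ℝ)) ^ 2 = w ^ (1 / 2 : ℝ) := by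
        rw [← Real.rpow_natCast, ← Real.rpow_mul hw.le]
        norm_num
      rw [← b3]
      have b4 : 1 + Real.log (2 + |w|) ≤ 13 * w ^ (1 / 4 : ℝ) := by linarith
      calc (1 + Real.log (2 + |w|)) ^ 2 ≤ (13 * w ^ (1 / 4 : ℝ)) ^ 2 := pow_le_pow_left₀ (by linarith) b4 2
        _ = 169 * (w ^ (1 / 4 : ℝ)) ^ 2 := by ring
        _ ≤ _ := by nlinarith [sq_nonneg (w ^ (1 / 4 : ℝ))]
  refine ⟨∫ w in Ioi (0 : ℝ), K2_g w * (1 + Real.log (2 + |w|)) ^ 2,
    integral_nonneg fun w => mul_nonneg (K2_g_nonneg w) (sq_nonneg _), fun l hl hl1 => ?_⟩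
  have h := K2_scale hl (h := fun w => (1 + Real.log (2 + |w|)) ^ 2) hI0
  have hi : IntegrableOn (fun t : ℝ => sl l t ^ 2 * (1 + Real.log (2 + |l * t|)) ^ 2 * Real.log (4 / l) ^ 2) (Ioi 0) :=
    h.1.mul_const _
  have hlog4 : 1 ≤ Real.log (4 / l) := by
    rw [Real.le_log_iff_exp_le (by positivity)]
    have h1 : Real.exp 1 < 2.7182818286 := Real.exp_one_lt_d9
    have h2 : (4 : ℝ) ≤ 4 / l := by
      rw [le_div_iff₀ hl]
      linarith
    linarith
  have hb : ∀ t ∈ Ioi (0 : ℝ), sl l t ^ 2 * Real.log (2 + |t|) ^ 2 ≤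
      sl l t ^ 2 * (1 + Real.log (2 + |l * t|)) ^ 2 * Real.log (4 / l) ^ 2 := by
    intro t ht
    have ht0 : (0 : ℝ) < t := ht
    rw [mul_assoc]
    refine mul_le_mul_of_nonneg_left ?_ (sq_nonneg _)
    rw [← mul_pow, abs_of_pos ht0, abs_of_pos (mul_pos hl ht0)]
    have hlt : 0 < l * t := mul_pos hl ht0
    have c1 : 0 ≤ Real.log (2 + t) := Real.log_nonneg (by linarith)
    have c2 : 0 ≤ Real.log (2 + l * t) := Real.log_nonneg (by linarith)
    have c3 : Real.log (2 + t) ≤ Real.log (2 + l * t) + Real.log (4 / l) := by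
      rw [← Real.log_mul (by positivity) (by positivity)]
      refine Real.log_le_log (by linarith) ?_
      rw [mul_div_assoc', le_div_iff₀ hl]
      nlinarith
    refine pow_le_pow_left₀ c1 ?_ 2
    nlinarith
  have hc : Continuous fun t : ℝ => sl l t := sl_cont.comp (by fun_prop : Continuous fun t : ℝ => (l, t))
  have hI : IntegrableOn (fun t : ℝ => sl l t ^ 2 * Real.log (2 + |t|) ^ 2) (Ioi 0) := by
    refine Integrable.mono' hi ?_ ?_
    · exact ((hc.measurable.pow_const 2).mul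
        ((Real.measurable_log.comp (measurable_const.add measurable_abs)).pow_const 2)).aestronglyMeasurable
    · refine (ae_restrict_iff' measurableSet_Ioi).2 (Eventually.of_forall fun t ht => ?_)
      rw [Real.norm_eq_abs, abs_of_nonneg (by positivity)]
      exact hb t ht
  refine ⟨hI, ?_⟩
  calc ∫ t in Ioi (0 : ℝ), sl l t ^ 2 * Real.log (2 + |t|) ^ 2 ≤
        ∫ t in Ioi (0 : ℝ), sl l t ^ 2 * (1 + Real.log (2 + |l * t|)) ^ 2 * Real.log (4 / l) ^ 2 :=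
        setIntegral_mono_on hI hi measurableSet_Ioi hb
    _ = _ := by
        rw [integral_mul_const, h.2]
        ring

end Pool.Agent.Lib.MP_2a816b_nt.TA
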