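import Pool.Agent.Lib.MP_2a816b_nt.TA.Defs

open Complex Set Filter Topology MeasureTheory
open scoped ContDiff

namespace Pool.Agent.Lib.MP_2a816b_nt.TA

open Pool.Agent.Lib.MP_00e05b_nt Pool.Agent.Lib.MP_00e05b_nt.Mont Pool.Agent.Lib.MP_2a816b_nt.PV

/-- the weight -/
private noncomputable def MidF (W : ℝ → ℝ) (y u : ℝ) : ℝ :=
  W (u - y) * (Real.exp (u / 2) - Real.exp (-(u / 2)) * rt u)

private theorem Mid_rt_pos {u : ℝ} (hu : 0 < u) : 0 < 1 - Real.exp (-(2 * u)) := by
  have : Real.exp (-(2 * u)) < 1 := by rw [Real.exp_lt_one_iff]; linarith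
  linarith

private theorem Mid_rt_nonneg {u : ℝ} (hu : 0 < u) : 0 ≤ rt u := by
  unfold rt
  exact div_nonneg (Real.exp_pos _).le (Mid_rt_pos hu).le

private theorem Mid_rt_anti {u v : ℝ} (hu : 0 < u) (huv : u ≤ v) : rt v ≤ rt u := by
  unfold rt
  have h1 : Real.exp (-(2 * v)) ≤ Real.exp (-(2 * u)) := Real.exp_le_exp.2 (by linarith)
  have h2 := Mid_rt_pos hu
  gcongr

private theorem Mid_zero {W : ℝ → ℝ} {s : ℝ} (hW : EB W s) {y u : ℝ} (hu : s ≤ |u - y|) : MidF W y u = 0 := by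
  unfold MidF
  rw [hW.supp _ hu, zero_mul]

private theorem Mid_smooth {W : ℝ → ℝ} {s : ℝ} (hW : EB W s) {y : ℝ} (hy : s < y) :
    ContDiff ℝ ∞ (fun u => MidF W y u) := by
  rw [contDiff_iff_contDiffAt]
  intro x
  have hWs : ContDiff ℝ ∞ (fun u => W (u - y)) := hW.smooth.comp (contDiff_id.sub contDiff_const)
  by_cases hx : 0 < x
  · unfold MidF
    refine hWs.contDiffAt.mul (ContDiffAt.sub ?_ (ContDiffAt.mul ?_ ?_))
    · exact (Real.contDiff_exp.comp (contDiff_id.div_const 2)).contDiffAt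
    · exact (Real.contDiff_exp.comp (contDiff_id.div_const 2).neg).contDiffAt
    · unfold rt
      have h1 : ContDiffAt ℝ ∞ (fun u : ℝ => Real.exp (-(2 * u))) x :=
        (Real.contDiff_exp.comp (contDiff_const.mul contDiff_id).neg).contDiffAt
      exact h1.div (contDiffAt_const.sub h1) (Mid_rt_pos hx).ne'
  · have hev : (fun u => MidF W y u) =ᶠ[𝓝 x] fun _ => 0 := by
      have : Iio (y - s) ∈ 𝓝 x := Iio_mem_nhds (by linarith)
      filter_upwards [this] with u hu
      rw [mem_Iio] at hu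
      apply Mid_zero hW
      rw [abs_sub_comm]
      exact le_trans (by linarith) (le_abs_self _)
    exact contDiffAt_const.congr_of_eventuallyEq hev

private theorem Mid_cpt {W : ℝ → ℝ} {s : ℝ} (hW : EB W s) (y : ℝ) : HasCompactSupport (fun u => ((MidF W y u : ℝ) : ℂ)) := by
  apply HasCompactSupport.of_support_subset_isCompact (isCompact_Icc (a := y - s) (b := y + s))
  intro u hu
  by_contra hcon
  apply hu
  have : s ≤ |u - y| := by
    rw [mem_Icc, not_and_or, not_le, not_le] at hcon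
    rcases hcon with h | h
    · rw [abs_sub_comm]
      exact le_trans (by linarith) (le_abs_self _)
    · exact le_trans (by linarith) (le_abs_self _)
  simp only
  rw [Mid_zero hW this, Complex.ofReal_zero]

/-- the test function -/
private noncomputable def MidG (W : ℝ → ℝ) (t y u : ℝ) : ℂ :=
  ((W (u - y) * Real.exp (-(u / 2)) : ℝ) : ℂ) * cexp (((-(t * u) : ℝ) : ℂ) * I)

private theorem MidG_zero {W : ℝ → ℝ} {s : ℝ} (hW : EB W s) {t y u : ℝ} (hu : s ≤ |u - y|) : MidG W t y u = 0 := by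
  unfold MidG
  rw [hW.supp _ hu, zero_mul, Complex.ofReal_zero, zero_mul]

private theorem MidG_supp {W : ℝ → ℝ} {s : ℝ} (hW : EB W s) (t y : ℝ) :
    Function.support (MidG W t y) ⊆ Icc (y - s) (y + s) := by
  intro u hu
  by_contra hcon
  apply hu
  apply MidG_zero hW
  rw [mem_Icc, not_and_or, not_le, not_le] at hcon
  rcases hcon with h | h
  · rw [abs_sub_comm]
    exact le_trans (by linarith) (le_abs_self _)
  · exact le_trans (by linarith) (le_abs_self _)

private theorem MidG_test {W : ℝ → ℝ} {s : ℝ} (hW : EB W s) {y : ℝ} (hy : s < y) (t : ℝ) : Test (MidG W t y) := by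
  refine ⟨?_, ?_, ?_⟩
  · have hWs : ContDiff ℝ ∞ (fun u => W (u - y)) := hW.smooth.comp (contDiff_id.sub contDiff_const)
    have h1 : ContDiff ℝ ∞ (fun u : ℝ => W (u - y) * Real.exp (-(u / 2))) :=
      hWs.mul (Real.contDiff_exp.comp (contDiff_id.div_const 2).neg)
    have h2 : ContDiff ℝ ∞ (fun u : ℝ => ((W (u - y) * Real.exp (-(u / 2)) : ℝ) : ℂ)) :=
      Complex.ofRealCLM.contDiff.comp h1
    have h3 : ContDiff ℝ ∞ (fun u : ℝ => (((-(t * u) : ℝ) : ℂ) * I)) :=
      (Complex.ofRealCLM.contDiff.comp (contDiff_const.mul contDiff_id).neg).mul contDiff_const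
    exact h2.mul (Complex.contDiff_exp.comp h3)
  · exact HasCompactSupport.of_support_subset_isCompact isCompact_Icc (MidG_supp hW t y)
  · have h1 : tsupport (MidG W t y) ⊆ Icc (y - s) (y + s) := closure_minimal (MidG_supp hW t y) isClosed_Icc
    intro u hu
    have := (h1 hu).1
    rw [mem_Ioi]
    linarith

/-- the local transform at a zero -/
private theorem MidG_zero_int {W : ℝ → ℝ} {s : ℝ} (hW : EB W s) (t y γ : ℝ) :
    ∫ u : ℝ, MidG W t y u * cexp ((1 / 2 + γ * I) * u) =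
      cexp (((-(t * y) : ℝ) : ℂ) * I) * (cexp (((γ * y : ℝ) : ℂ) * I) * (ck W (t - γ) : ℂ)) := by
  have h1 : (fun u : ℝ => MidG W t y u * cexp ((1 / 2 + γ * I) * u)) =
      fun u : ℝ => (fun v : ℝ => cexp ((((γ - t) * y : ℝ) : ℂ) * I) * ((W v : ℂ) * cexp ((((γ - t) * v : ℝ) : ℂ) * I))) (u - y) := by
    funext u
    unfold MidG
    simp only
    push_cast
    have e1 : cexp (-(↑t * ↑u) * I) * cexp ((1 / 2 + ↑γ * I) * ↑u) = cexp (↑u / 2) * (cexp ((↑γ - ↑t) * ↑y * I) * cexp ((↑γ - ↑t) * (↑u - ↑y) * I)) := by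
      rw [← Complex.exp_add, ← Complex.exp_add, ← Complex.exp_add]
      congr 1
      ring
    have e2 : cexp (-(↑u / 2)) * cexp (↑u / 2) = 1 := by
      rw [← Complex.exp_add, neg_add_cancel, Complex.exp_zero]
    calc (W (u - y) : ℂ) * cexp (-(↑u / 2)) * cexp (-(↑t * ↑u) * I) * cexp ((1 / 2 + ↑γ * I) * ↑u)
        = (W (u - y) : ℂ) * cexp (-(↑u / 2)) * (cexp (-(↑t * ↑u) * I) * cexp ((1 / 2 + ↑γ * I) * ↑u)) := by ring
      _ = (W (u - y) : ℂ) * (cexp (-(↑u / 2)) * cexp (↑u / 2)) * (cexp ((↑γ - ↑t) * ↑y * I) * cexp ((↑γ - ↑t) * (↑u - ↑y) * I)) := by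
          rw [e1]; ring
      _ = cexp ((↑γ - ↑t) * ↑y * I) * ((W (u - y) : ℂ) * cexp ((↑γ - ↑t) * (↑u - ↑y) * I)) := by
          rw [e2]; ring
  rw [h1, integral_sub_right_eq_self (fun v : ℝ => cexp ((((γ - t) * y : ℝ) : ℂ) * I) * ((W v : ℂ) * cexp ((((γ - t) * v : ℝ) : ℂ) * I))) y,
    integral_const_mul, ck_cexp hW.es]
  have h2 : ck W (γ - t) = ck W (t - γ) := by
    rw [← ck_even]
    congr 1
    ring
  rw [h2]
  have h3 : cexp ((((γ - t) * y : ℝ) : ℂ) * I) = cexp (((-(t * y) : ℝ) : ℂ) * I) * cexp (((γ * y : ℝ) : ℂ) * I) := by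
    rw [← Complex.exp_add]
    congr 1
    push_cast
    ring
  rw [h3]
  ring

private theorem Mid_identity (hRH : RiemannHypothesis) {W : ℝ → ℝ} {s : ℝ} (hW : EB W s) {y : ℝ} (hy : s < y) (t : ℝ) :
    AA W t y + cexp (((t * y : ℝ) : ℂ) * I) * PP W t y =
      cexp (((t * y : ℝ) : ℂ) * I) * ∫ u, ((MidF W y u : ℝ) : ℂ) * cexp (((-(t * u) : ℝ) : ℂ) * I) := by
  have hT := MidG_test hW hy t
  have hsum := explicit_formula hT
  have hterm : ∀ a : ℂ, (mx a : ℂ) * ∫ u : ℝ, MidG W t y u * cexp (a * u) =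
      cexp (((-(t * y) : ℝ) : ℂ) * I) * ((mx a : ℂ) * (cexp (((a.im * y : ℝ) : ℂ) * I) * (ck W (t - a.im) : ℂ))) := by
    intro a
    by_cases ha : xi a = 0
    · have h1 := re_of_RH hRH ha
      have h2 : ∫ u : ℝ, MidG W t y u * cexp (a * u) = ∫ u : ℝ, MidG W t y u * cexp ((1 / 2 + a.im * I) * u) := by
        rw [← h1]
      rw [h2, MidG_zero_int hW]
      ring
    · rw [mx_eq_zero ha]
      simp
  have h1 : ∑' a : ℂ, (mx a : ℂ) * ∫ u : ℝ, MidG W t y u * cexp (a * u) = cexp (((-(t * y) : ℝ) : ℂ) * I) * AA W t y := by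
    unfold AA
    rw [← tsum_mul_left]
    exact tsum_congr hterm
  have h2 := hsum.tsum_eq
  rw [h1] at h2
  have h3 : ∑' n : ℕ, ((ArithmeticFunction.vonMangoldt n : ℝ) : ℂ) * MidG W t y (Real.log n) = PP W t y := by
    unfold PP
    refine tsum_congr fun n => ?_
    unfold MidG
    push_cast
    ring
  rw [h3] at h2
  -- the two main terms
  have hi1 : Integrable (fun u : ℝ => MidG W t y u * cexp u) := by
    apply Continuous.integrable_of_hasCompactSupport
    · have := hT.smooth.continuous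
      fun_prop
    · exact hT.cpt.mul_right
  have hcF : Continuous (fun u => ((MidF W y u : ℝ) : ℂ)) := Complex.continuous_ofReal.comp (Mid_smooth hW hy).continuous
  have hi3 : Integrable (fun u : ℝ => ((MidF W y u : ℝ) : ℂ) * cexp (((-(t * u) : ℝ) : ℂ) * I)) := by
    apply Continuous.integrable_of_hasCompactSupport
    · fun_prop
    · exact (Mid_cpt hW y).mul_right
  have hpt : ∀ u : ℝ, MidG W t y u * (rt u : ℂ) = MidG W t y u * cexp u - ((MidF W y u : ℝ) : ℂ) * cexp (((-(t * u) : ℝ) : ℂ) * I) := by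
    intro u
    unfold MidG MidF
    push_cast
    have e2 : cexp (-(↑u / 2)) * cexp ↑u = cexp (↑u / 2) := by
      rw [← Complex.exp_add]
      congr 1
      ring
    rw [← e2]
    ring
  have h4 : (∫ u : ℝ, MidG W t y u * cexp u) - ∫ u : ℝ, MidG W t y u * (rt u : ℂ) =
      ∫ u, ((MidF W y u : ℝ) : ℂ) * cexp (((-(t * u) : ℝ) : ℂ) * I) := by
    have h5 : ∫ u : ℝ, MidG W t y u * (rt u : ℂ) = (∫ u : ℝ, MidG W t y u * cexp u) -
        ∫ u, ((MidF W y u : ℝ) : ℂ) * cexp (((-(t * u) : ℝ) : ℂ) * I) := by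
      rw [← integral_sub hi1 hi3]
      exact integral_congr_ae (Eventually.of_forall hpt)
    rw [h5]
    ring
  rw [h4] at h2
  have h6 : AA W t y = cexp (((t * y : ℝ) : ℂ) * I) * (cexp (((-(t * y) : ℝ) : ℂ) * I) * AA W t y) := by
    rw [← mul_assoc, ← Complex.exp_add]
    have : ((t * y : ℝ) : ℂ) * I + ((-(t * y) : ℝ) : ℂ) * I = 0 := by
      push_cast
      ring
    rw [this, Complex.exp_zero, one_mul]
  rw [h6, h2]
  ring


/-- the prime side: only `n ≤ 3` contribute -/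
private theorem Mid_PP {W : ℝ → ℝ} (hW : EB W (1 / 8)) {c : ℝ} (hc : c ≤ 1) (t : ℝ) :
    ‖PP W t c‖ ≤ ∑ n ∈ Finset.range 4, ArithmeticFunction.vonMangoldt n := by
  have h1 : PP W t c = ∑ n ∈ Finset.range 4,
      ((ArithmeticFunction.vonMangoldt n * Real.exp (-(Real.log n / 2)) * W (Real.log n - c) : ℝ) : ℂ) *
        cexp (((-(t * Real.log n) : ℝ) : ℂ) * I) := by
    unfold PP
    apply tsum_eq_sum
    intro n hn
    rw [Finset.mem_range, not_lt] at hn
    have h4 : (4 : ℝ) ≤ n := by exact_mod_cast hn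
    have h5 : Real.log 4 ≤ Real.log n := Real.log_le_log (by norm_num) h4
    have h6 : Real.log 4 = 2 * Real.log 2 := by
      rw [show (4 : ℝ) = 2 ^ 2 by norm_num, Real.log_pow]
      norm_num
    have h7 := Real.log_two_gt_d9
    have h8 : W (Real.log n - c) = 0 := by
      apply hW.supp
      exact le_trans (by linarith) (le_abs_self _)
    rw [h8, mul_zero, Complex.ofReal_zero, zero_mul]
  rw [h1]
  refine (norm_sum_le _ _).trans ?_
  apply Finset.sum_le_sum
  intro n _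
  rw [norm_mul, Complex.norm_exp_ofReal_mul_I, mul_one, Complex.norm_real, Real.norm_eq_abs]
  have h2 : 0 ≤ ArithmeticFunction.vonMangoldt n := ArithmeticFunction.vonMangoldt_nonneg
  have h3 : Real.exp (-(Real.log n / 2)) ≤ 1 := by
    apply Real.exp_le_one_iff.2
    have := Real.log_natCast_nonneg n
    linarith
  rw [abs_of_nonneg (mul_nonneg (mul_nonneg h2 (Real.exp_pos _).le) (hW.nonneg _))]
  calc ArithmeticFunction.vonMangoldt n * Real.exp (-(Real.log n / 2)) * W (Real.log n - c)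
      ≤ ArithmeticFunction.vonMangoldt n * 1 * 1 := by
        gcongr
        · exact hW.nonneg _
        · exact hW.le_one _
    _ = ArithmeticFunction.vonMangoldt n := by ring

/-- the kernel side -/
private theorem Mid_int {W : ℝ → ℝ} (hW : EB W (1 / 8)) {c : ℝ} (hc : 1 / 4 ≤ c) (hc1 : c ≤ 1) (t : ℝ) :
    ‖∫ u, ((MidF W c u : ℝ) : ℂ) * cexp (((-(t * u) : ℝ) : ℂ) * I)‖ ≤ (1 + rt (1 / 8)) * Real.exp 1 := by
  have hρ0 : 0 ≤ rt (1 / 8) := Mid_rt_nonneg (by norm_num)
  have hz : ∀ u, u ∉ Icc (c - 1 / 8) (c + 1 / 8) → ‖((MidF W c u : ℝ) : ℂ)‖ = 0 := by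
    intro u hu
    have : 1 / 8 ≤ |u - c| := by
      rw [mem_Icc, not_and_or, not_le, not_le] at hu
      rcases hu with h | h
      · rw [abs_sub_comm]
        exact le_trans (by linarith) (le_abs_self _)
      · exact le_trans (by linarith) (le_abs_self _)
    rw [Mid_zero hW this]
    simp
  have hcF : Continuous (fun u => ((MidF W c u : ℝ) : ℂ)) :=
    Complex.continuous_ofReal.comp (Mid_smooth hW (by linarith)).continuous
  calc ‖∫ u, ((MidF W c u : ℝ) : ℂ) * cexp (((-(t * u) : ℝ) : ℂ) * I)‖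
      ≤ ∫ u, ‖((MidF W c u : ℝ) : ℂ) * cexp (((-(t * u) : ℝ) : ℂ) * I)‖ := norm_integral_le_integral_norm _
    _ = ∫ u, ‖((MidF W c u : ℝ) : ℂ)‖ := by
        congr 1
        funext u
        rw [norm_mul, Complex.norm_exp_ofReal_mul_I, mul_one]
    _ = ∫ u in Icc (c - 1 / 8) (c + 1 / 8), ‖((MidF W c u : ℝ) : ℂ)‖ :=
        (setIntegral_eq_integral_of_forall_compl_eq_zero hz).symm
    _ ≤ ∫ _u in Icc (c - 1 / 8) (c + 1 / 8), (1 + rt (1 / 8)) * Real.exp 1 := by
        refine setIntegral_mono_on hcF.norm.integrableOn_Icc continuous_const.integrableOn_Icc measurableSet_Icc fun u hu => ?_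
        have hu0' : 0 < u := by linarith [hu.1]
        have h4 : 0 ≤ rt u := Mid_rt_nonneg hu0'
        have h5 : rt u ≤ rt (1 / 8) := Mid_rt_anti (by norm_num) (by linarith [hu.1])
        have h6 : Real.exp (-(u / 2)) ≤ 1 := Real.exp_le_one_iff.2 (by linarith)
        have h7 : 1 ≤ Real.exp (u / 2) := Real.one_le_exp (by linarith)
        have h8 : 0 ≤ Real.exp (-(u / 2)) * rt u := by positivity
        have h9 : Real.exp (-(u / 2)) * rt u ≤ rt (1 / 8) := by
          calc Real.exp (-(u / 2)) * rt u ≤ 1 * rt (1 / 8) := by gcongr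
            _ = rt (1 / 8) := one_mul _
        have h10 : |Real.exp (u / 2) - Real.exp (-(u / 2)) * rt u| ≤ (1 + rt (1 / 8)) * Real.exp (u / 2) := by
          rw [abs_le]
          constructor <;> nlinarith
        have h12 : Real.exp (u / 2) ≤ Real.exp 1 := Real.exp_le_exp.2 (by linarith [hu.2])
        rw [Complex.norm_real, Real.norm_eq_abs]
        unfold MidF
        rw [abs_mul, abs_of_nonneg (hW.nonneg _)]
        calc W (u - c) * |Real.exp (u / 2) - Real.exp (-(u / 2)) * rt u| ≤ 1 * ((1 + rt (1 / 8)) * Real.exp (u / 2)) := by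
              gcongr
              exact hW.le_one _
          _ ≤ (1 + rt (1 / 8)) * Real.exp 1 := by
              rw [one_mul]
              gcongr
    _ = 1 / 4 * ((1 + rt (1 / 8)) * Real.exp 1) := by
        rw [setIntegral_const, smul_eq_mul, Real.volume_real_Icc_of_le (by linarith)]
        ring
    _ ≤ (1 + rt (1 / 8)) * Real.exp 1 := by
        have : 0 ≤ (1 + rt (1 / 8)) * Real.exp 1 := by positivity
        linarith

/-- LEAF Mid. For `c ∈ [1/4, 1]` the function `W(u - c)` is supported in `(1/8, 9/8)`, away from `0`: the explicit formula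
(`explicit_formula`, as in `Mont/EF.lean` or `PV/FtA.lean`) gives `AA W t c = ` bounded terms (the function `e^(u/2)`, the
trivial zeros and the prime `2`, `3`). -/
theorem mid (hRH : RiemannHypothesis) {W : ℝ → ℝ} (hW : EB W (1 / 8)) : ∃ C : ℝ, 0 ≤ C ∧ ∀ c : ℝ, 1 / 4 ≤ c → c ≤ 1 →
    ∀ t : ℝ, ‖AA W t c‖ ≤ C := by
  have hρ0 : 0 ≤ rt (1 / 8) := Mid_rt_nonneg (by norm_num)
  have hS : 0 ≤ ∑ n ∈ Finset.range 4, ArithmeticFunction.vonMangoldt n :=
    Finset.sum_nonneg fun _ _ => ArithmeticFunction.vonMangoldt_nonneg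
  refine ⟨(∑ n ∈ Finset.range 4, ArithmeticFunction.vonMangoldt n) + (1 + rt (1 / 8)) * Real.exp 1, by positivity,
    fun c hc hc1 t => ?_⟩
  have hid := Mid_identity hRH hW (y := c) (by linarith) t
  have h1 : AA W t c = cexp (((t * c : ℝ) : ℂ) * I) * (∫ u, ((MidF W c u : ℝ) : ℂ) * cexp (((-(t * u) : ℝ) : ℂ) * I)) -
      cexp (((t * c : ℝ) : ℂ) * I) * PP W t c := by
    rw [← hid]
    ring
  rw [h1]
  refine (norm_sub_le _ _).trans ?_
  rw [norm_mul, norm_mul, Complex.norm_exp_ofReal_mul_I, one_mul, one_mul, add_comm]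
  exact add_le_add (Mid_PP hW hc1 t) (Mid_int hW hc hc1 t)

end Pool.Agent.Lib.MP_2a816b_nt.TA
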