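import Pool.Agent.Lib.MP_2a816b_nt.TA.Defs

open Complex Set Filter Topology MeasureTheory

namespace Pool.Agent.Lib.MP_2a816b_nt.TA

open Pool.Agent.Lib.MP_00e05b_nt Pool.Agent.Lib.MP_00e05b_nt.Mont Pool.Agent.Lib.MP_2a816b_nt.PV

/-- local mean squares of `Dt 1` are bounded -/
theorem Psi_E (hRH : RiemannHypothesis) : ∃ E : ℝ, 0 ≤ E ∧ ∀ c : ℝ, 1 ≤ c →
    ∫ u in (c - 1 / 16)..(c + 1 / 16), Dt 1 u ^ 2 ≤ E := by
  obtain ⟨W, hW⟩ := exists_EB (1 / 8) (by norm_num)
  obtain ⟨C1, hC1, h1⟩ := PBmain hRH hW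
  obtain ⟨C2, hC2, h2⟩ := slAA_bound hRH hW
  refine ⟨(Real.pi)⁻¹ * (C2 * Real.log 4 ^ 2) + C1, by positivity, fun c hc => ?_⟩
  have h3 := h1 1 one_pos (by norm_num) c hc
  obtain ⟨hi, h4⟩ := h2 1 one_pos (by norm_num) c
  rw [Real.one_rpow, mul_one] at h3
  simp only [mul_one, div_one] at h4
  have h5 : ∫ t in Ioi (0 : ℝ), sl 1 t ^ 2 * ‖AA W t c‖ ^ 2 ≤ ∫ t : ℝ, sl 1 t ^ 2 * ‖AA W t c‖ ^ 2 :=
    setIntegral_le_integral hi (Eventually.of_forall fun t => by positivity)
  have hpi : 0 ≤ (Real.pi)⁻¹ := by positivity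
  have h6 : ∫ u, W (u - c) ^ 2 * Dt 1 u ^ 2 ≤ (Real.pi)⁻¹ * (C2 * Real.log 4 ^ 2) + C1 := by
    have := (abs_le.1 h3).2
    have h7 := mul_le_mul_of_nonneg_left (h5.trans h4) hpi
    linarith
  refine le_trans ?_ h6
  -- integrability
  have hcont : Continuous fun u : ℝ => W (u - c) ^ 2 :=
    (hW.smooth.continuous.comp (continuous_id.sub continuous_const)).pow 2
  have hint : Integrable (fun u : ℝ => W (u - c) ^ 2 * Dt 1 u ^ 2) := by
    have hii : IntervalIntegrable (fun u : ℝ => W (u - c) ^ 2 * Dt 1 u ^ 2) volume (c - 1 / 8) (c + 1 / 8) :=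
      (Dt_ii (by norm_num : (0 : ℝ) ≤ 1) (by norm_num) _ _).continuousOn_mul hcont.continuousOn
    rw [intervalIntegrable_iff_integrableOn_Ioc_of_le (by linarith)] at hii
    refine hii.integrable_of_forall_notMem_eq_zero ?_
    intro u hu
    by_cases h7 : 1 / 8 ≤ |u - c|
    · rw [hW.supp _ h7]; simp
    · exfalso
      push Not at h7
      have h8 := abs_lt.1 h7
      exact hu ⟨by linarith [h8.1], by linarith [h8.2]⟩
  rw [intervalIntegral.integral_of_le (by linarith)]
  have h8 : ∫ u in Ioc (c - 1 / 16) (c + 1 / 16), Dt 1 u ^ 2 =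
      ∫ u in Ioc (c - 1 / 16) (c + 1 / 16), W (u - c) ^ 2 * Dt 1 u ^ 2 := by
    refine setIntegral_congr_fun measurableSet_Ioc fun u hu => ?_
    have h9 : |u - c| ≤ 1 / 8 / 2 := by
      rw [abs_le]
      constructor
      · linarith [hu.1]
      · linarith [hu.2]
    rw [hW.one _ h9]; ring
  rw [h8]
  exact setIntegral_le_integral hint (Eventually.of_forall fun u => by positivity)

/-- the error of the prime number theorem in the variable `log x` -/
noncomputable def Psi_d (v : ℝ) : ℝ := Chebyshev.psi (Real.exp v) - Real.exp v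

theorem Psi_d_ii (a b : ℝ) : IntervalIntegrable Psi_d volume a b := by
  have h1 : Monotone fun v : ℝ => Chebyshev.psi (Real.exp v) :=
    Chebyshev.psi_mono.comp Real.exp_monotone
  exact h1.intervalIntegrable.sub (Real.continuous_exp.intervalIntegrable _ _)

theorem Psi_d_sub (z : ℝ) : Psi_d z - Psi_d (z - 1) =
    Real.exp ((z - 1 / 2) / 2) * Dt 1 (z - 1 / 2) := by
  have e1 : Real.exp ((z - 1 / 2) / 2) * Real.exp (-((z - 1 / 2) / 2)) = 1 := by
    rw [← Real.exp_add, add_neg_cancel, Real.exp_zero]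
  have e2 : Real.exp ((z - 1 / 2) / 2) * (2 * Real.sinh (1 / 2) * Real.exp ((z - 1 / 2) / 2)) =
      Real.exp z - Real.exp (z - 1) := by
    rw [Real.sinh_eq]
    have a1 : Real.exp z = Real.exp ((z - 1 / 2) / 2) * Real.exp ((z - 1 / 2) / 2) * Real.exp (1 / 2) := by
      rw [← Real.exp_add, ← Real.exp_add]; congr 1; ring
    have a2 : Real.exp (z - 1) = Real.exp ((z - 1 / 2) / 2) * Real.exp ((z - 1 / 2) / 2) * Real.exp (-(1 / 2)) := by
      rw [← Real.exp_add, ← Real.exp_add]; congr 1; ring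
    rw [a1, a2]; ring
  unfold Psi_d Dt
  rw [show z - 1 / 2 + 1 / 2 = z by ring, show z - 1 / 2 - 1 / 2 = z - 1 by ring, mul_sub, e2, ← mul_assoc, e1]
  ring

/-- the mean of the error over short intervals -/
theorem Psi_I (hRH : RiemannHypothesis) : ∃ A : ℝ, 0 ≤ A ∧ ∀ y η : ℝ, 2 ≤ y → 0 < η → η ≤ 1 / 8 →
    ∫ z in y..(y + η), |Psi_d z| ≤ A * Real.sqrt η * Real.exp (y / 2) := by
  obtain ⟨E, hE, hEE⟩ := Psi_E hRH
  -- the bound on [2, 4]
  set D : ℝ := Chebyshev.psi (Real.exp 4) + Real.exp 4 with hD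
  have hD0 : 0 ≤ D := add_nonneg (Chebyshev.psi_nonneg _) (Real.exp_pos _).le
  have hDb : ∀ z ≤ (4 : ℝ), |Psi_d z| ≤ D := by
    intro z hz
    have h1 : Chebyshev.psi (Real.exp z) ≤ Chebyshev.psi (Real.exp 4) :=
      Chebyshev.psi_mono (Real.exp_le_exp.2 hz)
    have h2 : Real.exp z ≤ Real.exp 4 := Real.exp_le_exp.2 hz
    have h3 := Chebyshev.psi_nonneg (Real.exp z)
    have h4 := (Real.exp_pos z).le
    unfold Psi_d
    rw [abs_le]
    constructor <;> linarith
  set F : ℝ := 2 * (E + 1) with hF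
  set A : ℝ := D + 4 * F with hA
  have hA0 : 0 ≤ A := by positivity
  refine ⟨A, hA0, ?_⟩
  -- induction
  have key : ∀ n : ℕ, ∀ y η : ℝ, 2 ≤ y → y ≤ 3 + n → 0 < η → η ≤ 1 / 8 →
      ∫ z in y..(y + η), |Psi_d z| ≤ A * Real.sqrt η * Real.exp (y / 2) := by
    intro n
    induction n with
    | zero =>
      intro y η hy hy3 hη hη8
      have hy3 : y ≤ 3 := by simpa using hy3
      have h1 : ∫ z in y..(y + η), |Psi_d z| ≤ ∫ z in y..(y + η), D := by
        refine intervalIntegral.integral_mono_on (by linarith) (Psi_d_ii _ _).abs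
          intervalIntegrable_const ?_
        intro z hz
        exact hDb z (by linarith [hz.2])
      refine h1.trans ?_
      rw [intervalIntegral.integral_const, smul_eq_mul, show y + η - y = η by ring]
      have h2 : η ≤ Real.sqrt η := by
        have h3 : Real.sqrt η * Real.sqrt η = η := Real.mul_self_sqrt hη.le
        have h4 : Real.sqrt η ≤ 1 := Real.sqrt_le_one.2 (by linarith)
        have h5 := Real.sqrt_nonneg η
        nlinarith
      have h6 : 1 ≤ Real.exp (y / 2) := Real.one_le_exp (by linarith)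
      have h7 : D ≤ A := by
        have : 0 ≤ F := by positivity
        simp only [hA]; linarith
      calc η * D ≤ Real.sqrt η * A := mul_le_mul h2 h7 hD0 (Real.sqrt_nonneg _)
        _ = A * Real.sqrt η * 1 := by ring
        _ ≤ A * Real.sqrt η * Real.exp (y / 2) :=
          mul_le_mul_of_nonneg_left h6 (mul_nonneg hA0 (Real.sqrt_nonneg _))
    | succ n ih =>
      intro y η hy hyn hη hη8
      by_cases hy3 : y ≤ 3 + n
      · exact ih y η hy hy3 hη hη8
      push Not at hy3
      have hn : (0 : ℝ) ≤ n := Nat.cast_nonneg n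
      have hy3' : 3 ≤ y := by linarith
      have hsη : 0 < Real.sqrt η := Real.sqrt_pos.2 hη
      have hss : Real.sqrt η * Real.sqrt η = η := Real.mul_self_sqrt hη.le
      -- the previous interval
      have h1 := ih (y - 1) η (by linarith) (by push_cast at hyn; linarith) hη hη8
      have h2 : ∫ z in y..(y + η), |Psi_d (z - 1)| = ∫ z in (y - 1)..(y - 1 + η), |Psi_d z| := by
        rw [intervalIntegral.integral_comp_sub_right (fun z => |Psi_d z|) 1]
        congr 1
        ring
      -- the mean square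
      have hDi : IntervalIntegrable (fun z : ℝ => Dt 1 (z - 1 / 2) ^ 2) volume y (y + η) := by
        have := (Dt_ii (by norm_num : (0 : ℝ) ≤ 1) (by norm_num) (y - 1 / 2) (y + η - 1 / 2)).comp_sub_right (1 / 2)
        simpa using this
      have h3 : ∫ z in y..(y + η), Dt 1 (z - 1 / 2) ^ 2 ≤ E := by
        rw [intervalIntegral.integral_comp_sub_right (fun z => Dt 1 z ^ 2) (1 / 2)]
        have h4 := hEE (y - 1 / 2 + 1 / 16) (by linarith)
        rw [show y - 1 / 2 + 1 / 16 - 1 / 16 = y - 1 / 2 by ring,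
          show y - 1 / 2 + 1 / 16 + 1 / 16 = y - 1 / 2 + 1 / 8 by ring] at h4
        refine le_trans ?_ h4
        refine intervalIntegral.integral_mono_interval le_rfl (by linarith) (by linarith)
          (Eventually.of_forall fun u => by positivity)
          (Dt_ii (by norm_num : (0 : ℝ) ≤ 1) (by norm_num) _ _)
      -- pointwise
      have hpt : ∀ z ∈ Icc y (y + η), |Psi_d z| ≤ |Psi_d (z - 1)| +
          Real.exp (y / 2) * (Real.sqrt η * Dt 1 (z - 1 / 2) ^ 2 + (Real.sqrt η)⁻¹) := by
        intro z hz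
        have e1 := Psi_d_sub z
        have e2 : Psi_d z = Psi_d (z - 1) + Real.exp ((z - 1 / 2) / 2) * Dt 1 (z - 1 / 2) := by linarith
        have e3 : Real.exp ((z - 1 / 2) / 2) ≤ Real.exp (y / 2) :=
          Real.exp_le_exp.2 (by linarith [hz.2])
        have e4 : |Dt 1 (z - 1 / 2)| ≤ Real.sqrt η * Dt 1 (z - 1 / 2) ^ 2 + (Real.sqrt η)⁻¹ := by
          have e5 : 0 ≤ Real.sqrt η * (|Dt 1 (z - 1 / 2)| - (Real.sqrt η)⁻¹ / 2) ^ 2 := by positivity
          have e6 : Real.sqrt η * (|Dt 1 (z - 1 / 2)| - (Real.sqrt η)⁻¹ / 2) ^ 2 =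
              Real.sqrt η * Dt 1 (z - 1 / 2) ^ 2 - |Dt 1 (z - 1 / 2)| + (Real.sqrt η)⁻¹ / 4 := by
            have e7 : Real.sqrt η * (Real.sqrt η)⁻¹ = 1 := mul_inv_cancel₀ hsη.ne'
            have e8 : |Dt 1 (z - 1 / 2)| ^ 2 = Dt 1 (z - 1 / 2) ^ 2 := sq_abs _
            rw [← e8]
            linear_combination (-|Dt 1 (z - 1 / 2)| + (Real.sqrt η)⁻¹ / 4) * e7
          have e9 : 0 < (Real.sqrt η)⁻¹ := inv_pos.2 hsη
          linarith
        rw [e2]
        refine (abs_add_le _ _).trans ?_
        rw [abs_mul, abs_of_pos (Real.exp_pos _)]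
        have := mul_le_mul e3 e4 (abs_nonneg _) (Real.exp_pos _).le
        linarith
      have hi1 : IntervalIntegrable (fun z : ℝ => |Psi_d (z - 1)|) volume y (y + η) := by
        have := (Psi_d_ii (y - 1) (y + η - 1)).comp_sub_right 1
        have h5 : IntervalIntegrable (fun z : ℝ => Psi_d (z - 1)) volume y (y + η) := by simpa using this
        exact h5.abs
      have hi2 : IntervalIntegrable (fun z : ℝ => Real.exp (y / 2) *
          (Real.sqrt η * Dt 1 (z - 1 / 2) ^ 2 + (Real.sqrt η)⁻¹)) volume y (y + η) :=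
        ((hDi.const_mul _).add intervalIntegrable_const).const_mul _
      have h4 : ∫ z in y..(y + η), |Psi_d z| ≤ (∫ z in y..(y + η), |Psi_d (z - 1)|) +
          Real.exp (y / 2) * (Real.sqrt η * (∫ z in y..(y + η), Dt 1 (z - 1 / 2) ^ 2) +
            η * (Real.sqrt η)⁻¹) := by
        have h5 := intervalIntegral.integral_mono_on (by linarith) (Psi_d_ii y (y + η)).abs
          (hi1.add hi2) hpt
        refine h5.trans (le_of_eq ?_)
        rw [intervalIntegral.integral_add hi1 hi2, intervalIntegral.integral_const_mul,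
          intervalIntegral.integral_add (hDi.const_mul _) intervalIntegrable_const,
          intervalIntegral.integral_const_mul, intervalIntegral.integral_const, smul_eq_mul,
          show y + η - y = η by ring]
      have h5 : η * (Real.sqrt η)⁻¹ = Real.sqrt η := by
        rw [mul_inv_eq_iff_eq_mul₀ hsη.ne']
        exact hss.symm
      rw [h2, h5] at h4
      have h6 : Real.exp (y / 2) * (Real.sqrt η * (∫ z in y..(y + η), Dt 1 (z - 1 / 2) ^ 2) + Real.sqrt η) ≤
          (E + 1) * Real.sqrt η * Real.exp (y / 2) := by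
        have := mul_le_mul_of_nonneg_left h3 hsη.le
        have h7 := mul_le_mul_of_nonneg_left this (Real.exp_pos (y / 2)).le
        nlinarith [Real.exp_pos (y / 2)]
      -- e^(-1/2) ≤ 3/4
      have h7 : Real.exp ((y - 1) / 2) ≤ 3 / 4 * Real.exp (y / 2) := by
        have e1 : Real.exp (y / 2) = Real.exp ((y - 1) / 2) * Real.exp (1 / 2) := by
          rw [← Real.exp_add]; congr 1; ring
        have e2 : (1 / 2 : ℝ) + 1 ≤ Real.exp (1 / 2) := Real.add_one_le_exp _
        rw [e1]
        have e3 := Real.exp_pos ((y - 1) / 2)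
        nlinarith
      have h8 : A * Real.sqrt η * Real.exp ((y - 1) / 2) ≤ A * Real.sqrt η * (3 / 4 * Real.exp (y / 2)) :=
        mul_le_mul_of_nonneg_left h7 (mul_nonneg hA0 hsη.le)
      have h9 : (E + 1) ≤ A / 4 := by
        simp only [hA, hF]
        linarith
      have h10 : (E + 1) * Real.sqrt η * Real.exp (y / 2) ≤ A / 4 * Real.sqrt η * Real.exp (y / 2) := by
        gcongr
      calc ∫ z in y..(y + η), |Psi_d z| ≤ A * Real.sqrt η * (3 / 4 * Real.exp (y / 2)) +
          A / 4 * Real.sqrt η * Real.exp (y / 2) := by linarith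
        _ = A * Real.sqrt η * Real.exp (y / 2) := by ring
  intro y η hy hη hη8
  obtain ⟨n, hn⟩ := exists_nat_ge (y - 3)
  exact key n y η hy (by linarith) hη hη8

/-- LEAF Psi: prime number theorem under RH with a power saving. By `PBmain` and `slAA_bound` with `l = 1` (`W` an `EB W (1/8)`,
`W = 1` on `[-1/16, 1/16]`): `∫_{c - 1/16}^{c + 1/16} Dt 1 u ^ 2 du ≤ C` for all `c ≥ 1`. Given `y`, `η = e^(-y/3)`, there is
`z ∈ [y, y + η]` with `|Dt 1 (z - k - 1/2)| ≤ C' (1 + k)/√η` for all `0 ≤ k ≤ y - 2` (the bad sets have total measure `< η`), so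
`ψ(e^z) = e^z + O(e^(y/2)/√η)` by summing over the intervals `(e^(z-k-1), e^(z-k)]`, and `ψ(e^y) ≤ ψ(e^z) ≤ e^y + O(e^(2y/3))`;
the same with `z ∈ [y - η, y]` for the lower bound. -/
theorem psi_err (hRH : RiemannHypothesis) : ∃ C : ℝ, 0 ≤ C ∧ ∀ x : ℝ, 1 ≤ x →
    |Chebyshev.psi x - x| ≤ C * x ^ (3 / 4 : ℝ) := by
  obtain ⟨A, hA, hI⟩ := Psi_I hRH
  set D : ℝ := Chebyshev.psi (Real.exp 3) + Real.exp 3 with hD
  have hD0 : 0 ≤ D := add_nonneg (Chebyshev.psi_nonneg _) (Real.exp_pos _).le
  have main : ∀ y : ℝ, 3 ≤ y → |Psi_d y| ≤ (3 * A + 1) * Real.exp (3 / 4 * y) := by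
    intro y hy
    set η : ℝ := Real.exp (-(y / 2)) / 8 with hη
    have hη0 : 0 < η := by positivity
    have hη8 : η ≤ 1 / 8 := by
      have : Real.exp (-(y / 2)) ≤ 1 := Real.exp_le_one_iff.2 (by linarith)
      simp only [hη]; linarith
    have hsη : 0 < Real.sqrt η := Real.sqrt_pos.2 hη0
    have hss : Real.sqrt η * Real.sqrt η = η := Real.mul_self_sqrt hη0.le
    -- 1 / √η ≤ 3 e^(y/4)
    have hinv : Real.sqrt η * (3 * Real.exp (y / 4)) ≥ 1 := by
      have h1 : (Real.sqrt η * (3 * Real.exp (y / 4))) ^ 2 = 9 / 8 := by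
        have e1 : Real.exp (y / 4) * Real.exp (y / 4) * Real.exp (-(y / 2)) = 1 := by
          rw [← Real.exp_add, ← Real.exp_add, ← Real.exp_zero]; congr 1; ring
        calc (Real.sqrt η * (3 * Real.exp (y / 4))) ^ 2 =
            9 * (Real.sqrt η * Real.sqrt η) * (Real.exp (y / 4) * Real.exp (y / 4)) := by ring
          _ = 9 / 8 * (Real.exp (y / 4) * Real.exp (y / 4) * Real.exp (-(y / 2))) := by
            rw [hss, hη]; ring
          _ = 9 / 8 := by rw [e1]; ring
      have h2 : 0 ≤ Real.sqrt η * (3 * Real.exp (y / 4)) := by positivity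
      nlinarith
    have hmul : Real.exp (y / 4) * Real.exp (y / 2) = Real.exp (3 / 4 * y) := by
      rw [← Real.exp_add]; congr 1; ring
    -- from the mean to the bound : ∫ ≤ A √η e^(y/2) ≤ η (3 A e^(3y/4))
    have hfin : ∀ w ≤ y, A * Real.sqrt η * Real.exp (w / 2) ≤ η * (3 * A * Real.exp (3 / 4 * y)) := by
      intro w hw
      have e1 : Real.exp (w / 2) ≤ Real.exp (y / 2) := Real.exp_le_exp.2 (by linarith)
      calc A * Real.sqrt η * Real.exp (w / 2) ≤ A * Real.sqrt η * Real.exp (y / 2) :=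
            mul_le_mul_of_nonneg_left e1 (mul_nonneg hA hsη.le)
        _ = A * Real.sqrt η * Real.exp (y / 2) * 1 := by ring
        _ ≤ A * Real.sqrt η * Real.exp (y / 2) * (Real.sqrt η * (3 * Real.exp (y / 4))) :=
            mul_le_mul_of_nonneg_left hinv (by positivity)
        _ = (Real.sqrt η * Real.sqrt η) * (3 * A * (Real.exp (y / 4) * Real.exp (y / 2))) := by ring
        _ = η * (3 * A * Real.exp (3 / 4 * y)) := by rw [hss, hmul]
    -- the exponential varies little
    have hexp : Real.exp y * (2 * η) ≤ Real.exp (3 / 4 * y) := by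
      have e1 : Real.exp y * Real.exp (-(y / 2)) = Real.exp (y / 2) := by
        rw [← Real.exp_add]; congr 1; ring
      have e2 : Real.exp (y / 2) ≤ Real.exp (3 / 4 * y) := Real.exp_le_exp.2 (by linarith)
      calc Real.exp y * (2 * η) = (Real.exp y * Real.exp (-(y / 2))) / 4 := by rw [hη]; ring
        _ ≤ Real.exp (3 / 4 * y) := by
          rw [e1]
          have := Real.exp_pos (y / 2)
          linarith
    have hup : Real.exp (y + η) ≤ Real.exp y * (1 + 2 * η) := by
      rw [Real.exp_add]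
      refine mul_le_mul_of_nonneg_left ?_ (Real.exp_pos _).le
      have h1 := Real.exp_bound_div_one_sub_of_interval hη0.le (by linarith)
      refine h1.trans ?_
      rw [div_le_iff₀ (by linarith)]
      nlinarith
    have hlow : Real.exp y * (1 - 2 * η) ≤ Real.exp (y - η) := by
      rw [show y - η = y + -η by ring, Real.exp_add]
      refine mul_le_mul_of_nonneg_left ?_ (Real.exp_pos _).le
      have := Real.add_one_le_exp (-η)
      linarith
    rw [abs_le]
    constructor
    · -- lower bound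
      have h1 := hI (y - η) η (by linarith) hη0 hη8
      rw [sub_add_cancel] at h1
      have h2 := h1.trans (hfin (y - η) (by linarith))
      have h3 : ∫ z in (y - η)..y, (-(Psi_d y) - 2 * η * Real.exp y) ≤ ∫ z in (y - η)..y, |Psi_d z| := by
        refine intervalIntegral.integral_mono_on (by linarith) intervalIntegrable_const
          (Psi_d_ii _ _).abs ?_
        intro z hz
        have e1 : Chebyshev.psi (Real.exp z) ≤ Chebyshev.psi (Real.exp y) :=
          Chebyshev.psi_mono (Real.exp_le_exp.2 hz.2)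
        have e2 : Real.exp (y - η) ≤ Real.exp z := Real.exp_le_exp.2 hz.1
        refine le_trans ?_ (neg_le_abs _)
        unfold Psi_d
        nlinarith
      rw [intervalIntegral.integral_const, smul_eq_mul, show y - (y - η) = η by ring] at h3
      have h4 : η * (-(Psi_d y) - 2 * η * Real.exp y) ≤ η * (3 * A * Real.exp (3 / 4 * y)) := h3.trans h2
      have h5 := le_of_mul_le_mul_left h4 hη0
      linarith
    · -- upper bound
      have h1 := hI y η (by linarith) hη0 hη8
      have h2 := h1.trans (hfin y le_rfl)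
      have h3 : ∫ z in y..(y + η), (Psi_d y - 2 * η * Real.exp y) ≤ ∫ z in y..(y + η), |Psi_d z| := by
        refine intervalIntegral.integral_mono_on (by linarith) intervalIntegrable_const
          (Psi_d_ii _ _).abs ?_
        intro z hz
        have e1 : Chebyshev.psi (Real.exp y) ≤ Chebyshev.psi (Real.exp z) :=
          Chebyshev.psi_mono (Real.exp_le_exp.2 hz.1)
        have e2 : Real.exp z ≤ Real.exp (y + η) := Real.exp_le_exp.2 hz.2
        refine le_trans ?_ (le_abs_self _)
        unfold Psi_d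
        nlinarith
      rw [intervalIntegral.integral_const, smul_eq_mul, show y + η - y = η by ring] at h3
      have h4 : η * (Psi_d y - 2 * η * Real.exp y) ≤ η * (3 * A * Real.exp (3 / 4 * y)) := h3.trans h2
      have h5 := le_of_mul_le_mul_left h4 hη0
      linarith
  refine ⟨3 * A + 1 + D, by positivity, fun x hx => ?_⟩
  have hx0 : 0 < x := by linarith
  by_cases hx3 : 3 ≤ Real.log x
  · have h1 := main (Real.log x) hx3
    have h2 : Psi_d (Real.log x) = Chebyshev.psi x - x := by
      unfold Psi_d; rw [Real.exp_log hx0]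
    have h3 : Real.exp (3 / 4 * Real.log x) = x ^ (3 / 4 : ℝ) := by
      rw [Real.rpow_def_of_pos hx0, mul_comm]
    rw [h2, h3] at h1
    refine h1.trans ?_
    have : 0 ≤ x ^ (3 / 4 : ℝ) := Real.rpow_nonneg hx0.le _
    nlinarith
  · push Not at hx3
    have hxe : x ≤ Real.exp 3 := by
      rw [← Real.exp_log hx0]; exact Real.exp_le_exp.2 hx3.le
    have h1 : Chebyshev.psi x ≤ Chebyshev.psi (Real.exp 3) := Chebyshev.psi_mono hxe
    have h2 := Chebyshev.psi_nonneg x
    have h3 : 1 ≤ x ^ (3 / 4 : ℝ) := Real.one_le_rpow hx (by norm_num)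
    have h4 : |Chebyshev.psi x - x| ≤ D := by
      rw [abs_le]
      constructor <;> linarith
    nlinarith

end Pool.Agent.Lib.MP_2a816b_nt.TA
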