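import Pool.Agent.Lib.MP_2a816b_nt.TA.Defs

open Complex Set Filter Topology MeasureTheory

namespace Pool.Agent.Lib.MP_2a816b_nt.TA

open Pool.Agent.Lib.MP_00e05b_nt Pool.Agent.Lib.MP_00e05b_nt.Mont Pool.Agent.Lib.MP_2a816b_nt.PV

private theorem W0_rt_cont : ContinuousOn rt (Ioi 0) := by
  unfold rt
  refine ContinuousOn.div (by fun_prop) (by fun_prop) (fun u hu => ?_)
  have : Real.exp (-(2 * u)) < 1 := by
    rw [Real.exp_lt_one_iff]
    have : (0 : ℝ) < u := hu
    linarith
  linarith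

theorem W0_kx_cont : ContinuousOn kx (Ioi 0) := by
  unfold kx
  exact ContinuousOn.sub (by fun_prop) (ContinuousOn.mul (by fun_prop) W0_rt_cont)

theorem W0_kx_le {u : ℝ} (h0 : 0 < u) (h1 : u ≤ 1) : |kx u| ≤ 8 / u := by
  have h2 := rt_approx u h0 h1
  have h3 := Real.exp_pos (u / 2)
  have h4 : Real.exp (u / 2) ≤ 2 := by
    have h5 : Real.exp (u / 2) ≤ Real.exp (1 / 2) := Real.exp_le_exp.mpr (by linarith)
    have h6 : Real.exp (1 / 2) * Real.exp (1 / 2) = Real.exp 1 := by
      rw [← Real.exp_add]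
      norm_num
    have h7 := Real.exp_one_lt_d9
    have h8 := Real.exp_pos (1 / 2)
    nlinarith
  have h5 : 1 / (2 * u) = 1 / 2 / u := by rw [div_div]
  have h6 : 7 ≤ 7 / u := by
    rw [le_div_iff₀ h0]
    linarith
  have h7 : 8 / u = 7 / u + 1 / 2 / u + 1 / 2 / u := by ring
  have h8 : 0 < 1 / 2 / u := by positivity
  rw [h5] at h2
  unfold kx
  rw [abs_le] at h2 ⊢
  constructor <;> linarith

theorem W0_lip {g : ℝ → ℝ} (hg : ES g (5 / 8)) (h0 : g 0 = 0) :
    ∃ C : ℝ, 0 ≤ C ∧ ∀ u : ℝ, 0 < u → u ≤ 1 → |g u| ≤ C * u := by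
  have h1 : Continuous (deriv g) := (contDiff_infty_iff_deriv.1 hg.smooth).2.continuous
  have D0 : ∀ u, HasDerivAt g (deriv g u) u := fun u =>
    ((contDiff_infty_iff_deriv.1 hg.smooth).1 u).hasDerivAt
  obtain ⟨C, hC⟩ := (isCompact_Icc (a := (0 : ℝ)) (b := 1)).exists_bound_of_continuousOn
    h1.continuousOn
  refine ⟨C, (norm_nonneg _).trans (hC 0 (by simp)), fun u hu hu1 => ?_⟩
  have h2 := (convex_Icc (0 : ℝ) 1).norm_image_sub_le_of_norm_hasDerivWithin_le
    (f := g) (f' := deriv g) (C := C) (x := 0) (y := u)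
    (fun y _ => (D0 y).hasDerivWithinAt) hC (by simp) ⟨hu.le, hu1⟩
  rw [h0, sub_zero, sub_zero, Real.norm_eq_abs, Real.norm_eq_abs, abs_of_pos hu] at h2
  exact h2

theorem W0_bdd {g : ℝ → ℝ} (hg : ES g (5 / 8)) (h0 : g 0 = 0) :
    ∃ C : ℝ, 0 ≤ C ∧ ∀ u : ℝ, 0 < u → u ≤ 1 → |g u * kx u| ≤ C := by
  obtain ⟨C, hC0, hC⟩ := W0_lip hg h0
  refine ⟨C * 8, by positivity, fun u hu hu1 => ?_⟩
  rw [abs_mul]
  calc |g u| * |kx u| ≤ (C * u) * (8 / u) :=
        mul_le_mul (hC u hu hu1) (W0_kx_le hu hu1) (abs_nonneg _) (by positivity)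
    _ = C * 8 := by field_simp

/-- LEAF W0: the exact formula for even test functions vanishing at `0`, supported in `[-5/8, 5/8]`. Let `Φ` be an `EB Φ (1/2)`
(`exists_EB`), `R` large, `g = g (1 - Φ(R ·)) + g Φ(R ·)`. The second part: `∑' mx a |ck (g Φ(R ·)) a.im| → 0` by `zsum_small`
(`Mont/ZS.lean`, with `Θ` a smooth even function vanishing at `0`; if it wants `Θ Φ(R ·)` this is it). The first part vanishes
near `0`: `explicit_formula` for `u ↦ g u (1 - Φ (R u)) e^(-u/2)` on `u > 0` (as in the proof of `zsum_away`, `Mont/ZA.lean`,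
exact form; `xi` zeros are `1/2 + i a.im` by RH, and the sum over zeros of `e^(i γ u)` is symmetric: `sum_symm`, so half of
`ck` is the integral over `u > 0`); no prime terms since `5/8 < log 2`. Then `R → ∞` by dominated convergence:
`|g u| ≤ C u²` and `|kx u| ≤ C/u` on `(0, 1]`. -/
theorem w0 (hRH : RiemannHypothesis) {g : ℝ → ℝ} (hg : ES g (5 / 8)) (h0 : g 0 = 0) :
    Summable (fun a : ℂ => (mx a : ℝ) * ck g a.im) ∧
    ∑' a : ℂ, (mx a : ℝ) * ck g a.im = 2 * ∫ u in (0 : ℝ)..1, g u * kx u := by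
  obtain ⟨Φ, hΦ⟩ := exists_EB (1 / 2) (by norm_num)
  obtain ⟨hs2, hlim⟩ := zsum_small hΦ hg.smooth hg.even h0 0
  simp only [sub_zero] at hs2 hlim
  -- the part away from zero
  have hA : ∀ R : ℝ, 1 ≤ R →
      Summable (fun a : ℂ => (mx a : ℝ) * ck (fun u => g u * (1 - Φ (R * u))) a.im) ∧
      ∑' a : ℂ, (mx a : ℝ) * ck (fun u => g u * (1 - Φ (R * u))) a.im =
        2 * ∫ u in (0 : ℝ)..1, g u * (1 - Φ (R * u)) * kx u := by
    intro R hR
    have hR0 : 0 < R := by linarith
    have hfES : ES (fun u => g u * (1 - Φ (R * u))) (5 / 8) := by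
      refine ⟨?_, fun u => ?_, fun u hu => ?_⟩
      · have h1 := hg.smooth
        have h2 := hΦ.smooth
        exact h1.mul (contDiff_const.sub (h2.comp (contDiff_const.mul contDiff_id)))
      · show g (-u) * (1 - Φ (R * (-u))) = g u * (1 - Φ (R * u))
        rw [hg.even, mul_neg, hΦ.even]
      · show g u * (1 - Φ (R * u)) = 0
        rw [hg.supp u hu, zero_mul]
    have hη : 0 < 1 / (4 * R) := by positivity
    have h1 : ∀ u, |u| ≤ 1 / (4 * R) → (fun u => g u * (1 - Φ (R * u))) u = 0 := by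
      intro u hu
      simp only
      rw [hΦ.one (R * u) ?_, sub_self, mul_zero]
      rw [abs_mul, abs_of_pos hR0]
      have := mul_le_mul_of_nonneg_left hu hR0.le
      have h2 : R * (1 / (4 * R)) = 1 / 2 / 2 := by
        field_simp
        norm_num
      linarith
    obtain ⟨hs, he⟩ := zexact hRH hfES hη h1 0
    simp only [sub_zero] at hs he
    refine ⟨hs, ?_⟩
    rw [he]
    refine congrArg (fun r : ℝ => 2 * r) ?_
    refine intervalIntegral.integral_congr fun u _ => ?_
    simp only [zero_mul, Real.cos_zero, mul_one]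
    rfl
  -- linearity
  have hck : ∀ R s : ℝ, ck g s = ck (fun u => g u * (1 - Φ (R * u))) s +
      ck (fun u => g u * Φ (R * u)) s := by
    intro R s
    unfold ck
    have hc := hΦ.smooth.continuous
    have i1 : Integrable (fun u => g u * (1 - Φ (R * u)) * Real.cos (s * u)) := by
      refine Continuous.integrable_of_hasCompactSupport ?_ ?_
      · have := hg.continuous
        fun_prop
      · exact (hg.compact.mul_right).mul_right
    have i2 : Integrable (fun u => g u * Φ (R * u) * Real.cos (s * u)) := by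
      refine Continuous.integrable_of_hasCompactSupport ?_ ?_
      · have := hg.continuous
        fun_prop
      · exact (hg.compact.mul_right).mul_right
    rw [← integral_add i1 i2]
    refine integral_congr_ae (Filter.Eventually.of_forall fun u => ?_)
    simp only
    ring
  have hs2' : ∀ R : ℝ, 1 ≤ R →
      Summable (fun a : ℂ => (mx a : ℝ) * ck (fun u => g u * Φ (R * u)) a.im) := by
    intro R hR
    refine Summable.of_norm ?_
    refine (hs2 R hR).congr fun a => ?_
    rw [norm_mul, Real.norm_eq_abs, Real.norm_eq_abs, Nat.abs_cast]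
  have hsum : ∀ R : ℝ, 1 ≤ R → Summable (fun a : ℂ => (mx a : ℝ) * ck g a.im) ∧
      ∑' a : ℂ, (mx a : ℝ) * ck g a.im =
        (2 * ∫ u in (0 : ℝ)..1, g u * (1 - Φ (R * u)) * kx u) +
        ∑' a : ℂ, (mx a : ℝ) * ck (fun u => g u * Φ (R * u)) a.im := by
    intro R hR
    have e : (fun a : ℂ => (mx a : ℝ) * ck g a.im) = fun a : ℂ =>
        (mx a : ℝ) * ck (fun u => g u * (1 - Φ (R * u))) a.im +
        (mx a : ℝ) * ck (fun u => g u * Φ (R * u)) a.im := by
      funext a
      rw [hck R a.im, mul_add]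
    obtain ⟨h1, h2⟩ := hA R hR
    rw [e]
    refine ⟨h1.add (hs2' R hR), ?_⟩
    rw [h1.tsum_add (hs2' R hR), h2]
  refine ⟨(hsum 1 le_rfl).1, ?_⟩
  -- the small part tends to zero
  have hE : Tendsto (fun R : ℝ => ∑' a : ℂ, (mx a : ℝ) * ck (fun u => g u * Φ (R * u)) a.im)
      atTop (𝓝 0) := by
    refine squeeze_zero_norm' ?_ hlim
    filter_upwards [eventually_ge_atTop (1 : ℝ)] with R hR
    have h1 : ∀ a : ℂ, ‖(mx a : ℝ) * ck (fun u => g u * Φ (R * u)) a.im‖ =
        (mx a : ℝ) * |ck (fun u => g u * Φ (R * u)) a.im| := by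
      intro a
      rw [norm_mul, Real.norm_eq_abs, Real.norm_eq_abs, Nat.abs_cast]
    have h2 : Summable fun a : ℂ => ‖(mx a : ℝ) * ck (fun u => g u * Φ (R * u)) a.im‖ :=
      (hs2 R hR).congr fun a => (h1 a).symm
    refine (norm_tsum_le_tsum_norm h2).trans (le_of_eq ?_)
    exact tsum_congr h1
  -- dominated convergence
  obtain ⟨C, hC0, hC⟩ := W0_bdd hg h0
  have hI : Tendsto (fun R : ℝ => ∫ u in (0 : ℝ)..1, g u * (1 - Φ (R * u)) * kx u) atTop
      (𝓝 (∫ u in (0 : ℝ)..1, g u * kx u)) := by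
    refine intervalIntegral.tendsto_integral_filter_of_dominated_convergence (fun _ => C) ?_ ?_ ?_ ?_
    · refine Filter.Eventually.of_forall fun R => ?_
      rw [uIoc_of_le zero_le_one]
      have hc := hΦ.smooth.continuous
      have hg' := hg.continuous
      refine ContinuousOn.aestronglyMeasurable ?_ measurableSet_Ioc
      refine ContinuousOn.mul (by fun_prop) (W0_kx_cont.mono fun u hu => hu.1)
    · filter_upwards [eventually_ge_atTop (1 : ℝ)] with R hR
      refine Filter.Eventually.of_forall fun u hu => ?_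
      rw [uIoc_of_le zero_le_one] at hu
      have h1 := hC u hu.1 hu.2
      have h2 := hΦ.nonneg (R * u)
      have h3 := hΦ.le_one (R * u)
      have h4 : |1 - Φ (R * u)| ≤ 1 := by
        rw [abs_le]
        constructor <;> linarith
      have e : g u * (1 - Φ (R * u)) * kx u = (1 - Φ (R * u)) * (g u * kx u) := by ring
      rw [Real.norm_eq_abs, e, abs_mul]
      calc |1 - Φ (R * u)| * |g u * kx u| ≤ 1 * C := mul_le_mul h4 h1 (abs_nonneg _) zero_le_one
        _ = C := one_mul C
    · exact intervalIntegrable_const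
    · refine Filter.Eventually.of_forall fun u hu => ?_
      rw [uIoc_of_le zero_le_one] at hu
      refine tendsto_const_nhds.congr' ?_
      filter_upwards [eventually_ge_atTop (1 / (2 * u))] with R hR
      have hu0 : 0 < u := hu.1
      have h1 : 1 / 2 ≤ |R * u| := by
        have h2 := mul_le_mul_of_nonneg_right hR hu0.le
        have h3 : 1 / (2 * u) * u = 1 / 2 := by field_simp
        rw [h3] at h2
        exact h2.trans (le_abs_self _)
      rw [hΦ.supp _ h1, sub_zero, mul_one]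
  have hlim2 := (hI.const_mul 2).add hE
  rw [add_zero] at hlim2
  refine tendsto_nhds_unique ?_ hlim2
  refine tendsto_const_nhds.congr' ?_
  filter_upwards [eventually_ge_atTop (1 : ℝ)] with R hR
  exact (hsum R hR).2

end Pool.Agent.Lib.MP_2a816b_nt.TA
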