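import Pool.Agent.Lib.MP_2a816b_nt.TA.Defs

open Complex Set Filter Topology MeasureTheory

namespace Pool.Agent.Lib.MP_2a816b_nt.TA

open Pool.Agent.Lib.MP_00e05b_nt Pool.Agent.Lib.MP_00e05b_nt.Mont Pool.Agent.Lib.MP_2a816b_nt.PV

private theorem Z1_dslope {F : ℂ → ℂ} (hF : Differentiable ℂ F) : Differentiable ℂ (dslope F 0) := by
  rw [← differentiableOn_univ] at hF ⊢
  exact (Complex.differentiableOn_dslope Filter.univ_mem).2 hF

private theorem Z1_slope {F : ℂ → ℂ} (h0 : F 0 = 0) {z : ℂ} (hz : z ≠ 0) : dslope F 0 z = F z / z := by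
  rw [dslope_of_ne _ hz, slope_def_field, h0, sub_zero, sub_zero]

/-- LEAF Z1. `kx u = -1/(2u) + r u` with `r` continuously differentiable (bounded with bounded derivative) on `(0, 1]`:
`e^(-u/2) rt u = e^(-5u/2)/(1 - e^(-2u))`. -/
theorem kx_split : ∃ r : ℝ → ℝ, ∃ C : ℝ, 0 ≤ C ∧ (∀ u : ℝ, 0 < u → u ≤ 1 → kx u = -(1 / (2 * u)) + r u) ∧
    (∀ u : ℝ, 0 < u → u ≤ 1 → |r u| ≤ C ∧ ∃ d : ℝ, HasDerivAt r d u ∧ |d| ≤ C) := by
  obtain ⟨f, hf⟩ : ∃ f : ℂ → ℂ, f = fun z => (1 - Complex.exp (-(2 * z))) / 2 := ⟨_, rfl⟩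
  obtain ⟨H, hH⟩ : ∃ H : ℂ → ℂ, H = dslope f 0 := ⟨_, rfl⟩
  obtain ⟨g, hg⟩ : ∃ g : ℂ → ℂ, g = fun z => H z - Complex.exp (-(5 / 2 * z)) := ⟨_, rfl⟩
  obtain ⟨K, hK⟩ : ∃ K : ℂ → ℂ, K = dslope g 0 := ⟨_, rfl⟩
  obtain ⟨R, hR⟩ : ∃ R : ℂ → ℂ, R = fun z => Complex.exp (z / 2) + K z / (2 * H z) := ⟨_, rfl⟩
  have df : Differentiable ℂ f := by
    rw [hf]
    fun_prop
  have dH : Differentiable ℂ H := hH ▸ Z1_dslope df
  have dg : Differentiable ℂ g := by
    rw [hg]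
    fun_prop
  have dK : Differentiable ℂ K := hK ▸ Z1_dslope dg
  have f0 : f 0 = 0 := by
    rw [hf]
    simp
  have H0 : H 0 = 1 := by
    rw [hH, dslope_same]
    have h1 : HasDerivAt f ((0 - Complex.exp (-(2 * 0)) * (-(2 * 1))) / 2) 0 := by
      rw [hf]
      exact ((((hasDerivAt_id (0 : ℂ)).const_mul 2).neg.cexp.const_sub 1).div_const 2).congr_deriv (by simp)
    rw [h1.deriv]
    simp
  have g0 : g 0 = 0 := by
    rw [hg]
    simp [H0]
  have hHu : ∀ u : ℝ, 0 < u → H u = ((1 - Real.exp (-(2 * u))) / (2 * u) : ℝ) := by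
    intro u hu
    have hu' : (u : ℂ) ≠ 0 := by exact_mod_cast hu.ne'
    rw [hH, Z1_slope f0 hu', hf]
    push_cast
    field_simp
  have hKu : ∀ u : ℝ, 0 < u → K u = (((1 - Real.exp (-(2 * u))) / (2 * u) - Real.exp (-(5 / 2 * u))) / u : ℝ) := by
    intro u hu
    have hu' : (u : ℂ) ≠ 0 := by exact_mod_cast hu.ne'
    rw [hK, Z1_slope g0 hu', hg]
    change (H u - Complex.exp (-(5 / 2 * (u : ℂ)))) / u = _
    rw [hHu u hu]
    push_cast
    rfl
  have hpos : ∀ u : ℝ, 0 < u → 0 < 1 - Real.exp (-(2 * u)) := fun u hu => by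
    have : Real.exp (-(2 * u)) < Real.exp 0 := Real.exp_lt_exp.2 (by linarith)
    rw [Real.exp_zero] at this
    linarith
  have hne : ∀ u : ℝ, 0 ≤ u → H u ≠ 0 := by
    intro u hu
    rcases hu.eq_or_lt with rfl | hu
    · rw [Complex.ofReal_zero, H0]
      exact one_ne_zero
    · rw [hHu u hu]
      have h1 := hpos u hu
      exact_mod_cast (div_pos h1 (by positivity)).ne'
  have hΩ : IsOpen {z : ℂ | H z ≠ 0} := isOpen_ne_fun dH.continuous continuous_const
  have dR : DifferentiableOn ℂ R {z : ℂ | H z ≠ 0} := by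
    intro z hz
    have h2 : DifferentiableAt ℂ (fun z : ℂ => Complex.exp (z / 2)) z := by fun_prop
    rw [hR]
    exact (h2.add ((dK z).div ((dH z).const_mul 2) (mul_ne_zero two_ne_zero hz))).differentiableWithinAt
  have cR : ContinuousOn (fun u : ℝ => R u) (Icc 0 1) :=
    dR.continuousOn.comp Complex.continuous_ofReal.continuousOn fun u hu => hne u hu.1
  have cR' : ContinuousOn (fun u : ℝ => deriv R u) (Icc 0 1) :=
    (dR.deriv hΩ).continuousOn.comp Complex.continuous_ofReal.continuousOn fun u hu => hne u hu.1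
  obtain ⟨A, hA⟩ := isCompact_Icc.exists_bound_of_continuousOn cR
  obtain ⟨B, hB⟩ := isCompact_Icc.exists_bound_of_continuousOn cR'
  refine ⟨fun u => (R u).re, max 0 (max A B), le_max_left _ _, ?_, ?_⟩
  · intro u hu _
    have h1 := hpos u hu
    have h2 : R u = ((kx u + 1 / (2 * u) : ℝ) : ℂ) := by
      have hu' : (u : ℂ) ≠ 0 := by exact_mod_cast hu.ne'
      rw [hR]
      change Complex.exp (u / 2) + K u / (2 * H u) = _
      rw [hHu u hu, hKu u hu]
      have h3 : Complex.exp (u / 2) = ((Real.exp (u / 2) : ℝ) : ℂ) := by push_cast; rfl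
      rw [h3]
      norm_cast
      have h4 : -(u / 2) + -(2 * u) = -(5 / 2 * u) := by ring
      have h5 : Real.exp (-(u / 2)) * (Real.exp (-(2 * u)) / (1 - Real.exp (-(2 * u)))) =
          Real.exp (-(5 / 2 * u)) / (1 - Real.exp (-(2 * u))) := by
        rw [← mul_div_assoc, ← Real.exp_add, h4]
      rw [kx, rt, h5]
      obtain ⟨x, hx⟩ : ∃ x, x = Real.exp (-(2 * u)) := ⟨_, rfl⟩
      obtain ⟨z, hz⟩ : ∃ z, z = Real.exp (-(5 / 2 * u)) := ⟨_, rfl⟩
      rw [← hx] at h1 ⊢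
      rw [← hz]
      have h6 : 1 - x ≠ 0 := h1.ne'
      field_simp
      ring
    change _ = _ + (R u).re
    rw [h2, Complex.ofReal_re]
    ring
  · intro u hu hu1
    have hm : u ∈ Icc (0 : ℝ) 1 := ⟨hu.le, hu1⟩
    refine ⟨?_, (deriv R u).re, ?_, ?_⟩
    · exact ((Complex.abs_re_le_norm _).trans (hA u hm)).trans ((le_max_left A B).trans (le_max_right _ _))
    · have h3 : DifferentiableAt ℂ R u := dR.differentiableAt (hΩ.mem_nhds (hne u hu.le))
      exact h3.hasDerivAt.real_of_complex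
    · exact ((Complex.abs_re_le_norm _).trans (hB u hm)).trans ((le_max_right A B).trans (le_max_right _ _))

end Pool.Agent.Lib.MP_2a816b_nt.TA
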