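import Pool.Agent.Lib.MP_2a816b_nt.TA.Defs

open Complex Set Filter Topology MeasureTheory

namespace Pool.Agent.Lib.MP_2a816b_nt.TA

open Pool.Agent.Lib.MP_00e05b_nt Pool.Agent.Lib.MP_00e05b_nt.Mont Pool.Agent.Lib.MP_2a816b_nt.PV

private theorem Z1b_deriv (Φ : ℝ → ℝ) (hc : Continuous Φ) (h1 : ∀ u, |Φ u| ≤ 1) (t : ℝ) :
    HasDerivAt (fun t : ℝ => ∫ u in (0 : ℝ)..1, Φ u * (1 - Real.cos (t * u)) / u)
      (∫ u in (0 : ℝ)..1, Φ u * Real.sin (t * u)) t := by
  have hm : ∀ x : ℝ, AEStronglyMeasurable (fun u : ℝ => Φ u * (1 - Real.cos (x * u)) / u)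
      (volume.restrict (Set.uIoc (0 : ℝ) 1)) := by
    intro x
    refine Measurable.aestronglyMeasurable ?_
    exact (hc.measurable.mul (Continuous.measurable (by fun_prop))).div measurable_id
  refine (intervalIntegral.hasDerivAt_integral_of_dominated_loc_of_deriv_le
    (F := fun (t : ℝ) (u : ℝ) => Φ u * (1 - Real.cos (t * u)) / u)
    (F' := fun (t : ℝ) (u : ℝ) => Φ u * Real.sin (t * u)) (bound := fun _ => (1 : ℝ))
    (s := Set.univ) (x₀ := t) Filter.univ_mem (Eventually.of_forall fun x => hm x) ?_ ?_ ?_ ?_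
    ?_).2
  · rw [intervalIntegrable_iff_integrableOn_Ioc_of_le zero_le_one]
    have hm' := hm t
    rw [Set.uIoc_of_le zero_le_one] at hm'
    refine Integrable.mono' (g := fun _ => t ^ 2 / 2) (integrable_const _) hm' ?_
    refine (ae_restrict_iff' measurableSet_Ioc).2 (Eventually.of_forall fun u hu => ?_)
    have hu0 : 0 < u := hu.1
    have h2 : 1 - Real.cos (t * u) ≤ (t * u) ^ 2 / 2 := by
      have := Real.one_sub_sq_div_two_le_cos (x := t * u)
      linarith
    have h3 : 0 ≤ 1 - Real.cos (t * u) := by linarith [Real.cos_le_one (t * u)]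
    rw [Real.norm_eq_abs, abs_div, abs_mul, abs_of_nonneg h3, abs_of_pos hu0, div_le_iff₀ hu0]
    calc |Φ u| * (1 - Real.cos (t * u)) ≤ 1 * ((t * u) ^ 2 / 2) :=
          mul_le_mul (h1 u) h2 h3 zero_le_one
      _ = t ^ 2 / 2 * (u * u) := by ring
      _ ≤ t ^ 2 / 2 * u := by
          refine mul_le_mul_of_nonneg_left ?_ (by positivity)
          calc u * u ≤ 1 * u := mul_le_mul_of_nonneg_right hu.2 hu0.le
            _ = u := one_mul u
  · exact Continuous.aestronglyMeasurable (by fun_prop)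
  · refine Eventually.of_forall fun u _ x _ => ?_
    rw [Real.norm_eq_abs, abs_mul]
    calc |Φ u| * |Real.sin (x * u)| ≤ 1 * 1 :=
          mul_le_mul (h1 u) (Real.abs_sin_le_one _) (abs_nonneg _) zero_le_one
      _ = 1 := one_mul 1
  · exact intervalIntegrable_const
  · refine Eventually.of_forall fun u hu x _ => ?_
    rw [Set.uIoc_of_le zero_le_one] at hu
    have hu0 : u ≠ 0 := hu.1.ne'
    have h2 : HasDerivAt (fun x : ℝ => Real.cos (x * u)) (-Real.sin (x * u) * (1 * u)) x :=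
      HasDerivAt.cos (f := fun x : ℝ => x * u) ((hasDerivAt_id x).mul_const u)
    have h3 := ((h2.const_sub 1).const_mul (Φ u)).div_const u
    have h4 : Φ u * -(-Real.sin (x * u) * (1 * u)) / u = Φ u * Real.sin (x * u) := by
      field_simp
    rw [h4] at h3
    exact h3

/-- LEAF Z1b: `∫_0^1 Φ(u) (1 - cos (t u))/u du = log t + const + O(1/t)` for `Φ` an `EB Φ (1/2)`. The derivative in `t` is
`∫_0^1 Φ(u) sin (t u) du = 1/t + O(1/t²)` (parts twice). -/
theorem frul_exact {Φ : ℝ → ℝ} (hΦ : EB Φ (1 / 2)) : ∃ k C : ℝ, 0 ≤ C ∧ ∀ t : ℝ, 1 ≤ t →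
    |(∫ u in (0 : ℝ)..1, Φ u * (1 - Real.cos (t * u)) / u) - (Real.log t + k)| ≤ C / t := by
  obtain ⟨hd, hs1⟩ := contDiff_infty_iff_deriv.1 hΦ.smooth
  obtain ⟨hd2, hs2⟩ := contDiff_infty_iff_deriv.1 hs1
  have hc : Continuous Φ := hΦ.smooth.continuous
  have hc1 : Continuous (deriv Φ) := hs1.continuous
  have hc2 : Continuous (deriv (deriv Φ)) := hs2.continuous
  have h1 : ∀ u, |Φ u| ≤ 1 := fun u => by
    rw [abs_of_nonneg (hΦ.nonneg u)]
    exact hΦ.le_one u
  have hΦ0 : Φ 0 = 1 := hΦ.one 0 (by norm_num)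
  have hΦ1 : Φ 1 = 0 := hΦ.supp 1 (by norm_num)
  have hD1 : deriv Φ 1 = 0 := by
    have h2 : Φ =ᶠ[𝓝 (1 : ℝ)] fun _ => (0 : ℝ) := by
      filter_upwards [Ioi_mem_nhds (show (1 / 2 : ℝ) < 1 by norm_num)] with u hu
      refine hΦ.supp u ?_
      have hu' : (1 / 2 : ℝ) < u := hu
      rw [abs_of_pos (by linarith)]
      exact hu'.le
    rw [h2.deriv_eq]
    exact deriv_const _ _
  set G : ℝ → ℝ := fun t => ∫ u in (0 : ℝ)..1, Φ u * (1 - Real.cos (t * u)) / u with hG
  set C : ℝ := ∫ u in (0 : ℝ)..1, |deriv (deriv Φ) u| with hC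
  have hC0 : 0 ≤ C := intervalIntegral.integral_nonneg zero_le_one fun u _ => abs_nonneg _
  have hS : ∀ t : ℝ, 1 ≤ t → |(∫ u in (0 : ℝ)..1, Φ u * Real.sin (t * u)) - 1 / t| ≤ C / t ^ 2 := by
    intro t ht
    have ht0 : t ≠ 0 := by linarith
    have htp : 0 < t := by linarith
    have hcos : ∀ x : ℝ, HasDerivAt (fun u : ℝ => -Real.cos (t * u) / t) (Real.sin (t * x)) x := by
      intro x
      have h2 : HasDerivAt (fun u : ℝ => Real.cos (t * u)) (-Real.sin (t * x) * (t * 1)) x :=
        (Real.hasDerivAt_cos (t * x)).comp x ((hasDerivAt_id x).const_mul t)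
      have h3 := h2.neg.div_const t
      have h4 : -(-Real.sin (t * x) * (t * 1)) / t = Real.sin (t * x) := by field_simp
      rw [h4] at h3
      exact h3
    have hsin : ∀ x : ℝ, HasDerivAt (fun u : ℝ => Real.sin (t * u) / t) (Real.cos (t * x)) x := by
      intro x
      have h2 : HasDerivAt (fun u : ℝ => Real.sin (t * u)) (Real.cos (t * x) * (t * 1)) x :=
        (Real.hasDerivAt_sin (t * x)).comp x ((hasDerivAt_id x).const_mul t)
      have h3 := h2.div_const t
      have h4 : Real.cos (t * x) * (t * 1) / t = Real.cos (t * x) := by field_simp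
      rw [h4] at h3
      exact h3
    have hp1 := intervalIntegral.integral_mul_deriv_eq_deriv_mul (a := (0 : ℝ)) (b := 1)
      (u := Φ) (u' := deriv Φ) (v := fun u : ℝ => -Real.cos (t * u) / t)
      (v' := fun u : ℝ => Real.sin (t * u)) (fun x _ => (hd x).hasDerivAt) (fun x _ => hcos x)
      (hc1.intervalIntegrable _ _) (Continuous.intervalIntegrable (by fun_prop) _ _)
    have hp2 := intervalIntegral.integral_mul_deriv_eq_deriv_mul (a := (0 : ℝ)) (b := 1)
      (u := deriv Φ) (u' := deriv (deriv Φ)) (v := fun u : ℝ => Real.sin (t * u) / t)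
      (v' := fun u : ℝ => Real.cos (t * u)) (fun x _ => (hd2 x).hasDerivAt) (fun x _ => hsin x)
      (hc2.intervalIntegrable _ _) (Continuous.intervalIntegrable (by fun_prop) _ _)
    have hp3 : ∫ u in (0 : ℝ)..1, deriv Φ u * (-Real.cos (t * u) / t) =
        -(1 / t) * ∫ u in (0 : ℝ)..1, deriv Φ u * Real.cos (t * u) := by
      rw [← intervalIntegral.integral_const_mul]
      refine intervalIntegral.integral_congr fun u _ => ?_
      ring
    have hp4 : ∫ u in (0 : ℝ)..1, deriv (deriv Φ) u * (Real.sin (t * u) / t) =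
        (1 / t) * ∫ u in (0 : ℝ)..1, deriv (deriv Φ) u * Real.sin (t * u) := by
      rw [← intervalIntegral.integral_const_mul]
      refine intervalIntegral.integral_congr fun u _ => ?_
      ring
    rw [hp3, hΦ0, hΦ1, hp2, hp4, hD1, mul_zero, Real.cos_zero, Real.sin_zero] at hp1
    have hp5 : (∫ u in (0 : ℝ)..1, Φ u * Real.sin (t * u)) - 1 / t =
        -((1 / t ^ 2) * ∫ u in (0 : ℝ)..1, deriv (deriv Φ) u * Real.sin (t * u)) := by
      rw [hp1]
      ring
    have hp6 : |∫ u in (0 : ℝ)..1, deriv (deriv Φ) u * Real.sin (t * u)| ≤ C := by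
      refine (intervalIntegral.abs_integral_le_integral_abs zero_le_one).trans ?_
      refine intervalIntegral.integral_mono_on zero_le_one
        (Continuous.intervalIntegrable (by fun_prop) _ _)
        (Continuous.intervalIntegrable (by fun_prop) _ _) fun u _ => ?_
      rw [abs_mul]
      calc |deriv (deriv Φ) u| * |Real.sin (t * u)| ≤ |deriv (deriv Φ) u| * 1 :=
            mul_le_mul_of_nonneg_left (Real.abs_sin_le_one _) (abs_nonneg _)
        _ = |deriv (deriv Φ) u| := mul_one _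
    rw [hp5, abs_neg, abs_mul, abs_of_pos (by positivity), div_mul_eq_mul_div, one_mul]
    exact div_le_div_of_nonneg_right hp6 (by positivity)
  have hGd : ∀ t : ℝ, HasDerivAt G (∫ u in (0 : ℝ)..1, Φ u * Real.sin (t * u)) t :=
    fun t => Z1b_deriv Φ hc h1 t
  have hinv : ∀ t : ℝ, t ≠ 0 → HasDerivAt (fun t : ℝ => C / t) (-C / t ^ 2) t := by
    intro t ht
    have h2 := (hasDerivAt_inv ht).const_mul C
    have h3 : C * -(t ^ 2)⁻¹ = -C / t ^ 2 := by
      rw [div_eq_mul_inv]
      ring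
    rw [h3] at h2
    exact h2
  have hH : ∀ t : ℝ, t ≠ 0 → HasDerivAt (fun t : ℝ => G t - Real.log t)
      ((∫ u in (0 : ℝ)..1, Φ u * Real.sin (t * u)) - 1 / t) t := by
    intro t ht
    have h2 := (hGd t).sub (Real.hasDerivAt_log ht)
    rw [← one_div] at h2
    exact h2
  have hlow : MonotoneOn (fun t : ℝ => (G t - Real.log t) - C / t) (Set.Ici 1) := by
    have hder : ∀ t : ℝ, t ∈ Set.Ici (1 : ℝ) → HasDerivAt (fun t : ℝ => (G t - Real.log t) - C / t)
        (((∫ u in (0 : ℝ)..1, Φ u * Real.sin (t * u)) - 1 / t) - -C / t ^ 2) t := by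
      intro t ht
      have ht0 : t ≠ 0 := by
        have : (1 : ℝ) ≤ t := ht
        linarith
      exact (hH t ht0).sub (hinv t ht0)
    refine monotoneOn_of_deriv_nonneg (convex_Ici 1)
      (fun t ht => (hder t ht).continuousAt.continuousWithinAt)
      (fun t ht => (hder t (interior_subset ht)).differentiableAt.differentiableWithinAt)
      fun t ht => ?_
    rw [(hder t (interior_subset ht)).deriv]
    have h2 := (abs_le.1 (hS t (interior_subset ht))).1
    have h3 : -C / t ^ 2 = -(C / t ^ 2) := neg_div _ _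
    rw [h3]
    linarith
  have hup : AntitoneOn (fun t : ℝ => (G t - Real.log t) + C / t) (Set.Ici 1) := by
    have hder : ∀ t : ℝ, t ∈ Set.Ici (1 : ℝ) → HasDerivAt (fun t : ℝ => (G t - Real.log t) + C / t)
        (((∫ u in (0 : ℝ)..1, Φ u * Real.sin (t * u)) - 1 / t) + -C / t ^ 2) t := by
      intro t ht
      have ht0 : t ≠ 0 := by
        have : (1 : ℝ) ≤ t := ht
        linarith
      exact (hH t ht0).add (hinv t ht0)
    refine antitoneOn_of_deriv_nonpos (convex_Ici 1)
      (fun t ht => (hder t ht).continuousAt.continuousWithinAt)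
      (fun t ht => (hder t (interior_subset ht)).differentiableAt.differentiableWithinAt)
      fun t ht => ?_
    rw [(hder t (interior_subset ht)).deriv]
    have h2 := (abs_le.1 (hS t (interior_subset ht))).2
    have h3 : -C / t ^ 2 = -(C / t ^ 2) := neg_div _ _
    rw [h3]
    linarith
  have hcross : ∀ s t : ℝ, 1 ≤ s → 1 ≤ t →
      (G s - Real.log s) - C / s ≤ (G t - Real.log t) + C / t := by
    intro s t hs ht
    have hs0 : 0 ≤ C / s := div_nonneg hC0 (by linarith)
    have ht0 : 0 ≤ C / t := div_nonneg hC0 (by linarith)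
    rcases le_total s t with h | h
    · have h2 : (G s - Real.log s) - C / s ≤ (G t - Real.log t) - C / t := hlow hs ht h
      linarith
    · have h2 : (G s - Real.log s) + C / s ≤ (G t - Real.log t) + C / t := hup ht hs h
      linarith
  set K : ℝ := ⨆ s : Set.Ici (1 : ℝ), ((G s - Real.log s) - C / s) with hK
  have hbdd : BddAbove (Set.range fun s : Set.Ici (1 : ℝ) => ((G s - Real.log s) - C / s)) := by
    refine ⟨(G 1 - Real.log 1) + C / 1, ?_⟩
    rintro _ ⟨s, rfl⟩
    exact hcross s 1 s.2 le_rfl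
  refine ⟨K, C, hC0, fun t ht => ?_⟩
  have h2 : (G t - Real.log t) - C / t ≤ K :=
    le_ciSup hbdd (⟨t, ht⟩ : Set.Ici (1 : ℝ))
  have h3 : K ≤ (G t - Real.log t) + C / t := by
    have : Nonempty (Set.Ici (1 : ℝ)) := ⟨⟨1, le_refl (1 : ℝ)⟩⟩
    exact ciSup_le fun s => hcross s t s.2 ht
  rw [abs_le]
  constructor
  · have h4 : G t = ∫ u in (0 : ℝ)..1, Φ u * (1 - Real.cos (t * u)) / u := rfl
    rw [← h4]
    linarith
  · have h4 : G t = ∫ u in (0 : ℝ)..1, Φ u * (1 - Real.cos (t * u)) / u := rfl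
    rw [← h4]
    linarith

end Pool.Agent.Lib.MP_2a816b_nt.TA
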