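import Pool.Agent.Lib.MP_2a816b_nt.TA.W0
import Pool.Agent.Lib.MP_2a816b_nt.TA.Z1
import Pool.Agent.Lib.MP_2a816b_nt.TA.Z1b

open Complex Set Filter Topology MeasureTheory
open scoped ContDiff

namespace Pool.Agent.Lib.MP_2a816b_nt.TA

open Pool.Agent.Lib.MP_00e05b_nt Pool.Agent.Lib.MP_00e05b_nt.Mont Pool.Agent.Lib.MP_2a816b_nt.PV

/-- `F` is bounded by `M` with derivative bounded by `M` on `(0, 1]` -/
def Z2_B (F : ℝ → ℝ) (M : ℝ) : Prop :=
  ∀ u : ℝ, 0 < u → u ≤ 1 → |F u| ≤ M ∧ ∃ d : ℝ, HasDerivAt F d u ∧ |d| ≤ M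

private theorem Z2_meas {F : ℝ → ℝ} {M : ℝ} (hF : Z2_B F M) :
    AEStronglyMeasurable F (volume.restrict (Ioc (0 : ℝ) 1)) := by
  have hc : ContinuousOn F (Ioc 0 1) := fun u hu => by
    obtain ⟨_, d, hd, _⟩ := hF u hu.1 hu.2
    exact hd.continuousAt.continuousWithinAt
  exact hc.aestronglyMeasurable measurableSet_Ioc

private theorem Z2_bdd_int {F : ℝ → ℝ} {M : ℝ}
    (hm : AEStronglyMeasurable F (volume.restrict (Ioc (0 : ℝ) 1)))
    (hb : ∀ u : ℝ, 0 < u → u ≤ 1 → |F u| ≤ M) : IntervalIntegrable F volume 0 1 := by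
  rw [intervalIntegrable_iff_integrableOn_Ioc_of_le zero_le_one]
  refine Integrable.of_bound hm M ?_
  rw [ae_restrict_iff' measurableSet_Ioc]
  exact Eventually.of_forall fun u hu => hb u hu.1 hu.2

private theorem Z2_int {F φ : ℝ → ℝ} {M K : ℝ} (hM : 0 ≤ M) (hF : Z2_B F M) (hφ : Continuous φ)
    (hK : ∀ u, |φ u| ≤ K) : IntervalIntegrable (fun u => F u * φ u) volume 0 1 := by
  refine Z2_bdd_int (M := M * K) ((Z2_meas hF).mul hφ.aestronglyMeasurable) fun u h0 h1 => ?_
  rw [abs_mul]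
  exact mul_le_mul (hF u h0 h1).1 (hK u) (abs_nonneg _) hM

private theorem Z2_parts {F ψ φ : ℝ → ℝ} {M K L : ℝ} (hM : 0 ≤ M) (hF : Z2_B F M)
    (hψ : ∀ u, HasDerivAt ψ (φ u) u) (hφ : Continuous φ) (h0 : ψ 0 = 0)
    (hK : ∀ u, |ψ u| ≤ K) (hL : ∀ u, |φ u| ≤ L) :
    |∫ u in (0 : ℝ)..1, F u * φ u| ≤ 2 * M * K := by
  have hK0 : 0 ≤ K := (abs_nonneg _).trans (hK 0)
  have hψc : Continuous ψ := continuous_iff_continuousAt.2 fun u => (hψ u).continuousAt
  have hi1 : IntervalIntegrable (fun u => F u * φ u) volume 0 1 := Z2_int hM hF hφ hL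
  have hdb : ∀ u : ℝ, 0 < u → u ≤ 1 → |deriv F u| ≤ M := fun u hu0 hu1 => by
    obtain ⟨_, d, hd, hdM⟩ := hF u hu0 hu1
    rwa [hd.deriv]
  have hi2 : IntervalIntegrable (fun u => deriv F u * ψ u) volume 0 1 := by
    refine Z2_bdd_int (M := M * K) (((measurable_deriv F).aestronglyMeasurable).mul hψc.aestronglyMeasurable)
      fun u h0 h1 => ?_
    rw [abs_mul]
    exact mul_le_mul (hdb u h0 h1) (hK u) (abs_nonneg _) hM
  have hder : ∀ u ∈ Ioo (0 : ℝ) 1, HasDerivAt (fun u => F u * ψ u) (deriv F u * ψ u + F u * φ u) u := by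
    intro u hu
    obtain ⟨_, d, hd, _⟩ := hF u hu.1 hu.2.le
    have := hd.mul (hψ u)
    rwa [← hd.deriv] at this
  have ha : Tendsto (fun u => F u * ψ u) (𝓝[>] 0) (𝓝 0) := by
    have hz : Tendsto (fun u => M * |ψ u|) (𝓝[>] 0) (𝓝 0) := by
      have h1 : Tendsto (fun u => M * |ψ u|) (𝓝 0) (𝓝 (M * |ψ 0|)) :=
        (continuous_const.mul hψc.abs).tendsto 0
      rw [h0, abs_zero, mul_zero] at h1
      exact h1.mono_left nhdsWithin_le_nhds
    refine squeeze_zero_norm' ?_ hz
    have : Ioc (0 : ℝ) 1 ∈ 𝓝[>] (0 : ℝ) := Ioc_mem_nhdsGT zero_lt_one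
    filter_upwards [this] with u hu
    rw [Real.norm_eq_abs, abs_mul]
    exact mul_le_mul_of_nonneg_right (hF u hu.1 hu.2).1 (abs_nonneg _)
  have hb : Tendsto (fun u => F u * ψ u) (𝓝[<] 1) (𝓝 (F 1 * ψ 1)) := by
    obtain ⟨_, d, hd, _⟩ := hF 1 one_pos le_rfl
    have h1 : ContinuousAt (fun u => F u * ψ u) 1 := hd.continuousAt.mul hψc.continuousAt
    exact h1.tendsto.mono_left nhdsWithin_le_nhds
  have hFTC := intervalIntegral.integral_eq_sub_of_hasDerivAt_of_tendsto zero_lt_one hder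
    (hi2.add hi1) ha hb
  rw [intervalIntegral.integral_add hi2 hi1, sub_zero] at hFTC
  have e : ∫ u in (0 : ℝ)..1, F u * φ u = F 1 * ψ 1 - ∫ u in (0 : ℝ)..1, deriv F u * ψ u := by
    linarith
  rw [e]
  have b1 : |F 1 * ψ 1| ≤ M * K := by
    rw [abs_mul]
    exact mul_le_mul (hF 1 one_pos le_rfl).1 (hK 1) (abs_nonneg _) hM
  have b2 : |∫ u in (0 : ℝ)..1, deriv F u * ψ u| ≤ M * K := by
    have := intervalIntegral.norm_integral_le_of_norm_le_const (a := (0 : ℝ)) (b := 1) (C := M * K)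
      (f := fun u => deriv F u * ψ u) (fun u hu => by
        rw [uIoc_of_le zero_le_one] at hu
        rw [Real.norm_eq_abs, abs_mul]
        exact mul_le_mul (hdb u hu.1 hu.2) (hK u) (abs_nonneg _) hM)
    simpa using this
  have := abs_sub (F 1 * ψ 1) (∫ u in (0 : ℝ)..1, deriv F u * ψ u)
  linarith

private theorem Z2_cos {F : ℝ → ℝ} {M : ℝ} (hM : 0 ≤ M) (hF : Z2_B F M) {t : ℝ} (ht : 0 < t) :
    |∫ u in (0 : ℝ)..1, F u * Real.cos (t * u)| ≤ 2 * M / t := by
  have h := Z2_parts (φ := fun u => Real.cos (t * u)) (ψ := fun u => Real.sin (t * u) / t) (K := 1 / t)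
    (L := 1) hM hF ?_ (by fun_prop) (by simp) ?_ (fun u => Real.abs_cos_le_one _)
  · rwa [mul_one_div] at h
  · intro u
    have h3 : HasDerivAt (fun u => t * u) t u := by
      simpa using (hasDerivAt_id u).const_mul t
    have h4 := (h3.sin).div_const t
    have e : Real.cos (t * u) * t / t = Real.cos (t * u) := by field_simp
    rwa [e] at h4
  · intro u
    rw [abs_div, abs_of_pos ht]
    exact div_le_div_of_nonneg_right (Real.abs_sin_le_one _) ht.le

private theorem Z2_sin {F : ℝ → ℝ} {M : ℝ} (hM : 0 ≤ M) (hF : Z2_B F M) {t : ℝ} (ht : 0 < t) :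
    |∫ u in (0 : ℝ)..1, F u * Real.sin (t * u)| ≤ 4 * M / t := by
  have h := Z2_parts (φ := fun u => Real.sin (t * u)) (ψ := fun u => (1 - Real.cos (t * u)) / t) (K := 2 / t)
    (L := 1) hM hF ?_ (by fun_prop) (by simp) ?_ (fun u => Real.abs_sin_le_one _)
  · refine h.trans (le_of_eq (by ring))
  · intro u
    have h3 : HasDerivAt (fun u => t * u) t u := by
      simpa using (hasDerivAt_id u).const_mul t
    have h4 := ((h3.cos).const_sub 1).div_const t
    have e : -(-Real.sin (t * u) * t) / t = Real.sin (t * u) := by field_simp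
    rwa [e] at h4
  · intro u
    rw [abs_div, abs_of_pos ht]
    refine div_le_div_of_nonneg_right ?_ ht.le
    have h1 := Real.neg_one_le_cos (t * u)
    have h2 := Real.cos_le_one (t * u)
    rw [abs_le]
    constructor <;> linarith

/-- `f` is smooth with `f`, `f'`, `f''` bounded by `M` -/
def Z2_S (f : ℝ → ℝ) (M : ℝ) : Prop :=
  ContDiff ℝ ∞ f ∧ ∀ u : ℝ, |f u| ≤ M ∧ |deriv f u| ≤ M ∧ |deriv (deriv f) u| ≤ M

private theorem Z2_S.has {f : ℝ → ℝ} {M : ℝ} (h : Z2_S f M) (u : ℝ) : HasDerivAt f (deriv f u) u :=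
  (h.1.differentiable (by simp)).differentiableAt.hasDerivAt

private theorem Z2_S.smooth' {f : ℝ → ℝ} {M : ℝ} (h : Z2_S f M) : ContDiff ℝ ∞ (deriv f) :=
  (contDiff_infty_iff_deriv.1 h.1).2

private theorem Z2_S.has' {f : ℝ → ℝ} {M : ℝ} (h : Z2_S f M) (u : ℝ) :
    HasDerivAt (deriv f) (deriv (deriv f) u) u :=
  (h.smooth'.differentiable (by simp)).differentiableAt.hasDerivAt

private theorem Z2_div {f : ℝ → ℝ} {M : ℝ} (h : Z2_S f M) (h0 : f 0 = 0) :
    Z2_B (fun u => f u / u) M := by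
  intro u hu0 hu1
  constructor
  · have h3 := Convex.norm_image_sub_le_of_norm_deriv_le (f := f) (C := M) (s := univ) (x := 0) (y := u)
      (fun x _ => (h.has x).differentiableAt) (fun x _ => (h.2 x).2.1)
      convex_univ (mem_univ _) (mem_univ _)
    rw [h0, sub_zero, sub_zero, Real.norm_eq_abs, Real.norm_eq_abs, abs_of_pos hu0] at h3
    rw [abs_div, abs_of_pos hu0, div_le_iff₀ hu0]
    exact h3
  · refine ⟨(deriv f u * u - f u * 1) / u ^ 2, (h.has u).div (hasDerivAt_id u) hu0.ne', ?_⟩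
    have hder : ∀ x ∈ Icc (0 : ℝ) u, HasDerivWithinAt (fun x => deriv f x * x - f x)
        (deriv (deriv f) x * x) (Icc (0 : ℝ) u) x := by
      intro x _
      have h1 := ((h.has' x).mul (hasDerivAt_id x)).sub (h.has x)
      have e : deriv (deriv f) x * id x + deriv f x * 1 - deriv f x = deriv (deriv f) x * x := by
        simp
      rw [e] at h1
      exact h1.hasDerivWithinAt
    have h3 := Convex.norm_image_sub_le_of_norm_hasDerivWithin_le (f := fun x => deriv f x * x - f x)
      (C := M * u) (s := Icc (0 : ℝ) u) (x := 0) (y := u) hder (fun x hx => by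
        rw [Real.norm_eq_abs, abs_mul, abs_of_nonneg hx.1]
        exact mul_le_mul (h.2 x).2.2 hx.2 hx.1 ((abs_nonneg _).trans (h.2 x).1))
      (convex_Icc 0 u) (by simp [hu0.le]) (by simp [hu0.le])
    simp only [mul_zero, h0, sub_zero, Real.norm_eq_abs, abs_of_pos hu0] at h3
    rw [mul_one, abs_div, abs_of_pos (pow_pos hu0 2), div_le_iff₀ (pow_pos hu0 2)]
    refine h3.trans (le_of_eq (by ring))

private theorem Z2_mul {f F : ℝ → ℝ} {M C : ℝ} (h : Z2_S f M) (hF : Z2_B F C) :
    Z2_B (fun u => f u * F u) (2 * M * C) := by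
  have hM : 0 ≤ M := (abs_nonneg _).trans (h.2 0).1
  intro u hu0 hu1
  obtain ⟨hb, d, hd, hdC⟩ := hF u hu0 hu1
  have hC : 0 ≤ C := (abs_nonneg _).trans hb
  constructor
  · rw [abs_mul]
    have : |f u| * |F u| ≤ M * C := mul_le_mul (h.2 u).1 hb (abs_nonneg _) hM
    nlinarith [mul_nonneg hM hC]
  · refine ⟨_, (h.has u).mul hd, ?_⟩
    refine (abs_add_le _ _).trans ?_
    rw [abs_mul, abs_mul]
    have h1 : |deriv f u| * |F u| ≤ M * C := mul_le_mul (h.2 u).2.1 hb (abs_nonneg _) hM
    have h2 : |f u| * |d| ≤ M * C := mul_le_mul (h.2 u).1 hdC (abs_nonneg _) hM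
    linarith

private theorem Z2_exM {f : ℝ → ℝ} {s : ℝ} (h : ES f s) : ∃ M : ℝ, 0 ≤ M ∧ Z2_S f M := by
  have hd : ContDiff ℝ ∞ (deriv f) := (contDiff_infty_iff_deriv.1 h.smooth).2
  have hdd : ContDiff ℝ ∞ (deriv (deriv f)) := (contDiff_infty_iff_deriv.1 hd).2
  obtain ⟨C0, hC0⟩ := h.continuous.bounded_above_of_compact_support h.compact
  obtain ⟨C1, hC1⟩ := hd.continuous.bounded_above_of_compact_support h.compact.deriv
  obtain ⟨C2, hC2⟩ := hdd.continuous.bounded_above_of_compact_support h.compact.deriv.deriv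
  have h0 : 0 ≤ C0 := (norm_nonneg _).trans (hC0 0)
  refine ⟨max C0 (max C1 C2), le_max_of_le_left h0, h.smooth, fun u => ⟨?_, ?_, ?_⟩⟩
  · exact (hC0 u).trans (le_max_left _ _)
  · exact (hC1 u).trans ((le_max_left _ _).trans (le_max_right _ _))
  · exact (hC2 u).trans ((le_max_right _ _).trans (le_max_right _ _))

private theorem Z2_Ssub {f g : ℝ → ℝ} {M K : ℝ} (c : ℝ) (hf : Z2_S f M) (hg : Z2_S g K) :
    Z2_S (fun u => f u - c * g u) (M + |c| * K) := by
  have h1 : deriv (fun u => f u - c * g u) = fun u => deriv f u - c * deriv g u := by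
    funext u
    exact ((hf.has u).sub ((hg.has u).const_mul c)).deriv
  have h2 : deriv (fun u => deriv f u - c * deriv g u) = fun u => deriv (deriv f) u - c * deriv (deriv g) u := by
    funext u
    exact ((hf.has' u).sub ((hg.has' u).const_mul c)).deriv
  refine ⟨hf.1.sub (contDiff_const.mul hg.1), fun u => ?_⟩
  rw [h1, h2]
  have key : ∀ x y : ℝ, |x| ≤ M → |y| ≤ K → |x - c * y| ≤ M + |c| * K := by
    intro x y hx hy
    refine (abs_sub _ _).trans ?_
    rw [abs_mul]
    exact add_le_add hx (mul_le_mul_of_nonneg_left hy (abs_nonneg _))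
  exact ⟨key _ _ (hf.2 u).1 (hg.2 u).1, key _ _ (hf.2 u).2.1 (hg.2 u).2.1, key _ _ (hf.2 u).2.2 (hg.2 u).2.2⟩

private theorem Z2_shift {f : ℝ → ℝ} {M : ℝ} (hf : Z2_S f M) (c s : ℝ) (hs : |s| = 1) :
    Z2_S (fun v => (f (v - c) + s * f (v + c)) / 2) M := by
  have h1 : deriv (fun v => (f (v - c) + s * f (v + c)) / 2) =
      fun v => (deriv f (v - c) + s * deriv f (v + c)) / 2 := by
    funext v
    have a1 : HasDerivAt (fun v => f (v - c)) (deriv f (v - c)) v := by
      simpa using (hf.has (v - c)).comp_sub_const v c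
    have a2 : HasDerivAt (fun v => f (v + c)) (deriv f (v + c)) v := by
      simpa using (hf.has (v + c)).comp_add_const v c
    exact ((a1.add (a2.const_mul s)).div_const 2).deriv
  have h2 : deriv (fun v => (deriv f (v - c) + s * deriv f (v + c)) / 2) =
      fun v => (deriv (deriv f) (v - c) + s * deriv (deriv f) (v + c)) / 2 := by
    funext v
    have a1 : HasDerivAt (fun v => deriv f (v - c)) (deriv (deriv f) (v - c)) v := by
      simpa using (hf.has' (v - c)).comp_sub_const v c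
    have a2 : HasDerivAt (fun v => deriv f (v + c)) (deriv (deriv f) (v + c)) v := by
      simpa using (hf.has' (v + c)).comp_add_const v c
    exact ((a1.add (a2.const_mul s)).div_const 2).deriv
  have hsm : ContDiff ℝ ∞ (fun v => (f (v - c) + s * f (v + c)) / 2) := by
    have b1 : ContDiff ℝ ∞ (fun v => f (v - c)) := hf.1.comp (contDiff_id.sub contDiff_const)
    have b2 : ContDiff ℝ ∞ (fun v => f (v + c)) := hf.1.comp (contDiff_id.add contDiff_const)
    exact (b1.add (contDiff_const.mul b2)).div_const 2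
  refine ⟨hsm, fun u => ?_⟩
  rw [h1, h2]
  have key : ∀ x y : ℝ, |x| ≤ M → |y| ≤ M → |(x + s * y) / 2| ≤ M := by
    intro x y hx hy
    rw [abs_div, abs_two]
    have := abs_add_le x (s * y)
    rw [abs_mul, hs, one_mul] at this
    linarith
  exact ⟨key _ _ (hf.2 _).1 (hf.2 _).1, key _ _ (hf.2 _).2.1 (hf.2 _).2.1, key _ _ (hf.2 _).2.2 (hf.2 _).2.2⟩


private theorem Z2_cc {f φ : ℝ → ℝ} (hc : Continuous f) (hs : HasCompactSupport f) (hφ : Continuous φ) :
    Integrable (fun u => f u * φ u) :=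
  (hc.mul hφ).integrable_of_hasCompactSupport hs.mul_right

private theorem Z2_sum {h : ℝ → ℝ} (hh : ES h (1 / 2)) (t : ℝ) :
    Summable (fun a : ℂ => (mx a : ℝ) * |ck h (t - a.im)|) := by
  obtain ⟨C, hC, hb⟩ := ck_bound hh (by norm_num)
  refine Summable.of_nonneg_of_le (fun a => by positivity) (fun a => ?_) ((summable_cube t).mul_left C)
  have h1 := hb (t - a.im)
  rw [abs_sub_comm t a.im] at h1
  calc (mx a : ℝ) * |ck h (t - a.im)| ≤ (mx a : ℝ) * (C / (1 + |a.im - t|) ^ 3) := by
        gcongr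
    _ = C * ((mx a : ℝ) / (1 + |a.im - t|) ^ 3) := by ring

/-- symmetrization: `φ x + φ' x = 2 ψ x` with `φ' x = φ (-x)` -/
private theorem Z2_symm {φ ψ : ℝ → ℝ} (hs : Summable (fun a : ℂ => (mx a : ℝ) * φ a.im))
    (h : ∀ x, φ x + φ (-x) = 2 * ψ x) :
    ∑' a : ℂ, (mx a : ℝ) * φ a.im = ∑' a : ℂ, (mx a : ℝ) * ψ a.im := by
  have h1 := sum_symm φ
  have h2 := summable_symm φ hs
  have h3 : ∑' a : ℂ, (mx a : ℝ) * φ a.im + ∑' a : ℂ, (mx a : ℝ) * φ (-a.im) =
      2 * ∑' a : ℂ, (mx a : ℝ) * ψ a.im := by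
    rw [← hs.tsum_add h2, ← tsum_mul_left]
    refine tsum_congr fun a => ?_
    rw [← mul_add, h]
    ring
  linarith

/-- the exact formula for an even function, relative to `Φ` -/
private theorem Z2_exact (hRH : RiemannHypothesis) {Φ : ℝ → ℝ} (hΦ : EB Φ (1 / 2)) {G : ℝ → ℝ} (hG : ES G (1 / 2)) :
    ∑' a : ℂ, (mx a : ℝ) * ck G a.im = G 0 * ∑' a : ℂ, (mx a : ℝ) * ck Φ a.im +
      2 * ∫ u in (0 : ℝ)..1, (G u - G 0 * Φ u) * kx u := by
  have hΦ0 : Φ 0 = 1 := hΦ.one 0 (by norm_num)
  have hg : ES (fun u => G u - G 0 * Φ u) (5 / 8) := by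
    refine ⟨hG.smooth.sub (contDiff_const.mul hΦ.smooth), fun u => ?_, fun u hu => ?_⟩
    · simp only [hG.even, hΦ.even]
    · have h1 : (1 : ℝ) / 2 ≤ |u| := by linarith
      simp only [hG.supp u h1, hΦ.supp u h1, mul_zero, sub_zero]
  obtain ⟨hs, ht⟩ := w0 hRH hg (by simp [hΦ0])
  have hsΦ : Summable (fun a : ℂ => (mx a : ℝ) * ck Φ a.im) := by
    have h1 := Z2_sum hΦ.es 0
    refine Summable.of_norm_bounded h1 fun a => ?_
    rw [norm_mul, Real.norm_natCast, Real.norm_eq_abs, zero_sub, ck_even]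
  have hck : ∀ x, ck G x = ck (fun u => G u - G 0 * Φ u) x + G 0 * ck Φ x := by
    intro x
    unfold ck
    have i1 := Z2_cc hG.continuous hG.compact (φ := fun u => Real.cos (x * u)) (by fun_prop)
    have i2 := Z2_cc hΦ.es.continuous hΦ.es.compact (φ := fun u => Real.cos (x * u)) (by fun_prop)
    rw [← integral_const_mul, ← integral_add]
    · congr 1
      funext u
      ring
    · refine (i1.sub (i2.const_mul (G 0))).congr (Eventually.of_forall fun u => ?_)
      simp only [Pi.sub_apply]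
      ring
    · exact i2.const_mul _
  have e : ∀ a : ℂ, (mx a : ℝ) * ck G a.im = (mx a : ℝ) * ck (fun u => G u - G 0 * Φ u) a.im +
      G 0 * ((mx a : ℝ) * ck Φ a.im) := fun a => by rw [hck]; ring
  rw [tsum_congr e, hs.tsum_add (hsΦ.mul_left _), tsum_mul_left, ht]
  ring

/-- the main term and the error, uniformly -/
private theorem Z2_main (hRH : RiemannHypothesis) : ∃ κ C : ℝ, 0 ≤ C ∧ (∀ h : ℝ → ℝ, ∀ M : ℝ, ES h (1 / 2) → Z2_S h M →
      ∀ t : ℝ, 1 ≤ t → |(∑' a : ℂ, (mx a : ℝ) * ck h (t - a.im)) - h 0 * (Real.log t + κ)| ≤ C * M / t) ∧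
    (∀ f : ℝ → ℝ, ∀ M : ℝ, (∀ u, f (-u) = -f u) → (∀ u, 1 / 2 ≤ |u| → f u = 0) → Z2_S f M →
      ∀ t : ℝ, 1 ≤ t → |∑' a : ℂ, (mx a : ℝ) * ck (fun u => f u * Real.sin (t * u)) a.im| ≤ C * M / t) := by
  obtain ⟨Φ, hΦ⟩ := exists_EB (1 / 2) (by norm_num)
  obtain ⟨k, Ck, hCk, hk⟩ := frul_exact hΦ
  obtain ⟨r, Cr, hCr, hkx, hr⟩ := kx_split
  obtain ⟨MΦ, hMΦ0, hMΦ⟩ := Z2_exM hΦ.es
  have hr' : Z2_B r Cr := hr
  have hΦ0 : Φ 0 = 1 := hΦ.one 0 (by norm_num)
  have iΦr : IntervalIntegrable (fun u => Φ u * r u) volume 0 1 := by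
    have := Z2_int (φ := Φ) (K := MΦ) hCr hr' hΦ.smooth.continuous (fun u => (hMΦ.2 u).1)
    exact this.congr (by
      rw [uIoc_of_le zero_le_one]
      exact fun u _ => mul_comm _ _)
  refine ⟨(∑' a : ℂ, (mx a : ℝ) * ck Φ a.im) + k - 2 * ∫ u in (0 : ℝ)..1, Φ u * r u,
    2 * (1 + MΦ) + 16 * Cr + Ck + 4, by positivity, ?_, ?_⟩
  · intro h M hh hM t ht
    have hM0 : 0 ≤ M := (abs_nonneg _).trans (hM.2 0).1
    have ht0 : 0 < t := by linarith
    have hh0 : |h 0| ≤ M := (hM.2 0).1
    -- the even function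
    have hG : ES (fun u => h u * Real.cos (t * u)) (1 / 2) := by
      refine ⟨hh.smooth.mul (Real.contDiff_cos.comp (contDiff_const.mul contDiff_id)), fun u => ?_, fun u hu => ?_⟩
      · simp only [hh.even, mul_neg, Real.cos_neg]
      · simp only [hh.supp u hu, zero_mul]
    have hsum : Summable (fun a : ℂ => (mx a : ℝ) * ck h (t - a.im)) := by
      refine Summable.of_norm_bounded (Z2_sum hh t) fun a => ?_
      rw [norm_mul, Real.norm_natCast, Real.norm_eq_abs]
    have hsy : ∑' a : ℂ, (mx a : ℝ) * ck h (t - a.im) =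
        ∑' a : ℂ, (mx a : ℝ) * ck (fun u => h u * Real.cos (t * u)) a.im := by
      refine Z2_symm (φ := fun x => ck h (t - x)) (ψ := ck (fun u => h u * Real.cos (t * u))) hsum fun x => ?_
      have i1 := Z2_cc hh.continuous hh.compact (φ := fun u => Real.cos ((t - x) * u)) (by fun_prop)
      have i2 := Z2_cc hh.continuous hh.compact (φ := fun u => Real.cos ((t + x) * u)) (by fun_prop)
      simp only [ck, sub_neg_eq_add]
      rw [← integral_add i1 i2, ← integral_const_mul]
      congr 1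
      funext u
      have e1 : (t - x) * u = t * u - x * u := by ring
      have e2 : (t + x) * u = t * u + x * u := by ring
      rw [e1, e2, Real.cos_sub, Real.cos_add]
      ring
    have hex := Z2_exact hRH hΦ hG
    simp only [mul_zero, Real.cos_zero, mul_one] at hex
    rw [hsy, hex]
    -- the three integrals
    set F1 : ℝ → ℝ := fun u => (h u - h 0 * Φ u) / u with hF1
    set F2 : ℝ → ℝ := fun u => h u * r u with hF2
    have hB1 : Z2_B F1 (M + |h 0| * MΦ) := Z2_div (Z2_Ssub (h 0) hM hMΦ) (by simp [hΦ0])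
    have hB2 : Z2_B F2 (2 * M * Cr) := Z2_mul hM hr'
    have hB1M : 0 ≤ M + |h 0| * MΦ := by positivity
    have hB2M : 0 ≤ 2 * M * Cr := by positivity
    have i1 : IntervalIntegrable (fun u => F1 u * Real.cos (t * u)) volume 0 1 :=
      Z2_int hB1M hB1 (by fun_prop) (fun u => Real.abs_cos_le_one _)
    have i2 : IntervalIntegrable (fun u => F2 u * Real.cos (t * u)) volume 0 1 :=
      Z2_int hB2M hB2 (by fun_prop) (fun u => Real.abs_cos_le_one _)
    have i3 : IntervalIntegrable (fun u => Φ u * (1 - Real.cos (t * u)) / u) volume 0 1 := by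
      refine Z2_bdd_int (M := 1 * t) ?_ fun u h0 h1 => ?_
      · refine ContinuousOn.aestronglyMeasurable ?_ measurableSet_Ioc
        intro u hu
        refine ContinuousAt.continuousWithinAt (ContinuousAt.div ?_ continuousAt_id hu.1.ne')
        exact (hΦ.smooth.continuous.mul (by fun_prop)).continuousAt
      · rw [mul_div_assoc, abs_mul]
        refine mul_le_mul ?_ ?_ (abs_nonneg _) zero_le_one
        · rw [abs_of_nonneg (hΦ.nonneg u)]; exact hΦ.le_one u
        · rw [abs_div, abs_of_pos h0, div_le_iff₀ h0]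
          have h5 : |Real.cos (t * u) - Real.cos 0| ≤ |t * u - 0| := by
            have := Convex.norm_image_sub_le_of_norm_deriv_le (f := Real.cos) (C := 1) (s := univ) (x := 0) (y := t * u)
              (fun x _ => Real.differentiable_cos.differentiableAt)
              (fun x _ => by rw [Real.deriv_cos, norm_neg]; exact Real.abs_sin_le_one x)
              convex_univ (mem_univ _) (mem_univ _)
            simpa using this
          rw [Real.cos_zero, sub_zero, abs_of_pos (mul_pos ht0 h0), abs_sub_comm] at h5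
          exact h5
    have hint : ∫ u in (0 : ℝ)..1, (h u * Real.cos (t * u) - h 0 * Φ u) * kx u =
        ∫ u in (0 : ℝ)..1, ((-(1 / 2) * (F1 u * Real.cos (t * u)) + (h 0 / 2) * (Φ u * (1 - Real.cos (t * u)) / u)) +
          F2 u * Real.cos (t * u)) - h 0 * (Φ u * r u) := by
      refine intervalIntegral.integral_congr_ae (Eventually.of_forall fun u hu => ?_)
      rw [uIoc_of_le zero_le_one] at hu
      have hu0 : u ≠ 0 := hu.1.ne'
      rw [hkx u hu.1 hu.2, hF1, hF2]
      field_simp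
      ring
    rw [hint, intervalIntegral.integral_sub (((i1.const_mul _).add (i3.const_mul _)).add i2) (iΦr.const_mul _),
      intervalIntegral.integral_add ((i1.const_mul _).add (i3.const_mul _)) i2,
      intervalIntegral.integral_add (i1.const_mul _) (i3.const_mul _),
      intervalIntegral.integral_const_mul, intervalIntegral.integral_const_mul,
      intervalIntegral.integral_const_mul]
    have b1 := Z2_cos hB1M hB1 ht0
    have b2 := Z2_cos hB2M hB2 ht0
    have b3 := hk t ht
    set I1 := ∫ u in (0 : ℝ)..1, F1 u * Real.cos (t * u)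
    set I2 := ∫ u in (0 : ℝ)..1, F2 u * Real.cos (t * u)
    set I3 := ∫ u in (0 : ℝ)..1, Φ u * (1 - Real.cos (t * u)) / u
    set I4 := ∫ u in (0 : ℝ)..1, Φ u * r u
    set S := ∑' a : ℂ, (mx a : ℝ) * ck Φ a.im
    have e : h 0 * S + 2 * (-(1 / 2) * I1 + h 0 / 2 * I3 + I2 - h 0 * I4) - h 0 * (Real.log t + (S + k - 2 * I4)) =
        -I1 + 2 * I2 + h 0 * (I3 - (Real.log t + k)) := by ring
    rw [e]
    have c1 : |-I1| ≤ 2 * (1 + MΦ) * M / t := by
      rw [abs_neg]
      refine b1.trans (div_le_div_of_nonneg_right ?_ ht0.le)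
      nlinarith [mul_le_mul_of_nonneg_right hh0 hMΦ0]
    have c2 : |2 * I2| ≤ 16 * Cr * M / t := by
      rw [abs_mul, abs_two]
      have : 2 * (2 * (2 * M * Cr) / t) ≤ 16 * Cr * M / t := by
        rw [mul_div_assoc', div_le_div_iff_of_pos_right ht0]
        nlinarith [mul_nonneg hCr hM0]
      linarith
    have c3 : |h 0 * (I3 - (Real.log t + k))| ≤ Ck * M / t := by
      rw [abs_mul]
      calc |h 0| * |I3 - (Real.log t + k)| ≤ M * (Ck / t) := mul_le_mul hh0 b3 (abs_nonneg _) hM0
        _ = Ck * M / t := by ring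
    have c4 : 0 ≤ 4 * M / t := by positivity
    have := abs_add_le (-I1 + 2 * I2) (h 0 * (I3 - (Real.log t + k)))
    have := abs_add_le (-I1) (2 * I2)
    have e2 : (2 * (1 + MΦ) + 16 * Cr + Ck + 4) * M / t = 2 * (1 + MΦ) * M / t + 16 * Cr * M / t + Ck * M / t +
      4 * M / t := by ring
    rw [e2]
    linarith
  · intro f M hodd hsupp hM t ht
    have hM0 : 0 ≤ M := (abs_nonneg _).trans (hM.2 0).1
    have ht0 : 0 < t := by linarith
    have hf0 : f 0 = 0 := by
      have := hodd 0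
      rw [neg_zero] at this
      linarith
    have hG : ES (fun u => f u * Real.sin (t * u)) (1 / 2) := by
      refine ⟨hM.1.mul (Real.contDiff_sin.comp (contDiff_const.mul contDiff_id)), fun u => ?_, fun u hu => ?_⟩
      · simp only [hodd, mul_neg, Real.sin_neg]
        ring
      · simp only [hsupp u hu, zero_mul]
    have hex := Z2_exact hRH hΦ hG
    simp only [hf0, zero_mul, sub_zero, zero_add] at hex
    rw [hex]
    set F1 : ℝ → ℝ := fun u => f u / u with hF1
    set F2 : ℝ → ℝ := fun u => f u * r u with hF2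
    have hB1 : Z2_B F1 M := Z2_div hM hf0
    have hB2 : Z2_B F2 (2 * M * Cr) := Z2_mul hM hr'
    have hB2M : 0 ≤ 2 * M * Cr := by positivity
    have i1 : IntervalIntegrable (fun u => F1 u * Real.sin (t * u)) volume 0 1 :=
      Z2_int hM0 hB1 (by fun_prop) (fun u => Real.abs_sin_le_one _)
    have i2 : IntervalIntegrable (fun u => F2 u * Real.sin (t * u)) volume 0 1 :=
      Z2_int hB2M hB2 (by fun_prop) (fun u => Real.abs_sin_le_one _)
    have hint : ∫ u in (0 : ℝ)..1, (f u * Real.sin (t * u)) * kx u =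
        ∫ u in (0 : ℝ)..1, (-(1 / 2) * (F1 u * Real.sin (t * u)) + F2 u * Real.sin (t * u)) := by
      refine intervalIntegral.integral_congr_ae (Eventually.of_forall fun u hu => ?_)
      rw [uIoc_of_le zero_le_one] at hu
      have hu0 : u ≠ 0 := hu.1.ne'
      rw [hkx u hu.1 hu.2, hF1, hF2]
      field_simp
    rw [hint, intervalIntegral.integral_add (i1.const_mul _) i2, intervalIntegral.integral_const_mul]
    have b1 := Z2_sin hM0 hB1 ht0
    have b2 := Z2_sin hB2M hB2 ht0
    set I1 := ∫ u in (0 : ℝ)..1, F1 u * Real.sin (t * u)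
    set I2 := ∫ u in (0 : ℝ)..1, F2 u * Real.sin (t * u)
    have e : 2 * (-(1 / 2) * I1 + I2) = -I1 + 2 * I2 := by ring
    rw [e]
    have c2 : |2 * I2| ≤ 16 * Cr * M / t := by
      rw [abs_mul, abs_two]
      have : 2 * (4 * (2 * M * Cr) / t) ≤ 16 * Cr * M / t := by
        rw [mul_div_assoc', div_le_div_iff_of_pos_right ht0]
        nlinarith [mul_nonneg hCr hM0]
      linarith
    have := abs_add_le (-I1) (2 * I2)
    rw [abs_neg] at this
    have e2 : (2 * (1 + MΦ) + 16 * Cr + Ck + 4) * M / t = 2 * (1 + MΦ) * M / t + 16 * Cr * M / t + Ck * M / t +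
      4 * M / t := by ring
    have p1 : 0 ≤ 2 * (1 + MΦ) * M / t := by positivity
    have p2 : 0 ≤ Ck * M / t := by positivity
    rw [e2]
    linarith

private theorem Z2_half {C M t : ℝ} (hCM : 0 ≤ C * M) (ht : 1 ≤ t) : C * M / t ≤ C * M * t ^ (-(1 / 2) : ℝ) := by
  have ht0 : 0 < t := by linarith
  rw [div_eq_mul_inv]
  refine mul_le_mul_of_nonneg_left ?_ hCM
  rw [← Real.rpow_neg_one]
  exact Real.rpow_le_rpow_of_exponent_le ht (by norm_num)

/-- `cos (x c) ck W x` and `sin (x c) ck W x` as transforms -/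
private theorem Z2_cosmul {W : ℝ → ℝ} {s : ℝ} (hW : ES W s) (c x : ℝ) :
    Real.cos (x * c) * ck W x = ck (fun v => (W (v - c) + 1 * W (v + c)) / 2) x := by
  have i1 := Z2_cc hW.continuous hW.compact (φ := fun u => Real.cos (x * (u + c))) (by fun_prop)
  have i2 := Z2_cc hW.continuous hW.compact (φ := fun u => Real.cos (x * (u - c))) (by fun_prop)
  have j1 : ∫ v, W (v - c) * Real.cos (x * v) = ∫ u, W u * Real.cos (x * (u + c)) := by
    rw [← integral_sub_right_eq_self (fun u => W u * Real.cos (x * (u + c))) c]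
    simp
  have j2 : ∫ v, W (v + c) * Real.cos (x * v) = ∫ u, W u * Real.cos (x * (u - c)) := by
    rw [← integral_add_right_eq_self (fun u => W u * Real.cos (x * (u - c))) c]
    simp
  have k1 : Integrable (fun v => W (v - c) * Real.cos (x * v)) := by
    have := i1.comp_sub_right c
    simpa using this
  have k2 : Integrable (fun v => W (v + c) * Real.cos (x * v)) := by
    have := i2.comp_add_right c
    simpa using this
  have e : ck (fun v => (W (v - c) + 1 * W (v + c)) / 2) x =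
      (1 / 2) * (∫ v, W (v - c) * Real.cos (x * v)) + (1 / 2) * ∫ v, W (v + c) * Real.cos (x * v) := by
    unfold ck
    rw [← integral_const_mul, ← integral_const_mul, ← integral_add (k1.const_mul _) (k2.const_mul _)]
    congr 1
    funext v
    ring
  rw [e, j1, j2, ← integral_const_mul, ← integral_const_mul, ← integral_add (i1.const_mul _) (i2.const_mul _)]
  unfold ck
  rw [← integral_const_mul]
  congr 1
  funext u
  rw [mul_add, mul_sub, Real.cos_add, Real.cos_sub]
  ring

private theorem Z2_sinmul {W : ℝ → ℝ} {s : ℝ} (hW : ES W s) (c x : ℝ) :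
    Real.sin (x * c) * ck W x = ∫ v, (W (v - c) + (-1) * W (v + c)) / 2 * Real.sin (x * v) := by
  have i1 := Z2_cc hW.continuous hW.compact (φ := fun u => Real.sin (x * (u + c))) (by fun_prop)
  have i2 := Z2_cc hW.continuous hW.compact (φ := fun u => Real.sin (x * (u - c))) (by fun_prop)
  have j1 : ∫ v, W (v - c) * Real.sin (x * v) = ∫ u, W u * Real.sin (x * (u + c)) := by
    rw [← integral_sub_right_eq_self (fun u => W u * Real.sin (x * (u + c))) c]
    simp
  have j2 : ∫ v, W (v + c) * Real.sin (x * v) = ∫ u, W u * Real.sin (x * (u - c)) := by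
    rw [← integral_add_right_eq_self (fun u => W u * Real.sin (x * (u - c))) c]
    simp
  have k1 : Integrable (fun v => W (v - c) * Real.sin (x * v)) := by
    have := i1.comp_sub_right c
    simpa using this
  have k2 : Integrable (fun v => W (v + c) * Real.sin (x * v)) := by
    have := i2.comp_add_right c
    simpa using this
  have e : ∫ v, (W (v - c) + (-1) * W (v + c)) / 2 * Real.sin (x * v) =
      (1 / 2) * (∫ v, W (v - c) * Real.sin (x * v)) + (-(1 / 2)) * ∫ v, W (v + c) * Real.sin (x * v) := by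
    rw [← integral_const_mul, ← integral_const_mul, ← integral_add (k1.const_mul _) (k2.const_mul _)]
    congr 1
    funext v
    ring
  rw [e, j1, j2, ← integral_const_mul, ← integral_const_mul, ← integral_add (i1.const_mul _) (i2.const_mul _)]
  unfold ck
  rw [← integral_const_mul]
  congr 1
  funext u
  rw [mul_add, mul_sub, Real.sin_add, Real.sin_sub]
  ring

/-- LEAF Z2 (from W0, Z1, Z1b). Fix `Φ` with `EB Φ (1/2)`, `S = ∑' mx a * ck Φ a.im`, `k` of `frul_exact`, `r` of `kx_split`,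
`κ = S + k - 2 ∫_0^1 Φ r`. For `h` even, `ES h (1/2)`, `t ≥ 1`: by symmetry
`∑' mx a * ck h (t - a.im) = ∑' mx a * ck (fun u => h u * cos (t u)) a.im`, and with
`g u = h u cos (t u) - h 0 Φ u` (W0) `= h 0 S + 2 ∫_0^1 (h u cos (t u) - h 0 Φ u) kx u du`
`= h 0 (S + ∫_0^1 Φ (1 - cos (t u))/u - 2 ∫ Φ r) - ∫_0^1 ((h u - h 0 Φ u)/u) cos (t u) du + 2 ∫_0^1 h cos (t u) r`, and the last
two integrals are `O(1/t)` by parts. For `AA W t c`, `0 ≤ c ≤ 1/4`:
`e^(-i t c) AA W t c = ∑ mx a ∫ W(v - c) e^(-i t v) e^(i a.im v) dv`; by symmetry of the zeros `e^(i a.im v)` may be replaced by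
`cos (a.im v)`; the real part is the sum for the even function `(W(v - c) + W(v + c))/2 · cos (t v)` (value `W c` at `0`): as
before, uniformly in `c`; the imaginary part is minus the sum for the even function `(W(v - c) - W(v + c))/2 · sin (t v)`,
which vanishes at `0`: W0 and parts give `O(1/t)` uniformly in `c` (`(W(v - c) - W(v + c))/v` is smooth). -/
theorem kap_exists (hRH : RiemannHypothesis) : ∃ κ : ℝ, Kap κ ∧ KapA κ := by
  obtain ⟨κ, C, hC, hA, hB⟩ := Z2_main hRH
  refine ⟨κ, ?_, ?_⟩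
  · intro h hh
    obtain ⟨M, hM0, hM⟩ := Z2_exM hh
    refine ⟨C * M, mul_nonneg hC hM0, fun t ht => ?_⟩
    exact (hA h M hh hM t ht).trans (Z2_half (mul_nonneg hC hM0) ht)
  · intro W hW
    obtain ⟨M, hM0, hM⟩ := Z2_exM hW.es
    refine ⟨2 * (C * M), by positivity, fun c hc0 hc1 t ht => ?_⟩
    have ht0 : 0 < t := by linarith
    have hW2 : ES W (1 / 2) := ⟨hW.smooth, hW.even, fun u hu => hW.supp u (by linarith)⟩
    have hsumW := Z2_sum hW2 t
    -- real and imaginary parts
    have hterm : ∀ a : ℂ, cexp ((-(t * c) : ℝ) * I) * ((mx a : ℂ) * (cexp (((a.im * c : ℝ) : ℂ) * I) * (ck W (t - a.im) : ℂ))) =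
        (((mx a : ℝ) * (Real.cos ((t - a.im) * c) * ck W (t - a.im)) : ℝ) : ℂ) -
          (((mx a : ℝ) * (Real.sin ((t - a.im) * c) * ck W (t - a.im)) : ℝ) : ℂ) * I := by
      intro a
      have e1 : cexp ((-(t * c) : ℝ) * I) * cexp (((a.im * c : ℝ) : ℂ) * I) =
          (Real.cos ((t - a.im) * c) : ℂ) - (Real.sin ((t - a.im) * c) : ℂ) * I := by
        rw [← Complex.exp_add]
        have : ((-(t * c) : ℝ) : ℂ) * I + ((a.im * c : ℝ) : ℂ) * I = ((-((t - a.im) * c) : ℝ) : ℂ) * I := by
          push_cast; ring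
        rw [this, Complex.exp_mul_I, ← Complex.ofReal_cos, ← Complex.ofReal_sin, Real.cos_neg, Real.sin_neg]
        push_cast
        ring
      calc cexp ((-(t * c) : ℝ) * I) * ((mx a : ℂ) * (cexp (((a.im * c : ℝ) : ℂ) * I) * (ck W (t - a.im) : ℂ)))
          = (cexp ((-(t * c) : ℝ) * I) * cexp (((a.im * c : ℝ) : ℂ) * I)) * ((mx a : ℂ) * (ck W (t - a.im) : ℂ)) := by ring
        _ = _ := by
          rw [e1]
          push_cast
          ring
    have hs1 : Summable (fun a : ℂ => (mx a : ℝ) * (Real.cos ((t - a.im) * c) * ck W (t - a.im))) := by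
      refine Summable.of_norm_bounded hsumW fun a => ?_
      rw [norm_mul, Real.norm_natCast, norm_mul, Real.norm_eq_abs, Real.norm_eq_abs]
      refine mul_le_mul_of_nonneg_left ?_ (Nat.cast_nonneg _)
      exact mul_le_of_le_one_left (abs_nonneg _) (Real.abs_cos_le_one _)
    have hs2 : Summable (fun a : ℂ => (mx a : ℝ) * (Real.sin ((t - a.im) * c) * ck W (t - a.im))) := by
      refine Summable.of_norm_bounded hsumW fun a => ?_
      rw [norm_mul, Real.norm_natCast, norm_mul, Real.norm_eq_abs, Real.norm_eq_abs]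
      refine mul_le_mul_of_nonneg_left ?_ (Nat.cast_nonneg _)
      exact mul_le_of_le_one_left (abs_nonneg _) (Real.abs_sin_le_one _)
    have hAA : cexp ((-(t * c) : ℝ) * I) * AA W t c =
        ((∑' a : ℂ, (mx a : ℝ) * (Real.cos ((t - a.im) * c) * ck W (t - a.im)) : ℝ) : ℂ) -
          ((∑' a : ℂ, (mx a : ℝ) * (Real.sin ((t - a.im) * c) * ck W (t - a.im)) : ℝ) : ℂ) * I := by
      unfold AA
      rw [← tsum_mul_left, tsum_congr hterm, Summable.tsum_sub]
      · rw [tsum_mul_right, ← Complex.ofReal_tsum, ← Complex.ofReal_tsum]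
      · exact Complex.ofRealCLM.summable hs1
      · exact (Complex.ofRealCLM.summable hs2).mul_right I
    have hnorm : ‖AA W t c‖ ≤ |∑' a : ℂ, (mx a : ℝ) * (Real.cos ((t - a.im) * c) * ck W (t - a.im))| +
        |∑' a : ℂ, (mx a : ℝ) * (Real.sin ((t - a.im) * c) * ck W (t - a.im))| := by
      have h1 : ‖cexp ((-(t * c) : ℝ) * I) * AA W t c‖ = ‖AA W t c‖ := by
        rw [norm_mul, Complex.norm_exp_ofReal_mul_I, one_mul]
      rw [← h1, hAA]
      refine (norm_sub_le _ _).trans ?_
      rw [norm_mul, Complex.norm_I, mul_one, Complex.norm_real, Complex.norm_real, Real.norm_eq_abs, Real.norm_eq_abs]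
    -- the even part
    have hsp : ∀ u : ℝ, 1 / 2 ≤ |u| → W (u - c) = 0 ∧ W (u + c) = 0 := by
      intro u hu
      constructor
      · apply hW.supp
        have := abs_sub_abs_le_abs_sub u c
        rw [abs_of_nonneg hc0] at this
        linarith
      · apply hW.supp
        have := abs_sub_abs_le_abs_sub u (-c)
        rw [abs_neg, abs_of_nonneg hc0, sub_neg_eq_add] at this
        linarith
    have hp : ES (fun v => (W (v - c) + 1 * W (v + c)) / 2) (1 / 2) := by
      refine ⟨(Z2_shift hM c 1 (by simp)).1, fun u => ?_, fun u hu => ?_⟩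
      · have e1 : -u - c = -(u + c) := by ring
        have e2 : -u + c = -(u - c) := by ring
        simp only [e1, e2, hW.even]
        ring
      · simp only [(hsp u hu).1, (hsp u hu).2]
        norm_num
    have hre := hA _ M hp (Z2_shift hM c 1 (by simp)) t ht
    have hre0 : (W (0 - c) + 1 * W (0 + c)) / 2 = W c := by
      rw [zero_sub, zero_add, hW.even]
      ring
    simp only [hre0] at hre
    have hre1 : ∑' a : ℂ, (mx a : ℝ) * ck (fun v => (W (v - c) + 1 * W (v + c)) / 2) (t - a.im) =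
        ∑' a : ℂ, (mx a : ℝ) * (Real.cos ((t - a.im) * c) * ck W (t - a.im)) :=
      tsum_congr fun a => by rw [Z2_cosmul hW.es]
    rw [hre1] at hre
    -- the odd part
    have him := hB (fun v => (W (v - c) + (-1) * W (v + c)) / 2) M (fun u => by
        have e1 : -u - c = -(u + c) := by ring
        have e2 : -u + c = -(u - c) := by ring
        simp only [e1, e2, hW.even]
        ring) (fun u hu => by
        simp only [(hsp u hu).1, (hsp u hu).2]
        norm_num) (Z2_shift hM c (-1) (by simp)) t ht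
    have him1 : ∑' a : ℂ, (mx a : ℝ) * (Real.sin ((t - a.im) * c) * ck W (t - a.im)) =
        ∑' a : ℂ, (mx a : ℝ) * ck (fun u => (W (u - c) + (-1) * W (u + c)) / 2 * Real.sin (t * u)) a.im := by
      refine Z2_symm (φ := fun x => Real.sin ((t - x) * c) * ck W (t - x))
        (ψ := ck (fun u => (W (u - c) + (-1) * W (u + c)) / 2 * Real.sin (t * u))) hs2 fun x => ?_
      simp only [sub_neg_eq_add]
      rw [Z2_sinmul hW.es, Z2_sinmul hW.es]
      have hcont : Continuous (fun v => (W (v - c) + (-1) * W (v + c)) / 2) :=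
        (Z2_shift hM c (-1) (by simp)).1.continuous
      have hcs : HasCompactSupport (fun v => (W (v - c) + (-1) * W (v + c)) / 2) := by
        apply HasCompactSupport.intro (isCompact_Icc (a := -(1 / 2 : ℝ)) (b := 1 / 2))
        intro v hv
        have : (1 : ℝ) / 2 ≤ |v| := by
          by_contra hcon
          push Not at hcon
          rw [abs_lt] at hcon
          exact hv ⟨hcon.1.le, hcon.2.le⟩
        simp only [(hsp v this).1, (hsp v this).2]
        norm_num
      have i1 := Z2_cc hcont hcs (φ := fun u => Real.sin ((t - x) * u)) (by fun_prop)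
      have i2 := Z2_cc hcont hcs (φ := fun u => Real.sin ((t + x) * u)) (by fun_prop)
      unfold ck
      rw [← integral_add i1 i2, ← integral_const_mul]
      congr 1
      funext u
      have e1 : (t - x) * u = t * u - x * u := by ring
      have e2 : (t + x) * u = t * u + x * u := by ring
      rw [e1, e2, Real.sin_sub, Real.sin_add]
      ring
    rw [← him1] at him
    have hWc : 0 ≤ W c := hW.nonneg c
    have hfin : |∑' a : ℂ, (mx a : ℝ) * (Real.cos ((t - a.im) * c) * ck W (t - a.im))| ≤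
        W c * |Real.log t + κ| + C * M / t := by
      have e : ∑' a : ℂ, (mx a : ℝ) * (Real.cos ((t - a.im) * c) * ck W (t - a.im)) =
        W c * (Real.log t + κ) + (∑' a : ℂ, (mx a : ℝ) * (Real.cos ((t - a.im) * c) * ck W (t - a.im)) -
          W c * (Real.log t + κ)) := by ring
      rw [e]
      refine (abs_add_le _ _).trans ?_
      rw [abs_mul, abs_of_nonneg hWc]
      linarith
    have hh := Z2_half (mul_nonneg hC hM0) ht
    linarith

end Pool.Agent.Lib.MP_2a816b_nt.TA
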